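import Mathlib
open Complex Filter Topology Complex.HadamardThreeLines
open scoped Matrix Matrix.Norms.L2Operator
namespace Pool.Agent.X207.JL

/-- the von Neumann algebra of complex `2 × 2` matrices (operator norm) -/
abbrev M2 : Type := Matrix (Fin 2) (Fin 2) ℂ

/-- the Jordan product -/
noncomputable def jordan (x y : M2) : M2 := (1 / 2 : ℂ) • (x * y + y * x)

lemma jordan_comm (x y : M2) : jordan x y = jordan y x := by
  unfold jordan; rw [add_comm]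

/-- `C` is an admissible constant for `x` in the complex interpolation space of exponent `θ`
between `M2` and its predual, the latter norm being `x ↦ ‖φ (x ∘ ·)‖` -/
def Adm (φ : M2 →ₗ[ℂ] ℂ) (θ : ℝ) (x : M2) (C : ℝ) : Prop :=
  0 ≤ C ∧ ∃ F : ℂ → M2, DiffContOnCl ℂ F (verticalStrip 0 1) ∧
    (∃ B : ℝ, ∀ z ∈ verticalClosedStrip 0 1, ‖F z‖ ≤ B) ∧ (∀ t : ℝ, ‖F (t * I)‖ ≤ C) ∧
    (∀ (t : ℝ) (y : M2), ‖φ (jordan (F (1 + t * I)) y)‖ ≤ C * ‖y‖) ∧ F θ = x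

noncomputable def LpNorm (p : ℝ) (φ : M2 →ₗ[ℂ] ℂ) (x : M2) : ℝ := sInf {C | Adm φ (1 / p) x C}

lemma LpNorm_eq {φ : M2 →ₗ[ℂ] ℂ} {p : ℝ} {x : M2} {N : ℝ} (h1 : Adm φ (1 / p) x N)
    (h2 : ∀ C, Adm φ (1 / p) x C → N ≤ C) : LpNorm p φ x = N :=
  le_antisymm (csInf_le ⟨0, fun _ h => h.1⟩ h1) (le_csInf ⟨N, h1⟩ h2)

lemma LpNorm_nonneg (φ : M2 →ₗ[ℂ] ℂ) (p : ℝ) (x : M2) : 0 ≤ LpNorm p φ x :=
  Real.sInf_nonneg (fun _ h => h.1)

lemma LpNorm_le {φ : M2 →ₗ[ℂ] ℂ} {p : ℝ} {x : M2} {N : ℝ} (h1 : Adm φ (1 / p) x N) :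
    LpNorm p φ x ≤ N := csInf_le ⟨0, fun _ h => h.1⟩ h1

lemma diff_jordan {F G : ℂ → M2} {s : Set ℂ} (hF : DiffContOnCl ℂ F s) (hG : Differentiable ℂ G) :
    DiffContOnCl ℂ (fun z => jordan (F z) (G z)) s := by
  unfold jordan
  constructor
  · exact ((hF.1.mul hG.differentiableOn).add (hG.differentiableOn.mul hF.1)).const_smul (1 / 2 : ℂ)
  · exact ((hF.2.mul hG.continuous.continuousOn).add (hG.continuous.continuousOn.mul hF.2)).const_smul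
      (1 / 2 : ℂ)

lemma norm_jordan_le (x y : M2) : ‖jordan x y‖ ≤ ‖x‖ * ‖y‖ := by
  unfold jordan
  rw [norm_smul]
  have h1 := norm_add_le (x * y) (y * x)
  have h2 := norm_mul_le x y
  have h3 := norm_mul_le y x
  have e : ‖(1 / 2 : ℂ)‖ = 1 / 2 := by norm_num
  rw [e]
  nlinarith

lemma lower {φ : M2 →ₗ[ℂ] ℂ} {θ : ℝ} (h0 : 0 ≤ θ) (h1 : θ ≤ 1) {x : M2} {C : ℝ} (h : Adm φ θ x C)
    (G : ℂ → M2) (hG : Differentiable ℂ G) (hGb : ∃ B : ℝ, ∀ z ∈ verticalClosedStrip 0 1, ‖G z‖ ≤ B)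
    {a b : ℝ} (ha : 0 ≤ a) (hG0 : ∀ (t : ℝ) (y : M2), ‖φ (jordan (G (t * I)) y)‖ ≤ a * ‖y‖)
    (hG1 : ∀ t : ℝ, ‖G (1 + t * I)‖ ≤ b) :
    ‖φ (jordan x (G θ))‖ ≤ (a * C) ^ (1 - θ) * (C * b) ^ θ := by
  obtain ⟨hC, F, hFd, ⟨B1, hB1⟩, hF0, hF1, hFθ⟩ := h
  obtain ⟨B2, hB2⟩ := hGb
  set φc : M2 →L[ℂ] ℂ := LinearMap.toContinuousLinearMap φ with hφ
  have hφ' : ∀ y, φc y = φ y := fun y => rfl
  have hd : DiffContOnCl ℂ (fun z => φ (jordan (F z) (G z))) (verticalStrip 0 1) := by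
    have h2 := diff_jordan hFd hG
    constructor
    · exact φc.differentiable.comp_differentiableOn h2.1
    · exact φc.continuous.comp_continuousOn h2.2
  have hB : BddAbove ((norm ∘ fun z => φ (jordan (F z) (G z))) '' verticalClosedStrip 0 1) := by
    refine ⟨‖φc‖ * (B1 * B2), ?_⟩
    rintro _ ⟨z, hz, rfl⟩
    show ‖φ (jordan (F z) (G z))‖ ≤ _
    rw [← hφ']
    refine (φc.le_opNorm _).trans ?_
    apply mul_le_mul_of_nonneg_left _ (norm_nonneg _)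
    refine (norm_jordan_le _ _).trans ?_
    exact mul_le_mul (hB1 z hz) (hB2 z hz) (norm_nonneg _) ((norm_nonneg _).trans (hB1 z hz))
  have key := norm_le_interp_of_mem_verticalClosedStrip₀₁' (fun z => φ (jordan (F z) (G z)))
    (z := (θ : ℂ)) (a := a * C) (b := C * b)
    (by
      show (θ : ℂ).re ∈ Set.Icc (0 : ℝ) 1
      rw [ofReal_re]; exact ⟨h0, h1⟩) hd hB
    (by
      intro z hz
      have hz0 : z.re = 0 := hz
      have e : z = (z.im : ℝ) * I := by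
        apply Complex.ext <;> simp [hz0]
      rw [e, jordan_comm]
      refine (hG0 z.im _).trans ?_
      exact mul_le_mul_of_nonneg_left (hF0 z.im) ha)
    (by
      intro z hz
      have hz0 : z.re = 1 := hz
      have e : z = 1 + (z.im : ℝ) * I := by
        apply Complex.ext <;> simp [hz0]
      rw [e]
      refine (hF1 z.im _).trans ?_
      exact mul_le_mul_of_nonneg_left (hG1 z.im) hC)
  simp only [ofReal_re] at key
  rw [hFθ] at key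
  exact key

/-- `c r^{u + v z}` -/
noncomputable def E (c : ℂ) (r u v : ℝ) (z : ℂ) : ℂ := c * exp ((u + v * z) * Real.log r)

lemma norm_E (c : ℂ) (r u v : ℝ) (z : ℂ) : ‖E c r u v z‖ = ‖c‖ * Real.exp ((u + v * z.re) * Real.log r) := by
  unfold E
  rw [norm_mul, Complex.norm_exp]
  congr 2
  rw [Complex.re_mul_ofReal]
  simp

lemma diff_E (c : ℂ) (r u v : ℝ) : Differentiable ℂ (E c r u v) := by
  unfold E; fun_prop

lemma bdd_E (c : ℂ) (r u v : ℝ) : ∃ B : ℝ, 0 ≤ B ∧ ∀ z ∈ verticalClosedStrip 0 1, ‖E c r u v z‖ ≤ B := by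
  refine ⟨‖c‖ * Real.exp ((|u| + |v|) * |Real.log r|), by positivity, ?_⟩
  intro z hz
  have h1 : 0 ≤ z.re := hz.1
  have h2 : z.re ≤ 1 := hz.2
  rw [norm_E]
  apply mul_le_mul_of_nonneg_left _ (norm_nonneg _)
  apply Real.exp_le_exp.mpr
  refine (le_abs_self _).trans ?_
  rw [abs_mul]
  apply mul_le_mul_of_nonneg_right _ (abs_nonneg _)
  refine (abs_add_le _ _).trans ?_
  rw [abs_mul, abs_of_nonneg h1]
  nlinarith [abs_nonneg v]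

lemma re_I (t : ℝ) : ((t : ℂ) * I).re = 0 := by simp
lemma re_1I (t : ℝ) : (1 + (t : ℂ) * I).re = 1 := by simp

/-- a pair of matrices spanning an `L¹`-`L^∞` plane with weights, with its dual pair -/
structure Frame (φ : M2 →ₗ[ℂ] ℂ) (A B A' B' : M2) (w1 w2 : ℝ) : Prop where
  n0 : ∀ u v : ℂ, ‖u • A + v • B‖ ≤ max ‖u‖ ‖v‖
  n1 : ∀ (u v : ℂ) (y : M2), ‖φ (jordan (u • A + v • B) y)‖ ≤ (w1 * ‖u‖ + w2 * ‖v‖) * ‖y‖
  n0' : ∀ u v : ℂ, ‖u • A' + v • B'‖ ≤ max ‖u‖ ‖v‖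
  n1' : ∀ (u v : ℂ) (y : M2), ‖φ (jordan (u • A' + v • B') y)‖ ≤ (w1 * ‖u‖ + w2 * ‖v‖) * ‖y‖
  pair : ∀ u v u' v' : ℂ, φ (jordan (u • A + v • B) (u' • A' + v' • B')) = w1 * (u * u') + w2 * (v * v')

lemma adm_zero (φ : M2 →ₗ[ℂ] ℂ) (θ : ℝ) : Adm φ θ 0 0 := by
  refine ⟨le_rfl, fun _ => 0, diffContOnCl_const, ⟨0, fun z _ => by simp⟩, fun t => by simp, ?_, rfl⟩
  intro t y
  simp [jordan]

lemma bdd_comb {f g : ℂ → ℂ} (A B : M2)
    (hf : ∃ b : ℝ, 0 ≤ b ∧ ∀ z ∈ verticalClosedStrip 0 1, ‖f z‖ ≤ b)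
    (hg : ∃ b : ℝ, 0 ≤ b ∧ ∀ z ∈ verticalClosedStrip 0 1, ‖g z‖ ≤ b) :
    ∃ b : ℝ, ∀ z ∈ verticalClosedStrip 0 1, ‖f z • A + g z • B‖ ≤ b := by
  obtain ⟨b1, hb1, h1⟩ := hf
  obtain ⟨b2, hb2, h2⟩ := hg
  refine ⟨b1 * ‖A‖ + b2 * ‖B‖, fun z hz => ?_⟩
  refine (norm_add_le _ _).trans ?_
  rw [norm_smul, norm_smul]
  gcongr
  · exact h1 z hz
  · exact h2 z hz

lemma exp_neg_log {r : ℝ} (hr : 0 < r) (k : ℕ) : Real.exp (-(k : ℝ) * Real.log r) = (r ^ k)⁻¹ := by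
  rw [neg_mul, Real.exp_neg, Real.exp_nat_mul, Real.exp_log hr]

lemma exp_log_k {r : ℝ} (hr : 0 < r) (k : ℕ) : Real.exp ((k : ℝ) * Real.log r) = r ^ k := by
  rw [Real.exp_nat_mul, Real.exp_log hr]

/-- modulus computations for the four exponential factors -/
lemma nE1 (p : ℂ) (z : ℂ) (hz : z.re = 0) : ‖E p ‖p‖ (-1) 4 z‖ ≤ 1 := by
  rw [norm_E, hz]
  rcases eq_or_ne p 0 with rfl | hp
  · simp
  · have h := norm_pos_iff.mpr hp
    have e : (-1 + 4 * (0 : ℝ)) * Real.log ‖p‖ = -((1 : ℕ) : ℝ) * Real.log ‖p‖ := by push_cast; ring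
    rw [e, exp_neg_log h, pow_one, mul_inv_cancel₀ h.ne']

lemma nE2 (p : ℂ) (z : ℂ) (hz : z.re = 1) : ‖E p ‖p‖ (-1) 4 z‖ = ‖p‖ ^ 4 := by
  rw [norm_E, hz]
  rcases eq_or_ne p 0 with rfl | hp
  · simp
  · have h := norm_pos_iff.mpr hp
    have e : (-1 + 4 * (1 : ℝ)) * Real.log ‖p‖ = ((3 : ℕ) : ℝ) * Real.log ‖p‖ := by push_cast; ring
    rw [e, exp_log_k h]; ring

lemma nE3 (p : ℂ) : E p ‖p‖ (-1) 4 ((1 / 4 : ℝ) : ℂ) = p := by
  unfold E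
  have : (((-1 : ℝ) : ℂ) + ((4 : ℝ) : ℂ) * ((1 / 4 : ℝ) : ℂ)) * (Real.log ‖p‖ : ℂ) = 0 := by
    push_cast; ring
  rw [this, exp_zero, mul_one]

lemma nG1 (p : ℂ) (z : ℂ) (hz : z.re = 1) : ‖E (starRingEnd ℂ p) ‖p‖ 3 (-4) z‖ ≤ 1 := by
  rw [norm_E, hz, Complex.norm_conj]
  rcases eq_or_ne p 0 with rfl | hp
  · simp
  · have h := norm_pos_iff.mpr hp
    have e : (3 + -4 * (1 : ℝ)) * Real.log ‖p‖ = -((1 : ℕ) : ℝ) * Real.log ‖p‖ := by push_cast; ring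
    rw [e, exp_neg_log h, pow_one, mul_inv_cancel₀ h.ne']

lemma nG2 (p : ℂ) (z : ℂ) (hz : z.re = 0) : ‖E (starRingEnd ℂ p) ‖p‖ 3 (-4) z‖ = ‖p‖ ^ 4 := by
  rw [norm_E, hz, Complex.norm_conj]
  rcases eq_or_ne p 0 with rfl | hp
  · simp
  · have h := norm_pos_iff.mpr hp
    have e : (3 + -4 * (0 : ℝ)) * Real.log ‖p‖ = ((3 : ℕ) : ℝ) * Real.log ‖p‖ := by push_cast; ring
    rw [e, exp_log_k h]; ring

lemma nG3 (p : ℂ) : p * E (starRingEnd ℂ p) ‖p‖ 3 (-4) ((1 / 4 : ℝ) : ℂ) = ((‖p‖ ^ 4 : ℝ) : ℂ) := by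
  rcases eq_or_ne p 0 with rfl | hp
  · simp
  · have h := norm_pos_iff.mpr hp
    unfold E
    have e : (((3 : ℝ) : ℂ) + ((-4 : ℝ) : ℂ) * ((1 / 4 : ℝ) : ℂ)) * (Real.log ‖p‖ : ℂ) =
        ((((2 : ℕ) : ℝ) * Real.log ‖p‖ : ℝ) : ℂ) := by
      push_cast; ring
    rw [e, ← Complex.ofReal_exp, exp_log_k h, ← mul_assoc, Complex.mul_conj, Complex.normSq_eq_norm_sq]
    push_cast; ring

theorem quartic {φ : M2 →ₗ[ℂ] ℂ} {A B A' B' : M2} {w1 w2 : ℝ} (hF : Frame φ A B A' B' w1 w2)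
    (hw1 : 0 < w1) (hw2 : 0 < w2) (p q : ℂ) :
    LpNorm 4 φ (p • A + q • B) ^ 4 = w1 * ‖p‖ ^ 4 + w2 * ‖q‖ ^ 4 := by
  by_cases h0 : p = 0 ∧ q = 0
  · obtain ⟨rfl, rfl⟩ := h0
    have : LpNorm 4 φ ((0 : ℂ) • A + (0 : ℂ) • B) = 0 := by
      rw [zero_smul, zero_smul, add_zero]
      exact LpNorm_eq (adm_zero φ _) (fun C h => h.1)
    rw [this]; simp
  have hS : 0 < w1 * ‖p‖ ^ 4 + w2 * ‖q‖ ^ 4 := by
    rcases not_and_or.mp h0 with h | h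
    · have := norm_pos_iff.mpr h; positivity
    · have := norm_pos_iff.mpr h; positivity
  set S := w1 * ‖p‖ ^ 4 + w2 * ‖q‖ ^ 4 with hSdef
  obtain ⟨N, hN0, hN⟩ : ∃ N : ℝ, 0 < N ∧ N ^ 4 = S := by
    refine ⟨S ^ ((1 : ℝ) / 4), Real.rpow_pos_of_pos hS _, ?_⟩
    rw [← Real.rpow_natCast, ← Real.rpow_mul hS.le]
    norm_num
  have hup : Adm φ (1 / 4) (p • A + q • B) N := by
    refine ⟨hN0.le, fun z => (E 1 N 1 (-4) z * E p ‖p‖ (-1) 4 z) • A +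
      (E 1 N 1 (-4) z * E q ‖q‖ (-1) 4 z) • B, ?_, ?_, ?_, ?_, ?_⟩
    · apply Differentiable.diffContOnCl
      exact (((diff_E _ _ _ _).mul (diff_E _ _ _ _)).smul_const A).add
        (((diff_E _ _ _ _).mul (diff_E _ _ _ _)).smul_const B)
    · have hm : ∀ r : ℂ, ∃ b : ℝ, 0 ≤ b ∧ ∀ z ∈ verticalClosedStrip 0 1,
          ‖E 1 N 1 (-4) z * E r ‖r‖ (-1) 4 z‖ ≤ b := by
        intro r
        obtain ⟨b1, hb1, h1⟩ := bdd_E 1 N 1 (-4)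
        obtain ⟨b2, hb2, h2⟩ := bdd_E r ‖r‖ (-1) 4
        refine ⟨b1 * b2, by positivity, fun z hz => ?_⟩
        rw [norm_mul]
        exact mul_le_mul (h1 z hz) (h2 z hz) (norm_nonneg _) hb1
      exact bdd_comb A B (hm p) (hm q)
    · intro t
      refine (hF.n0 _ _).trans ?_
      have hE : ‖E 1 N 1 (-4) (t * I)‖ = N := by
        rw [norm_E, re_I, norm_one]
        have : (1 + -4 * (0 : ℝ)) * Real.log N = Real.log N := by ring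
        rw [this, Real.exp_log hN0, one_mul]
      rw [norm_mul, norm_mul, hE]
      apply max_le
      · have := nE1 p (t * I) (re_I t)
        nlinarith
      · have := nE1 q (t * I) (re_I t)
        nlinarith
    · intro t y
      refine (hF.n1 _ _ y).trans ?_
      have hE : ‖E 1 N 1 (-4) (1 + t * I)‖ = (N ^ 3)⁻¹ := by
        rw [norm_E, re_1I, norm_one]
        have : (1 + -4 * (1 : ℝ)) * Real.log N = -((3 : ℕ) : ℝ) * Real.log N := by push_cast; ring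
        rw [this, exp_neg_log hN0, one_mul]
      rw [norm_mul, norm_mul, hE, nE2 p _ (re_1I t), nE2 q _ (re_1I t)]
      apply mul_le_mul_of_nonneg_right _ (norm_nonneg _)
      apply le_of_eq
      have : w1 * ((N ^ 3)⁻¹ * ‖p‖ ^ 4) + w2 * ((N ^ 3)⁻¹ * ‖q‖ ^ 4) = (N ^ 3)⁻¹ * S := by
        rw [hSdef]; ring
      rw [this, ← hN]
      field_simp
    · have hE : E 1 N 1 (-4) ((1 / 4 : ℝ) : ℂ) = 1 := by
        unfold E
        have : (((1 : ℝ) : ℂ) + ((-4 : ℝ) : ℂ) * ((1 / 4 : ℝ) : ℂ)) * (Real.log N : ℂ) = 0 := by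
          push_cast; ring
        rw [this, exp_zero, mul_one]
      simp only []
      rw [hE, one_mul, one_mul, nE3, nE3]
  have hlow : ∀ C, Adm φ (1 / 4) (p • A + q • B) C → N ≤ C := by
    intro C hC
    have h := lower (by norm_num) (by norm_num) hC
      (fun z => E (starRingEnd ℂ p) ‖p‖ 3 (-4) z • A' + E (starRingEnd ℂ q) ‖q‖ 3 (-4) z • B')
      (((diff_E _ _ _ _).smul_const A').add ((diff_E _ _ _ _).smul_const B'))
      (bdd_comb A' B' (bdd_E _ _ _ _) (bdd_E _ _ _ _)) (a := S) (b := 1) hS.le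
      (fun t y => by
        refine (hF.n1' _ _ y).trans ?_
        rw [nG2 p _ (re_I t), nG2 q _ (re_I t)])
      (fun t => by
        refine (hF.n0' _ _).trans ?_
        exact max_le (nG1 p _ (re_1I t)) (nG1 q _ (re_1I t)))
    rw [hF.pair, nG3, nG3, mul_one] at h
    have e1 : ((w1 : ℂ) * ((‖p‖ ^ 4 : ℝ) : ℂ) + (w2 : ℂ) * ((‖q‖ ^ 4 : ℝ) : ℂ)) = ((S : ℝ) : ℂ) := by
      rw [hSdef]; push_cast; ring
    rw [e1, Complex.norm_real, Real.norm_of_nonneg hS.le] at h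
    have hC0 := hC.1
    rcases hC0.eq_or_lt with h2 | h2
    · rw [← h2] at h
      rw [Real.zero_rpow (by norm_num), mul_zero] at h
      linarith
    · have e2 : (S * C) ^ ((1 : ℝ) - 1 / 4) * C ^ ((1 : ℝ) / 4) = N ^ 3 * C := by
        rw [← hN, Real.mul_rpow (by positivity) h2.le, mul_assoc, ← Real.rpow_add h2,
          ← Real.rpow_natCast N 4, ← Real.rpow_mul hN0.le]
        norm_num
      rw [e2, ← hN] at h
      have h3 : 0 < N ^ 3 := by positivity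
      have h4 : N ^ 3 * N ≤ N ^ 3 * C := by nlinarith
      exact le_of_mul_le_mul_left h4 h3
  have := LpNorm_eq (p := 4) hup hlow
  rw [this, hN]

/-- a pair of matrices spanning a weighted Hilbertian plane, with its dual pair -/
structure RFrame (φ : M2 →ₗ[ℂ] ℂ) (A B A' B' : M2) (w1 w2 : ℝ) : Prop where
  n0 : ∀ u v : ℂ, ‖u • A + v • B‖ ^ 2 ≤ ‖u‖ ^ 2 + ‖v‖ ^ 2
  n1 : ∀ (u v : ℂ) (y : M2), ‖φ (jordan (u • A + v • B) y)‖ ^ 2 ≤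
    (w1 ^ 2 * ‖u‖ ^ 2 + w2 ^ 2 * ‖v‖ ^ 2) * ‖y‖ ^ 2
  n0' : ∀ u v : ℂ, ‖u • A' + v • B'‖ ^ 2 ≤ ‖u‖ ^ 2 + ‖v‖ ^ 2
  n1' : ∀ (u v : ℂ) (y : M2), ‖φ (jordan (u • A' + v • B') y)‖ ^ 2 ≤
    (w1 ^ 2 * ‖u‖ ^ 2 + w2 ^ 2 * ‖v‖ ^ 2) * ‖y‖ ^ 2
  pair : ∀ u v u' v' : ℂ, φ (jordan (u • A + v • B) (u' • A' + v' • B')) = w1 * (u * u') + w2 * (v * v')

lemma nR0 (p : ℂ) {h : ℝ} (hh : 0 < h) (z : ℂ) (hz : z.re = 0) : ‖E p h 1 (-4) z‖ = ‖p‖ * h := by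
  rw [norm_E, hz]
  have e : (1 + -4 * (0 : ℝ)) * Real.log h = ((1 : ℕ) : ℝ) * Real.log h := by push_cast; ring
  rw [e, exp_log_k hh, pow_one]

lemma nR1 (p : ℂ) {h : ℝ} (hh : 0 < h) (z : ℂ) (hz : z.re = 1) : ‖E p h 1 (-4) z‖ = ‖p‖ * (h ^ 3)⁻¹ := by
  rw [norm_E, hz]
  have e : (1 + -4 * (1 : ℝ)) * Real.log h = -((3 : ℕ) : ℝ) * Real.log h := by push_cast; ring
  rw [e, exp_neg_log hh]

lemma nR3 (p : ℂ) (h : ℝ) : E p h 1 (-4) ((1 / 4 : ℝ) : ℂ) = p := by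
  unfold E
  have : (((1 : ℝ) : ℂ) + ((-4 : ℝ) : ℂ) * ((1 / 4 : ℝ) : ℂ)) * (Real.log h : ℂ) = 0 := by
    push_cast; ring
  rw [this, exp_zero, mul_one]

lemma nS1 (p : ℂ) {h : ℝ} (hh : 0 < h) (z : ℂ) (hz : z.re = 1) :
    ‖E (starRingEnd ℂ p) h (-3) 4 z‖ = ‖p‖ * h := by
  rw [norm_E, hz, Complex.norm_conj]
  have e : (-3 + 4 * (1 : ℝ)) * Real.log h = ((1 : ℕ) : ℝ) * Real.log h := by push_cast; ring
  rw [e, exp_log_k hh, pow_one]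

lemma nS0 (p : ℂ) {h : ℝ} (hh : 0 < h) (z : ℂ) (hz : z.re = 0) :
    ‖E (starRingEnd ℂ p) h (-3) 4 z‖ = ‖p‖ * (h ^ 3)⁻¹ := by
  rw [norm_E, hz, Complex.norm_conj]
  have e : (-3 + 4 * (0 : ℝ)) * Real.log h = -((3 : ℕ) : ℝ) * Real.log h := by push_cast; ring
  rw [e, exp_neg_log hh]

lemma nS3 (p : ℂ) {h : ℝ} (hh : 0 < h) :
    p * E (starRingEnd ℂ p) h (-3) 4 ((1 / 4 : ℝ) : ℂ) = ((‖p‖ ^ 2 * (h ^ 2)⁻¹ : ℝ) : ℂ) := by
  unfold E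
  have e : (((-3 : ℝ) : ℂ) + ((4 : ℝ) : ℂ) * ((1 / 4 : ℝ) : ℂ)) * (Real.log h : ℂ) =
      ((-((2 : ℕ) : ℝ) * Real.log h : ℝ) : ℂ) := by
    push_cast; ring
  rw [e, ← Complex.ofReal_exp, exp_neg_log hh, ← mul_assoc, Complex.mul_conj,
    Complex.normSq_eq_norm_sq]
  push_cast; ring

theorem quadr {φ : M2 →ₗ[ℂ] ℂ} {A B A' B' : M2} {w1 w2 : ℝ} (hF : RFrame φ A B A' B' w1 w2)
    {h1 h2 : ℝ} (hh1 : 0 < h1) (hh2 : 0 < h2) (hw1 : w1 = h1 ^ 4) (hw2 : w2 = h2 ^ 4) (p q : ℂ) :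
    LpNorm 4 φ (p • A + q • B) ^ 2 = h1 ^ 2 * ‖p‖ ^ 2 + h2 ^ 2 * ‖q‖ ^ 2 := by
  by_cases h0 : p = 0 ∧ q = 0
  · obtain ⟨rfl, rfl⟩ := h0
    have : LpNorm 4 φ ((0 : ℂ) • A + (0 : ℂ) • B) = 0 := by
      rw [zero_smul, zero_smul, add_zero]
      exact LpNorm_eq (adm_zero φ _) (fun C h => h.1)
    rw [this]; simp
  have hS : 0 < h1 ^ 2 * ‖p‖ ^ 2 + h2 ^ 2 * ‖q‖ ^ 2 := by
    rcases not_and_or.mp h0 with h | h
    · have := norm_pos_iff.mpr h; positivity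
    · have := norm_pos_iff.mpr h; positivity
  set S := h1 ^ 2 * ‖p‖ ^ 2 + h2 ^ 2 * ‖q‖ ^ 2 with hSdef
  obtain ⟨N, hN0, hN⟩ : ∃ N : ℝ, 0 < N ∧ N ^ 2 = S :=
    ⟨Real.sqrt S, Real.sqrt_pos.mpr hS, Real.sq_sqrt hS.le⟩
  have hup : Adm φ (1 / 4) (p • A + q • B) N := by
    refine ⟨hN0.le, fun z => E p h1 1 (-4) z • A + E q h2 1 (-4) z • B, ?_, ?_, ?_, ?_, ?_⟩
    · apply Differentiable.diffContOnCl
      exact ((diff_E _ _ _ _).smul_const A).add ((diff_E _ _ _ _).smul_const B)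
    · exact bdd_comb A B (bdd_E _ _ _ _) (bdd_E _ _ _ _)
    · intro t
      apply le_of_sq_le_sq _ hN0.le
      refine (hF.n0 _ _).trans ?_
      rw [nR0 p hh1 _ (re_I t), nR0 q hh2 _ (re_I t), hN, hSdef]
      apply le_of_eq; ring
    · intro t y
      apply le_of_sq_le_sq _ (by positivity)
      refine (hF.n1 _ _ y).trans ?_
      rw [nR1 p hh1 _ (re_1I t), nR1 q hh2 _ (re_1I t), mul_pow N, hN, hSdef, hw1, hw2]
      apply mul_le_mul_of_nonneg_right _ (by positivity)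
      apply le_of_eq
      field_simp
    · simp only []
      rw [nR3, nR3]
  have hlow : ∀ C, Adm φ (1 / 4) (p • A + q • B) C → N ≤ C := by
    intro C hC
    have h := lower (by norm_num) (by norm_num) hC
      (fun z => E (starRingEnd ℂ p) h1 (-3) 4 z • A' + E (starRingEnd ℂ q) h2 (-3) 4 z • B')
      (((diff_E _ _ _ _).smul_const A').add ((diff_E _ _ _ _).smul_const B'))
      (bdd_comb A' B' (bdd_E _ _ _ _) (bdd_E _ _ _ _)) (a := N) (b := N) hN0.le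
      (fun t y => by
        apply le_of_sq_le_sq _ (by positivity)
        refine (hF.n1' _ _ y).trans ?_
        rw [nS0 p hh1 _ (re_I t), nS0 q hh2 _ (re_I t), mul_pow N, hN, hSdef, hw1, hw2]
        apply mul_le_mul_of_nonneg_right _ (by positivity)
        apply le_of_eq
        field_simp)
      (fun t => by
        apply le_of_sq_le_sq _ hN0.le
        refine (hF.n0' _ _).trans ?_
        rw [nS1 p hh1 _ (re_1I t), nS1 q hh2 _ (re_1I t), hN, hSdef]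
        apply le_of_eq; ring)
    rw [hF.pair, nS3 p hh1, nS3 q hh2] at h
    have e1 : ((w1 : ℂ) * ((‖p‖ ^ 2 * (h1 ^ 2)⁻¹ : ℝ) : ℂ) + (w2 : ℂ) * ((‖q‖ ^ 2 * (h2 ^ 2)⁻¹ : ℝ) : ℂ)) =
        ((S : ℝ) : ℂ) := by
      rw [← Complex.ofReal_mul, ← Complex.ofReal_mul, ← Complex.ofReal_add, hSdef, hw1, hw2]
      congr 1
      field_simp
    rw [e1, Complex.norm_real, Real.norm_of_nonneg hS.le] at h
    have hC0 := hC.1
    have e2 : (N * C) ^ ((1 : ℝ) - 1 / 4) * (C * N) ^ ((1 : ℝ) / 4) = N * C := by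
      rw [mul_comm C N]
      rcases hC0.eq_or_lt with h2 | h2
      · rw [← h2, mul_zero, Real.zero_rpow (by norm_num), zero_mul]
      · rw [← Real.rpow_add (by positivity)]
        norm_num
    rw [e2, ← hN] at h
    have h4 : N * N ≤ N * C := by nlinarith
    exact le_of_mul_le_mul_left h4 hN0
  have := LpNorm_eq (p := 4) hup hlow
  rw [this, hN]

end Pool.Agent.X207.JL
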