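import Mathlib
import Pool.Agent.X207.JL1
open Complex Filter Topology Complex.HadamardThreeLines
open scoped Matrix Matrix.Norms.L2Operator
namespace Pool.Agent.X207.JL

lemma norm_diag (u v : ℂ) : ‖(!![u, 0; 0, v] : M2)‖ = max ‖u‖ ‖v‖ := by
  have e : (!![u, 0; 0, v] : M2) = Matrix.diagonal ![u, v] := by
    ext i j; fin_cases i <;> fin_cases j <;> simp
  rw [e, Matrix.l2_opNorm_diagonal]
  apply le_antisymm
  · rw [pi_norm_le_iff_of_nonneg (le_max_of_le_left (norm_nonneg _))]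
    intro i; fin_cases i <;> simp
  · apply max_le
    · exact norm_le_pi_norm (![u, v]) 0
    · exact norm_le_pi_norm (![u, v]) 1

lemma csq (y : M2) : ‖y‖ ^ 2 = ‖yᴴ * y‖ := by
  rw [Matrix.l2_opNorm_conjTranspose_mul_self, sq]

lemma csq' (y : M2) : ‖y‖ ^ 2 = ‖y * yᴴ‖ := by
  have := csq yᴴ
  rw [Matrix.l2_opNorm_conjTranspose, Matrix.conjTranspose_conjTranspose] at this
  exact this

lemma norm_col (a c : ℂ) : ‖(!![a, 0; c, 0] : M2)‖ ^ 2 = ‖a‖ ^ 2 + ‖c‖ ^ 2 := by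
  rw [csq]
  have e : (!![a, 0; c, 0] : M2)ᴴ * !![a, 0; c, 0] = !![((‖a‖ ^ 2 + ‖c‖ ^ 2 : ℝ) : ℂ), 0; 0, 0] := by
    ext i j
    fin_cases i <;> fin_cases j <;>
      simp [Matrix.mul_apply, Fin.sum_univ_two, Matrix.conjTranspose_apply, ← Complex.normSq_eq_conj_mul_self,
        Complex.normSq_eq_norm_sq]
  rw [e, norm_diag, Complex.norm_real, norm_zero, Real.norm_of_nonneg (by positivity)]
  exact max_eq_left (by positivity)

lemma norm_col1 (b d : ℂ) : ‖(!![0, b; 0, d] : M2)‖ ^ 2 = ‖b‖ ^ 2 + ‖d‖ ^ 2 := by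
  rw [csq]
  have e : (!![0, b; 0, d] : M2)ᴴ * !![0, b; 0, d] = !![0, 0; 0, ((‖b‖ ^ 2 + ‖d‖ ^ 2 : ℝ) : ℂ)] := by
    ext i j
    fin_cases i <;> fin_cases j <;>
      simp [Matrix.mul_apply, Fin.sum_univ_two, Matrix.conjTranspose_apply, ← Complex.normSq_eq_conj_mul_self,
        Complex.normSq_eq_norm_sq]
  rw [e, norm_diag, Complex.norm_real, norm_zero, Real.norm_of_nonneg (by positivity)]
  exact max_eq_right (by positivity)

lemma norm_row (a b : ℂ) : ‖(!![a, b; 0, 0] : M2)‖ ^ 2 = ‖a‖ ^ 2 + ‖b‖ ^ 2 := by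
  rw [csq']
  have e : (!![a, b; 0, 0] : M2) * (!![a, b; 0, 0] : M2)ᴴ = !![((‖a‖ ^ 2 + ‖b‖ ^ 2 : ℝ) : ℂ), 0; 0, 0] := by
    ext i j
    fin_cases i <;> fin_cases j <;>
      simp [Matrix.mul_apply, Fin.sum_univ_two, Matrix.conjTranspose_apply, Complex.mul_conj,
        Complex.normSq_eq_norm_sq]
  rw [e, norm_diag, Complex.norm_real, norm_zero, Real.norm_of_nonneg (by positivity)]
  exact max_eq_left (by positivity)

lemma norm_row1 (c d : ℂ) : ‖(!![0, 0; c, d] : M2)‖ ^ 2 = ‖c‖ ^ 2 + ‖d‖ ^ 2 := by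
  rw [csq']
  have e : (!![0, 0; c, d] : M2) * (!![0, 0; c, d] : M2)ᴴ = !![0, 0; 0, ((‖c‖ ^ 2 + ‖d‖ ^ 2 : ℝ) : ℂ)] := by
    ext i j
    fin_cases i <;> fin_cases j <;>
      simp [Matrix.mul_apply, Fin.sum_univ_two, Matrix.conjTranspose_apply, Complex.mul_conj,
        Complex.normSq_eq_norm_sq]
  rw [e, norm_diag, Complex.norm_real, norm_zero, Real.norm_of_nonneg (by positivity)]
  exact max_eq_right (by positivity)

lemma norm_anti (u v : ℂ) : ‖(!![0, u; v, 0] : M2)‖ = max ‖u‖ ‖v‖ := by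
  have e : (!![0, u; v, 0] : M2)ᴴ * !![0, u; v, 0] = !![((‖v‖ ^ 2 : ℝ) : ℂ), 0; 0, ((‖u‖ ^ 2 : ℝ) : ℂ)] := by
    ext i j
    fin_cases i <;> fin_cases j <;>
      simp [Matrix.mul_apply, Fin.sum_univ_two, Matrix.conjTranspose_apply, ← Complex.normSq_eq_conj_mul_self,
        Complex.normSq_eq_norm_sq]
  have h := csq (!![0, u; v, 0] : M2)
  rw [e, norm_diag, Complex.norm_real, Complex.norm_real, Real.norm_of_nonneg (by positivity),
    Real.norm_of_nonneg (by positivity)] at h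
  apply (pow_left_inj₀ (norm_nonneg _) (le_max_of_le_left (norm_nonneg _)) two_ne_zero).mp
  rw [h]
  rcases le_total ‖u‖ ‖v‖ with h2 | h2
  · rw [max_eq_right h2, max_eq_left (pow_le_pow_left₀ (norm_nonneg _) h2 2)]
  · rw [max_eq_left h2, max_eq_right (pow_le_pow_left₀ (norm_nonneg _) h2 2)]

lemma col_le (y : M2) : ‖y 0 0‖ ^ 2 + ‖y 1 0‖ ^ 2 ≤ ‖y‖ ^ 2 := by
  rw [← norm_col]
  have e : (!![y 0 0, 0; y 1 0, 0] : M2) = y * !![1, 0; 0, 0] := by
    ext i j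
    fin_cases i <;> fin_cases j <;> simp [Matrix.mul_apply, Fin.sum_univ_two]
  rw [e]
  have h := norm_mul_le y (!![1, 0; 0, 0] : M2)
  rw [norm_diag] at h
  simp at h
  exact pow_le_pow_left₀ (norm_nonneg _) h 2

lemma col_le1 (y : M2) : ‖y 0 1‖ ^ 2 + ‖y 1 1‖ ^ 2 ≤ ‖y‖ ^ 2 := by
  rw [← norm_col1]
  have e : (!![0, y 0 1; 0, y 1 1] : M2) = y * !![0, 0; 0, 1] := by
    ext i j
    fin_cases i <;> fin_cases j <;> simp [Matrix.mul_apply, Fin.sum_univ_two]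
  rw [e]
  have h := norm_mul_le y (!![0, 0; 0, 1] : M2)
  rw [norm_diag] at h
  simp at h
  exact pow_le_pow_left₀ (norm_nonneg _) h 2

lemma row_le (y : M2) : ‖y 0 0‖ ^ 2 + ‖y 0 1‖ ^ 2 ≤ ‖y‖ ^ 2 := by
  rw [← norm_row]
  have e : (!![y 0 0, y 0 1; 0, 0] : M2) = !![1, 0; 0, 0] * y := by
    ext i j
    fin_cases i <;> fin_cases j <;> simp [Matrix.mul_apply, Fin.sum_univ_two]
  rw [e]
  have h := norm_mul_le (!![1, 0; 0, 0] : M2) y
  have e2 : max ‖(1 : ℂ)‖ ‖(0 : ℂ)‖ = 1 := by simp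
  rw [norm_diag, e2, one_mul] at h
  exact pow_le_pow_left₀ (norm_nonneg _) h 2

lemma row_le1 (y : M2) : ‖y 1 0‖ ^ 2 + ‖y 1 1‖ ^ 2 ≤ ‖y‖ ^ 2 := by
  rw [← norm_row1]
  have e : (!![0, 0; y 1 0, y 1 1] : M2) = !![0, 0; 0, 1] * y := by
    ext i j
    fin_cases i <;> fin_cases j <;> simp [Matrix.mul_apply, Fin.sum_univ_two]
  rw [e]
  have h := norm_mul_le (!![0, 0; 0, 1] : M2) y
  have e2 : max ‖(0 : ℂ)‖ ‖(1 : ℂ)‖ = 1 := by simp
  rw [norm_diag, e2, one_mul] at h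
  exact pow_le_pow_left₀ (norm_nonneg _) h 2

lemma ent00 (y : M2) : ‖y 0 0‖ ≤ ‖y‖ := by
  apply le_of_sq_le_sq _ (norm_nonneg _)
  nlinarith [col_le y, sq_nonneg ‖y 1 0‖]
lemma ent11 (y : M2) : ‖y 1 1‖ ≤ ‖y‖ := by
  apply le_of_sq_le_sq _ (norm_nonneg _)
  nlinarith [col_le1 y, sq_nonneg ‖y 0 1‖]
lemma ent01 (y : M2) : ‖y 0 1‖ ≤ ‖y‖ := by
  apply le_of_sq_le_sq _ (norm_nonneg _)
  nlinarith [col_le1 y, sq_nonneg ‖y 1 1‖]
lemma ent10 (y : M2) : ‖y 1 0‖ ≤ ‖y‖ := by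
  apply le_of_sq_le_sq _ (norm_nonneg _)
  nlinarith [col_le y, sq_nonneg ‖y 0 0‖]

/-- the state with density `diag(a, b)` -/
noncomputable def st (a b : ℝ) : M2 →ₗ[ℂ] ℂ where
  toFun y := a * y 0 0 + b * y 1 1
  map_add' x y := by simp [Matrix.add_apply]; ring
  map_smul' c x := by simp [Matrix.smul_apply]; ring

lemma st_apply (a b : ℝ) (y : M2) : st a b y = a * y 0 0 + b * y 1 1 := rfl

lemma st_jordan {a b : ℝ} (hab : a + b = 1) (x y : M2) : st a b (jordan x y) =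
    a * (x 0 0 * y 0 0) + b * (x 1 1 * y 1 1) + 1 / 2 * (x 0 1 * y 1 0 + x 1 0 * y 0 1) := by
  have hb' : b = 1 - a := by linarith
  have hb : (b : ℂ) = 1 - a := by rw [hb']; push_cast; ring
  rw [st_apply, hb]
  simp only [jordan, Matrix.smul_apply, Matrix.add_apply, Matrix.mul_apply, Fin.sum_univ_two, smul_eq_mul]
  ring

abbrev e11 : M2 := !![1, 0; 0, 0]
abbrev e12 : M2 := !![0, 1; 0, 0]
abbrev e21 : M2 := !![0, 0; 1, 0]
abbrev e22 : M2 := !![0, 0; 0, 1]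

lemma c1122 (u v : ℂ) : u • e11 + v • e22 = !![u, 0; 0, v] := by
  ext i j; fin_cases i <;> fin_cases j <;> simp
lemma c1221 (u v : ℂ) : u • e12 + v • e21 = !![0, u; v, 0] := by
  ext i j; fin_cases i <;> fin_cases j <;> simp
lemma c2112 (u v : ℂ) : u • e21 + v • e12 = !![0, v; u, 0] := by
  ext i j; fin_cases i <;> fin_cases j <;> simp
lemma c1112 (u v : ℂ) : u • e11 + v • e12 = !![u, v; 0, 0] := by
  ext i j; fin_cases i <;> fin_cases j <;> simp
lemma c1121 (u v : ℂ) : u • e11 + v • e21 = !![u, 0; v, 0] := by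
  ext i j; fin_cases i <;> fin_cases j <;> simp
lemma c2212 (u v : ℂ) : u • e22 + v • e12 = !![0, v; 0, u] := by
  ext i j; fin_cases i <;> fin_cases j <;> simp
lemma c2221 (u v : ℂ) : u • e22 + v • e21 = !![0, 0; v, u] := by
  ext i j; fin_cases i <;> fin_cases j <;> simp

lemma frame_diag {a b : ℝ} (hab : a + b = 1) (ha : 0 < a) (hb : 0 < b) :
    Frame (st a b) e11 e22 e11 e22 a b := by
  have n1 : ∀ (u v : ℂ) (y : M2), ‖st a b (jordan (u • e11 + v • e22) y)‖ ≤ (a * ‖u‖ + b * ‖v‖) * ‖y‖ := by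
    intro u v y
    rw [st_jordan hab, c1122]
    simp only [Matrix.of_apply, Matrix.cons_val', Matrix.cons_val_zero, Matrix.cons_val_one,
      Matrix.cons_val_fin_one, zero_mul, add_zero, mul_zero]
    have h1 := ent00 y
    have h2 := ent11 y
    refine (norm_add_le _ _).trans ?_
    rw [norm_mul, norm_mul, norm_mul, norm_mul, Complex.norm_real, Complex.norm_real,
      Real.norm_of_nonneg ha.le, Real.norm_of_nonneg hb.le]
    have := mul_le_mul_of_nonneg_left h1 (mul_nonneg ha.le (norm_nonneg u))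
    have := mul_le_mul_of_nonneg_left h2 (mul_nonneg hb.le (norm_nonneg v))
    nlinarith
  refine ⟨fun u v => ?_, n1, fun u v => ?_, n1, fun u v u' v' => ?_⟩
  · rw [c1122, norm_diag]
  · rw [c1122, norm_diag]
  · rw [st_jordan hab, c1122, c1122]
    simp

lemma frame_anti {a b : ℝ} (hab : a + b = 1) :
    Frame (st a b) e12 e21 e21 e12 (1 / 2) (1 / 2) := by
  have key : ∀ (u v : ℂ) (y : M2), ‖(1 / 2 : ℂ) * (u * y 1 0 + v * y 0 1)‖ ≤
      (1 / 2 * ‖u‖ + 1 / 2 * ‖v‖) * ‖y‖ := by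
    intro u v y
    have h1 := ent10 y
    have h2 := ent01 y
    have e : ‖(1 / 2 : ℂ)‖ = 1 / 2 := by norm_num
    rw [norm_mul, e]
    have h3 := norm_add_le (u * y 1 0) (v * y 0 1)
    rw [norm_mul, norm_mul] at h3
    have := mul_le_mul_of_nonneg_left h1 (norm_nonneg u)
    have := mul_le_mul_of_nonneg_left h2 (norm_nonneg v)
    nlinarith
  refine ⟨fun u v => ?_, fun u v y => ?_, fun u v => ?_, fun u v y => ?_, fun u v u' v' => ?_⟩
  · rw [c1221, norm_anti]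
  · rw [st_jordan hab, c1221]
    simp only [Matrix.of_apply, Matrix.cons_val', Matrix.cons_val_zero, Matrix.cons_val_one,
      Matrix.cons_val_fin_one, zero_mul, zero_add, mul_zero]
    exact key u v y
  · rw [c2112, norm_anti, max_comm]
  · rw [st_jordan hab, c2112]
    simp only [Matrix.of_apply, Matrix.cons_val', Matrix.cons_val_zero, Matrix.cons_val_one,
      Matrix.cons_val_fin_one, zero_mul, zero_add, mul_zero]
    have := key v u y
    rw [add_comm (1 / 2 * ‖v‖)] at this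
    exact this
  · rw [st_jordan hab, c1221, c2112]
    simp
    ring

lemma cs2 (w : ℝ) (hw : 0 ≤ w) (u v p q : ℂ) (r : ℝ) (hr : ‖p‖ ^ 2 + ‖q‖ ^ 2 ≤ r ^ 2) :
    ‖(w : ℂ) * (u * p) + 1 / 2 * (v * q)‖ ^ 2 ≤ (w ^ 2 * ‖u‖ ^ 2 + (1 / 2) ^ 2 * ‖v‖ ^ 2) * r ^ 2 := by
  have h3 := norm_add_le ((w : ℂ) * (u * p)) (1 / 2 * (v * q))
  have e : ‖(1 / 2 : ℂ)‖ = 1 / 2 := by norm_num
  rw [norm_mul, norm_mul, norm_mul, norm_mul, Complex.norm_real, Real.norm_of_nonneg hw, e] at h3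
  have h4 := pow_le_pow_left₀ (norm_nonneg _) h3 2
  refine h4.trans ?_
  have h5 : (w * (‖u‖ * ‖p‖) + 1 / 2 * (‖v‖ * ‖q‖)) ^ 2 ≤
      (w ^ 2 * ‖u‖ ^ 2 + (1 / 2) ^ 2 * ‖v‖ ^ 2) * (‖p‖ ^ 2 + ‖q‖ ^ 2) := by
    nlinarith [sq_nonneg (w * ‖u‖ * ‖q‖ - 1 / 2 * ‖v‖ * ‖p‖)]
  refine h5.trans ?_
  exact mul_le_mul_of_nonneg_left hr (by positivity)

lemma rframe_1112 {a b : ℝ} (hab : a + b = 1) (ha : 0 < a) :
    RFrame (st a b) e11 e12 e11 e21 a (1 / 2) := by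
  refine ⟨fun u v => ?_, fun u v y => ?_, fun u v => ?_, fun u v y => ?_, fun u v u' v' => ?_⟩
  · rw [c1112, norm_row]
  · rw [st_jordan hab, c1112]
    simp only [Matrix.of_apply, Matrix.cons_val', Matrix.cons_val_zero, Matrix.cons_val_one,
      Matrix.cons_val_fin_one, zero_mul, add_zero, mul_zero]
    exact cs2 a ha.le u v _ _ _ (col_le y)
  · rw [c1121, norm_col]
  · rw [st_jordan hab, c1121]
    simp only [Matrix.of_apply, Matrix.cons_val', Matrix.cons_val_zero, Matrix.cons_val_one,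
      Matrix.cons_val_fin_one, zero_mul, add_zero, mul_zero, zero_add]
    exact cs2 a ha.le u v _ _ _ (row_le y)
  · rw [st_jordan hab, c1112, c1121]
    simp

lemma rframe_1121 {a b : ℝ} (hab : a + b = 1) (ha : 0 < a) :
    RFrame (st a b) e11 e21 e11 e12 a (1 / 2) := by
  have h := rframe_1112 hab ha
  refine ⟨h.n0', h.n1', h.n0, h.n1, fun u v u' v' => ?_⟩
  rw [jordan_comm, h.pair]; ring

lemma rframe_2212 {a b : ℝ} (hab : a + b = 1) (hb : 0 < b) :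
    RFrame (st a b) e22 e12 e22 e21 b (1 / 2) := by
  refine ⟨fun u v => ?_, fun u v y => ?_, fun u v => ?_, fun u v y => ?_, fun u v u' v' => ?_⟩
  · rw [c2212, norm_col1, add_comm]
  · rw [st_jordan hab, c2212]
    simp only [Matrix.of_apply, Matrix.cons_val', Matrix.cons_val_zero, Matrix.cons_val_one,
      Matrix.cons_val_fin_one, zero_mul, add_zero, mul_zero, zero_add]
    apply cs2 b hb.le u v _ _ _
    rw [add_comm]; exact row_le1 y
  · rw [c2221, norm_row1, add_comm]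
  · rw [st_jordan hab, c2221]
    simp only [Matrix.of_apply, Matrix.cons_val', Matrix.cons_val_zero, Matrix.cons_val_one,
      Matrix.cons_val_fin_one, zero_mul, add_zero, mul_zero, zero_add]
    apply cs2 b hb.le u v _ _ _
    rw [add_comm]; exact col_le1 y
  · rw [st_jordan hab, c2212, c2221]
    simp

lemma rframe_2221 {a b : ℝ} (hab : a + b = 1) (hb : 0 < b) :
    RFrame (st a b) e22 e21 e22 e12 b (1 / 2) := by
  have h := rframe_2212 hab hb
  refine ⟨h.n0', h.n1', h.n0, h.n1, fun u v u' v' => ?_⟩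
  rw [jordan_comm, h.pair]; ring

end Pool.Agent.X207.JL
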