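import Mathlib
import Pool.Agent.X207.JL2
open Complex Filter Topology Complex.HadamardThreeLines
open scoped Matrix Matrix.Norms.L2Operator
namespace Pool.Agent.X207.JL

lemma tau_jordan (x y : M2) : st (1 / 2) (1 / 2) (jordan x y) = 1 / 2 * (x * y).trace := by
  rw [st_jordan (by norm_num), Matrix.trace_fin_two]
  simp only [Matrix.mul_apply, Fin.sum_univ_two]
  push_cast
  ring

lemma tau_conj (U V x y : M2) :
    st (1 / 2) (1 / 2) (jordan (U * x * V) y) = st (1 / 2) (1 / 2) (jordan x (V * y * U)) := by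
  rw [tau_jordan, tau_jordan]
  congr 1
  rw [Matrix.mul_assoc, Matrix.mul_assoc, Matrix.trace_mul_comm, Matrix.mul_assoc, Matrix.mul_assoc]

lemma norm_unit {U : M2} (h : Uᴴ * U = 1) : ‖U‖ = 1 := by
  have e : (1 : M2) = !![1, 0; 0, 1] := by
    ext i j; fin_cases i <;> fin_cases j <;> simp
  have h1 := csq U
  rw [h, e, norm_diag, norm_one, max_self] at h1
  have := norm_nonneg U
  nlinarith

lemma norm_conj_le {U V : M2} (hU : Uᴴ * U = 1) (hV : Vᴴ * V = 1) (x : M2) : ‖U * x * V‖ ≤ ‖x‖ := by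
  have h1 := norm_mul_le (U * x) V
  have h2 := norm_mul_le U x
  rw [norm_unit hV] at h1
  rw [norm_unit hU] at h2
  linarith

lemma frame_conj {U V A B A' B' : M2} {w1 w2 : ℝ} (hU : Uᴴ * U = 1) (hV : Vᴴ * V = 1)
    (hF : Frame (st (1 / 2) (1 / 2)) A B A' B' w1 w2) :
    Frame (st (1 / 2) (1 / 2)) (U * A * V) (U * B * V) (Vᴴ * A' * Uᴴ) (Vᴴ * B' * Uᴴ) w1 w2 := by
  have hU' : U * Uᴴ = 1 := mul_eq_one_comm.mp hU
  have hV' : V * Vᴴ = 1 := mul_eq_one_comm.mp hV
  have hUs : (Uᴴ)ᴴ * Uᴴ = 1 := by rw [Matrix.conjTranspose_conjTranspose]; exact hU'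
  have hVs : (Vᴴ)ᴴ * Vᴴ = 1 := by rw [Matrix.conjTranspose_conjTranspose]; exact hV'
  have e : ∀ (P Q C D : M2) (u v : ℂ), u • (P * C * Q) + v • (P * D * Q) = P * (u • C + v • D) * Q := by
    intro P Q C D u v
    simp only [Matrix.mul_add, Matrix.add_mul, Matrix.mul_smul, Matrix.smul_mul]
  refine ⟨fun u v => ?_, fun u v y => ?_, fun u v => ?_, fun u v y => ?_, fun u v u' v' => ?_⟩
  · rw [e]; exact (norm_conj_le hU hV _).trans (hF.n0 u v)
  · rw [e, tau_conj]
    refine (hF.n1 u v _).trans ?_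
    have h1 := hF.n1 u v 1
    have h2 : 0 ≤ (w1 * ‖u‖ + w2 * ‖v‖) := by
      have h3 := (norm_nonneg _).trans h1
      have h4 : ‖(1 : M2)‖ = 1 := norm_unit (by simp)
      rwa [h4, mul_one] at h3
    exact mul_le_mul_of_nonneg_left (norm_conj_le hV hU _) h2
  · rw [e]; exact (norm_conj_le hVs hUs _).trans (hF.n0' u v)
  · rw [e, tau_conj]
    refine (hF.n1' u v _).trans ?_
    have h1 := hF.n1' u v 1
    have h2 : 0 ≤ (w1 * ‖u‖ + w2 * ‖v‖) := by
      have h3 := (norm_nonneg _).trans h1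
      have h4 : ‖(1 : M2)‖ = 1 := norm_unit (by simp)
      rwa [h4, mul_one] at h3
    exact mul_le_mul_of_nonneg_left (norm_conj_le hUs hVs _) h2
  · rw [e, e, tau_conj]
    have : V * (Vᴴ * (u' • A' + v' • B') * Uᴴ) * U = u' • A' + v' • B' := by
      calc V * (Vᴴ * (u' • A' + v' • B') * Uᴴ) * U
          = (V * Vᴴ) * (u' • A' + v' • B') * (Uᴴ * U) := by simp only [Matrix.mul_assoc]
        _ = _ := by rw [hU, hV', Matrix.one_mul, Matrix.mul_one]
    rw [this, hF.pair]

/-- squared Frobenius norm -/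
noncomputable def Fro (y : M2) : ℝ := normSq (y 0 0) + normSq (y 0 1) + normSq (y 1 0) + normSq (y 1 1)
def dd (y : M2) : ℂ := y 0 0 * y 1 1 - y 0 1 * y 1 0

lemma Fro_trace (y : M2) : ((Fro y : ℝ) : ℂ) = (yᴴ * y).trace := by
  rw [Matrix.trace_fin_two]
  simp only [Matrix.mul_apply, Fin.sum_univ_two, Matrix.conjTranspose_apply, Fro, RCLike.star_def]
  rw [← Complex.normSq_eq_conj_mul_self, ← Complex.normSq_eq_conj_mul_self,
    ← Complex.normSq_eq_conj_mul_self, ← Complex.normSq_eq_conj_mul_self]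
  push_cast; ring

lemma Fro_conj {U V : M2} (hU : Uᴴ * U = 1) (hV : Vᴴ * V = 1) (x : M2) : Fro (U * x * V) = Fro x := by
  have hV' : V * Vᴴ = 1 := mul_eq_one_comm.mp hV
  have h : ((Fro (U * x * V) : ℝ) : ℂ) = ((Fro x : ℝ) : ℂ) := by
    rw [Fro_trace, Fro_trace]
    have e : (U * x * V)ᴴ * (U * x * V) = Vᴴ * (xᴴ * x * V) := by
      calc (U * x * V)ᴴ * (U * x * V) = Vᴴ * (xᴴ * ((Uᴴ * U) * x) * V) := by
            simp only [Matrix.conjTranspose_mul, Matrix.mul_assoc]
        _ = _ := by rw [hU, Matrix.one_mul]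
    rw [e, Matrix.trace_mul_comm, Matrix.mul_assoc, hV', Matrix.mul_one]
  exact_mod_cast h

lemma dd_mul (x y : M2) : dd (x * y) = dd x * dd y := by
  simp only [dd, Matrix.mul_apply, Fin.sum_univ_two]; ring

lemma dd_unit {U : M2} (hU : Uᴴ * U = 1) : ‖dd U‖ = 1 := by
  have h : dd (Uᴴ * U) = 1 := by rw [hU]; simp [dd]
  rw [dd_mul] at h
  have e : dd Uᴴ = starRingEnd ℂ (dd U) := by
    simp only [dd, Matrix.conjTranspose_apply, RCLike.star_def, map_sub, map_mul]; ring
  rw [e, ← Complex.normSq_eq_conj_mul_self] at h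
  have h2 : normSq (dd U) = 1 := by exact_mod_cast h
  rw [Complex.normSq_eq_norm_sq] at h2
  have := norm_nonneg (dd U)
  nlinarith

lemma svd (y : M2) : ∃ (U V : M2) (a b : ℂ), Uᴴ * U = 1 ∧ Vᴴ * V = 1 ∧ y = U * !![a, 0; 0, b] * V := by
  have hH : (yᴴ * y).IsHermitian := Matrix.isHermitian_conjTranspose_mul_self y
  obtain ⟨W, hW, hWo⟩ : ∃ W : M2, Wᴴ * W = 1 ∧ ((y * W)ᴴ * (y * W)) 0 1 = 0 := by
    refine ⟨hH.eigenvectorUnitary, ?_, ?_⟩
    · have := hH.eigenvectorUnitary.2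
      exact (Matrix.mem_unitaryGroup_iff'.mp this)
    · have h := hH.conjStarAlgAut_star_eigenvectorUnitary
      rw [Unitary.conjStarAlgAut_apply] at h
      have e : (y * (hH.eigenvectorUnitary : M2))ᴴ * (y * (hH.eigenvectorUnitary : M2)) =
          Matrix.diagonal (RCLike.ofReal ∘ hH.eigenvalues) := by
        rw [← h]
        simp only [Matrix.conjTranspose_mul, Matrix.mul_assoc, Unitary.coe_star, Matrix.star_eq_conjTranspose, Matrix.conjTranspose_conjTranspose]
      rw [e]; simp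
  have hWW : W * Wᴴ = 1 := mul_eq_one_comm.mp hW
  set z := y * W with hz
  have hy : y = z * Wᴴ := by rw [hz, Matrix.mul_assoc, hWW, Matrix.mul_one]
  have ho : starRingEnd ℂ (z 0 0) * z 0 1 + starRingEnd ℂ (z 1 0) * z 1 1 = 0 := by
    have := hWo
    simpa only [Matrix.mul_apply, Fin.sum_univ_two, Matrix.conjTranspose_apply, RCLike.star_def] using this
  suffices h : ∃ (U : M2) (a b : ℂ), Uᴴ * U = 1 ∧ z = U * !![a, 0; 0, b] by
    obtain ⟨U, a, b, hU, hzU⟩ := h
    refine ⟨U, Wᴴ, a, b, hU, ?_, ?_⟩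
    · rw [Matrix.conjTranspose_conjTranspose]; exact hWW
    · rw [← hzU]; exact hy
  have uni : ∀ (p q : ℂ) (n : ℝ), 0 < n → n ^ 2 = normSq p + normSq q →
      (!![p / n, - starRingEnd ℂ q / n; q / n, starRingEnd ℂ p / n] : M2)ᴴ *
      !![p / n, - starRingEnd ℂ q / n; q / n, starRingEnd ℂ p / n] = 1 := by
    intro p q n hn hn2
    have hnc : (n : ℂ) ≠ 0 := by exact_mod_cast hn.ne'
    have hn2c : (n : ℂ) ^ 2 = p * starRingEnd ℂ p + q * starRingEnd ℂ q := by
      rw [Complex.mul_conj, Complex.mul_conj]; exact_mod_cast hn2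
    ext i j
    fin_cases i <;> fin_cases j
    · simp [Matrix.mul_apply, Fin.sum_univ_two, Matrix.conjTranspose_apply]
      field_simp
      linear_combination (-1 : ℂ) * hn2c
    · simp [Matrix.mul_apply, Fin.sum_univ_two, Matrix.conjTranspose_apply]
      field_simp
      ring
    · simp [Matrix.mul_apply, Fin.sum_univ_two, Matrix.conjTranspose_apply]
      field_simp
      ring
    · simp [Matrix.mul_apply, Fin.sum_univ_two, Matrix.conjTranspose_apply]
      field_simp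
      linear_combination (-1 : ℂ) * hn2c
  by_cases h0 : z 0 0 = 0 ∧ z 1 0 = 0
  · by_cases h1 : z 0 1 = 0 ∧ z 1 1 = 0
    · refine ⟨1, 0, 0, by simp, ?_⟩
      ext i j
      fin_cases i <;> fin_cases j <;> simp [h0.1, h0.2, h1.1, h1.2]
    · have hpos : 0 < normSq (starRingEnd ℂ (z 1 1)) + normSq (-starRingEnd ℂ (z 0 1)) := by
        rw [normSq_neg, normSq_conj, normSq_conj]
        rcases not_and_or.mp h1 with h | h
        · have := normSq_pos.mpr h; have := normSq_nonneg (z 1 1); linarith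
        · have := normSq_pos.mpr h; have := normSq_nonneg (z 0 1); linarith
      set n := Real.sqrt (normSq (starRingEnd ℂ (z 1 1)) + normSq (-starRingEnd ℂ (z 0 1))) with hn
      have hn0 : 0 < n := Real.sqrt_pos.mpr hpos
      have hnc : (n : ℂ) ≠ 0 := by exact_mod_cast hn0.ne'
      refine ⟨_, 0, n, uni _ _ n hn0 (Real.sq_sqrt hpos.le), ?_⟩
      ext i j
      fin_cases i <;> fin_cases j
      · simp [Matrix.mul_apply, Fin.sum_univ_two, h0.1]
      · simp [Matrix.mul_apply, Fin.sum_univ_two]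
        field_simp
      · simp [Matrix.mul_apply, Fin.sum_univ_two, h0.2]
      · simp [Matrix.mul_apply, Fin.sum_univ_two]
        field_simp
  · have hpos : 0 < normSq (z 0 0) + normSq (z 1 0) := by
      rcases not_and_or.mp h0 with h | h
      · have := normSq_pos.mpr h; have := normSq_nonneg (z 1 0); linarith
      · have := normSq_pos.mpr h; have := normSq_nonneg (z 0 0); linarith
    set n := Real.sqrt (normSq (z 0 0) + normSq (z 1 0)) with hn
    have hn0 : 0 < n := Real.sqrt_pos.mpr hpos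
    have hn2 : n ^ 2 = normSq (z 0 0) + normSq (z 1 0) := Real.sq_sqrt hpos.le
    have hnc : (n : ℂ) ≠ 0 := by exact_mod_cast hn0.ne'
    have hn2c : (n : ℂ) ^ 2 = z 0 0 * starRingEnd ℂ (z 0 0) + z 1 0 * starRingEnd ℂ (z 1 0) := by
      rw [Complex.mul_conj, Complex.mul_conj]; exact_mod_cast hn2
    refine ⟨_, n, (z 0 0 * z 1 1 - z 0 1 * z 1 0) / n, uni _ _ n hn0 hn2, ?_⟩
    ext i j
    fin_cases i <;> fin_cases j
    · simp [Matrix.mul_apply, Fin.sum_univ_two]
      field_simp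
    · simp [Matrix.mul_apply, Fin.sum_univ_two]
      field_simp
      linear_combination (z 0 1) * hn2c + (z 0 0) * ho
    · simp [Matrix.mul_apply, Fin.sum_univ_two]
      field_simp
    · simp [Matrix.mul_apply, Fin.sum_univ_two]
      field_simp
      linear_combination (z 1 1) * hn2c + (z 1 0) * ho

/-- the fourth power of the tracial `L⁴` norm is `½ Nq` -/
noncomputable def Nq (y : M2) : ℝ := Fro y ^ 2 - 2 * ‖dd y‖ ^ 2

theorem norm_tau (y : M2) : LpNorm 4 (st (1 / 2) (1 / 2)) y ^ 4 = 1 / 2 * Nq y := by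
  obtain ⟨U, V, a, b, hU, hV, hy⟩ := svd y
  have hF := frame_conj hU hV (frame_diag (a := 1 / 2) (b := 1 / 2) (by norm_num) (by norm_num) (by norm_num))
  have h := quartic hF (by norm_num) (by norm_num) a b
  have e : a • (U * e11 * V) + b • (U * e22 * V) = y := by
    rw [hy, ← c1122]
    simp only [Matrix.mul_add, Matrix.add_mul, Matrix.mul_smul, Matrix.smul_mul]
  rw [e] at h
  rw [h, Nq]
  have h1 : Fro y = ‖a‖ ^ 2 + ‖b‖ ^ 2 := by
    rw [hy, Fro_conj hU hV]
    simp [Fro, Complex.normSq_eq_norm_sq]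
  have h2 : ‖dd y‖ = ‖a‖ * ‖b‖ := by
    rw [hy, dd_mul, dd_mul, norm_mul, norm_mul, dd_unit hU, dd_unit hV]
    simp [dd]
  rw [h1, h2]; ring

end Pool.Agent.X207.JL
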