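import Mathlib
import Pool.Agent.X207.JL3
open Complex Filter Topology Complex.HadamardThreeLines
open scoped Matrix Matrix.Norms.L2Operator
namespace Pool.Agent.X207.JL

/-- comparison of coefficients of a real polynomial identity -/
lemma extract {X Y c1 c2 m1 m2 d1 d2 e1 e2 A E μ : ℝ}
    (h : ∀ t1 t2 : ℝ, (X + (t1 ^ 2 + t2 ^ 2) * Y + 2 * (c1 * t1 - c2 * t2)) ^ 2 -
      2 * ((d1 + m1 * t1 - m2 * t2 + e1 * (t1 ^ 2 - t2 ^ 2) - 2 * e2 * t1 * t2) ^ 2 +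
        (d2 + m1 * t2 + m2 * t1 + e2 * (t1 ^ 2 - t2 ^ 2) + 2 * e1 * t1 * t2) ^ 2) =
      A + μ * (t1 ^ 2 + t2 ^ 2) + E * (t1 ^ 2 + t2 ^ 2) ^ 2) :
    X ^ 2 - 2 * (d1 ^ 2 + d2 ^ 2) = A ∧ Y ^ 2 - 2 * (e1 ^ 2 + e2 ^ 2) = E ∧
    2 * X * Y + 2 * (c1 ^ 2 + c2 ^ 2) - 2 * (m1 ^ 2 + m2 ^ 2) = μ ∧
    X * c1 = d1 * m1 + d2 * m2 ∧ X * c2 = d1 * m2 - d2 * m1 ∧
    Y * c1 = m1 * e1 + m2 * e2 ∧ Y * c2 = m1 * e2 - m2 * e1 ∧
    c1 ^ 2 - c2 ^ 2 = 2 * (d1 * e1 + d2 * e2) ∧ c1 * c2 = d1 * e2 - d2 * e1 := by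
  have h0 := h 0 0
  have h1 := h 1 0
  have h2 := h (-1) 0
  have h3 := h 0 1
  have h4 := h 0 (-1)
  have h5 := h 2 0
  have h6 := h (-2) 0
  have h7 := h 0 2
  have h8 := h 0 (-2)
  have h9 := h 1 1
  have h10 := h (-1) (-1)
  have hA : X ^ 2 - 2 * (d1 ^ 2 + d2 ^ 2) = A := by linear_combination h0
  have hE : Y ^ 2 - 2 * (e1 ^ 2 + e2 ^ 2) = E := by
    linear_combination (1 / 12 : ℝ) * ((h5 + h6 + h7 + h8) / 4 - (h1 + h2 + h3 + h4) + 3 * h0)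
  have hm : 2 * X * Y + 2 * (c1 ^ 2 + c2 ^ 2) - 2 * (m1 ^ 2 + m2 ^ 2) = μ := by
    linear_combination (h1 + h2 + h3 + h4) / 4 - hA - hE
  refine ⟨hA, hE, hm, ?_, ?_, ?_, ?_, ?_, ?_⟩
  · linear_combination (1 / 48 : ℝ) * (8 * (h1 - h2) - (h5 - h6))
  · linear_combination (-1 / 48 : ℝ) * (8 * (h3 - h4) - (h7 - h8))
  · linear_combination (1 / 48 : ℝ) * ((h5 - h6) - 2 * (h1 - h2))
  · linear_combination (-1 / 48 : ℝ) * ((h7 - h8) - 2 * (h3 - h4))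
  · linear_combination (1 / 8 : ℝ) * (h1 + h2 - h3 - h4)
  · linear_combination (-1 / 8 : ℝ) * ((h9 + h10) / 2 - hA - 2 * hm - 4 * hE)

def cc (x y : M2) : ℂ := starRingEnd ℂ (x 0 0) * y 0 0 + starRingEnd ℂ (x 0 1) * y 0 1 +
  starRingEnd ℂ (x 1 0) * y 1 0 + starRingEnd ℂ (x 1 1) * y 1 1
def mm (x y : M2) : ℂ := x 0 0 * y 1 1 + x 1 1 * y 0 0 - x 0 1 * y 1 0 - x 1 0 * y 0 1

lemma Fro_lin (x y : M2) (t1 t2 : ℝ) : Fro (x + (t1 + t2 * I : ℂ) • y) =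
    Fro x + (t1 ^ 2 + t2 ^ 2) * Fro y + 2 * ((cc x y).re * t1 - (cc x y).im * t2) := by
  simp [Fro, cc, normSq_apply, Matrix.add_apply, Matrix.smul_apply]
  ring

lemma dd_lin (x y : M2) (t1 t2 : ℝ) : ‖dd (x + (t1 + t2 * I : ℂ) • y)‖ ^ 2 =
    ((dd x).re + (mm x y).re * t1 - (mm x y).im * t2 + (dd y).re * (t1 ^ 2 - t2 ^ 2)
      - 2 * (dd y).im * t1 * t2) ^ 2 +
    ((dd x).im + (mm x y).re * t2 + (mm x y).im * t1 + (dd y).im * (t1 ^ 2 - t2 ^ 2)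
      + 2 * (dd y).re * t1 * t2) ^ 2 := by
  have e : dd (x + (t1 + t2 * I : ℂ) • y) = dd x + (t1 + t2 * I : ℂ) * mm x y +
      (t1 + t2 * I : ℂ) ^ 2 * dd y := by
    simp only [dd, mm, Matrix.add_apply, Matrix.smul_apply, smul_eq_mul]; ring
  rw [← Complex.normSq_eq_norm_sq, e, normSq_apply]
  simp [sq]
  ring

/-- the coefficient comparison for matrices -/
lemma extractM {x y : M2} {A E μ : ℝ}
    (h : ∀ t : ℂ, Nq (x + t • y) = A + μ * ‖t‖ ^ 2 + E * ‖t‖ ^ 4) :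
    Fro x ^ 2 - 2 * ‖dd x‖ ^ 2 = A ∧ Fro y ^ 2 - 2 * ‖dd y‖ ^ 2 = E ∧
    2 * Fro x * Fro y + 2 * ‖cc x y‖ ^ 2 - 2 * ‖mm x y‖ ^ 2 = μ ∧
    Fro x ^ 2 * ‖cc x y‖ ^ 2 = ‖dd x‖ ^ 2 * ‖mm x y‖ ^ 2 ∧
    Fro y ^ 2 * ‖cc x y‖ ^ 2 = ‖mm x y‖ ^ 2 * ‖dd y‖ ^ 2 ∧
    ‖cc x y‖ ^ 4 = 4 * ‖dd x‖ ^ 2 * ‖dd y‖ ^ 2 := by
  have key := extract (X := Fro x) (Y := Fro y) (c1 := (cc x y).re) (c2 := (cc x y).im)
    (m1 := (mm x y).re) (m2 := (mm x y).im) (d1 := (dd x).re) (d2 := (dd x).im)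
    (e1 := (dd y).re) (e2 := (dd y).im) (A := A) (E := E) (μ := μ) (by
      intro t1 t2
      have h1 := h (t1 + t2 * I)
      have e : ‖(t1 + t2 * I : ℂ)‖ ^ 2 = t1 ^ 2 + t2 ^ 2 := by
        rw [← Complex.normSq_eq_norm_sq, normSq_apply]; simp; ring
      have e4 : ‖(t1 + t2 * I : ℂ)‖ ^ 4 = (t1 ^ 2 + t2 ^ 2) ^ 2 := by rw [← e]; ring
      rw [Nq, Fro_lin, dd_lin, e4, e] at h1
      exact h1)
  obtain ⟨k1, k2, k3, k4, k5, k6, k7, k8, k9⟩ := key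
  have ed : ‖dd x‖ ^ 2 = (dd x).re ^ 2 + (dd x).im ^ 2 := by
    rw [← Complex.normSq_eq_norm_sq, normSq_apply]; ring
  have ee : ‖dd y‖ ^ 2 = (dd y).re ^ 2 + (dd y).im ^ 2 := by
    rw [← Complex.normSq_eq_norm_sq, normSq_apply]; ring
  have ec : ‖cc x y‖ ^ 2 = (cc x y).re ^ 2 + (cc x y).im ^ 2 := by
    rw [← Complex.normSq_eq_norm_sq, normSq_apply]; ring
  have ec4 : ‖cc x y‖ ^ 4 = ((cc x y).re ^ 2 + (cc x y).im ^ 2) ^ 2 := by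
    rw [← ec]; ring
  have em : ‖mm x y‖ ^ 2 = (mm x y).re ^ 2 + (mm x y).im ^ 2 := by
    rw [← Complex.normSq_eq_norm_sq, normSq_apply]; ring
  rw [ed, ee, ec, ec4, em]
  refine ⟨k1, k2, k3, ?_, ?_, ?_⟩
  · have : Fro x ^ 2 * ((cc x y).re ^ 2 + (cc x y).im ^ 2) =
        (Fro x * (cc x y).re) ^ 2 + (Fro x * (cc x y).im) ^ 2 := by ring
    rw [this, k4, k5]; ring
  · have : Fro y ^ 2 * ((cc x y).re ^ 2 + (cc x y).im ^ 2) =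
        (Fro y * (cc x y).re) ^ 2 + (Fro y * (cc x y).im) ^ 2 := by ring
    rw [this, k6, k7]; ring
  · have : ((cc x y).re ^ 2 + (cc x y).im ^ 2) ^ 2 =
        ((cc x y).re ^ 2 - (cc x y).im ^ 2) ^ 2 + 4 * ((cc x y).re * (cc x y).im) ^ 2 := by ring
    rw [this, k8, k9]; ring

lemma Fro_nonneg (x : M2) : 0 ≤ Fro x := by
  unfold Fro
  have := normSq_nonneg (x 0 0); have := normSq_nonneg (x 0 1)
  have := normSq_nonneg (x 1 0); have := normSq_nonneg (x 1 1)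
  linarith

lemma dd_le (x : M2) : 2 * ‖dd x‖ ≤ Fro x := by
  unfold dd Fro
  have h1 := norm_sub_le (x 0 0 * x 1 1) (x 0 1 * x 1 0)
  rw [norm_mul, norm_mul] at h1
  rw [normSq_eq_norm_sq, normSq_eq_norm_sq, normSq_eq_norm_sq, normSq_eq_norm_sq]
  nlinarith [sq_nonneg (‖x 0 0‖ - ‖x 1 1‖), sq_nonneg (‖x 0 1‖ - ‖x 1 0‖)]

/-- orthogonal rank-one pair -/
lemma case1 {x y : M2} {A E : ℝ} (hA : 0 < A) (hE : 0 < E)
    (h : ∀ t : ℂ, Nq (x + t • y) = A + E * ‖t‖ ^ 4) :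
    dd x = 0 ∧ dd y = 0 ∧ cc x y = 0 ∧ ‖mm x y‖ ^ 2 = Fro x * Fro y ∧ Fro x ^ 2 = A ∧ Fro y ^ 2 = E := by
  obtain ⟨h1, h2, h3, h4, h5, h6⟩ := extractM (x := x) (y := y) (A := A) (E := E) (μ := 0)
    (by intro t; rw [h t]; ring)
  have hX0 := Fro_nonneg x
  have hY0 := Fro_nonneg y
  have hdx := dd_le x
  have hdy := dd_le y
  have hX : 0 < Fro x := by
    rcases hX0.eq_or_lt with h7 | h7
    · rw [← h7] at h1; nlinarith [sq_nonneg ‖dd x‖]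
    · exact h7
  have hY : 0 < Fro y := by
    rcases hY0.eq_or_lt with h7 | h7
    · rw [← h7] at h2; nlinarith [sq_nonneg ‖dd y‖]
    · exact h7
  set X := Fro x with hXd
  set Y := Fro y with hYd
  set D := ‖dd x‖ with hD
  set F := ‖dd y‖ with hF
  set C := ‖cc x y‖ with hC
  set M := ‖mm x y‖ with hM
  have hXY : 0 < X * Y := mul_pos hX hY
  have hD0 : 0 ≤ D := norm_nonneg _
  have hF0 : 0 ≤ F := norm_nonneg _
  have hC0 : 0 ≤ C := norm_nonneg _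
  have hM0 : 0 ≤ M := norm_nonneg _
  have hM2 : M ^ 2 = X * Y + C ^ 2 := by linarith
  have hCz : C = 0 := by
    by_contra hne
    have hCp : 0 < C := lt_of_le_of_ne hC0 (Ne.symm hne)
    have e1 : X ^ 2 * Y ^ 2 * C ^ 4 = (M ^ 4 / 4) * C ^ 4 := by
      calc X ^ 2 * Y ^ 2 * C ^ 4 = (X ^ 2 * C ^ 2) * (Y ^ 2 * C ^ 2) := by ring
        _ = (D ^ 2 * M ^ 2) * (M ^ 2 * F ^ 2) := by rw [h4, h5]
        _ = (M ^ 4 / 4) * (4 * D ^ 2 * F ^ 2) := by ring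
        _ = _ := by rw [← h6]
    have e2 : X ^ 2 * Y ^ 2 = M ^ 4 / 4 := mul_right_cancel₀ (by positivity) e1
    have e3 : (2 * (X * Y)) ^ 2 = (M ^ 2) ^ 2 := by linear_combination 4 * e2
    have e4 : 2 * (X * Y) = M ^ 2 :=
      (pow_left_inj₀ (by positivity) (by positivity) two_ne_zero).mp e3
    have e5 : C ^ 2 = X * Y := by linarith
    have e6 : C ^ 4 = (X * Y) ^ 2 := by rw [← e5]; ring
    rw [h6] at e6
    have e7 : (2 * D) * (2 * F) ≤ X * Y := mul_le_mul hdx hdy (by positivity) hX0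
    have e8 : ((2 * D) * (2 * F)) ^ 2 ≤ (X * Y) ^ 2 := pow_le_pow_left₀ (by positivity) e7 2
    nlinarith
  have hM3 : M ^ 2 = X * Y := by rw [hM2, hCz]; ring
  have hDz : D = 0 := by
    rw [hCz, hM3] at h4
    have : D ^ 2 = 0 := by
      have h7 : D ^ 2 * (X * Y) = 0 := by rw [← h4]; ring
      exact (mul_eq_zero.mp h7).resolve_right hXY.ne'
    exact pow_eq_zero_iff two_ne_zero |>.mp this
  have hFz : F = 0 := by
    rw [hCz, hM3] at h5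
    have : F ^ 2 = 0 := by
      have h7 : (X * Y) * F ^ 2 = 0 := by rw [← h5]; ring
      exact (mul_eq_zero.mp h7).resolve_left hXY.ne'
    exact pow_eq_zero_iff two_ne_zero |>.mp this
  refine ⟨norm_eq_zero.mp hDz, norm_eq_zero.mp hFz, norm_eq_zero.mp hCz, hM3, ?_, ?_⟩
  · rw [← h1, hDz]; ring
  · rw [← h2, hFz]; ring

/-- a rank-one pair sharing a row or a column -/
lemma case2 {x y : M2} {p q : ℝ} (hp : 0 < p) (hq : 0 < q) (hx : dd x = 0) (hy : dd y = 0)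
    (h : ∀ t : ℂ, Nq (x + t • y) = (p + q * ‖t‖ ^ 2) ^ 2) : cc x y = 0 ∧ mm x y = 0 := by
  obtain ⟨h1, h2, h3, h4, h5, h6⟩ := extractM (x := x) (y := y) (A := p ^ 2) (E := q ^ 2)
    (μ := 2 * p * q) (by intro t; rw [h t]; ring)
  rw [hx, norm_zero] at h1 h6
  rw [hy, norm_zero] at h2 h6
  have hX0 := Fro_nonneg x
  have hY0 := Fro_nonneg y
  have hC : ‖cc x y‖ = 0 := by
    have : ‖cc x y‖ ^ 4 = 0 := by rw [h6]; ring
    exact (pow_eq_zero_iff (by norm_num)).mp this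
  have eX : Fro x = p := by
    apply (pow_left_inj₀ hX0 hp.le two_ne_zero).mp
    rw [← h1]; ring
  have eY : Fro y = q := by
    apply (pow_left_inj₀ hY0 hq.le two_ne_zero).mp
    rw [← h2]; ring
  rw [hC, eX, eY] at h3
  refine ⟨norm_eq_zero.mp hC, norm_eq_zero.mp ?_⟩
  have : ‖mm x y‖ ^ 2 = 0 := by nlinarith
  exact (pow_eq_zero_iff two_ne_zero).mp this

end Pool.Agent.X207.JL
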