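import Mathlib
import Pool.Agent.X207.JL4
open Complex Filter Topology Complex.HadamardThreeLines
open scoped Matrix Matrix.Norms.L2Operator
namespace Pool.Agent.X207.JL

lemma nq_of (T : M2 →ₗ[ℂ] M2)
    (hT : ∀ x, LpNorm 4 (st (1 / 2) (1 / 2)) (T x) = LpNorm 4 (st (16 / 17) (1 / 17)) x)
    (A B : M2) (t : ℂ) (N : ℝ) (h : LpNorm 4 (st (16 / 17) (1 / 17)) ((1 : ℂ) • A + t • B) ^ 4 = N) :
    Nq (T A + t • T B) = 2 * N := by
  have h1 := norm_tau (T A + t • T B)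
  have e : T A + t • T B = T ((1 : ℂ) • A + t • B) := by simp [map_add, map_smul]
  rw [e, hT, h] at h1
  rw [e]; linarith

lemma st_norm_le {a b : ℝ} (hab : a + b = 1) (ha : 0 ≤ a) (hb : 0 ≤ b) (w : M2) :
    ‖st a b w‖ ≤ ‖w‖ := by
  rw [st_apply]
  refine (norm_add_le _ _).trans ?_
  rw [norm_mul, norm_mul, Complex.norm_real, Complex.norm_real, Real.norm_of_nonneg ha,
    Real.norm_of_nonneg hb]
  have h1 := mul_le_mul_of_nonneg_left (ent00 w) ha
  have h2 := mul_le_mul_of_nonneg_left (ent11 w) hb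
  have h3 : a * ‖w‖ + b * ‖w‖ = ‖w‖ := by rw [← add_mul, hab, one_mul]
  linarith

abbrev R0 : M2 := e11 + e22 + e21 - e12

lemma norm_R0 : ‖R0‖ ^ 2 = 2 := by
  rw [csq]
  have e : R0ᴴ * R0 = !![2, 0; 0, 2] := by
    ext i j
    fin_cases i <;> fin_cases j <;>
      simp [R0, Matrix.mul_apply, Fin.sum_univ_two, Matrix.conjTranspose_apply] <;> norm_num
  rw [e, norm_diag]; simp

lemma LpNorm_R0 : LpNorm 4 (st (16 / 17) (1 / 17)) R0 ^ 4 ≤ 4 := by
  have h1 : LpNorm 4 (st (16 / 17) (1 / 17)) R0 ≤ ‖R0‖ := by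
    apply LpNorm_le
    refine ⟨norm_nonneg _, fun _ => R0, diffContOnCl_const, ⟨‖R0‖, fun z _ => le_rfl⟩,
      fun t => le_rfl, fun t y => ?_, rfl⟩
    exact (st_norm_le (by norm_num) (by norm_num) (by norm_num) _).trans (norm_jordan_le _ _)
  have h2 := pow_le_pow_left₀ (LpNorm_nonneg _ _ _) h1 4
  have e : ‖R0‖ ^ 4 = 4 := by
    have : ‖R0‖ ^ 4 = (‖R0‖ ^ 2) ^ 2 := by ring
    rw [this, norm_R0]; norm_num
  linarith

lemma fourth_root {w : ℝ} (hw : 0 < w) : ∃ h : ℝ, 0 < h ∧ w = h ^ 4 := by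
  refine ⟨w ^ ((1 : ℝ) / 4), Real.rpow_pos_of_pos hw _, ?_⟩
  rw [← Real.rpow_natCast, ← Real.rpow_mul hw.le]
  norm_num

lemma pair2 (T : M2 →ₗ[ℂ] M2)
    (hT : ∀ x, LpNorm 4 (st (1 / 2) (1 / 2)) (T x) = LpNorm 4 (st (16 / 17) (1 / 17)) x)
    {A B A' B' : M2} {w1 w2 : ℝ} (hF : RFrame (st (16 / 17) (1 / 17)) A B A' B' w1 w2)
    (hw1 : 0 < w1) (hw2 : 0 < w2) (hA : dd (T A) = 0) (hB : dd (T B) = 0) :
    cc (T A) (T B) = 0 ∧ mm (T A) (T B) = 0 := by
  obtain ⟨h1, hh1, e1⟩ := fourth_root hw1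
  obtain ⟨h2, hh2, e2⟩ := fourth_root hw2
  have hs : 0 < Real.sqrt 2 := Real.sqrt_pos.mpr (by norm_num)
  have hs2 : Real.sqrt 2 ^ 2 = 2 := Real.sq_sqrt (by norm_num)
  apply case2 (p := Real.sqrt 2 * h1 ^ 2) (q := Real.sqrt 2 * h2 ^ 2) (by positivity) (by positivity) hA hB
  intro t
  have h := quadr hF hh1 hh2 e1 e2 1 t
  have h4 : LpNorm 4 (st (16 / 17) (1 / 17)) ((1 : ℂ) • A + t • B) ^ 4 =
      (h1 ^ 2 + h2 ^ 2 * ‖t‖ ^ 2) ^ 2 := by
    have : LpNorm 4 (st (16 / 17) (1 / 17)) ((1 : ℂ) • A + t • B) ^ 4 =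
      (LpNorm 4 (st (16 / 17) (1 / 17)) ((1 : ℂ) • A + t • B) ^ 2) ^ 2 := by ring
    rw [this, h, norm_one]; ring
  rw [nq_of T hT A B t _ h4]
  linear_combination (-(h1 ^ 2 + h2 ^ 2 * ‖t‖ ^ 2) ^ 2) * hs2

theorem main (T : M2 →ₗ[ℂ] M2)
    (hT : ∀ x, LpNorm 4 (st (1 / 2) (1 / 2)) (T x) = LpNorm 4 (st (16 / 17) (1 / 17)) x) : False := by
  have s1 : (16 / 17 : ℝ) + 1 / 17 = 1 := by norm_num
  obtain ⟨d11, d22, c1, m1, x11, x22⟩ := case1 (x := T e11) (y := T e22) (A := 32 / 17) (E := 2 / 17)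
    (by norm_num) (by norm_num) (by
      intro t
      have h := quartic (frame_diag s1 (by norm_num) (by norm_num)) (by norm_num) (by norm_num) 1 t
      rw [nq_of T hT _ _ t _ h, norm_one]; ring)
  obtain ⟨d12, d21, c2, m2, x12, x21⟩ := case1 (x := T e12) (y := T e21) (A := 1) (E := 1)
    (by norm_num) (by norm_num) (by
      intro t
      have h := quartic (frame_anti s1) (by norm_num) (by norm_num) 1 t
      rw [nq_of T hT _ _ t _ h, norm_one]; ring)
  obtain ⟨c3, m3⟩ := pair2 T hT (rframe_1112 s1 (by norm_num)) (by norm_num) (by norm_num) d11 d12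
  obtain ⟨c4, m4⟩ := pair2 T hT (rframe_1121 s1 (by norm_num)) (by norm_num) (by norm_num) d11 d21
  obtain ⟨c5, m5⟩ := pair2 T hT (rframe_2212 s1 (by norm_num)) (by norm_num) (by norm_num) d22 d12
  obtain ⟨c6, m6⟩ := pair2 T hT (rframe_2221 s1 (by norm_num)) (by norm_num) (by norm_num) d22 d21
  have hR := norm_tau (T R0)
  rw [hT] at hR
  have hR4 := LpNorm_R0
  have hz : T R0 = T e11 + T e22 + T e21 - T e12 := by
    rw [R0, map_sub, map_add, map_add]
  have hFro : Fro (T R0) = Fro (T e11) + Fro (T e22) + Fro (T e21) + Fro (T e12) := by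
    have g : ∀ a b c d : M2, Fro (a + b + c - d) = Fro a + Fro b + Fro c + Fro d +
        2 * (cc a b + cc a c + cc b c - cc a d - cc b d - cc d c).re := by
      intro a b c d
      simp [Fro, cc, normSq_apply, Matrix.add_apply, Matrix.sub_apply]
      ring
    rw [hz, g, c1, c2, c3, c4, c5, c6]; simp
  have hdd : dd (T R0) = mm (T e11) (T e22) - mm (T e12) (T e21) := by
    have g : ∀ a b c d : M2, dd (a + b + c - d) = dd a + dd b + dd c + dd d +
        mm a b + mm a c + mm b c - mm a d - mm b d - mm d c := by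
      intro a b c d
      simp only [dd, mm, Matrix.add_apply, Matrix.sub_apply]
      ring
    rw [hz, g, d11, d12, d21, d22, m3, m4, m5, m6]; ring
  have f12 : Fro (T e12) = 1 := by have := Fro_nonneg (T e12); nlinarith
  have f21 : Fro (T e21) = 1 := by have := Fro_nonneg (T e21); nlinarith
  have w0 := Fro_nonneg (T e22)
  have f11 : Fro (T e11) = 4 * Fro (T e22) := by
    apply (pow_left_inj₀ (Fro_nonneg (T e11)) (by positivity) two_ne_zero).mp
    rw [x11, mul_pow, x22]; norm_num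
  have k1 : ‖mm (T e11) (T e22)‖ = 2 * Fro (T e22) := by
    apply (pow_left_inj₀ (norm_nonneg _) (by positivity) two_ne_zero).mp
    rw [m1, f11]; ring
  have k2 : ‖mm (T e12) (T e21)‖ = 1 := by
    apply (pow_left_inj₀ (norm_nonneg _) (by positivity) two_ne_zero).mp
    rw [m2, f12, f21]; ring
  have k3 : ‖dd (T R0)‖ ≤ 2 * Fro (T e22) + 1 := by
    rw [hdd]
    refine (norm_sub_le _ _).trans ?_
    rw [k1, k2]
  have k4 := pow_le_pow_left₀ (norm_nonneg _) k3 2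
  rw [Nq, hFro, f11, f12, f21] at hR
  set w := Fro (T e22) with hw
  have k5 : 4 + 12 * w ≤ 8 := by nlinarith
  have k6 : w ≤ 1 / 3 := by linarith
  nlinarith

end Pool.Agent.X207.JL
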