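import Mathlib

set_option autoImplicit false

/-! Energy estimates for `y''' = -e^u y + ε e^u y'`. -/

namespace Pool.Agent.X207.KS

open Real Set

/-- monotonicity from a nonnegative derivative -/
lemma le_of_deriv_nonneg {f f' : ℝ → ℝ} {a b : ℝ} (hab : a < b)
    (hf : ∀ u ∈ Icc a b, HasDerivAt f (f' u) u) (h : ∀ u ∈ Icc a b, 0 ≤ f' u) : f a ≤ f b := by
  obtain ⟨c, hc, hc2⟩ := exists_hasDerivAt_eq_slope f f' hab
    (fun u hu => (hf u hu).continuousAt.continuousWithinAt)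
    (fun u hu => hf u (Ioo_subset_Icc_self hu))
  have h1 := h c (Ioo_subset_Icc_self hc)
  rw [hc2] at h1
  have h2 : 0 < b - a := sub_pos.mpr hab
  have h3 : 0 ≤ (f b - f a) := by
    by_contra h4
    push Not at h4
    have := div_neg_of_neg_of_pos h4 h2
    linarith
  linarith

variable {ε : ℝ} {y0 y1 y2 y3 : ℝ → ℝ}

lemma energy_far (h0 : ∀ u, HasDerivAt y0 (y1 u) u) (h1 : ∀ u, HasDerivAt y1 (y2 u) u)
    (h2 : ∀ u, HasDerivAt y2 (y3 u) u)
    (ode : ∀ u, y3 u = -exp u * y0 u + ε * exp u * y1 u)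
    (hε : 0 < ε) {α β : ℝ} (hαβ : α < β) (hx : 1 / 4 ≤ ε * exp α)
    (hα : y1 α = 0) (hβ : y1 β = 0) : y0 α ^ 2 ≤ y0 β ^ 2 := by
  have key : ∀ u, HasDerivAt (fun u => y0 u ^ 2 + exp (-u) * (2 * y1 u * y2 u))
      (exp (-u) * (2 * y2 u ^ 2 - 2 * y1 u * y2 u + 2 * (ε * exp u) * y1 u ^ 2)) u := by
    intro u
    have e1 : HasDerivAt (fun u : ℝ => exp (-u)) (-exp (-u)) u := by
      have := (hasDerivAt_neg u).exp
      simpa using this
    have := ((h0 u).pow 2).add (e1.mul (((h1 u).const_mul 2).mul (h2 u)))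
    refine HasDerivAt.congr_deriv this ?_
    rw [ode u]
    have e2 : exp (-u) * exp u = 1 := by rw [← exp_add]; simp
    simp only [Nat.cast_ofNat, Nat.add_one_sub_one, pow_one, Pi.mul_apply]
    linear_combination (-(2 * y0 u * y1 u)) * e2
  have := le_of_deriv_nonneg hαβ (fun u _ => key u) (fun u hu => by
    apply mul_nonneg (exp_pos _).le
    have h3 : exp α ≤ exp u := exp_le_exp.mpr hu.1
    have h4 : 1 / 4 ≤ ε * exp u := hx.trans (mul_le_mul_of_nonneg_left h3 hε.le)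
    nlinarith [sq_nonneg (2 * y2 u - y1 u), sq_nonneg (y1 u)])
  simp only [hα, hβ, mul_zero, zero_mul, add_zero] at this
  exact this

/-- the auxiliary rational function -/
noncomputable def rr (v : ℝ) : ℝ := -(2 * v) / (8 - v ^ 2)

lemma rr_deriv (v : ℝ) (h : v ^ 2 < 8) :
    HasDerivAt rr (-(16 + 2 * v ^ 2) / (8 - v ^ 2) ^ 2) v := by
  have h1 : HasDerivAt (fun v : ℝ => -(2 * v)) (-(2 * 1)) v := ((hasDerivAt_id v).const_mul 2).neg
  have h2 : HasDerivAt (fun v : ℝ => 8 - v ^ 2) (0 - 2 * v ^ 1 * 1) v := by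
    have := (hasDerivAt_const v (8 : ℝ)).sub ((hasDerivAt_id v).pow 2)
    refine HasDerivAt.congr_deriv this ?_
    simp
  have h3 : (8 - v ^ 2) ≠ 0 := by
    have : 0 < 8 - v ^ 2 := by linarith
    exact this.ne'
  have := h1.div h2 h3
  refine HasDerivAt.congr_deriv this ?_
  congr 1
  ring

lemma rr_ineq (v : ℝ) (h : v ^ 2 < 8) :
    -(16 + 2 * v ^ 2) / (8 - v ^ 2) ^ 2 + rr v ^ 2 + 1 / 4 ≤ 0 := by
  have h3 : 0 < 8 - v ^ 2 := by linarith
  have e : -(16 + 2 * v ^ 2) / (8 - v ^ 2) ^ 2 + rr v ^ 2 + 1 / 4 = -(v ^ 2) / (4 * (8 - v ^ 2)) := by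
    unfold rr
    field_simp
    ring
  rw [e]
  apply div_nonpos_of_nonpos_of_nonneg
  · nlinarith [sq_nonneg v]
  · linarith

lemma energy_near (h0 : ∀ u, HasDerivAt y0 (y1 u) u) (h1 : ∀ u, HasDerivAt y1 (y2 u) u)
    (h2 : ∀ u, HasDerivAt y2 (y3 u) u)
    (ode : ∀ u, y3 u = -exp u * y0 u + ε * exp u * y1 u)
    (hε : 0 < ε) {α β : ℝ} (hαβ : α < β) (hx : β ≤ α + 4)
    (hα : y1 α = 0) (hβ : y1 β = 0) : y0 α ^ 2 ≤ y0 β ^ 2 := by
  have key : ∀ u ∈ Icc α β, HasDerivAt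
      (fun u => y0 u ^ 2 + exp (-u) * (2 * y1 u * y2 u - 2 * rr (u - α - 2) * y1 u ^ 2))
      (2 * ε * y1 u ^ 2 + exp (-u) * (2 * y2 u ^ 2 - 2 * y1 u * y2 u + 2 * rr (u - α - 2) * y1 u ^ 2
        - 2 * (-(16 + 2 * (u - α - 2) ^ 2) / (8 - (u - α - 2) ^ 2) ^ 2) * y1 u ^ 2
        - 4 * rr (u - α - 2) * y1 u * y2 u)) u := by
    intro u hu
    have e1 : HasDerivAt (fun u : ℝ => exp (-u)) (-exp (-u)) u := by
      have := (hasDerivAt_neg u).exp
      simpa using this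
    have hv : (u - α - 2) ^ 2 < 8 := by
      have h3 := hu.1
      have h4 := hu.2
      nlinarith
    have e3 : HasDerivAt (fun u => rr (u - α - 2))
        (-(16 + 2 * (u - α - 2) ^ 2) / (8 - (u - α - 2) ^ 2) ^ 2) u := by
      have e4 : HasDerivAt (fun u : ℝ => u - α - 2) 1 u := ((hasDerivAt_id u).sub_const α).sub_const 2
      have := (rr_deriv (u - α - 2) hv).comp u e4
      rw [mul_one] at this
      exact this
    have := ((h0 u).pow 2).add (e1.mul ((((h1 u).const_mul 2).mul (h2 u)).sub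
      ((e3.const_mul 2).mul ((h1 u).pow 2))))
    refine HasDerivAt.congr_deriv this ?_
    rw [ode u]
    have e2 : exp (-u) * exp u = 1 := by rw [← exp_add]; simp
    simp only [Nat.cast_ofNat, Nat.add_one_sub_one, pow_one, Pi.mul_apply, Pi.sub_apply,
      Pi.pow_apply]
    linear_combination (-(2 * y0 u * y1 u) + 2 * ε * y1 u ^ 2) * e2
  have := le_of_deriv_nonneg hαβ key (fun u hu => by
    have hv : (u - α - 2) ^ 2 < 8 := by
      have h3 := hu.1
      have h4 := hu.2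
      nlinarith
    have h5 := rr_ineq (u - α - 2) hv
    set w := rr (u - α - 2)
    set w' := -(16 + 2 * (u - α - 2) ^ 2) / (8 - (u - α - 2) ^ 2) ^ 2
    have h6 : 0 ≤ 2 * y2 u ^ 2 - 2 * y1 u * y2 u + 2 * w * y1 u ^ 2 - 2 * w' * y1 u ^ 2
        - 4 * w * y1 u * y2 u := by
      have h7 : 2 * y2 u ^ 2 - 2 * y1 u * y2 u + 2 * w * y1 u ^ 2 - 2 * w' * y1 u ^ 2
        - 4 * w * y1 u * y2 u = 2 * (y2 u - (1 / 2 + w) * y1 u) ^ 2
          + 2 * (-(w' + w ^ 2 + 1 / 4)) * y1 u ^ 2 := by ring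
      rw [h7]
      have : 0 ≤ -(w' + w ^ 2 + 1 / 4) := by linarith
      positivity
    have := exp_pos (-u)
    positivity)
  simp only [hα, hβ, mul_zero, zero_mul, add_zero, ne_eq, OfNat.ofNat_ne_zero, not_false_eq_true,
    zero_pow, sub_zero] at this
  exact this

lemma Bpos {v a e : ℝ} (hv0 : 0 < v) (hv4 : v < 4) (ha : 1 ≤ a) (he : 0 < e) (he1 : e ≤ 1 / 120)
    (hae : e * a ≤ 1 / 4) :
    0 < 12 * (v ^ 2 - 4 * v + 2) + a * exp v * (v * (4 - v) ^ 3)
      + e * (a * exp v) * ((4 - v) ^ 2 * (4 - v ^ 2)) := by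
  have hX : exp v ≤ a * exp v := by
    have := exp_pos v
    nlinarith
  have hx : e * (a * exp v) ≤ 1 / 4 * exp v := by
    have := exp_pos v
    nlinarith
  set X := a * exp v with hXd
  have hXpos : 0 < X := by have := exp_pos v; positivity
  rcases le_or_gt v 2 with h2 | h2
  · -- first range
    have h3 : 1 + v ≤ exp v := by linarith [add_one_le_exp v]
    have h4 : (8 : ℝ) ≤ (4 - v) ^ 3 := by
      have : (2 : ℝ) ≤ 4 - v := by linarith
      calc (8 : ℝ) = 2 ^ 3 := by norm_num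
        _ ≤ (4 - v) ^ 3 := by gcongr
    have h5 : 0 ≤ e * X * ((4 - v) ^ 2 * (4 - v ^ 2)) := by
      have : 0 ≤ 4 - v ^ 2 := by nlinarith
      positivity
    have h6 : (1 + v) * (v * 8) ≤ X * (v * (4 - v) ^ 3) := by
      apply mul_le_mul (by linarith) (by gcongr) (by positivity) hXpos.le
    nlinarith [sq_nonneg (v - 1)]
  · obtain ⟨t, ht⟩ : ∃ t, t = 4 - v := ⟨_, rfl⟩
    have hv : v = 4 - t := by linarith
    have ht0 : 0 < t := by linarith
    have ht2 : t < 2 := by linarith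
    have e1 : (4 - v) = t := ht.symm
    rw [e1]
    have h12 : v ^ 2 - 4 ≤ 12 := by nlinarith
    have h12' : 0 ≤ v ^ 2 - 4 := by nlinarith
    have hA : 12 * (v ^ 2 - 4 * v + 2) = 24 - 48 * t + 12 * t ^ 2 := by rw [hv]; ring
    rw [hA]
    rcases le_or_gt t (1 / 10) with h | h
    · have h54 : exp v ≤ 54.6 := by
        have : exp v ≤ exp 4 := exp_le_exp.mpr hv4.le
        have h4 : exp 4 = exp 1 ^ 4 := by rw [← exp_nat_mul]; norm_num
        have h5 : exp 1 ^ 4 ≤ (2.7182818286 : ℝ) ^ 4 := by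
          gcongr
          exact exp_one_lt_d9.le
        rw [h4] at this
        calc exp v ≤ _ := this
          _ ≤ _ := h5
          _ ≤ 54.6 := by norm_num
      have h6 : e * X ≤ 13.65 := by linarith
      have h7 : 0 ≤ X * (v * t ^ 3) := by positivity
      have h8 : e * X * (t ^ 2 * (v ^ 2 - 4)) ≤ 13.65 * ((1 / 10) ^ 2 * 12) := by
        apply mul_le_mul h6 _ (by positivity) (by norm_num)
        apply mul_le_mul _ h12 h12' (by positivity)
        gcongr
      have h9 : e * X * (t ^ 2 * (4 - v ^ 2)) = -(e * X * (t ^ 2 * (v ^ 2 - 4))) := by ring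
      rw [h9]
      nlinarith
    · have h6 : e * (v ^ 2 - 4) ≤ 1 / 2 * (v * t) := by
        have : e * (v ^ 2 - 4) ≤ 1 / 120 * 12 := mul_le_mul he1 h12 h12' (by norm_num)
        nlinarith
      have h7 : e * X * (t ^ 2 * (v ^ 2 - 4)) ≤ X * t ^ 2 * (1 / 2 * (v * t)) := by
        have : 0 ≤ X * t ^ 2 := by positivity
        calc e * X * (t ^ 2 * (v ^ 2 - 4)) = X * t ^ 2 * (e * (v ^ 2 - 4)) := by ring
          _ ≤ _ := mul_le_mul_of_nonneg_left h6 this
      have h9 : e * X * (t ^ 2 * (4 - v ^ 2)) = -(e * X * (t ^ 2 * (v ^ 2 - 4))) := by ring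
      have h10 : X * (v * t ^ 3) = X * t ^ 2 * (1 / 2 * (v * t)) + 1 / 2 * X * v * t ^ 3 := by ring
      rw [h9, h10]
      have hgoal : 0 < 24 - 48 * t + 12 * t ^ 2 + 1 / 2 * X * v * t ^ 3 → 0 < 24 - 48 * t + 12 * t ^ 2 +
          (X * t ^ 2 * (1 / 2 * (v * t)) + 1 / 2 * X * v * t ^ 3) +
          -(e * X * (t ^ 2 * (v ^ 2 - 4))) := by intro h; linarith
      apply hgoal
      have he1' : (2.7182818283 : ℝ) ≤ exp 1 := exp_one_gt_d9.le
      have low : ∀ κ X0 v0 : ℝ, 0 ≤ X0 → 0 ≤ v0 → X0 ≤ X → v0 ≤ v → κ ≤ 1 / 2 * X0 * v0 →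
          κ * t ^ 3 ≤ 1 / 2 * X * v * t ^ 3 := by
        intro κ X0 v0 h1 h2 h3 h4 h5
        have : κ ≤ 1 / 2 * X * v := by
          calc κ ≤ 1 / 2 * X0 * v0 := h5
            _ ≤ 1 / 2 * X * v := by gcongr
        gcongr
      rcases le_or_gt t 1 with h1 | h1
      · have hv3 : 3 ≤ v := by linarith
        have h20 : (20 : ℝ) ≤ X := by
          have h4 : exp 3 = exp 1 ^ 3 := by rw [← exp_nat_mul]; norm_num
          have h5 : (2.7182818283 : ℝ) ^ 3 ≤ exp 1 ^ 3 := by gcongr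
          have h6 : exp 3 ≤ exp v := exp_le_exp.mpr hv3
          have h7 : (20 : ℝ) ≤ 2.7182818283 ^ 3 := by norm_num
          linarith
        have := low 30 20 3 (by norm_num) (by norm_num) h20 hv3 (by norm_num)
        have h11 : 1.47 * t - 0.686 ≤ t ^ 3 := by nlinarith [mul_nonneg ht0.le (sq_nonneg (t - 0.7)), sq_nonneg (t - 0.7)]
        nlinarith [sq_nonneg (t - 0.1625)]
      · rcases le_or_gt t 1.5 with h15 | h15
        · have hv25 : 2.5 ≤ v := by linarith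
          have h11 : (11.9 : ℝ) ≤ X := by
            have h4 : exp 2.5 = exp 1 ^ 2 * exp (1 / 2) := by
              rw [← exp_nat_mul, ← exp_add]; norm_num
            have h5 : (2.7182818283 : ℝ) ^ 2 ≤ exp 1 ^ 2 := by gcongr
            have h5' : (1.625 : ℝ) ≤ exp (1 / 2) := by
              have := quadratic_le_exp_of_nonneg (show (0 : ℝ) ≤ 1 / 2 by norm_num)
              linarith
            have h6 : exp 2.5 ≤ exp v := exp_le_exp.mpr hv25
            have h7 : (11.9 : ℝ) ≤ 2.7182818283 ^ 2 * 1.625 := by norm_num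
            have h8 : (2.7182818283 : ℝ) ^ 2 * 1.625 ≤ exp 1 ^ 2 * exp (1 / 2) := by gcongr
            linarith
          have := low 14.8 11.9 2.5 (by norm_num) (by norm_num) h11 hv25 (by norm_num)
          have h12 : 3 * t - 2 ≤ t ^ 3 := by nlinarith [mul_nonneg ht0.le (sq_nonneg (t - 1)), sq_nonneg (t - 1)]
          nlinarith
        · have h7 : (7 : ℝ) ≤ X := by
            have h4 : exp 2 = exp 1 ^ 2 := by rw [← exp_nat_mul]; norm_num
            have h5 : (2.7182818283 : ℝ) ^ 2 ≤ exp 1 ^ 2 := by gcongr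
            have h6 : exp 2 ≤ exp v := exp_le_exp.mpr h2.le
            have h7 : (7 : ℝ) ≤ 2.7182818283 ^ 2 := by norm_num
            linarith
          have := low 7 7 2 (by norm_num) (by norm_num) h7 h2.le (by norm_num)
          have h12 : 6.75 * t - 6.75 ≤ t ^ 3 := by nlinarith [mul_nonneg ht0.le (sq_nonneg (t - 1.5)), sq_nonneg (t - 1.5)]
          nlinarith

lemma y2_nonneg (h1 : ∀ u, HasDerivAt y1 (y2 u) u) {α : ℝ} (hα : y1 α = 0)
    (hpos : ∀ u ∈ Ioc α (α + 4), 0 < y1 u) : 0 ≤ y2 α := by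
  have h := (h1 α).hasDerivWithinAt (s := Ioi α)
  rw [hasDerivWithinAt_iff_tendsto_slope' (self_notMem_Ioi)] at h
  apply ge_of_tendsto h
  have : Ioc α (α + 4) ∈ nhdsWithin α (Ioi α) := Ioc_mem_nhdsGT (by linarith)
  filter_upwards [this] with u hu
  rw [slope_def_field, hα, sub_zero]
  exact div_nonneg (hpos u hu).le (by linarith [hu.1])

lemma gap_pos (h0 : ∀ u, HasDerivAt y0 (y1 u) u) (h1 : ∀ u, HasDerivAt y1 (y2 u) u)
    (h2 : ∀ u, HasDerivAt y2 (y3 u) u)
    (ode : ∀ u, y3 u = -exp u * y0 u + ε * exp u * y1 u)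
    (hε : 0 < ε) (hε1 : ε ≤ 1 / 120) {α : ℝ} (hx : ε * exp α ≤ 1 / 4) (h1α : 1 ≤ exp α)
    (hα : y1 α = 0) (hpos : ∀ u ∈ Ioc α (α + 4), 0 < y1 u) : False := by
  have hy2 := y2_nonneg h1 hα hpos
  have key : ∀ u, HasDerivAt
      (fun u => -((u - α) * (4 - (u - α)) ^ 3) * (exp u * y0 u)
        - (64 - 96 * (u - α) + 36 * (u - α) ^ 2 - 4 * (u - α) ^ 3
            + (u - α) * (4 - (u - α)) ^ 3) * y2 u
        + (-96 + 72 * (u - α) - 12 * (u - α) ^ 2
            + (64 - 96 * (u - α) + 36 * (u - α) ^ 2 - 4 * (u - α) ^ 3)) * y1 u)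
      (-(y1 u * (12 * ((u - α) ^ 2 - 4 * (u - α) + 2) + exp u * ((u - α) * (4 - (u - α)) ^ 3)
      + ε * exp u * ((4 - (u - α)) ^ 2 * (4 - (u - α) ^ 2))))) u := by
    intro u
    have ev : HasDerivAt (fun u : ℝ => u - α) 1 u := (hasDerivAt_id u).sub_const α
    have ew : HasDerivAt (fun u : ℝ => 4 - (u - α)) (-1) u := by
      have := ev.const_sub 4
      exact this
    have e1 := (((ev.mul (ew.pow 3)).neg).mul ((hasDerivAt_exp u).mul (h0 u)))
    have e2 : HasDerivAt (fun u : ℝ => 64 - 96 * (u - α) + 36 * (u - α) ^ 2 - 4 * (u - α) ^ 3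
            + (u - α) * (4 - (u - α)) ^ 3)
            (-96 + 72 * (u - α) - 12 * (u - α) ^ 2
              + (64 - 96 * (u - α) + 36 * (u - α) ^ 2 - 4 * (u - α) ^ 3)) u := by
      have := ((((ev.const_mul 96).const_sub 64).add ((ev.pow 2).const_mul 36)).sub
        ((ev.pow 3).const_mul 4)).add (ev.mul (ew.pow 3))
      refine HasDerivAt.congr_deriv this ?_
      simp only [Nat.cast_ofNat, Nat.add_one_sub_one, pow_one, Pi.mul_apply, Pi.sub_apply,
        Pi.pow_apply]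
      ring
    have e3 : HasDerivAt (fun u : ℝ => -96 + 72 * (u - α) - 12 * (u - α) ^ 2
            + (64 - 96 * (u - α) + 36 * (u - α) ^ 2 - 4 * (u - α) ^ 3))
            (72 - 24 * (u - α) + (-96 + 72 * (u - α) - 12 * (u - α) ^ 2)) u := by
      have := (((ev.const_mul 72).const_add (-96)).sub ((ev.pow 2).const_mul 12)).add
        ((((ev.const_mul 96).const_sub 64).add ((ev.pow 2).const_mul 36)).sub
        ((ev.pow 3).const_mul 4))
      refine HasDerivAt.congr_deriv this ?_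
      simp only [Nat.cast_ofNat, Nat.add_one_sub_one, pow_one, Pi.mul_apply, Pi.sub_apply,
        Pi.pow_apply]
      ring
    have := (e1.sub (e2.mul (h2 u))).add (e3.mul (h1 u))
    refine HasDerivAt.congr_deriv this ?_
    rw [ode u]
    simp only [Nat.cast_ofNat, Nat.add_one_sub_one, pow_one, Pi.mul_apply, Pi.sub_apply,
        Pi.pow_apply, Pi.neg_apply]
    ring
  obtain ⟨c, hc, hc2⟩ := exists_hasDerivAt_eq_slope _ _ (show α < α + 4 by linarith)
    (fun u _ => (key u).continuousAt.continuousWithinAt) (fun u _ => key u)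
  have hB : 0 < 12 * ((c - α) ^ 2 - 4 * (c - α) + 2) + exp c * ((c - α) * (4 - (c - α)) ^ 3)
      + ε * exp c * ((4 - (c - α)) ^ 2 * (4 - (c - α) ^ 2)) := by
    have := Bpos (v := c - α) (a := exp α) (e := ε) (by linarith [hc.1]) (by linarith [hc.2])
      h1α hε hε1 hx
    have e : exp α * exp (c - α) = exp c := by rw [← exp_add]; congr 1; ring
    rw [e] at this
    exact this
  have hp := hpos c (Ioo_subset_Ioc_self hc)
  have hneg := mul_pos hp hB
  rw [hα] at hc2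
  simp only [sub_self, zero_mul, mul_zero, neg_zero, add_sub_cancel_left] at hc2
  norm_num at hc2
  linarith

lemma gap (h0 : ∀ u, HasDerivAt y0 (y1 u) u) (h1 : ∀ u, HasDerivAt y1 (y2 u) u)
    (h2 : ∀ u, HasDerivAt y2 (y3 u) u)
    (ode : ∀ u, y3 u = -exp u * y0 u + ε * exp u * y1 u)
    (hε : 0 < ε) (hε1 : ε ≤ 1 / 120) {α : ℝ} (hx : ε * exp α ≤ 1 / 4) (h1α : 1 ≤ exp α)
    (hα : y1 α = 0) : ∃ β ∈ Ioc α (α + 4), y1 β = 0 := by
  by_contra hcon
  push Not at hcon
  have hcont : Continuous y1 := continuous_iff_continuousAt.mpr (fun u => (h1 u).continuousAt)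
  have hend := hcon (α + 4) ⟨by linarith, le_refl _⟩
  rcases lt_or_gt_of_ne hend with h | h
  · -- negative
    apply gap_pos (y0 := fun u => -y0 u) (y1 := fun u => -y1 u) (y2 := fun u => -y2 u)
      (y3 := fun u => -y3 u) (ε := ε) (α := α) (fun u => (h0 u).neg) (fun u => (h1 u).neg)
      (fun u => (h2 u).neg) (fun u => by rw [ode u]; ring) hε hε1 hx h1α (by rw [hα]; simp)
    intro u hu
    by_contra h3
    push Not at h3
    have h4 : 0 ≤ y1 u := by linarith
    have h5 : (0 : ℝ) ∈ Icc (y1 (α + 4)) (y1 u) := ⟨h.le, h4⟩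
    obtain ⟨w, hw, hw2⟩ := intermediate_value_Icc' hu.2 hcont.continuousOn h5
    exact hcon w ⟨by linarith [hu.1, hw.1], hw.2⟩ hw2
  · apply gap_pos h0 h1 h2 ode hε hε1 hx h1α hα
    intro u hu
    by_contra h3
    push Not at h3
    have h5 : (0 : ℝ) ∈ Icc (y1 u) (y1 (α + 4)) := ⟨h3, h.le⟩
    obtain ⟨w, hw, hw2⟩ := intermediate_value_Icc hu.2 hcont.continuousOn h5
    exact hcon w ⟨by linarith [hu.1, hw.1], hw.2⟩ hw2

lemma deriv_nonpos_right {f : ℝ → ℝ} {d a b : ℝ} (h : HasDerivAt f d a) (hab : a < b)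
    (hle : ∀ u ∈ Ioc a b, f u ≤ f a) : d ≤ 0 := by
  have h := h.hasDerivWithinAt (s := Ioi a)
  rw [hasDerivWithinAt_iff_tendsto_slope' (self_notMem_Ioi)] at h
  apply le_of_tendsto h
  have : Ioc a b ∈ nhdsWithin a (Ioi a) := Ioc_mem_nhdsGT hab
  filter_upwards [this] with u hu
  rw [slope_def_field]
  exact div_nonpos_of_nonpos_of_nonneg (by linarith [hle u hu]) (by linarith [hu.1])

theorem record (h0 : ∀ u, HasDerivAt y0 (y1 u) u) (h1 : ∀ u, HasDerivAt y1 (y2 u) u)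
    (h2 : ∀ u, HasDerivAt y2 (y3 u) u)
    (ode : ∀ u, y3 u = -exp u * y0 u + ε * exp u * y1 u)
    (hε : 0 < ε) (hε1 : ε ≤ 1 / 120) {L : ℝ} (hL : 1 ≤ exp L) (hneg : ∀ u ≤ L, y1 u < 0)
    (hval : y0 L < -1) (hone : ∀ u ≤ L, y0 u ≤ 1) {ξ : ℝ} (hξ : y1 ξ = 0) :
    1 < |y0 ξ| ∧ ∀ u ≤ ξ, |y0 u| ≤ |y0 ξ| := by
  have hLξ : L < ξ := by
    by_contra h
    push Not at h
    have := hneg ξ h
    linarith
  have hcont : Continuous y0 := continuous_iff_continuousAt.mpr (fun u => (h0 u).continuousAt)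
  have hcf : Continuous (fun u => y0 u ^ 2) := hcont.pow 2
  have hK : IsCompact (Icc L ξ) := isCompact_Icc
  obtain ⟨x0, hx0, hmax⟩ := hK.exists_isMaxOn ⟨L, left_mem_Icc.mpr hLξ.le⟩ hcf.continuousOn
  have hS : IsCompact (Icc L ξ ∩ (fun u => y0 u ^ 2) ⁻¹' {y0 x0 ^ 2}) :=
    hK.inter_right (isClosed_singleton.preimage hcf)
  obtain ⟨u0, hu0, hgr⟩ := hS.exists_isGreatest ⟨x0, hx0, rfl⟩
  have hu0K : u0 ∈ Icc L ξ := hu0.1
  have hu0M : y0 u0 ^ 2 = y0 x0 ^ 2 := hu0.2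
  have hM : ∀ u ∈ Icc L ξ, y0 u ^ 2 ≤ y0 u0 ^ 2 := by
    intro u hu
    rw [hu0M]
    exact hmax hu
  have hin : ∀ u ∈ Icc L ξ, y0 u0 ^ 2 ≤ y0 u ^ 2 → u ≤ u0 := by
    intro u hu h
    apply hgr
    refine ⟨hu, ?_⟩
    have := hM u hu
    rw [mem_preimage, mem_singleton_iff, ← hu0M]
    exact le_antisymm this h
  have hLsq : 1 < y0 u0 ^ 2 := by
    have := hM L (left_mem_Icc.mpr hLξ.le)
    nlinarith
  have heq : u0 = ξ := by
    by_contra hne
    have hlt : u0 < ξ := lt_of_le_of_ne hu0K.2 hne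
    have hd : HasDerivAt (fun u => y0 u ^ 2) (2 * y0 u0 * y1 u0) u0 := by
      have := (h0 u0).pow 2
      refine HasDerivAt.congr_deriv this ?_
      simp
    have hd1 : 2 * y0 u0 * y1 u0 ≤ 0 := deriv_nonpos_right hd hlt (fun u hu =>
      hM u ⟨by linarith [hu.1, hu0K.1], hu.2⟩)
    have hne0 : y0 u0 ≠ 0 := by
      intro h; rw [h] at hLsq; norm_num at hLsq
    have hy1 : y1 u0 = 0 := by
      rcases eq_or_lt_of_le hu0K.1 with h | h
      · exfalso
        rw [← h] at hd1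
        have := hneg L (le_refl _)
        nlinarith
      · have hloc : IsLocalMax (fun u => y0 u ^ 2) u0 := by
          have : Icc L ξ ∈ nhds u0 := Icc_mem_nhds h hlt
          filter_upwards [this] with u hu
          exact hM u hu
        have := hloc.hasDerivAt_eq_zero hd
        rcases mul_eq_zero.mp this with h3 | h3
        · exact absurd (by linarith) hne0
        · exact h3
    rcases le_or_gt (1 / 4) (ε * exp u0) with hc | hc
    · have := energy_far h0 h1 h2 ode hε hlt hc hy1 hξ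
      have := hin ξ (right_mem_Icc.mpr hLξ.le) this
      linarith
    · rcases le_or_gt ξ (u0 + 4) with hc2 | hc2
      · have := energy_near h0 h1 h2 ode hε hlt hc2 hy1 hξ
        have := hin ξ (right_mem_Icc.mpr hLξ.le) this
        linarith
      · have hexp : 1 ≤ exp u0 := hL.trans (exp_le_exp.mpr hu0K.1)
        obtain ⟨β, hβ, hβ0⟩ := gap h0 h1 h2 ode hε hε1 hc.le hexp hy1
        have := energy_near h0 h1 h2 ode hε hβ.1 hβ.2 hy1 hβ0
        have := hin β ⟨by linarith [hβ.1, hu0K.1], by linarith [hβ.2]⟩ this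
        linarith [hβ.1]
  rw [heq] at hLsq hM
  have hLsq' : 1 < |y0 ξ| := by
    rw [← one_lt_sq_iff_one_lt_abs]
    exact hLsq
  refine ⟨hLsq', ?_⟩
  have hcase : ∀ u ∈ Icc L ξ, |y0 u| ≤ |y0 ξ| := fun u hu => sq_le_sq.mp (hM u hu)
  intro u hu
  rcases le_or_gt L u with h | h
  · exact hcase u ⟨h, hu⟩
  · have h3 : y0 L ≤ y0 u := by
      have := le_of_deriv_nonneg (f := fun u => -y0 u) (f' := fun u => -y1 u) h
        (fun w _ => (h0 w).neg) (fun w hw => by have := hneg w hw.2; linarith)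
      linarith
    have h4 := hone u h.le
    have h5 := hcase L (left_mem_Icc.mpr hLξ.le)
    apply le_trans _ h5
    rw [abs_of_neg (show y0 L < 0 by linarith)]
    rw [abs_le]
    constructor <;> linarith

end Pool.Agent.X207.KS
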