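import Mathlib
import Pool.Agent.H635Z.D

set_option autoImplicit false

/-! Real-rootedness is preserved by `x^k ↦ x^k/k!` and by `x d/dx`. -/

open Polynomial Finset

namespace Pool.Agent.X207.KS

open Pool.Agent.H635Z

/-- the operator `x^k ↦ x^k / k!` -/
noncomputable def Gam (p : ℝ[X]) : ℝ[X] :=
  ∑ k ∈ p.support, monomial k (p.coeff k / (Nat.factorial k : ℝ))

lemma Gam_coeff (p : ℝ[X]) (k : ℕ) : (Gam p).coeff k = p.coeff k / (Nat.factorial k : ℝ) := by
  unfold Gam
  rw [finsetSum_coeff]
  simp only [coeff_monomial]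
  rw [Finset.sum_ite_eq']
  split_ifs with h
  · rfl
  · rw [notMem_support_iff.mp h, zero_div]

lemma Gam_C_mul (c : ℝ) (p : ℝ[X]) : Gam (C c * p) = C c * Gam p := by
  ext k
  rw [Gam_coeff, coeff_C_mul, coeff_C_mul, Gam_coeff, mul_div_assoc]

lemma Gam_deriv (p : ℝ[X]) : derivative (Gam (X * p)) = Gam p := by
  ext k
  rw [coeff_derivative, Gam_coeff, Gam_coeff, coeff_X_mul, Nat.factorial_succ]
  push_cast
  have : (Nat.factorial k : ℝ) ≠ 0 := by positivity
  field_simp

lemma Gam_step (a : ℝ) (p : ℝ[X]) :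
    Gam ((X - C a) * p) = Gam (X * p) - C a * derivative (Gam (X * p)) := by
  rw [Gam_deriv]
  ext k
  rw [coeff_sub, Gam_coeff, Gam_coeff, coeff_C_mul, Gam_coeff, sub_mul, coeff_sub, coeff_C_mul,
    sub_div, mul_div_assoc]

lemma sum_im_neg (z : ℂ) (hz : 0 < z.im) (M : Multiset ℝ) :
    ((M.map (fun r : ℝ => 1 / (z - (r : ℂ)))).sum).im ≤ 0 ∧
      (M ≠ 0 → ((M.map (fun r : ℝ => 1 / (z - (r : ℂ)))).sum).im < 0) := by
  induction M using Multiset.induction_on with
  | empty => simp
  | cons a M ih =>
    have h1 : (1 / (z - (a : ℂ))).im < 0 := by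
      rw [one_div, Complex.inv_im]
      have h2 : (z - (a : ℂ)).im = z.im := by simp
      rw [h2]
      apply div_neg_of_neg_of_pos (by linarith)
      apply Complex.normSq_pos.mpr
      intro h3
      have := congrArg Complex.im h3
      rw [h2] at this
      simp at this
      linarith
    rw [Multiset.map_cons, Multiset.sum_cons, Complex.add_im]
    constructor
    · linarith [ih.1]
    · intro _; linarith [ih.1]

lemma splits_sub_deriv (p : ℝ[X]) (hp : p.Splits) (a : ℝ) :
    (p - C a * derivative p).Splits := by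
  by_cases h0 : p = 0
  · rw [h0]; simp
  by_cases hd : p.natDegree = 0
  · rw [eq_C_of_natDegree_eq_zero hd]; simp
  apply splits_of_upper
  intro z hz h
  have hpz : aeval z p ≠ 0 := by
    intro h1
    have := real_of_splits p hp h0 z h1
    linarith
  set P := p.map (algebraMap ℝ ℂ) with hP
  have hPs : P.Splits := hp.map _
  have hPz : P.eval z ≠ 0 := by rw [hP, eval_map_algebraMap]; exact hpz
  have h1 := hPs.eval_derivative_div_eval_of_ne_zero hPz
  have h2 : P.roots = p.roots.map (algebraMap ℝ ℂ) := hp.roots_map _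
  rw [h2, Multiset.map_map] at h1
  have h3 : (p.roots.map ((fun w : ℂ => 1 / (z - w)) ∘ (algebraMap ℝ ℂ))).sum =
      (p.roots.map (fun r : ℝ => 1 / (z - (r : ℂ)))).sum := rfl
  have hM : p.roots ≠ 0 := by
    intro hM
    apply hd
    rw [hp.natDegree_eq_card_roots, hM]; rfl
  have h4 := (sum_im_neg z hz p.roots).2 hM
  have h5 : P.derivative.eval z = aeval z (derivative p) := by
    rw [hP, derivative_map, eval_map_algebraMap]
  have h6 : P.eval z = aeval z p := by rw [hP, eval_map_algebraMap]
  rw [h5, h6] at h1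
  rw [← h3] at h4
  have h7 : aeval z p = (a : ℂ) * aeval z (derivative p) := by
    have : aeval z (p - C a * derivative p) = aeval z p - (a : ℂ) * aeval z (derivative p) := by
      rw [map_sub, map_mul, aeval_C]; rfl
    rw [this] at h
    linear_combination h
  have h8 : (1 : ℂ) = (a : ℂ) * (aeval z (derivative p) / aeval z p) := by
    field_simp
    exact h7
  rw [h1] at h8
  have h9 := congrArg Complex.im h8
  rw [Complex.one_im, Complex.im_ofReal_mul] at h9
  rcases mul_eq_zero.mp h9.symm with h10 | h10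
  · rw [h10] at h8
    simp at h8
  · linarith

lemma Gam_X_pow_mul_splits (M : Multiset ℝ) : ∀ j : ℕ,
    (Gam (X ^ j * (M.map (fun a => X - C a)).prod)).Splits := by
  induction M using Multiset.induction_on with
  | empty =>
    intro j
    have : Gam (X ^ j * ((0 : Multiset ℝ).map (fun a => (X - C a : ℝ[X]))).prod) =
        C (1 / (Nat.factorial j : ℝ)) * X ^ j := by
      ext k
      rw [Gam_coeff, Multiset.map_zero, Multiset.prod_zero, mul_one, coeff_C_mul, coeff_X_pow]
      split_ifs with h
      · rw [h, mul_one]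
      · simp
    rw [this]
    exact (Splits.X_pow j).C_mul _
  | cons a M ih =>
    intro j
    rw [Multiset.map_cons, Multiset.prod_cons]
    have e : (X ^ j * ((X - C a) * (M.map (fun a => X - C a)).prod) : ℝ[X]) =
        (X - C a) * (X ^ j * (M.map (fun a => X - C a)).prod) := by ring
    rw [e, Gam_step]
    apply splits_sub_deriv
    have e2 : (X * (X ^ j * (M.map (fun a => X - C a)).prod) : ℝ[X]) =
        X ^ (j + 1) * (M.map (fun a => X - C a)).prod := by ring
    rw [e2]
    exact ih (j + 1)

theorem Gam_splits (p : ℝ[X]) (hp : p.Splits) : (Gam p).Splits := by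
  rw [hp.eq_prod_roots, Gam_C_mul]
  apply Splits.C_mul
  have := Gam_X_pow_mul_splits p.roots 0
  rwa [pow_zero, one_mul] at this

/-- the operator `x d/dx` -/
noncomputable def Th (p : ℝ[X]) : ℝ[X] := X * derivative p

lemma Th_coeff (p : ℝ[X]) (k : ℕ) : (Th p).coeff k = (k : ℝ) * p.coeff k := by
  unfold Th
  cases k with
  | zero => simp
  | succ k =>
    rw [coeff_X_mul, coeff_derivative]
    push_cast
    ring

theorem Th_splits (p : ℝ[X]) (hp : p.Splits) : (Th p).Splits :=
  Splits.X.mul (splits_derivative p hp)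

/-- scaling of the variable -/
theorem scale_splits (p : ℝ[X]) (hp : p.Splits) (c : ℝ) (hc : c ≠ 0) :
    (p.comp (C c * X)).Splits := by
  by_cases h0 : p = 0
  · rw [h0]; simp
  apply splits_of_real
  intro z hz
  have h1 : aeval ((c : ℂ) * z) p = 0 := by
    rw [Polynomial.aeval_comp, map_mul, aeval_C, aeval_X] at hz
    exact hz
  have h2 := real_of_splits p hp h0 _ h1
  rw [Complex.im_ofReal_mul] at h2
  rcases mul_eq_zero.mp h2 with h3 | h3
  · exact absurd h3 hc
  · exact h3

lemma scale_coeff (p : ℝ[X]) (c : ℝ) (k : ℕ) : (p.comp (C c * X)).coeff k = c ^ k * p.coeff k := by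
  rw [comp_C_mul_X_coeff, mul_comm]

/-- the Jensen polynomial -/
noncomputable def JP (N : ℕ) : ℝ[X] := Gam (Gam ((1 + X) ^ N))

lemma JP_coeff (N k : ℕ) : (JP N).coeff k =
    (Nat.choose N k : ℝ) / (Nat.factorial k : ℝ) / (Nat.factorial k : ℝ) := by
  unfold JP
  rw [Gam_coeff, Gam_coeff, add_comm, coeff_X_add_one_pow]

lemma JP_splits (N : ℕ) : (JP N).Splits := by
  unfold JP
  apply Gam_splits
  apply Gam_splits
  apply Splits.pow
  have : (1 + X : ℝ[X]) = X - C (-1) := by simp [add_comm]
  rw [this]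
  exact Splits.X_sub_C _

end Pool.Agent.X207.KS
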