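import Mathlib
import Pool.Agent.X207.KS1

set_option autoImplicit false

/-! A Hermite–Biehler type criterion. -/

open Polynomial

namespace Pool.Agent.X207.KS

open Pool.Agent.H635Z

theorem criterion (Q H : ℝ[X]) (hQ : Q.Splits) (hQ0 : Q ≠ 0)
    (hsign : ∀ ξ : ℝ, Q.eval ξ = 0 → H.eval ξ * (derivative Q).eval ξ < 0)
    (hdeg : H.natDegree ≤ Q.natDegree + 1)
    (hlead : 0 < H.coeff (Q.natDegree + 1) * Q.leadingCoeff) : H.Splits := by
  classical
  set n := Q.natDegree with hn
  set q := Q.leadingCoeff with hq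
  have hq0 : q ≠ 0 := by rw [hq]; exact leadingCoeff_ne_zero.mpr hQ0
  -- the roots
  have hsimple : Q.roots.Nodup := by
    rw [Multiset.nodup_iff_count_le_one]
    intro ξ
    rw [count_roots]
    by_contra hcon
    push Not at hcon
    have h1 : Q.IsRoot ξ := by
      rw [← rootMultiplicity_pos hQ0]; omega
    have h2 : (derivative Q).eval ξ = 0 := by
      have := (one_lt_rootMultiplicity_iff_isRoot hQ0).mp hcon
      exact this.2
    have := hsign ξ h1
    rw [h2, mul_zero] at this
    exact lt_irrefl _ this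
  set S := Q.roots.toFinset with hS
  have hcard : S.card = n := by
    rw [hS, Multiset.toFinset_card_of_nodup hsimple, ← hQ.natDegree_eq_card_roots]
  have hmemS : ∀ ξ, ξ ∈ S ↔ Q.eval ξ = 0 := by
    intro ξ
    rw [hS, Multiset.mem_toFinset, mem_roots hQ0]
    rfl
  let v : ℝ → ℂ := fun x => (x : ℂ)
  have hinj : Set.InjOn v S := fun x _ y _ h => Complex.ofReal_injective h
  have hQprod : Q.map (algebraMap ℝ ℂ) = C (q : ℂ) * Lagrange.nodal S v := by
    have h1 := hQ.eq_prod_roots
    rw [Lagrange.nodal_eq]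
    have h2 : (Q.roots.map (fun a => (X - C a : ℝ[X]))).prod = ∏ ξ ∈ S, (X - C ξ) := by
      rw [Finset.prod_eq_multiset_prod, hS, Multiset.toFinset_val, hsimple.dedup]
    rw [h2] at h1
    conv_lhs => rw [h1]
    rw [Polynomial.map_mul, map_C, Polynomial.map_prod]
    congr 1
    apply Finset.prod_congr rfl
    intro ξ _
    rw [Polynomial.map_sub, map_X, map_C]
    rfl
  set a := H.coeff (n + 1) / q with ha
  have hapos : 0 < a := by
    rw [ha]
    have : 0 < q ^ 2 := by positivity
    have e : H.coeff (n + 1) / q = (H.coeff (n + 1) * q) / q ^ 2 := by field_simp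
    rw [e]
    exact div_pos hlead this
  set H1 := H - C a * X * Q with hH1
  have hH1deg : H1.natDegree ≤ n := by
    rw [natDegree_le_iff_coeff_eq_zero]
    intro k hk
    rw [hH1, coeff_sub, mul_assoc, coeff_C_mul]
    obtain ⟨k, rfl⟩ : ∃ j, k = j + 1 := ⟨k - 1, by omega⟩
    rw [coeff_X_mul]
    rcases Nat.lt_or_ge n k with h | h
    · rw [coeff_eq_zero_of_natDegree_lt (by omega : H.natDegree < k + 1),
        coeff_eq_zero_of_natDegree_lt (by omega : Q.natDegree < k)]
      simp
    · have : k = n := by omega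
      rw [this, ha]
      have : Q.coeff n = q := rfl
      rw [this]
      field_simp
      simp
  set b := H1.coeff n / q with hb
  set H2 := H1 - C b * Q with hH2
  have hH2deg : H2.degree < n := by
    rw [degree_lt_iff_coeff_zero]
    intro k hk
    rw [hH2, coeff_sub, coeff_C_mul]
    rcases Nat.eq_or_lt_of_le hk with h | h
    · rw [← h, hb]
      have : Q.coeff n = q := rfl
      rw [this]
      field_simp
      simp
    · rw [coeff_eq_zero_of_natDegree_lt (by omega : H1.natDegree < k),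
        coeff_eq_zero_of_natDegree_lt (by omega : Q.natDegree < k)]
      simp
  have hH2val : ∀ ξ ∈ S, H2.eval ξ = H.eval ξ := by
    intro ξ hξ
    rw [hH2, hH1]
    simp only [eval_sub, eval_mul, eval_C, eval_X, (hmemS ξ).mp hξ, mul_zero, sub_zero]
  have hH2eq : H2.map (algebraMap ℝ ℂ) = Lagrange.interpolate S v (fun ξ => ((H.eval ξ : ℝ) : ℂ)) := by
    apply Lagrange.eq_interpolate_of_eval_eq _ hinj
    · rw [degree_map, hcard]
      exact hH2deg
    · intro ξ hξ
      rw [← hH2val ξ hξ]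
      change eval (algebraMap ℝ ℂ ξ) (H2.map (algebraMap ℝ ℂ)) = _
      rw [eval_map_algebraMap, aeval_algebraMap_apply]
      simp
  apply splits_of_upper
  intro z hz hHz
  have hnode : ∀ ξ ∈ S, z ≠ v ξ := by
    intro ξ _ h
    rw [h] at hz
    simp [v] at hz
  have hnod : (Lagrange.nodal S v).eval z ≠ 0 := Lagrange.eval_nodal_not_at_node hnode
  have h2z := Lagrange.eval_interpolate_not_at_node (fun ξ => ((H.eval ξ : ℝ) : ℂ)) hnode
  rw [← hH2eq, eval_map_algebraMap] at h2z
  have hQz : aeval z Q = (q : ℂ) * (Lagrange.nodal S v).eval z := by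
    rw [← eval_map_algebraMap, hQprod, eval_mul, eval_C]
  have hHdec : aeval z H = ((a : ℂ) * z + b) * aeval z Q + aeval z H2 := by
    have : H = (C a * X + C b) * Q + H2 := by rw [hH2, hH1]; ring
    conv_lhs => rw [this]
    rw [map_add, map_mul, map_add, map_mul, aeval_C, aeval_C, aeval_X]
    rfl
  rw [hHz, hQz, h2z] at hHdec
  have hw : ∀ ξ ∈ S, Lagrange.nodalWeight S v ξ = ((q / (derivative Q).eval ξ : ℝ) : ℂ) := by
    intro ξ hξ
    rw [Lagrange.nodalWeight_eq_eval_derivative_nodal hξ]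
    have h1 : (((derivative Q).eval ξ : ℝ) : ℂ) = (q : ℂ) * eval (v ξ) (derivative (Lagrange.nodal S v)) := by
      have h2 : derivative (Q.map (algebraMap ℝ ℂ)) = C (q : ℂ) * derivative (Lagrange.nodal S v) := by
        rw [hQprod, derivative_C_mul]
      have h3 := congrArg (eval (v ξ)) h2
      rw [eval_mul, eval_C, derivative_map] at h3
      rw [← h3]
      change _ = eval (algebraMap ℝ ℂ ξ) _
      rw [eval_map_algebraMap, aeval_algebraMap_apply]
      simp
    have hd0 : (derivative Q).eval ξ ≠ 0 := by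
      intro h
      have := hsign ξ ((hmemS ξ).mp hξ)
      rw [h, mul_zero] at this
      exact lt_irrefl _ this
    have hd0' : (((derivative Q).eval ξ : ℝ) : ℂ) ≠ 0 := by exact_mod_cast hd0
    have hq0' : (q : ℂ) ≠ 0 := by exact_mod_cast hq0
    rw [h1] at hd0'
    have hd1 := (mul_ne_zero_iff.mp hd0').2
    rw [Complex.ofReal_div, h1]
    field_simp
  have hsum : ∑ ξ ∈ S, Lagrange.nodalWeight S v ξ * (z - v ξ)⁻¹ * ((H.eval ξ : ℝ) : ℂ) =
      (q : ℂ) * ∑ ξ ∈ S, ((H.eval ξ / (derivative Q).eval ξ : ℝ) : ℂ) * (z - v ξ)⁻¹ := by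
    rw [Finset.mul_sum]
    apply Finset.sum_congr rfl
    intro ξ hξ
    rw [hw ξ hξ]
    push_cast
    ring
  rw [hsum] at hHdec
  have hq0' : (q : ℂ) ≠ 0 := by exact_mod_cast hq0
  have hfin : (a : ℂ) * z + b + ∑ ξ ∈ S, ((H.eval ξ / (derivative Q).eval ξ : ℝ) : ℂ) * (z - v ξ)⁻¹ = 0 := by
    have h1 : (q : ℂ) * (Lagrange.nodal S v).eval z * ((a : ℂ) * z + b +
        ∑ ξ ∈ S, ((H.eval ξ / (derivative Q).eval ξ : ℝ) : ℂ) * (z - v ξ)⁻¹) = 0 := by
      rw [hHdec]; ring
    exact (mul_eq_zero.mp h1).resolve_left (mul_ne_zero hq0' hnod)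
  have him := congrArg Complex.im hfin
  rw [Complex.add_im, Complex.add_im, Complex.im_ofReal_mul, Complex.ofReal_im, Complex.im_sum,
    Complex.zero_im] at him
  have hnn : 0 ≤ ∑ ξ ∈ S, (((H.eval ξ / (derivative Q).eval ξ : ℝ) : ℂ) * (z - v ξ)⁻¹).im := by
    apply Finset.sum_nonneg
    intro ξ hξ
    rw [Complex.im_ofReal_mul, Complex.inv_im]
    have h1 := hsign ξ ((hmemS ξ).mp hξ)
    have h2 : H.eval ξ / (derivative Q).eval ξ ≤ 0 := by
      have hd0 : (derivative Q).eval ξ ≠ 0 := by
        intro h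
        rw [h, mul_zero] at h1
        exact lt_irrefl _ h1
      have e : H.eval ξ / (derivative Q).eval ξ =
          (H.eval ξ * (derivative Q).eval ξ) / ((derivative Q).eval ξ) ^ 2 := by field_simp
      rw [e]
      exact div_nonpos_of_nonpos_of_nonneg h1.le (sq_nonneg _)
    have h3 : -(z - v ξ).im / Complex.normSq (z - v ξ) ≤ 0 := by
      apply div_nonpos_of_nonpos_of_nonneg _ (Complex.normSq_nonneg _)
      simp [v]
      exact hz.le
    exact mul_nonneg_of_nonpos_of_nonpos h2 h3
  have hap : 0 < a * z.im := mul_pos hapos hz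
  linarith

end Pool.Agent.X207.KS
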