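import Mathlib
import Pool.Agent.X207.KS2
import Pool.Agent.X207.KS5
import Pool.Agent.H635Z.D

set_option autoImplicit false

/-! Laguerre-type reference polynomials and the record property of `x y' - ε x y`. -/

open Polynomial Filter Topology

namespace Pool.Agent.X207.KL

open Pool.Agent.H635Z Pool.Agent.X207.KS

/-- second version of the criterion -/
theorem criterion2 (Q H : ℝ[X]) (hQ : Q.Splits) (hQ0 : Q ≠ 0)
    (hsign : ∀ ξ : ℝ, Q.eval ξ = 0 → 0 < H.eval ξ * (derivative Q).eval ξ)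
    (hdeg : H.natDegree ≤ Q.natDegree) : H.Splits := by
  have hq : Q.leadingCoeff ≠ 0 := leadingCoeff_ne_zero.mpr hQ0
  have key : ∀ δ : ℝ, 0 < δ → (C δ * X * Q - H).Splits := by
    intro δ hδ
    apply criterion Q _ hQ hQ0
    · intro ξ hξ
      have := hsign ξ hξ
      rw [eval_sub, eval_mul, hξ, mul_zero, zero_sub]
      linarith
    · refine (natDegree_sub_le _ _).trans (max_le ?_ (by omega))
      rw [mul_assoc]
      refine (natDegree_C_mul_le _ _).trans ?_
      refine natDegree_mul_le.trans ?_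
      rw [natDegree_X]; omega
    · have h1 : (C δ * X * Q - H).coeff (Q.natDegree + 1) = δ * Q.leadingCoeff := by
        rw [coeff_sub, mul_assoc, coeff_C_mul, coeff_X_mul,
          coeff_eq_zero_of_natDegree_lt (by omega : H.natDegree < Q.natDegree + 1), sub_zero]
        rfl
      rw [h1]
      have : 0 < Q.leadingCoeff ^ 2 := by positivity
      nlinarith
  have hlim : (-H).Splits := by
    refine splits_of_tendsto (l := 𝓝[>] (0 : ℝ)) (fun δ => C δ * X * Q - H) _ ?_ ?_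
    · filter_upwards [self_mem_nhdsWithin] with δ hδ
      exact key δ hδ
    · intro z
      have hc : Continuous (fun δ : ℝ => aeval z (C δ * X * Q - H)) := by
        simp only [map_sub, map_mul, aeval_C, aeval_X, Complex.coe_algebraMap]
        fun_prop
      have := (hc.tendsto 0).mono_left (nhdsWithin_le_nhds (s := Set.Ioi (0 : ℝ)))
      simpa using this
  have : H = C (-1) * (-H) := by simp
  rw [this]
  exact hlim.C_mul _

/-- coefficients -/
noncomputable def bc (N k : ℕ) : ℝ :=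
  (-(1 / (N : ℝ))) ^ k * ((Nat.choose N k : ℝ) / (Nat.factorial k : ℝ))

lemma bc_zero (N : ℕ) : bc N 0 = 1 := by simp [bc]

lemma bc_gt {N k : ℕ} (h : N < k) : bc N k = 0 := by
  simp [bc, Nat.choose_eq_zero_of_lt h]

lemma bc_succ {N k : ℕ} (hN : 0 < N) (hk : k ≤ N) :
    bc N (k + 1) * ((k : ℝ) + 1) ^ 2 = -(bc N k * (1 - 1 / (N : ℝ) * k)) := by
  have h1 : (Nat.choose N (k + 1) : ℝ) * ((k : ℝ) + 1) = Nat.choose N k * ((N : ℝ) - k) := by
    have := Nat.choose_succ_right_eq N k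
    have h2 : ((N.choose (k + 1) * (k + 1) : ℕ) : ℝ) = ((N.choose k * (N - k) : ℕ) : ℝ) := by
      rw [this]
    rw [Nat.cast_mul, Nat.cast_mul, Nat.cast_sub hk] at h2
    push_cast at h2
    exact h2
  have hN' : (N : ℝ) ≠ 0 := by positivity
  have hk' : (Nat.factorial k : ℝ) ≠ 0 := by positivity
  have hk1 : ((k : ℝ) + 1) ≠ 0 := by positivity
  have h3 : (Nat.choose N (k + 1) : ℝ) = Nat.choose N k * ((N : ℝ) - k) / ((k : ℝ) + 1) := by
    field_simp
    exact h1
  unfold bc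
  rw [h3, Nat.factorial_succ, pow_succ]
  push_cast
  field_simp

/-- exponential polynomials -/
noncomputable def zz (N j : ℕ) (u : ℝ) : ℝ :=
  ∑ k ∈ Finset.range (N + 1), (k : ℝ) ^ j * bc N k * Real.exp (k * u)

lemma zz_deriv (N j : ℕ) (u : ℝ) : HasDerivAt (zz N j) (zz N (j + 1) u) u := by
  unfold zz
  apply HasDerivAt.fun_sum
  intro k _
  have h1 : HasDerivAt (fun u : ℝ => (k : ℝ) * u) (k : ℝ) u := by
    simpa using (hasDerivAt_id u).const_mul (k : ℝ)
  have h2 := (h1.exp).const_mul ((k : ℝ) ^ j * bc N k)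
  refine HasDerivAt.congr_deriv h2 ?_
  ring

lemma zz_tendsto (N : ℕ) : Tendsto (zz N 0) atBot (𝓝 1) := by
  have h1 : Tendsto (fun u : ℝ => ∑ k ∈ Finset.range (N + 1),
      (k : ℝ) ^ 0 * bc N k * Real.exp (k * u)) atBot
      (𝓝 (∑ k ∈ Finset.range (N + 1), (k : ℝ) ^ 0 * bc N k * (if k = 0 then 1 else 0))) := by
    apply tendsto_finsetSum
    intro k _
    apply Tendsto.const_mul
    split_ifs with h
    · rw [h]; simp
    · apply Real.tendsto_exp_atBot.comp
      apply Tendsto.const_mul_atBot _ tendsto_id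
      have : 0 < k := Nat.pos_of_ne_zero h
      exact_mod_cast this
  have h2 : ∑ k ∈ Finset.range (N + 1), (k : ℝ) ^ 0 * bc N k * (if k = 0 then 1 else 0) = 1 := by
    rw [Finset.sum_eq_single 0]
    · simp [bc_zero]
    · intro b _ hb; simp [hb]
    · intro h; simp at h
  rw [h2] at h1
  exact h1

/-- the function `W = θ y - ε x y = -(1+ε) ∑ b_k x^{k+1}/(k+1)` -/
noncomputable def WW (N : ℕ) (u : ℝ) : ℝ :=
  -(1 + 1 / (N : ℝ)) * ∑ k ∈ Finset.range (N + 1), bc N k / ((k : ℝ) + 1) * Real.exp (((k : ℝ) + 1) * u)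

lemma WW_eq {N : ℕ} (hN : 0 < N) (u : ℝ) :
    WW N u = zz N 1 u - 1 / (N : ℝ) * Real.exp u * zz N 0 u := by
  unfold WW zz
  rw [Finset.mul_sum, Finset.mul_sum, Finset.sum_range_succ' (fun k => (k : ℝ) ^ 1 * bc N k * Real.exp (k * u)),
    Finset.sum_range_succ, Finset.sum_range_succ (fun k => 1 / (N : ℝ) * Real.exp u * _)]
  have hN' : (N : ℝ) ≠ 0 := by positivity
  have h1 : ∀ k ∈ Finset.range N, -(1 + 1 / (N : ℝ)) * (bc N k / ((k : ℝ) + 1) * Real.exp (((k : ℝ) + 1) * u)) =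
      (((k + 1 : ℕ) : ℝ) ^ 1 * bc N (k + 1) * Real.exp (((k + 1 : ℕ) : ℝ) * u)) -
        (1 / (N : ℝ) * Real.exp u * ((k : ℝ) ^ 0 * bc N k * Real.exp (k * u))) := by
    intro k hk
    have hk' : k ≤ N := (Finset.mem_range.mp hk).le
    have h2 := bc_succ hN hk'
    have h3 : Real.exp (((k + 1 : ℕ) : ℝ) * u) = Real.exp (k * u) * Real.exp u := by
      rw [← Real.exp_add]; congr 1; push_cast; ring
    have h4 : Real.exp (((k : ℝ) + 1) * u) = Real.exp (k * u) * Real.exp u := by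
      rw [← Real.exp_add]; congr 1; ring
    rw [h3, h4]
    have hk1 : ((k : ℝ) + 1) ≠ 0 := by positivity
    have h5 : bc N (k + 1) = -(bc N k * (1 - 1 / (N : ℝ) * k)) / ((k : ℝ) + 1) ^ 2 := by
      rw [← h2]; field_simp
    rw [h5]
    push_cast
    field_simp
    ring
  rw [Finset.sum_congr rfl h1, Finset.sum_sub_distrib]
  have h4 : Real.exp (((N : ℝ) + 1) * u) = Real.exp (N * u) * Real.exp u := by
    rw [← Real.exp_add]; congr 1; ring
  rw [h4]
  have h5 : ((N : ℝ) + 1) ≠ 0 := by positivity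
  have h6 : -(1 + 1 / (N : ℝ)) * (bc N N / ((N : ℝ) + 1) * (Real.exp (N * u) * Real.exp u)) =
      -(1 / (N : ℝ) * Real.exp u * ((N : ℝ) ^ 0 * bc N N * Real.exp (N * u))) := by
    field_simp
  have h7 : (((0 : ℕ) : ℝ) ^ 1 * bc N 0 * Real.exp (((0 : ℕ) : ℝ) * u)) = 0 := by simp
  rw [h6, h7]
  ring

lemma WW_deriv (N : ℕ) (u : ℝ) :
    HasDerivAt (WW N) (-(1 + 1 / (N : ℝ)) * Real.exp u * zz N 0 u) u := by
  unfold WW zz
  have h : HasDerivAt (fun u => ∑ k ∈ Finset.range (N + 1), bc N k / ((k : ℝ) + 1) *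
      Real.exp (((k : ℝ) + 1) * u))
      (∑ k ∈ Finset.range (N + 1), bc N k * Real.exp (((k : ℝ) + 1) * u)) u := by
    apply HasDerivAt.fun_sum
    intro k _
    have h1 : HasDerivAt (fun u : ℝ => ((k : ℝ) + 1) * u) ((k : ℝ) + 1) u := by
      simpa using (hasDerivAt_id u).const_mul ((k : ℝ) + 1)
    have h2 := (h1.exp).const_mul (bc N k / ((k : ℝ) + 1))
    refine HasDerivAt.congr_deriv h2 ?_
    have hk1 : ((k : ℝ) + 1) ≠ 0 := by positivity
    field_simp
  have h2 := h.const_mul (-(1 + 1 / (N : ℝ)))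
  refine HasDerivAt.congr_deriv h2 ?_
  rw [mul_assoc, Finset.mul_sum (s := Finset.range (N + 1)) (a := Real.exp u)]
  congr 1
  apply Finset.sum_congr rfl
  intro k _
  have h4 : Real.exp (((k : ℝ) + 1) * u) = Real.exp (k * u) * Real.exp u := by
    rw [← Real.exp_add]; congr 1; ring
  rw [h4, pow_zero]
  ring

lemma WW_tendsto (N : ℕ) : Tendsto (WW N) atBot (𝓝 0) := by
  unfold WW
  have h : Tendsto (fun u => ∑ k ∈ Finset.range (N + 1), bc N k / ((k : ℝ) + 1) *
      Real.exp (((k : ℝ) + 1) * u)) atBot (𝓝 (∑ k ∈ Finset.range (N + 1), bc N k / ((k : ℝ) + 1) * 0)) := by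
    apply tendsto_finsetSum
    intro k _
    apply Tendsto.const_mul
    apply Real.tendsto_exp_atBot.comp
    apply Tendsto.const_mul_atBot _ tendsto_id
    positivity
  have h2 := h.const_mul (-(1 + 1 / (N : ℝ)))
  simpa using h2

lemma EE_mono {N : ℕ} (hN : 0 < N) {u v : ℝ} (huv : u ≤ v) :
    WW N u ^ 2 + (1 + 1 / (N : ℝ)) * (Real.exp u * zz N 0 u ^ 2) ≤
      WW N v ^ 2 + (1 + 1 / (N : ℝ)) * (Real.exp v * zz N 0 v ^ 2) := by
  rcases eq_or_lt_of_le huv with h | h
  · rw [h]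
  · refine le_of_deriv_nonneg (f := fun u => WW N u ^ 2 + (1 + 1 / (N : ℝ)) * (Real.exp u * zz N 0 u ^ 2))
      (f' := fun u => (1 + 1 / (N : ℝ)) * (Real.exp u * zz N 0 u ^ 2 +
        2 * (1 / (N : ℝ)) * Real.exp u ^ 2 * zz N 0 u ^ 2)) h ?_ ?_
    · intro w _
      have h1 := ((WW_deriv N w).pow 2).add
        ((((Real.hasDerivAt_exp w).mul ((zz_deriv N 0 w).pow 2))).const_mul (1 + 1 / (N : ℝ)))
      refine HasDerivAt.congr_deriv h1 ?_
      have h2 := WW_eq hN w
      have h3 : zz N 1 w = WW N w + 1 / (N : ℝ) * Real.exp w * zz N 0 w := by rw [h2]; ring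
      simp only [Nat.cast_ofNat, Nat.add_one_sub_one, pow_one, Pi.pow_apply, zero_add]
      rw [h3]
      ring
    · intro w _
      have hN' : (0 : ℝ) < N := by exact_mod_cast hN
      have := Real.exp_pos w
      positivity

/-- the record property of `W` at zeros of `y` -/
theorem WW_record {N : ℕ} (hN : 0 < N) {l : ℝ} (hl : zz N 0 l = 0) :
    WW N l ≠ 0 ∧ ∀ u ≤ l, |WW N u| ≤ |WW N l| := by
  have hN' : (0 : ℝ) < N := by exact_mod_cast hN
  have h1 : ∀ u ≤ l, WW N u ^ 2 + (1 + 1 / (N : ℝ)) * (Real.exp u * zz N 0 u ^ 2) ≤ WW N l ^ 2 := by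
    intro u hu
    have := EE_mono hN hu
    rw [hl] at this
    simpa using this
  constructor
  · intro h0
    have h2 := (zz_tendsto N).eventually (lt_mem_nhds (show (0 : ℝ) < 1 by norm_num))
    have h3 := (h2.and (eventually_le_atBot l)).exists
    obtain ⟨u, hu1, hu2⟩ := h3
    have h4 := h1 u hu2
    rw [h0] at h4
    have h5 : 0 < (1 + 1 / (N : ℝ)) * (Real.exp u * zz N 0 u ^ 2) := by
      have := Real.exp_pos u
      positivity
    have h6 := sq_nonneg (WW N u)
    rw [zero_pow (by norm_num)] at h4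
    linarith
  · intro u hu
    have h4 := h1 u hu
    have h5 : 0 ≤ (1 + 1 / (N : ℝ)) * (Real.exp u * zz N 0 u ^ 2) := by
      have := Real.exp_pos u
      positivity
    exact sq_le_sq.mp (by linarith)

end Pool.Agent.X207.KL
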