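import Mathlib
import Pool.Agent.X207.KL1

set_option autoImplicit false

/-! The sign of `∑ b_k λ^k ln(k+2)` at the zeros `λ` of the reference polynomial. -/

open Polynomial Filter Topology

namespace Pool.Agent.X207.KL

open Pool.Agent.H635Z Pool.Agent.X207.KS

lemma lt_of_deriv_pos {f f' : ℝ → ℝ} {a b : ℝ} (hab : a < b)
    (hf : ∀ u ∈ Set.Icc a b, HasDerivAt f (f' u) u) (h : ∀ u ∈ Set.Icc a b, 0 < f' u) :
    f a < f b := by
  obtain ⟨c, hc, hc2⟩ := exists_hasDerivAt_eq_slope f f' hab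
    (fun u hu => (hf u hu).continuousAt.continuousWithinAt)
    (fun u hu => hf u (Set.Ioo_subset_Icc_self hu))
  have h1 := h c (Set.Ioo_subset_Icc_self hc)
  rw [hc2] at h1
  have h2 : 0 < b - a := sub_pos.mpr hab
  have h3 := (div_pos_iff_of_pos_right h2).mp h1
  linarith

/-- auxiliary sum -/
noncomputable def Pa (N : ℕ) (a u : ℝ) : ℝ :=
  -(1 + 1 / (N : ℝ)) * ∑ k ∈ Finset.range (N + 1),
    bc N k / (((k : ℝ) + 1) * ((k : ℝ) + 2 + a)) * Real.exp (((k : ℝ) + 1) * u)

lemma Pa_deriv (N : ℕ) {a : ℝ} (ha : 0 ≤ a) (u : ℝ) :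
    HasDerivAt (Pa N a) (WW N u - (1 + a) * Pa N a u) u := by
  unfold Pa WW
  have h : HasDerivAt (fun u => ∑ k ∈ Finset.range (N + 1), bc N k / (((k : ℝ) + 1) * ((k : ℝ) + 2 + a)) *
      Real.exp (((k : ℝ) + 1) * u))
      (∑ k ∈ Finset.range (N + 1), (bc N k / ((k : ℝ) + 1) * Real.exp (((k : ℝ) + 1) * u) -
        (1 + a) * (bc N k / (((k : ℝ) + 1) * ((k : ℝ) + 2 + a)) * Real.exp (((k : ℝ) + 1) * u)))) u := by
    apply HasDerivAt.fun_sum
    intro k _
    have h1 : HasDerivAt (fun u : ℝ => ((k : ℝ) + 1) * u) ((k : ℝ) + 1) u := by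
      simpa using (hasDerivAt_id u).const_mul ((k : ℝ) + 1)
    have h2 := (h1.exp).const_mul (bc N k / (((k : ℝ) + 1) * ((k : ℝ) + 2 + a)))
    refine HasDerivAt.congr_deriv h2 ?_
    have hk1 : ((k : ℝ) + 1) ≠ 0 := by positivity
    have hk2 : ((k : ℝ) + 2 + a) ≠ 0 := by positivity
    field_simp
    ring
  have h2 := h.const_mul (-(1 + 1 / (N : ℝ)))
  refine HasDerivAt.congr_deriv h2 ?_
  rw [Finset.sum_sub_distrib, ← Finset.mul_sum]
  ring

lemma Pa_tendsto (N : ℕ) (a : ℝ) : Tendsto (Pa N a) atBot (𝓝 0) := by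
  unfold Pa
  have h : Tendsto (fun u => ∑ k ∈ Finset.range (N + 1), bc N k / (((k : ℝ) + 1) * ((k : ℝ) + 2 + a)) *
      Real.exp (((k : ℝ) + 1) * u)) atBot
      (𝓝 (∑ k ∈ Finset.range (N + 1), bc N k / (((k : ℝ) + 1) * ((k : ℝ) + 2 + a)) * 0)) := by
    apply tendsto_finsetSum
    intro k _
    apply Tendsto.const_mul
    apply Real.tendsto_exp_atBot.comp
    apply Tendsto.const_mul_atBot _ tendsto_id
    positivity
  have h2 := h.const_mul (-(1 + 1 / (N : ℝ)))
  simpa using h2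

/-- sums `S(a)` -/
noncomputable def Sa (N : ℕ) (a l : ℝ) : ℝ :=
  ∑ k ∈ Finset.range (N + 1), bc N k * Real.exp (k * l) / ((k : ℝ) + 2 + a)

lemma Sa_eq (N : ℕ) {a : ℝ} (ha : 0 ≤ a) (l : ℝ) :
    WW N l - (1 + a) * Pa N a l = -(1 + 1 / (N : ℝ)) * Real.exp l * Sa N a l := by
  unfold WW Pa Sa
  have e : -(1 + 1 / (N : ℝ)) * ∑ k ∈ Finset.range (N + 1), bc N k / ((k : ℝ) + 1) *
      Real.exp (((k : ℝ) + 1) * l) - (1 + a) * (-(1 + 1 / (N : ℝ)) * ∑ k ∈ Finset.range (N + 1),
        bc N k / (((k : ℝ) + 1) * ((k : ℝ) + 2 + a)) * Real.exp (((k : ℝ) + 1) * l)) =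
      -(1 + 1 / (N : ℝ)) * (∑ k ∈ Finset.range (N + 1), bc N k / ((k : ℝ) + 1) *
      Real.exp (((k : ℝ) + 1) * l) - ∑ k ∈ Finset.range (N + 1), (1 + a) *
        (bc N k / (((k : ℝ) + 1) * ((k : ℝ) + 2 + a)) * Real.exp (((k : ℝ) + 1) * l))) := by
    rw [← Finset.mul_sum]; ring
  rw [e, ← Finset.sum_sub_distrib, mul_assoc, Finset.mul_sum (a := Real.exp l)]
  congr 1
  apply Finset.sum_congr rfl
  intro k _
  have h4 : Real.exp (((k : ℝ) + 1) * l) = Real.exp (k * l) * Real.exp l := by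
    rw [← Real.exp_add]; congr 1; ring
  rw [h4]
  have hk1 : ((k : ℝ) + 1) ≠ 0 := by positivity
  have hk2 : ((k : ℝ) + 2 + a) ≠ 0 := by positivity
  field_simp
  ring

theorem Sa_sign {N : ℕ} (hN : 0 < N) {l : ℝ} (hl : zz N 0 l = 0) {s : ℝ} (hs : s = 1 ∨ s = -1)
    (hsW : 0 < s * WW N l) {a : ℝ} (ha : 0 ≤ a) : s * Sa N a l < 0 := by
  obtain ⟨_, hrec⟩ := WW_record hN hl
  have habs : |WW N l| = s * WW N l := by
    rw [← abs_of_pos hsW, abs_mul]
    rcases hs with rfl | rfl <;> simp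
  have hle : ∀ u ≤ l, s * WW N u ≤ s * WW N l := by
    intro u hu
    have h1 := hrec u hu
    rw [habs] at h1
    refine le_trans ?_ h1
    rcases hs with rfl | rfl
    · rw [one_mul]; exact le_abs_self _
    · rw [neg_one_mul]; exact neg_le_abs _
  set f : ℝ → ℝ := fun u => Real.exp ((1 + a) * u) * (s * (WW N l - (1 + a) * Pa N a u)) with hf
  have hfd : ∀ u, HasDerivAt f ((1 + a) * Real.exp ((1 + a) * u) * -(s * WW N u - s * WW N l)) u := by
    intro u
    have h1 : HasDerivAt (fun u : ℝ => (1 + a) * u) (1 + a) u := by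
      simpa using (hasDerivAt_id u).const_mul (1 + a)
    have h2 := (h1.exp).mul ((((Pa_deriv N ha u).const_mul (1 + a)).const_sub (WW N l)).const_mul s)
    refine HasDerivAt.congr_deriv h2 ?_
    ring
  have h1a : 0 < 1 + a := by linarith
  have hlim : Tendsto f atBot (𝓝 0) := by
    have h1 : Tendsto (fun u : ℝ => Real.exp ((1 + a) * u)) atBot (𝓝 0) := by
      apply Real.tendsto_exp_atBot.comp
      exact Tendsto.const_mul_atBot h1a tendsto_id
    have h2 := h1.mul ((((Pa_tendsto N a).const_mul (1 + a)).const_sub (WW N l)).const_mul s)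
    simpa using h2
  have hmono : ∀ u v, u ≤ v → v ≤ l → f u ≤ f v := by
    intro u v huv hvl
    rcases eq_or_lt_of_le huv with h | h
    · rw [h]
    · refine le_of_deriv_nonneg h (fun w _ => hfd w) (fun w hw => ?_)
      have := hle w (hw.2.trans hvl)
      have h3 := Real.exp_pos ((1 + a) * w)
      have h4 : 0 ≤ -(s * WW N w - s * WW N l) := by linarith
      positivity
  have hnonneg : ∀ u ≤ l, 0 ≤ f u := by
    intro u hu
    apply le_of_tendsto hlim
    filter_upwards [eventually_le_atBot u] with v hv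
    exact hmono v u hv hu
  have hfl : 0 < f l := by
    have h2 := (((WW_tendsto N).const_mul s).eventually (gt_mem_nhds (show s * 0 < s * WW N l by simpa using hsW)))
    rw [eventually_atBot] at h2
    obtain ⟨c, hc⟩ := h2
    set u1 := min c l with hu1
    have h3 : f (u1 - 1) < f u1 := by
      refine lt_of_deriv_pos (by linarith) (fun w _ => hfd w) (fun w hw => ?_)
      have h4 := hc w (hw.2.trans (min_le_left _ _))
      have h5 := Real.exp_pos ((1 + a) * w)
      have h6 : 0 < -(s * WW N w - s * WW N l) := by linarith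
      positivity
    have h4 := hnonneg (u1 - 1) (by have := min_le_right c l; linarith)
    have h5 := hmono u1 l (min_le_right _ _) (le_refl _)
    linarith
  rw [hf] at hfl
  simp only at hfl
  have h6 := (mul_pos_iff_of_pos_left (Real.exp_pos ((1 + a) * l))).mp hfl
  rw [Sa_eq N ha] at h6
  have hN' : (0 : ℝ) < N := by exact_mod_cast hN
  have h7 : 0 < (1 + 1 / (N : ℝ)) * Real.exp l := by
    have := Real.exp_pos l
    positivity
  by_contra hcon
  push Not at hcon
  have h8 : s * (-(1 + 1 / (N : ℝ)) * Real.exp l * Sa N a l) =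
      -(((1 + 1 / (N : ℝ)) * Real.exp l) * (s * Sa N a l)) := by ring
  rw [h8] at h6
  have := mul_nonneg h7.le hcon
  linarith

/-- `h(a) = ∑ b_k λ^k ln(k+2+a)` -/
noncomputable def ha (N : ℕ) (l a : ℝ) : ℝ :=
  ∑ k ∈ Finset.range (N + 1), bc N k * Real.exp (k * l) * Real.log ((k : ℝ) + 2 + a)

lemma ha_deriv (N : ℕ) (l : ℝ) {a : ℝ} (h : 0 ≤ a) : HasDerivAt (ha N l) (Sa N a l) a := by
  unfold ha Sa
  apply HasDerivAt.fun_sum
  intro k _
  have h1 : HasDerivAt (fun a : ℝ => (k : ℝ) + 2 + a) 1 a := (hasDerivAt_id a).const_add _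
  have hk2 : ((k : ℝ) + 2 + a) ≠ 0 := by positivity
  have h2 := (h1.log hk2).const_mul (bc N k * Real.exp (k * l))
  refine HasDerivAt.congr_deriv h2 ?_
  ring

lemma log_tendsto (k : ℕ) :
    Tendsto (fun a : ℝ => Real.log ((k : ℝ) + 2 + a) - Real.log (1 + a)) atTop (𝓝 0) := by
  have h1 : Tendsto (fun a : ℝ => 1 + ((k : ℝ) + 1) * (1 / (1 + a))) atTop (𝓝 (1 + ((k : ℝ) + 1) * 0)) := by
    apply Tendsto.const_add
    apply Tendsto.const_mul
    have : Tendsto (fun a : ℝ => 1 + a) atTop atTop := tendsto_atTop_add_const_left _ _ tendsto_id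
    have h9 := tendsto_inv_atTop_zero.comp this
    simpa [Function.comp_def] using h9
  rw [mul_zero, add_zero] at h1
  have h2 := (Real.continuousAt_log (one_ne_zero)).tendsto.comp h1
  rw [Real.log_one] at h2
  refine h2.congr' ?_
  filter_upwards [eventually_gt_atTop 0] with a ha
  rw [Function.comp_apply, ← Real.log_div (by positivity) (by positivity)]
  congr 1
  have : (1 + a) ≠ 0 := by positivity
  field_simp
  ring

lemma ha_tendsto (N : ℕ) {l : ℝ} (hl : zz N 0 l = 0) : Tendsto (ha N l) atTop (𝓝 0) := by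
  have e : ha N l = fun a => ∑ k ∈ Finset.range (N + 1), bc N k * Real.exp (k * l) *
      (Real.log ((k : ℝ) + 2 + a) - Real.log (1 + a)) := by
    funext a
    unfold ha
    have h1 : ∑ k ∈ Finset.range (N + 1), bc N k * Real.exp (k * l) *
      (Real.log ((k : ℝ) + 2 + a) - Real.log (1 + a)) =
      ∑ k ∈ Finset.range (N + 1), bc N k * Real.exp (k * l) * Real.log ((k : ℝ) + 2 + a) -
       (∑ k ∈ Finset.range (N + 1), (k : ℝ) ^ 0 * bc N k * Real.exp (k * l)) * Real.log (1 + a) := by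
      rw [Finset.sum_mul, ← Finset.sum_sub_distrib]
      apply Finset.sum_congr rfl
      intro k _
      ring
    have h2 : ∑ k ∈ Finset.range (N + 1), (k : ℝ) ^ 0 * bc N k * Real.exp (k * l) = 0 := hl
    rw [h1, h2]
    ring
  rw [e]
  have h : Tendsto (fun a => ∑ k ∈ Finset.range (N + 1), bc N k * Real.exp (k * l) *
      (Real.log ((k : ℝ) + 2 + a) - Real.log (1 + a))) atTop
      (𝓝 (∑ k ∈ Finset.range (N + 1), bc N k * Real.exp (k * l) * 0)) := by
    apply tendsto_finsetSum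
    intro k _
    exact (log_tendsto k).const_mul _
  simpa using h

theorem ha_sign {N : ℕ} (hN : 0 < N) {l : ℝ} (hl : zz N 0 l = 0) : 0 < ha N l 0 * WW N l := by
  have gen : ∀ s : ℝ, (s = 1 ∨ s = -1) → 0 < s * WW N l → 0 < s * ha N l 0 := by
    intro s hs hsW
    have hd : ∀ a, 0 ≤ a → HasDerivAt (fun a => -(s * ha N l a)) (-(s * Sa N a l)) a :=
      fun a h => ((ha_deriv N l h).const_mul s).neg
    have h1 : -(s * ha N l 0) < -(s * ha N l 1) := by
      refine lt_of_deriv_pos (f := fun a => -(s * ha N l a)) (a := 0) (b := 1) one_pos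
        (fun u hu => hd u hu.1) (fun u hu => ?_)
      have := Sa_sign hN hl hs hsW hu.1
      linarith
    have h2 : -(s * ha N l 1) ≤ 0 := by
      have h3 := ((ha_tendsto N hl).const_mul s).neg
      rw [mul_zero, neg_zero] at h3
      apply ge_of_tendsto h3
      filter_upwards [eventually_gt_atTop 1] with v hv
      refine le_of_deriv_nonneg (f := fun a => -(s * ha N l a)) hv
        (fun u hu => hd u (by linarith [hu.1])) (fun u hu => ?_)
      have := Sa_sign hN hl hs hsW (show 0 ≤ u by linarith [hu.1])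
      linarith
    linarith
  rcases lt_or_gt_of_ne (WW_record hN hl).1 with h | h
  · have := gen (-1) (Or.inr rfl) (by linarith)
    nlinarith
  · have := gen 1 (Or.inl rfl) (by linarith)
    nlinarith

end Pool.Agent.X207.KL
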