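import Mathlib
import Pool.Agent.X207.KL2

set_option autoImplicit false

/-! From sign conditions to the multiplier property. -/

open Polynomial Filter Topology

namespace Pool.Agent.X207.KL

open Pool.Agent.H635Z Pool.Agent.X207.KS

/-- the Laguerre-type polynomial -/
noncomputable def YL (N : ℕ) : ℝ[X] := (Gam ((1 + X) ^ N)).comp (C (-(1 / (N : ℝ))) * X)

lemma YL_coeff (N k : ℕ) : (YL N).coeff k = bc N k := by
  unfold YL bc
  rw [scale_coeff, Gam_coeff, add_comm, coeff_X_add_one_pow]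

lemma YL_splits {N : ℕ} (hN : 0 < N) : (YL N).Splits := by
  apply scale_splits
  · apply Gam_splits
    apply Splits.pow
    have : (1 + X : ℝ[X]) = X - C (-1) := by simp [add_comm]
    rw [this]
    exact Splits.X_sub_C _
  · have : (0 : ℝ) < 1 / (N : ℝ) := by positivity
    linarith

lemma bc_self_ne {N : ℕ} (hN : 0 < N) : bc N N ≠ 0 := by
  unfold bc
  have h1 : (-(1 / (N : ℝ))) ≠ 0 := by
    have : (0 : ℝ) < 1 / (N : ℝ) := by positivity
    linarith
  rw [Nat.choose_self]
  push_cast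
  have := pow_ne_zero N h1
  positivity

lemma YL_natDegree {N : ℕ} (hN : 0 < N) : (YL N).natDegree = N := by
  apply le_antisymm
  · rw [natDegree_le_iff_coeff_eq_zero]
    intro k hk
    rw [YL_coeff, bc_gt hk]
  · apply le_natDegree_of_ne_zero
    rw [YL_coeff]
    exact bc_self_ne hN

lemma eval_exp' (P : ℝ[X]) (N : ℕ) (h : P.natDegree ≤ N) (u : ℝ) :
    P.eval (Real.exp u) = ∑ k ∈ Finset.range (N + 1), P.coeff k * Real.exp (k * u) := by
  rw [eval_eq_sum_range' (by omega : P.natDegree < N + 1)]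
  apply Finset.sum_congr rfl
  intro k _
  rw [Real.exp_nat_mul]

lemma YL_eval {N : ℕ} (hN : 0 < N) (u : ℝ) : (YL N).eval (Real.exp u) = zz N 0 u := by
  rw [eval_exp' _ N (YL_natDegree hN).le]
  unfold zz
  apply Finset.sum_congr rfl
  intro k _
  rw [YL_coeff, pow_zero, one_mul]

lemma YL_deriv_eval {N : ℕ} (hN : 0 < N) (u : ℝ) :
    Real.exp u * (derivative (YL N)).eval (Real.exp u) = zz N 1 u := by
  have h1 : Real.exp u * (derivative (YL N)).eval (Real.exp u) = (Th (YL N)).eval (Real.exp u) := by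
    unfold Th
    rw [eval_mul, eval_X]
  have h2 : (Th (YL N)).natDegree ≤ N := by
    rw [natDegree_le_iff_coeff_eq_zero]
    intro k hk
    rw [Th_coeff, YL_coeff, bc_gt hk, mul_zero]
  rw [h1, eval_exp' _ N h2]
  unfold zz
  apply Finset.sum_congr rfl
  intro k _
  rw [Th_coeff, YL_coeff, pow_one]

lemma bc_sign (N k : ℕ) : bc N k = (-1) ^ k * ((1 / (N : ℝ)) ^ k *
    ((Nat.choose N k : ℝ) / (Nat.factorial k : ℝ))) := by
  unfold bc
  rw [← mul_assoc, ← mul_pow]
  congr 2
  ring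

/-- positivity on the negative axis -/
lemma pos_of_nonpos (P : ℝ[X]) (g : ℕ → ℝ) (N : ℕ) (hd : P.natDegree ≤ N) (hg : ∀ k, 0 ≤ g k) (hg0 : 0 < g 0)
    (hc : ∀ k, P.coeff k = g k * bc N k) {x : ℝ} (hx : x ≤ 0) : 0 < P.eval x := by
  rw [eval_eq_sum_range' (by omega : P.natDegree < N + 1), Finset.sum_range_succ']
  have h0 : P.coeff 0 * x ^ 0 = g 0 := by rw [hc, bc_zero]; simp
  rw [h0]
  have h1 : 0 ≤ ∑ k ∈ Finset.range N, P.coeff (k + 1) * x ^ (k + 1) := by
    apply Finset.sum_nonneg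
    intro k _
    rw [hc, bc_sign]
    have e : g (k + 1) * ((-1) ^ (k + 1) * ((1 / (N : ℝ)) ^ (k + 1) *
        ((Nat.choose N (k + 1) : ℝ) / (Nat.factorial (k + 1) : ℝ)))) * x ^ (k + 1) =
        g (k + 1) * ((1 / (N : ℝ)) ^ (k + 1) *
        ((Nat.choose N (k + 1) : ℝ) / (Nat.factorial (k + 1) : ℝ))) * (-x) ^ (k + 1) := by
      rw [neg_pow x]; ring
    rw [e]
    have h2 : 0 ≤ -x := by linarith
    have := hg (k + 1)
    positivity
  linarith

/-- the modified polynomial -/
noncomputable def HG (N : ℕ) (g : ℕ → ℝ) : ℝ[X] :=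
  ∑ k ∈ Finset.range (N + 1), monomial k (g k * bc N k)

lemma HG_coeff (N : ℕ) (g : ℕ → ℝ) (k : ℕ) : (HG N g).coeff k = g k * bc N k := by
  unfold HG
  rw [finsetSum_coeff]
  simp only [coeff_monomial]
  rw [Finset.sum_ite_eq']
  split_ifs with h
  · rfl
  · rw [bc_gt (by simpa using h), mul_zero]

lemma HG_natDegree (N : ℕ) (g : ℕ → ℝ) : (HG N g).natDegree ≤ N := by
  rw [natDegree_le_iff_coeff_eq_zero]
  intro k hk
  rw [HG_coeff, bc_gt hk, mul_zero]

/-- real-rootedness from the sign condition -/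
theorem HG_splits {N : ℕ} (hN : 0 < N) (g : ℕ → ℝ)
    (hsign : ∀ l : ℝ, zz N 0 l = 0 → 0 < (HG N g).eval (Real.exp l) * zz N 1 l) :
    (HG N g).Splits := by
  have hY0 : YL N ≠ 0 := by
    intro h
    have := YL_natDegree hN
    rw [h, natDegree_zero] at this
    omega
  apply criterion2 (YL N) _ (YL_splits hN) hY0
  · intro ξ hξ
    have hpos : 0 < ξ := by
      by_contra h
      push Not at h
      have := pos_of_nonpos (YL N) (fun _ => 1) N (YL_natDegree hN).le (fun _ => zero_le_one) one_pos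
        (fun k => by rw [YL_coeff, one_mul]) h
      linarith
    have hexp : Real.exp (Real.log ξ) = ξ := Real.exp_log hpos
    have hy0 : zz N 0 (Real.log ξ) = 0 := by
      rw [← YL_eval hN, hexp, hξ]
    have hs := hsign _ hy0
    rw [← YL_deriv_eval hN, hexp] at hs
    have e : (HG N g).eval ξ * (ξ * (derivative (YL N)).eval ξ) =
        ξ * ((HG N g).eval ξ * (derivative (YL N)).eval ξ) := by ring
    rw [e] at hs
    exact (mul_pos_iff_of_pos_left hpos).mp hs
  · rw [YL_natDegree hN]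
    exact HG_natDegree N g

/-- the multiplier property -/
theorem multiplier (g : ℕ → ℝ) (hg : ∀ k, 0 < g k) (hH : ∀ N : ℕ, 0 < N → (HG N g).Splits)
    (p : ℝ[X]) (hp : p.Splits) :
    (∑ k ∈ Finset.range (p.natDegree + 1), C (g k / (Nat.factorial k : ℝ) * p.coeff k) * X ^ k : ℝ[X]).Splits := by
  set N := p.natDegree + 1 with hNdef
  have hN : 0 < N := by omega
  have hHn := hH N hN
  have hpos : ∀ x : ℝ, x ≤ 0 → 0 < (HG N g).eval x := fun x hx =>
    pos_of_nonpos (HG N g) g N (HG_natDegree N g) (fun k => (hg k).le) (hg 0) (fun k => HG_coeff N g k) hx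
  have h1 := comp_splits' N p (HG N g) hp (by omega) hHn (by
    intro ρ hρ
    by_contra h
    push Not at h
    have h2 := hpos ρ h.le
    have h3 : (HG N g).eval ρ = 0 := (mem_roots'.mp hρ).2
    linarith) (HG_natDegree N g)
  have hN0 : (N : ℝ) ≠ 0 := by positivity
  have h2 := scale_splits _ h1 (N : ℝ) hN0
  have e : (∑ k ∈ Finset.range (p.natDegree + 1), C (g k / (Nat.factorial k : ℝ) * p.coeff k) * X ^ k : ℝ[X]) =
      (H635Z.comp N p (HG N g)).comp (C (N : ℝ) * X) := by
    ext k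
    rw [scale_coeff]
    unfold H635Z.comp
    simp only [finsetSum_coeff, coeff_C_mul, coeff_X_pow, mul_ite, mul_one, mul_zero]
    rw [Finset.sum_ite_eq, Finset.sum_ite_eq]
    by_cases hk : k ≤ p.natDegree
    · rw [if_pos (by simp; omega), if_pos (by simp; omega), HG_coeff, bc_sign]
      have hc : (Nat.choose N k : ℝ) ≠ 0 := by
        exact_mod_cast (Nat.choose_pos (by omega)).ne'
      have hm : ((-1 : ℝ) ^ k) * (-1) ^ k = 1 := by rw [← mul_pow]; simp
      have e1 : (N : ℝ) ^ k * (p.coeff k * (g k * ((-1) ^ k * ((1 / (N : ℝ)) ^ k *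
          ((Nat.choose N k : ℝ) / (Nat.factorial k : ℝ))))) * (-1) ^ k / (Nat.choose N k : ℝ)) =
          (((-1 : ℝ) ^ k) * (-1) ^ k) * ((N : ℝ) ^ k * (1 / (N : ℝ)) ^ k) * (p.coeff k * g k / (Nat.factorial k : ℝ)) := by
        field_simp
      rw [e1, hm, ← mul_pow]
      have e2 : (N : ℝ) * (1 / (N : ℝ)) = 1 := by field_simp
      rw [e2, one_pow]
      ring
    · rw [if_neg (by simp; omega)]
      rw [coeff_eq_zero_of_natDegree_lt (by omega : p.natDegree < k)]
      simp
  rw [e]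
  exact h2

/-- the logarithmic sequence -/
theorem log_splits {N : ℕ} (hN : 0 < N) : (HG N (fun k => Real.log ((k : ℝ) + 2))).Splits := by
  apply HG_splits hN
  intro l hl
  have h1 := ha_sign hN hl
  have h2 : (HG N (fun k => Real.log ((k : ℝ) + 2))).eval (Real.exp l) = ha N l 0 := by
    rw [eval_exp' _ N (HG_natDegree N _)]
    unfold ha
    apply Finset.sum_congr rfl
    intro k _
    rw [HG_coeff, add_zero]
    ring
  have h3 : WW N l = zz N 1 l := by rw [WW_eq hN, hl]; ring
  rw [h2, ← h3]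
  exact h1

end Pool.Agent.X207.KL
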