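import Mathlib
import Pool.Agent.X207.KS1
import Pool.Agent.X207.KS2

set_option autoImplicit false

/-! The concrete exponential polynomials. -/

open Finset

namespace Pool.Agent.X207.KS

/-- coefficients -/
noncomputable def bb (N k : ℕ) : ℝ :=
  (-(1 / (N : ℝ))) ^ k * ((Nat.choose N k : ℝ) / (Nat.factorial k : ℝ) / (Nat.factorial k : ℝ))

lemma bb_zero (N : ℕ) : bb N 0 = 1 := by simp [bb]

lemma bb_gt {N k : ℕ} (h : N < k) : bb N k = 0 := by
  simp [bb, Nat.choose_eq_zero_of_lt h]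

lemma bb_succ {N k : ℕ} (hN : 0 < N) (hk : k ≤ N) :
    bb N (k + 1) * ((k : ℝ) + 1) ^ 3 = -(bb N k * (1 - 1 / (N : ℝ) * k)) := by
  have h1 : (Nat.choose N (k + 1) : ℝ) * ((k : ℝ) + 1) = Nat.choose N k * ((N : ℝ) - k) := by
    have := Nat.choose_succ_right_eq N k
    have h2 : ((N.choose (k + 1) * (k + 1) : ℕ) : ℝ) = ((N.choose k * (N - k) : ℕ) : ℝ) := by
      rw [this]
    rw [Nat.cast_mul, Nat.cast_mul, Nat.cast_sub hk] at h2
    push_cast at h2
    exact h2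
  have hN' : (N : ℝ) ≠ 0 := by positivity
  have hk' : (Nat.factorial k : ℝ) ≠ 0 := by positivity
  have hk1 : ((k : ℝ) + 1) ≠ 0 := by positivity
  have h3 : (Nat.choose N (k + 1) : ℝ) = Nat.choose N k * ((N : ℝ) - k) / ((k : ℝ) + 1) := by
    field_simp
    exact h1
  unfold bb
  rw [h3, Nat.factorial_succ, pow_succ]
  push_cast
  field_simp

lemma bb_abs {N k : ℕ} (hN : 0 < N) : |bb N (k + 1)| * ((k : ℝ) + 1) ^ 3 ≤ |bb N k| := by
  rcases le_or_gt k N with h | h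
  · have h1 := bb_succ hN h
    have h2 : |bb N (k + 1)| * ((k : ℝ) + 1) ^ 3 = |bb N (k + 1) * ((k : ℝ) + 1) ^ 3| := by
      rw [abs_mul, abs_of_pos (show (0 : ℝ) < ((k : ℝ) + 1) ^ 3 by positivity)]
    rw [h2, h1, abs_neg, abs_mul]
    have hN' : (0 : ℝ) < N := by exact_mod_cast hN
    have h3 : (k : ℝ) ≤ N := by exact_mod_cast h
    have h4 : 1 / (N : ℝ) * k ≤ 1 := by
      rw [div_mul_eq_mul_div, one_mul]
      exact (div_le_one hN').mpr h3
    have h5 : 0 ≤ 1 / (N : ℝ) * k := by positivity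
    have h6 : |1 - 1 / (N : ℝ) * k| ≤ 1 := by
      rw [abs_le]; constructor <;> linarith
    calc |bb N k| * |1 - 1 / (N : ℝ) * k| ≤ |bb N k| * 1 := by gcongr
      _ = _ := mul_one _
  · rw [bb_gt (by omega : N < k + 1)]
    simp

lemma bb_one {N : ℕ} (hN : 0 < N) : bb N 1 = -1 := by
  have := bb_succ (k := 0) hN (Nat.zero_le _)
  rw [bb_zero] at this
  simpa using this

lemma bb_two {N : ℕ} (hN : 1 ≤ N) : bb N 2 = (1 - 1 / (N : ℝ)) / 8 := by
  have := bb_succ (k := 1) (by omega) hN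
  rw [bb_one (by omega)] at this
  norm_num at this
  have h8 : bb N 2 = (1 - 1 / (N : ℝ)) / 8 := by
    rw [one_div]
    linarith
  exact h8

lemma bb_three {N : ℕ} (hN : 2 ≤ N) : bb N 3 = -((1 - 1 / (N : ℝ)) * (1 - 2 * (1 / (N : ℝ))) / 216) := by
  have := bb_succ (k := 2) (by omega) hN
  rw [bb_two (by omega)] at this
  norm_num at this
  rw [one_div]
  linarith

lemma bb_four_abs {N : ℕ} (hN : 2 ≤ N) : |bb N 4| ≤ 1 / 13824 := by
  have h1 := bb_abs (N := N) (k := 3) (by omega)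
  have h2 : |bb N 3| ≤ 1 / 216 := by
    rw [bb_three hN, abs_neg]
    have h3 : (2 : ℝ) ≤ N := by exact_mod_cast hN
    have h4 : 1 / (N : ℝ) ≤ 1 / 2 := one_div_le_one_div_of_le (by norm_num) h3
    have h5 : 0 < 1 / (N : ℝ) := by positivity
    rw [abs_of_nonneg]
    · have : (1 - 1 / (N : ℝ)) * (1 - 2 * (1 / (N : ℝ))) ≤ 1 := by nlinarith
      linarith
    · apply div_nonneg _ (by norm_num)
      apply mul_nonneg <;> linarith
  norm_num at h1
  linarith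

lemma tail_term {N : ℕ} (hN : 2 ≤ N) {x : ℝ} (hx : 0 ≤ x) (hx4 : x ≤ 4) : ∀ i : ℕ,
    ((4 : ℝ) + i) * |bb N (4 + i)| * x ^ i ≤ 1 / 3000 * (1 / 4) ^ i := by
  intro i
  induction i with
  | zero =>
    have := bb_four_abs hN
    simp
    linarith
  | succ i ih =>
    have h1 := bb_abs (N := N) (k := 4 + i) (by omega)
    push_cast at h1 ⊢
    have hb : |bb N (4 + (i + 1))| ≤ |bb N (4 + i)| / ((4 : ℝ) + i + 1) ^ 3 := by
      rw [le_div_iff₀ (by positivity)]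
      exact h1
    have hi : (0 : ℝ) ≤ i := Nat.cast_nonneg i
    have hstep : ((4 : ℝ) + (i + 1)) * |bb N (4 + (i + 1))| * x ^ (i + 1) ≤
        (((4 : ℝ) + i) * |bb N (4 + i)| * x ^ i) * (1 / 4) := by
      have h3 : ((4 : ℝ) + (i + 1)) * |bb N (4 + (i + 1))| * x ^ (i + 1) ≤
          ((4 : ℝ) + (i + 1)) * (|bb N (4 + i)| / ((4 : ℝ) + i + 1) ^ 3) * (x ^ i * 4) := by
        rw [pow_succ]
        gcongr
      apply h3.trans
      have h4 : ((4 : ℝ) + (i + 1)) * (|bb N (4 + i)| / ((4 : ℝ) + i + 1) ^ 3) * (x ^ i * 4) =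
          (|bb N (4 + i)| * x ^ i) * (4 / ((4 : ℝ) + i + 1) ^ 2) := by
        field_simp
        ring
      rw [h4]
      have h5 : 4 / ((4 : ℝ) + i + 1) ^ 2 ≤ ((4 : ℝ) + i) * (1 / 4) := by
        rw [div_le_iff₀ (by positivity)]
        nlinarith [mul_nonneg hi hi, mul_nonneg (mul_nonneg hi hi) hi]
      calc (|bb N (4 + i)| * x ^ i) * (4 / ((4 : ℝ) + i + 1) ^ 2) ≤
          (|bb N (4 + i)| * x ^ i) * (((4 : ℝ) + i) * (1 / 4)) := by gcongr
        _ = _ := by ring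
    calc _ ≤ _ := hstep
      _ ≤ (1 / 3000 * (1 / 4) ^ i) * (1 / 4) := by gcongr
      _ = _ := by ring

lemma tail_sum {N : ℕ} (hN : 2 ≤ N) {x : ℝ} (hx : 0 ≤ x) (hx4 : x ≤ 4) (M : ℕ) :
    ∑ i ∈ range M, ((4 : ℝ) + i) * |bb N (4 + i)| * x ^ (4 + i) ≤ x ^ 4 / 2250 := by
  have h1 : ∀ i ∈ range M, ((4 : ℝ) + i) * |bb N (4 + i)| * x ^ (4 + i) ≤
      x ^ 4 * (1 / 3000) * (1 / 4) ^ i := by
    intro i _
    have := tail_term hN hx hx4 i
    calc ((4 : ℝ) + i) * |bb N (4 + i)| * x ^ (4 + i) =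
        x ^ 4 * (((4 : ℝ) + i) * |bb N (4 + i)| * x ^ i) := by ring
      _ ≤ x ^ 4 * (1 / 3000 * (1 / 4) ^ i) := by gcongr
      _ = _ := by ring
  have h2 := Finset.sum_le_sum h1
  rw [← Finset.mul_sum] at h2
  have h3 : ∑ i ∈ range M, (1 / 4 : ℝ) ^ i ≤ 4 / 3 := by
    have := geom_sum_eq (show (1 / 4 : ℝ) ≠ 1 by norm_num) M
    rw [this]
    have h4 : 0 < (1 / 4 : ℝ) ^ M := by positivity
    rw [div_le_iff_of_neg (by norm_num)]
    linarith
  calc _ ≤ _ := h2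
    _ ≤ x ^ 4 * (1 / 3000) * (4 / 3) := by gcongr
    _ = _ := by ring

/-- exponential polynomials -/
noncomputable def yy (N j : ℕ) (u : ℝ) : ℝ :=
  ∑ k ∈ range (N + 1), (k : ℝ) ^ j * bb N k * Real.exp (k * u)

lemma yy_deriv (N j : ℕ) (u : ℝ) : HasDerivAt (yy N j) (yy N (j + 1) u) u := by
  unfold yy
  apply HasDerivAt.fun_sum
  intro k _
  have h1 : HasDerivAt (fun u : ℝ => (k : ℝ) * u) (k : ℝ) u := by
    simpa using (hasDerivAt_id u).const_mul (k : ℝ)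
  have h2 := (h1.exp).const_mul ((k : ℝ) ^ j * bb N k)
  refine HasDerivAt.congr_deriv h2 ?_
  ring

lemma yy_ode {N : ℕ} (hN : 0 < N) (u : ℝ) :
    yy N 3 u = -Real.exp u * yy N 0 u + 1 / (N : ℝ) * Real.exp u * yy N 1 u := by
  unfold yy
  rw [Finset.sum_range_succ']
  rw [Finset.mul_sum, Finset.mul_sum, ← Finset.sum_add_distrib, Finset.sum_range_succ]
  have hN' : (N : ℝ) ≠ 0 := by positivity
  have h1 : ∀ k ∈ range N, ((k + 1 : ℕ) : ℝ) ^ 3 * bb N (k + 1) * Real.exp (((k + 1 : ℕ) : ℝ) * u) =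
      -Real.exp u * ((k : ℝ) ^ 0 * bb N k * Real.exp (k * u)) +
        1 / (N : ℝ) * Real.exp u * ((k : ℝ) ^ 1 * bb N k * Real.exp (k * u)) := by
    intro k hk
    have hk' : k ≤ N := (mem_range.mp hk).le
    have h2 := bb_succ hN hk'
    have h3 : Real.exp (((k + 1 : ℕ) : ℝ) * u) = Real.exp (k * u) * Real.exp u := by
      rw [← Real.exp_add]; congr 1; push_cast; ring
    rw [h3]
    push_cast
    linear_combination (Real.exp (k * u) * Real.exp u) * h2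
  rw [Finset.sum_congr rfl h1]
  have h4 : -Real.exp u * ((N : ℝ) ^ 0 * bb N N * Real.exp (N * u)) +
        1 / (N : ℝ) * Real.exp u * ((N : ℝ) ^ 1 * bb N N * Real.exp (N * u)) = 0 := by
    field_simp
    ring
  rw [h4]
  simp

lemma yy_split {N : ℕ} (hN : 3 ≤ N) (j : ℕ) (u : ℝ) :
    yy N j u = (0 : ℝ) ^ j + (-1) * Real.exp u + 2 ^ j * bb N 2 * Real.exp u ^ 2
      + 3 ^ j * bb N 3 * Real.exp u ^ 3
      + ∑ i ∈ range (N - 3), ((4 : ℝ) + i) ^ j * bb N (4 + i) * Real.exp u ^ (4 + i) := by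
  unfold yy
  have e : N + 1 = 4 + (N - 3) := by omega
  rw [e, Finset.sum_range_add]
  have h1 : ∀ k : ℕ, Real.exp ((k : ℝ) * u) = Real.exp u ^ k := fun k => Real.exp_nat_mul u k
  simp only [h1]
  rw [Finset.sum_range_succ, Finset.sum_range_succ, Finset.sum_range_succ, Finset.sum_range_succ,
    Finset.sum_range_zero, bb_zero, bb_one (by omega)]
  push_cast
  ring

lemma tail_abs {N : ℕ} (hN : 2 ≤ N) {x : ℝ} (hx : 0 ≤ x) (hx4 : x ≤ 4) (M j : ℕ) (hj : j ≤ 1) :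
    |∑ i ∈ range M, ((4 : ℝ) + i) ^ j * bb N (4 + i) * x ^ (4 + i)| ≤ x ^ 4 / 2250 := by
  refine le_trans (Finset.abs_sum_le_sum_abs _ _) (le_trans (Finset.sum_le_sum ?_) (tail_sum hN hx hx4 M))
  intro i _
  rw [abs_mul, abs_mul, abs_of_nonneg (show 0 ≤ x ^ (4 + i) by positivity),
    abs_of_nonneg (show 0 ≤ ((4 : ℝ) + i) ^ j by positivity)]
  have h1 : ((4 : ℝ) + i) ^ j ≤ (4 : ℝ) + i := by
    have hi : (0 : ℝ) ≤ i := Nat.cast_nonneg i
    interval_cases j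
    · simp; linarith
    · simp
  gcongr

section facts

variable {N : ℕ} (hN : 120 ≤ N)

include hN

lemma eps_pos : 0 < 1 / (N : ℝ) := by
  have : 0 < N := by omega
  positivity

lemma eps_le : 1 / (N : ℝ) ≤ 1 / 120 := by
  apply one_div_le_one_div_of_le (by norm_num)
  exact_mod_cast hN

lemma b3_le : bb N 3 ≤ -(0.975 / 216) := by
  rw [bb_three (by omega)]
  have h1 := eps_pos hN
  have h2 := eps_le hN
  have h3 : (0.975 : ℝ) ≤ (1 - 1 / (N : ℝ)) * (1 - 2 * (1 / (N : ℝ))) := by nlinarith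
  linarith

lemma b2_le : bb N 2 ≤ 1 / 8 := by
  rw [bb_two (by omega)]
  have h1 := eps_pos hN
  linarith

lemma yy_one_neg {u : ℝ} (hu : u ≤ Real.log 4) : yy N 1 u < 0 := by
  rw [yy_split (by omega)]
  set x := Real.exp u with hx
  have hx0 : 0 < x := Real.exp_pos u
  have hx4 : x ≤ 4 := by
    rw [hx, ← Real.exp_log (show (0 : ℝ) < 4 by norm_num)]
    exact Real.exp_le_exp.mpr hu
  have ht := (abs_le.mp (tail_abs (N := N) (by omega) hx0.le hx4 (N - 3) 1 (le_refl _))).2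
  have h3 := b3_le hN
  have h2 := b2_le hN
  have h5 : 2 ^ 1 * bb N 2 * x ^ 2 ≤ 1 / 4 * x ^ 2 := by nlinarith [sq_nonneg x]
  have h6 : 3 ^ 1 * bb N 3 * x ^ 3 ≤ -(0.975 / 72) * x ^ 3 := by
    have : 0 < x ^ 3 := by positivity
    nlinarith
  have h7 : (-1) * x + 1 / 4 * x ^ 2 - 0.975 / 72 * x ^ 3 + x ^ 4 / 2250 < 0 := by
    have e : (-1) * x + 1 / 4 * x ^ 2 - 0.975 / 72 * x ^ 3 + x ^ 4 / 2250 =
        x * ((x - 4) / 4 + x ^ 2 * (x / 2250 - 0.975 / 72)) := by ring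
    rw [e]
    have h8 : x / 2250 - 0.975 / 72 < 0 := by
      have : x / 2250 ≤ 4 / 2250 := by gcongr
      norm_num at this ⊢
      linarith
    have h9 : x ^ 2 * (x / 2250 - 0.975 / 72) < 0 := mul_neg_of_pos_of_neg (by positivity) h8
    apply mul_neg_of_pos_of_neg hx0
    linarith
  norm_num at ht h5 h6 ⊢
  linarith

lemma yy_zero_le_one {u : ℝ} (hu : u ≤ Real.log 4) : yy N 0 u ≤ 1 := by
  rw [yy_split (by omega)]
  set x := Real.exp u with hx
  have hx0 : 0 < x := Real.exp_pos u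
  have hx4 : x ≤ 4 := by
    rw [hx, ← Real.exp_log (show (0 : ℝ) < 4 by norm_num)]
    exact Real.exp_le_exp.mpr hu
  have ht := (abs_le.mp (tail_abs (N := N) (by omega) hx0.le hx4 (N - 3) 0 (by norm_num))).2
  have h3 := b3_le hN
  have h2 := b2_le hN
  have h5 : bb N 2 * x ^ 2 ≤ 1 / 8 * x ^ 2 := by nlinarith [sq_nonneg x]
  have h6 : bb N 3 * x ^ 3 ≤ 0 := by
    have : 0 < x ^ 3 := by positivity
    nlinarith
  have h7 : (-1) * x + 1 / 8 * x ^ 2 + x ^ 4 / 2250 ≤ 0 := by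
    have e : (-1) * x + 1 / 8 * x ^ 2 + x ^ 4 / 2250 =
        x * (-1 + x / 8 + x ^ 3 / 2250) := by ring
    rw [e]
    have h8 : x ^ 3 ≤ 64 := by
      calc x ^ 3 ≤ 4 ^ 3 := by gcongr
        _ = 64 := by norm_num
    apply mul_nonpos_of_nonneg_of_nonpos hx0.le
    linarith
  simp only [pow_zero, one_mul] at ht ⊢
  linarith

lemma yy_zero_val : yy N 0 (Real.log 4) < -1 := by
  rw [yy_split (by omega), Real.exp_log (by norm_num)]
  have ht := (abs_le.mp (tail_abs (N := N) (x := 4) (by omega) (by norm_num) (le_refl _) (N - 3) 0 (by norm_num))).2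
  have h3 := b3_le hN
  have h2 := b2_le hN
  simp only [pow_zero, one_mul] at ht ⊢
  norm_num at ht h3 ⊢
  linarith

/-- the record property of critical points -/
theorem yy_record {ξ : ℝ} (hξ : yy N 1 ξ = 0) :
    1 < |yy N 0 ξ| ∧ ∀ u ≤ ξ, |yy N 0 u| ≤ |yy N 0 ξ| := by
  refine record (yy_deriv N 0) (yy_deriv N 1) (yy_deriv N 2) (yy_ode (by omega)) (eps_pos hN)
    (eps_le hN) (L := Real.log 4) ?_ (fun u hu => yy_one_neg hN hu) (yy_zero_val hN)
    (fun u hu => yy_zero_le_one hN hu) hξ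
  rw [Real.exp_log (by norm_num)]
  norm_num

end facts

end Pool.Agent.X207.KS
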