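import Mathlib
import Pool.Agent.X207.KS3

set_option autoImplicit false

/-! The fractional power of the Euler operator at critical points. -/

open MeasureTheory Set Filter Topology

namespace Pool.Agent.X207.KS

/-- the kernel -/
noncomputable def ker (σ a t : ℝ) : ℝ := (1 - Real.exp (-(a * t))) * t ^ (-1 - σ)

lemma ker_nonneg {σ a t : ℝ} (ha : 0 ≤ a) (ht : 0 < t) : 0 ≤ ker σ a t := by
  unfold ker
  apply mul_nonneg _ (Real.rpow_nonneg ht.le _)
  have : Real.exp (-(a * t)) ≤ 1 := Real.exp_le_one_iff.mpr (by nlinarith)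
  linarith

lemma ker_integrable {σ a : ℝ} (h0 : 0 < σ) (h1 : σ < 1) (ha : 0 ≤ a) :
    IntegrableOn (ker σ a) (Ioi 0) := by
  have hcont : ContinuousOn (ker σ a) (Ioi 0) := by
    unfold ker
    apply ContinuousOn.mul
    · fun_prop
    · apply ContinuousOn.rpow_const continuousOn_id
      intro x hx
      left
      exact (ne_of_gt hx)
  have hu : (Ioi (0 : ℝ)) = Ioc 0 1 ∪ Ioi 1 := (Ioc_union_Ioi_eq_Ioi (by norm_num)).symm
  rw [hu]
  apply IntegrableOn.union
  · have hb : IntegrableOn (fun t : ℝ => a * t ^ (-σ)) (Ioc 0 1) := by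
      apply Integrable.const_mul
      have := intervalIntegral.intervalIntegrable_rpow' (a := 0) (b := 1) (r := -σ) (by linarith)
      rwa [intervalIntegrable_iff_integrableOn_Ioc_of_le (by norm_num)] at this
    refine Integrable.mono' hb ?_ ?_
    · exact (hcont.mono (fun x hx => hx.1)).aestronglyMeasurable measurableSet_Ioc
    · filter_upwards [ae_restrict_mem measurableSet_Ioc] with t ht
      rw [Real.norm_eq_abs, abs_of_nonneg (ker_nonneg ha ht.1)]
      unfold ker
      have h3 : 1 - Real.exp (-(a * t)) ≤ a * t := by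
        have := Real.add_one_le_exp (-(a * t))
        linarith
      have h4 : t ^ (-σ) = t * t ^ (-1 - σ) := by
        have : t ^ (-σ) = t ^ (1 + (-1 - σ)) := by congr 1; ring
        rw [this, Real.rpow_add ht.1, Real.rpow_one]
      rw [h4, ← mul_assoc]
      exact mul_le_mul_of_nonneg_right h3 (Real.rpow_nonneg ht.1.le _)
  · have hb : IntegrableOn (fun t : ℝ => t ^ (-1 - σ)) (Ioi 1) :=
      integrableOn_Ioi_rpow_of_lt (by linarith) (by norm_num)
    refine Integrable.mono' hb ?_ ?_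
    · have hsub : Ioi (1 : ℝ) ⊆ Ioi 0 := fun x hx => by
        rw [mem_Ioi] at *
        linarith
      exact (hcont.mono hsub).aestronglyMeasurable measurableSet_Ioi
    · filter_upwards [ae_restrict_mem measurableSet_Ioi] with t ht
      have ht0 : 0 < t := lt_trans one_pos ht
      rw [Real.norm_eq_abs, abs_of_nonneg (ker_nonneg ha ht0)]
      unfold ker
      have h3 : 1 - Real.exp (-(a * t)) ≤ 1 := by
        have := Real.exp_pos (-(a * t))
        linarith
      calc (1 - Real.exp (-(a * t))) * t ^ (-1 - σ) ≤ 1 * t ^ (-1 - σ) :=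
            mul_le_mul_of_nonneg_right h3 (Real.rpow_nonneg ht0.le _)
        _ = _ := one_mul _

/-- the constant -/
noncomputable def KK (σ : ℝ) : ℝ := ∫ t in Ioi (0 : ℝ), ker σ 1 t

lemma KK_pos {σ : ℝ} (h0 : 0 < σ) (h1 : σ < 1) : 0 < KK σ := by
  unfold KK
  rw [setIntegral_pos_iff_support_of_nonneg_ae]
  · have : Function.support (ker σ 1) ∩ Ioi 0 = Ioi 0 := by
      apply inter_eq_self_of_subset_right
      intro t ht
      rw [Function.mem_support]
      unfold ker
      have h3 : Real.exp (-(1 * t)) < 1 := by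
        rw [Real.exp_lt_one_iff]
        rw [mem_Ioi] at ht
        linarith
      have h4 : 0 < t ^ (-1 - σ) := Real.rpow_pos_of_pos ht _
      exact (mul_pos (by linarith) h4).ne'
    rw [this]
    simp
  · filter_upwards [ae_restrict_mem measurableSet_Ioi] with t ht
    exact ker_nonneg (by norm_num) ht
  · exact ker_integrable h0 h1 (by norm_num)

lemma ker_integral {σ a : ℝ} (h0 : 0 < σ) (ha : 0 ≤ a) :
    ∫ t in Ioi (0 : ℝ), ker σ a t = a ^ σ * KK σ := by
  rcases eq_or_lt_of_le ha with h | h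
  · rw [← h, Real.zero_rpow h0.ne', zero_mul]
    unfold ker
    simp
  · have h2 := integral_comp_mul_left_Ioi (ker σ 1) 0 h
    rw [mul_zero] at h2
    have h3 : ∀ t ∈ Ioi (0 : ℝ), ker σ 1 (a * t) = a ^ (-1 - σ) * ker σ a t := by
      intro t ht
      unfold ker
      rw [one_mul, Real.mul_rpow h.le (le_of_lt ht)]
      ring
    rw [setIntegral_congr_fun measurableSet_Ioi h3, integral_const_mul] at h2
    have h4 : a ^ (-1 - σ) * a ^ (1 + σ) = 1 := by
      rw [← Real.rpow_add h]; ring_nf; exact Real.rpow_zero a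
    have h5 : a ^ (1 + σ) * a⁻¹ = a ^ σ := by
      rw [Real.rpow_add h, Real.rpow_one]; field_simp
    have h6 : ∫ t in Ioi (0 : ℝ), ker σ a t =
        a ^ (1 + σ) * (a ^ (-1 - σ) * ∫ t in Ioi (0 : ℝ), ker σ a t) := by
      rw [← mul_assoc, mul_comm (a ^ (1 + σ)), h4, one_mul]
    rw [h6, h2, smul_eq_mul, ← mul_assoc, h5]
    rfl

/-- the fractional operator applied -/
noncomputable def hh (N : ℕ) (σ u : ℝ) : ℝ :=
  ∑ k ∈ Finset.range (N + 1), (k : ℝ) ^ σ * bb N k * Real.exp (k * u)

lemma hh_integral (N : ℕ) {σ : ℝ} (h0 : 0 < σ) (h1 : σ < 1) (ξ : ℝ) :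
    IntegrableOn (fun t => (yy N 0 ξ - yy N 0 (ξ - t)) * t ^ (-1 - σ)) (Ioi 0) ∧
    ∫ t in Ioi (0 : ℝ), (yy N 0 ξ - yy N 0 (ξ - t)) * t ^ (-1 - σ) = KK σ * hh N σ ξ := by
  have e : (fun t => (yy N 0 ξ - yy N 0 (ξ - t)) * t ^ (-1 - σ)) =
      fun t => ∑ k ∈ Finset.range (N + 1), (bb N k * Real.exp (k * ξ)) * ker σ k t := by
    funext t
    unfold yy ker
    rw [← Finset.sum_sub_distrib, Finset.sum_mul]
    apply Finset.sum_congr rfl
    intro k _
    have : Real.exp ((k : ℝ) * (ξ - t)) = Real.exp (k * ξ) * Real.exp (-(k * t)) := by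
      rw [← Real.exp_add]; congr 1; ring
    rw [this]
    ring
  have hint : ∀ k ∈ Finset.range (N + 1),
      Integrable (fun t => (bb N k * Real.exp (k * ξ)) * ker σ k t) (volume.restrict (Ioi 0)) :=
    fun k _ => (ker_integrable h0 h1 (Nat.cast_nonneg k)).const_mul _
  rw [e]
  constructor
  · exact integrable_finsetSum _ hint
  · rw [integral_finsetSum _ hint]
    unfold hh
    rw [Finset.mul_sum]
    apply Finset.sum_congr rfl
    intro k _
    rw [integral_const_mul, ker_integral h0 (Nat.cast_nonneg k)]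
    ring

lemma yy_tendsto (N : ℕ) : Tendsto (yy N 0) atBot (𝓝 1) := by
  have h1 : Tendsto (fun u : ℝ => ∑ k ∈ Finset.range (N + 1),
      (k : ℝ) ^ 0 * bb N k * Real.exp (k * u)) atBot
      (𝓝 (∑ k ∈ Finset.range (N + 1), (k : ℝ) ^ 0 * bb N k * (if k = 0 then 1 else 0))) := by
    apply tendsto_finsetSum
    intro k _
    apply Tendsto.const_mul
    split_ifs with h
    · rw [h]; simp
    · apply Real.tendsto_exp_atBot.comp
      apply Tendsto.const_mul_atBot _ tendsto_id
      have : 0 < k := Nat.pos_of_ne_zero h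
      exact_mod_cast this
  have h2 : ∑ k ∈ Finset.range (N + 1), (k : ℝ) ^ 0 * bb N k * (if k = 0 then 1 else 0) = 1 := by
    rw [Finset.sum_eq_single 0]
    · simp [bb_zero]
    · intro b _ hb; simp [hb]
    · intro h; simp at h
  rw [h2] at h1
  exact h1

theorem hh_sign {N : ℕ} (hN : 120 ≤ N) {σ : ℝ} (h0 : 0 < σ) (h1 : σ < 1) {ξ : ℝ}
    (hξ : yy N 1 ξ = 0) : 0 < hh N σ ξ * yy N 0 ξ := by
  obtain ⟨hr1, hr2⟩ := yy_record hN hξ
  obtain ⟨hi, hI⟩ := hh_integral N h0 h1 ξ
  have hev : ∃ T : ℝ, 0 < T ∧ ∀ t, T < t → |yy N 0 (ξ - t)| < |yy N 0 ξ| := by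
    have h2 := (yy_tendsto N).abs
    rw [abs_one] at h2
    have h3 := h2.eventually (gt_mem_nhds hr1)
    rw [eventually_atBot] at h3
    obtain ⟨a, ha⟩ := h3
    refine ⟨max 1 (ξ - a), lt_of_lt_of_le one_pos (le_max_left _ _), ?_⟩
    intro t ht
    apply ha
    have := lt_of_le_of_lt (le_max_right 1 (ξ - a)) ht
    linarith
  obtain ⟨T, hT, hT2⟩ := hev
  have gen : ∀ s : ℝ, (s = 1 ∨ s = -1) → 0 < s * yy N 0 ξ → 0 < s * hh N σ ξ := by
    intro s hs hs2
    have habs : |yy N 0 ξ| = s * yy N 0 ξ := by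
      rw [← abs_of_pos hs2, abs_mul]
      rcases hs with rfl | rfl <;> simp
    have hle : ∀ t, s * yy N 0 (ξ - t) ≤ |yy N 0 (ξ - t)| := by
      intro t
      rcases hs with rfl | rfl
      · rw [one_mul]; exact le_abs_self _
      · rw [neg_one_mul]; exact neg_le_abs _
    have hpos : 0 < ∫ t in Ioi (0 : ℝ), s * ((yy N 0 ξ - yy N 0 (ξ - t)) * t ^ (-1 - σ)) := by
      rw [setIntegral_pos_iff_support_of_nonneg_ae]
      · refine lt_of_lt_of_le ?_ (measure_mono (show Ioi T ⊆ _ from ?_))
        · simp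
        · intro t ht
          rw [mem_Ioi] at ht
          refine ⟨?_, lt_trans hT ht⟩
          rw [Function.mem_support]
          have h4 := hT2 t ht
          have h5 := hle t
          have h6 : 0 < s * (yy N 0 ξ - yy N 0 (ξ - t)) := by
            rw [mul_sub, ← habs]; linarith
          have h7 : 0 < t ^ (-1 - σ) := Real.rpow_pos_of_pos (lt_trans hT ht) _
          rw [← mul_assoc]
          exact (mul_pos h6 h7).ne'
      · filter_upwards [ae_restrict_mem measurableSet_Ioi] with t ht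
        rw [mem_Ioi] at ht
        have h4 := hr2 (ξ - t) (by linarith)
        have h5 := hle t
        have h6 : 0 ≤ s * (yy N 0 ξ - yy N 0 (ξ - t)) := by
          rw [mul_sub, ← habs]; linarith
        have h7 : 0 < t ^ (-1 - σ) := Real.rpow_pos_of_pos ht _
        rw [Pi.zero_apply, ← mul_assoc]
        exact mul_nonneg h6 h7.le
      · exact hi.const_mul s
    rw [integral_const_mul, hI] at hpos
    have hK := KK_pos h0 h1
    have e : s * (KK σ * hh N σ ξ) = KK σ * (s * hh N σ ξ) := by ring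
    rw [e] at hpos
    exact (mul_pos_iff_of_pos_left hK).mp hpos
  have hne : yy N 0 ξ ≠ 0 := by
    intro h; rw [h, abs_zero] at hr1; linarith
  rcases lt_or_gt_of_ne hne with h | h
  · have := gen (-1) (Or.inr rfl) (by linarith)
    nlinarith
  · have := gen 1 (Or.inl rfl) (by linarith)
    nlinarith

end Pool.Agent.X207.KS
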