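import Mathlib
import Pool.Agent.X207.KS4
import Pool.Agent.X207.KS5

set_option autoImplicit false

/-! The approximating polynomials are real-rooted. -/

open Polynomial

namespace Pool.Agent.X207.KS

open Pool.Agent.H635Z

/-- the alternating polynomial -/
noncomputable def YP (N : ℕ) : ℝ[X] := (JP N).comp (C (-(1 / (N : ℝ))) * X)

lemma YP_coeff (N k : ℕ) : (YP N).coeff k = bb N k := by
  unfold YP bb
  rw [scale_coeff, JP_coeff]

lemma YP_splits {N : ℕ} (hN : 0 < N) : (YP N).Splits := by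
  apply scale_splits _ (JP_splits N)
  have : (0 : ℝ) < 1 / (N : ℝ) := by positivity
  linarith

lemma bb_self_ne {N : ℕ} (hN : 0 < N) : bb N N ≠ 0 := by
  unfold bb
  have h1 : (-(1 / (N : ℝ))) ≠ 0 := by
    have : (0 : ℝ) < 1 / (N : ℝ) := by positivity
    linarith
  have h2 : (Nat.factorial N : ℝ) ≠ 0 := by positivity
  rw [Nat.choose_self]
  push_cast
  have := pow_ne_zero N h1
  positivity

lemma YP_natDegree {N : ℕ} (hN : 0 < N) : (YP N).natDegree = N := by
  apply le_antisymm
  · rw [natDegree_le_iff_coeff_eq_zero]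
    intro k hk
    rw [YP_coeff, bb_gt hk]
  · apply le_natDegree_of_ne_zero
    rw [YP_coeff]
    exact bb_self_ne hN

lemma eval_exp (P : ℝ[X]) (N : ℕ) (h : P.natDegree ≤ N) (u : ℝ) :
    P.eval (Real.exp u) = ∑ k ∈ Finset.range (N + 1), P.coeff k * Real.exp (k * u) := by
  rw [eval_eq_sum_range' (by omega : P.natDegree < N + 1)]
  apply Finset.sum_congr rfl
  intro k _
  rw [Real.exp_nat_mul]

lemma YP_eval {N : ℕ} (hN : 0 < N) (u : ℝ) : (YP N).eval (Real.exp u) = yy N 0 u := by
  rw [eval_exp _ N (YP_natDegree hN).le]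
  unfold yy
  apply Finset.sum_congr rfl
  intro k _
  rw [YP_coeff, pow_zero, one_mul]

lemma YP_deriv_eval {N : ℕ} (hN : 0 < N) (u : ℝ) :
    Real.exp u * (derivative (YP N)).eval (Real.exp u) = yy N 1 u := by
  have h1 : Real.exp u * (derivative (YP N)).eval (Real.exp u) = (Th (YP N)).eval (Real.exp u) := by
    unfold Th
    rw [eval_mul, eval_X]
  have h2 : (Th (YP N)).natDegree ≤ N := by
    rw [natDegree_le_iff_coeff_eq_zero]
    intro k hk
    rw [Th_coeff, YP_coeff, bb_gt hk, mul_zero]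
  rw [h1, eval_exp _ N h2]
  unfold yy
  apply Finset.sum_congr rfl
  intro k _
  rw [Th_coeff, YP_coeff, pow_one]

/-- fractional polynomial -/
noncomputable def HP (N : ℕ) (σ : ℝ) : ℝ[X] :=
  ∑ k ∈ Finset.range (N + 1), monomial k ((k : ℝ) ^ σ * bb N k)

lemma HP_coeff (N : ℕ) (σ : ℝ) (k : ℕ) : (HP N σ).coeff k = (k : ℝ) ^ σ * bb N k := by
  unfold HP
  rw [finsetSum_coeff]
  simp only [coeff_monomial]
  rw [Finset.sum_ite_eq']
  split_ifs with h
  · rfl
  · rw [bb_gt (by simpa using h), mul_zero]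

lemma HP_natDegree (N : ℕ) (σ : ℝ) : (HP N σ).natDegree ≤ N := by
  rw [natDegree_le_iff_coeff_eq_zero]
  intro k hk
  rw [HP_coeff, bb_gt hk, mul_zero]

lemma HP_eval (N : ℕ) (σ u : ℝ) : (HP N σ).eval (Real.exp u) = hh N σ u := by
  rw [eval_exp _ N (HP_natDegree N σ)]
  unfold hh
  apply Finset.sum_congr rfl
  intro k _
  rw [HP_coeff]

lemma deriv_neg_of_nonpos {N : ℕ} (hN : 0 < N) {x : ℝ} (hx : x ≤ 0) :
    (derivative (YP N)).eval x < 0 := by
  have hd : (derivative (YP N)).natDegree < N := by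
    have := natDegree_derivative_lt (p := YP N) (by rw [YP_natDegree hN]; omega)
    rwa [YP_natDegree hN] at this
  rw [eval_eq_sum_range' hd]
  have hterm : ∀ k : ℕ, (derivative (YP N)).coeff k * x ^ k ≤ 0 := by
    intro k
    rw [coeff_derivative, YP_coeff]
    unfold bb
    have e : (-(1 / (N : ℝ))) ^ (k + 1) * ((Nat.choose N (k + 1) : ℝ) / (Nat.factorial (k + 1) : ℝ) /
        (Nat.factorial (k + 1) : ℝ)) * ((k : ℝ) + 1) * x ^ k =
        -((1 / (N : ℝ)) * ((1 / (N : ℝ)) * (-x)) ^ k * ((Nat.choose N (k + 1) : ℝ) /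
          (Nat.factorial (k + 1) : ℝ) / (Nat.factorial (k + 1) : ℝ)) * ((k : ℝ) + 1)) := by
      have : (-(1 / (N : ℝ))) ^ (k + 1) * x ^ k = -((1 / (N : ℝ)) * ((1 / (N : ℝ)) * (-x)) ^ k) := by
        have h1 : ((1 / (N : ℝ)) * (-x)) ^ k = (-(1 / (N : ℝ))) ^ k * x ^ k := by
          rw [← mul_pow]; congr 1; ring
        rw [h1]; ring
      linear_combination ((Nat.choose N (k + 1) : ℝ) /
          (Nat.factorial (k + 1) : ℝ) / (Nat.factorial (k + 1) : ℝ)) * ((k : ℝ) + 1) * this
    rw [e, neg_nonpos]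
    have h2 : 0 ≤ -x := by linarith
    positivity
  have h0 : (derivative (YP N)).coeff 0 * x ^ 0 = -1 := by
    rw [coeff_derivative, YP_coeff, bb_one hN]
    simp
  obtain ⟨M, rfl⟩ : ∃ M, N = M + 1 := ⟨N - 1, by omega⟩
  rw [Finset.sum_range_succ']
  rw [h0]
  have := Finset.sum_nonpos (s := Finset.range M)
    (f := fun k => (derivative (YP (M + 1))).coeff (k + 1) * x ^ (k + 1)) (fun k _ => hterm (k + 1))
  linarith

theorem HP_splits {N : ℕ} (hN : 120 ≤ N) {σ : ℝ} (h0 : 0 < σ) (h1 : σ < 1) : (HP N σ).Splits := by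
  have hN0 : 0 < N := by omega
  have hdeg : (YP N).natDegree = N := YP_natDegree hN0
  have hQc : (derivative (YP N)).coeff (N - 1) = bb N N * N := by
    rw [coeff_derivative, YP_coeff]
    have e : N - 1 + 1 = N := by omega
    rw [e]
    congr 1
    exact_mod_cast e
  have hQdeg : (derivative (YP N)).natDegree = N - 1 := by
    apply le_antisymm
    · have := natDegree_derivative_le (YP N)
      rwa [hdeg] at this
    · apply le_natDegree_of_ne_zero
      rw [hQc]
      apply mul_ne_zero (bb_self_ne hN0)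
      positivity
  have hQ0 : derivative (YP N) ≠ 0 := by
    intro h
    rw [h] at hQc
    rw [coeff_zero] at hQc
    have : bb N N * N ≠ 0 := mul_ne_zero (bb_self_ne hN0) (by positivity)
    exact this hQc.symm
  apply criterion (derivative (YP N)) (HP N σ) (splits_derivative _ (YP_splits hN0)) hQ0
  · intro ξ hξ
    have hpos : 0 < ξ := by
      by_contra h
      push Not at h
      have := deriv_neg_of_nonpos hN0 h
      linarith
    have hexp : Real.exp (Real.log ξ) = ξ := Real.exp_log hpos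
    have hy1 : yy N 1 (Real.log ξ) = 0 := by
      rw [← YP_deriv_eval hN0, hexp, hξ, mul_zero]
    have hs := hh_sign hN h0 h1 hy1
    have hr := (yy_record hN hy1).1
    rw [← HP_eval, ← YP_eval hN0, hexp] at hs
    rw [← YP_eval hN0, hexp] at hr
    have hne : (YP N).eval ξ ≠ 0 := by
      intro h; rw [h, abs_zero] at hr; linarith
    have hc := crit_sign (YP N) (YP_splits hN0) ξ hne (by rw [hdeg]; omega) hξ
    have hprod := mul_neg_of_pos_of_neg hs hc
    have hsq : 0 < (YP N).eval ξ ^ 2 := by positivity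
    by_contra hcon
    push Not at hcon
    nlinarith
  · rw [hQdeg]
    have := HP_natDegree N σ
    omega
  · have e : N - 1 + 1 = N := by omega
    rw [leadingCoeff, hQdeg, hQc, e, HP_coeff]
    have h3 : 0 < bb N N ^ 2 := by
      have := bb_self_ne hN0
      positivity
    have h4 : 0 < (N : ℝ) ^ σ := Real.rpow_pos_of_pos (by exact_mod_cast hN0) _
    have h5 : (0 : ℝ) < N := by exact_mod_cast hN0
    have e2 : (N : ℝ) ^ σ * bb N N * (bb N N * N) = bb N N ^ 2 * ((N : ℝ) ^ σ * N) := by ring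
    rw [e2]
    positivity

end Pool.Agent.X207.KS
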