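import Mathlib
import Pool.Agent.X207.KS6

set_option autoImplicit false

/-! Passage to the limit. -/

open Polynomial Filter Topology

namespace Pool.Agent.X207.KS

/-- nonnegative coefficients -/
noncomputable def cc (N k : ℕ) : ℝ := (-1) ^ k * bb N k

lemma cc_eq (N k : ℕ) : cc N k = (1 / (N : ℝ)) ^ k *
    ((Nat.choose N k : ℝ) / (Nat.factorial k : ℝ) / (Nat.factorial k : ℝ)) := by
  unfold cc bb
  rw [← mul_assoc, ← mul_pow]
  congr 2
  ring

lemma cc_nonneg (N k : ℕ) : 0 ≤ cc N k := by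
  rw [cc_eq]
  positivity

lemma bb_abs_le {N : ℕ} (hN : 0 < N) (k : ℕ) : |bb N k| ≤ 1 / (Nat.factorial k : ℝ) ^ 3 := by
  induction k with
  | zero => simp [bb_zero]
  | succ k ih =>
    have h1 := bb_abs (k := k) hN
    have h2 : |bb N (k + 1)| ≤ |bb N k| / ((k : ℝ) + 1) ^ 3 := by
      rw [le_div_iff₀ (by positivity)]; exact h1
    calc |bb N (k + 1)| ≤ |bb N k| / ((k : ℝ) + 1) ^ 3 := h2
      _ ≤ (1 / (Nat.factorial k : ℝ) ^ 3) / ((k : ℝ) + 1) ^ 3 := by gcongr
      _ = 1 / (Nat.factorial (k + 1) : ℝ) ^ 3 := by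
        rw [Nat.factorial_succ]
        push_cast
        rw [div_div, mul_pow, mul_comm]

lemma cc_le {N : ℕ} (hN : 0 < N) (k : ℕ) : cc N k ≤ 1 / (Nat.factorial k : ℝ) ^ 3 := by
  apply le_trans (le_abs_self _)
  unfold cc
  rw [abs_mul, abs_pow, abs_neg, abs_one, one_pow, one_mul]
  exact bb_abs_le hN k

lemma bb_tendsto (k : ℕ) : Tendsto (fun N => bb N k) atTop (𝓝 ((-1) ^ k / (Nat.factorial k : ℝ) ^ 3)) := by
  induction k with
  | zero => simp [bb_zero]
  | succ k ih =>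
    have h1 : Tendsto (fun N : ℕ => -(bb N k * (1 - 1 / (N : ℝ) * k)) / ((k : ℝ) + 1) ^ 3) atTop
        (𝓝 (-(((-1) ^ k / (Nat.factorial k : ℝ) ^ 3) * (1 - 0 * k)) / ((k : ℝ) + 1) ^ 3)) := by
      apply Tendsto.div_const
      apply Tendsto.neg
      apply ih.mul
      apply Tendsto.const_sub
      exact tendsto_one_div_atTop_nhds_zero_nat.mul_const _
    have h2 : -(((-1) ^ k / (Nat.factorial k : ℝ) ^ 3) * (1 - 0 * k)) / ((k : ℝ) + 1) ^ 3 =
        (-1) ^ (k + 1) / (Nat.factorial (k + 1) : ℝ) ^ 3 := by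
      rw [Nat.factorial_succ]
      push_cast
      have : (Nat.factorial k : ℝ) ≠ 0 := by positivity
      field_simp
      ring
    rw [h2] at h1
    refine h1.congr' ?_
    filter_upwards [eventually_gt_atTop (k + 1)] with N hN
    have h3 := bb_succ (N := N) (k := k) (by omega) (by omega)
    rw [← h3]
    field_simp

lemma cc_tendsto (k : ℕ) : Tendsto (fun N => cc N k) atTop (𝓝 (1 / (Nat.factorial k : ℝ) ^ 3)) := by
  have := (bb_tendsto k).const_mul ((-1) ^ k)
  have e : (-1 : ℝ) ^ k * ((-1) ^ k / (Nat.factorial k : ℝ) ^ 3) = 1 / (Nat.factorial k : ℝ) ^ 3 := by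
    rw [← mul_div_assoc, ← mul_pow]; simp
  rw [e] at this
  exact this

/-- base polynomials: coefficients `k^σ c_{N,k}` with the convention `0^0=1` -/
noncomputable def base (N : ℕ) (σ : ℝ) : ℝ[X] :=
  if σ = 0 then (YP N).comp (C (-1) * X) else (HP N σ).comp (C (-1) * X)

lemma base_splits {N : ℕ} (hN : 120 ≤ N) {σ : ℝ} (h0 : 0 ≤ σ) (h1 : σ < 1) :
    (base N σ).Splits := by
  unfold base
  split_ifs with h
  · exact scale_splits _ (YP_splits (by omega)) _ (by norm_num)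
  · exact scale_splits _ (HP_splits hN (lt_of_le_of_ne h0 (Ne.symm h)) h1) _ (by norm_num)

lemma base_coeff (N : ℕ) (σ : ℝ) (k : ℕ) : (base N σ).coeff k = (k : ℝ) ^ σ * cc N k := by
  unfold base cc
  split_ifs with h
  · rw [scale_coeff, YP_coeff, h, Real.rpow_zero, one_mul]
  · rw [scale_coeff, HP_coeff]; ring

lemma Th_iter_splits (p : ℝ[X]) (hp : p.Splits) (n : ℕ) : (Th^[n] p).Splits := by
  induction n with
  | zero => exact hp
  | succ n ih => rw [Function.iterate_succ_apply']; exact Th_splits _ ih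

lemma Th_iter_coeff (p : ℝ[X]) (n k : ℕ) : (Th^[n] p).coeff k = (k : ℝ) ^ n * p.coeff k := by
  induction n with
  | zero => simp
  | succ n ih => rw [Function.iterate_succ_apply', Th_coeff, ih, pow_succ]; ring

lemma Gam_iter_splits (p : ℝ[X]) (hp : p.Splits) (n : ℕ) : (Gam^[n] p).Splits := by
  induction n with
  | zero => exact hp
  | succ n ih => rw [Function.iterate_succ_apply']; exact Gam_splits _ ih

lemma Gam_iter_coeff (p : ℝ[X]) (n k : ℕ) :
    (Gam^[n] p).coeff k = p.coeff k / (Nat.factorial k : ℝ) ^ n := by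
  induction n with
  | zero => simp
  | succ n ih => rw [Function.iterate_succ_apply', Gam_coeff, ih, pow_succ, div_div]

/-- the approximating polynomials -/
noncomputable def RP (s : ℝ) (m N : ℕ) : ℝ[X] :=
  Gam^[m - 3] (Th^[⌊s⌋₊] (base (N + 120) (s - ⌊s⌋₊)))

lemma RP_splits {s : ℝ} (hs : 0 < s) (m N : ℕ) : (RP s m N).Splits := by
  unfold RP
  apply Gam_iter_splits
  apply Th_iter_splits
  apply base_splits (by omega)
  · have := Nat.floor_le hs.le
    linarith
  · have := Nat.lt_floor_add_one s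
    linarith

lemma RP_coeff {s : ℝ} (hs : 0 < s) {m : ℕ} (hm : 3 ≤ m) (N k : ℕ) :
    (RP s m N).coeff k = (k : ℝ) ^ s * cc (N + 120) k / (Nat.factorial k : ℝ) ^ (m - 3) := by
  unfold RP
  rw [Gam_iter_coeff, Th_iter_coeff, base_coeff]
  congr 1
  rw [← mul_assoc]
  congr 1
  rcases Nat.eq_zero_or_pos k with h | h
  · subst h
    rw [Nat.cast_zero, Real.zero_rpow hs.ne']
    rcases Nat.eq_zero_or_pos ⌊s⌋₊ with h2 | h2
    · rw [h2]
      simp only [Nat.cast_zero, sub_zero, pow_zero, one_mul]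
      exact Real.zero_rpow hs.ne'
    · rw [zero_pow h2.ne', zero_mul]
  · have hk : (0 : ℝ) < k := by exact_mod_cast h
    rw [← Real.rpow_natCast, ← Real.rpow_add hk]
    congr 1
    ring

/-- limiting coefficients -/
noncomputable def rr0 (s : ℝ) (m k : ℕ) : ℝ := (k : ℝ) ^ s / (Nat.factorial k : ℝ) ^ m

lemma RP_coeff_nonneg {s : ℝ} (hs : 0 < s) {m : ℕ} (hm : 3 ≤ m) (N k : ℕ) :
    0 ≤ (RP s m N).coeff k := by
  rw [RP_coeff hs hm]
  have := cc_nonneg (N + 120) k
  have := Real.rpow_nonneg (Nat.cast_nonneg k : (0 : ℝ) ≤ k) s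
  positivity

lemma fac_split {m : ℕ} (hm : 3 ≤ m) (k : ℕ) :
    1 / (Nat.factorial k : ℝ) ^ 3 / (Nat.factorial k : ℝ) ^ (m - 3) = 1 / (Nat.factorial k : ℝ) ^ m := by
  rw [div_div, ← pow_add]
  congr 2
  omega

lemma RP_coeff_le {s : ℝ} (hs : 0 < s) {m : ℕ} (hm : 3 ≤ m) (N k : ℕ) :
    (RP s m N).coeff k ≤ rr0 s m k := by
  rw [RP_coeff hs hm]
  unfold rr0
  have h1 := cc_le (N := N + 120) (by omega) k
  have h2 := Real.rpow_nonneg (Nat.cast_nonneg k : (0 : ℝ) ≤ k) s
  calc (k : ℝ) ^ s * cc (N + 120) k / (Nat.factorial k : ℝ) ^ (m - 3) ≤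
      (k : ℝ) ^ s * (1 / (Nat.factorial k : ℝ) ^ 3) / (Nat.factorial k : ℝ) ^ (m - 3) := by gcongr
    _ = (k : ℝ) ^ s * (1 / (Nat.factorial k : ℝ) ^ 3 / (Nat.factorial k : ℝ) ^ (m - 3)) := by ring
    _ = _ := by rw [fac_split hm]; ring

lemma RP_coeff_tendsto {s : ℝ} (hs : 0 < s) {m : ℕ} (hm : 3 ≤ m) (k : ℕ) :
    Tendsto (fun N => (RP s m N).coeff k) atTop (𝓝 (rr0 s m k)) := by
  have h1 : Tendsto (fun N : ℕ => cc (N + 120) k) atTop (𝓝 (1 / (Nat.factorial k : ℝ) ^ 3)) :=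
    (cc_tendsto k).comp (tendsto_add_atTop_nat 120)
  have h2 := (h1.const_mul ((k : ℝ) ^ s)).div_const ((Nat.factorial k : ℝ) ^ (m - 3))
  have e : (k : ℝ) ^ s * (1 / (Nat.factorial k : ℝ) ^ 3) / (Nat.factorial k : ℝ) ^ (m - 3) =
      rr0 s m k := by
    unfold rr0
    rw [mul_div_assoc, fac_split hm]; ring
  rw [e] at h2
  refine h2.congr ?_
  intro N
  rw [RP_coeff hs hm]

lemma rr0_nonneg (s : ℝ) (m k : ℕ) : 0 ≤ rr0 s m k := by
  unfold rr0
  have := Real.rpow_nonneg (Nat.cast_nonneg k : (0 : ℝ) ≤ k) s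
  positivity

lemma rr0_summable {s : ℝ} (hs : 0 < s) {m : ℕ} (hm : 1 ≤ m) {R : ℝ} (hR : 0 ≤ R) :
    Summable (fun k => rr0 s m k * R ^ k) := by
  set n := ⌊s⌋₊ + 1 with hn
  have hbound : Summable (fun k : ℕ => (Nat.factorial n : ℝ) * ((Real.exp 1 * R) ^ k / (Nat.factorial k : ℝ))) :=
    (Real.summable_pow_div_factorial _).mul_left _
  refine Summable.of_nonneg_of_le ?_ ?_ hbound
  · intro k
    exact mul_nonneg (rr0_nonneg s m k) (by positivity)
  · intro k
    unfold rr0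
    have h1 : (k : ℝ) ^ s ≤ (Nat.factorial n : ℝ) * Real.exp 1 ^ k := by
      rcases Nat.eq_zero_or_pos k with h | h
      · rw [h, Nat.cast_zero, Real.zero_rpow hs.ne']; positivity
      · have hk : (1 : ℝ) ≤ k := by exact_mod_cast h
        have h2 : (k : ℝ) ^ s ≤ (k : ℝ) ^ n := by
          rw [← Real.rpow_natCast]
          apply Real.rpow_le_rpow_of_exponent_le hk
          rw [hn]; push_cast
          exact (Nat.lt_floor_add_one s).le
        have h3 : (k : ℝ) ^ n / (Nat.factorial n : ℝ) ≤ Real.exp k :=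
          Real.pow_div_factorial_le_exp (k : ℝ) (by positivity) n
        have h4 : Real.exp (k : ℝ) = Real.exp 1 ^ k := by rw [← Real.exp_nat_mul, mul_one]
        rw [h4, div_le_iff₀ (by positivity)] at h3
        linarith
    have h5 : (Nat.factorial k : ℝ) ≤ (Nat.factorial k : ℝ) ^ m := by
      apply le_self_pow₀ _ (by omega)
      exact_mod_cast Nat.factorial_pos k
    calc (k : ℝ) ^ s / (Nat.factorial k : ℝ) ^ m * R ^ k ≤
        ((Nat.factorial n : ℝ) * Real.exp 1 ^ k) / (Nat.factorial k : ℝ) * R ^ k := by gcongr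
      _ = _ := by rw [mul_pow]; ring

/-- the entire function -/
noncomputable def FF (s : ℝ) (m : ℕ) (z : ℂ) : ℂ := ∑' k : ℕ, (rr0 s m k : ℂ) * z ^ k

lemma FF_hasSum {s : ℝ} (hs : 0 < s) {m : ℕ} (hm : 1 ≤ m) (z : ℂ) :
    HasSum (fun k : ℕ => (rr0 s m k : ℂ) * z ^ k) (FF s m z) := by
  apply Summable.hasSum
  apply Summable.of_norm
  have := rr0_summable hs hm (norm_nonneg z)
  refine this.congr ?_
  intro k
  rw [norm_mul, norm_pow, Complex.norm_real, Real.norm_of_nonneg (rr0_nonneg s m k)]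

lemma aeval_hasSum (p : ℝ[X]) (z : ℂ) : HasSum (fun k : ℕ => (p.coeff k : ℂ) * z ^ k) (aeval z p) := by
  rw [aeval_eq_sum_range]
  have h : ∀ k : ℕ, p.coeff k • z ^ k = (p.coeff k : ℂ) * z ^ k := fun k => by
    rw [Complex.real_smul]
  simp only [h]
  apply hasSum_sum_of_ne_finset_zero
  intro k hk
  rw [coeff_eq_zero_of_natDegree_lt (by simpa using hk)]
  simp

theorem FF_limit {s : ℝ} (hs : 0 < s) {m : ℕ} (hm : 3 ≤ m) (K : Set ℂ) (hK : IsCompact K) :
    TendstoUniformlyOn (fun N z => aeval z (RP s m N)) (FF s m) atTop K := by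
  obtain ⟨R, hR0, hR⟩ : ∃ R : ℝ, 0 ≤ R ∧ ∀ z ∈ K, ‖z‖ ≤ R := by
    obtain ⟨R, hR⟩ := hK.isBounded.exists_norm_le
    exact ⟨max R 0, le_max_right _ _, fun z hz => (hR z hz).trans (le_max_left _ _)⟩
  have hsum := rr0_summable hs (show 1 ≤ m by omega) hR0
  have hT : Tendsto (fun N => ∑' k, (rr0 s m k - (RP s m N).coeff k) * R ^ k) atTop
      (𝓝 (∑' k : ℕ, (0 : ℝ))) := by
    apply tendsto_tsum_of_dominated_convergence hsum
    · intro k
      have := ((RP_coeff_tendsto hs hm k).const_sub (rr0 s m k)).mul_const (R ^ k)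
      simpa using this
    · filter_upwards with N k
      have h1 := RP_coeff_nonneg hs hm N k
      have h2 := RP_coeff_le hs hm N k
      rw [Real.norm_of_nonneg (mul_nonneg (by linarith) (by positivity))]
      gcongr
      linarith
  rw [tsum_zero] at hT
  rw [Metric.tendstoUniformlyOn_iff]
  intro ε hε
  filter_upwards [hT.eventually (gt_mem_nhds hε)] with N hN z hz
  apply lt_of_le_of_lt _ hN
  rw [dist_eq_norm]
  have h1 := (FF_hasSum hs (show 1 ≤ m by omega) z).sub (aeval_hasSum (RP s m N) z)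
  rw [← h1.tsum_eq]
  have hs2 : Summable (fun k => (rr0 s m k - (RP s m N).coeff k) * R ^ k) := by
    refine Summable.of_nonneg_of_le ?_ ?_ hsum
    · intro k
      have h2 := RP_coeff_le hs hm N k
      exact mul_nonneg (by linarith) (by positivity)
    · intro k
      have h1 := RP_coeff_nonneg hs hm N k
      gcongr
      linarith
  apply tsum_of_norm_bounded hs2.hasSum
  intro k
  have h2 := RP_coeff_le hs hm N k
  have e : (rr0 s m k : ℂ) * z ^ k - ((RP s m N).coeff k : ℂ) * z ^ k =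
      ((rr0 s m k - (RP s m N).coeff k : ℝ) : ℂ) * z ^ k := by push_cast; ring
  rw [e, norm_mul, norm_pow, Complex.norm_real, Real.norm_of_nonneg (by linarith)]
  have : 0 ≤ rr0 s m k - (RP s m N).coeff k := by linarith
  gcongr
  exact hR z hz

lemma RP_ne_zero {s : ℝ} (hs : 0 < s) {m : ℕ} (hm : 3 ≤ m) (N : ℕ) : RP s m N ≠ 0 := by
  intro h
  have h1 := RP_coeff hs hm N 1
  rw [h, coeff_zero] at h1
  unfold cc at h1
  rw [bb_one (by omega)] at h1
  simp at h1

theorem RP_real {s : ℝ} (hs : 0 < s) {m : ℕ} (hm : 3 ≤ m) (N : ℕ) (z : ℂ)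
    (hz : aeval z (RP s m N) = 0) : z.im = 0 :=
  Pool.Agent.H635Z.real_of_splits _ (RP_splits hs m N) (RP_ne_zero hs hm N) z hz

end Pool.Agent.X207.KS
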