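import Mathlib
import Pool.Agent.S06389
import Pool.Agent.X207.KS7

set_option autoImplicit false

/-! Schur's composition theorem and the square-root sequence. -/

open Polynomial Filter Topology

namespace Pool.Agent.X207.KQ

open Pool.Agent.H635Z Pool.Agent.X207.KS

lemma ratio_tendsto (k : ℕ) : Tendsto (fun N : ℕ => (N : ℝ) ^ k / (Nat.choose N k : ℝ)) atTop
    (𝓝 (Nat.factorial k : ℝ)) := by
  have h1 := (cc_tendsto k).mul_const ((Nat.factorial k : ℝ) ^ 2)
  have hf : (Nat.factorial k : ℝ) ≠ 0 := by positivity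
  have e : 1 / (Nat.factorial k : ℝ) ^ 3 * (Nat.factorial k : ℝ) ^ 2 = (Nat.factorial k : ℝ)⁻¹ := by
    field_simp
  rw [e] at h1
  have h2 := h1.inv₀ (inv_ne_zero hf)
  rw [inv_inv] at h2
  refine h2.congr' ?_
  filter_upwards [eventually_ge_atTop (k + 1)] with N hN
  have hN0 : (N : ℝ) ≠ 0 := by
    have : 0 < N := by omega
    positivity
  have hc : (Nat.choose N k : ℝ) ≠ 0 := by
    exact_mod_cast (Nat.choose_pos (by omega)).ne'
  rw [cc_eq, one_div_pow]
  field_simp

/-- Schur's composition theorem -/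
theorem schur (p q : ℝ[X]) (hp : p.Splits) (hq : q.Splits) (hq0 : ∀ ρ ∈ q.roots, 0 ≤ ρ) :
    (∑ k ∈ Finset.range (p.natDegree + 1),
      C ((Nat.factorial k : ℝ) * (q.coeff k * (-1) ^ k) * p.coeff k) * X ^ k : ℝ[X]).Splits := by
  refine splits_of_tendsto (l := atTop) (fun N : ℕ => (H635Z.comp N p q).comp (C (N : ℝ) * X)) _ ?_ ?_
  · filter_upwards [eventually_ge_atTop (p.natDegree + q.natDegree + 1)] with N hN
    apply scale_splits
    · exact comp_splits' N p q hp (by omega) hq hq0 (by omega)
    · have : 0 < N := by omega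
      positivity
  · intro z
    have hfin : ∀ᶠ N : ℕ in atTop, (∑ k ∈ Finset.range (p.natDegree + 1),
        (((N : ℝ) ^ k / (Nat.choose N k : ℝ) * (q.coeff k * (-1) ^ k) * p.coeff k : ℝ) : ℂ) * z ^ k) =
        aeval z ((H635Z.comp N p q).comp (C (N : ℝ) * X)) := by
      filter_upwards [eventually_ge_atTop (p.natDegree + 1)] with N hN
      have e : (H635Z.comp N p q).comp (C (N : ℝ) * X) = (∑ k ∈ Finset.range (p.natDegree + 1),
          C ((N : ℝ) ^ k / (Nat.choose N k : ℝ) * (q.coeff k * (-1) ^ k) * p.coeff k) * X ^ k : ℝ[X]) := by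
        ext k
        rw [scale_coeff]
        unfold H635Z.comp
        simp only [finsetSum_coeff, coeff_C_mul, coeff_X_pow, mul_ite, mul_one, mul_zero]
        rw [Finset.sum_ite_eq, Finset.sum_ite_eq]
        by_cases hk : k ≤ p.natDegree
        · rw [if_pos (by simp; omega), if_pos (by simp; omega)]
          ring
        · rw [coeff_eq_zero_of_natDegree_lt (by omega : p.natDegree < k)]
          simp
      rw [e, map_sum]
      apply Finset.sum_congr rfl
      intro k _
      rw [map_mul, aeval_C, map_pow, aeval_X]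
      rfl
    refine Tendsto.congr' hfin ?_
    have e2 : aeval z (∑ k ∈ Finset.range (p.natDegree + 1),
      C ((Nat.factorial k : ℝ) * (q.coeff k * (-1) ^ k) * p.coeff k) * X ^ k : ℝ[X]) =
      ∑ k ∈ Finset.range (p.natDegree + 1),
        (((Nat.factorial k : ℝ) * (q.coeff k * (-1) ^ k) * p.coeff k : ℝ) : ℂ) * z ^ k := by
      rw [map_sum]
      apply Finset.sum_congr rfl
      intro k _
      rw [map_mul, aeval_C, map_pow, aeval_X]
      rfl
    rw [e2]
    apply tendsto_finsetSum
    intro k _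
    apply Tendsto.mul_const
    apply (Complex.continuous_ofReal.tendsto _).comp
    exact ((ratio_tendsto k).mul_const _).mul_const _

open Pool.Agent.S06389

lemma R_coeff (n : ℕ) (hn : 0 < n) (L : ℝ) (s : ℕ → ℝ) (k : ℕ) :
    (R n L s).coeff k = ecoef n L s k * S06389.w k := by
  have h : R n L s = ∑ j ∈ Finset.range (n + 1), C (ecoef n L s j * S06389.w j) * X ^ j := by
    apply Polynomial.map_injective (algebraMap ℝ ℂ) (algebraMap ℝ ℂ).injective
    apply Polynomial.funext
    intro z
    have h1 := R_expand n hn L s z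
    rw [eval_map, eval_map, ← aeval_def, ← aeval_def, h1, map_sum]
    apply Finset.sum_congr rfl
    intro j _
    rw [map_mul, aeval_C, map_pow, aeval_X]
    simp only [Complex.coe_algebraMap]
    push_cast
    ring
  rw [h]
  simp only [finsetSum_coeff, coeff_C_mul, coeff_X_pow, mul_ite, mul_one, mul_zero]
  rw [Finset.sum_ite_eq]
  split_ifs with hk
  · rfl
  · rw [ecoef_eq_zero n L s k (by simpa using hk), zero_mul]

lemma ecoef_tendsto (k : ℕ) : Tendsto (fun n : ℕ => ecoef n (LL n) (ss n) k) atTop (𝓝 (S06389.cc k)) := by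
  have hz : Tendsto (fun n : ℕ => 2 * (CC + 1) * ((k : ℝ) ^ 3 / (n : ℝ) ^ 2)) atTop (𝓝 0) := by
    have h1 : Tendsto (fun n : ℕ => ((n : ℝ) ^ 2)) atTop atTop :=
      (tendsto_pow_atTop two_ne_zero).comp tendsto_natCast_atTop_atTop
    have h2 := (h1.const_div_atTop ((k : ℝ) ^ 3)).const_mul (2 * (CC + 1))
    simpa using h2
  have hd : Tendsto (fun n : ℕ => ecoef n (LL n) (ss n) k -
      (LL n - ∑ j ∈ Finset.range n, ss n j * ((j : ℝ) / n) ^ (2 * k))) atTop (𝓝 0) := by
    apply squeeze_zero_norm' _ hz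
    filter_upwards [eventually_gt_atTop 0] with n hn
    rw [Real.norm_eq_abs]
    refine (ecoef_approx n hn (LL n) (ss n) (LL_bound n hn).1 k).trans ?_
    apply mul_le_mul_of_nonneg_right _ (by positivity)
    linarith [(LL_bound n hn).2]
  have := hd.add (S06389.cc_tendsto k)
  simpa using this

/-- the square-root sequence -/
theorem sqrt_splits (p : ℝ[X]) (hp : p.Splits) :
    (∑ k ∈ Finset.range (p.natDegree + 1),
      C (Real.sqrt k / (Nat.factorial k : ℝ) * p.coeff k) * X ^ k : ℝ[X]).Splits := by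
  set K : ℝ := Real.pi * Real.sqrt Real.pi with hK
  have hpi : 0 < K := mul_pos Real.pi_pos (Real.sqrt_pos.2 Real.pi_pos)
  set q : ℕ → ℝ[X] := fun n => (R n (LL n) (ss n)).comp (C (-1) * X) with hq
  have hRsp : ∀ n, 0 < n → (R n (LL n) (ss n)).Splits := by
    intro n hn
    apply splits_of_real
    intro z hz
    exact (R_root n hn (LL n) (ss n) (LL_bound n hn).1 z hz).1
  have hqs : ∀ n, 0 < n → (q n).Splits := fun n hn => scale_splits _ (hRsp n hn) _ (by norm_num)
  have hq0 : ∀ n, 0 < n → ∀ ρ ∈ (q n).roots, 0 ≤ ρ := by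
    intro n hn ρ hρ
    have h1 : (q n).eval ρ = 0 := (mem_roots'.mp hρ).2
    have h2 : (R n (LL n) (ss n)).eval (-ρ) = 0 := by
      rw [hq] at h1
      simpa [eval_comp] using h1
    have h3 : aeval ((-ρ : ℝ) : ℂ) (R n (LL n) (ss n)) = 0 := by
      rw [← Complex.coe_algebraMap, aeval_algebraMap_apply, coe_aeval_eq_eval, h2, map_zero]
    have h4 := (R_root n hn (LL n) (ss n) (LL_bound n hn).1 _ h3).2
    rw [Complex.ofReal_re] at h4
    linarith
  have hqc : ∀ n, 0 < n → ∀ k, (q n).coeff k * (-1) ^ k = ecoef n (LL n) (ss n) k * S06389.w k := by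
    intro n hn k
    rw [hq]
    simp only
    rw [scale_coeff, R_coeff n hn]
    have : ((-1 : ℝ) ^ k) * (-1) ^ k = 1 := by rw [← mul_pow]; simp
    linear_combination (ecoef n (LL n) (ss n) k * S06389.w k) * this
  have hlim : (∑ k ∈ Finset.range (p.natDegree + 1),
      C (K * (Real.sqrt k / (Nat.factorial k : ℝ)) * p.coeff k) * X ^ k : ℝ[X]).Splits := by
    refine splits_of_tendsto (l := atTop) (fun n : ℕ => ∑ k ∈ Finset.range (p.natDegree + 1),
      C ((Nat.factorial k : ℝ) * ((q n).coeff k * (-1) ^ k) * p.coeff k) * X ^ k) _ ?_ ?_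
    · filter_upwards [eventually_gt_atTop 0] with n hn
      exact schur p (q n) hp (hqs n hn) (hq0 n hn)
    · intro z
      simp only [map_sum, map_mul, aeval_C, map_pow, aeval_X]
      apply tendsto_finsetSum
      intro k _
      apply Tendsto.mul_const
      apply Tendsto.mul_const
      have h1 : Tendsto (fun n : ℕ => (Nat.factorial k : ℝ) * ((q n).coeff k * (-1) ^ k)) atTop
          (𝓝 (K * (Real.sqrt k / (Nat.factorial k : ℝ)))) := by
        have h2 := ((ecoef_tendsto k).mul_const (S06389.w k)).const_mul (Nat.factorial k : ℝ)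
        have e : (Nat.factorial k : ℝ) * (S06389.cc k * S06389.w k) = K * (Real.sqrt k / (Nat.factorial k : ℝ)) := by
          unfold S06389.cc S06389.w
          rw [← hK]
          have hf : (0:ℝ) < ((2 * k).factorial : ℝ) := by positivity
          have hf2 : (0:ℝ) < (k.factorial : ℝ) := by positivity
          field_simp
        rw [e] at h2
        refine h2.congr' ?_
        filter_upwards [eventually_gt_atTop 0] with n hn
        rw [hqc n hn]
      have h3 := (Complex.continuous_ofReal.tendsto _).comp h1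
      have e3 : ∀ x y : ℝ, algebraMap ℝ ℂ (x * y) = ((x * y : ℝ) : ℂ) := fun _ _ => rfl
      simp only [Complex.coe_algebraMap]
      refine (h3.congr ?_).trans (le_of_eq ?_)
      · intro n
        simp
      · congr 1
        push_cast
        rfl
  have e : (∑ k ∈ Finset.range (p.natDegree + 1),
      C (Real.sqrt k / (Nat.factorial k : ℝ) * p.coeff k) * X ^ k : ℝ[X]) =
      C K⁻¹ * ∑ k ∈ Finset.range (p.natDegree + 1),
      C (K * (Real.sqrt k / (Nat.factorial k : ℝ)) * p.coeff k) * X ^ k := by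
    rw [Finset.mul_sum]
    apply Finset.sum_congr rfl
    intro k _
    rw [← mul_assoc, ← C_mul]
    congr 2
    field_simp
  rw [e]
  exact hlim.C_mul _

end Pool.Agent.X207.KQ
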