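import Mathlib
import Pool.Agent.X207.KS3

set_option autoImplicit false

/-! Record property of `W = θ²y - ε x y` at zeros of `y`, where `y''' = -e^u y + ε e^u y'`. -/

namespace Pool.Agent.X207.KM

open Real Set Pool.Agent.X207.KS

variable {ε : ℝ} {y0 y1 y2 y3 : ℝ → ℝ}

lemma energyW_far (h0 : ∀ u, HasDerivAt y0 (y1 u) u) (h1 : ∀ u, HasDerivAt y1 (y2 u) u)
    (h2 : ∀ u, HasDerivAt y2 (y3 u) u)
    (ode : ∀ u, y3 u = -exp u * y0 u + ε * exp u * y1 u)
    (hε : 0 < ε) {α β : ℝ} (hαβ : α < β) (hx : 1 / 4 ≤ ε * exp α)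
    (hα : y0 α = 0) (hβ : y0 β = 0) : y2 α ^ 2 ≤ y2 β ^ 2 := by
  have key : ∀ u, HasDerivAt (fun u => (y2 u - ε * (exp u * y0 u)) ^ 2 + (1 + ε) * (exp u * (2 * y0 u * y1 u)))
      ((1 + ε) * exp u * (2 * y1 u ^ 2 + 2 * y0 u * y1 u + 2 * (ε * exp u) * y0 u ^ 2)) u := by
    intro u
    have e1 := hasDerivAt_exp u
    have := (((h2 u).sub ((e1.mul (h0 u)).const_mul ε)).pow 2).add
      ((e1.mul (((h0 u).const_mul 2).mul (h1 u))).const_mul (1 + ε))
    refine HasDerivAt.congr_deriv this ?_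
    rw [ode u]
    simp only [Nat.cast_ofNat, Nat.add_one_sub_one, pow_one, Pi.mul_apply, Pi.sub_apply]
    ring
  have := le_of_deriv_nonneg hαβ (fun u _ => key u) (fun u hu => by
    apply mul_nonneg (mul_nonneg (by linarith) (exp_pos _).le)
    have h3 : exp α ≤ exp u := exp_le_exp.mpr hu.1
    have h4 : 1 / 4 ≤ ε * exp u := hx.trans (mul_le_mul_of_nonneg_left h3 hε.le)
    nlinarith [sq_nonneg (2 * y1 u + y0 u), sq_nonneg (y0 u)])
  simp only [hα, hβ, mul_zero, zero_mul, add_zero, sub_zero] at this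
  exact this

lemma energyW_near (h0 : ∀ u, HasDerivAt y0 (y1 u) u) (h1 : ∀ u, HasDerivAt y1 (y2 u) u)
    (h2 : ∀ u, HasDerivAt y2 (y3 u) u)
    (ode : ∀ u, y3 u = -exp u * y0 u + ε * exp u * y1 u)
    (hε : 0 < ε) {α β : ℝ} (hαβ : α < β) (hx : β ≤ α + 4)
    (hα : y0 α = 0) (hβ : y0 β = 0) : y2 α ^ 2 ≤ y2 β ^ 2 := by
  have hvv : ∀ u ∈ Icc α β, (u - α - 2) ^ 2 < 8 := by
    intro u hu
    have h3 := hu.1
    have h4 := hu.2
    nlinarith
  have key : ∀ u ∈ Icc α β, HasDerivAt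
      (fun u => (y2 u - ε * (exp u * y0 u)) ^ 2 +
        (1 + ε) * (exp u * (2 * y0 u * y1 u - 2 * rr (u - α - 2) * y0 u ^ 2)))
      ((1 + ε) * exp u * (2 * y1 u ^ 2 + 2 * (1 - 2 * rr (u - α - 2)) * y0 u * y1 u +
        (-2 * rr (u - α - 2) - 2 * (-(16 + 2 * (u - α - 2) ^ 2) / (8 - (u - α - 2) ^ 2) ^ 2)
          + 2 * (ε * exp u)) * y0 u ^ 2)) u := by
    intro u hu
    have e1 := hasDerivAt_exp u
    have hv := hvv u hu
    have e3 : HasDerivAt (fun u => rr (u - α - 2))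
        (-(16 + 2 * (u - α - 2) ^ 2) / (8 - (u - α - 2) ^ 2) ^ 2) u := by
      have e4 : HasDerivAt (fun u : ℝ => u - α - 2) 1 u := ((hasDerivAt_id u).sub_const α).sub_const 2
      have := (rr_deriv (u - α - 2) hv).comp u e4
      rw [mul_one] at this
      exact this
    have := (((h2 u).sub ((e1.mul (h0 u)).const_mul ε)).pow 2).add
      ((e1.mul ((((h0 u).const_mul 2).mul (h1 u)).sub ((e3.const_mul 2).mul ((h0 u).pow 2)))).const_mul (1 + ε))
    refine HasDerivAt.congr_deriv this ?_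
    rw [ode u]
    simp only [Nat.cast_ofNat, Nat.add_one_sub_one, pow_one, Pi.mul_apply, Pi.sub_apply, Pi.pow_apply]
    ring
  have := le_of_deriv_nonneg hαβ key (fun u hu => by
    have hv := hvv u hu
    have h5 := rr_ineq (u - α - 2) hv
    set w := rr (u - α - 2)
    set w' := -(16 + 2 * (u - α - 2) ^ 2) / (8 - (u - α - 2) ^ 2) ^ 2
    apply mul_nonneg (mul_nonneg (by linarith) (exp_pos _).le)
    have h7 : 2 * y1 u ^ 2 + 2 * (1 - 2 * w) * y0 u * y1 u +
        (-2 * w - 2 * w' + 2 * (ε * exp u)) * y0 u ^ 2 =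
        2 * (y1 u + (1 - 2 * w) / 2 * y0 u) ^ 2 + (2 * (-(w' + w ^ 2 + 1 / 4)) + 2 * (ε * exp u)) * y0 u ^ 2 := by
      ring
    rw [h7]
    have h8 : 0 ≤ -(w' + w ^ 2 + 1 / 4) := by linarith
    have h9 : 0 ≤ ε * exp u := mul_nonneg hε.le (exp_pos _).le
    positivity)
  simp only [hα, hβ, mul_zero, zero_mul, add_zero, ne_eq, OfNat.ofNat_ne_zero, not_false_eq_true,
    zero_pow, sub_zero] at this
  exact this

lemma BposY {v a e : ℝ} (hv0 : 0 < v) (hv4 : v < 4) (ha : 1 ≤ a) (he : 0 < e) (he1 : e ≤ 1 / 120)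
    (hae : e * a ≤ 1 / 4) :
    0 < 24 - 12 * v - 9 * v ^ 2 + 3 * v ^ 3 + (a * exp v - 1 / 8) * (v * (4 - v) ^ 3)
      + e * (a * exp v) * ((4 - v) ^ 2 * (4 + 2 * v - 3 / 2 * v ^ 2)) := by
  have hX : exp v ≤ a * exp v := by
    have := exp_pos v
    nlinarith
  have hx : e * (a * exp v) ≤ 1 / 4 * exp v := by
    have := exp_pos v
    nlinarith
  set X := a * exp v with hXd
  have hXpos : 0 < X := by have := exp_pos v; positivity
  rcases le_or_gt v 2 with h2 | h2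
  · have h3 : 1 + v ≤ exp v := by linarith [add_one_le_exp v]
    have h4 : (8 : ℝ) ≤ (4 - v) ^ 3 := by
      have : (2 : ℝ) ≤ 4 - v := by linarith
      calc (8 : ℝ) = 2 ^ 3 := by norm_num
        _ ≤ (4 - v) ^ 3 := by gcongr
    have h5 : 0 ≤ e * X * ((4 - v) ^ 2 * (4 + 2 * v - 3 / 2 * v ^ 2)) := by
      have : 0 ≤ 4 + 2 * v - 3 / 2 * v ^ 2 := by nlinarith
      positivity
    have h6 : (7 / 8 + v) * (v * 8) ≤ (X - 1 / 8) * (v * (4 - v) ^ 3) := by
      apply mul_le_mul (by linarith) (by gcongr) (by positivity) (by linarith)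
    have h7 : 0 < 24 - 12 * v - 9 * v ^ 2 + 3 * v ^ 3 + (7 / 8 + v) * (v * 8) := by
      have : 24 - 12 * v - 9 * v ^ 2 + 3 * v ^ 3 + (7 / 8 + v) * (v * 8) =
          (24 - 5 * v - v ^ 2) + 3 * v ^ 3 := by ring
      rw [this]
      have : 0 < 24 - 5 * v - v ^ 2 := by nlinarith
      positivity
    linarith
  · obtain ⟨t, ht⟩ : ∃ t, t = 4 - v := ⟨_, rfl⟩
    have hv : v = 4 - t := by linarith
    have ht0 : 0 < t := by linarith
    have ht2 : t < 2 := by linarith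
    have e1 : (4 - v) = t := ht.symm
    rw [e1]
    have h12 : 3 / 2 * v ^ 2 - 2 * v - 4 ≤ 12 := by nlinarith
    have hA : 24 - 12 * v - 9 * v ^ 2 + 3 * v ^ 3 = 24 - 60 * t + 27 * t ^ 2 - 3 * t ^ 3 := by rw [hv]; ring
    rw [hA]
    have hXt : 0 ≤ X * t ^ 2 := by positivity
    have hX1 : (1 : ℝ) ≤ X := by
      have := add_one_le_exp v
      linarith
    rcases le_or_gt t (1 / 10) with h | h
    · have h54 : exp v ≤ 54.6 := by
        have : exp v ≤ exp 4 := exp_le_exp.mpr hv4.le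
        have h4 : exp 4 = exp 1 ^ 4 := by rw [← exp_nat_mul]; norm_num
        have h5 : exp 1 ^ 4 ≤ (2.7182818286 : ℝ) ^ 4 := by
          gcongr
          exact exp_one_lt_d9.le
        rw [h4] at this
        calc exp v ≤ _ := this
          _ ≤ _ := h5
          _ ≤ 54.6 := by norm_num
      have h6 : e * X ≤ 13.65 := by linarith
      have h7 : 0 ≤ (X - 1 / 8) * (v * t ^ 3) := by
        apply mul_nonneg (by linarith)
        positivity
      have h8 : e * X * (t ^ 2 * (3 / 2 * v ^ 2 - 2 * v - 4)) ≤ 13.65 * ((1 / 10) ^ 2 * 12) := by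
        have h81 : e * X * (t ^ 2 * (3 / 2 * v ^ 2 - 2 * v - 4)) ≤ e * X * (t ^ 2 * 12) := by
          have : 0 ≤ e * X * t ^ 2 := by positivity
          nlinarith
        refine h81.trans ?_
        gcongr
      have h9 : e * X * (t ^ 2 * (4 + 2 * v - 3 / 2 * v ^ 2)) =
        -(e * X * (t ^ 2 * (3 / 2 * v ^ 2 - 2 * v - 4))) := by ring
      rw [h9]
      have h10 : 0 ≤ t ^ 2 * (27 - 3 * t) := by
        have : 0 ≤ 27 - 3 * t := by linarith
        positivity
      nlinarith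
    · have h6 : e * (3 / 2 * v ^ 2 - 2 * v - 4) ≤ 1 / 2 * (v * t) := by
        have : e * (3 / 2 * v ^ 2 - 2 * v - 4) ≤ e * 12 := by nlinarith
        nlinarith
      have h7 : e * X * (t ^ 2 * (3 / 2 * v ^ 2 - 2 * v - 4)) ≤ X * t ^ 2 * (1 / 2 * (v * t)) := by
        calc e * X * (t ^ 2 * (3 / 2 * v ^ 2 - 2 * v - 4)) = X * t ^ 2 * (e * (3 / 2 * v ^ 2 - 2 * v - 4)) := by ring
          _ ≤ _ := mul_le_mul_of_nonneg_left h6 hXt
      have h9 : e * X * (t ^ 2 * (4 + 2 * v - 3 / 2 * v ^ 2)) =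
        -(e * X * (t ^ 2 * (3 / 2 * v ^ 2 - 2 * v - 4))) := by ring
      have h10 : (X - 1 / 8) * (v * t ^ 3) = X * t ^ 2 * (1 / 2 * (v * t)) + (1 / 2 * X - 1 / 8) * v * t ^ 3 := by ring
      rw [h9, h10]
      have hgoal : 0 < 24 - 60 * t + 27 * t ^ 2 - 3 * t ^ 3 + (1 / 2 * X - 1 / 8) * v * t ^ 3 →
          0 < 24 - 60 * t + 27 * t ^ 2 - 3 * t ^ 3 +
          (X * t ^ 2 * (1 / 2 * (v * t)) + (1 / 2 * X - 1 / 8) * v * t ^ 3) +
          -(e * X * (t ^ 2 * (3 / 2 * v ^ 2 - 2 * v - 4))) := by intro h; linarith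
      apply hgoal
      have he1' : (2.7182818283 : ℝ) ≤ exp 1 := exp_one_gt_d9.le
      have low : ∀ κ X0 v0 : ℝ, 1 ≤ X0 → 0 ≤ v0 → X0 ≤ X → v0 ≤ v → κ ≤ (1 / 2 * X0 - 1 / 8) * v0 →
          κ * t ^ 3 ≤ (1 / 2 * X - 1 / 8) * v * t ^ 3 := by
        intro κ X0 v0 h1 h2 h3 h4 h5
        have : κ ≤ (1 / 2 * X - 1 / 8) * v := by
          calc κ ≤ (1 / 2 * X0 - 1 / 8) * v0 := h5
            _ ≤ (1 / 2 * X - 1 / 8) * v := by
              apply mul_le_mul (by linarith) h4 h2 (by linarith)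
        gcongr
      rcases le_or_gt t 1 with h1 | h1
      · have hv3 : 3 ≤ v := by linarith
        have h20 : (20 : ℝ) ≤ X := by
          have h4 : exp 3 = exp 1 ^ 3 := by rw [← exp_nat_mul]; norm_num
          have h5 : (2.7182818283 : ℝ) ^ 3 ≤ exp 1 ^ 3 := by gcongr
          have h6 : exp 3 ≤ exp v := exp_le_exp.mpr hv3
          have h7 : (20 : ℝ) ≤ 2.7182818283 ^ 3 := by norm_num
          linarith
        have := low 29.6 20 3 (by norm_num) (by norm_num) h20 hv3 (by norm_num)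
        have h11 : 1.08 * t - 0.432 ≤ t ^ 3 := by
          nlinarith [mul_nonneg ht0.le (sq_nonneg (t - 0.6)), sq_nonneg (t - 0.6)]
        nlinarith [sq_nonneg (t - 0.58)]
      · rcases le_or_gt t 1.5 with h15 | h15
        · have hv25 : 2.5 ≤ v := by linarith
          have h11 : (11.9 : ℝ) ≤ X := by
            have h4 : exp 2.5 = exp 1 ^ 2 * exp (1 / 2) := by
              rw [← exp_nat_mul, ← exp_add]; norm_num
            have h5 : (2.7182818283 : ℝ) ^ 2 ≤ exp 1 ^ 2 := by gcongr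
            have h5' : (1.625 : ℝ) ≤ exp (1 / 2) := by
              have := quadratic_le_exp_of_nonneg (show (0 : ℝ) ≤ 1 / 2 by norm_num)
              linarith
            have h6 : exp 2.5 ≤ exp v := exp_le_exp.mpr hv25
            have h7 : (11.9 : ℝ) ≤ 2.7182818283 ^ 2 * 1.625 := by norm_num
            have h8 : (2.7182818283 : ℝ) ^ 2 * 1.625 ≤ exp 1 ^ 2 * exp (1 / 2) := by gcongr
            linarith
          have := low 14.5 11.9 2.5 (by norm_num) (by norm_num) h11 hv25 (by norm_num)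
          have h12 : 3 * t - 2 ≤ t ^ 3 := by nlinarith [mul_nonneg ht0.le (sq_nonneg (t - 1)), sq_nonneg (t - 1)]
          nlinarith
        · have h7 : (7 : ℝ) ≤ X := by
            have h4 : exp 2 = exp 1 ^ 2 := by rw [← exp_nat_mul]; norm_num
            have h5 : (2.7182818283 : ℝ) ^ 2 ≤ exp 1 ^ 2 := by gcongr
            have h6 : exp 2 ≤ exp v := exp_le_exp.mpr h2.le
            have h7 : (7 : ℝ) ≤ 2.7182818283 ^ 2 := by norm_num
            linarith
          have := low 6.75 7 2 (by norm_num) (by norm_num) h7 h2.le (by norm_num)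
          have h12 : 6.75 * t - 6.75 ≤ t ^ 3 := by nlinarith [mul_nonneg ht0.le (sq_nonneg (t - 1.5)), sq_nonneg (t - 1.5)]
          nlinarith

end Pool.Agent.X207.KM
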