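import Mathlib
import Pool.Agent.X207.KM1

set_option autoImplicit false

/-! Record property of `W` at zeros of `y` (continued). -/

namespace Pool.Agent.X207.KM

open Real Set Filter Topology Pool.Agent.X207.KS

variable {ε : ℝ} {y0 y1 y2 y3 : ℝ → ℝ}

lemma gapY_pos (h0 : ∀ u, HasDerivAt y0 (y1 u) u) (h1 : ∀ u, HasDerivAt y1 (y2 u) u)
    (h2 : ∀ u, HasDerivAt y2 (y3 u) u)
    (ode : ∀ u, y3 u = -exp u * y0 u + ε * exp u * y1 u)
    (hε : 0 < ε) (hε1 : ε ≤ 1 / 120) {α : ℝ} (hx : ε * exp α ≤ 1 / 4) (h1α : 1 ≤ exp α)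
    (hα : y0 α = 0) (hpos : ∀ u ∈ Ioc α (α + 4), 0 < y0 u) : False := by
  have hy1 := y2_nonneg h0 hα hpos
  have key : ∀ u, HasDerivAt
      (fun u => exp ((u - α) / 2) *
        ((64 * (u - α) - 48 * (u - α) ^ 2 + 12 * (u - α) ^ 3 - (u - α) ^ 4) * y2 u
        - (64 - 64 * (u - α) + 12 * (u - α) ^ 2 + 2 * (u - α) ^ 3 - 1 / 2 * (u - α) ^ 4) * y1 u
        + (-32 - 8 * (u - α) + 12 * (u - α) ^ 2 - (u - α) ^ 3 - 1 / 4 * (u - α) ^ 4) * y0 u
        - (64 * (u - α) - 48 * (u - α) ^ 2 + 12 * (u - α) ^ 3 - (u - α) ^ 4) * (ε * exp u * y0 u)))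
      (-(y0 u * exp ((u - α) / 2) * (24 - 12 * (u - α) - 9 * (u - α) ^ 2 + 3 * (u - α) ^ 3
        + (exp u - 1 / 8) * ((u - α) * (4 - (u - α)) ^ 3)
      + ε * exp u * ((4 - (u - α)) ^ 2 * (4 + 2 * (u - α) - 3 / 2 * (u - α) ^ 2))))) u := by
    intro u
    have ev : HasDerivAt (fun u : ℝ => u - α) 1 u := (hasDerivAt_id u).sub_const α
    have eE : HasDerivAt (fun u : ℝ => exp ((u - α) / 2)) (exp ((u - α) / 2) * (1 / 2)) u :=
      (ev.div_const 2).exp
    have q0 : HasDerivAt (fun u : ℝ => 64 * (u - α) - 48 * (u - α) ^ 2 + 12 * (u - α) ^ 3 - (u - α) ^ 4)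
        (64 - 96 * (u - α) + 36 * (u - α) ^ 2 - 4 * (u - α) ^ 3) u := by
      have := (((ev.const_mul 64).sub ((ev.pow 2).const_mul 48)).add ((ev.pow 3).const_mul 12)).sub (ev.pow 4)
      refine HasDerivAt.congr_deriv this ?_
      simp only [Nat.cast_ofNat, Nat.add_one_sub_one, pow_one]
      ring
    have q1 : HasDerivAt (fun u : ℝ => 64 - 64 * (u - α) + 12 * (u - α) ^ 2 + 2 * (u - α) ^ 3 - 1 / 2 * (u - α) ^ 4)
        (-64 + 24 * (u - α) + 6 * (u - α) ^ 2 - 2 * (u - α) ^ 3) u := by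
      have := ((((ev.const_mul 64).const_sub 64).add ((ev.pow 2).const_mul 12)).add ((ev.pow 3).const_mul 2)).sub
        ((ev.pow 4).const_mul (1 / 2))
      refine HasDerivAt.congr_deriv this ?_
      simp only [Nat.cast_ofNat, Nat.add_one_sub_one, pow_one]
      ring
    have q2 : HasDerivAt (fun u : ℝ => -32 - 8 * (u - α) + 12 * (u - α) ^ 2 - (u - α) ^ 3 - 1 / 4 * (u - α) ^ 4)
        (-8 + 24 * (u - α) - 3 * (u - α) ^ 2 - (u - α) ^ 3) u := by
      have := ((((ev.const_mul 8).const_sub (-32)).add ((ev.pow 2).const_mul 12)).sub (ev.pow 3)).sub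
        ((ev.pow 4).const_mul (1 / 4))
      refine HasDerivAt.congr_deriv this ?_
      simp only [Nat.cast_ofNat, Nat.add_one_sub_one, pow_one]
      ring
    have e1 := (hasDerivAt_exp u).const_mul ε
    have := eE.mul ((((q0.mul (h2 u)).sub (q1.mul (h1 u))).add (q2.mul (h0 u))).sub (q0.mul (e1.mul (h0 u))))
    refine HasDerivAt.congr_deriv this ?_
    rw [ode u]
    simp only [Pi.mul_apply, Pi.sub_apply, Pi.add_apply]
    ring
  obtain ⟨c, hc, hc2⟩ := exists_hasDerivAt_eq_slope _ _ (show α < α + 4 by linarith)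
    (fun u _ => (key u).continuousAt.continuousWithinAt) (fun u _ => key u)
  have hB : 0 < 24 - 12 * (c - α) - 9 * (c - α) ^ 2 + 3 * (c - α) ^ 3
        + (exp c - 1 / 8) * ((c - α) * (4 - (c - α)) ^ 3)
      + ε * exp c * ((4 - (c - α)) ^ 2 * (4 + 2 * (c - α) - 3 / 2 * (c - α) ^ 2)) := by
    have := BposY (v := c - α) (a := exp α) (e := ε) (by linarith [hc.1]) (by linarith [hc.2])
      h1α hε hε1 hx
    have e : exp α * exp (c - α) = exp c := by rw [← exp_add]; congr 1; ring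
    rw [e] at this
    exact this
  have hp := hpos c (Ioo_subset_Ioc_self hc)
  have hneg := mul_pos (mul_pos hp (exp_pos ((c - α) / 2))) hB
  rw [hα] at hc2
  simp only [sub_self, zero_mul, mul_zero, neg_zero, add_sub_cancel_left] at hc2
  norm_num at hc2
  linarith

lemma gapY (h0 : ∀ u, HasDerivAt y0 (y1 u) u) (h1 : ∀ u, HasDerivAt y1 (y2 u) u)
    (h2 : ∀ u, HasDerivAt y2 (y3 u) u)
    (ode : ∀ u, y3 u = -exp u * y0 u + ε * exp u * y1 u)
    (hε : 0 < ε) (hε1 : ε ≤ 1 / 120) {α : ℝ} (hx : ε * exp α ≤ 1 / 4) (h1α : 1 ≤ exp α)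
    (hα : y0 α = 0) : ∃ β ∈ Ioc α (α + 4), y0 β = 0 := by
  by_contra hcon
  push Not at hcon
  have hcont : Continuous y0 := continuous_iff_continuousAt.mpr (fun u => (h0 u).continuousAt)
  have hend := hcon (α + 4) ⟨by linarith, le_refl _⟩
  rcases lt_or_gt_of_ne hend with h | h
  · apply gapY_pos (y0 := fun u => -y0 u) (y1 := fun u => -y1 u) (y2 := fun u => -y2 u)
      (y3 := fun u => -y3 u) (ε := ε) (α := α) (fun u => (h0 u).neg) (fun u => (h1 u).neg)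
      (fun u => (h2 u).neg) (fun u => by rw [ode u]; ring) hε hε1 hx h1α (by rw [hα]; simp)
    intro u hu
    by_contra h3
    push Not at h3
    have h4 : 0 ≤ y0 u := by linarith
    have h5 : (0 : ℝ) ∈ Icc (y0 (α + 4)) (y0 u) := ⟨h.le, h4⟩
    obtain ⟨w, hw, hw2⟩ := intermediate_value_Icc' hu.2 hcont.continuousOn h5
    exact hcon w ⟨by linarith [hu.1, hw.1], hw.2⟩ hw2
  · apply gapY_pos h0 h1 h2 ode hε hε1 hx h1α hα
    intro u hu
    by_contra h3
    push Not at h3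
    have h5 : (0 : ℝ) ∈ Icc (y0 u) (y0 (α + 4)) := ⟨h3, h.le⟩
    obtain ⟨w, hw, hw2⟩ := intermediate_value_Icc hu.2 hcont.continuousOn h5
    exact hcon w ⟨by linarith [hu.1, hw.1], hw.2⟩ hw2

theorem recordW (h0 : ∀ u, HasDerivAt y0 (y1 u) u) (h1 : ∀ u, HasDerivAt y1 (y2 u) u)
    (h2 : ∀ u, HasDerivAt y2 (y3 u) u)
    (ode : ∀ u, y3 u = -exp u * y0 u + ε * exp u * y1 u)
    (hε : 0 < ε) (hε1 : ε ≤ 1 / 120) (hlow : ∀ u, y0 u = 0 → 1 ≤ exp u) {W : ℝ → ℝ}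
    (hW : ∀ u, W u = y2 u - ε * exp u * y0 u) (hWd : ∀ u, HasDerivAt W (-(1 + ε) * exp u * y0 u) u)
    (hlim : Tendsto W atBot (𝓝 0)) {l : ℝ} (hl : y0 l = 0) :
    ∀ c ≤ l, |W c| ≤ |W l| := by
  by_contra hcon
  push Not at hcon
  obtain ⟨c, hcl, hc⟩ := hcon
  have hcsq : W l ^ 2 < W c ^ 2 := sq_lt_sq.mpr hc
  have hcont : Continuous W := continuous_iff_continuousAt.mpr (fun u => (hWd u).continuousAt)
  have hcf : Continuous (fun u => W u ^ 2) := hcont.pow 2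
  have hcpos : 0 < W c ^ 2 := lt_of_le_of_lt (sq_nonneg _) hcsq
  have hev : ∀ᶠ u in atBot, W u ^ 2 < W c ^ 2 := by
    have h3 := hlim.pow 2
    rw [zero_pow (by norm_num)] at h3
    exact h3.eventually (gt_mem_nhds hcpos)
  obtain ⟨L, hL1, hL2⟩ := (hev.and (eventually_lt_atBot c)).exists
  have hLl : L < l := lt_of_lt_of_le hL2 hcl
  have hK : IsCompact (Icc L l) := isCompact_Icc
  obtain ⟨x0, hx0, hmax⟩ := hK.exists_isMaxOn ⟨L, left_mem_Icc.mpr hLl.le⟩ hcf.continuousOn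
  have hS : IsCompact (Icc L l ∩ (fun u => W u ^ 2) ⁻¹' {W x0 ^ 2}) :=
    hK.inter_right (isClosed_singleton.preimage hcf)
  obtain ⟨u0, hu0, hgr⟩ := hS.exists_isGreatest ⟨x0, hx0, rfl⟩
  have hu0K : u0 ∈ Icc L l := hu0.1
  have hu0M : W u0 ^ 2 = W x0 ^ 2 := hu0.2
  have hM : ∀ u ∈ Icc L l, W u ^ 2 ≤ W u0 ^ 2 := by
    intro u hu
    rw [hu0M]
    exact hmax hu
  have hin : ∀ u ∈ Icc L l, W u0 ^ 2 ≤ W u ^ 2 → u ≤ u0 := by
    intro u hu h
    apply hgr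
    refine ⟨hu, ?_⟩
    have := hM u hu
    rw [mem_preimage, mem_singleton_iff, ← hu0M]
    exact le_antisymm this h
  have hcM : W c ^ 2 ≤ W u0 ^ 2 := hM c ⟨hL2.le, hcl⟩
  have hne1 : u0 ≠ L := by intro h; rw [h] at hcM; linarith
  have hne2 : u0 ≠ l := by intro h; rw [h] at hcM; linarith
  have hlt1 : L < u0 := lt_of_le_of_ne hu0K.1 (Ne.symm hne1)
  have hlt2 : u0 < l := lt_of_le_of_ne hu0K.2 hne2
  have hd : HasDerivAt (fun u => W u ^ 2) (2 * W u0 * (-(1 + ε) * exp u0 * y0 u0)) u0 := by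
    have := (hWd u0).pow 2
    refine HasDerivAt.congr_deriv this ?_
    simp
  have hloc : IsLocalMax (fun u => W u ^ 2) u0 := by
    have : Icc L l ∈ nhds u0 := Icc_mem_nhds hlt1 hlt2
    filter_upwards [this] with u hu
    exact hM u hu
  have hz := hloc.hasDerivAt_eq_zero hd
  have hW0 : W u0 ≠ 0 := by intro h; rw [h, zero_pow (by norm_num)] at hcM; linarith
  have hy0 : y0 u0 = 0 := by
    have h3 : (2 * W u0 * (-(1 + ε) * exp u0)) * y0 u0 = 0 := by linarith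
    rcases mul_eq_zero.mp h3 with h4 | h4
    · exfalso
      have h5 := exp_pos u0
      have h6 : 2 * W u0 * (-(1 + ε) * exp u0) ≠ 0 := by
        apply mul_ne_zero (mul_ne_zero two_ne_zero hW0)
        apply mul_ne_zero _ h5.ne'
        linarith
      exact h6 h4
    · exact h4
  have hWz : ∀ u, y0 u = 0 → W u = y2 u := by
    intro u hu; rw [hW u, hu]; ring
  rcases le_or_gt (1 / 4) (ε * exp u0) with hc3 | hc3
  · have := energyW_far h0 h1 h2 ode hε hlt2 hc3 hy0 hl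
    rw [← hWz _ hy0, ← hWz _ hl] at this
    linarith
  · rcases le_or_gt l (u0 + 4) with hc2 | hc2
    · have := energyW_near h0 h1 h2 ode hε hlt2 hc2 hy0 hl
      rw [← hWz _ hy0, ← hWz _ hl] at this
      linarith
    · obtain ⟨β, hβ, hβ0⟩ := gapY h0 h1 h2 ode hε hε1 hc3.le (hlow _ hy0) hy0
      have h5 := energyW_near h0 h1 h2 ode hε hβ.1 hβ.2 hy0 hβ0
      rw [← hWz _ hy0, ← hWz _ hβ0] at h5
      have := hin β ⟨by linarith [hβ.1, hu0K.1], by linarith [hβ.2]⟩ h5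
      linarith [hβ.1]

end Pool.Agent.X207.KM
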