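import Mathlib
import Pool.Agent.X207.KM2
import Pool.Agent.X207.KL3
import Pool.Agent.X207.KS6

set_option autoImplicit false

/-! Concrete form, and the integral with `t e^{1-t}`. -/

namespace Pool.Agent.X207.KM

open Filter Topology Pool.Agent.X207.KS

lemma yy_pos_of_nonpos {N : ℕ} (hN : 120 ≤ N) {u : ℝ} (hu : u ≤ 0) : 0 < yy N 0 u := by
  rw [yy_split (by omega)]
  set x := Real.exp u with hx
  have hx0 : 0 < x := Real.exp_pos u
  have hx1 : x ≤ 1 := by rw [hx]; exact Real.exp_le_one_iff.mpr hu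
  have ht := (abs_le.mp (tail_abs (N := N) (by omega) hx0.le (by linarith) (N - 3) 0 (by norm_num))).1
  have h1 := eps_pos hN
  have h2 := eps_le hN
  have h3 : -(1 / 216) ≤ bb N 3 := by
    rw [bb_three (by omega)]
    have : (1 - 1 / (N : ℝ)) * (1 - 2 * (1 / (N : ℝ))) ≤ 1 := by nlinarith
    linarith
  have h4 : 0.12 ≤ bb N 2 := by
    rw [bb_two (by omega)]
    linarith
  simp only [pow_zero, one_mul] at ht ⊢
  have h5 : 0.12 * x ^ 2 ≤ bb N 2 * x ^ 2 := by gcongr
  have h6 : -(1 / 216) * x ^ 3 ≤ bb N 3 * x ^ 3 := by gcongr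
  have h7 : x ^ 3 ≤ x ^ 2 := pow_le_pow_of_le_one hx0.le hx1 (by norm_num)
  have h8 : x ^ 4 ≤ x ^ 2 := pow_le_pow_of_le_one hx0.le hx1 (by norm_num)
  have h9 : 0 < x ^ 2 := by positivity
  linarith

/-- `W` -/
noncomputable def WM (N : ℕ) (u : ℝ) : ℝ :=
  -(1 + 1 / (N : ℝ)) * ∑ k ∈ Finset.range (N + 1), bb N k / ((k : ℝ) + 1) * Real.exp (((k : ℝ) + 1) * u)

lemma WM_eq {N : ℕ} (hN : 0 < N) (u : ℝ) :
    WM N u = yy N 2 u - 1 / (N : ℝ) * Real.exp u * yy N 0 u := by
  unfold WM yy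
  rw [Finset.mul_sum, Finset.mul_sum, Finset.sum_range_succ' (fun k => (k : ℝ) ^ 2 * bb N k * Real.exp (k * u)),
    Finset.sum_range_succ, Finset.sum_range_succ (fun k => 1 / (N : ℝ) * Real.exp u * _)]
  have hN' : (N : ℝ) ≠ 0 := by positivity
  have h1 : ∀ k ∈ Finset.range N, -(1 + 1 / (N : ℝ)) * (bb N k / ((k : ℝ) + 1) * Real.exp (((k : ℝ) + 1) * u)) =
      (((k + 1 : ℕ) : ℝ) ^ 2 * bb N (k + 1) * Real.exp (((k + 1 : ℕ) : ℝ) * u)) -
        (1 / (N : ℝ) * Real.exp u * ((k : ℝ) ^ 0 * bb N k * Real.exp (k * u))) := by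
    intro k hk
    have hk' : k ≤ N := (Finset.mem_range.mp hk).le
    have h2 := bb_succ hN hk'
    have h3 : Real.exp (((k + 1 : ℕ) : ℝ) * u) = Real.exp (k * u) * Real.exp u := by
      rw [← Real.exp_add]; congr 1; push_cast; ring
    have h4 : Real.exp (((k : ℝ) + 1) * u) = Real.exp (k * u) * Real.exp u := by
      rw [← Real.exp_add]; congr 1; ring
    rw [h3, h4]
    have hk1 : ((k : ℝ) + 1) ≠ 0 := by positivity
    have h5 : bb N (k + 1) = -(bb N k * (1 - 1 / (N : ℝ) * k)) / ((k : ℝ) + 1) ^ 3 := by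
      rw [← h2]; field_simp
    rw [h5]
    push_cast
    field_simp
    ring
  rw [Finset.sum_congr rfl h1, Finset.sum_sub_distrib]
  have h4 : Real.exp (((N : ℝ) + 1) * u) = Real.exp (N * u) * Real.exp u := by
    rw [← Real.exp_add]; congr 1; ring
  rw [h4]
  have h5 : ((N : ℝ) + 1) ≠ 0 := by positivity
  have h6 : -(1 + 1 / (N : ℝ)) * (bb N N / ((N : ℝ) + 1) * (Real.exp (N * u) * Real.exp u)) =
      -(1 / (N : ℝ) * Real.exp u * ((N : ℝ) ^ 0 * bb N N * Real.exp (N * u))) := by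
    field_simp
  have h7 : (((0 : ℕ) : ℝ) ^ 2 * bb N 0 * Real.exp (((0 : ℕ) : ℝ) * u)) = 0 := by simp
  rw [h6, h7]
  ring

lemma WM_deriv (N : ℕ) (u : ℝ) :
    HasDerivAt (WM N) (-(1 + 1 / (N : ℝ)) * Real.exp u * yy N 0 u) u := by
  unfold WM yy
  have h : HasDerivAt (fun u => ∑ k ∈ Finset.range (N + 1), bb N k / ((k : ℝ) + 1) *
      Real.exp (((k : ℝ) + 1) * u))
      (∑ k ∈ Finset.range (N + 1), bb N k * Real.exp (((k : ℝ) + 1) * u)) u := by
    apply HasDerivAt.fun_sum
    intro k _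
    have h1 : HasDerivAt (fun u : ℝ => ((k : ℝ) + 1) * u) ((k : ℝ) + 1) u := by
      simpa using (hasDerivAt_id u).const_mul ((k : ℝ) + 1)
    have h2 := (h1.exp).const_mul (bb N k / ((k : ℝ) + 1))
    refine HasDerivAt.congr_deriv h2 ?_
    have hk1 : ((k : ℝ) + 1) ≠ 0 := by positivity
    field_simp
  have h2 := h.const_mul (-(1 + 1 / (N : ℝ)))
  refine HasDerivAt.congr_deriv h2 ?_
  rw [mul_assoc, Finset.mul_sum (s := Finset.range (N + 1)) (a := Real.exp u)]
  congr 1
  apply Finset.sum_congr rfl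
  intro k _
  have h4 : Real.exp (((k : ℝ) + 1) * u) = Real.exp (k * u) * Real.exp u := by
    rw [← Real.exp_add]; congr 1; ring
  rw [h4, pow_zero]
  ring

lemma WM_tendsto (N : ℕ) : Tendsto (WM N) atBot (𝓝 0) := by
  unfold WM
  have h : Tendsto (fun u => ∑ k ∈ Finset.range (N + 1), bb N k / ((k : ℝ) + 1) *
      Real.exp (((k : ℝ) + 1) * u)) atBot (𝓝 (∑ k ∈ Finset.range (N + 1), bb N k / ((k : ℝ) + 1) * 0)) := by
    apply tendsto_finsetSum
    intro k _
    apply Tendsto.const_mul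
    apply Real.tendsto_exp_atBot.comp
    apply Tendsto.const_mul_atBot _ tendsto_id
    positivity
  have h2 := h.const_mul (-(1 + 1 / (N : ℝ)))
  simpa using h2

theorem WM_record {N : ℕ} (hN : 120 ≤ N) {l : ℝ} (hl : yy N 0 l = 0) :
    ∀ c ≤ l, |WM N c| ≤ |WM N l| := by
  refine recordW (yy_deriv N 0) (yy_deriv N 1) (yy_deriv N 2) (yy_ode (by omega)) (eps_pos hN)
    (eps_le hN) ?_ (fun u => WM_eq (by omega) u) (fun u => WM_deriv N u) (WM_tendsto N) hl
  intro u hu
  have : 0 < u := by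
    by_contra h
    push Not at h
    have := yy_pos_of_nonpos hN h
    linarith
  exact Real.one_le_exp this.le

/-- sign relation at the zeros -/
theorem WM_sign {N : ℕ} (hN : 120 ≤ N) {l : ℝ} (hl : yy N 0 l = 0) : 0 < WM N l * yy N 1 l := by
  have hrec := WM_record hN hl
  have hy1 : yy N 1 l ≠ 0 := by
    intro h
    have := (yy_record hN h).1
    rw [hl, abs_zero] at this
    linarith
  have hN' : (0 : ℝ) < N := by
    have : 0 < N := by omega
    exact_mod_cast this
  have gen : ∀ s : ℝ, (s = 1 ∨ s = -1) → 0 < s * yy N 1 l → 0 < s * WM N l := by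
    intro s hs hsy
    have hcont1 : Continuous (yy N 1) := continuous_iff_continuousAt.mpr
      (fun u => (yy_deriv N 1 u).continuousAt)
    have hnb : ∀ᶠ u in 𝓝 l, 0 < s * yy N 1 u :=
      ((hcont1.const_smul s).continuousAt (x := l)).eventually (lt_mem_nhds hsy)
    obtain ⟨δ, hδ, hball⟩ := Metric.eventually_nhds_iff.mp hnb
    have hin : ∀ u ∈ Set.Icc (l - δ / 2) l, 0 < s * yy N 1 u := by
      intro u hu
      apply hball
      rw [Real.dist_eq, abs_lt]
      constructor <;> linarith [hu.1, hu.2]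
    have hneg : ∀ u ∈ Set.Ico (l - δ / 2) l, s * yy N 0 u < 0 := by
      intro u hu
      have := Pool.Agent.X207.KL.lt_of_deriv_pos (f := fun w => s * yy N 0 w) (f' := fun w => s * yy N 1 w) hu.2
        (fun w _ => (yy_deriv N 0 w).const_mul s) (fun w hw => hin w ⟨hu.1.trans hw.1, hw.2⟩)
      simp only [hl, mul_zero] at this
      exact this
    have hlt : s * WM N (l - δ / 2) < s * WM N l := by
      obtain ⟨c, hc, hc2⟩ := exists_hasDerivAt_eq_slope (fun w => s * WM N w)
        (fun w => s * (-(1 + 1 / (N : ℝ)) * Real.exp w * yy N 0 w)) (show l - δ / 2 < l by linarith)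
        (fun u _ => ((WM_deriv N u).const_mul s).continuousAt.continuousWithinAt)
        (fun u _ => (WM_deriv N u).const_mul s)
      have h3 := hneg c ⟨hc.1.le, hc.2⟩
      have h4 : 0 < s * (-(1 + 1 / (N : ℝ)) * Real.exp c * yy N 0 c) := by
        have h5 : 0 < (1 + 1 / (N : ℝ)) * Real.exp c := by
          have := Real.exp_pos c
          positivity
        have e : s * (-(1 + 1 / (N : ℝ)) * Real.exp c * yy N 0 c) =
            ((1 + 1 / (N : ℝ)) * Real.exp c) * -(s * yy N 0 c) := by ring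
        rw [e]
        exact mul_pos h5 (by linarith)
      rw [hc2] at h4
      have h5 := (div_pos_iff_of_pos_right (show 0 < l - (l - δ / 2) by linarith)).mp h4
      linarith
    by_contra hcon
    push Not at hcon
    have h6 := hrec (l - δ / 2) (by linarith)
    have ha : ∀ x : ℝ, |x| = |s * x| := by
      intro x; rcases hs with rfl | rfl <;> simp
    rw [ha (WM N (l - δ / 2)), ha (WM N l), abs_of_nonpos hcon,
      abs_of_neg (lt_of_lt_of_le hlt hcon)] at h6
    linarith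
  rcases lt_or_gt_of_ne hy1 with h | h
  · have := gen (-1) (Or.inr rfl) (by linarith)
    nlinarith
  · have := gen 1 (Or.inl rfl) (by linarith)
    nlinarith

end Pool.Agent.X207.KM
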