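import Mathlib
import Pool.Agent.X207.KM3

set_option autoImplicit false

/-! The integral with `t e^{1-t}`. -/

namespace Pool.Agent.X207.KM

open Filter Topology MeasureTheory Set Pool.Agent.X207.KS

lemma le_of_deriv_nonpos' {f f' : ℝ → ℝ} {a b : ℝ} (hab : a ≤ b) (hc : ContinuousOn f (Icc a b))
    (hf : ∀ u ∈ Ioo a b, HasDerivAt f (f' u) u) (h : ∀ u ∈ Ioo a b, f' u ≤ 0) : f b ≤ f a := by
  rcases eq_or_lt_of_le hab with he | hab
  · rw [he]
  obtain ⟨c, hc, hc2⟩ := exists_hasDerivAt_eq_slope f f' hab hc hf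
  have h1 := h c hc
  rw [hc2] at h1
  have h2 : 0 < b - a := sub_pos.mpr hab
  by_contra h4
  push Not at h4
  have := div_pos (show 0 < f b - f a by linarith) h2
  linarith

/-- polynomial forms -/
noncomputable def Wp (N : ℕ) (x : ℝ) : ℝ :=
  -(1 + 1 / (N : ℝ)) * ∑ k ∈ Finset.range (N + 1), bb N k / ((k : ℝ) + 1) * x ^ (k + 1)

noncomputable def Yp (N : ℕ) (x : ℝ) : ℝ := ∑ k ∈ Finset.range (N + 1), bb N k * x ^ k

lemma Wp_deriv (N : ℕ) (x : ℝ) : HasDerivAt (Wp N) (-(1 + 1 / (N : ℝ)) * Yp N x) x := by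
  unfold Wp Yp
  apply HasDerivAt.const_mul
  apply HasDerivAt.fun_sum
  intro k _
  have h1 := (hasDerivAt_pow (k + 1) x).const_mul (bb N k / ((k : ℝ) + 1))
  refine HasDerivAt.congr_deriv h1 ?_
  have hk1 : ((k : ℝ) + 1) ≠ 0 := by positivity
  push_cast
  field_simp
  try simp

lemma Wp_exp (N : ℕ) (u : ℝ) : Wp N (Real.exp u) = WM N u := by
  unfold Wp WM
  congr 1
  apply Finset.sum_congr rfl
  intro k _
  rw [← Real.exp_nat_mul]
  push_cast
  rfl

lemma Wp_zero (N : ℕ) : Wp N 0 = 0 := by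
  unfold Wp
  simp

/-- the profile -/
noncomputable def ps (t : ℝ) : ℝ := t * Real.exp (1 - t)

lemma ps_le_one (t : ℝ) : ps t ≤ 1 := by
  unfold ps
  have h1 : t ≤ Real.exp (t - 1) := by
    have := Real.add_one_le_exp (t - 1)
    linarith
  have h2 : Real.exp (t - 1) * Real.exp (1 - t) = 1 := by
    rw [← Real.exp_add]; simp
  calc t * Real.exp (1 - t) ≤ Real.exp (t - 1) * Real.exp (1 - t) := by
        gcongr
    _ = 1 := h2

lemma ps_nonneg {t : ℝ} (ht : 0 ≤ t) : 0 ≤ ps t := by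
  unfold ps; positivity

lemma ps_deriv (t : ℝ) : HasDerivAt ps (Real.exp (1 - t) * (1 - t)) t := by
  unfold ps
  have h1 : HasDerivAt (fun t : ℝ => 1 - t) (-1) t := by
    simpa using (hasDerivAt_id t).const_sub 1
  have := (hasDerivAt_id t).mul h1.exp
  refine HasDerivAt.congr_deriv this ?_
  simp
  ring

lemma ps_one : ps 1 = 1 := by simp [ps]

section main

variable {N : ℕ} {l s : ℝ}

/-- the integrand -/
noncomputable def fI (N : ℕ) (l t : ℝ) : ℝ := Yp N (Real.exp l * ps t) * Real.exp (-t)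

/-- the quotient -/
noncomputable def GI (N : ℕ) (l t : ℝ) : ℝ := (Wp N (Real.exp l * ps t) - Wp N (Real.exp l)) / (1 - t)

lemma gW_deriv (N : ℕ) (l t : ℝ) : HasDerivAt (fun t => Wp N (Real.exp l * ps t))
    (-(1 + 1 / (N : ℝ)) * Yp N (Real.exp l * ps t) * (Real.exp l * (Real.exp (1 - t) * (1 - t)))) t :=
  HasDerivAt.comp (h₂ := Wp N) (h := fun t => Real.exp l * ps t) t (Wp_deriv N (Real.exp l * ps t))
    ((ps_deriv t).const_mul (Real.exp l))

lemma GI_continuous_one (N : ℕ) (l : ℝ) : ContinuousAt (GI N l) 1 := by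
  rw [continuousAt_iff_punctured_nhds]
  have h1 := gW_deriv N l 1
  have h2 : GI N l 1 = 0 := by simp [GI]
  rw [h2]
  rw [hasDerivAt_iff_tendsto_slope] at h1
  simp only [sub_self, mul_zero] at h1
  have h3 := h1.neg
  rw [neg_zero] at h3
  refine h3.congr' ?_
  filter_upwards [self_mem_nhdsWithin] with t ht
  have ht1 : t ≠ 1 := ht
  rw [slope_def_field, ps_one, mul_one]
  unfold GI
  have h4 : t - 1 ≠ 0 := sub_ne_zero.mpr ht1
  have h5 : 1 - t ≠ 0 := sub_ne_zero.mpr (Ne.symm ht1)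
  field_simp
  ring

lemma GI_deriv (N : ℕ) (l : ℝ) {t : ℝ} (ht : t ≠ 1) : HasDerivAt (GI N l)
    (-(1 + 1 / (N : ℝ)) * Yp N (Real.exp l * ps t) * (Real.exp l * Real.exp (1 - t)) +
      (Wp N (Real.exp l * ps t) - Wp N (Real.exp l)) / (1 - t) ^ 2) t := by
  have h1 : HasDerivAt (fun t : ℝ => 1 - t) (-1) t := by
    simpa using (hasDerivAt_id t).const_sub 1
  have h5 : 1 - t ≠ 0 := sub_ne_zero.mpr (Ne.symm ht)
  have := ((gW_deriv N l t).sub_const (Wp N (Real.exp l))).div h1 h5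
  refine HasDerivAt.congr_deriv this ?_
  field_simp
  ring

lemma GI_continuousAt (N : ℕ) (l t : ℝ) : ContinuousAt (GI N l) t := by
  by_cases h : t = 1
  · rw [h]; exact GI_continuous_one N l
  · exact (GI_deriv N l h).continuousAt

lemma fI_continuous (N : ℕ) (l : ℝ) : Continuous (fI N l) := by
  unfold fI Yp ps
  fun_prop

lemma key_bound (hN : 120 ≤ N) (hl : yy N 0 l = 0) (hs : s = 1 ∨ s = -1) (hsW : 0 < s * WM N l)
    {t : ℝ} (ht : 0 ≤ t) : s * Wp N (Real.exp l * ps t) ≤ s * Wp N (Real.exp l) := by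
  rw [Wp_exp]
  have habs : |WM N l| = s * WM N l := by
    rw [← abs_of_pos hsW, abs_mul]
    rcases hs with rfl | rfl <;> simp
  rcases eq_or_lt_of_le (ps_nonneg ht) with h | h
  · rw [← h, mul_zero, Wp_zero, mul_zero]; exact hsW.le
  · have e : Real.exp l * ps t = Real.exp (l + Real.log (ps t)) := by
      rw [Real.exp_add, Real.exp_log h]
    rw [e, Wp_exp]
    have h1 : Real.log (ps t) ≤ 0 := Real.log_nonpos (ps_nonneg ht) (ps_le_one t)
    have h2 := WM_record hN hl (l + Real.log (ps t)) (by linarith)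
    rw [habs] at h2
    refine le_trans ?_ h2
    rcases hs with rfl | rfl
    · rw [one_mul]; exact le_abs_self _
    · rw [neg_one_mul]; exact neg_le_abs _

lemma Phi_le (hN : 120 ≤ N) (hl : yy N 0 l = 0) (hs : s = 1 ∨ s = -1) (hsW : 0 < s * WM N l)
    {T : ℝ} (hT : 1 ≤ T) :
    (1 + 1 / (N : ℝ)) * Real.exp l * Real.exp 1 * (s * ∫ t in (0 : ℝ)..T, fI N l t) + s * GI N l T ≤
      -(s * WM N l) := by
  set c0 := (1 + 1 / (N : ℝ)) * Real.exp l * Real.exp 1 with hc0
  set Φ : ℝ → ℝ := fun T => c0 * (s * ∫ t in (0 : ℝ)..T, fI N l t) + s * GI N l T with hΦ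
  have hPd : ∀ T, HasDerivAt (fun T => ∫ t in (0 : ℝ)..T, fI N l t) (fI N l T) T := fun T =>
    ((fI_continuous N l).integral_hasStrictDerivAt 0 T).hasDerivAt
  have hcont : Continuous Φ := by
    rw [continuous_iff_continuousAt]
    intro t
    exact ((((hPd t).const_mul s).const_mul c0).continuousAt).add
      ((GI_continuousAt N l t).const_mul s)
  have hd : ∀ t, t ≠ 1 → HasDerivAt Φ (c0 * (s * fI N l t) + s *
      (-(1 + 1 / (N : ℝ)) * Yp N (Real.exp l * ps t) * (Real.exp l * Real.exp (1 - t)) +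
      (Wp N (Real.exp l * ps t) - Wp N (Real.exp l)) / (1 - t) ^ 2)) t := fun t ht =>
    (((hPd t).const_mul s).const_mul c0).add ((GI_deriv N l ht).const_mul s)
  have hneg : ∀ t, 0 ≤ t → c0 * (s * fI N l t) + s *
      (-(1 + 1 / (N : ℝ)) * Yp N (Real.exp l * ps t) * (Real.exp l * Real.exp (1 - t)) +
      (Wp N (Real.exp l * ps t) - Wp N (Real.exp l)) / (1 - t) ^ 2) ≤ 0 := by
    intro t ht
    have h1 : Real.exp (1 - t) = Real.exp 1 * Real.exp (-t) := by rw [← Real.exp_add]; congr 1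
    have h2 : c0 * (s * fI N l t) + s *
      (-(1 + 1 / (N : ℝ)) * Yp N (Real.exp l * ps t) * (Real.exp l * Real.exp (1 - t)) +
      (Wp N (Real.exp l * ps t) - Wp N (Real.exp l)) / (1 - t) ^ 2) =
      (s * Wp N (Real.exp l * ps t) - s * Wp N (Real.exp l)) / (1 - t) ^ 2 := by
      rw [h1, hc0]
      unfold fI
      ring
    rw [h2]
    apply div_nonpos_of_nonpos_of_nonneg _ (sq_nonneg _)
    linarith [key_bound hN hl hs hsW ht]
  have h1 : Φ 1 ≤ Φ 0 := le_of_deriv_nonpos' (by norm_num) hcont.continuousOn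
    (fun u hu => hd u hu.2.ne) (fun u hu => hneg u hu.1.le)
  have h2 : Φ T ≤ Φ 1 := le_of_deriv_nonpos' hT hcont.continuousOn
    (fun u hu => hd u hu.1.ne') (fun u hu => hneg u (by linarith [hu.1]))
  have h3 : Φ 0 = -(s * WM N l) := by
    rw [hΦ]
    simp only [intervalIntegral.integral_same, mul_zero, zero_add]
    unfold GI
    have : ps 0 = 0 := by simp [ps]
    rw [this, mul_zero, Wp_zero, Wp_exp]
    simp
  rw [h3] at h1
  exact h2.trans h1

lemma GI_tendsto (hN : 120 ≤ N) (hl : yy N 0 l = 0) (hs : s = 1 ∨ s = -1) (hsW : 0 < s * WM N l) :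
    Tendsto (GI N l) atTop (𝓝 0) := by
  have h1 : Tendsto (fun t : ℝ => (2 * |Wp N (Real.exp l)|) * (t - 1)⁻¹) atTop (𝓝 0) := by
    have h2 : Tendsto (fun t : ℝ => t - 1) atTop atTop := tendsto_atTop_add_const_right _ _ tendsto_id
    have h3 := (tendsto_inv_atTop_zero.comp h2).const_mul (2 * |Wp N (Real.exp l)|)
    simpa [Function.comp_def] using h3
  apply squeeze_zero_norm' _ h1
  filter_upwards [eventually_gt_atTop 1] with t ht
  unfold GI
  rw [norm_div, Real.norm_eq_abs, Real.norm_eq_abs, abs_sub_comm 1 t, abs_of_pos (show 0 < t - 1 by linarith),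
    div_eq_mul_inv]
  have ht1 : 0 < (t - 1)⁻¹ := inv_pos.mpr (by linarith)
  apply mul_le_mul_of_nonneg_right _ ht1.le
  have h3 : |Wp N (Real.exp l * ps t)| ≤ |Wp N (Real.exp l)| := by
    rw [Wp_exp]
    have ht0 : 0 ≤ t := by linarith
    rcases eq_or_lt_of_le (ps_nonneg ht0) with h | h
    · rw [← h, mul_zero, Wp_zero, abs_zero]; exact abs_nonneg _
    · have e : Real.exp l * ps t = Real.exp (l + Real.log (ps t)) := by
        rw [Real.exp_add, Real.exp_log h]
      rw [e, Wp_exp]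
      have h1 : Real.log (ps t) ≤ 0 := Real.log_nonpos (ps_nonneg ht0) (ps_le_one t)
      exact WM_record hN hl (l + Real.log (ps t)) (by linarith)
  calc |Wp N (Real.exp l * ps t) - Wp N (Real.exp l)| ≤ |Wp N (Real.exp l * ps t)| + |Wp N (Real.exp l)| :=
        abs_sub _ _
    _ ≤ _ := by linarith

lemma mom_integral (k : ℕ) : IntegrableOn (fun t => ps t ^ k * Real.exp (-t)) (Ioi 0) ∧
    ∫ t in Ioi (0 : ℝ), ps t ^ k * Real.exp (-t) =
      Real.exp 1 ^ k * ((Nat.factorial k : ℝ) / ((k : ℝ) + 1) ^ (k + 1)) := by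
  have h1 := Real.integral_rpow_mul_exp_neg_mul_Ioi (a := (k : ℝ) + 1) (r := (k : ℝ) + 1)
    (by positivity) (by positivity)
  have h2 : ∀ t ∈ Ioi (0 : ℝ), ps t ^ k * Real.exp (-t) =
      Real.exp 1 ^ k * (t ^ ((k : ℝ) + 1 - 1) * Real.exp (-(((k : ℝ) + 1) * t))) := by
    intro t ht
    unfold ps
    rw [mul_pow, add_sub_cancel_right, Real.rpow_natCast]
    have h3 : Real.exp (1 - t) ^ k * Real.exp (-t) = Real.exp 1 ^ k * Real.exp (-(((k : ℝ) + 1) * t)) := by
      rw [← Real.exp_nat_mul, ← Real.exp_nat_mul, ← Real.exp_add, ← Real.exp_add]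
      congr 1
      ring
    rw [mul_assoc, h3]
    ring
  have h4 : ∫ t in Ioi (0 : ℝ), ps t ^ k * Real.exp (-t) =
      Real.exp 1 ^ k * ((Nat.factorial k : ℝ) / ((k : ℝ) + 1) ^ (k + 1)) := by
    rw [setIntegral_congr_fun measurableSet_Ioi h2, integral_const_mul, h1]
    congr 1
    rw [Real.Gamma_nat_eq_factorial]
    have : (1 / ((k : ℝ) + 1)) ^ ((k : ℝ) + 1) = 1 / ((k : ℝ) + 1) ^ (k + 1) := by
      have e : ((k : ℝ) + 1) = ((k + 1 : ℕ) : ℝ) := by push_cast; rfl
      conv_lhs => rw [show (1 / ((k : ℝ) + 1)) ^ ((k : ℝ) + 1) = (1 / ((k : ℝ) + 1)) ^ (((k + 1 : ℕ) : ℝ)) by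
        rw [← e]]
      rw [Real.rpow_natCast, div_pow, one_pow]
    rw [this]
    ring
  refine ⟨?_, h4⟩
  by_contra hcon
  have h5 := integral_undef hcon
  rw [h4] at h5
  have : 0 < Real.exp 1 ^ k * ((Nat.factorial k : ℝ) / ((k : ℝ) + 1) ^ (k + 1)) := by positivity
  linarith

lemma fI_integral (N : ℕ) (l : ℝ) : IntegrableOn (fI N l) (Ioi 0) ∧
    ∫ t in Ioi (0 : ℝ), fI N l t = ∑ k ∈ Finset.range (N + 1),
      ((Nat.factorial k : ℝ) / ((k : ℝ) + 1) ^ (k + 1)) * bb N k * Real.exp (k * (l + 1)) := by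
  have e : fI N l = fun t => ∑ k ∈ Finset.range (N + 1), (bb N k * Real.exp l ^ k) *
      (ps t ^ k * Real.exp (-t)) := by
    funext t
    unfold fI Yp
    rw [Finset.sum_mul]
    apply Finset.sum_congr rfl
    intro k _
    rw [mul_pow]; ring
  have hint : ∀ k ∈ Finset.range (N + 1), Integrable (fun t => (bb N k * Real.exp l ^ k) *
      (ps t ^ k * Real.exp (-t))) (volume.restrict (Ioi 0)) :=
    fun k _ => (mom_integral k).1.const_mul _
  rw [e]
  constructor
  · exact integrable_finsetSum _ hint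
  · rw [integral_finsetSum _ hint]
    apply Finset.sum_congr rfl
    intro k _
    rw [integral_const_mul, (mom_integral k).2]
    have : Real.exp (k * (l + 1)) = Real.exp l ^ k * Real.exp 1 ^ k := by
      rw [← Real.exp_nat_mul, ← Real.exp_nat_mul, ← Real.exp_add]; congr 1; ring
    rw [this]
    ring

theorem int_sign (hN : 120 ≤ N) (hl : yy N 0 l = 0) :
    (∑ k ∈ Finset.range (N + 1), ((Nat.factorial k : ℝ) / ((k : ℝ) + 1) ^ (k + 1)) * bb N k *
      Real.exp (k * (l + 1))) * yy N 1 l < 0 := by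
  obtain ⟨hi, hI⟩ := fI_integral N l
  have hsgn := WM_sign hN hl
  have hN' : (0 : ℝ) < N := by
    have : 0 < N := by omega
    exact_mod_cast this
  have gen : ∀ s : ℝ, (s = 1 ∨ s = -1) → 0 < s * WM N l → s * ∫ t in Ioi (0 : ℝ), fI N l t < 0 := by
    intro s hs hsW
    set c0 := (1 + 1 / (N : ℝ)) * Real.exp l * Real.exp 1 with hc0
    have hc0pos : 0 < c0 := by
      have := Real.exp_pos l
      have := Real.exp_pos 1
      positivity
    have h1 := intervalIntegral_tendsto_integral_Ioi 0 hi tendsto_id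
    have h2 := ((h1.const_mul s).const_mul c0).add ((GI_tendsto hN hl hs hsW).const_mul s)
    rw [mul_zero, add_zero] at h2
    have h3 : c0 * (s * ∫ t in Ioi (0 : ℝ), fI N l t) ≤ -(s * WM N l) := by
      apply le_of_tendsto h2
      filter_upwards [eventually_ge_atTop 1] with T hT
      exact Phi_le hN hl hs hsW hT
    by_contra hcon
    push Not at hcon
    have := mul_nonneg hc0pos.le hcon
    linarith
  rw [← hI]
  have hne : WM N l ≠ 0 := by intro h; rw [h, zero_mul] at hsgn; exact lt_irrefl _ hsgn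
  rcases lt_or_gt_of_ne hne with h | h
  · have h1 := gen (-1) (Or.inr rfl) (by linarith)
    have h2 : yy N 1 l < 0 := by nlinarith
    nlinarith
  · have h1 := gen 1 (Or.inl rfl) (by linarith)
    have h2 : 0 < yy N 1 l := by nlinarith
    nlinarith

end main

end Pool.Agent.X207.KM
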