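import Mathlib
import Pool.Agent.X207.KM4
import Pool.Agent.X207.KL1

set_option autoImplicit false

/-! Real-rootedness and the multiplier property. -/

namespace Pool.Agent.X207.KM

open Polynomial Filter Topology Pool.Agent.X207.KS Pool.Agent.H635Z

/-- the moments -/
noncomputable def gm (k : ℕ) : ℝ := (Nat.factorial k : ℝ) / ((k : ℝ) + 1) ^ (k + 1)

lemma gm_pos (k : ℕ) : 0 < gm k := by unfold gm; positivity

/-- the modified polynomial -/
noncomputable def HM (N : ℕ) : ℝ[X] :=
  ∑ k ∈ Finset.range (N + 1), monomial k (gm k * bb N k)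

lemma HM_coeff (N : ℕ) (k : ℕ) : (HM N).coeff k = gm k * bb N k := by
  unfold HM
  rw [finsetSum_coeff]
  simp only [coeff_monomial]
  rw [Finset.sum_ite_eq']
  split_ifs with h
  · rfl
  · rw [bb_gt (by simpa using h), mul_zero]

lemma HM_natDegree (N : ℕ) : (HM N).natDegree ≤ N := by
  rw [natDegree_le_iff_coeff_eq_zero]
  intro k hk
  rw [HM_coeff, bb_gt hk, mul_zero]

lemma bb_sign (N k : ℕ) : bb N k = (-1) ^ k * ((1 / (N : ℝ)) ^ k *
    ((Nat.choose N k : ℝ) / (Nat.factorial k : ℝ) / (Nat.factorial k : ℝ))) := by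
  unfold bb
  rw [← mul_assoc, ← mul_pow]
  congr 2
  ring

/-- positivity on the negative axis -/
lemma pos_of_nonpos (P : ℝ[X]) (g : ℕ → ℝ) (N : ℕ) (hd : P.natDegree ≤ N) (hg : ∀ k, 0 ≤ g k) (hg0 : 0 < g 0)
    (hc : ∀ k, P.coeff k = g k * bb N k) {x : ℝ} (hx : x ≤ 0) : 0 < P.eval x := by
  rw [eval_eq_sum_range' (by omega : P.natDegree < N + 1), Finset.sum_range_succ']
  have h0 : P.coeff 0 * x ^ 0 = g 0 := by rw [hc, bb_zero]; simp
  rw [h0]
  have h1 : 0 ≤ ∑ k ∈ Finset.range N, P.coeff (k + 1) * x ^ (k + 1) := by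
    apply Finset.sum_nonneg
    intro k _
    rw [hc, bb_sign]
    have e : g (k + 1) * ((-1) ^ (k + 1) * ((1 / (N : ℝ)) ^ (k + 1) *
        ((Nat.choose N (k + 1) : ℝ) / (Nat.factorial (k + 1) : ℝ) / (Nat.factorial (k + 1) : ℝ)))) * x ^ (k + 1) =
        g (k + 1) * ((1 / (N : ℝ)) ^ (k + 1) *
        ((Nat.choose N (k + 1) : ℝ) / (Nat.factorial (k + 1) : ℝ) / (Nat.factorial (k + 1) : ℝ))) * (-x) ^ (k + 1) := by
      rw [neg_pow x]; ring
    rw [e]
    have h2 : 0 ≤ -x := by linarith
    have := hg (k + 1)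
    positivity
  linarith

lemma HM_eval (N : ℕ) (l : ℝ) : (HM N).eval (Real.exp (l + 1)) =
    ∑ k ∈ Finset.range (N + 1), ((Nat.factorial k : ℝ) / ((k : ℝ) + 1) ^ (k + 1)) * bb N k *
      Real.exp (k * (l + 1)) := by
  rw [eval_exp _ N (HM_natDegree N)]
  apply Finset.sum_congr rfl
  intro k _
  rw [HM_coeff]
  rfl

theorem HM_splits {N : ℕ} (hN : 120 ≤ N) : (HM N).Splits := by
  have hN0 : 0 < N := by omega
  have he : (0 : ℝ) < Real.exp (-1) := Real.exp_pos _
  set Q : ℝ[X] := (YP N).comp (C (Real.exp (-1)) * X) with hQ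
  have hQdeg : Q.natDegree = N := by
    rw [hQ, natDegree_comp, YP_natDegree hN0, natDegree_C_mul_X _ he.ne', mul_one]
  have hQ0 : Q ≠ 0 := by
    intro h
    rw [h, natDegree_zero] at hQdeg
    omega
  have key : (-(HM N)).Splits := by
    apply KL.criterion2 Q _ (scale_splits _ (YP_splits hN0) _ he.ne') hQ0
    · intro ξ hξ
      have h1 : (YP N).eval (Real.exp (-1) * ξ) = 0 := by
        rw [hQ, eval_comp] at hξ
        simpa using hξ
      have hpos' : 0 < Real.exp (-1) * ξ := by
        by_contra h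
        push Not at h
        have := pos_of_nonpos (YP N) (fun _ => 1) N (YP_natDegree hN0).le (fun _ => zero_le_one) one_pos
          (fun k => by rw [YP_coeff, one_mul]) h
        linarith
      have hpos : 0 < ξ := by
        by_contra h
        push Not at h
        have := mul_nonpos_of_nonneg_of_nonpos he.le h
        linarith
      set l := Real.log (Real.exp (-1) * ξ) with hl
      have hexp : Real.exp l = Real.exp (-1) * ξ := Real.exp_log hpos'
      have hexp1 : Real.exp (l + 1) = ξ := by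
        rw [Real.exp_add, hexp]
        have : Real.exp (-1) * Real.exp 1 = 1 := by rw [← Real.exp_add]; simp
        calc Real.exp (-1) * ξ * Real.exp 1 = (Real.exp (-1) * Real.exp 1) * ξ := by ring
          _ = ξ := by rw [this, one_mul]
      have hy0 : yy N 0 l = 0 := by rw [← YP_eval hN0, hexp, h1]
      have hs := int_sign hN hy0
      rw [← HM_eval, hexp1, ← YP_deriv_eval hN0, hexp] at hs
      have hQ' : (derivative Q).eval ξ = Real.exp (-1) * (derivative (YP N)).eval (Real.exp (-1) * ξ) := by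
        rw [hQ, derivative_comp]
        simp [eval_comp]
      rw [hQ', eval_neg]
      have e : (HM N).eval ξ * (Real.exp (-1) * ξ * (derivative (YP N)).eval (Real.exp (-1) * ξ)) =
        ξ * ((HM N).eval ξ * (Real.exp (-1) * (derivative (YP N)).eval (Real.exp (-1) * ξ))) := by ring
      rw [e] at hs
      have : (HM N).eval ξ * (Real.exp (-1) * (derivative (YP N)).eval (Real.exp (-1) * ξ)) < 0 := by
        by_contra h
        push Not at h
        have := mul_nonneg hpos.le h
        linarith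
      linarith
    · rw [natDegree_neg, hQdeg]
      exact HM_natDegree N
  have : HM N = C (-1) * (-(HM N)) := by simp
  rw [this]
  exact key.C_mul _

/-- the multiplier property -/
theorem multiplier (p : ℝ[X]) (hp : p.Splits) :
    (∑ k ∈ Finset.range (p.natDegree + 1),
      C (1 / (((k : ℝ) + 1) ^ (k + 1) * (Nat.factorial k : ℝ)) * p.coeff k) * X ^ k : ℝ[X]).Splits := by
  set N := p.natDegree + 120 with hNdef
  have hN : 0 < N := by omega
  have hHn := HM_splits (N := N) (by omega)
  have hpos : ∀ x : ℝ, x ≤ 0 → 0 < (HM N).eval x := fun x hx =>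
    pos_of_nonpos (HM N) gm N (HM_natDegree N) (fun k => (gm_pos k).le) (gm_pos 0) (fun k => HM_coeff N k) hx
  have h1 := comp_splits' N p (HM N) hp (by omega) hHn (by
    intro ρ hρ
    by_contra h
    push Not at h
    have h2 := hpos ρ h.le
    have h3 : (HM N).eval ρ = 0 := (mem_roots'.mp hρ).2
    linarith) (HM_natDegree N)
  have hN0 : (N : ℝ) ≠ 0 := by positivity
  have h2 := scale_splits _ h1 (N : ℝ) hN0
  have e : (∑ k ∈ Finset.range (p.natDegree + 1),
      C (1 / (((k : ℝ) + 1) ^ (k + 1) * (Nat.factorial k : ℝ)) * p.coeff k) * X ^ k : ℝ[X]) =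
      (H635Z.comp N p (HM N)).comp (C (N : ℝ) * X) := by
    ext k
    rw [scale_coeff]
    unfold H635Z.comp
    simp only [finsetSum_coeff, coeff_C_mul, coeff_X_pow, mul_ite, mul_one, mul_zero]
    rw [Finset.sum_ite_eq, Finset.sum_ite_eq]
    by_cases hk : k ≤ p.natDegree
    · rw [if_pos (by simp; omega), if_pos (by simp; omega), HM_coeff, bb_sign]
      have hc : (Nat.choose N k : ℝ) ≠ 0 := by
        exact_mod_cast (Nat.choose_pos (by omega)).ne'
      have hf : (Nat.factorial k : ℝ) ≠ 0 := by positivity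
      have hk1 : ((k : ℝ) + 1) ^ (k + 1) ≠ 0 := by positivity
      have hm : ((-1 : ℝ) ^ k) * (-1) ^ k = 1 := by rw [← mul_pow]; simp
      have e1 : (N : ℝ) ^ k * (p.coeff k * (gm k * ((-1) ^ k * ((1 / (N : ℝ)) ^ k *
          ((Nat.choose N k : ℝ) / (Nat.factorial k : ℝ) / (Nat.factorial k : ℝ))))) * (-1) ^ k / (Nat.choose N k : ℝ)) =
          (((-1 : ℝ) ^ k) * (-1) ^ k) * ((N : ℝ) ^ k * (1 / (N : ℝ)) ^ k) *
            (p.coeff k * gm k / (Nat.factorial k : ℝ) / (Nat.factorial k : ℝ)) := by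
        field_simp
      rw [e1, hm, ← mul_pow]
      have e2 : (N : ℝ) * (1 / (N : ℝ)) = 1 := by field_simp
      rw [e2, one_pow]
      unfold gm
      field_simp
    · rw [if_neg (by simp; omega)]
      rw [coeff_eq_zero_of_natDegree_lt (by omega : p.natDegree < k)]
      simp
  rw [e]
  exact h2

end Pool.Agent.X207.KM
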