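import Pool.Agent.X184.SS.Stm

/-! Part SS_DEC of the project SS (helper184). -/

set_option autoImplicit false

namespace Pool.Agent.X207.SSDEC

open Finset Pool.Agent.X184.SS

theorem t_DEC : S_DEC := by
  intro n
  induction n with
  | zero =>
    intro F hF
    obtain ⟨k, G, hG, _, hFG, hk⟩ := hF
    rcases F.eq_empty_or_nonempty with hF0 | hF0
    · refine ⟨∅, ?_, fun _ => ∅, ?_, ?_⟩
      · change (∅ : Finset ℕ).card ≤ 1
        simp
      · rw [hF0]; simp
      · intro h hh; simp at hh
    · have hcard : F.card ≤ k := by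
        rw [hFG]
        refine (Finset.card_biUnion_le).trans ?_
        calc ∑ i, (G i).card ≤ ∑ _i : Fin k, 1 := Finset.sum_le_sum fun i _ => (hG i).2
          _ = k := by simp
      refine ⟨{F.min' hF0}, ?_, fun _ => F, ?_, ?_⟩
      · change ({F.min' hF0} : Finset ℕ).card ≤ 1
        simp
      · simp
      · intro h hh
        rw [Finset.mem_singleton] at hh
        subst hh
        exact ⟨F.min'_mem hF0, fun j hj => F.min'_le j hj, hcard.trans (hk _ (F.min'_mem hF0))⟩
  | succ n ih =>
    intro F hF
    obtain ⟨k, G, hG, hord, hFG, hk⟩ := hF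
    choose R hR H hGH hprop using fun i => ih (G i) (hG i).2
    have hRG : ∀ i, ∀ h ∈ R i, h ∈ G i := by
      intro i h hh
      rw [hGH i]
      exact Finset.mem_biUnion.2 ⟨h, hh, (hprop i h hh).1⟩
    have huniq : ∀ i j h, h ∈ R i → h ∈ R j → i = j := by
      intro i j h hi hj
      rcases lt_trichotomy i j with h1 | h1 | h1
      · exact absurd (hord i j h1 h (hRG i h hi) h (hRG j h hj)) (lt_irrefl _)
      · exact h1
      · exact absurd (hord j i h1 h (hRG j h hj) h (hRG i h hi)) (lt_irrefl _)
    have hFmem : ∀ i, ∀ a ∈ G i, a ∈ F := by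
      intro i a ha
      rw [hFG]
      exact Finset.mem_biUnion.2 ⟨i, Finset.mem_univ _, ha⟩
    refine ⟨univ.biUnion R, ⟨k, R, ?_, ?_, rfl, ?_⟩,
      fun h => univ.biUnion (fun i => if h ∈ R i then H i h else ∅), ?_, ?_⟩
    · intro i
      refine ⟨?_, hR i⟩
      obtain ⟨a, ha⟩ := (hG i).1
      rw [hGH i] at ha
      obtain ⟨h, hh, _⟩ := Finset.mem_biUnion.1 ha
      exact ⟨h, hh⟩
    · intro i j hij a ha b hb
      exact hord i j hij a (hRG i a ha) b (hRG j b hb)
    · intro a ha
      obtain ⟨i, _, hi⟩ := Finset.mem_biUnion.1 ha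
      exact hk a (hFmem i a (hRG i a hi))
    · ext a
      constructor
      · intro ha
        rw [hFG] at ha
        obtain ⟨i, _, hi⟩ := Finset.mem_biUnion.1 ha
        rw [hGH i] at hi
        obtain ⟨h, hh, hah⟩ := Finset.mem_biUnion.1 hi
        refine Finset.mem_biUnion.2 ⟨h, Finset.mem_biUnion.2 ⟨i, Finset.mem_univ _, hh⟩, ?_⟩
        refine Finset.mem_biUnion.2 ⟨i, Finset.mem_univ _, ?_⟩
        rw [if_pos hh]
        exact hah
      · intro ha
        obtain ⟨h, _, hah⟩ := Finset.mem_biUnion.1 ha
        obtain ⟨i, _, hi⟩ := Finset.mem_biUnion.1 hah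
        by_cases hhi : h ∈ R i
        · rw [if_pos hhi] at hi
          refine hFmem i a ?_
          rw [hGH i]
          exact Finset.mem_biUnion.2 ⟨h, hhi, hi⟩
        · rw [if_neg hhi] at hi
          simp at hi
    · intro h hh
      obtain ⟨i, _, hi⟩ := Finset.mem_biUnion.1 hh
      have hHi : (univ.biUnion (fun j => if h ∈ R j then H j h else ∅)) = H i h := by
        ext a
        constructor
        · intro ha
          obtain ⟨j, _, hj⟩ := Finset.mem_biUnion.1 ha
          by_cases hhj : h ∈ R j
          · rw [if_pos hhj] at hj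
            have := huniq i j h hi hhj
            subst this
            exact hj
          · rw [if_neg hhj] at hj
            simp at hj
        · intro ha
          refine Finset.mem_biUnion.2 ⟨i, Finset.mem_univ _, ?_⟩
          rw [if_pos hi]
          exact ha
      simp only [hHi]
      exact hprop i h hi

end Pool.Agent.X207.SSDEC
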