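import Mathlib

namespace Pool.Agent.X207.PU

open Matrix NormedSpace

section expconj
variable {E : Type*} [NormedRing E] [NormedAlgebra ℂ E] [CompleteSpace E]

theorem exp_apply_hasSum {F : Type*} [NormedAddCommGroup F] [NormedSpace ℂ F] [CompleteSpace F]
    (T : F →L[ℂ] F) (a : F) :
    HasSum (fun n : ℕ => ((n.factorial : ℂ)⁻¹) • (T ^ n) a) ((exp T) a) := by
  have h := exp_series_hasSum_exp' (𝕂 := ℂ) T
  have h2 := (ContinuousLinearMap.apply ℂ F a).hasSum h
  simpa using h2

theorem exp_conj_mem (X A : E) (W : Submodule ℂ E) (hW : IsClosed (W : Set E))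
    (hX : ∀ B ∈ W, X * B - B * X ∈ W) (hA : A ∈ W) :
    exp X * A * exp (-X) ∈ W := by
  let _ : NormedAlgebra ℚ E := NormedAlgebra.restrictScalars ℚ ℂ E
  let _ : NormedAlgebra ℚ (E →L[ℂ] E) := NormedAlgebra.restrictScalars ℚ ℂ (E →L[ℂ] E)
  set L : E →L[ℂ] E := ContinuousLinearMap.mul ℂ E X with hL
  set R : E →L[ℂ] E := (ContinuousLinearMap.mul ℂ E).flip (-X) with hR
  have hLa : ∀ b, L b = X * b := fun b => by simp [hL]
  have hRa : ∀ b, R b = b * (-X) := fun b => by simp [hR]
  have hcomm : Commute L R := by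
    ext b
    simp only [mul_apply_eq_comp, hLa, hRa, mul_assoc]
  have hexp : exp (L + R) = exp L * exp R := exp_add_of_commute hcomm
  have hLp : ∀ n b, (L ^ n) b = X ^ n * b := by
    intro n
    induction n with
    | zero => intro b; simp
    | succ n ih => intro b; rw [pow_succ, mul_apply_eq_comp, ih, hLa, pow_succ, mul_assoc]
  have hRp : ∀ n b, (R ^ n) b = b * (-X) ^ n := by
    intro n
    induction n with
    | zero => intro b; simp
    | succ n ih =>
      intro b
      rw [pow_succ, mul_apply_eq_comp, ih, hRa, mul_assoc, ← pow_succ']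
  have hLe : ∀ b, (exp L) b = exp X * b := by
    intro b
    have h1 := exp_apply_hasSum L b
    have h2 := (exp_series_hasSum_exp' (𝕂 := ℂ) X).mul_right b
    have e : (fun n : ℕ => ((n.factorial : ℂ)⁻¹) • (L ^ n) b) =
        fun n : ℕ => ((n.factorial : ℂ)⁻¹ • X ^ n) * b := by
      funext n
      rw [hLp, smul_mul_assoc]
    rw [e] at h1
    exact h1.unique h2
  have hRe : ∀ b, (exp R) b = b * exp (-X) := by
    intro b
    have h1 := exp_apply_hasSum R b
    have h2 := (exp_series_hasSum_exp' (𝕂 := ℂ) (-X)).mul_left b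
    have e : (fun n : ℕ => ((n.factorial : ℂ)⁻¹) • (R ^ n) b) =
        fun n : ℕ => b * ((n.factorial : ℂ)⁻¹ • (-X) ^ n) := by
      funext n
      rw [hRp, mul_smul_comm]
    rw [e] at h1
    exact h1.unique h2
  have hval : exp X * A * exp (-X) = (exp (L + R)) A := by
    rw [hexp, mul_apply_eq_comp, hRe, hLe, mul_assoc]
  rw [hval]
  have hmem : ∀ n, ((L + R) ^ n) A ∈ W := by
    intro n
    induction n with
    | zero => simpa using hA
    | succ n ih =>
      rw [pow_succ', mul_apply_eq_comp]
      have := hX _ ih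
      rw [ContinuousLinearMap.add_apply, hLa, hRa]
      simpa [sub_eq_add_neg] using this
  have hs := exp_apply_hasSum (L + R) A
  refine hW.mem_of_tendsto hs (Filter.Eventually.of_forall fun s => ?_)
  exact W.sum_mem fun n _ => W.smul_mem _ (hmem n)

end expconj

section mat
variable {n : Type*} [Fintype n] [DecidableEq n]

attribute [local instance] Matrix.linftyOpNormedRing Matrix.linftyOpNormedAlgebra

theorem mat_exp_conj_mem (X A : Matrix n n ℂ) (W : Submodule ℂ (Matrix n n ℂ))
    (hX : ∀ B ∈ W, X * B - B * X ∈ W) (hA : A ∈ W) :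
    exp X * A * (exp X)⁻¹ ∈ W := by
  rw [← Matrix.exp_neg]
  exact exp_conj_mem X A W (Submodule.closed_of_finiteDimensional W) hX hA

theorem mat_exp_conj_mem' (X A : Matrix n n ℂ) (W : Submodule ℂ (Matrix n n ℂ))
    (hX : ∀ B ∈ W, X * B - B * X ∈ W) (hA : A ∈ W) :
    (exp X)⁻¹ * A * (exp X) ∈ W := by
  have h := exp_conj_mem (-X) A W (Submodule.closed_of_finiteDimensional W) (fun B hB => by
    have := W.neg_mem (hX B hB)
    have e : -X * B - B * -X = -(X * B - B * X) := by noncomm_ring
    rw [e]; exact this) hA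
  rw [neg_neg] at h
  rw [← Matrix.exp_neg]
  exact h

end mat

end Pool.Agent.X207.PU
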