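import Mathlib

namespace Pool.Agent.X207.PU

open Matrix

variable {n : ℕ}

/-- weakly upper with respect to `d` -/
def BT (d : Fin n → ℝ) (A : Matrix (Fin n) (Fin n) ℂ) : Prop := ∀ i j, d i < d j → A i j = 0

/-- strictly upper with respect to `d` -/
def ST (d : Fin n → ℝ) (A : Matrix (Fin n) (Fin n) ℂ) : Prop := ∀ i j, d i ≤ d j → A i j = 0

/-- the real diagonal matrix -/
def dg (d : Fin n → ℝ) : Matrix (Fin n) (Fin n) ℂ := Matrix.diagonal fun i => (d i : ℂ)

theorem BT.mul {d : Fin n → ℝ} {A B : Matrix (Fin n) (Fin n) ℂ} (hA : BT d A) (hB : BT d B) :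
    BT d (A * B) := by
  intro i j hij
  rw [Matrix.mul_apply]
  refine Finset.sum_eq_zero fun k _ => ?_
  rcases lt_or_ge (d i) (d k) with h | h
  · rw [hA i k h, zero_mul]
  · rw [hB k j (lt_of_le_of_lt h hij), mul_zero]

theorem BT.mul_ST {d : Fin n → ℝ} {A B : Matrix (Fin n) (Fin n) ℂ} (hA : BT d A) (hB : ST d B) :
    ST d (A * B) := by
  intro i j hij
  rw [Matrix.mul_apply]
  refine Finset.sum_eq_zero fun k _ => ?_
  rcases lt_or_ge (d i) (d k) with h | h
  · rw [hA i k h, zero_mul]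
  · rw [hB k j (le_trans h hij), mul_zero]

theorem ST.mul_BT {d : Fin n → ℝ} {A B : Matrix (Fin n) (Fin n) ℂ} (hA : ST d A) (hB : BT d B) :
    ST d (A * B) := by
  intro i j hij
  rw [Matrix.mul_apply]
  refine Finset.sum_eq_zero fun k _ => ?_
  rcases le_or_gt (d i) (d k) with h | h
  · rw [hA i k h, zero_mul]
  · rw [hB k j (lt_of_lt_of_le h hij), mul_zero]

theorem ad_dg_apply (d : Fin n → ℝ) (A : Matrix (Fin n) (Fin n) ℂ) (i j : Fin n) :
    (dg d * A - A * dg d) i j = ((d i - d j : ℝ) : ℂ) * A i j := by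
  unfold dg
  rw [Matrix.sub_apply, Matrix.diagonal_mul, Matrix.mul_diagonal]
  push_cast
  ring

theorem poly_mem (d : Fin n → ℝ) (S : Submodule ℂ (Matrix (Fin n) (Fin n) ℂ))
    (hS : ∀ A ∈ S, dg d * A - A * dg d ∈ S) (A : Matrix (Fin n) (Fin n) ℂ) (hA : A ∈ S)
    (p : Polynomial ℂ) :
    (Matrix.of fun i j => p.eval ((d i - d j : ℝ) : ℂ) * A i j) ∈ S := by
  induction p using Polynomial.induction_on' with
  | add p q hp hq =>
    have e : (Matrix.of fun i j => (p + q).eval ((d i - d j : ℝ) : ℂ) * A i j) =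
      (Matrix.of fun i j => p.eval ((d i - d j : ℝ) : ℂ) * A i j) +
      (Matrix.of fun i j => q.eval ((d i - d j : ℝ) : ℂ) * A i j) := by
      ext i j
      simp [add_mul]
    rw [e]
    exact S.add_mem hp hq
  | monomial k a =>
    have hk : ∀ k : ℕ, (Matrix.of fun i j => (((d i - d j : ℝ) : ℂ)) ^ k * A i j) ∈ S := by
      intro k
      induction k with
      | zero =>
        have e : (Matrix.of fun i j => (((d i - d j : ℝ) : ℂ)) ^ 0 * A i j) = A := by
          ext i j; simp
        rw [e]; exact hA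
      | succ k ih =>
        have := hS _ ih
        have e : (Matrix.of fun i j => (((d i - d j : ℝ) : ℂ)) ^ (k + 1) * A i j) =
          dg d * (Matrix.of fun i j => (((d i - d j : ℝ) : ℂ)) ^ k * A i j) -
          (Matrix.of fun i j => (((d i - d j : ℝ) : ℂ)) ^ k * A i j) * dg d := by
          ext i j
          rw [ad_dg_apply, Matrix.of_apply, Matrix.of_apply, pow_succ]
          ring
        rw [e]; exact this
    have e : (Matrix.of fun i j => (Polynomial.monomial k a).eval ((d i - d j : ℝ) : ℂ) * A i j) =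
      a • (Matrix.of fun i j => (((d i - d j : ℝ) : ℂ)) ^ k * A i j) := by
      ext i j
      simp [mul_assoc]
    rw [e]
    exact S.smul_mem _ (hk k)

/-- the strictly lower part -/
noncomputable def low (d : Fin n → ℝ) (A : Matrix (Fin n) (Fin n) ℂ) : Matrix (Fin n) (Fin n) ℂ :=
  Matrix.of fun i j => if d i < d j then A i j else 0

theorem low_mem (d : Fin n → ℝ) (S : Submodule ℂ (Matrix (Fin n) (Fin n) ℂ))
    (hS : ∀ A ∈ S, dg d * A - A * dg d ∈ S) (A : Matrix (Fin n) (Fin n) ℂ) (hA : A ∈ S) :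
    low d A ∈ S := by
  classical
  set s : Finset ℂ := Finset.univ.image (fun q : Fin n × Fin n => ((d q.1 - d q.2 : ℝ) : ℂ)) with hs
  set r : ℂ → ℂ := fun z => if z.re < 0 then 1 else 0 with hr
  set p : Polynomial ℂ := Lagrange.interpolate s id r with hp
  have hev : ∀ i j, p.eval ((d i - d j : ℝ) : ℂ) = if d i < d j then 1 else 0 := by
    intro i j
    have hm : ((d i - d j : ℝ) : ℂ) ∈ s := by
      rw [hs]
      exact Finset.mem_image.2 ⟨(i, j), Finset.mem_univ _, rfl⟩
    have := Lagrange.eval_interpolate_at_node (s := s) (v := id) r (Function.injective_id.injOn) hm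
    rw [hp]
    simp only [id] at this
    rw [this, hr]
    simp only [Complex.ofReal_re, sub_neg]
  have := poly_mem d S hS A hA p
  have e : low d A = (Matrix.of fun i j => p.eval ((d i - d j : ℝ) : ℂ) * A i j) := by
    ext i j
    rw [Matrix.of_apply, hev]
    unfold low
    rw [Matrix.of_apply]
    split_ifs <;> simp
  rw [e]
  exact this

/-- vectorisation -/
noncomputable def vec : Matrix (Fin n) (Fin n) ℂ ≃ₗ[ℂ] EuclideanSpace ℂ (Fin n × Fin n) where
  toFun A := WithLp.toLp 2 (fun p => A p.1 p.2)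
  invFun v := Matrix.of fun i j => v (i, j)
  map_add' A B := by ext p; simp
  map_smul' c A := by ext p; simp
  left_inv A := by ext i j; simp
  right_inv v := by ext p; simp

theorem inner_vec (A B : Matrix (Fin n) (Fin n) ℂ) :
    inner ℂ (vec A) (vec B) = (Aᴴ * B).trace := by
  rw [EuclideanSpace.inner_eq_star_dotProduct]
  simp only [vec, Matrix.trace, Matrix.diag, Matrix.mul_apply, Matrix.conjTranspose_apply,
    dotProduct, LinearEquiv.coe_mk, LinearMap.coe_mk, AddHom.coe_mk, Pi.star_apply]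
  rw [Fintype.sum_prod_type, Finset.sum_comm]
  refine Finset.sum_congr rfl fun i _ => Finset.sum_congr rfl fun j _ => ?_
  ring

theorem exists_decomp (K : Submodule ℂ (Matrix (Fin n) (Fin n) ℂ)) (A : Matrix (Fin n) (Fin n) ℂ) :
    ∃ E ∈ K, ∀ F ∈ K, (Fᴴ * (A - E)).trace = 0 := by
  set K' := K.map (vec (n := n)).toLinearMap with hK'
  obtain ⟨y, hy, z, hz, hyz⟩ := K'.exists_add_mem_mem_orthogonal (vec A)
  obtain ⟨E, hE, rfl⟩ := Submodule.mem_map.1 hy
  refine ⟨E, hE, fun F hF => ?_⟩
  have h1 : vec (A - E) = z := by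
    rw [map_sub, hyz]
    simp
  rw [← inner_vec, h1]
  exact hz _ (Submodule.mem_map.2 ⟨F, hF, rfl⟩)

end Pool.Agent.X207.PU
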