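import Mathlib
import Pool.Agent.X207.PU2

namespace Pool.Agent.X207.PU

open Matrix

variable {n : ℕ}

theorem conj_dg_diag {d : Fin n → ℝ} {T S : Matrix (Fin n) (Fin n) ℂ} (hT : BT d T) (hS : BT d S)
    (hTS : T * S = 1) (i j : Fin n) (hij : d i = d j) :
    (T * dg d * S) i j = dg d i j := by
  have h1 : (T * dg d * S) i j = ∑ k, T i k * (d k : ℂ) * S k j := by
    rw [Matrix.mul_apply]
    refine Finset.sum_congr rfl fun k _ => ?_
    unfold dg
    rw [Matrix.mul_diagonal]
  have h2 : ∀ k, T i k * (d k : ℂ) * S k j = (d i : ℂ) * (T i k * S k j) := by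
    intro k
    rcases lt_trichotomy (d i) (d k) with h | h | h
    · rw [hT i k h]; simp
    · rw [h]; ring
    · rw [hS k j (hij ▸ h)]; simp
  rw [h1, Finset.sum_congr rfl fun k _ => h2 k, ← Finset.mul_sum, ← Matrix.mul_apply, hTS]
  unfold dg
  rw [Matrix.diagonal_apply, Matrix.one_apply]
  split_ifs <;> simp

theorem BT_dg (d : Fin n → ℝ) : BT d (dg d) := by
  intro i j hij
  unfold dg
  rw [Matrix.diagonal_apply_ne]
  rintro rfl
  exact lt_irrefl _ hij

/-- The algebraic heart. -/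
theorem dg_mem (d : Fin n → ℝ) (W' W'' : Submodule ℂ (Matrix (Fin n) (Fin n) ℂ))
    (hW' : ∀ A ∈ W', Aᴴ ∈ W') (hW'' : ∀ A ∈ W'', Aᴴ ∈ W'')
    (had : ∀ A ∈ W'', dg d * A - A * dg d ∈ W'') (hd : dg d ∈ W'')
    (T S : Matrix (Fin n) (Fin n) ℂ) (hT : BT d T) (hS : BT d S) (hTS : T * S = 1)
    (hST : S * T = 1) (h1 : ∀ A ∈ W'', T * A * S ∈ W') (h2 : ∀ A ∈ W', S * A * T ∈ W'') :
    dg d ∈ W' := by
  classical
  set D := T * dg d * S with hD
  have hDW : D ∈ W' := h1 _ hd
  have hDBT : BT d D := (hT.mul (BT_dg d)).mul hS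
  let K : Submodule ℂ (Matrix (Fin n) (Fin n) ℂ) :=
    { carrier := {A | A ∈ W' ∧ ST d A}
      add_mem' := fun {a b} ha hb => ⟨W'.add_mem ha.1 hb.1, fun i j hij => by
        rw [Matrix.add_apply, ha.2 i j hij, hb.2 i j hij, add_zero]⟩
      zero_mem' := ⟨W'.zero_mem, fun i j hij => rfl⟩
      smul_mem' := fun c a ha => ⟨W'.smul_mem c ha.1, fun i j hij => by
        rw [Matrix.smul_apply, ha.2 i j hij, smul_zero]⟩ }
  obtain ⟨E, hE, horth⟩ := exists_decomp K D
  set B := D - E with hB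
  have hBW : B ∈ W' := W'.sub_mem hDW hE.1
  set C := S * Bᴴ * T with hC
  have hCW : C ∈ W'' := h2 _ (hW' _ hBW)
  set L := low d C with hL
  have hLW : L ∈ W'' := low_mem d W'' had C hCW
  have hLST : ST d Lᴴ := by
    intro i j hij
    rw [Matrix.conjTranspose_apply, hL]
    unfold low
    rw [Matrix.of_apply, if_neg (not_lt.2 hij), star_zero]
  have hTL : T * Lᴴ * S ∈ K := ⟨h1 _ (hW'' _ hLW), (hT.mul_ST hLST).mul_BT hS⟩
  have h0 := horth _ hTL
  have h0' : (C * Lᴴ).trace = 0 := by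
    have : (C * Lᴴ).trace = ((((T * Lᴴ * S)ᴴ * B))ᴴ).trace := by
      rw [Matrix.conjTranspose_mul, Matrix.conjTranspose_conjTranspose, hC]
      rw [show S * Bᴴ * T * Lᴴ = S * (Bᴴ * T * Lᴴ) by simp only [Matrix.mul_assoc]]
      rw [Matrix.trace_mul_comm]
      simp only [Matrix.mul_assoc]
    rw [this, Matrix.trace_conjTranspose, h0, star_zero]
  have hsum : (C * Lᴴ).trace = ∑ i, ∑ j, ((Complex.normSq (L i j) : ℝ) : ℂ) := by
    simp only [Matrix.trace, Matrix.diag, Matrix.mul_apply, Matrix.conjTranspose_apply]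
    refine Finset.sum_congr rfl fun i _ => Finset.sum_congr rfl fun j _ => ?_
    rw [hL]
    unfold low
    rw [Matrix.of_apply]
    split_ifs
    · rw [← Complex.mul_conj]; rfl
    · simp
  have hL0 : ∀ i j, L i j = 0 := by
    rw [h0'] at hsum
    have hr : ∑ i, ∑ j, Complex.normSq (L i j) = 0 := by
      exact_mod_cast hsum.symm
    intro i j
    have h3 := (Finset.sum_eq_zero_iff_of_nonneg (fun i _ =>
      Finset.sum_nonneg fun j _ => Complex.normSq_nonneg (L i j))).1 hr i (Finset.mem_univ _)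
    have h4 := (Finset.sum_eq_zero_iff_of_nonneg (fun j _ => Complex.normSq_nonneg (L i j))).1 h3 j
      (Finset.mem_univ _)
    exact Complex.normSq_eq_zero.1 h4
  have hCBT : BT d C := by
    intro i j hij
    have := hL0 i j
    rw [hL] at this
    unfold low at this
    rwa [Matrix.of_apply, if_pos hij] at this
  have hBH : Bᴴ = T * C * S := by
    rw [hC]
    calc Bᴴ = (T * S) * Bᴴ * (T * S) := by rw [hTS]; simp
      _ = _ := by simp only [Matrix.mul_assoc]
  have hBBT : BT d Bᴴ := by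
    rw [hBH]
    exact (hT.mul hCBT).mul hS
  have hfin : dg d = B := by
    ext i j
    rcases lt_trichotomy (d i) (d j) with h | h | h
    · rw [BT_dg d i j h, hB, Matrix.sub_apply, hDBT i j h, hE.2 i j h.le, sub_zero]
    · rw [hB, Matrix.sub_apply, hE.2 i j h.le, sub_zero, hD, conj_dg_diag hT hS hTS i j h]
    · have := hBBT j i h
      rw [Matrix.conjTranspose_apply] at this
      have h5 : B i j = 0 := by simpa using this
      rw [h5]
      unfold dg
      rw [Matrix.diagonal_apply_ne]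
      rintro rfl
      exact lt_irrefl _ h
  rw [hfin]
  exact hBW

end Pool.Agent.X207.PU
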