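import Mathlib
import Pool.Agent.X207.PU3

namespace Pool.Agent.X207.PU

open Matrix

variable {n : ℕ}

theorem sorted_spectral (G : Matrix (Fin n) (Fin n) ℂ) (hG : G.IsHermitian) :
    ∃ (V : Matrix (Fin n) (Fin n) ℂ) (d : Fin n → ℝ), Antitone d ∧ Vᴴ * V = 1 ∧
      G = V * dg d * Vᴴ := by
  set V₀ : Matrix (Fin n) (Fin n) ℂ := (hG.eigenvectorUnitary : Matrix (Fin n) (Fin n) ℂ) with hV₀
  have hVV : V₀ᴴ * V₀ = 1 := by
    have := Matrix.mem_unitaryGroup_iff'.1 hG.eigenvectorUnitary.2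
    exact this
  have hsp : G = V₀ * dg hG.eigenvalues * V₀ᴴ := by
    have := hG.spectral_theorem
    rw [Unitary.conjStarAlgAut_apply] at this
    exact this
  set σ := Tuple.sort (fun i => - hG.eigenvalues i) with hσ
  have hmono : Monotone ((fun i => - hG.eigenvalues i) ∘ σ) := Tuple.monotone_sort _
  refine ⟨V₀.submatrix id σ, hG.eigenvalues ∘ σ, ?_, ?_, ?_⟩
  · intro i j hij
    have := hmono hij
    simp only [Function.comp] at this ⊢
    linarith
  · ext i j
    have h1 := congrFun (congrFun hVV (σ i)) (σ j)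
    rw [Matrix.mul_apply] at h1 ⊢
    simp only [Matrix.conjTranspose_apply, Matrix.submatrix_apply, id] at h1 ⊢
    rw [h1, Matrix.one_apply, Matrix.one_apply]
    simp only [EmbeddingLike.apply_eq_iff_eq]
  · ext i j
    have h1 := congrFun (congrFun hsp i) j
    rw [h1, Matrix.mul_apply, Matrix.mul_apply]
    unfold dg
    simp only [Matrix.mul_diagonal, Matrix.conjTranspose_apply, Matrix.submatrix_apply, id,
      Function.comp]
    exact (Equiv.sum_comp σ (fun k => V₀ i k * (hG.eigenvalues k : ℂ) * star (V₀ j k))).symm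

theorem exists_qr (N : Matrix (Fin n) (Fin n) ℂ) :
    ∃ U : Matrix (Fin n) (Fin n) ℂ, Uᴴ * U = 1 ∧ ∀ i j, j < i → (Uᴴ * N) i j = 0 := by
  have hcard : Module.finrank ℂ (EuclideanSpace ℂ (Fin n)) = Fintype.card (Fin n) := by simp
  set f : Fin n → EuclideanSpace ℂ (Fin n) := fun j => WithLp.toLp 2 (fun i => N i j) with hf
  set b := InnerProductSpace.gramSchmidtOrthonormalBasis hcard f with hb
  refine ⟨Matrix.of fun i j => b j i, ?_, ?_⟩
  · ext i j
    have h1 := orthonormal_iff_ite.1 b.orthonormal i j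
    rw [Matrix.one_apply, ← h1, EuclideanSpace.inner_eq_star_dotProduct, Matrix.mul_apply,
      dotProduct]
    refine Finset.sum_congr rfl fun k _ => ?_
    simp [mul_comm]
  · intro i j hij
    have h1 := InnerProductSpace.gramSchmidtOrthonormalBasis_inv_triangular hcard f hij
    rw [← hb, EuclideanSpace.inner_eq_star_dotProduct, dotProduct] at h1
    rw [Matrix.mul_apply, ← h1]
    refine Finset.sum_congr rfl fun k _ => ?_
    simp [hf, mul_comm]

theorem BT_of_upper {d : Fin n → ℝ} (hd : Antitone d) {T : Matrix (Fin n) (Fin n) ℂ}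
    (hT : ∀ i j, j < i → T i j = 0) : BT d T := by
  intro i j hij
  refine hT i j ?_
  by_contra h
  exact absurd (hd (not_lt.1 h)) (not_le.2 hij)

theorem BT_inv {d : Fin n → ℝ} {T : Matrix (Fin n) (Fin n) ℂ} (hT : BT d T) (hu : IsUnit T) :
    BT d T⁻¹ := by
  have : Invertible T := hu.invertible
  have h1 : T.BlockTriangular (fun i => OrderDual.toDual (d i)) := by
    intro i j hij
    exact hT i j hij
  have h2 := Matrix.blockTriangular_inv_of_blockTriangular h1
  intro i j hij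
  exact h2 hij

theorem inner_mulVec (T : Matrix (Fin n) (Fin n) ℂ) (a b : Fin n → ℂ) :
    star (T *ᵥ a) ⬝ᵥ (T *ᵥ b) = star a ⬝ᵥ ((Tᴴ * T) *ᵥ b) := by
  rw [Matrix.star_mulVec, ← Matrix.dotProduct_mulVec, Matrix.mulVec_mulVec]

theorem sum_inner {ι : Type*} [Fintype ι] (T : ι → Matrix (Fin n) (Fin n) ℂ)
    (hsum : ∑ k, (T k)ᴴ * T k = 1) (a b : Fin n → ℂ) :
    ∑ k, star (T k *ᵥ a) ⬝ᵥ (T k *ᵥ b) = star a ⬝ᵥ b := by
  have h1 : ∀ k, star (T k *ᵥ a) ⬝ᵥ (T k *ᵥ b) = star a ⬝ᵥ (((T k)ᴴ * T k) *ᵥ b) :=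
    fun k => inner_mulVec (T k) a b
  rw [Finset.sum_congr rfl fun k _ => h1 k, ← dotProduct_sum, ← Matrix.sum_mulVec, hsum,
    Matrix.one_mulVec]

theorem re_dot (a : Fin n → ℂ) : (star a ⬝ᵥ a).re = ∑ i, Complex.normSq (a i) := by
  rw [dotProduct, Complex.re_sum]
  refine Finset.sum_congr rfl fun i _ => ?_
  rw [Pi.star_apply, Complex.star_def, ← Complex.normSq_eq_conj_mul_self, Complex.ofReal_re]

theorem partial_sum {ι : Type*} [Fintype ι] (T : ι → Matrix (Fin n) (Fin n) ℂ)
    (hT : ∀ k i j, j < i → T k i j = 0)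
    (hsum : ∑ k, (T k)ᴴ * T k = 1) (x : Fin n → ℂ) (m : ℕ) :
    (∑ i : Fin n, if (i : ℕ) < m then Complex.normSq (x i) else 0) ≤
      ∑ i : Fin n, if (i : ℕ) < m then ∑ k, Complex.normSq ((T k *ᵥ x) i) else 0 := by
  classical
  set y : Fin n → ℂ := fun j => if (j : ℕ) < m then x j else 0 with hy
  have hy0 : ∀ k (i : Fin n), ¬ (i : ℕ) < m → (T k *ᵥ y) i = 0 := by
    intro k i hi
    rw [Matrix.mulVec, dotProduct]
    refine Finset.sum_eq_zero fun j _ => ?_
    rcases lt_or_ge j i with h | h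
    · rw [hT k i j h, zero_mul]
    · have : ¬ (j : ℕ) < m := by
        have : (i : ℕ) ≤ (j : ℕ) := h
        omega
      rw [hy]
      simp only [if_neg this, mul_zero]
  have key : ∀ k (i : Fin n), 2 * (star ((T k *ᵥ y) i) * (T k *ᵥ x) i).re -
      Complex.normSq ((T k *ᵥ y) i) ≤
      if (i : ℕ) < m then Complex.normSq ((T k *ᵥ x) i) else 0 := by
    intro k i
    split_ifs with h
    · have h1 := Complex.normSq_nonneg ((T k *ᵥ x) i - (T k *ᵥ y) i)
      rw [Complex.normSq_apply] at h1 ⊢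
      rw [Complex.normSq_apply]
      simp only [Complex.sub_re, Complex.sub_im, Complex.mul_re, Complex.star_def,
        Complex.conj_re, Complex.conj_im] at h1 ⊢
      nlinarith
    · rw [hy0 k i h]; simp
  have hR : (∑ i : Fin n, if (i : ℕ) < m then ∑ k, Complex.normSq ((T k *ᵥ x) i) else 0) =
      ∑ k, ∑ i : Fin n, if (i : ℕ) < m then Complex.normSq ((T k *ᵥ x) i) else 0 := by
    rw [Finset.sum_comm]
    refine Finset.sum_congr rfl fun i _ => ?_
    split_ifs <;> simp
  rw [hR]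
  have h2 : ∑ k, ∑ i : Fin n, (2 * (star ((T k *ᵥ y) i) * (T k *ᵥ x) i).re -
      Complex.normSq ((T k *ᵥ y) i)) ≤
      ∑ k, ∑ i : Fin n, (if (i : ℕ) < m then Complex.normSq ((T k *ᵥ x) i) else 0) :=
    Finset.sum_le_sum fun k _ => Finset.sum_le_sum fun i _ => key k i
  refine le_trans (le_of_eq ?_) h2
  have h3 : ∑ k, ∑ i : Fin n, (2 * (star ((T k *ᵥ y) i) * (T k *ᵥ x) i).re -
      Complex.normSq ((T k *ᵥ y) i)) =
      2 * (∑ k, star (T k *ᵥ y) ⬝ᵥ (T k *ᵥ x)).re - (∑ k, star (T k *ᵥ y) ⬝ᵥ (T k *ᵥ y)).re := by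
    rw [Complex.re_sum, Complex.re_sum, Finset.mul_sum, ← Finset.sum_sub_distrib]
    refine Finset.sum_congr rfl fun k _ => ?_
    rw [Finset.sum_sub_distrib, re_dot, dotProduct, Complex.re_sum, Finset.mul_sum]
    rfl
  rw [h3, sum_inner T hsum, sum_inner T hsum, re_dot]
  have h4 : (star y ⬝ᵥ x).re = ∑ i : Fin n, if (i : ℕ) < m then Complex.normSq (x i) else 0 := by
    rw [dotProduct, Complex.re_sum]
    refine Finset.sum_congr rfl fun i _ => ?_
    rw [Pi.star_apply, hy]
    simp only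
    split_ifs
    · rw [Complex.star_def, ← Complex.normSq_eq_conj_mul_self, Complex.ofReal_re]
    · simp
  have h5 : ∑ i, Complex.normSq (y i) = ∑ i : Fin n, if (i : ℕ) < m then Complex.normSq (x i) else 0 := by
    refine Finset.sum_congr rfl fun i _ => ?_
    rw [hy]
    simp only
    split_ifs <;> simp
  rw [h4, h5]
  ring

theorem abel_aux : ∀ (n : ℕ) (d w : Fin (n + 1) → ℝ), Antitone d →
    (∀ m : ℕ, 0 ≤ ∑ i : Fin (n + 1), if (i : ℕ) < m then w i else 0) →
    d (Fin.last n) * ∑ i, w i ≤ ∑ i, d i * w i := by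
  intro n
  induction n with
  | zero => intro d w _ _; simp
  | succ n ih =>
    intro d w hd hw
    have h1 : ∀ m : ℕ, 0 ≤ ∑ i : Fin (n + 1), if (i : ℕ) < m then w i.castSucc else 0 := by
      intro m
      have := hw (min m (n + 1))
      rw [Fin.sum_univ_castSucc] at this
      simp only [Fin.val_castSucc, Fin.val_last, lt_min_iff, lt_irrefl, and_false, if_false,
        add_zero] at this
      refine le_of_le_of_eq this (Finset.sum_congr rfl fun i _ => ?_)
      have hi : (i : ℕ) < n + 1 := i.2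
      simp [hi]
    have h2 := ih (fun i => d i.castSucc) (fun i => w i.castSucc)
      (fun i j hij => hd (Fin.castSucc_le_castSucc_iff.2 hij)) h1
    have h3 : 0 ≤ ∑ i : Fin (n + 1), w i.castSucc := by
      refine le_of_le_of_eq (h1 (n + 1)) (Finset.sum_congr rfl fun i _ => ?_)
      rw [if_pos i.2]
    rw [Fin.sum_univ_castSucc, Fin.sum_univ_castSucc (fun i => d i * w i)]
    have h4 : d (Fin.last (n + 1)) ≤ d (Fin.last n).castSucc := hd (Fin.le_last _)
    have h5 := mul_le_mul_of_nonneg_right h4 h3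
    linarith [mul_add (d (Fin.last (n + 1))) (∑ i : Fin (n + 1), w i.castSucc) (w (Fin.last (n + 1)))]

theorem abel_fin (d w : Fin n → ℝ) (hd : Antitone d)
    (hw : ∀ m : ℕ, 0 ≤ ∑ i : Fin n, if (i : ℕ) < m then w i else 0)
    (h0 : ∑ i, w i = 0) : 0 ≤ ∑ i, d i * w i := by
  rcases n with _ | n
  · simp
  · have := abel_aux n d w hd hw
    rw [h0, mul_zero] at this
    exact this

theorem weighted (d : Fin n → ℝ) (hd : Antitone d) {ι : Type*} [Fintype ι]
    (T : ι → Matrix (Fin n) (Fin n) ℂ) (hT : ∀ k i j, j < i → T k i j = 0)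
    (hsum : ∑ k, (T k)ᴴ * T k = 1) (x : Fin n → ℂ) :
    ∑ i, d i * Complex.normSq (x i) ≤ ∑ k, ∑ i, d i * Complex.normSq ((T k *ᵥ x) i) := by
  have h1 := abel_fin d (fun i => ∑ k, Complex.normSq ((T k *ᵥ x) i) - Complex.normSq (x i)) hd
    (fun m => by
      have := partial_sum T hT hsum x m
      have e : (∑ i : Fin n, if (i : ℕ) < m then
          (∑ k, Complex.normSq ((T k *ᵥ x) i) - Complex.normSq (x i)) else 0) =
          (∑ i : Fin n, if (i : ℕ) < m then ∑ k, Complex.normSq ((T k *ᵥ x) i) else 0) -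
          (∑ i : Fin n, if (i : ℕ) < m then Complex.normSq (x i) else 0) := by
        rw [← Finset.sum_sub_distrib]
        refine Finset.sum_congr rfl fun i _ => ?_
        split_ifs <;> simp
      rw [e]; linarith)
    (by
      rw [Finset.sum_sub_distrib, Finset.sum_comm]
      have h := congrArg Complex.re (sum_inner T hsum x x)
      rw [Complex.re_sum, re_dot, Finset.sum_congr rfl fun k _ => re_dot (T k *ᵥ x)] at h
      rw [h, sub_self])
  have e : ∑ i, d i * (∑ k, Complex.normSq ((T k *ᵥ x) i) - Complex.normSq (x i)) =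
      ∑ k, ∑ i, d i * Complex.normSq ((T k *ᵥ x) i) - ∑ i, d i * Complex.normSq (x i) := by
    rw [Finset.sum_comm, ← Finset.sum_sub_distrib]
    refine Finset.sum_congr rfl fun i _ => ?_
    rw [mul_sub, Finset.mul_sum]
  rw [e] at h1
  linarith

end Pool.Agent.X207.PU
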