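import Mathlib
import Pool.Agent.X207.PU1
import Pool.Agent.X207.PU4

namespace Pool.Agent.X207.PU

open Matrix

variable {n : ℕ}

/-- The key decomposition. -/
theorem key_decomp (W : Submodule ℂ (Matrix (Fin n) (Fin n) ℂ))
    (hst : ∀ A ∈ W, Aᴴ ∈ W) (had : ∀ A ∈ W, ∀ B ∈ W, A * B - B * A ∈ W)
    (V : Matrix (Fin n) (Fin n) ℂ) (hV : Vᴴ * V = 1) (d : Fin n → ℝ) (hd : Antitone d)
    (hG : V * dg d * Vᴴ ∈ W) (M : Matrix (Fin n) (Fin n) ℂ) (hu : IsUnit M)
    (hM1 : ∀ A ∈ W, M * A * M⁻¹ ∈ W) (hM2 : ∀ A ∈ W, M⁻¹ * A * M ∈ W) :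
    ∃ U T : Matrix (Fin n) (Fin n) ℂ, Uᴴ * U = 1 ∧ (∀ i j, j < i → T i j = 0) ∧
      T = Uᴴ * (M * V) ∧ U * dg d * Uᴴ ∈ W := by
  obtain ⟨U, hU, hT⟩ := exists_qr (M * V)
  set T := Uᴴ * (M * V) with hTdef
  have hU' : U * Uᴴ = 1 := mul_eq_one_comm.1 hU
  have hV' : V * Vᴴ = 1 := mul_eq_one_comm.1 hV
  have hMdet : IsUnit M.det := (Matrix.isUnit_iff_isUnit_det M).1 hu
  have hMM : M * M⁻¹ = 1 := Matrix.mul_nonsing_inv M hMdet
  have hMM' : M⁻¹ * M = 1 := Matrix.nonsing_inv_mul M hMdet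
  set S := Vᴴ * M⁻¹ * U with hSdef
  have hTS : T * S = 1 := by
    calc T * S = Uᴴ * (M * ((V * Vᴴ) * M⁻¹)) * U := by
          rw [hTdef, hSdef]; simp only [Matrix.mul_assoc]
      _ = Uᴴ * (M * M⁻¹) * U := by rw [hV', Matrix.one_mul]
      _ = 1 := by rw [hMM, Matrix.mul_one, hU]
  have hST : S * T = 1 := mul_eq_one_comm.1 hTS
  have hTu : IsUnit T := isUnit_iff_exists.2 ⟨S, hTS, hST⟩
  have hBT : BT d T := BT_of_upper hd hT
  have hSinv : T⁻¹ = S := Matrix.inv_eq_right_inv hTS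
  have hBS : BT d S := hSinv ▸ BT_inv hBT hTu
  refine ⟨U, T, hU, hT, rfl, ?_⟩
  let W' : Submodule ℂ (Matrix (Fin n) (Fin n) ℂ) :=
    { carrier := {A | U * A * Uᴴ ∈ W}
      add_mem' := fun {a b} ha hb => by
        have := W.add_mem ha hb
        simpa [Matrix.mul_add, Matrix.add_mul] using this
      zero_mem' := by simp
      smul_mem' := fun z a ha => by
        have := W.smul_mem z ha
        simpa using this }
  let W'' : Submodule ℂ (Matrix (Fin n) (Fin n) ℂ) :=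
    { carrier := {A | V * A * Vᴴ ∈ W}
      add_mem' := fun {a b} ha hb => by
        have := W.add_mem ha hb
        simpa [Matrix.mul_add, Matrix.add_mul] using this
      zero_mem' := by simp
      smul_mem' := fun z a ha => by
        have := W.smul_mem z ha
        simpa using this }
  have hfin : dg d ∈ W' := by
    refine dg_mem d W' W'' ?_ ?_ ?_ hG T S hBT hBS hTS hST ?_ ?_
    · intro A hA
      have := hst _ hA
      have e : (U * A * Uᴴ)ᴴ = U * Aᴴ * Uᴴ := by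
        simp [Matrix.conjTranspose_mul, Matrix.mul_assoc]
      rw [e] at this
      exact this
    · intro A hA
      have := hst _ hA
      have e : (V * A * Vᴴ)ᴴ = V * Aᴴ * Vᴴ := by
        simp [Matrix.conjTranspose_mul, Matrix.mul_assoc]
      rw [e] at this
      exact this
    · intro A hA
      have := had _ hG _ hA
      have e : V * dg d * Vᴴ * (V * A * Vᴴ) - V * A * Vᴴ * (V * dg d * Vᴴ) =
          V * (dg d * A - A * dg d) * Vᴴ := by
        have e1 : V * dg d * Vᴴ * (V * A * Vᴴ) = V * dg d * (Vᴴ * V) * A * Vᴴ := by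
          simp only [Matrix.mul_assoc]
        have e2 : V * A * Vᴴ * (V * dg d * Vᴴ) = V * A * (Vᴴ * V) * dg d * Vᴴ := by
          simp only [Matrix.mul_assoc]
        rw [e1, e2, hV, Matrix.mul_one, Matrix.mul_one]
        simp only [Matrix.mul_sub, Matrix.sub_mul, Matrix.mul_assoc]
      rw [e] at this
      exact this
    · intro A hA
      have := hM1 _ hA
      have e : M * (V * A * Vᴴ) * M⁻¹ = U * (T * A * S) * Uᴴ := by
        calc M * (V * A * Vᴴ) * M⁻¹ = (U * Uᴴ) * (M * (V * A * Vᴴ) * M⁻¹) * (U * Uᴴ) := by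
              rw [hU', Matrix.one_mul, Matrix.mul_one]
          _ = _ := by rw [hTdef, hSdef]; simp only [Matrix.mul_assoc]
      rw [e] at this
      exact this
    · intro A hA
      have := hM2 _ hA
      have e : M⁻¹ * (U * A * Uᴴ) * M = V * (S * A * T) * Vᴴ := by
        calc M⁻¹ * (U * A * Uᴴ) * M = (V * Vᴴ) * (M⁻¹ * (U * A * Uᴴ) * M) * (V * Vᴴ) := by
              rw [hV', Matrix.one_mul, Matrix.mul_one]
          _ = _ := by rw [hTdef, hSdef]; simp only [Matrix.mul_assoc]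
      rw [e] at this
      exact this
  exact hfin

theorem tr_lin {D : ℕ} (g : Fin D → Matrix (Fin n) (Fin n) ℂ) (c : ℝ)
    (hherm : ∀ i, (g i).IsHermitian)
    (horth : ∀ i j, (g i * g j).trace = if i = j then (c : ℂ) else 0) (z : Fin D → ℂ) :
    ((∑ i, z i • g i)ᴴ * (∑ i, z i • g i)).trace = ((c * ∑ i, Complex.normSq (z i) : ℝ) : ℂ) := by
  rw [Matrix.conjTranspose_sum, Matrix.sum_mul, Matrix.trace_sum]
  have h1 : ∀ i, ((z i • g i)ᴴ * ∑ j, z j • g j).trace = (c : ℂ) * (Complex.normSq (z i) : ℂ) := by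
    intro i
    rw [Matrix.mul_sum, Matrix.trace_sum]
    have h2 : ∀ j, ((z i • g i)ᴴ * z j • g j).trace = if i = j then
        (c : ℂ) * (Complex.normSq (z i) : ℂ) else 0 := by
      intro j
      rw [Matrix.conjTranspose_smul, (hherm i).eq, Matrix.smul_mul, Matrix.mul_smul,
        Matrix.trace_smul, Matrix.trace_smul, horth]
      split_ifs with h
      · subst h
        rw [smul_eq_mul, smul_eq_mul, Complex.star_def, Complex.normSq_eq_conj_mul_self]
        ring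
      · simp
    rw [Finset.sum_congr rfl fun j _ => h2 j]
    simp
  rw [Finset.sum_congr rfl fun i _ => h1 i, ← Finset.mul_sum]
  push_cast
  rfl

theorem tr_dg (U : Matrix (Fin n) (Fin n) ℂ) (hU : Uᴴ * U = 1) (d : Fin n → ℝ) :
    ((U * dg d * Uᴴ)ᴴ * (U * dg d * Uᴴ)).trace = ((∑ i, d i ^ 2 : ℝ) : ℂ) := by
  have hdg : (dg d)ᴴ = dg d := by
    unfold dg
    rw [Matrix.diagonal_conjTranspose]
    congr 1
    funext i
    simp
  have e : (U * dg d * Uᴴ)ᴴ * (U * dg d * Uᴴ) = U * (dg d * dg d * Uᴴ) := by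
    rw [Matrix.conjTranspose_mul, Matrix.conjTranspose_mul, Matrix.conjTranspose_conjTranspose, hdg]
    calc U * (dg d * Uᴴ) * (U * dg d * Uᴴ) = U * (dg d * (Uᴴ * U) * dg d * Uᴴ) := by
          simp only [Matrix.mul_assoc]
      _ = _ := by rw [hU, Matrix.mul_one]
  rw [e, Matrix.trace_mul_comm, Matrix.mul_assoc, hU, Matrix.mul_one]
  unfold dg
  rw [Matrix.diagonal_mul_diagonal, Matrix.trace_diagonal]
  push_cast
  exact Finset.sum_congr rfl fun i _ => by ring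

/-- expectation value -/
noncomputable def ev (A : Matrix (Fin n) (Fin n) ℂ) (v : Fin n → ℂ) : ℂ := star v ⬝ᵥ (A *ᵥ v)

theorem ev_dg (U : Matrix (Fin n) (Fin n) ℂ) (d : Fin n → ℝ) (v : Fin n → ℂ) :
    (ev (U * dg d * Uᴴ) v).re = ∑ i, d i * Complex.normSq ((Uᴴ *ᵥ v) i) := by
  have h : ev (U * dg d * Uᴴ) v = star (Uᴴ *ᵥ v) ⬝ᵥ (dg d *ᵥ (Uᴴ *ᵥ v)) := by
    unfold ev
    rw [Matrix.star_mulVec, Matrix.conjTranspose_conjTranspose, ← Matrix.dotProduct_mulVec,
      Matrix.mulVec_mulVec, Matrix.mulVec_mulVec, Matrix.mul_assoc]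
  rw [h, dotProduct, Complex.re_sum]
  refine Finset.sum_congr rfl fun i _ => ?_
  unfold dg
  rw [Matrix.mulVec_diagonal, Pi.star_apply, Complex.star_def]
  rw [show (starRingEnd ℂ) ((Uᴴ *ᵥ v) i) * ((d i : ℂ) * (Uᴴ *ᵥ v) i) =
    (d i : ℂ) * ((starRingEnd ℂ) ((Uᴴ *ᵥ v) i) * (Uᴴ *ᵥ v) i) by ring,
    ← Complex.normSq_eq_conj_mul_self, ← Complex.ofReal_mul, Complex.ofReal_re]

theorem ev_sum {D : ℕ} (g : Fin D → Matrix (Fin n) (Fin n) ℂ) (z : Fin D → ℂ) (v : Fin n → ℂ) :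
    ev (∑ i, z i • g i) v = ∑ i, z i * ev (g i) v := by
  unfold ev
  rw [Matrix.sum_mulVec, dotProduct_sum]
  refine Finset.sum_congr rfl fun i _ => ?_
  rw [Matrix.smul_mulVec, dotProduct_smul, smul_eq_mul]

theorem ev_im (A : Matrix (Fin n) (Fin n) ℂ) (hA : A.IsHermitian) (v : Fin n → ℂ) :
    (ev A v).im = 0 := hA.im_star_dotProduct_mulVec_self v

theorem amgm (a p : ℝ) (hp : 0 < p) (z : ℂ) :
    2 * (z * (a : ℂ)).re - p * Complex.normSq z ≤ a ^ 2 / p := by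
  rw [le_div_iff₀ hp, Complex.re_mul_ofReal, Complex.normSq_apply]
  nlinarith [sq_nonneg (a - p * z.re), mul_nonneg hp.le (mul_nonneg hp.le (mul_self_nonneg z.im))]

end Pool.Agent.X207.PU
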