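import Mathlib
import Pool.Agent.X34.CY.Stm

/-! Part CY_L1 (project CY, MP_6efeb4_pr): `|l1 ball of radius s in Z^k| ≤ 2^s C(k+s,s)`. -/

set_option autoImplicit false

namespace Pool.Agent.X207.CYL1

open Finset Pool.Agent.X34.CY

lemma mem_Wu (k R : ℕ) (w : Fin k → ℤ) : w ∈ Wu k R ↔ ∑ i, |w i| ≤ (R : ℤ) := by
  unfold Wu
  rw [mem_filter, Fintype.mem_piFinset]
  constructor
  · exact fun h => h.2
  · intro h
    refine ⟨fun i => ?_, h⟩
    have h1 : |w i| ≤ ∑ i, |w i| := Finset.single_le_sum (f := fun i => |w i|)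
      (fun j _ => abs_nonneg _) (mem_univ i)
    have h2 := abs_le.1 (h1.trans h)
    exact mem_Icc.2 h2

lemma step (k s : ℕ) : (Wu (k + 1) (s + 1)).card ≤ (Wu k (s + 1)).card + 2 * (Wu (k + 1) s).card := by
  classical
  have hsub : Wu (k + 1) (s + 1) ⊆ ((Wu k (s + 1)).image fun w => (Fin.cons 0 w : Fin (k + 1) → ℤ)) ∪
      (((Wu (k + 1) s).image fun w => (Fin.cons (w 0 + 1) (Fin.tail w) : Fin (k + 1) → ℤ)) ∪
      ((Wu (k + 1) s).image fun w => (Fin.cons (w 0 - 1) (Fin.tail w) : Fin (k + 1) → ℤ))) := by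
    intro w hw
    rw [mem_Wu, Fin.sum_univ_succ] at hw
    push_cast at hw
    rcases lt_trichotomy (w 0) 0 with h | h | h
    · refine mem_union_right _ (mem_union_right _ (mem_image.2
        ⟨(Fin.cons (w 0 + 1) (Fin.tail w) : Fin (k + 1) → ℤ), ?_, ?_⟩))
      · rw [mem_Wu, Fin.sum_univ_succ]
        simp only [Fin.cons_zero, Fin.cons_succ]
        have h1 : |w 0 + 1| = |w 0| - 1 := by
          rw [abs_of_nonpos (by omega), abs_of_neg h]; ring
        have h2 : ∑ i : Fin k, |Fin.tail w i| = ∑ i : Fin k, |w i.succ| := rfl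
        rw [h1, h2]
        linarith
      · simp
    · refine mem_union_left _ (mem_image.2 ⟨Fin.tail w, ?_, ?_⟩)
      · rw [mem_Wu]
        have h2 : ∑ i : Fin k, |Fin.tail w i| = ∑ i : Fin k, |w i.succ| := rfl
        rw [h2]
        rw [h] at hw
        push_cast
        simpa using hw
      · rw [← h]
        simp
    · refine mem_union_right _ (mem_union_left _ (mem_image.2
        ⟨(Fin.cons (w 0 - 1) (Fin.tail w) : Fin (k + 1) → ℤ), ?_, ?_⟩))
      · rw [mem_Wu, Fin.sum_univ_succ]
        simp only [Fin.cons_zero, Fin.cons_succ]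
        have h1 : |w 0 - 1| = |w 0| - 1 := by
          rw [abs_of_nonneg (by omega), abs_of_pos h]
        have h2 : ∑ i : Fin k, |Fin.tail w i| = ∑ i : Fin k, |w i.succ| := rfl
        rw [h1, h2]
        linarith
      · simp
  refine (card_le_card hsub).trans ?_
  refine (card_union_le _ _).trans ?_
  refine Nat.add_le_add card_image_le ?_
  refine (card_union_le _ _).trans ?_
  rw [two_mul]
  exact Nat.add_le_add card_image_le card_image_le

lemma base_s (k : ℕ) : (Wu k 0).card ≤ 1 := by
  rw [Finset.card_le_one]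
  intro a ha b hb
  rw [mem_Wu] at ha hb
  have key : ∀ w : Fin k → ℤ, ∑ i, |w i| ≤ ((0 : ℕ) : ℤ) → w = 0 := by
    intro w hw
    funext i
    have h1 : |w i| ≤ ∑ i, |w i| := Finset.single_le_sum (f := fun i => |w i|)
      (fun j _ => abs_nonneg _) (mem_univ i)
    have h2 : |w i| ≤ 0 := by
      have := h1.trans hw
      simpa using this
    exact abs_nonpos_iff.1 h2
  rw [key a ha, key b hb]

theorem t_L1 : S_L1 := by
  intro k
  induction k with
  | zero =>
    intro s
    have h1 : (Wu 0 s).card ≤ 1 := by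
      rw [Finset.card_le_one]
      intro a _ b _
      exact Subsingleton.elim _ _
    refine h1.trans ?_
    have h2 : 0 < 2 ^ s * (0 + s).choose s := by
      have : (0 + s).choose s = 1 := by simp
      rw [this]
      positivity
    exact h2
  | succ k ihk =>
    intro s
    induction s with
    | zero => simpa using base_s (k + 1)
    | succ s ihs =>
      refine (step k s).trans ?_
      have h1 := ihk (s + 1)
      have h3 : (k + 1 + (s + 1)).choose (s + 1) = (k + 1 + s).choose s + (k + (s + 1)).choose (s + 1) := by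
        have e : k + 1 + (s + 1) = (k + 1 + s) + 1 := by ring
        rw [e, Nat.choose_succ_succ, show k + 1 + s = k + (s + 1) by ring]
      rw [h3, pow_succ]
      rw [pow_succ] at h1
      nlinarith [h1, ihs]

end Pool.Agent.X207.CYL1
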