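import Mathlib
open Filter Topology MeasureTheory
namespace Pool.Agent.X207.GF

/-- `e^{-ct} ∫_0^t e^{cs} f(s) ds` -/
noncomputable def Fl (c : ℝ) (f : ℝ → ℝ) (t : ℝ) : ℝ :=
  Real.exp (-(c * t)) * ∫ s in (0 : ℝ)..t, Real.exp (c * s) * f s

lemma Fl_zero (c : ℝ) (f : ℝ → ℝ) : Fl c f 0 = 0 := by simp [Fl]

lemma Fl_deriv {f : ℝ → ℝ} (hf : Continuous f) (c t : ℝ) :
    HasDerivAt (Fl c f) (-(c * Fl c f t) + f t) t := by
  have h1 : HasDerivAt (fun t : ℝ => Real.exp (-(c * t))) (Real.exp (-(c * t)) * -(c * 1)) t :=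
    (((hasDerivAt_id t).const_mul c).neg).exp
  have hc : Continuous fun s : ℝ => Real.exp (c * s) * f s := by fun_prop
  have h2 := (hc.integral_hasStrictDerivAt 0 t).hasDerivAt
  have h3 := h1.mul h2
  refine h3.congr_deriv ?_
  have e : Real.exp (-(c * t)) * (Real.exp (c * t) * f t) = f t := by
    rw [← mul_assoc, ← Real.exp_add, neg_add_cancel, Real.exp_zero, one_mul]
  unfold Fl
  rw [e]; ring

lemma Fl_unique {f y : ℝ → ℝ} (hf : Continuous f) (c : ℝ) (hy0 : y 0 = 0)
    (hy : ∀ t, 0 ≤ t → HasDerivAt y (-(c * y t) + f t) t) (t : ℝ) (ht : 0 ≤ t) : y t = Fl c f t := by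
  set z : ℝ → ℝ := fun t => Real.exp (c * t) * (y t - Fl c f t) with hz
  have hd : ∀ t, 0 ≤ t → HasDerivAt z 0 t := by
    intro t ht
    have h1 : HasDerivAt (fun t : ℝ => Real.exp (c * t)) (Real.exp (c * t) * (c * 1)) t :=
      (((hasDerivAt_id t).const_mul c)).exp
    have h2 := h1.mul ((hy t ht).sub (Fl_deriv hf c t))
    refine h2.congr_deriv ?_
    rw [Pi.sub_apply]
    ring
  have hcon := constant_of_has_deriv_right_zero (f := z) (a := 0) (b := t)
    (fun x hx => (hd x hx.1).continuousAt.continuousWithinAt)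
    (fun x hx => (hd x hx.1).hasDerivWithinAt) t ⟨ht, le_rfl⟩
  have h0 : z 0 = 0 := by simp [hz, hy0, Fl_zero]
  rw [h0] at hcon
  have := (mul_eq_zero.mp hcon).resolve_left (Real.exp_pos _).ne'
  linarith

lemma Fl_cont {f : ℝ → ℝ} (hf : Continuous f) (c : ℝ) : Continuous (Fl c f) :=
  continuous_iff_continuousAt.mpr fun t => (Fl_deriv hf c t).continuousAt

lemma Fl_add {f g : ℝ → ℝ} (hf : Continuous f) (hg : Continuous g) (c t : ℝ) :
    Fl c (fun s => f s + g s) t = Fl c f t + Fl c g t := by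
  unfold Fl
  rw [← mul_add, ← intervalIntegral.integral_add]
  · congr 1
    apply intervalIntegral.integral_congr
    intro s _
    ring
  · exact (by fun_prop : Continuous fun s : ℝ => Real.exp (c * s) * f s).intervalIntegrable _ _
  · exact (by fun_prop : Continuous fun s : ℝ => Real.exp (c * s) * g s).intervalIntegrable _ _

lemma Fl_smul (f : ℝ → ℝ) (r c t : ℝ) : Fl c (fun s => r * f s) t = r * Fl c f t := by
  unfold Fl
  have : (fun s => Real.exp (c * s) * (r * f s)) = fun s => r * (Real.exp (c * s) * f s) := by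
    ext s; ring
  rw [this, intervalIntegral.integral_const_mul]; ring

lemma Fl_bound {f : ℝ → ℝ} (hf : Continuous f) {c M t : ℝ} (hc : 1 ≤ c) (ht : 0 ≤ t) (hM : 0 ≤ M)
    (hb : ∀ s, 0 ≤ s → |f s| ≤ M) : |Fl c f t| ≤ M := by
  have h1 : |∫ s in (0 : ℝ)..t, Real.exp (c * s) * f s| ≤ ∫ s in (0 : ℝ)..t, Real.exp (c * s) * M := by
    apply intervalIntegral.abs_integral_le_integral_abs ht |>.trans
    apply intervalIntegral.integral_mono_on ht
    · exact (by fun_prop : Continuous fun s : ℝ => |Real.exp (c * s) * f s|).intervalIntegrable _ _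
    · exact (by fun_prop : Continuous fun s : ℝ => Real.exp (c * s) * M).intervalIntegrable _ _
    · intro s hs
      rw [abs_mul, abs_of_pos (Real.exp_pos _)]
      exact mul_le_mul_of_nonneg_left (hb s hs.1) (Real.exp_pos _).le
  have h2 : ∫ s in (0 : ℝ)..t, Real.exp (c * s) * M = (Real.exp (c * t) - 1) / c * M := by
    rw [intervalIntegral.integral_mul_const]
    congr 1
    have hd : ∀ x ∈ Set.uIcc 0 t, HasDerivAt (fun s : ℝ => Real.exp (c * s) / c) (Real.exp (c * x)) x := by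
      intro x _
      have h1 : HasDerivAt (fun t : ℝ => Real.exp (c * t)) (Real.exp (c * x) * (c * 1)) x :=
        (((hasDerivAt_id x).const_mul c)).exp
      have h2 := h1.div_const c
      refine h2.congr_deriv ?_
      field_simp
    rw [intervalIntegral.integral_eq_sub_of_hasDerivAt hd
      ((by fun_prop : Continuous fun s : ℝ => Real.exp (c * s)).intervalIntegrable _ _)]
    simp; ring
  unfold Fl
  rw [abs_mul, abs_of_pos (Real.exp_pos _)]
  have hc0 : 0 < c := by linarith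
  have h3 : Real.exp (-(c * t)) * ((Real.exp (c * t) - 1) / c * M) ≤ M := by
    have e : Real.exp (-(c * t)) * ((Real.exp (c * t) - 1) / c * M) =
        (1 - Real.exp (-(c * t))) / c * M := by
      have e1 : Real.exp (-(c * t)) * Real.exp (c * t) = 1 := by
        rw [← Real.exp_add, neg_add_cancel, Real.exp_zero]
      field_simp
      linear_combination M * e1
    rw [e]
    have h4 : (1 - Real.exp (-(c * t))) / c ≤ 1 := by
      rw [div_le_one hc0]
      have := Real.exp_pos (-(c * t))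
      linarith
    nlinarith
  calc _ ≤ Real.exp (-(c * t)) * ∫ s in (0 : ℝ)..t, Real.exp (c * s) * M :=
        mul_le_mul_of_nonneg_left h1 (Real.exp_pos _).le
    _ ≤ M := by rw [h2]; exact h3

/-- solution of the renewal equation -/
noncomputable def G (η : ℝ → ℝ) (t : ℝ) : ℝ := η t + 4 / 3 * (Fl 1 η t - Fl 7 η t)

lemma G_cont {η : ℝ → ℝ} (h : Continuous η) : Continuous (G η) := by
  unfold G
  exact h.add (continuous_const.mul ((Fl_cont h 1).sub (Fl_cont h 7)))

lemma G_eq {η : ℝ → ℝ} (h : Continuous η) (t : ℝ) (ht : 0 ≤ t) :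
    G η t = η t + 4 * (Fl 3 (G η) t - Fl 5 (G η) t) := by
  have h3 : ∀ t, 0 ≤ t → 2 / 3 * Fl 1 η t + 1 / 3 * Fl 7 η t = Fl 3 (G η) t := by
    apply Fl_unique (y := fun t => 2 / 3 * Fl 1 η t + 1 / 3 * Fl 7 η t) (G_cont h) 3
    · simp [Fl_zero]
    · intro t _
      have := ((Fl_deriv h 1 t).const_mul (2 / 3)).add ((Fl_deriv h 7 t).const_mul (1 / 3))
      refine this.congr_deriv ?_
      unfold G; ring
  have h5 : ∀ t, 0 ≤ t → 1 / 3 * Fl 1 η t + 2 / 3 * Fl 7 η t = Fl 5 (G η) t := by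
    apply Fl_unique (y := fun t => 1 / 3 * Fl 1 η t + 2 / 3 * Fl 7 η t) (G_cont h) 5
    · simp [Fl_zero]
    · intro t _
      have := ((Fl_deriv h 1 t).const_mul (1 / 3)).add ((Fl_deriv h 7 t).const_mul (2 / 3))
      refine this.congr_deriv ?_
      unfold G; ring
  rw [← h3 t ht, ← h5 t ht]
  unfold G; ring

lemma G_unique {η γ : ℝ → ℝ} (h : Continuous η) (hγ : Continuous γ)
    (he : ∀ t, 0 ≤ t → γ t = η t + 4 * (Fl 3 γ t - Fl 5 γ t)) (t : ℝ) (ht : 0 ≤ t) : γ t = G η t := by
  have h1 : ∀ t, 0 ≤ t → 2 * Fl 3 γ t - Fl 5 γ t = Fl 1 η t := by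
    apply Fl_unique (y := fun t => 2 * Fl 3 γ t - Fl 5 γ t) h 1
    · simp [Fl_zero]
    · intro t ht
      have := ((Fl_deriv hγ 3 t).const_mul 2).sub (Fl_deriv hγ 5 t)
      refine this.congr_deriv ?_
      linear_combination he t ht
  have h7 : ∀ t, 0 ≤ t → 2 * Fl 5 γ t - Fl 3 γ t = Fl 7 η t := by
    apply Fl_unique (y := fun t => 2 * Fl 5 γ t - Fl 3 γ t) h 7
    · simp [Fl_zero]
    · intro t ht
      have := ((Fl_deriv hγ 5 t).const_mul 2).sub (Fl_deriv hγ 3 t)
      refine this.congr_deriv ?_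
      linear_combination he t ht
  unfold G
  rw [← h1 t ht, ← h7 t ht, he t ht]; ring

lemma G_nonneg {η : ℝ → ℝ} (h : Continuous η) (h0 : ∀ t, 0 ≤ t → 0 ≤ η t) (t : ℝ) (ht : 0 ≤ t) :
    0 ≤ G η t := by
  have h1 : Fl 7 η t ≤ Fl 1 η t := by
    unfold Fl
    rw [← intervalIntegral.integral_const_mul, ← intervalIntegral.integral_const_mul]
    apply intervalIntegral.integral_mono_on ht
    · exact (by fun_prop : Continuous fun s : ℝ => Real.exp (-(7 * t)) * (Real.exp (7 * s) * η s)).intervalIntegrable _ _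
    · exact (by fun_prop : Continuous fun s : ℝ => Real.exp (-(1 * t)) * (Real.exp (1 * s) * η s)).intervalIntegrable _ _
    · intro s hs
      rw [← mul_assoc, ← mul_assoc, ← Real.exp_add, ← Real.exp_add]
      apply mul_le_mul_of_nonneg_right _ (h0 s hs.1)
      apply Real.exp_le_exp.mpr
      linarith [hs.2]
  have := h0 t ht
  unfold G; linarith

end Pool.Agent.X207.GF
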