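import Mathlib
import Pool.Agent.X207.GF1
open Filter Topology MeasureTheory
namespace Pool.Agent.X207.GF

variable {E : Type} [NormedAddCommGroup E] [NormedSpace ℝ E] [CompleteSpace E]

/-- a strongly continuous group `U` with growth `e^{-3t}` (`t ≥ 0`), a functional `φ` and a vector
`β` with `φ (U t β) = 4 (e^{-3t} - e^{-5t})` -/
structure Sys (U : ℝ → E →L[ℝ] E) (φ : E →L[ℝ] ℝ) (β : E) : Prop where
  zero : ∀ x, U 0 x = x
  add : ∀ s t x, U (s + t) x = U s (U t x)
  cont : ∀ x, Continuous fun t => U t x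
  bd : ∀ t, 0 ≤ t → ∀ x, ‖U t x‖ ≤ Real.exp (-(3 * t)) * ‖x‖
  ker : ∀ t, 0 ≤ t → φ (U t β) = 4 * (Real.exp (-(3 * t)) - Real.exp (-(5 * t)))

variable {U : ℝ → E →L[ℝ] E} {φ : E →L[ℝ] ℝ} {β : E}

noncomputable def hh (U : ℝ → E →L[ℝ] E) (φ : E →L[ℝ] ℝ) (x : E) (t : ℝ) : ℝ := φ (U t x)
noncomputable def gg (U : ℝ → E →L[ℝ] E) (φ : E →L[ℝ] ℝ) (x : E) (t : ℝ) : ℝ := G (hh U φ x) t
noncomputable def V0 (U : ℝ → E →L[ℝ] E) (φ : E →L[ℝ] ℝ) (β : E) (t : ℝ) (x : E) : E :=
  U t x + ∫ s in (0 : ℝ)..t, gg U φ x s • U (t - s) β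

lemma Sys.hc (S : Sys U φ β) (x : E) : Continuous (hh U φ x) := by
  unfold hh; exact φ.continuous.comp (S.cont x)

lemma Sys.gc (S : Sys U φ β) (x : E) : Continuous (gg U φ x) := G_cont (S.hc x)

lemma Sys.ic (S : Sys U φ β) {γ : ℝ → ℝ} (hγ : Continuous γ) (u : ℝ) :
    Continuous fun s => γ s • U (u - s) β :=
  hγ.smul ((S.cont β).comp (continuous_const.sub continuous_id))

lemma Sys.conv (S : Sys U φ β) {γ : ℝ → ℝ} (hγ : Continuous γ) (u : ℝ) (hu : 0 ≤ u) :
    φ (∫ s in (0 : ℝ)..u, γ s • U (u - s) β) = 4 * (Fl 3 γ u - Fl 5 γ u) := by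
  rw [← ContinuousLinearMap.intervalIntegral_comp_comm φ ((S.ic hγ u).intervalIntegrable _ _)]
  have e1 : ∀ c : ℝ, Fl c γ u = ∫ s in (0 : ℝ)..u, Real.exp (-(c * (u - s))) * γ s := by
    intro c
    unfold Fl
    rw [← intervalIntegral.integral_const_mul]
    apply intervalIntegral.integral_congr
    intro s _
    simp only []
    rw [← mul_assoc, ← Real.exp_add]
    congr 2; ring
  rw [e1, e1, ← intervalIntegral.integral_sub, ← intervalIntegral.integral_const_mul]
  · apply intervalIntegral.integral_congr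
    intro s hs
    rw [Set.uIcc_of_le hu] at hs
    simp only []
    rw [map_smul, S.ker (u - s) (by linarith [hs.2]), smul_eq_mul]
    ring
  · exact (by fun_prop : Continuous fun s : ℝ => Real.exp (-(3 * (u - s))) * γ s).intervalIntegrable _ _
  · exact (by fun_prop : Continuous fun s : ℝ => Real.exp (-(5 * (u - s))) * γ s).intervalIntegrable _ _

lemma Sys.renewal (S : Sys U φ β) (x : E) (t : ℝ) (ht : 0 ≤ t) : φ (V0 U φ β t x) = gg U φ x t := by
  unfold V0
  rw [map_add, S.conv (S.gc x) t ht]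
  exact (G_eq (S.hc x) t ht).symm

lemma Sys.split (S : Sys U φ β) (x : E) (s u : ℝ) :
    V0 U φ β (s + u) x = U u (V0 U φ β s x) + ∫ r in (0 : ℝ)..u, gg U φ x (s + r) • U (u - r) β := by
  have hI := S.ic (S.gc x) (s + u)
  have e1 : ∫ r in (0 : ℝ)..(s + u), gg U φ x r • U (s + u - r) β =
      (∫ r in (0 : ℝ)..s, gg U φ x r • U (s + u - r) β) +
      ∫ r in s..(s + u), gg U φ x r • U (s + u - r) β :=
    (intervalIntegral.integral_add_adjacent_intervals (hI.intervalIntegrable _ _)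
      (hI.intervalIntegrable _ _)).symm
  have e2 : ∫ r in (0 : ℝ)..s, gg U φ x r • U (s + u - r) β =
      U u (∫ r in (0 : ℝ)..s, gg U φ x r • U (s - r) β) := by
    rw [← ContinuousLinearMap.intervalIntegral_comp_comm (U u) ((S.ic (S.gc x) s).intervalIntegrable _ _)]
    apply intervalIntegral.integral_congr
    intro r _
    simp only []
    rw [map_smul, ← S.add]
    congr 3; ring
  have e3 : ∫ r in s..(s + u), gg U φ x r • U (s + u - r) β =
      ∫ r in (0 : ℝ)..u, gg U φ x (s + r) • U (u - r) β := by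
    have := intervalIntegral.integral_comp_add_left (a := 0) (b := u)
      (fun r => gg U φ x r • U (s + u - r) β) s
    rw [add_zero] at this
    rw [← this]
    apply intervalIntegral.integral_congr
    intro r _
    simp only []
    congr 3; ring
  unfold V0
  rw [e1, e2, e3, map_add, add_comm s u, S.add]
  abel

lemma Sys.gshift (S : Sys U φ β) (x : E) {s : ℝ} (hs : 0 ≤ s) (u : ℝ) (hu : 0 ≤ u) :
    gg U φ x (s + u) = gg U φ (V0 U φ β s x) u := by
  have hγ : Continuous fun u => gg U φ x (s + u) :=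
    (S.gc x).comp (continuous_const.add continuous_id)
  apply G_unique (γ := fun u => gg U φ x (s + u)) (S.hc _) hγ _ u hu
  intro u hu
  have h1 := S.conv hγ u hu
  have h2 := S.renewal x (s + u) (by linarith)
  rw [S.split, map_add] at h2
  rw [← h2, h1]
  rfl

lemma Sys.semi (S : Sys U φ β) (x : E) {s u : ℝ} (hs : 0 ≤ s) (hu : 0 ≤ u) :
    V0 U φ β (s + u) x = V0 U φ β u (V0 U φ β s x) := by
  rw [S.split]
  conv_rhs => unfold V0
  congr 1
  apply intervalIntegral.integral_congr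
  intro r hr
  rw [Set.uIcc_of_le hu] at hr
  simp only []
  rw [S.gshift x hs r hr.1]
  rfl

lemma Sys.hbd (S : Sys U φ β) (x : E) (s : ℝ) (hs : 0 ≤ s) : |hh U φ x s| ≤ ‖φ‖ * ‖x‖ := by
  unfold hh
  have h1 := φ.le_opNorm (U s x)
  have h2 := S.bd s hs x
  have h3 : Real.exp (-(3 * s)) ≤ 1 := by
    rw [Real.exp_le_one_iff]; linarith
  rw [Real.norm_eq_abs] at h1
  refine h1.trans (mul_le_mul_of_nonneg_left ?_ (norm_nonneg _))
  have := norm_nonneg x
  nlinarith

lemma Sys.gbd (S : Sys U φ β) (x : E) (s : ℝ) (hs : 0 ≤ s) : |gg U φ x s| ≤ 4 * (‖φ‖ * ‖x‖) := by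
  have hM : 0 ≤ ‖φ‖ * ‖x‖ := by positivity
  have h0 := S.hbd x s hs
  have h1 := Fl_bound (S.hc x) (c := 1) le_rfl hs hM (S.hbd x)
  have h7 := Fl_bound (S.hc x) (c := 7) (by norm_num) hs hM (S.hbd x)
  unfold gg G
  rw [abs_le] at *
  constructor <;> linarith [h0.1, h0.2, h1.1, h1.2, h7.1, h7.2]

lemma gg_add (S : Sys U φ β) (x y : E) (s : ℝ) : gg U φ (x + y) s = gg U φ x s + gg U φ y s := by
  have e : hh U φ (x + y) = fun s => hh U φ x s + hh U φ y s := by
    ext s; simp [hh]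
  unfold gg G
  rw [e, Fl_add (S.hc x) (S.hc y), Fl_add (S.hc x) (S.hc y)]
  ring

lemma gg_smul (r : ℝ) (x : E) (s : ℝ) : gg U φ (r • x) s = r * gg U φ x s := by
  have e : hh U φ (r • x) = fun s => r * hh U φ x s := by
    ext s; simp [hh]
  unfold gg G
  rw [e, Fl_smul, Fl_smul]
  ring

lemma Sys.ubd (S : Sys U φ β) (t : ℝ) (ht : 0 ≤ t) (x : E) : ‖U t x‖ ≤ ‖x‖ := by
  have h2 := S.bd t ht x
  have h3 : Real.exp (-(3 * t)) ≤ 1 := by
    rw [Real.exp_le_one_iff]; linarith
  have := norm_nonneg x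
  nlinarith

lemma Sys.Ibd (S : Sys U φ β) (x : E) (t : ℝ) (ht : 0 ≤ t) :
    ‖∫ s in (0 : ℝ)..t, gg U φ x s • U (t - s) β‖ ≤ 4 * (‖φ‖ * ‖x‖) * ‖β‖ * t := by
  have h := intervalIntegral.norm_integral_le_of_norm_le_const (a := 0) (b := t)
    (f := fun s => gg U φ x s • U (t - s) β) (C := 4 * (‖φ‖ * ‖x‖) * ‖β‖) (by
      intro s hs
      rw [Set.uIoc_of_le ht] at hs
      rw [norm_smul, Real.norm_eq_abs]
      exact mul_le_mul (S.gbd x s hs.1.le) (S.ubd _ (by linarith [hs.2]) β) (norm_nonneg _) (by positivity))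
  rw [sub_zero, abs_of_nonneg ht] at h
  exact h

/-- the perturbed semigroup -/
noncomputable def Vop (S : Sys U φ β) (t : ℝ) : E →L[ℝ] E :=
  LinearMap.mkContinuous
    { toFun := fun x => V0 U φ β (max t 0) x
      map_add' := by
        intro x y
        unfold V0
        have e : (fun s => gg U φ (x + y) s • U (max t 0 - s) β) =
            fun s => gg U φ x s • U (max t 0 - s) β + gg U φ y s • U (max t 0 - s) β := by
          ext s; rw [gg_add S, add_smul]
        rw [map_add, e, intervalIntegral.integral_add ((S.ic (S.gc x) _).intervalIntegrable _ _)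
          ((S.ic (S.gc y) _).intervalIntegrable _ _)]
        abel
      map_smul' := by
        intro r x
        unfold V0
        have e : (fun s => gg U φ (r • x) s • U (max t 0 - s) β) =
            fun s => r • (gg U φ x s • U (max t 0 - s) β) := by
          ext s; rw [gg_smul, mul_smul]
        rw [map_smul, e, intervalIntegral.integral_smul, RingHom.id_apply, smul_add] }
    (1 + 4 * ‖φ‖ * ‖β‖ * max t 0) (by
      intro x
      show ‖V0 U φ β (max t 0) x‖ ≤ _
      unfold V0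
      refine (norm_add_le _ _).trans ?_
      have h1 := S.ubd (max t 0) (le_max_right _ _) x
      have h2 := S.Ibd x (max t 0) (le_max_right _ _)
      nlinarith)

lemma Vop_apply (S : Sys U φ β) {t : ℝ} (ht : 0 ≤ t) (x : E) : Vop S t x = V0 U φ β t x := by
  show V0 U φ β (max t 0) x = _
  rw [max_eq_left ht]

end Pool.Agent.X207.GF
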