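import Mathlib
import Pool.Agent.X207.GF2
open Filter Topology MeasureTheory
namespace Pool.Agent.X207.GF

variable {E : Type} [NormedAddCommGroup E] [NormedSpace ℝ E] [CompleteSpace E]
variable {U : ℝ → E →L[ℝ] E} {φ : E →L[ℝ] ℝ} {β : E}

lemma Vop_zero (S : Sys U φ β) (x : E) : Vop S 0 x = x := by
  rw [Vop_apply S le_rfl]; unfold V0; simp [S.zero]

lemma Vop_add (S : Sys U φ β) {s t : ℝ} (hs : 0 ≤ s) (ht : 0 ≤ t) (x : E) :
    Vop S (s + t) x = Vop S s (Vop S t x) := by
  rw [Vop_apply S (add_nonneg hs ht), Vop_apply S hs, Vop_apply S ht, add_comm s t]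
  exact S.semi x ht hs

noncomputable def JJ (U : ℝ → E →L[ℝ] E) (φ : E →L[ℝ] ℝ) (β : E) (x : E) (t : ℝ) : E :=
  ∫ s in (0 : ℝ)..t, gg U φ x s • U (t - s) β

lemma Sys.Jlim (S : Sys U φ β) (x : E) :
    Tendsto (fun t => t⁻¹ • JJ U φ β x t) (𝓝[>] 0) (𝓝 (φ x • β)) := by
  have hF : Continuous fun p : ℝ × ℝ => gg U φ x p.2 • U (p.1 - p.2) β :=
    ((S.gc x).comp continuous_snd).smul ((S.cont β).comp (continuous_fst.sub continuous_snd))
  have hF0 : gg U φ x 0 • U (0 - 0) β = φ x • β := by
    unfold gg G hh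
    rw [Fl_zero, Fl_zero, sub_zero, S.zero, S.zero]; simp
  rw [Metric.tendsto_nhdsWithin_nhds]
  intro ε hε
  have hc := hF.tendsto (0, 0)
  rw [Metric.tendsto_nhds_nhds] at hc
  obtain ⟨δ, hδ, hd⟩ := hc (ε / 2) (half_pos hε)
  refine ⟨δ, hδ, fun {t} ht hdt => ?_⟩
  have ht0 : (0 : ℝ) < t := ht
  rw [Real.dist_eq, sub_zero, abs_of_pos ht0] at hdt
  have e : t⁻¹ • JJ U φ β x t - φ x • β =
      t⁻¹ • ∫ s in (0 : ℝ)..t, (gg U φ x s • U (t - s) β - φ x • β) := by
    rw [intervalIntegral.integral_sub ((S.ic (S.gc x) t).intervalIntegrable _ _)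
      (continuous_const.intervalIntegrable _ _), intervalIntegral.integral_const, smul_sub, sub_zero,
      smul_smul t⁻¹ t, inv_mul_cancel₀ ht0.ne', one_smul]
    rfl
  rw [dist_eq_norm, e, norm_smul, norm_inv, Real.norm_eq_abs, abs_of_pos ht0]
  have h := intervalIntegral.norm_integral_le_of_norm_le_const (a := 0) (b := t)
    (f := fun s => gg U φ x s • U (t - s) β - φ x • β) (C := ε / 2) (by
      intro s hs
      rw [Set.uIoc_of_le ht0.le] at hs
      have h1 := @hd (t, s) (by
        rw [Prod.dist_eq, Real.dist_eq, Real.dist_eq]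
        simp only [sub_zero]
        rw [abs_of_pos ht0, abs_of_pos hs.1]
        exact max_lt hdt (lt_of_le_of_lt hs.2 hdt))
      rw [dist_eq_norm] at h1
      simp only [] at h1
      rw [hF0] at h1
      exact h1.le)
  rw [sub_zero, abs_of_pos ht0] at h
  calc t⁻¹ * _ ≤ t⁻¹ * (ε / 2 * t) := mul_le_mul_of_nonneg_left h (inv_nonneg.mpr ht0.le)
    _ = ε / 2 := by field_simp
    _ < ε := half_lt_self hε

lemma Sys.vlim (S : Sys U φ β) (x : E) : Tendsto (fun t => Vop S t x) (𝓝[>] 0) (𝓝 x) := by
  have h1 : Tendsto (fun t => U t x) (𝓝[>] 0) (𝓝 x) := by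
    have := (S.cont x).tendsto 0
    rw [S.zero] at this
    exact this.mono_left nhdsWithin_le_nhds
  have h2 : Tendsto (fun t : ℝ => t • (t⁻¹ • JJ U φ β x t)) (𝓝[>] 0) (𝓝 ((0 : ℝ) • (φ x • β))) :=
    (tendsto_id.mono_left nhdsWithin_le_nhds).smul (S.Jlim x)
  have h3 := h1.add h2
  rw [zero_smul, add_zero] at h3
  refine h3.congr' ?_
  filter_upwards [self_mem_nhdsWithin] with t ht
  have ht0 : (0 : ℝ) < t := ht
  rw [smul_smul, mul_inv_cancel₀ ht0.ne', one_smul, Vop_apply S ht0.le]
  rfl

lemma Sys.gen (S : Sys U φ β) (x k : E) :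
    Tendsto (fun t : ℝ => t⁻¹ • (Vop S t x - x)) (𝓝[>] 0) (𝓝 k) ↔
    Tendsto (fun t : ℝ => t⁻¹ • (U t x - x)) (𝓝[>] 0) (𝓝 (k - φ x • β)) := by
  have e : ∀ t : ℝ, 0 < t → t⁻¹ • (Vop S t x - x) = t⁻¹ • (U t x - x) + t⁻¹ • JJ U φ β x t := by
    intro t ht
    rw [Vop_apply S ht.le, ← smul_add]
    congr 1
    unfold V0 JJ
    abel
  constructor
  · intro h
    have := h.sub (S.Jlim x)
    refine this.congr' ?_
    filter_upwards [self_mem_nhdsWithin] with t ht
    rw [e t ht]; abel
  · intro h
    have := h.add (S.Jlim x)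
    rw [sub_add_cancel] at this
    refine this.congr' ?_
    filter_upwards [self_mem_nhdsWithin] with t ht
    rw [e t ht]

lemma Sys.lower (S : Sys U φ β) (t : ℝ) (ht : 0 ≤ t) :
    φ (Vop S t β) = 4 / 3 * (Real.exp (-(1 * t)) - Real.exp (-(7 * t))) := by
  rw [Vop_apply S ht, S.renewal β t ht]
  have hd : ∀ c t : ℝ, HasDerivAt (fun t : ℝ => Real.exp (-(c * t))) (-(c * Real.exp (-(c * t)))) t := by
    intro c t
    have h1 : HasDerivAt (fun t : ℝ => Real.exp (-(c * t))) (Real.exp (-(c * t)) * -(c * 1)) t :=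
      (((hasDerivAt_id t).const_mul c).neg).exp
    refine h1.congr_deriv ?_
    ring
  symm
  apply G_unique (γ := fun t => 4 / 3 * (Real.exp (-(1 * t)) - Real.exp (-(7 * t)))) (S.hc β)
    (by fun_prop) _ t ht
  intro t ht
  have h3 : ∀ t, 0 ≤ t → 2 / 3 * Real.exp (-(1 * t)) - Real.exp (-(3 * t)) + 1 / 3 * Real.exp (-(7 * t)) =
      Fl 3 (fun t => 4 / 3 * (Real.exp (-(1 * t)) - Real.exp (-(7 * t)))) t := by
    apply Fl_unique (y := fun t => 2 / 3 * Real.exp (-(1 * t)) - Real.exp (-(3 * t)) +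
      1 / 3 * Real.exp (-(7 * t))) (by fun_prop) 3
    · norm_num
    · intro t _
      have := (((hd 1 t).const_mul (2 / 3)).sub (hd 3 t)).add ((hd 7 t).const_mul (1 / 3))
      refine this.congr_deriv ?_
      ring
  have h5 : ∀ t, 0 ≤ t → 1 / 3 * Real.exp (-(1 * t)) - Real.exp (-(5 * t)) + 2 / 3 * Real.exp (-(7 * t)) =
      Fl 5 (fun t => 4 / 3 * (Real.exp (-(1 * t)) - Real.exp (-(7 * t)))) t := by
    apply Fl_unique (y := fun t => 1 / 3 * Real.exp (-(1 * t)) - Real.exp (-(5 * t)) +
      2 / 3 * Real.exp (-(7 * t))) (by fun_prop) 5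
    · norm_num
    · intro t _
      have := (((hd 1 t).const_mul (1 / 3)).sub (hd 5 t)).add ((hd 7 t).const_mul (2 / 3))
      refine this.congr_deriv ?_
      ring
  rw [← h3 t ht, ← h5 t ht]
  have hk : hh U φ β t = 4 * (Real.exp (-(3 * t)) - Real.exp (-(5 * t))) := S.ker t ht
  rw [hk]; ring

/-- integral of `gg` as a functional -/
noncomputable def LL (S : Sys U φ β) (a b : ℝ) : E →L[ℝ] ℝ :=
  LinearMap.mkContinuous
    { toFun := fun x => ∫ s in (max a 0)..(max b 0), gg U φ x s
      map_add' := by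
        intro x y
        have e : (fun s => gg U φ (x + y) s) = fun s => gg U φ x s + gg U φ y s := by
          ext s; rw [gg_add S]
        rw [e, intervalIntegral.integral_add ((S.gc x).intervalIntegrable _ _)
          ((S.gc y).intervalIntegrable _ _)]
      map_smul' := by
        intro r x
        have e : (fun s => gg U φ (r • x) s) = fun s => r * gg U φ x s := by
          ext s; rw [gg_smul]
        rw [e, intervalIntegral.integral_const_mul, RingHom.id_apply, smul_eq_mul] }
    (4 * ‖φ‖ * |max b 0 - max a 0|) (by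
      intro x
      show ‖∫ s in (max a 0)..(max b 0), gg U φ x s‖ ≤ _
      have h := intervalIntegral.norm_integral_le_of_norm_le_const (a := max a 0) (b := max b 0)
        (f := fun s => gg U φ x s) (C := 4 * (‖φ‖ * ‖x‖)) (by
          intro s hs
          rw [Real.norm_eq_abs]
          apply S.gbd x s
          have h1 : min (max a 0) (max b 0) < s := hs.1
          have h2 : (0 : ℝ) ≤ min (max a 0) (max b 0) := le_min (le_max_right _ _) (le_max_right _ _)
          linarith)
      refine h.trans (le_of_eq ?_)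
      ring)

lemma LL_apply (S : Sys U φ β) {a b : ℝ} (ha : 0 ≤ a) (hb : 0 ≤ b) (x : E) :
    LL S a b x = ∫ s in a..b, gg U φ x s := by
  show ∫ s in (max a 0)..(max b 0), gg U φ x s = _
  rw [max_eq_left ha, max_eq_left hb]

lemma Sys.compact (S : Sys U φ β) {t ε : ℝ} (ht : 0 < t) (hε : 0 < ε) :
    ∃ K : E →L[ℝ] E, IsCompactOperator K ∧ ‖Vop S t - K‖ ≤ Real.exp (-(3 * t)) + ε := by
  -- uniform continuity on the compact interval
  have hcu : UniformContinuousOn (fun s => U (t - s) β) (Set.Icc 0 t) :=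
    isCompact_Icc.uniformContinuousOn_of_continuous
      ((S.cont β).comp (continuous_const.sub continuous_id)).continuousOn
  set ε' := ε / (4 * ‖φ‖ * t + 1) with hε'
  have hden : 0 < 4 * ‖φ‖ * t + 1 := by positivity
  have hε'0 : 0 < ε' := div_pos hε hden
  rw [Metric.uniformContinuousOn_iff] at hcu
  obtain ⟨δ, hδ, hd⟩ := hcu ε' hε'0
  obtain ⟨N, hN⟩ := exists_nat_gt (t / δ)
  have hN0 : (0 : ℝ) < N := lt_trans (div_pos ht hδ) hN
  have hNn : N ≠ 0 := by rintro rfl; simp at hN0
  have htN : t / N < δ := by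
    rw [div_lt_iff₀ hN0]
    rw [div_lt_iff₀ hδ] at hN
    linarith
  set a : ℕ → ℝ := fun i => t * i / N with ha
  have ha0 : ∀ i, 0 ≤ a i := fun i => by simp only [ha]; positivity
  have hstep : ∀ i, a (i + 1) - a i = t / N := by
    intro i; simp only [ha]; push_cast; field_simp; ring
  have hlast : a N = t := by simp only [ha]; field_simp
  have hle : ∀ i < N, a (i + 1) ≤ t := by
    intro i hi
    have : ((i + 1 : ℕ) : ℝ) ≤ N := by exact_mod_cast hi
    simp only [ha]
    rw [div_le_iff₀ hN0]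
    nlinarith
  refine ⟨∑ i ∈ Finset.range N, (LL S (a i) (a (i + 1))).smulRight (U (t - a i) β), ?_, ?_⟩
  · have : ∀ M : ℕ, IsCompactOperator
        (∑ i ∈ Finset.range M, (LL S (a i) (a (i + 1))).smulRight (U (t - a i) β) : E →L[ℝ] E) := by
      intro M
      induction M with
      | zero => simpa using (isCompactOperator_zero : IsCompactOperator (0 : E → E))
      | succ M ih =>
        rw [Finset.sum_range_succ]
        have h1 : IsCompactOperator ((LL S (a M) (a (M + 1))).smulRight (U (t - a M) β)) := by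
          have h2 : IsCompactOperator (ContinuousLinearMap.toSpanSingleton ℝ (U (t - a M) β)) :=
            isCompactOperator_of_locallyCompactSpace_rng _
          exact h2.comp_clm (LL S (a M) (a (M + 1)))
        have h3 := ih.add h1
        exact h3
    exact this N
  · apply ContinuousLinearMap.opNorm_le_bound _ (by positivity)
    intro x
    have e1 : (Vop S t - ∑ i ∈ Finset.range N, (LL S (a i) (a (i + 1))).smulRight (U (t - a i) β)) x =
        U t x + ∑ i ∈ Finset.range N, ∫ s in (a i)..(a (i + 1)),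
          gg U φ x s • (U (t - s) β - U (t - a i) β) := by
      rw [ContinuousLinearMap.sub_apply, Vop_apply S ht.le, V0]
      have h1 := intervalIntegral.sum_integral_adjacent_intervals (a := a) (n := N)
        (f := fun s => gg U φ x s • U (t - s) β) (μ := volume)
        (fun k _ => (S.ic (S.gc x) t).intervalIntegrable _ _)
      have h0 : a 0 = 0 := by simp [ha]
      rw [h0, hlast] at h1
      rw [← h1, ContinuousLinearMap.sum_apply, add_sub_assoc, ← Finset.sum_sub_distrib]
      congr 1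
      apply Finset.sum_congr rfl
      intro i _
      rw [ContinuousLinearMap.smulRight_apply, LL_apply S (ha0 _) (ha0 _), ← intervalIntegral.integral_smul_const,
        ← intervalIntegral.integral_sub ((S.ic (S.gc x) t).intervalIntegrable _ _)]
      · apply intervalIntegral.integral_congr
        intro s _
        simp only []
        rw [smul_sub]
      · exact (((S.gc x).smul continuous_const)).intervalIntegrable _ _
    rw [e1]
    refine (norm_add_le _ _).trans ?_
    have h2 := S.bd t ht.le x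
    have h3 : ‖∑ i ∈ Finset.range N, ∫ s in (a i)..(a (i + 1)),
          gg U φ x s • (U (t - s) β - U (t - a i) β)‖ ≤ ∑ i ∈ Finset.range N, (4 * (‖φ‖ * ‖x‖) * ε') * (t / N) := by
      refine (norm_sum_le _ _).trans (Finset.sum_le_sum ?_)
      intro i hi
      have hi' := Finset.mem_range.mp hi
      have hst := hstep i
      have hlei : a i ≤ a (i + 1) := by
        have : 0 ≤ t / N := by positivity
        linarith
      have h := intervalIntegral.norm_integral_le_of_norm_le_const (a := a i) (b := a (i + 1))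
        (f := fun s => gg U φ x s • (U (t - s) β - U (t - a i) β)) (C := 4 * (‖φ‖ * ‖x‖) * ε') (by
          intro s hs
          rw [Set.uIoc_of_le hlei] at hs
          have hs0 : 0 ≤ s := (ha0 i).trans hs.1.le
          rw [norm_smul, Real.norm_eq_abs]
          apply mul_le_mul (S.gbd x s hs0) _ (norm_nonneg _) (by positivity)
          have h4 := hd s ⟨hs0, hs.2.trans (hle i hi')⟩ (a i) ⟨ha0 i, hlei.trans (hle i hi')⟩ (by
            rw [Real.dist_eq, abs_of_nonneg (by linarith [hs.1])]
            linarith [hs.2])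
          rw [dist_eq_norm] at h4
          exact h4.le)
      rw [hst, abs_of_nonneg (by positivity)] at h
      exact h
    rw [Finset.sum_const, Finset.card_range, nsmul_eq_mul] at h3
    have h5 : (N : ℝ) * ((4 * (‖φ‖ * ‖x‖) * ε') * (t / N)) ≤ ε * ‖x‖ := by
      have e : (N : ℝ) * ((4 * (‖φ‖ * ‖x‖) * ε') * (t / N)) = (4 * ‖φ‖ * t) * ε' * ‖x‖ := by
        field_simp
      rw [e]
      apply mul_le_mul_of_nonneg_right _ (norm_nonneg _)
      have e2 : (4 * ‖φ‖ * t + 1) * ε' = ε := by
        rw [hε']; field_simp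
      linarith
    calc _ ≤ Real.exp (-(3 * t)) * ‖x‖ + ε * ‖x‖ := add_le_add h2 (h3.trans h5)
      _ = _ := by ring

end Pool.Agent.X207.GF
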