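import Mathlib
import Pool.Agent.X207.GF3
open Filter Topology MeasureTheory Set
open scoped NNReal ENNReal
namespace Pool.Agent.X207.GF

/-- the measure `x dx` on `(0,∞)` -/
noncomputable def mass : Measure ℝ :=
  (volume.restrict (Ioi 0)).withDensity (fun x => ENNReal.ofReal x)
abbrev X1 : Type := Lp ℝ 1 mass
abbrev L1 : Type := Lp ℝ 1 (volume : Measure ℝ)

noncomputable def wt (s : ℝ) : ℝ≥0 := Real.toNNReal (Real.exp (2 * s))

lemma wt_meas : Measurable wt := by unfold wt; fun_prop
lemma wt_coe (s : ℝ) : ((wt s : ℝ≥0) : ℝ) = Real.exp (2 * s) :=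
  Real.coe_toNNReal _ (Real.exp_pos _).le

lemma mp_exp : MeasurePreserving Real.exp ((volume : Measure ℝ).withDensity fun s => (wt s : ℝ≥0∞)) mass := by
  refine ⟨Real.measurable_exp, ?_⟩
  ext A hA
  rw [Measure.map_apply Real.measurable_exp hA, withDensity_apply _ (Real.measurable_exp hA), mass,
    withDensity_apply _ hA, ← lintegral_indicator hA, ← lintegral_indicator (Real.measurable_exp hA)]
  have h := lintegral_image_eq_lintegral_abs_deriv_mul (s := univ) (f := Real.exp) (f' := Real.exp)
    MeasurableSet.univ (fun x _ => (Real.hasDerivAt_exp x).hasDerivWithinAt)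
    Real.exp_injective.injOn (A.indicator fun x => ENNReal.ofReal x)
  rw [image_univ, Real.range_exp, Measure.restrict_univ] at h
  rw [h]
  apply lintegral_congr
  intro s
  by_cases hs : Real.exp s ∈ A
  · rw [indicator_of_mem (show s ∈ Real.exp ⁻¹' A from hs), indicator_of_mem hs,
      abs_of_pos (Real.exp_pos s), ← ENNReal.ofReal_mul (Real.exp_pos s).le, ← Real.exp_add]
    show ENNReal.ofReal (Real.exp (2 * s)) = _
    congr 2; ring
  · rw [indicator_of_notMem (show s ∉ Real.exp ⁻¹' A from hs), indicator_of_notMem hs, mul_zero]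

/-- the isometry onto `L¹(ℝ)`: `f ↦ e^{2s} f(e^s)` -/
noncomputable def J' : X1 →ₗᵢ[ℝ] L1 :=
  (withDensitySMulLI (volume : Measure ℝ) (E := ℝ) wt_meas).comp
    (Lp.compMeasurePreservingₗᵢ ℝ Real.exp mp_exp)

lemma vol_ac : (volume : Measure ℝ) ≪ (volume : Measure ℝ).withDensity fun s => (wt s : ℝ≥0∞) := by
  apply withDensity_absolutelyContinuous'
  · exact (wt_meas.coe_nnreal_ennreal).aemeasurable
  · apply ae_of_all
    intro s
    rw [Ne, ENNReal.coe_eq_zero]
    intro h
    have := wt_coe s
    rw [h] at this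
    exact (Real.exp_pos (2 * s)).ne this

lemma J'_coe (f : X1) : J' f =ᵐ[volume] fun s => Real.exp (2 * s) * f (Real.exp s) := by
  have h1 : J' f =ᵐ[volume] fun s => wt s • (Lp.compMeasurePreserving Real.exp mp_exp f) s :=
    (memL1_smul_of_L1_withDensity wt_meas (Lp.compMeasurePreserving Real.exp mp_exp f)).coeFn_toLp
  have h2 := vol_ac.ae_le (Lp.coeFn_compMeasurePreserving f mp_exp)
  filter_upwards [h1, h2] with s h1 h2
  rw [h1, h2, NNReal.smul_def, wt_coe]
  rfl

lemma J'_surj : Function.Surjective J' := by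
  intro F
  set m : ℝ → ℝ := fun s => Real.exp (-(2 * s)) * F s with hm
  have hmm : StronglyMeasurable m :=
    (by fun_prop : Measurable fun s : ℝ => Real.exp (-(2 * s))).stronglyMeasurable.mul (Lp.stronglyMeasurable F)
  have hmi : Integrable m ((volume : Measure ℝ).withDensity fun s => (wt s : ℝ≥0∞)) := by
    rw [integrable_withDensity_iff_integrable_smul wt_meas]
    have e : (fun s => wt s • m s) = F := by
      ext s
      rw [NNReal.smul_def, wt_coe, smul_eq_mul, hm]
      simp only []
      rw [← mul_assoc, ← Real.exp_add, add_neg_cancel, Real.exp_zero, one_mul]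
    rw [e]
    exact L1.integrable_coeFn F
  have hf0 : StronglyMeasurable (fun y => m (Real.log y)) := hmm.comp_measurable Real.measurable_log
  have hcomp : (fun y => m (Real.log y)) ∘ Real.exp = m := by
    ext s; simp
  have hint : Integrable (fun y => m (Real.log y)) mass := by
    rw [← mp_exp.integrable_comp hf0.aestronglyMeasurable, hcomp]
    exact hmi
  refine ⟨(memLp_one_iff_integrable.mpr hint).toLp _, ?_⟩
  apply Lp.ext
  have h1 := J'_coe ((memLp_one_iff_integrable.mpr hint).toLp _)
  have h2 := vol_ac.ae_le (mp_exp.quasiMeasurePreserving.ae_eq_comp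
    (MemLp.coeFn_toLp (memLp_one_iff_integrable.mpr hint)))
  filter_upwards [h1, h2] with s h1 h2
  rw [h1]
  have h3 : ((memLp_one_iff_integrable.mpr hint).toLp _ : X1) (Real.exp s) = m s := by
    have := h2
    simp only [Function.comp_apply, Real.log_exp] at this
    exact this
  rw [h3, hm]
  simp only []
  rw [← mul_assoc, ← Real.exp_add, add_neg_cancel, Real.exp_zero, one_mul]

noncomputable def J : X1 ≃ₗᵢ[ℝ] L1 := LinearIsometryEquiv.ofSurjective J' J'_surj

lemma J_coe (f : X1) : J f =ᵐ[volume] fun s => Real.exp (2 * s) * f (Real.exp s) := J'_coe f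

/-- translation on `L¹(ℝ)` -/
noncomputable def tr (t : ℝ) : L1 →ₗᵢ[ℝ] L1 :=
  Lp.compMeasurePreservingₗᵢ ℝ (fun s : ℝ => s - t) (measurePreserving_sub_right volume t)

lemma tr_coe (t : ℝ) (F : L1) : tr t F =ᵐ[volume] fun s => F (s - t) :=
  Lp.coeFn_compMeasurePreserving F (measurePreserving_sub_right volume t)

lemma tr_zero (F : L1) : tr 0 F = F := by
  apply Lp.ext
  filter_upwards [tr_coe 0 F] with s h
  rw [h, sub_zero]

lemma tr_add (s t : ℝ) (F : L1) : tr (s + t) F = tr s (tr t F) := by
  apply Lp.ext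
  have h3 := (measurePreserving_sub_right volume s).quasiMeasurePreserving.ae_eq_comp (tr_coe t F)
  filter_upwards [tr_coe (s + t) F, tr_coe s (tr t F), h3] with r h1 h2 h3
  rw [h1, h2]
  have : (tr t F) (r - s) = F (r - s - t) := h3
  rw [this]
  congr 1; ring

lemma tr_cont (F : L1) : Continuous fun t => tr t F := by
  have hg : Continuous fun t : ℝ => (⟨fun s : ℝ => s - t, by fun_prop⟩ : C(ℝ, ℝ)) := by
    apply ContinuousMap.continuous_of_continuous_uncurry
    exact (by fun_prop : Continuous fun p : ℝ × ℝ => p.2 - p.1)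
  exact Continuous.compMeasurePreservingLp (f := fun _ : ℝ => F) (E := ℝ) (p := 1)
    (g := fun t : ℝ => (⟨fun s : ℝ => s - t, by fun_prop⟩ : C(ℝ, ℝ))) continuous_const hg
    (fun t => measurePreserving_sub_right volume t) ENNReal.one_ne_top

/-- the transport semigroup (group) with mass loss: `(U t f)(y) = e^{-5t} f(e^{-t} y)` -/
noncomputable def UU (t : ℝ) : X1 →L[ℝ] X1 :=
  Real.exp (-(3 * t)) • ((J.symm.toContinuousLinearEquiv : L1 →L[ℝ] X1).comp
    ((tr t).toContinuousLinearMap.comp (J.toContinuousLinearEquiv : X1 →L[ℝ] L1)))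

lemma UU_apply (t : ℝ) (f : X1) : UU t f = Real.exp (-(3 * t)) • J.symm (tr t (J f)) := rfl

lemma UU_zero (f : X1) : UU 0 f = f := by
  rw [UU_apply, tr_zero, LinearIsometryEquiv.symm_apply_apply]; simp

lemma UU_add (s t : ℝ) (f : X1) : UU (s + t) f = UU s (UU t f) := by
  rw [UU_apply, UU_apply, UU_apply, map_smul, map_smul, map_smul, LinearIsometryEquiv.apply_symm_apply,
    smul_smul, ← Real.exp_add, tr_add]
  congr 2; ring

lemma UU_cont (f : X1) : Continuous fun t => UU t f := by
  have h : Continuous fun t : ℝ => Real.exp (-(3 * t)) • J.symm (tr t (J f)) :=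
    (by fun_prop : Continuous fun t : ℝ => Real.exp (-(3 * t))).smul
      (J.symm.continuous.comp (tr_cont (J f)))
  exact h

lemma UU_norm (t : ℝ) (f : X1) : ‖UU t f‖ = Real.exp (-(3 * t)) * ‖f‖ := by
  rw [UU_apply, norm_smul, Real.norm_of_nonneg (Real.exp_pos _).le, LinearIsometryEquiv.norm_map,
    LinearIsometry.norm_map, LinearIsometryEquiv.norm_map]

lemma UU_coe (t : ℝ) (f : X1) : UU t f =ᵐ[mass] fun y => Real.exp (-(5 * t)) * f (Real.exp (-t) * y) := by
  have h1 : J (UU t f) = Real.exp (-(3 * t)) • tr t (J f) := by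
    rw [UU_apply, map_smul, LinearIsometryEquiv.apply_symm_apply]
  have h2 := J_coe (UU t f)
  rw [h1] at h2
  have h3 := Lp.coeFn_smul (Real.exp (-(3 * t))) (tr t (J f))
  have h4 := tr_coe t (J f)
  have h5 := (measurePreserving_sub_right volume t).quasiMeasurePreserving.ae_eq_comp (J_coe f)
  have key : ∀ᵐ s ∂(volume : Measure ℝ), (UU t f) (Real.exp s) =
      Real.exp (-(5 * t)) * f (Real.exp (-t) * Real.exp s) := by
    filter_upwards [h2, h3, h4, h5] with s h2 h3 h4 h5
    have h5' : (J f) (s - t) = Real.exp (2 * (s - t)) * f (Real.exp (s - t)) := h5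
    rw [h3, Pi.smul_apply, h4, h5', smul_eq_mul] at h2
    have e1 : Real.exp (-t) * Real.exp s = Real.exp (s - t) := by
      rw [← Real.exp_add]; congr 1; ring
    rw [e1]
    have e2 : Real.exp (2 * s) * (Real.exp (-(5 * t)) * f (Real.exp (s - t))) =
        Real.exp (-(3 * t)) * (Real.exp (2 * (s - t)) * f (Real.exp (s - t))) := by
      rw [← mul_assoc, ← mul_assoc, ← Real.exp_add, ← Real.exp_add]
      congr 2; ring
    rw [← e2] at h2
    exact (mul_left_cancel₀ (Real.exp_pos _).ne' h2).symm
  have key2 : ∀ᵐ s ∂((volume : Measure ℝ).withDensity fun s => (wt s : ℝ≥0∞)), (UU t f) (Real.exp s) =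
      Real.exp (-(5 * t)) * f (Real.exp (-t) * Real.exp s) :=
    (withDensity_absolutelyContinuous _ _).ae_le key
  have hms : MeasurableSet {y | (UU t f) y = Real.exp (-(5 * t)) * f (Real.exp (-t) * y)} := by
    apply measurableSet_eq_fun (Lp.stronglyMeasurable _).measurable
    exact ((Lp.stronglyMeasurable f).measurable.comp (measurable_const_mul _)).const_mul _
  have := (ae_map_iff mp_exp.measurable.aemeasurable hms).mpr key2
  rw [mp_exp.map_eq] at this
  exact this

end Pool.Agent.X207.GF
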