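import Mathlib
import Pool.Agent.X207.GF4
open Filter Topology MeasureTheory Set
open scoped NNReal ENNReal
namespace Pool.Agent.X207.GF

lemma mass_fin : mass (Iio 1) ≠ ∞ := by
  rw [mass, withDensity_apply _ measurableSet_Iio, Measure.restrict_restrict measurableSet_Iio]
  have h : ∫⁻ a in Iio (1 : ℝ) ∩ Ioi 0, ENNReal.ofReal a ≤ ∫⁻ a in Iio (1 : ℝ) ∩ Ioi 0, 1 := by
    apply setLIntegral_mono measurable_const
    intro x hx
    rw [← ENNReal.ofReal_one]
    exact ENNReal.ofReal_le_ofReal hx.1.le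
  rw [setLIntegral_one] at h
  have h2 : Iio (1 : ℝ) ∩ Ioi 0 ⊆ Icc 0 1 := fun x hx => ⟨hx.2.le, hx.1.le⟩
  have h3 : volume (Iio (1 : ℝ) ∩ Ioi 0) ≤ volume (Icc (0 : ℝ) 1) := measure_mono h2
  exact ne_top_of_le_ne_top (by simp) (h.trans h3)

/-- the daughter distribution `8 · 1_{x < 1}` -/
noncomputable def be : X1 := indicatorConstLp 1 (measurableSet_Iio : MeasurableSet (Iio (1 : ℝ))) mass_fin (8 : ℝ)

lemma be_coe : be =ᵐ[mass] (Iio (1 : ℝ)).indicator (fun _ => (8 : ℝ)) := indicatorConstLp_coeFn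

/-- `F ↦ ∫_{s ≥ 0} F` on `L¹(ℝ)` -/
noncomputable def psi : L1 →L[ℝ] ℝ :=
  LinearMap.mkContinuous
    { toFun := fun F => ∫ s in Ici (0 : ℝ), F s
      map_add' := by
        intro F G
        rw [← integral_add (L1.integrable_coeFn F).integrableOn (L1.integrable_coeFn G).integrableOn]
        exact integral_congr_ae (ae_restrict_of_ae (Lp.coeFn_add F G))
      map_smul' := by
        intro r F
        rw [RingHom.id_apply, smul_eq_mul, ← integral_const_mul]
        exact integral_congr_ae (ae_restrict_of_ae (Lp.coeFn_smul r F)) } 1 (by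
      intro F
      show ‖∫ s in Ici (0 : ℝ), F s‖ ≤ _
      rw [one_mul, L1.norm_eq_integral_norm]
      refine (norm_integral_le_integral_norm _).trans ?_
      exact setIntegral_le_integral (L1.integrable_coeFn F).norm (ae_of_all _ fun _ => norm_nonneg _))

lemma psi_apply (F : L1) : psi F = ∫ s in Ici (0 : ℝ), F s := rfl

noncomputable def ph : X1 →L[ℝ] ℝ := psi.comp (J.toContinuousLinearEquiv : X1 →L[ℝ] L1)

lemma ph_apply (f : X1) : ph f = ∫ s in Ici (0 : ℝ), (J f) s := rfl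

lemma ph_eq (f : X1) : ph f = ∫ y in Ici (1 : ℝ), y * f y := by
  have h := integral_image_eq_integral_abs_deriv_smul (s := Ici (0 : ℝ)) (f := Real.exp) (f' := Real.exp)
    measurableSet_Ici (fun x _ => (Real.hasDerivAt_exp x).hasDerivWithinAt)
    Real.exp_injective.injOn (fun y => y * f y)
  have hi : Real.exp '' Ici (0 : ℝ) = Ici 1 := by
    ext y
    constructor
    · rintro ⟨s, hs, rfl⟩
      exact Real.one_le_exp hs
    · intro hy
      have hy1 : (1 : ℝ) ≤ y := hy
      exact ⟨Real.log y, Real.log_nonneg hy1, Real.exp_log (by linarith)⟩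
  rw [hi] at h
  rw [h, ph_apply]
  apply integral_congr_ae
  apply ae_restrict_of_ae
  filter_upwards [J_coe f] with s hs
  rw [hs, abs_of_pos (Real.exp_pos s), smul_eq_mul, ← mul_assoc, ← Real.exp_add]
  congr 2; ring

lemma Jbe : J be =ᵐ[volume] fun s => if s < 0 then 8 * Real.exp (2 * s) else 0 := by
  have h2 := vol_ac.ae_le (mp_exp.quasiMeasurePreserving.ae_eq_comp be_coe)
  filter_upwards [J_coe be, h2] with s h1 h2
  have h3 : be (Real.exp s) = (Iio (1 : ℝ)).indicator (fun _ => (8 : ℝ)) (Real.exp s) := h2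
  rw [h1, h3]
  split_ifs with hs
  · rw [indicator_of_mem (show Real.exp s ∈ Iio (1 : ℝ) from Real.exp_lt_one_iff.mpr hs)]; ring
  · rw [indicator_of_notMem (show Real.exp s ∉ Iio (1 : ℝ) from fun h => hs (Real.exp_lt_one_iff.mp h))]; ring

lemma ph_ker (t : ℝ) (ht : 0 ≤ t) :
    ph (UU t be) = 4 * (Real.exp (-(3 * t)) - Real.exp (-(5 * t))) := by
  have h1 : J (UU t be) = Real.exp (-(3 * t)) • tr t (J be) := by
    rw [UU_apply, map_smul, LinearIsometryEquiv.apply_symm_apply]
  have h2 : J (UU t be) =ᵐ[volume] (Iio t).indicator fun s => 8 * Real.exp (-(5 * t)) * Real.exp (2 * s) := by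
    rw [h1]
    have h3 := Lp.coeFn_smul (Real.exp (-(3 * t))) (tr t (J be))
    have h4 := tr_coe t (J be)
    have h5 := (measurePreserving_sub_right volume t).quasiMeasurePreserving.ae_eq_comp Jbe
    filter_upwards [h3, h4, h5] with s h3 h4 h5
    have h5' : (J be) (s - t) = if s - t < 0 then 8 * Real.exp (2 * (s - t)) else 0 := h5
    rw [h3, Pi.smul_apply, h4, h5', smul_eq_mul]
    split_ifs with hs
    · rw [indicator_of_mem (show s ∈ Iio t by rw [mem_Iio]; linarith)]
      have e : Real.exp (-(3 * t)) * (8 * Real.exp (2 * (s - t))) =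
          8 * (Real.exp (-(3 * t)) * Real.exp (2 * (s - t))) := by ring
      rw [e, mul_assoc, ← Real.exp_add, ← Real.exp_add]
      congr 2; ring
    · rw [indicator_of_notMem (show s ∉ Iio t by rw [mem_Iio]; intro h; exact hs (by linarith)), mul_zero]
  rw [ph_apply, integral_congr_ae (ae_restrict_of_ae h2), setIntegral_indicator measurableSet_Iio,
    Ici_inter_Iio, integral_Ico_eq_integral_Ioo, ← integral_Ioc_eq_integral_Ioo,
    ← intervalIntegral.integral_of_le ht, intervalIntegral.integral_const_mul]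
  have hd : ∀ x ∈ uIcc 0 t, HasDerivAt (fun s : ℝ => Real.exp (2 * s) / 2) (Real.exp (2 * x)) x := by
    intro x _
    have h1 : HasDerivAt (fun t : ℝ => Real.exp (2 * t)) (Real.exp (2 * x) * (2 * 1)) x :=
      (((hasDerivAt_id x).const_mul 2)).exp
    have h2 := h1.div_const 2
    refine h2.congr_deriv ?_
    field_simp
  rw [intervalIntegral.integral_eq_sub_of_hasDerivAt hd
    ((by fun_prop : Continuous fun s : ℝ => Real.exp (2 * s)).intervalIntegrable _ _)]
  have e : Real.exp (-(5 * t)) * Real.exp (2 * t) = Real.exp (-(3 * t)) := by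
    rw [← Real.exp_add]; congr 1; ring
  rw [mul_zero, Real.exp_zero]
  linear_combination 4 * e

lemma sys : Sys UU ph be where
  zero := UU_zero
  add := UU_add
  cont := UU_cont
  bd := fun t _ x => (UU_norm t x).le
  ker := ph_ker

lemma J_nonneg {f : X1} (hf : 0 ≤ f) : 0 ≤ J f := by
  rw [← Lp.coeFn_nonneg] at hf ⊢
  have h2 := vol_ac.ae_le (mp_exp.quasiMeasurePreserving.ae hf)
  filter_upwards [J_coe f, h2] with s h1 h2
  rw [h1]
  have h3 : 0 ≤ f (Real.exp s) := h2
  have := Real.exp_pos (2 * s)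
  show 0 ≤ _
  positivity

lemma nonneg_of_J {f : X1} (hf : 0 ≤ J f) : 0 ≤ f := by
  rw [← Lp.coeFn_nonneg] at hf ⊢
  have h1 : ∀ᵐ s ∂(volume : Measure ℝ), 0 ≤ f (Real.exp s) := by
    filter_upwards [J_coe f, hf] with s h1 h2
    rw [h1] at h2
    have h3 : (0 : ℝ) ≤ Real.exp (2 * s) * f (Real.exp s) := h2
    exact nonneg_of_mul_nonneg_right h3 (Real.exp_pos _)
  have key2 : ∀ᵐ s ∂((volume : Measure ℝ).withDensity fun s => (wt s : ℝ≥0∞)), 0 ≤ f (Real.exp s) :=
    (withDensity_absolutelyContinuous _ _).ae_le h1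
  have hms : MeasurableSet {y | 0 ≤ f y} := measurableSet_le measurable_const (Lp.stronglyMeasurable _).measurable
  have := (ae_map_iff mp_exp.measurable.aemeasurable hms).mpr key2
  rw [mp_exp.map_eq] at this
  exact this

lemma tr_nonneg (t : ℝ) {F : L1} (hF : 0 ≤ F) : 0 ≤ tr t F := by
  rw [← Lp.coeFn_nonneg] at hF ⊢
  have h2 := (measurePreserving_sub_right volume t).quasiMeasurePreserving.ae hF
  filter_upwards [tr_coe t F, h2] with s h1 h2
  rw [h1]; exact h2

lemma smul_nn {r : ℝ} (hr : 0 ≤ r) {F : L1} (hF : 0 ≤ F) : 0 ≤ r • F := by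
  rw [← Lp.coeFn_nonneg] at hF ⊢
  filter_upwards [Lp.coeFn_smul r F, hF] with s h1 h2
  rw [h1]
  exact mul_nonneg hr h2

lemma smul_nn1 {r : ℝ} (hr : 0 ≤ r) {F : X1} (hF : 0 ≤ F) : 0 ≤ r • F := by
  rw [← Lp.coeFn_nonneg] at hF ⊢
  filter_upwards [Lp.coeFn_smul r F, hF] with s h1 h2
  rw [h1]
  exact mul_nonneg hr h2

lemma UU_nonneg (t : ℝ) {f : X1} (hf : 0 ≤ f) : 0 ≤ UU t f := by
  apply nonneg_of_J
  have h1 : J (UU t f) = Real.exp (-(3 * t)) • tr t (J f) := by
    rw [UU_apply, map_smul, LinearIsometryEquiv.apply_symm_apply]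
  rw [h1]
  exact smul_nn (Real.exp_pos _).le (tr_nonneg t (J_nonneg hf))

lemma ph_nonneg {f : X1} (hf : 0 ≤ f) : 0 ≤ ph f := by
  rw [ph_apply]
  have := J_nonneg hf
  rw [← Lp.coeFn_nonneg] at this
  exact integral_nonneg_of_ae (ae_restrict_of_ae this)

lemma be_nonneg : 0 ≤ be := by
  rw [← Lp.coeFn_nonneg]
  filter_upwards [be_coe] with s h1
  rw [h1]
  exact indicator_nonneg (fun _ _ => by norm_num) _

instance : IsOrderedModule ℝ X1 := IsOrderedModule.of_smul_nonneg fun _ hr _ hF => smul_nn1 hr hF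

lemma VV_nonneg (t : ℝ) (ht : 0 ≤ t) {f : X1} (hf : 0 ≤ f) : 0 ≤ Vop sys t f := by
  rw [Vop_apply sys ht, V0]
  apply add_nonneg (UU_nonneg t hf)
  rw [intervalIntegral.integral_of_le ht]
  apply integral_nonneg_of_ae
  rw [EventuallyLE, ae_restrict_iff' measurableSet_Ioc]
  apply ae_of_all
  intro s hs
  apply smul_nn1 _ (UU_nonneg _ be_nonneg)
  exact G_nonneg (sys.hc f) (fun r _ => ph_nonneg (UU_nonneg r hf)) s hs.1.le

end Pool.Agent.X207.GF
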