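import Mathlib
import Pool.Agent.X207.GF5
open Filter Topology MeasureTheory Set
open scoped NNReal ENNReal
namespace Pool.Agent.X207.GF

/-- distance to the compact operators -/
noncomputable def essNorm (T : X1 →L[ℝ] X1) : ℝ :=
  sInf {c | ∃ K : X1 →L[ℝ] X1, IsCompactOperator K ∧ c = ‖T - K‖}

/-- exponential growth bound of a function of `t ≥ 0` -/
noncomputable def growth (N : ℝ → ℝ) : EReal :=
  sInf {w : EReal | ∃ c : ℝ, w = c ∧ ∃ M : ℝ, ∀ t, 0 ≤ t → N t ≤ M * Real.exp (c * t)}

lemma ess_le (t : ℝ) (ht : 0 ≤ t) : essNorm (Vop sys t) ≤ Real.exp (-(3 * t)) := by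
  have hbdd : BddBelow {c | ∃ K : X1 →L[ℝ] X1, IsCompactOperator K ∧ c = ‖Vop sys t - K‖} :=
    ⟨0, by rintro _ ⟨K, _, rfl⟩; exact norm_nonneg _⟩
  rcases ht.eq_or_lt with h0 | hpos
  · have h1 : essNorm (Vop sys t) ≤ ‖Vop sys t - 0‖ :=
      csInf_le hbdd ⟨0, isCompactOperator_zero, rfl⟩
    refine h1.trans ?_
    rw [sub_zero]
    apply ContinuousLinearMap.opNorm_le_bound _ (Real.exp_pos _).le
    intro x
    rw [← h0, Vop_zero sys]; simp
  · apply le_of_forall_pos_le_add
    intro ε hε
    obtain ⟨K, hK, hn⟩ := sys.compact hpos hε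
    exact (csInf_le hbdd ⟨K, hK, rfl⟩).trans hn

lemma growth_ess : growth (fun t => essNorm (Vop sys t)) ≤ ((-3 : ℝ) : EReal) := by
  apply sInf_le
  refine ⟨-3, rfl, 1, fun t ht => ?_⟩
  rw [one_mul]
  refine (ess_le t ht).trans (le_of_eq ?_)
  congr 1; ring

lemma growth_lower : ((-1 : ℝ) : EReal) ≤ growth (fun t => ‖Vop sys t‖) := by
  apply le_sInf
  rintro _ ⟨c, rfl, M, hM⟩
  rw [EReal.coe_le_coe_iff]
  by_contra hc
  push Not at hc
  set D := M * ‖ph‖ * ‖be‖ with hD
  have h1 : ∀ t, 0 ≤ t → 4 / 3 * (1 - Real.exp (-(6 * t))) ≤ D * Real.exp ((c + 1) * t) := by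
    intro t ht
    have h2 := sys.lower t ht
    have h3 := ph.le_opNorm (Vop sys t be)
    rw [h2] at h3
    have h4 := (Vop sys t).le_opNorm be
    have h5 := hM t ht
    simp only [] at h5
    have h6 : 4 / 3 * (Real.exp (-(1 * t)) - Real.exp (-(7 * t))) ≤ D * Real.exp (c * t) := by
      refine (le_abs_self _).trans ?_
      rw [← Real.norm_eq_abs]
      refine h3.trans ?_
      calc ‖ph‖ * ‖Vop sys t be‖ ≤ ‖ph‖ * (‖Vop sys t‖ * ‖be‖) :=
            mul_le_mul_of_nonneg_left h4 (norm_nonneg _)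
        _ ≤ ‖ph‖ * (M * Real.exp (c * t) * ‖be‖) :=
            mul_le_mul_of_nonneg_left (mul_le_mul_of_nonneg_right h5 (norm_nonneg _)) (norm_nonneg _)
        _ = D * Real.exp (c * t) := by rw [hD]; ring
    have h7 := mul_le_mul_of_nonneg_right h6 (Real.exp_pos (1 * t)).le
    have e1 : 4 / 3 * (Real.exp (-(1 * t)) - Real.exp (-(7 * t))) * Real.exp (1 * t) =
        4 / 3 * (1 - Real.exp (-(6 * t))) := by
      have a1 : Real.exp (-(1 * t)) * Real.exp (1 * t) = 1 := by
        rw [← Real.exp_add, neg_add_cancel, Real.exp_zero]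
      have a2 : Real.exp (-(7 * t)) * Real.exp (1 * t) = Real.exp (-(6 * t)) := by
        rw [← Real.exp_add]; congr 1; ring
      linear_combination 4 / 3 * a1 - 4 / 3 * a2
    have e2 : D * Real.exp (c * t) * Real.exp (1 * t) = D * Real.exp ((c + 1) * t) := by
      rw [mul_assoc, ← Real.exp_add]; congr 2; ring
    rw [e1, e2] at h7
    exact h7
  have hexp : ∀ k : ℝ, k < 0 → Tendsto (fun t : ℝ => Real.exp (k * t)) atTop (𝓝 0) := by
    intro k hk
    apply Real.tendsto_exp_atBot.comp
    exact tendsto_id.const_mul_atTop_of_neg hk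
  have l1 : Tendsto (fun t : ℝ => 4 / 3 * (1 - Real.exp (-(6 * t)))) atTop (𝓝 (4 / 3 * (1 - 0))) := by
    have := hexp (-6) (by norm_num)
    have h2 : Tendsto (fun t : ℝ => Real.exp (-(6 * t))) atTop (𝓝 0) := by
      refine this.congr fun t => ?_
      congr 1; ring
    exact (tendsto_const_nhds.sub h2).const_mul _
  have l2 : Tendsto (fun t : ℝ => D * Real.exp ((c + 1) * t)) atTop (𝓝 (D * 0)) :=
    (hexp (c + 1) (by linarith)).const_mul _
  have := le_of_tendsto_of_tendsto l1 l2 (by
    filter_upwards [eventually_ge_atTop 0] with t ht using h1 t ht)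
  norm_num at this

lemma mass_pos : ∀ᵐ y ∂mass, 0 < y := by
  have h : mass ≪ volume.restrict (Ioi (0 : ℝ)) := withDensity_absolutelyContinuous _ _
  exact h.ae_le (ae_restrict_mem measurableSet_Ioi)

/-- the fragmentation kernel `b(x,y) = 2y` for `x < 1 ≤ y`, and `0` otherwise -/
noncomputable def bb (x y : ℝ) : ℝ := if x < 1 ∧ 1 ≤ y then 2 * y else 0

lemma int_y (f : X1) : IntegrableOn (fun y => y * f y) (Ici 1) := by
  have hi : Real.exp '' Ici (0 : ℝ) = Ici 1 := by
    ext y
    constructor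
    · rintro ⟨s, hs, rfl⟩
      exact Real.one_le_exp hs
    · intro hy
      have hy1 : (1 : ℝ) ≤ y := hy
      exact ⟨Real.log y, Real.log_nonneg hy1, Real.exp_log (by linarith)⟩
  rw [← hi, integrableOn_image_iff_integrableOn_abs_deriv_smul (f' := Real.exp)
    measurableSet_Ici (fun x _ => (Real.hasDerivAt_exp x).hasDerivWithinAt)
    Real.exp_injective.injOn]
  have h1 : IntegrableOn (fun s => (J f) s) (Ici 0) := (L1.integrable_coeFn (J f)).integrableOn
  refine h1.congr_fun_ae ?_
  apply ae_restrict_of_ae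
  filter_upwards [J_coe f] with s hs
  rw [hs, abs_of_pos (Real.exp_pos s), smul_eq_mul, ← mul_assoc, ← Real.exp_add]
  congr 2; ring

lemma frag_eq (f : X1) (x : ℝ) : IntegrableOn (fun y => 4 * bb x y * f y) (Ioi x) ∧
    ∫ y in Ioi x, 4 * bb x y * f y = if x < 1 then 8 * ph f else 0 := by
  by_cases hx : x < 1
  · have e : (fun y => 4 * bb x y * f y) = (Ici (1 : ℝ)).indicator (fun y => 8 * (y * f y)) := by
      ext y
      by_cases hy : 1 ≤ y
      · rw [indicator_of_mem (show y ∈ Ici (1 : ℝ) from hy)]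
        simp only [bb, hx, hy, and_self, if_true]; ring
      · rw [indicator_of_notMem (show y ∉ Ici (1 : ℝ) from hy)]
        simp only [bb, hy, and_false, if_false]; ring
    have hsub : Ici (1 : ℝ) ∩ Ioi x = Ici 1 := by
      apply inter_eq_left.mpr
      intro y hy
      exact lt_of_lt_of_le hx hy
    have hsub' : Ioi x ∩ Ici (1 : ℝ) = Ici 1 := by rw [inter_comm]; exact hsub
    rw [e, if_pos hx]
    constructor
    · rw [IntegrableOn, integrable_indicator_iff measurableSet_Ici, IntegrableOn,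
        Measure.restrict_restrict measurableSet_Ici, hsub]
      exact (int_y f).const_mul 8
    · rw [setIntegral_indicator measurableSet_Ici, hsub', integral_const_mul, ph_eq]
  · have e : (fun y => 4 * bb x y * f y) = fun _ => 0 := by
      ext y
      simp only [bb, hx, false_and, if_false]; ring
    rw [e, if_neg hx]
    exact ⟨integrableOn_zero, by simp⟩

lemma ph_be_coe (f : X1) : (ph f • be : X1) =ᵐ[mass] fun x => if x < 1 then 8 * ph f else 0 := by
  filter_upwards [Lp.coeFn_smul (ph f) be, be_coe] with x h1 h2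
  rw [h1, Pi.smul_apply, h2, smul_eq_mul]
  by_cases hx : x < 1
  · rw [if_pos hx, indicator_of_mem (show x ∈ Iio (1 : ℝ) from hx)]; ring
  · rw [if_neg hx, indicator_of_notMem (show x ∉ Iio (1 : ℝ) from hx)]; ring

lemma bb_meas : Measurable (fun p : ℝ × ℝ => bb p.1 p.2) := by
  unfold bb
  apply Measurable.ite _ (by fun_prop) measurable_const
  exact (measurableSet_lt measurable_fst measurable_const).inter
    (measurableSet_le measurable_const measurable_snd)

lemma bb_nonneg (x y : ℝ) (hx : 0 < x) (hxy : x < y) : 0 ≤ bb x y := by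
  unfold bb; split_ifs
  · linarith
  · exact le_rfl

lemma bb_mass (y : ℝ) (hy : 0 < y) :
    ∫⁻ x in Ioo 0 y, ENNReal.ofReal (x * bb x y) ≤ ENNReal.ofReal y := by
  by_cases h1 : 1 ≤ y
  · have e : ∀ x, ENNReal.ofReal (x * bb x y) = (Iio (1 : ℝ)).indicator (fun x => ENNReal.ofReal (2 * y * x)) x := by
      intro x
      by_cases hx : x < 1
      · rw [indicator_of_mem (show x ∈ Iio (1 : ℝ) from hx)]
        simp only [bb, hx, h1, and_self, if_true]
        congr 1; ring
      · rw [indicator_of_notMem (show x ∉ Iio (1 : ℝ) from hx)]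
        simp only [bb, hx, false_and, if_false, mul_zero, ENNReal.ofReal_zero]
    have e2 : Ioo 0 y ∩ Iio 1 = Ioo (0 : ℝ) 1 := by
      ext x
      simp only [mem_inter_iff, mem_Ioo, mem_Iio]
      constructor
      · rintro ⟨⟨h2, h3⟩, h4⟩; exact ⟨h2, h4⟩
      · rintro ⟨h2, h3⟩; exact ⟨⟨h2, by linarith⟩, h3⟩
    calc ∫⁻ x in Ioo 0 y, ENNReal.ofReal (x * bb x y)
        = ∫⁻ x in Ioo 0 y, (Iio (1 : ℝ)).indicator (fun x => ENNReal.ofReal (2 * y * x)) x :=
          lintegral_congr fun x => e x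
      _ = ∫⁻ x in Ioo (0 : ℝ) 1, ENNReal.ofReal (2 * y * x) := by
          rw [setLIntegral_indicator measurableSet_Iio, inter_comm, e2]
      _ = ENNReal.ofReal (∫ x in Ioo (0 : ℝ) 1, 2 * y * x) := by
          rw [ofReal_integral_eq_lintegral_ofReal]
          · exact ((by fun_prop : Continuous fun x : ℝ => 2 * y * x).integrableOn_Icc).mono_set Ioo_subset_Icc_self
          · rw [EventuallyLE, ae_restrict_iff' measurableSet_Ioo]
            apply ae_of_all
            intro x hx
            have := hx.1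
            show 0 ≤ 2 * y * x
            positivity
      _ = ENNReal.ofReal y := by
          rw [← integral_Ioc_eq_integral_Ioo, ← intervalIntegral.integral_of_le zero_le_one,
            intervalIntegral.integral_const_mul, integral_id]
          congr 1; ring
      _ ≤ _ := le_rfl
  · have e : ∀ x, ENNReal.ofReal (x * bb x y) = 0 := by
      intro x
      simp only [bb, h1, and_false, if_false, mul_zero, ENNReal.ofReal_zero]
    simp [e]

lemma not_int_zero : ∫⁻ x in Ioc (0 : ℝ) 1, ENNReal.ofReal (1 / x) = ∞ := by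
  by_contra h
  have hfin : ∫⁻ x in Ioc (0 : ℝ) 1, ENNReal.ofReal (1 / x) < ∞ := lt_top_iff_ne_top.mpr h
  have hi : IntegrableOn (fun x : ℝ => 1 / x) (Ioc 0 1) := by
    refine ⟨by fun_prop, ?_⟩
    rw [hasFiniteIntegral_iff_ofReal]
    · exact hfin
    · rw [EventuallyLE, ae_restrict_iff' measurableSet_Ioc]
      apply ae_of_all
      intro x hx
      have := hx.1
      show 0 ≤ 1 / x
      positivity
  have h2 : IntervalIntegrable (fun x : ℝ => x⁻¹) volume 0 1 := by
    rw [intervalIntegrable_iff_integrableOn_Ioc_of_le zero_le_one]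
    simpa [one_div] using hi
  rw [intervalIntegrable_inv_iff] at h2
  rcases h2 with h2 | h2
  · norm_num at h2
  · apply h2; rw [uIcc_of_le zero_le_one]; simp

lemma not_int_infty : ∫⁻ x in Ioi (1 : ℝ), ENNReal.ofReal (1 / x) = ∞ := by
  by_contra h
  have hfin : ∫⁻ x in Ioi (1 : ℝ), ENNReal.ofReal (1 / x) < ∞ := lt_top_iff_ne_top.mpr h
  have hi : IntegrableOn (fun x : ℝ => 1 / x) (Ioi 1) := by
    refine ⟨by fun_prop, ?_⟩
    rw [hasFiniteIntegral_iff_ofReal]
    · exact hfin
    · rw [EventuallyLE, ae_restrict_iff' measurableSet_Ioi]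
      apply ae_of_all
      intro x hx
      have : (1 : ℝ) < x := hx
      show 0 ≤ 1 / x
      positivity
  have h2 : IntegrableOn (fun x : ℝ => x⁻¹) (Ioi 1) := by simpa [one_div] using hi
  exact not_integrableOn_Ioi_inv h2

lemma loc_int : LocallyIntegrableOn (fun x : ℝ => 1 / x) (Ioi 0) := by
  apply ContinuousOn.locallyIntegrableOn _ measurableSet_Ioi
  intro x hx
  have hx0 : x ≠ 0 := ne_of_gt hx
  exact (continuousAt_const.div continuousAt_id hx0).continuousWithinAt

lemma flow_int (y t : ℝ) (hy : 0 < y) : ∫ x in (y * Real.exp (-t))..y, 1 / x = t := by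
  have hpos : 0 < y * Real.exp (-t) := by positivity
  rw [integral_one_div_of_pos hpos hy]
  have : y / (y * Real.exp (-t)) = Real.exp t := by
    rw [Real.exp_neg]; field_simp
  rw [this, Real.log_exp]

end Pool.Agent.X207.GF
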