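import Mathlib
open scoped NNReal
namespace Pool.Agent.X207.AL

section basics
variable {A : Type*} [CStarAlgebra A] [PartialOrder A] [StarOrderedRing A]

/-- Real powers, with the instance path fixed. -/
noncomputable def RP (a : A) (t : ℝ) : A := CFC.rpow a t

/-- The weighted geometric mean `Y^{1/2} (Y^{-1/2} X Y^{-1/2})^t Y^{1/2}`. -/
noncomputable def Phi (t : ℝ) (X Y : A) : A :=
  CFC.rpow Y (1 / 2) * CFC.rpow (CFC.rpow Y (-(1 / 2)) * X * CFC.rpow Y (-(1 / 2))) t *
    CFC.rpow Y (1 / 2)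

/-- The geometric mean of `X 0, X 1, ..., X (m-1)`, defined recursively in this order. -/
noncomputable def GM : (m : ℕ) → (Fin m → A) → A
  | 0, _ => 1
  | 1, X => X 0
  | (m + 2), X => Phi (1 / ((m : ℝ) + 2)) (X 0) (GM (m + 1) (fun i => X i.succ))

/-- The arithmetic mean. -/
noncomputable def AM (m : ℕ) (X : Fin m → A) : A := (1 / (m : ℝ)) • ∑ i, X i

lemma Phi_eq (t : ℝ) (X Y : A) : Phi t X Y =
    RP Y (1 / 2) * RP (RP Y (-(1 / 2)) * X * RP Y (-(1 / 2))) t * RP Y (1 / 2) := rfl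

lemma sp_rpow {a : A} (ha : IsStrictlyPositive a) (t : ℝ) : IsStrictlyPositive (RP a t) :=
  IsStrictlyPositive.rpow a t ha

lemma half_mul_neg {a : A} (ha : IsStrictlyPositive a) (t : ℝ) :
    RP a t * RP a (-t) = 1 := CFC.rpow_mul_rpow_neg t ha

lemma neg_mul_half {a : A} (ha : IsStrictlyPositive a) (t : ℝ) :
    RP a (-t) * RP a t = 1 := CFC.rpow_neg_mul_rpow t ha

lemma half_mul_half {a : A} (ha : IsStrictlyPositive a) :
    RP a (1 / 2) * RP a (1 / 2) = a := by
  have h := CFC.rpow_add (a := a) (x := 1 / 2) (y := 1 / 2) ha.isUnit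
  norm_num at h
  have h1 := CFC.rpow_one a ha.nonneg
  unfold RP
  simp only [CFC.rpow_eq_pow]
  norm_num
  rw [← h, h1]

lemma sp_conj {a u : A} (ha : IsStrictlyPositive a) (hu : IsSelfAdjoint u) (hu' : IsUnit u) :
    IsStrictlyPositive (u * a * u) := by
  refine ⟨?_, (hu'.mul ha.isUnit).mul hu'⟩
  exact hu.conjugate_nonneg ha.nonneg

lemma conj_le {a b u : A} (hab : a ≤ b) (hu : IsSelfAdjoint u) : u * a * u ≤ u * b * u := 
  hu.conjugate_le_conjugate hab

lemma sp_Phi {X Y : A} (hX : IsStrictlyPositive X) (hY : IsStrictlyPositive Y) (t : ℝ) :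
    IsStrictlyPositive (Phi t X Y) := by
  have h1 := sp_rpow hY (1/2)
  have h2 := sp_rpow hY (-(1/2))
  refine sp_conj (sp_rpow (sp_conj hX h2.isSelfAdjoint h2.isUnit) t) h1.isSelfAdjoint h1.isUnit

end basics
section hom
variable {A B : Type*} [CStarAlgebra A] [PartialOrder A] [StarOrderedRing A]
  [CStarAlgebra B] [PartialOrder B] [StarOrderedRing B]

lemma map_nonneg' (φ : A →⋆ₐ[ℂ] B) {a : A} (ha : 0 ≤ a) : 0 ≤ φ a := by
  obtain ⟨c, rfl⟩ := CStarAlgebra.nonneg_iff_eq_star_mul_self.mp ha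
  rw [map_mul, map_star]
  exact star_mul_self_nonneg _

lemma sp_map (φ : A →⋆ₐ[ℂ] B) {a : A} (ha : IsStrictlyPositive a) : IsStrictlyPositive (φ a) :=
  ⟨map_nonneg' φ ha.nonneg, ha.isUnit.map φ⟩

lemma map_rpow (φ : A →⋆ₐ[ℂ] B) {a : A} (ha : IsStrictlyPositive a) (t : ℝ) :
    φ (RP a t) = RP (φ a) t := by
  have h0 : 0 ∉ spectrum ℝ≥0 a := spectrum.zero_notMem _ ha.isUnit
  have hc : Continuous φ := map_continuous φ
  have := StarAlgHomClass.map_cfc (R := ℝ≥0) (S := ℂ) φ (fun x : ℝ≥0 => x ^ t) a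
    (by cfc_cont_tac) hc ha.nonneg (sp_map φ ha).nonneg
  exact this

lemma map_Phi (φ : A →⋆ₐ[ℂ] B) {X Y : A} (hX : IsStrictlyPositive X) (hY : IsStrictlyPositive Y)
    (t : ℝ) : φ (Phi t X Y) = Phi t (φ X) (φ Y) := by
  have h2 := sp_rpow hY (-(1/2))
  simp only [Phi_eq]
  rw [map_mul, map_mul, map_rpow φ (sp_conj hX h2.isSelfAdjoint h2.isUnit), map_rpow φ hY, map_mul,
    map_mul, map_rpow φ hY]

end hom

section GMlem
variable {A : Type*} [CStarAlgebra A] [PartialOrder A] [StarOrderedRing A]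

lemma sp_GM : ∀ (m : ℕ) (X : Fin m → A), (∀ i, IsStrictlyPositive (X i)) →
    IsStrictlyPositive (GM m X)
  | 0, _, _ => by rw [GM]; exact isStrictlyPositive_one
  | 1, X, h => by rw [GM]; exact h 0
  | (m + 2), X, h => by
      rw [GM]
      exact sp_Phi (h 0) (sp_GM (m + 1) _ (fun i => h _)) _

lemma map_GM {B : Type*} [CStarAlgebra B] [PartialOrder B] [StarOrderedRing B]
    (φ : A →⋆ₐ[ℂ] B) : ∀ (m : ℕ) (X : Fin m → A), (∀ i, IsStrictlyPositive (X i)) →
    φ (GM m X) = GM m (fun i => φ (X i))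
  | 0, _, _ => by rw [GM, GM, map_one]
  | 1, X, h => by rw [GM, GM]
  | (m + 2), X, h => by
      rw [GM, GM, map_Phi φ (h 0) (sp_GM (m + 1) _ (fun i => h _)), map_GM φ (m + 1) _ (fun i => h _)]

end GMlem

section psi
variable {A : Type*} [CStarAlgebra A] [PartialOrder A] [StarOrderedRing A]

/-- the unital star homomorphism `(x,y) ↦ p ⊗ x + (1 - p) ⊗ y` with the rank-one real projection
`p = [[a, b],[b, 1-a]]`. -/
noncomputable def psi (a b : ℂ) (ha : star a = a) (hb : star b = b) (h : b * b = a * (1 - a)) :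
    (A × A) →⋆ₐ[ℂ] CStarMatrix (Fin 2) (Fin 2) A where
  toFun x := CStarMatrix.ofMatrix
    !![a • x.1 + (1 - a) • x.2, b • x.1 - b • x.2;
       b • x.1 - b • x.2, (1 - a) • x.1 + a • x.2]
  map_one' := by
    ext i j
    fin_cases i <;> fin_cases j <;> simp [sub_smul]
  map_mul' := by
    rintro ⟨x1, x2⟩ ⟨y1, y2⟩
    ext i j
    fin_cases i <;> fin_cases j <;>
      simp [CStarMatrix.mul_apply, add_mul, mul_add, sub_mul, mul_sub, smul_smul] <;>
      match_scalars <;>
      first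
        | ring1
        | linear_combination h
        | linear_combination (-1 : ℂ) * h
  map_zero' := by
    ext i j
    fin_cases i <;> fin_cases j <;> simp [CStarMatrix.zero_apply]
  map_add' := by
    intro x y
    ext i j
    fin_cases i <;> fin_cases j <;> simp [CStarMatrix.add_apply] <;> abel
  commutes' := by
    intro r
    ext i j
    fin_cases i <;> fin_cases j <;> simp [CStarMatrix.algebraMap_apply, sub_smul]
  map_star' := by
    intro x
    ext i j
    have ha' : (starRingEnd ℂ) a = a := ha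
    have hb' : (starRingEnd ℂ) b = b := hb
    fin_cases i <;> fin_cases j <;> simp [CStarMatrix.star_apply, ha', hb']

end psi


section psilem
variable {A : Type*} [CStarAlgebra A] [PartialOrder A] [StarOrderedRing A]

lemma psi_apply (a b : ℂ) (ha : star a = a) (hb : star b = b) (h : b * b = a * (1 - a))
    (x : A × A) : psi a b ha hb h x = CStarMatrix.ofMatrix
    !![a • x.1 + (1 - a) • x.2, b • x.1 - b • x.2;
       b • x.1 - b • x.2, (1 - a) • x.1 + a • x.2] := rfl

lemma pair_nonneg {x y : A} (hx : 0 ≤ x) (hy : 0 ≤ y) : (0 : A × A) ≤ (x, y) := ⟨hx, hy⟩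

lemma pair_sp {x y : A} (hx : IsStrictlyPositive x) (hy : IsStrictlyPositive y) :
    IsStrictlyPositive ((x, y) : A × A) :=
  ⟨⟨hx.nonneg, hy.nonneg⟩, Prod.isUnit_iff.mpr ⟨hx.isUnit, hy.isUnit⟩⟩

set_option backward.isDefEq.respectTransparency false in
lemma rpow_pair {x y : A} (hx : IsStrictlyPositive x) (hy : IsStrictlyPositive y) (t : ℝ) :
    RP ((x, y) : A × A) t = (RP x t, RP y t) :=
  CFC.rpow_map_prod hx.isUnit hy.isUnit hx.nonneg hy.nonneg

lemma Phi_pair {x y x' y' : A} (hx : IsStrictlyPositive x) (hy : IsStrictlyPositive y)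
    (hx' : IsStrictlyPositive x') (hy' : IsStrictlyPositive y') (t : ℝ) :
    Phi t ((x, x') : A × A) (y, y') = (Phi t x y, Phi t x' y') := by
  have h2 := sp_rpow hy (-(1/2))
  have h2' := sp_rpow hy' (-(1/2))
  rw [Phi_eq, rpow_pair hy hy', rpow_pair hy hy']
  have e1 : ((RP y (-(1 / 2)), RP y' (-(1 / 2))) : A × A) * (x, x') *
      (RP y (-(1 / 2)), RP y' (-(1 / 2))) = (RP y (-(1 / 2)) * x * RP y (-(1 / 2)),
        RP y' (-(1 / 2)) * x' * RP y' (-(1 / 2))) := rfl
  rw [e1, rpow_pair (sp_conj hx h2.isSelfAdjoint h2.isUnit)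
    (sp_conj hx' h2'.isSelfAdjoint h2'.isUnit)]
  rfl

lemma GM_pair : ∀ (m : ℕ) (X Y : Fin m → A), (∀ i, IsStrictlyPositive (X i)) →
    (∀ i, IsStrictlyPositive (Y i)) →
    GM m (fun i => ((X i, Y i) : A × A)) = (GM m X, GM m Y)
  | 0, _, _, _, _ => by rw [GM, GM, GM]; rfl
  | 1, X, Y, _, _ => by rw [GM, GM, GM]
  | (m + 2), X, Y, hX, hY => by
      rw [GM, GM, GM, GM_pair (m + 1) _ _ (fun i => hX _) (fun i => hY _),
        Phi_pair (hX 0) (sp_GM _ _ (fun i => hX _)) (hY 0) (sp_GM _ _ (fun i => hY _))]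

set_option backward.isDefEq.respectTransparency false in
/-- intertwining passes to real powers -/
lemma intertwine {x y k : A} (hx : IsStrictlyPositive x) (hy : IsStrictlyPositive y)
    (hk : x * k = k * y) (t : ℝ) : RP x t * k = k * RP y t := by
  let φ := psi (A := A) 1 0 (by simp) (by simp) (by simp)
  let K : CStarMatrix (Fin 2) (Fin 2) A := CStarMatrix.ofMatrix !![0, k; 0, 0]
  have hc : Commute (φ (x, y)) K := by
    show φ (x, y) * K = K * φ (x, y)
    ext i j
    fin_cases i <;> fin_cases j <;> simp [φ, K, psi_apply, CStarMatrix.mul_apply, hk]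
  have hc2 : Commute (RP (φ (x, y)) t) K := Commute.cfc_nnreal hc _
  rw [← map_rpow φ (pair_sp hx hy), rpow_pair hx hy] at hc2
  have h3 : φ (RP x t, RP y t) * K = K * φ (RP x t, RP y t) := hc2
  have h4 := congrFun (congrFun h3 0) 1
  simpa [φ, K, psi_apply, CStarMatrix.mul_apply] using h4

end psilem


section order
variable {A : Type*} [CStarAlgebra A] [PartialOrder A] [StarOrderedRing A]

lemma RP_one {a : A} (ha : IsStrictlyPositive a) : RP a 1 = a := CFC.rpow_one a ha.nonneg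

lemma RP_RP {a : A} (ha : IsStrictlyPositive a) (x y : ℝ) (hx : x ≠ 0) :
    RP (RP a x) y = RP a (x * y) := CFC.rpow_rpow a x y hx ha

lemma RP_add {a : A} (ha : IsStrictlyPositive a) (x y : ℝ) :
    RP a (x + y) = RP a x * RP a y := CFC.rpow_add ha.isUnit

lemma RP_mono {a b : A} {t : ℝ} (ht : t ∈ Set.Icc (0 : ℝ) 1) (hab : a ≤ b) : RP a t ≤ RP b t :=
  CFC.rpow_le_rpow ht hab

lemma inv_unique {a b : A} (ha : IsStrictlyPositive a) (hab : a * b = 1) : b = RP a (-1) := by
  have h := neg_mul_half ha 1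
  rw [RP_one ha] at h
  calc b = (RP a (-1) * a) * b := by rw [h, one_mul]
    _ = RP a (-1) := by rw [mul_assoc, hab, mul_one]

/-- symmetry of the weighted geometric mean -/
lemma Phi_symm {X Y : A} (hX : IsStrictlyPositive X) (hY : IsStrictlyPositive Y) (t : ℝ) :
    Phi t X Y = Phi (1 - t) Y X := by
  have hs := sp_rpow hY (1 / 2)
  have hu := sp_rpow hY (-(1 / 2))
  have hp := sp_rpow hX (1 / 2)
  have hq := sp_rpow hX (-(1 / 2))
  rw [Phi_eq, Phi_eq]
  have hsu : RP Y (1 / 2) * RP Y (-(1 / 2)) = 1 := half_mul_neg hY _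
  have hus : RP Y (-(1 / 2)) * RP Y (1 / 2) = 1 := neg_mul_half hY _
  have hpq : RP X (1 / 2) * RP X (-(1 / 2)) = 1 := half_mul_neg hX _
  have hqp : RP X (-(1 / 2)) * RP X (1 / 2) = 1 := neg_mul_half hX _
  have hss : RP Y (1 / 2) * RP Y (1 / 2) = Y := half_mul_half hY
  have hpp : RP X (1 / 2) * RP X (1 / 2) = X := half_mul_half hX
  set s := RP Y (1 / 2) with hsdef
  set u := RP Y (-(1 / 2)) with hudef
  set p := RP X (1 / 2) with hpdef
  set q := RP X (-(1 / 2)) with hqdef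
  have hC : IsStrictlyPositive (u * X * u) := sp_conj hX hu.isSelfAdjoint hu.isUnit
  have hD : IsStrictlyPositive (q * Y * q) := sp_conj hY hq.isSelfAdjoint hq.isUnit
  set C := u * X * u with hCdef
  set D := q * Y * q with hDdef
  have hCE : C * (s * q * (q * s)) = 1 := by
    calc C * (s * q * (q * s)) = u * X * (u * s) * q * q * s := by rw [hCdef]; noncomm_ring
      _ = u * (p * p) * q * q * s := by rw [hus, mul_one, hpp]
      _ = u * p * (p * q) * q * s := by noncomm_ring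
      _ = u * (p * q) * s := by rw [hpq, mul_one, mul_one, mul_assoc u p q, hpq, mul_one]
      _ = 1 := by rw [hpq, mul_one, hus]
  have hE : s * q * (q * s) = RP C (-1) := inv_unique hC hCE
  have hint : RP C (-1) * (s * q) = (s * q) * D := by
    rw [← hE, hDdef, ← hss]; noncomm_ring
  have h1 := intertwine (sp_rpow hC (-1)) hD hint (1 - t)
  rw [RP_RP hC _ _ (by norm_num)] at h1
  have h2 : RP C t = C * RP C (-1 * (1 - t)) := by
    have := RP_add hC 1 (-1 * (1 - t))
    rw [RP_one hC] at this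
    rw [← this]; congr 1; ring
  have h3 : p * (p * u) * (s * q) = p := by
    calc p * (p * u) * (s * q) = (p * p) * (u * s) * q := by noncomm_ring
      _ = p * (p * q) := by rw [hus, mul_one, mul_assoc]
      _ = p := by rw [hpq, mul_one]
  have hsC : s * C = X * u := by
    calc s * C = (s * u) * X * u := by rw [hCdef]; noncomm_ring
      _ = X * u := by rw [hsu, one_mul]
  calc s * RP C t * s = (s * C) * RP C (-1 * (1 - t)) * s := by rw [h2]; noncomm_ring
    _ = (X * u) * RP C (-1 * (1 - t)) * ((s * q) * p) := by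
        rw [hsC, mul_assoc s q p, hqp, mul_one]
    _ = (X * u) * (RP C (-1 * (1 - t)) * (s * q)) * p := by noncomm_ring
    _ = (X * u) * ((s * q) * RP D (1 - t)) * p := by rw [h1]
    _ = (p * (p * u) * (s * q)) * RP D (1 - t) * p := by rw [← hpp]; noncomm_ring
    _ = p * RP D (1 - t) * p := by rw [h3]

lemma Phi_mono_left {X X' Y : A} {t : ℝ} (ht : t ∈ Set.Icc (0 : ℝ) 1)
    (hY : IsStrictlyPositive Y) (h : X ≤ X') : Phi t X Y ≤ Phi t X' Y := by
  rw [Phi_eq, Phi_eq]
  exact conj_le (RP_mono ht (conj_le h (sp_rpow hY _).isSelfAdjoint)) (sp_rpow hY _).isSelfAdjoint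

lemma Phi_mono {X X' Y Y' : A} {t : ℝ} (ht : t ∈ Set.Icc (0 : ℝ) 1)
    (hX : IsStrictlyPositive X) (hX' : IsStrictlyPositive X')
    (hY : IsStrictlyPositive Y) (hY' : IsStrictlyPositive Y') (h : X ≤ X') (h' : Y ≤ Y') :
    Phi t X Y ≤ Phi t X' Y' := by
  refine (Phi_mono_left ht hY h).trans ?_
  rw [Phi_symm hX' hY, Phi_symm hX' hY']
  exact Phi_mono_left ⟨by linarith [ht.2], by linarith [ht.1]⟩ hX' h'

lemma wt_mem (m : ℕ) : (1 / ((m : ℝ) + 2)) ∈ Set.Icc (0 : ℝ) 1 := by
  have hm : (0 : ℝ) ≤ m := Nat.cast_nonneg m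
  constructor
  · positivity
  · rw [div_le_one (by positivity)]; linarith

lemma GM_mono : ∀ (m : ℕ) (X Y : Fin m → A), (∀ i, IsStrictlyPositive (X i)) →
    (∀ i, IsStrictlyPositive (Y i)) → (∀ i, X i ≤ Y i) → GM m X ≤ GM m Y
  | 0, _, _, _, _, _ => by rw [GM, GM]
  | 1, X, Y, _, _, h => by rw [GM, GM]; exact h 0
  | (m + 2), X, Y, hX, hY, h => by
      rw [GM, GM]
      exact Phi_mono (wt_mem m) (hX 0) (hY 0) (sp_GM _ _ (fun i => hX _)) (sp_GM _ _ (fun i => hY _))
        (h 0) (GM_mono (m + 1) _ _ (fun i => hX _) (fun i => hY _) (fun i => h _))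

lemma RP_le {a : A} (ha : IsStrictlyPositive a) {t : ℝ} (ht : t ∈ Set.Icc (0 : ℝ) 1) :
    RP a t ≤ (1 - t) • (1 : A) + t • a := by
  have hsa := ha.isSelfAdjoint
  have h1 : RP a t = cfc (fun x : ℝ => x ^ t) a := CFC.rpow_eq_cfc_real ha.nonneg
  have h2 : (1 - t) • (1 : A) + t • a = cfc (fun x : ℝ => (1 - t) + t * x) a := by
    rw [cfc_const_add (R := ℝ) (1 - t) (fun x => t * x) a
      ((continuous_const.mul continuous_id).continuousOn) hsa, cfc_const_mul_id t a hsa,
      Algebra.algebraMap_eq_smul_one]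
  rw [h1, h2]
  have h0 : ∀ x ∈ spectrum ℝ a, 0 < x := (StarOrderedRing.isStrictlyPositive_iff_spectrum_pos a).mp ha
  apply cfc_mono
  · intro x hx
    have := Real.geom_mean_le_arith_mean2_weighted (w₁ := 1 - t) (w₂ := t) (p₁ := 1) (p₂ := x)
      (by linarith [ht.2]) ht.1 (by norm_num) (h0 x hx).le (by ring)
    simpa using this
  · exact ContinuousOn.rpow_const continuousOn_id (fun x hx => Or.inl (h0 x hx).ne')
  · exact (continuous_const.add (continuous_const.mul continuous_id)).continuousOn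

lemma Phi_le {X Y : A} (hX : IsStrictlyPositive X) (hY : IsStrictlyPositive Y) {t : ℝ}
    (ht : t ∈ Set.Icc (0 : ℝ) 1) : Phi t X Y ≤ (1 - t) • Y + t • X := by
  have hs := sp_rpow hY (1 / 2)
  have hu := sp_rpow hY (-(1 / 2))
  have hsu : RP Y (1 / 2) * RP Y (-(1 / 2)) = 1 := half_mul_neg hY _
  have hus : RP Y (-(1 / 2)) * RP Y (1 / 2) = 1 := neg_mul_half hY _
  have hss : RP Y (1 / 2) * RP Y (1 / 2) = Y := half_mul_half hY
  rw [Phi_eq]
  refine (conj_le (RP_le (sp_conj hX hu.isSelfAdjoint hu.isUnit) ht) hs.isSelfAdjoint).trans ?_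
  apply le_of_eq
  rw [mul_add, add_mul, mul_smul_comm, mul_smul_comm, smul_mul_assoc, smul_mul_assoc, mul_one, hss]
  congr 2
  calc RP Y (1 / 2) * (RP Y (-(1 / 2)) * X * RP Y (-(1 / 2))) * RP Y (1 / 2)
      = (RP Y (1 / 2) * RP Y (-(1 / 2))) * X * (RP Y (-(1 / 2)) * RP Y (1 / 2)) := by noncomm_ring
    _ = X := by rw [hsu, hus, one_mul, mul_one]

/-- the inverse of the mean is the mean of the inverses -/
lemma RP_neg_Phi {X Y : A} (hX : IsStrictlyPositive X) (hY : IsStrictlyPositive Y) (t : ℝ) :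
    RP (Phi t X Y) (-1) = RP Y (-(1 / 2)) *
      RP (RP Y (-(1 / 2)) * X * RP Y (-(1 / 2))) (-t) * RP Y (-(1 / 2)) := by
  have hu := sp_rpow hY (-(1 / 2))
  have hsu : RP Y (1 / 2) * RP Y (-(1 / 2)) = 1 := half_mul_neg hY _
  have hC : IsStrictlyPositive (RP Y (-(1 / 2)) * X * RP Y (-(1 / 2))) :=
    sp_conj hX hu.isSelfAdjoint hu.isUnit
  symm
  apply inv_unique (sp_Phi hX hY t)
  rw [Phi_eq]
  set C := RP Y (-(1 / 2)) * X * RP Y (-(1 / 2))
  set s := RP Y (1 / 2)
  set u := RP Y (-(1 / 2))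
  calc s * RP C t * s * (u * RP C (-t) * u) = s * RP C t * (s * u) * RP C (-t) * u := by noncomm_ring
    _ = s * (RP C t * RP C (-t)) * u := by rw [hsu]; noncomm_ring
    _ = 1 := by rw [half_mul_neg hC, mul_one, hsu]

lemma RP_neg_Phi_le {X Y : A} (hX : IsStrictlyPositive X) (hY : IsStrictlyPositive Y) {t : ℝ}
    (ht : t ∈ Set.Icc (0 : ℝ) 1) :
    RP (Phi t X Y) (-1) ≤ (1 - t) • RP Y (-1) + t • RP X (-1) := by
  have hs := sp_rpow hY (1 / 2)
  have hu := sp_rpow hY (-(1 / 2))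
  have hsu : RP Y (1 / 2) * RP Y (-(1 / 2)) = 1 := half_mul_neg hY _
  have hus : RP Y (-(1 / 2)) * RP Y (1 / 2) = 1 := neg_mul_half hY _
  have huu : RP Y (-(1 / 2)) * RP Y (-(1 / 2)) = RP Y (-1) := by
    rw [← RP_add hY]; norm_num
  have hC : IsStrictlyPositive (RP Y (-(1 / 2)) * X * RP Y (-(1 / 2))) :=
    sp_conj hX hu.isSelfAdjoint hu.isUnit
  rw [RP_neg_Phi hX hY]
  have hXi : X * RP X (-1) = 1 := by
    have := half_mul_neg hX 1
    rwa [RP_one hX] at this
  have hCi : RP (RP Y (-(1 / 2)) * X * RP Y (-(1 / 2))) (-1) = RP Y (1 / 2) * RP X (-1) * RP Y (1 / 2) := by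
    symm
    apply inv_unique hC
    calc RP Y (-(1 / 2)) * X * RP Y (-(1 / 2)) * (RP Y (1 / 2) * RP X (-1) * RP Y (1 / 2))
        = RP Y (-(1 / 2)) * X * (RP Y (-(1 / 2)) * RP Y (1 / 2)) * RP X (-1) * RP Y (1 / 2) := by
          noncomm_ring
      _ = RP Y (-(1 / 2)) * (X * RP X (-1)) * RP Y (1 / 2) := by rw [hus]; noncomm_ring
      _ = 1 := by rw [hXi, mul_one, hus]
  have h5 : RP (RP Y (-(1 / 2)) * X * RP Y (-(1 / 2))) (-t) ≤
      (1 - t) • (1 : A) + t • (RP Y (1 / 2) * RP X (-1) * RP Y (1 / 2)) := by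
    have := RP_le (sp_rpow hC (-1)) ht
    rw [RP_RP hC _ _ (by norm_num), hCi] at this
    convert this using 2
    ring
  refine (conj_le h5 hu.isSelfAdjoint).trans ?_
  apply le_of_eq
  rw [mul_add, add_mul, mul_smul_comm, mul_smul_comm, smul_mul_assoc, smul_mul_assoc, mul_one, huu]
  congr 2
  calc RP Y (-(1 / 2)) * (RP Y (1 / 2) * RP X (-1) * RP Y (1 / 2)) * RP Y (-(1 / 2))
      = (RP Y (-(1 / 2)) * RP Y (1 / 2)) * RP X (-1) * (RP Y (1 / 2) * RP Y (-(1 / 2))) := by
        noncomm_ring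
    _ = RP X (-1) := by rw [hsu, hus, one_mul, mul_one]

lemma AM_succ (m : ℕ) (X : Fin (m + 2) → A) :
    AM (m + 2) X = (1 - 1 / ((m : ℝ) + 2)) • AM (m + 1) (fun i => X i.succ) +
      (1 / ((m : ℝ) + 2)) • X 0 := by
  unfold AM
  rw [Fin.sum_univ_succ, smul_add, smul_smul, add_comm]
  have hm : ((m : ℝ) + 2) ≠ 0 := by positivity
  have hm1 : ((m : ℝ) + 1) ≠ 0 := by positivity
  congr 2
  · push_cast
    field_simp
    ring
  · push_cast
    ring

lemma GM_le_AM : ∀ (m : ℕ) (X : Fin (m + 1) → A), (∀ i, IsStrictlyPositive (X i)) →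
    GM (m + 1) X ≤ AM (m + 1) X
  | 0, X, _ => by
      rw [GM, AM]; simp
  | (m + 1), X, hX => by
      rw [GM, AM_succ]
      refine (Phi_le (hX 0) (sp_GM _ _ (fun i => hX _)) (wt_mem m)).trans ?_
      gcongr
      · linarith [(wt_mem m).2]
      · exact GM_le_AM m _ (fun i => hX _)

lemma RP_neg_GM_le : ∀ (m : ℕ) (X : Fin (m + 1) → A), (∀ i, IsStrictlyPositive (X i)) →
    RP (GM (m + 1) X) (-1) ≤ AM (m + 1) (fun i => RP (X i) (-1))
  | 0, X, _ => by
      rw [GM, AM]; simp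
  | (m + 1), X, hX => by
      rw [GM, AM_succ]
      refine (RP_neg_Phi_le (hX 0) (sp_GM _ _ (fun i => hX _)) (wt_mem m)).trans ?_
      gcongr
      · linarith [(wt_mem m).2]
      · exact RP_neg_GM_le m _ (fun i => hX _)

end order


section final
variable {A : Type*} [CStarAlgebra A] [PartialOrder A] [StarOrderedRing A]

lemma half_sp : IsStrictlyPositive ((1 / 2 : ℝ) • (1 : A)) := by
  refine ⟨smul_nonneg (by norm_num) zero_le_one, ?_⟩
  have h : IsUnit (algebraMap ℝ A (1 / 2)) := (IsUnit.mk0 (1 / 2 : ℝ) (by norm_num)).map _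
  rwa [Algebra.algebraMap_eq_smul_one] at h

/-- `Z ≥ 1 - (1/4) Z⁻¹` -/
lemma lower_Z {Z : A} (hZ : IsStrictlyPositive Z) :
    (1 : A) - (1 / 4 : ℝ) • RP Z (-1) ≤ Z := by
  have hs := sp_rpow hZ (1 / 2)
  have hu := sp_rpow hZ (-(1 / 2))
  have hsu : RP Z (1 / 2) * RP Z (-(1 / 2)) = 1 := half_mul_neg hZ _
  have hus : RP Z (-(1 / 2)) * RP Z (1 / 2) = 1 := neg_mul_half hZ _
  have hss : RP Z (1 / 2) * RP Z (1 / 2) = Z := half_mul_half hZ
  have huu : RP Z (-(1 / 2)) * RP Z (-(1 / 2)) = RP Z (-1) := by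
    rw [← RP_add hZ]; norm_num
  have hsa : IsSelfAdjoint (RP Z (1 / 2) - (1 / 2 : ℝ) • RP Z (-(1 / 2))) :=
    hs.isSelfAdjoint.sub (IsSelfAdjoint.smul (by simp [IsSelfAdjoint]) hu.isSelfAdjoint)
  have h := star_mul_self_nonneg (RP Z (1 / 2) - (1 / 2 : ℝ) • RP Z (-(1 / 2)))
  rw [hsa.star_eq] at h
  have e : (RP Z (1 / 2) - (1 / 2 : ℝ) • RP Z (-(1 / 2))) *
      (RP Z (1 / 2) - (1 / 2 : ℝ) • RP Z (-(1 / 2))) = Z - (1 - (1 / 4 : ℝ) • RP Z (-1)) := by
    rw [sub_mul, mul_sub, mul_sub, hss, mul_smul_comm, smul_mul_assoc, smul_mul_assoc,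
      mul_smul_comm, hsu, hus, huu]
    match_scalars <;> norm_num
  rw [e] at h
  exact sub_nonneg.mp h

/-- upper bound for the inverse of `1/2 + x` -/
lemma inv_upper {x : A} (hx : 0 ≤ x) :
    (1 / 4 : ℝ) • RP ((1 / 2 : ℝ) • (1 : A) + x) (-1) ≤ (1 / 2 : ℝ) • (1 : A) - x + (2 : ℝ) • (x * x) := by
  have h12 : IsStrictlyPositive ((1 / 2 : ℝ) • (1 : A)) := half_sp
  have ha : IsStrictlyPositive ((1 / 2 : ℝ) • (1 : A) + x) := h12.add_nonneg hx
  set a := (1 / 2 : ℝ) • (1 : A) + x with hadef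
  have hab : a * RP a (-1) = 1 := by
    have := half_mul_neg ha 1
    rwa [RP_one ha] at this
  have hba : RP a (-1) * a = 1 := by
    have := neg_mul_half ha 1
    rwa [RP_one ha] at this
  set b := RP a (-1) with hbdef
  have hx' : x = a - (1 / 2 : ℝ) • (1 : A) := by rw [hadef]; abel
  -- b ≤ 2
  have hb2 : b ≤ (2 : ℝ) • (1 : A) := by
    have h1 : (1 / 2 : ℝ) • (1 : A) ≤ a := by rw [hadef]; exact le_add_of_nonneg_right hx
    have hu := sp_rpow ha (-(1 / 2))
    have hs := sp_rpow ha (1 / 2)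
    have h2 := conj_le h1 hu.isSelfAdjoint
    have huu : RP a (-(1 / 2)) * RP a (-(1 / 2)) = RP a (-1) := by
      rw [← RP_add ha]; norm_num
    have hss : RP a (1 / 2) * RP a (1 / 2) = a := half_mul_half ha
    have hsu : RP a (1 / 2) * RP a (-(1 / 2)) = 1 := half_mul_neg ha _
    have hus : RP a (-(1 / 2)) * RP a (1 / 2) = 1 := neg_mul_half ha _
    have e1 : RP a (-(1 / 2)) * a * RP a (-(1 / 2)) = 1 := by
      calc RP a (-(1 / 2)) * a * RP a (-(1 / 2))
          = RP a (-(1 / 2)) * (RP a (1 / 2) * RP a (1 / 2)) * RP a (-(1 / 2)) := by rw [hss]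
        _ = (RP a (-(1 / 2)) * RP a (1 / 2)) * (RP a (1 / 2) * RP a (-(1 / 2))) := by noncomm_ring
        _ = 1 := by rw [hsu, hus, one_mul]
    have e2 : RP a (-(1 / 2)) * ((1 / 2 : ℝ) • (1 : A)) * RP a (-(1 / 2)) = (1 / 2 : ℝ) • b := by
      rw [mul_smul_comm, mul_one, smul_mul_assoc, huu]
    rw [e1, e2] at h2
    have h3 := smul_le_smul_of_nonneg_left h2 (by norm_num : (0 : ℝ) ≤ 2)
    rw [smul_smul] at h3
    norm_num at h3
    simpa using h3
  have hxsa : IsSelfAdjoint x := hx.isSelfAdjoint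
  have h4 : x * b * x ≤ x * ((2 : ℝ) • (1 : A)) * x := conj_le hb2 hxsa
  have h5 : x * ((2 : ℝ) • (1 : A)) * x = (2 : ℝ) • (x * x) := by
    rw [mul_smul_comm, mul_one, smul_mul_assoc]
  rw [h5] at h4
  have h6 : (1 / 4 : ℝ) • b = (1 / 2 : ℝ) • (1 : A) - x + x * b * x := by
    have : x * b * x = a - (1 / 2 : ℝ) • (1 : A) - (1 / 2 : ℝ) • (1 : A) + (1 / 4 : ℝ) • b := by
      calc x * b * x = (a - (1 / 2 : ℝ) • (1 : A)) * b * (a - (1 / 2 : ℝ) • (1 : A)) := by rw [← hx']
        _ = (a * b) * a - (1 / 2 : ℝ) • (a * b) - (1 / 2 : ℝ) • (b * a) + (1 / 4 : ℝ) • b := by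
            rw [sub_mul, mul_sub, sub_mul, smul_mul_assoc, one_mul, smul_mul_assoc, mul_smul_comm,
              mul_one]
            match_scalars <;> norm_num
        _ = _ := by rw [hab, hba, one_mul]
    rw [this, hx']
    match_scalars <;> norm_num
  rw [h6]
  gcongr

end final


section main
variable {A : Type*} [CStarAlgebra A] [PartialOrder A] [StarOrderedRing A]

set_option backward.isDefEq.respectTransparency false in
lemma entry_nonneg {M : CStarMatrix (Fin 2) (Fin 2) A} (hM : 0 ≤ M) : 0 ≤ M 0 0 := by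
  obtain ⟨N, rfl⟩ := CStarAlgebra.nonneg_iff_eq_star_mul_self.mp hM
  rw [CStarMatrix.mul_apply, Fin.sum_univ_two, CStarMatrix.star_apply, CStarMatrix.star_apply]
  exact add_nonneg (star_mul_self_nonneg _) (star_mul_self_nonneg _)

lemma diag_nonneg {d : A} (hd : 0 ≤ d) :
    (0 : CStarMatrix (Fin 2) (Fin 2) A) ≤ CStarMatrix.ofMatrix !![0, 0; 0, d] := by
  have h := map_nonneg' (psi (A := A) 0 0 (by simp) (by simp) (by simp)) (pair_nonneg hd le_rfl)
  have e : psi (A := A) 0 0 (by simp) (by simp) (by simp) (d, 0) =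
      CStarMatrix.ofMatrix !![0, 0; 0, d] := by
    rw [psi_apply]; simp
  rwa [e] at h

lemma two_point (m : ℕ) (c : A) (H : Fin m → A) (r : ℝ) (hr : 0 < r) (hr1 : r ≤ 1)
    (hH : ∀ i, 0 ≤ H i)
    (hP : ∀ i, IsStrictlyPositive (c + H i)) (hQ : ∀ i, IsStrictlyPositive (c - H i))
    (hPr : ∀ i, IsStrictlyPositive (c + r • H i)) (hQr : ∀ i, IsStrictlyPositive (c - r • H i)) :
    r • GM m (fun i => c - H i) + GM m (fun i => c + r • H i) ≤
      r • GM m (fun i => c + H i) + GM m (fun i => c - r • H i) := by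
  have hr2 : (0 : ℝ) < 1 + r := by linarith
  set al : ℂ := ((r / (1 + r) : ℝ) : ℂ) with hal
  set be : ℂ := ((Real.sqrt r / (1 + r) : ℝ) : ℂ) with hbe
  have hal1 : star al = al := Complex.conj_ofReal _
  have hbe1 : star be = be := Complex.conj_ofReal _
  have hbe2 : star (-be) = -be := by rw [star_neg, hbe1]
  have hal3 : al * (1 + r) = r := by
    have : (r / (1 + r)) * (1 + r) = r := by field_simp
    rw [hal]; exact_mod_cast this
  have hrel0 : (Real.sqrt r / (1 + r)) * (Real.sqrt r / (1 + r)) =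
      (r / (1 + r)) * (1 - r / (1 + r)) := by
    rw [div_mul_div_comm, Real.mul_self_sqrt hr.le]
    field_simp
    ring
  have hrel : be * be = al * (1 - al) := by
    rw [hbe, hal]; exact_mod_cast hrel0
  have hrel' : (-be) * (-be) = al * (1 - al) := by rw [neg_mul_neg, hrel]
  let φT := psi (A := A) al be hal1 hbe1 hrel
  let φS := psi (A := A) al (-be) hal1 hbe2 hrel'
  have hle : ∀ i, φS (c - H i, c + r • H i) ≤ φT (c + H i, c - r • H i) := by
    intro i
    have hd := diag_nonneg (smul_nonneg (by linarith : (0 : ℝ) ≤ 2 * (1 - r)) (hH i))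
    have e : φT (c + H i, c - r • H i) - φS (c - H i, c + r • H i) =
        CStarMatrix.ofMatrix !![0, 0; 0, (2 * (1 - r)) • H i] := by
      rw [← Complex.coe_smul r (H i), ← Complex.coe_smul (2 * (1 - r)) (H i)]
      ext k l
      fin_cases k <;> fin_cases l <;>
        simp [φT, φS, psi_apply, CStarMatrix.sub_apply, -Complex.coe_smul] <;>
        match_scalars <;>
        first
          | ring1
          | linear_combination 2 * hal3
          | linear_combination (-2 : ℂ) * hal3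
          | linear_combination (2 : ℂ) * hal3 * (1 : ℂ)
    rw [← e] at hd
    exact sub_nonneg.mp hd
  have hmono := GM_mono m (fun i => φS (c - H i, c + r • H i)) (fun i => φT (c + H i, c - r • H i))
    (fun i => sp_map φS (pair_sp (hQ i) (hPr i))) (fun i => sp_map φT (pair_sp (hP i) (hQr i))) hle
  rw [← map_GM φS m _ (fun i => pair_sp (hQ i) (hPr i)),
    ← map_GM φT m _ (fun i => pair_sp (hP i) (hQr i)), GM_pair m _ _ hQ hPr, GM_pair m _ _ hP hQr]
    at hmono
  have h0 := entry_nonneg (sub_nonneg.mpr hmono)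
  have e0 : (φT (GM m (fun i => c + H i), GM m (fun i => c - r • H i)) -
      φS (GM m (fun i => c - H i), GM m (fun i => c + r • H i))) 0 0 =
      (al • GM m (fun i => c + H i) + (1 - al) • GM m (fun i => c - r • H i)) -
      (al • GM m (fun i => c - H i) + (1 - al) • GM m (fun i => c + r • H i)) := by
    simp [φT, φS, psi_apply, CStarMatrix.sub_apply]
  rw [e0] at h0
  have h1 := smul_nonneg hr2.le h0
  have e1 : (1 + r) • ((al • GM m (fun i => c + H i) + (1 - al) • GM m (fun i => c - r • H i)) -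
      (al • GM m (fun i => c - H i) + (1 - al) • GM m (fun i => c + r • H i))) =
      (r • GM m (fun i => c + H i) + GM m (fun i => c - r • H i)) -
      (r • GM m (fun i => c - H i) + GM m (fun i => c + r • H i)) := by
    generalize GM m (fun i => c + H i) = P
    generalize GM m (fun i => c - H i) = Q
    generalize GM m (fun i => c - r • H i) = Q'
    generalize GM m (fun i => c + r • H i) = P'
    rw [← Complex.coe_smul (1 + r), ← Complex.coe_smul r P, ← Complex.coe_smul r Q]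
    push_cast
    match_scalars <;>
    first
      | ring1
      | linear_combination hal3
      | linear_combination (-1 : ℂ) * hal3
  rw [e1] at h1
  exact sub_nonneg.mp h1

end main


section concl
variable {A : Type*} [CStarAlgebra A] [PartialOrder A] [StarOrderedRing A]

lemma AM_mono (m : ℕ) {X Y : Fin m → A} (h : ∀ i, X i ≤ Y i) : AM m X ≤ AM m Y := by
  unfold AM
  exact smul_le_smul_of_nonneg_left (Finset.sum_le_sum (fun i _ => h i)) (by positivity)

lemma AM_lin (m : ℕ) (X Y Z : Fin (m + 1) → A) (c : A) (a b d : ℝ)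
    (h : ∀ i, Z i = c + a • X i + b • Y i) :
    AM (m + 1) (fun i => d • Z i) = d • c + (d * a) • AM (m + 1) X + (d * b) • AM (m + 1) Y := by
  unfold AM
  have hm : ((m : ℝ) + 1) ≠ 0 := by positivity
  have e : ∑ i, d • Z i = ((m : ℝ) + 1) • (d • c) + (d * a) • ∑ i, X i + (d * b) • ∑ i, Y i := by
    simp only [h, smul_add, Finset.sum_add_distrib, Finset.sum_const, Finset.card_univ,
      Fintype.card_fin, ← Finset.smul_sum, smul_smul]
    rw [← Nat.cast_smul_eq_nsmul ℝ]
    push_cast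
    rw [smul_smul]
  rw [e]
  push_cast
  simp only [smul_add, smul_smul]
  congr 1
  · congr 1
    · congr 1; field_simp
    · congr 1; ring
  · congr 1; ring

/-- The key inequality: with `H i ≥ 0`, `1/2 - H i` strictly positive,
`GM (1/2 + H) - GM (1/2 - H) ≥ 2 AM H`. -/
theorem key (m : ℕ) (H : Fin (m + 1) → A) (hH : ∀ i, 0 ≤ H i)
    (hQ : ∀ i, IsStrictlyPositive ((1 / 2 : ℝ) • (1 : A) - H i)) :
    (2 : ℝ) • AM (m + 1) H ≤ GM (m + 1) (fun i => (1 / 2 : ℝ) • (1 : A) + H i) -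
      GM (m + 1) (fun i => (1 / 2 : ℝ) • (1 : A) - H i) := by
  set c : A := (1 / 2 : ℝ) • (1 : A) with hc
  have hcs : IsStrictlyPositive c := half_sp
  set P := GM (m + 1) (fun i => c + H i) with hP
  set Q := GM (m + 1) (fun i => c - H i) with hQd
  set K := AM (m + 1) H with hK
  set N := AM (m + 1) (fun i => H i * H i) with hN
  have main : ∀ r : ℝ, 0 < r → r ≤ 1 → 0 ≤ (P - Q - (2 : ℝ) • K) + ((2 : ℝ) * r) • N := by
    intro r hr hr1
    have hrH : ∀ i, 0 ≤ r • H i := fun i => smul_nonneg hr.le (hH i)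
    have hPs : ∀ i, IsStrictlyPositive (c + H i) := fun i => hcs.add_nonneg (hH i)
    have hPr : ∀ i, IsStrictlyPositive (c + r • H i) := fun i => hcs.add_nonneg (hrH i)
    have hQr : ∀ i, IsStrictlyPositive (c - r • H i) := by
      intro i
      have : c - r • H i = (c - H i) + (1 - r) • H i := by
        rw [sub_smul, one_smul]; abel
      rw [this]
      exact (hQ i).add_nonneg (smul_nonneg (by linarith) (hH i))
    have h1 := two_point (m + 1) c H r hr hr1 hH hPs hQ hPr hQr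
    have h2 : GM (m + 1) (fun i => c - r • H i) ≤ c - r • K := by
      refine (GM_le_AM m _ hQr).trans (le_of_eq ?_)
      have := AM_lin m H (fun i => H i * H i) (fun i => c - r • H i) c (-r) 0 1
        (fun i => by simp [sub_eq_add_neg])
      simp only [one_smul] at this
      rw [this, ← hK]
      simp [sub_eq_add_neg]
    have h3 : c + r • K - ((2 : ℝ) * r ^ 2) • N ≤ GM (m + 1) (fun i => c + r • H i) := by
      refine le_trans ?_ (lower_Z (sp_GM _ _ hPr))
      have h4 := smul_le_smul_of_nonneg_left (RP_neg_GM_le m _ hPr) (by norm_num : (0 : ℝ) ≤ 1 / 4)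
      have h5 : (1 / 4 : ℝ) • AM (m + 1) (fun i => RP (c + r • H i) (-1)) ≤
          c - r • K + ((2 : ℝ) * r ^ 2) • N := by
        have e : (1 / 4 : ℝ) • AM (m + 1) (fun i => RP (c + r • H i) (-1)) =
            AM (m + 1) (fun i => (1 / 4 : ℝ) • RP (c + r • H i) (-1)) := by
          unfold AM
          rw [← Finset.smul_sum, smul_comm]
        rw [e]
        refine (AM_mono (m + 1) (fun i => inv_upper (hrH i))).trans (le_of_eq ?_)
        have := AM_lin m H (fun i => H i * H i)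
          (fun i => (1 / 2 : ℝ) • (1 : A) - r • H i + (2 : ℝ) • (r • H i * r • H i)) c (-r)
          (2 * r ^ 2) 1 (fun i => by
            rw [smul_mul_assoc, mul_smul_comm, smul_smul, smul_smul, hc, neg_smul, ← sub_eq_add_neg]
            congr 2; ring)
        simp only [one_smul] at this
        rw [this, ← hK, ← hN]
        simp [sub_eq_add_neg]
      have h6 := h4.trans h5
      have h7 : (1 : A) - (c - r • K + ((2 : ℝ) * r ^ 2) • N) = c + r • K - ((2 : ℝ) * r ^ 2) • N := by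
        rw [hc]; match_scalars <;> norm_num
      rw [← h7]
      exact sub_le_sub_left h6 1
    have h8 : r • Q + (c + r • K - ((2 : ℝ) * r ^ 2) • N) ≤ r • P + (c - r • K) :=
      (add_le_add_right h3 (r • Q)).trans (h1.trans (add_le_add_right h2 (r • P)))
    have h9 := sub_nonneg.mpr h8
    have h10 := smul_nonneg (inv_nonneg.mpr hr.le) h9
    have e : r⁻¹ • (r • P + (c - r • K) - (r • Q + (c + r • K - ((2 : ℝ) * r ^ 2) • N))) =
        (P - Q - (2 : ℝ) • K) + ((2 : ℝ) * r) • N := by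
      match_scalars <;> field_simp <;> ring
    rwa [e] at h10
  -- the limit
  have hcont : Filter.Tendsto (fun r : ℝ => (P - Q - (2 : ℝ) • K) + ((2 : ℝ) * r) • N)
      (nhdsWithin 0 (Set.Ioi 0)) (nhds ((P - Q - (2 : ℝ) • K) + ((2 : ℝ) * 0) • N)) := by
    apply Filter.Tendsto.mono_left _ nhdsWithin_le_nhds
    apply Continuous.tendsto
    fun_prop
  have hlim : 0 ≤ (P - Q - (2 : ℝ) • K) + ((2 : ℝ) * 0) • N := by
    refine ge_of_tendsto hcont ?_
    filter_upwards [Ioo_mem_nhdsGT (show (0 : ℝ) < 1 by norm_num)] with r hr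
    exact main r hr.1 hr.2.le
  simp only [mul_zero, zero_smul, add_zero] at hlim
  exact sub_nonneg.mp hlim

/-- Operator version of Alzer's inequality in a unital C*-algebra. -/
theorem alzer (n : ℕ) (X : Fin n → A) (hn : 1 ≤ n) (hpos : ∀ i, 0 ≤ X i ∧ IsUnit (X i))
    (hle : ∀ i, X i ≤ (1 / 2 : ℝ) • (1 : A)) :
    AM n (fun i => 1 - X i) - GM n (fun i => 1 - X i) ≤ AM n X - GM n X := by
  obtain ⟨m, rfl⟩ : ∃ m, n = m + 1 := ⟨n - 1, by omega⟩
  have hX : ∀ i, IsStrictlyPositive (X i) := fun i => ⟨(hpos i).1, (hpos i).2⟩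
  have h := key m (fun i => (1 / 2 : ℝ) • (1 : A) - X i) (fun i => sub_nonneg.mpr (hle i))
    (fun i => by simpa using hX i)
  have e1 : (fun i => (1 / 2 : ℝ) • (1 : A) + ((1 / 2 : ℝ) • (1 : A) - X i)) = fun i => 1 - X i := by
    funext i
    match_scalars <;> norm_num
  have e2 : (fun i => (1 / 2 : ℝ) • (1 : A) - ((1 / 2 : ℝ) • (1 : A) - X i)) = X := by
    funext i
    abel
  rw [e1, e2] at h
  have e3 : AM (m + 1) (fun i => 1 - X i) = 1 - AM (m + 1) X := by
    have := AM_lin m X X (fun i => 1 - X i) 1 (-1) 0 1 (fun i => by simp [sub_eq_add_neg])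
    simp only [one_smul] at this
    rw [this]; simp [sub_eq_add_neg]
  have e4 : AM (m + 1) (fun i => (1 / 2 : ℝ) • (1 : A) - X i) =
      (1 / 2 : ℝ) • (1 : A) - AM (m + 1) X := by
    have := AM_lin m X X (fun i => (1 / 2 : ℝ) • (1 : A) - X i) ((1 / 2 : ℝ) • (1 : A)) (-1) 0 1
      (fun i => by simp [sub_eq_add_neg])
    simp only [one_smul] at this
    rw [this]; simp [sub_eq_add_neg]
  rw [e4] at h
  rw [e3]
  have h' := sub_nonneg.mpr h
  apply sub_nonneg.mp
  refine le_of_le_of_eq h' ?_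
  match_scalars <;> norm_num

end concl

end Pool.Agent.X207.AL
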