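import Mathlib
open scoped ENNReal InnerProductSpace
open Filter Topology
namespace Pool.Agent.X207.CC

/-- The Hilbert space of square summable complex sequences. -/
noncomputable abbrev E2 : Type := lp (fun _ : ℕ => ℂ) 2

/-- forward shift on sequences -/
def sh (x : ℕ → ℂ) : ℕ → ℂ
  | 0 => 0
  | (n + 1) => x n

lemma summable_sq (x : E2) : Summable (fun n => ‖x n‖ ^ 2) := by
  have h := lp.memℓp x
  have := (memℓp_gen_iff (p := 2) (by norm_num)).mp h
  simpa using this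

lemma norm_sq_eq (x : E2) : ‖x‖ ^ 2 = ∑' n, ‖x n‖ ^ 2 := by
  have := lp.norm_rpow_eq_tsum (p := 2) (by norm_num) x
  simpa using this

lemma memsh (x : E2) : Memℓp (sh x) 2 := by
  apply memℓp_gen
  have h := summable_sq x
  have h2 : Summable (fun n => ‖sh x n‖ ^ 2) := by
    rw [← summable_nat_add_iff 1]
    exact h
  simpa using h2

/-- the unilateral shift -/
noncomputable def U : E2 →ₗᵢ[ℂ] E2 where
  toFun x := ⟨sh x, memsh x⟩
  map_add' x y := by
    ext n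
    cases n with
    | zero => show (0 : ℂ) = 0 + 0; simp
    | succ n => rfl
  map_smul' c x := by
    ext n
    cases n <;> simp [sh]
  norm_map' x := by
    have h1 := norm_sq_eq x
    have h2 := norm_sq_eq (⟨sh x, memsh x⟩ : E2)
    have h3 : ∑' n, ‖(⟨sh x, memsh x⟩ : E2) n‖ ^ 2 = ∑' n, ‖x n‖ ^ 2 := by
      have hs : Summable (fun n => ‖(⟨sh x, memsh x⟩ : E2) n‖ ^ 2) := summable_sq _
      rw [hs.tsum_eq_zero_add]
      simp [sh]
    have h4 : ‖(⟨sh x, memsh x⟩ : E2)‖ ^ 2 = ‖x‖ ^ 2 := by rw [h2, h3, h1]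
    exact (pow_left_inj₀ (norm_nonneg _) (norm_nonneg _) two_ne_zero).mp h4

@[simp] lemma U_zero (x : E2) : (U x) 0 = 0 := rfl
@[simp] lemma U_succ (x : E2) (n : ℕ) : (U x) (n + 1) = x n := rfl

/-- the shift as a continuous linear map -/
noncomputable def S : E2 →L[ℂ] E2 := U.toContinuousLinearMap

@[simp] lemma S_apply (x : E2) : S x = U x := rfl

lemma norm_S_apply (x : E2) : ‖S x‖ = ‖x‖ := U.norm_map x

lemma norm_S_le : ‖S‖ ≤ 1 := U.norm_toContinuousLinearMap_le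

/-- first basis vector -/
noncomputable def e0 : E2 := lp.single 2 0 (1 : ℂ)

lemma inner_e0 (x : E2) : ⟪e0, x⟫_ℂ = x 0 := by
  rw [lp.inner_eq_tsum, tsum_eq_single 0]
  · simp [e0, lp.single_apply]
  · intro n hn
    simp [e0, lp.single_apply, hn]

lemma norm_e0 : ‖e0‖ = 1 := by
  rw [e0, lp.norm_single (by norm_num)]; simp

/-- kernel vectors -/
lemma memk {z : ℂ} (hz : ‖z‖ < 1) : Memℓp (fun n : ℕ => (starRingEnd ℂ z) ^ n) 2 := by
  apply memℓp_gen
  have h : Summable (fun n : ℕ => (‖z‖ ^ 2) ^ n) := by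
    apply summable_geometric_of_lt_one (by positivity)
    nlinarith [norm_nonneg z]
  refine h.congr ?_
  intro n
  simp [← pow_mul, mul_comm]

noncomputable def kz (z : ℂ) (hz : ‖z‖ < 1) : E2 := ⟨fun n => (starRingEnd ℂ z) ^ n, memk hz⟩

lemma norm_kz {z : ℂ} (hz : ‖z‖ < 1) : ‖kz z hz‖ ^ 2 = 1 / (1 - ‖z‖ ^ 2) := by
  rw [norm_sq_eq]
  have h : ∑' n : ℕ, ‖(kz z hz) n‖ ^ 2 = ∑' n : ℕ, (‖z‖ ^ 2) ^ n := by
    congr 1; ext n
    simp [kz, ← pow_mul, mul_comm]
  rw [h, tsum_geometric_of_lt_one (by positivity) (by nlinarith [norm_nonneg z]), one_div]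

/-- evaluation of the power series -/
noncomputable def ev (x : E2) (z : ℂ) : ℂ := ∑' n, x n * z ^ n

lemma ev_eq_inner (x : E2) {z : ℂ} (hz : ‖z‖ < 1) : ev x z = ⟪kz z hz, x⟫_ℂ := by
  rw [lp.inner_eq_tsum, ev]
  congr 1; ext n
  simp [kz]

lemma ev_bound (x : E2) {z : ℂ} (hz : ‖z‖ < 1) : ‖ev x z‖ ^ 2 * (1 - ‖z‖ ^ 2) ≤ ‖x‖ ^ 2 := by
  have h1 : ‖ev x z‖ ≤ ‖kz z hz‖ * ‖x‖ := by
    rw [ev_eq_inner x hz]; exact norm_inner_le_norm _ _
  have h2 := norm_kz hz
  have h3 : 0 < 1 - ‖z‖ ^ 2 := by nlinarith [norm_nonneg z]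
  have h4 : ‖ev x z‖ ^ 2 ≤ (‖kz z hz‖ * ‖x‖) ^ 2 := pow_le_pow_left₀ (norm_nonneg _) h1 2
  rw [mul_pow, h2] at h4
  calc ‖ev x z‖ ^ 2 * (1 - ‖z‖ ^ 2) ≤ (1 / (1 - ‖z‖ ^ 2) * ‖x‖ ^ 2) * (1 - ‖z‖ ^ 2) := by
        gcongr
    _ = ‖x‖ ^ 2 := by field_simp

lemma summable_ev (x : E2) {z : ℂ} (hz : ‖z‖ < 1) : Summable (fun n => x n * z ^ n) := by
  have := lp.summable_inner (𝕜 := ℂ) (G := fun _ : ℕ => ℂ) (kz z hz) x
  refine this.congr ?_
  intro n
  simp [kz]

lemma ev_S (x : E2) {z : ℂ} (hz : ‖z‖ < 1) : ev (S x) z = z * ev x z := by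
  unfold ev
  rw [(summable_ev (S x) hz).tsum_eq_zero_add, ← tsum_mul_left]
  simp only [S_apply, U_zero, zero_mul, zero_add, U_succ]
  congr 1; ext n; ring

lemma ev_add (x y : E2) {z : ℂ} (hz : ‖z‖ < 1) : ev (x + y) z = ev x z + ev y z := by
  rw [ev_eq_inner _ hz, ev_eq_inner _ hz, ev_eq_inner _ hz, inner_add_right]

lemma ev_smul (c : ℂ) (x : E2) {z : ℂ} (hz : ‖z‖ < 1) : ev (c • x) z = c * ev x z := by
  rw [ev_eq_inner _ hz, ev_eq_inner _ hz, inner_smul_right]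

/-- the operator `A = 100 + i (1 - S)` -/
noncomputable def Yop : E2 →L[ℂ] E2 := Complex.I • (1 - S)
noncomputable def Aop : E2 →L[ℂ] E2 := (100 : ℂ) • (1 : E2 →L[ℂ] E2) + Yop

/-- its symbol -/
noncomputable def phi (z : ℂ) : ℂ := 100 + Complex.I * (1 - z)

lemma ev_A (x : E2) {z : ℂ} (hz : ‖z‖ < 1) : ev (Aop x) z = phi z * ev x z := by
  have h : Aop x = ((100 : ℂ) + Complex.I) • x + (-Complex.I) • S x := by
    simp only [Aop, Yop, add_apply, smul_apply,
      one_apply_eq_self, sub_apply]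
    module
  rw [h, ev_add _ _ hz, ev_smul _ _ hz, ev_smul _ _ hz, ev_S x hz, phi]
  ring

lemma ev_poly (q : Polynomial ℝ) (x : E2) {z : ℂ} (hz : ‖z‖ < 1) :
    ev (Polynomial.aeval Aop q x) z = Polynomial.aeval (phi z) q * ev x z := by
  induction q using Polynomial.induction_on generalizing x with
  | C a =>
    simp only [Polynomial.aeval_C]
    have : (algebraMap ℝ (E2 →L[ℂ] E2) a) x = (a : ℂ) • x := by
      rw [Algebra.algebraMap_eq_smul_one]
      ext n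
      show (((a • (1 : E2 →L[ℂ] E2)) x : E2) : ℕ → ℂ) n = (((a : ℂ) • x : E2) : ℕ → ℂ) n
      rw [show (a • (1 : E2 →L[ℂ] E2)) x = a • x from rfl, lp.coeFn_smul, lp.coeFn_smul]
      simp
    rw [this, ev_smul _ _ hz]; simp
  | add p q hp hq =>
    rw [map_add, map_add, add_apply, ev_add _ _ hz, hp, hq]; ring
  | monomial n a h =>
    have e1 : Polynomial.aeval Aop (Polynomial.C a * Polynomial.X ^ (n + 1)) x =
        Polynomial.aeval Aop (Polynomial.C a * Polynomial.X ^ n) (Aop x) := by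
      simp only [map_mul, map_pow, Polynomial.aeval_X, pow_succ]
      rfl
    rw [e1, h (Aop x), ev_A x hz]
    simp only [map_mul, map_pow, Polynomial.aeval_X, pow_succ]
    ring

lemma diff_ev (x : E2) : DifferentiableOn ℂ (ev x) (Metric.ball 0 1) := by
  intro z hz
  rw [mem_ball_zero_iff] at hz
  obtain ⟨r, hr1, hr2⟩ := exists_between hz
  have hr0 : 0 ≤ r := (norm_nonneg z).trans hr1.le
  have hu : Summable (fun n => ‖x n * (r : ℂ) ^ n‖) :=
    (summable_ev x (z := (r : ℂ)) (by rw [Complex.norm_real, Real.norm_of_nonneg hr0]; exact hr2)).norm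
  have h := Complex.differentiableOn_tsum_of_summable_norm (U := Metric.ball (0 : ℂ) r)
    (F := fun n z => x n * z ^ n) hu (fun n => by fun_prop) Metric.isOpen_ball (fun n w hw => by
      rw [mem_ball_zero_iff] at hw
      rw [norm_mul, norm_mul, norm_pow, norm_pow, Complex.norm_real, Real.norm_of_nonneg hr0]
      gcongr)
  have h2 : DifferentiableAt ℂ (ev x) z :=
    (h z (by rw [mem_ball_zero_iff]; exact hr1)).differentiableAt
      (Metric.isOpen_ball.mem_nhds (by rw [mem_ball_zero_iff]; exact hr1))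
  exact h2.differentiableWithinAt

end Pool.Agent.X207.CC
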