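import Mathlib
open Filter Topology MeasureTheory Metric Real
namespace Pool.Agent.X207.CC

lemma circ_ge {F : ℂ → ℂ} {c : ℂ} {r ε : ℝ} (hr : 0 < r) (hε : 0 < ε)
    (hF : AnalyticOnNhd ℂ F (closedBall c r)) (hc : F c ≠ 0) :
    Real.log ‖F c‖ ≤ circleAverage (fun z => (1 / 2) * Real.log (‖F z‖ ^ 2 + ε ^ 2)) c r := by
  have hFr : AnalyticOnNhd ℂ F (closedBall c |r|) := by rwa [abs_of_pos hr]
  have hz : ∀ᶠ x in codiscreteWithin (closedBall c r), F x ≠ 0 :=
    (hF.eqOn_zero_or_eventually_ne_zero_of_preconnected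
      (convex_closedBall c r).isPreconnected).resolve_left
      (fun h => hc (h (mem_closedBall_self hr.le)))
  have hz2 : ∀ᶠ x in codiscreteWithin (sphere c |r|), F x ≠ 0 := by
    rw [abs_of_pos hr]
    exact (codiscreteWithin_mono sphere_subset_closedBall) hz
  set g : ℂ → ℝ := fun z => if F z = 0 then Real.log ε else Real.log ‖F z‖ with hg
  have hfg : (fun z => Real.log ‖F z‖) =ᶠ[codiscreteWithin (sphere c |r|)] g := by
    filter_upwards [hz2] with x hx
    simp [hg, hx]
  have hci : CircleIntegrable (fun z => Real.log ‖F z‖) c r :=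
    MeromorphicOn.circleIntegrable_log_norm
      ((hFr.mono sphere_subset_closedBall).meromorphicOn)
  have hcg : CircleIntegrable g c r := hci.congr_codiscreteWithin hfg
  have h1 : Real.log ‖F c‖ ≤ circleAverage (fun z => Real.log ‖F z‖) c r := by
    rw [AnalyticOnNhd.circleAverage_log_norm hr.ne' hFr hc]
    have : 0 ≤ ∑ᶠ u, (MeromorphicOn.divisor F (closedBall c |r|) u : ℝ) * Real.log (r * ‖c - u‖⁻¹) := by
      apply finsum_nonneg
      intro u
      by_cases hu : u ∈ closedBall c |r|
      · apply mul_nonneg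
        · exact_mod_cast (MeromorphicOn.AnalyticOnNhd.divisor_nonneg hFr) u
        · by_cases hcu : c = u
          · simp [hcu]
          · apply Real.log_nonneg
            rw [← div_eq_mul_inv, one_le_div (by simpa [sub_eq_zero] using hcu)]
            rw [mem_closedBall, dist_comm, dist_eq_norm, abs_of_pos hr] at hu
            exact hu
      · simp [hu]
    linarith
  have h2 : circleAverage (fun z => Real.log ‖F z‖) c r = circleAverage g c r :=
    circleAverage_congr_codiscreteWithin hfg hr.ne'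
  rw [h2] at h1
  refine h1.trans (circleAverage_mono hcg ?_ ?_)
  · apply ContinuousOn.circleIntegrable hr.le
    apply ContinuousOn.mul continuousOn_const
    apply ContinuousOn.log
    · exact ((hF.continuousOn.mono sphere_subset_closedBall).norm.pow 2).add continuousOn_const
    · intro x hx
      positivity
  · intro x hx
    simp only [hg]
    have hlε : Real.log ε = (1 / 2) * Real.log (ε ^ 2) := by
      rw [Real.log_pow]; push_cast; ring
    split_ifs with h0
    · rw [h0, hlε]
      simp
    · have hlF : Real.log ‖F x‖ = (1 / 2) * Real.log (‖F x‖ ^ 2) := by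
        rw [Real.log_pow]; push_cast; ring
      rw [hlF]
      have hpos : 0 < ‖F x‖ ^ 2 := by positivity
      have : Real.log (‖F x‖ ^ 2) ≤ Real.log (‖F x‖ ^ 2 + ε ^ 2) :=
        Real.log_le_log hpos (by nlinarith [sq_nonneg ε])
      linarith

/-- truncated logarithm -/
noncomputable def ul (F : ℂ → ℂ) (ε : ℝ) (z : ℂ) : ℝ := (1 / 2) * Real.log (‖F z‖ ^ 2 + ε ^ 2)

lemma ul_contOn {F : ℂ → ℂ} {ε : ℝ} (hε : 0 < ε) {s : Set ℂ} (hF : ContinuousOn F s) :
    ContinuousOn (ul F ε) s := by
  unfold ul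
  apply ContinuousOn.mul continuousOn_const
  apply ContinuousOn.log
  · exact (hF.norm.pow 2).add continuousOn_const
  · intro x hx
    positivity

lemma ang_int {u : ℂ → ℝ} {c : ℂ} {r : ℝ} :
    ∫ θ in Set.Ioo (-π) π, u (circleMap c r θ) = 2 * π * circleAverage u c r := by
  rw [← integral_Ioc_eq_integral_Ioo, ← intervalIntegral.integral_of_le (by linarith [pi_pos]),
    circleAverage_eq_integral_add (-π)]
  have h := intervalIntegral.integral_comp_add_right (a := 0) (b := 2 * π)
    (fun θ => u (circleMap c r θ)) (-π)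
  have e1 : (0 : ℝ) + -π = -π := by ring
  have e2 : 2 * π + -π = π := by ring
  rw [e1, e2] at h
  rw [← h, smul_eq_mul]
  field_simp

theorem area_ge {F : ℂ → ℂ} {c : ℂ} {R ε : ℝ} (hR : 0 < R) (hε : 0 < ε)
    (hF : AnalyticOnNhd ℂ F (closedBall c R)) (hc : F c ≠ 0) :
    π * R ^ 2 * Real.log ‖F c‖ ≤ ∫ z in ball c R, ul F ε z := by
  have hcont : ContinuousOn (ul F ε) (closedBall c R) := ul_contOn hε hF.continuousOn
  -- the product integrand
  set J : ℝ × ℝ → ℝ := fun p => p.1 * ul F ε (circleMap c p.1 p.2) with hJ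
  have hmaps : ∀ p ∈ Set.Icc (0 : ℝ) R ×ˢ Set.Icc (-π) π, circleMap c p.1 p.2 ∈ closedBall c R := by
    rintro ⟨r, θ⟩ ⟨hr, -⟩
    rw [mem_closedBall, dist_eq_norm]
    simp only [circleMap, add_sub_cancel_left, norm_mul, Complex.norm_real, Complex.norm_exp_ofReal_mul_I,
      mul_one, Real.norm_eq_abs]
    rw [abs_of_nonneg hr.1]; exact hr.2
  have hcm : Continuous (fun p : ℝ × ℝ => circleMap c p.1 p.2) := by
    unfold circleMap; fun_prop
  have hJc : ContinuousOn J (Set.Icc (0 : ℝ) R ×ˢ Set.Icc (-π) π) := by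
    apply ContinuousOn.mul continuous_fst.continuousOn
    exact hcont.comp hcm.continuousOn hmaps
  have hJi0 : IntegrableOn J (Set.Icc (0 : ℝ) R ×ˢ Set.Icc (-π) π) :=
    hJc.integrableOn_compact (isCompact_Icc.prod isCompact_Icc)
  have hJi : IntegrableOn J (Set.Ioo (0 : ℝ) R ×ˢ Set.Ioo (-π) π) :=
    hJi0.mono_set (Set.prod_mono Set.Ioo_subset_Icc_self Set.Ioo_subset_Icc_self)
  -- polar coordinates
  have hpol : ∫ z in ball c R, ul F ε z = ∫ p in Set.Ioo (0 : ℝ) R ×ˢ Set.Ioo (-π) π, J p := by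
    have h1 : ∫ z in ball c R, ul F ε z = ∫ z, (ball (0 : ℂ) R).indicator (fun z => ul F ε (c + z)) z := by
      rw [← integral_indicator measurableSet_ball,
        ← integral_add_left_eq_self (μ := volume) ((ball c R).indicator (fun z => ul F ε z)) c]
      congr 1
      ext z
      simp only [Set.indicator, mem_ball, dist_zero_right, dist_self_add_left]
    rw [h1, ← Complex.integral_comp_polarCoord_symm]
    have htar : polarCoord.target = Set.Ioi (0 : ℝ) ×ˢ Set.Ioo (-π) π := rfl
    rw [htar]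
    have hsub : Set.Ioo (0 : ℝ) R ×ˢ Set.Ioo (-π) π ⊆ Set.Ioi (0 : ℝ) ×ˢ Set.Ioo (-π) π :=
      Set.prod_mono Set.Ioo_subset_Ioi_self le_rfl
    have hms : MeasurableSet (Set.Ioo (0 : ℝ) R ×ˢ Set.Ioo (-π) π) :=
      measurableSet_Ioo.prod measurableSet_Ioo
    refine (setIntegral_eq_of_subset_of_forall_diff_eq_zero
      (measurableSet_Ioi.prod measurableSet_Ioo) hsub ?_).trans ?_
    · rintro ⟨r, θ⟩ ⟨⟨hr, hθ⟩, hn⟩
      have hr0 : (0 : ℝ) < r := hr
      have hrR : R ≤ r := by
        by_contra hlt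
        exact hn ⟨⟨hr, not_le.mp hlt⟩, hθ⟩
      have hn' : ‖Complex.polarCoord.symm (r, θ)‖ = r := by
        rw [Complex.norm_polarCoord_symm, abs_of_pos hr0]
      rw [Set.indicator_of_notMem (by rw [mem_ball_zero_iff, hn']; exact not_lt.mpr hrR)]
      simp
    · apply setIntegral_congr_fun hms
      rintro ⟨r, θ⟩ ⟨hr, hθ⟩
      have hn : ‖Complex.polarCoord.symm (r, θ)‖ = r := by
        rw [Complex.norm_polarCoord_symm, abs_of_pos hr.1]
      simp only [hJ, smul_eq_mul]
      rw [Set.indicator_of_mem (by rw [mem_ball_zero_iff, hn]; exact hr.2)]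
      congr 2
      simp only [circleMap, Complex.polarCoord_symm_apply]
      rw [Complex.exp_mul_I]
      push_cast; ring
  rw [hpol, Measure.volume_eq_prod, setIntegral_prod J (by rwa [← Measure.volume_eq_prod])]
  have hinner : ∀ r ∈ Set.Ioo (0 : ℝ) R, ∫ θ in Set.Ioo (-π) π, J (r, θ) =
      r * (2 * π * circleAverage (ul F ε) c r) := by
    intro r hr
    simp only [hJ]
    rw [integral_const_mul, ang_int]
  rw [setIntegral_congr_fun measurableSet_Ioo hinner]
  have hlow : ∀ r ∈ Set.Ioo (0 : ℝ) R, r * (2 * π * Real.log ‖F c‖) ≤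
      r * (2 * π * circleAverage (ul F ε) c r) := by
    intro r hr
    have := circ_ge hr.1 hε (hF.mono (closedBall_subset_closedBall hr.2.le)) hc
    have hp := pi_pos
    have hr0 := hr.1
    unfold ul
    gcongr
  have hi1 : IntegrableOn (fun r : ℝ => r * (2 * π * Real.log ‖F c‖)) (Set.Ioo 0 R) :=
    ((continuous_id.mul continuous_const).integrableOn_Icc (a := 0) (b := R)).mono_set
      Set.Ioo_subset_Icc_self
  have hi2 : IntegrableOn (fun r : ℝ => r * (2 * π * circleAverage (ul F ε) c r)) (Set.Ioo 0 R) := by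
    have h := (Integrable.integral_prod_left (f := J)
      (by rw [Measure.prod_restrict, ← Measure.volume_eq_prod]; exact hJi) :
      Integrable (fun r => ∫ θ, J (r, θ) ∂(volume.restrict (Set.Ioo (-π) π))) (volume.restrict (Set.Ioo 0 R)))
    exact h.congr (by
      filter_upwards [ae_restrict_mem measurableSet_Ioo] with r hr
      exact hinner r hr)
  refine le_trans (le_of_eq ?_) (setIntegral_mono_on hi1 hi2 measurableSet_Ioo hlow)
  rw [← integral_Ioc_eq_integral_Ioo, ← intervalIntegral.integral_of_le hR.le,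
    intervalIntegral.integral_mul_const, integral_id]
  ring

end Pool.Agent.X207.CC
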