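import Mathlib
import Pool.Agent.X207.CC1
import Pool.Agent.X207.CC2
open Filter Topology MeasureTheory Metric
namespace Pool.Agent.X207.CC

lemma vol_ball (c : ℂ) {r : ℝ} (hr : 0 ≤ r) : volume.real (ball c r) = Real.pi * r ^ 2 := by
  rw [Measure.real, Complex.volume_ball]
  rw [ENNReal.toReal_mul, ENNReal.toReal_pow, ENNReal.toReal_ofReal hr]
  simp [mul_comm]

lemma vol_ball_fin (c : ℂ) (r : ℝ) : volume (ball c r) ≠ ⊤ := measure_ball_lt_top.ne

/-- a box -/
def box (c : ℂ) (a b : ℝ) : Set ℂ := {z | |z.re - c.re| ≤ a ∧ |z.im - c.im| ≤ b}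

lemma vol_box (c : ℂ) {a b : ℝ} (ha : 0 ≤ a) (hb : 0 ≤ b) : volume.real (box c a b) ≤ 4 * a * b := by
  have h : box c a b = Complex.measurableEquivRealProd ⁻¹'
      (Set.Icc (c.re - a) (c.re + a) ×ˢ Set.Icc (c.im - b) (c.im + b)) := by
    ext z
    simp only [box, Set.mem_setOf_eq, Set.mem_preimage, Complex.measurableEquivRealProd_apply,
      Set.mem_prod, Set.mem_Icc, abs_le]
    constructor
    · rintro ⟨⟨h1, h2⟩, h3, h4⟩
      exact ⟨⟨by linarith, by linarith⟩, by linarith, by linarith⟩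
    · rintro ⟨⟨h1, h2⟩, h3, h4⟩
      exact ⟨⟨by linarith, by linarith⟩, by linarith, by linarith⟩
  have hm : MeasurableSet (Set.Icc (c.re - a) (c.re + a) ×ˢ Set.Icc (c.im - b) (c.im + b)) :=
    measurableSet_Icc.prod measurableSet_Icc
  rw [Measure.real, h, Complex.volume_preserving_equiv_real_prod.measure_preimage hm.nullMeasurableSet,
    Measure.volume_eq_prod, Measure.prod_prod, Real.volume_Icc, Real.volume_Icc, ENNReal.toReal_mul,
    ENNReal.toReal_ofReal (by linarith), ENNReal.toReal_ofReal (by linarith)]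
  apply le_of_eq; ring

lemma int_le {f : ℂ → ℝ} {s : Set ℂ} {C : ℝ} (hs : MeasurableSet s) (hfin : volume s ≠ ⊤)
    (hf : IntegrableOn f s) (h : ∀ z ∈ s, f z ≤ C) : ∫ z in s, f z ≤ C * volume.real s := by
  have h1 := setIntegral_mono_on hf (integrableOn_const hfin) hs h
  rw [setIntegral_const, smul_eq_mul, mul_comm] at h1
  exact h1

/-- reflection -/
noncomputable def sig (z : ℂ) : ℂ := 2 - (starRingEnd ℂ) z

lemma mp_sig : MeasurePreserving sig (volume : Measure ℂ) volume := by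
  have h1 : MeasurePreserving (fun z : ℂ => (starRingEnd ℂ) z) (volume : Measure ℂ) volume :=
    Complex.conjLIE.measurePreserving
  have h2 : MeasurePreserving (fun z : ℂ => 2 - z) (volume : Measure ℂ) volume :=
    Measure.measurePreserving_sub_left volume 2
  exact h2.comp h1

lemma sig_re (z : ℂ) : (sig z).re = 2 - z.re := by simp [sig]
lemma sig_im (z : ℂ) : (sig z).im = z.im := by simp [sig]

lemma sig_sig (z : ℂ) : sig (sig z) = z := by
  apply Complex.ext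
  · rw [sig_re, sig_re]; ring
  · rw [sig_im, sig_im]

lemma me_sig : MeasurableEmbedding sig := by
  have hc : Continuous sig := by unfold sig; fun_prop
  exact hc.measurableEmbedding (fun a b h => by
    have := congrArg sig h
    rwa [sig_sig, sig_sig] at this)

lemma phi_re (z : ℂ) : (phi z).re = 100 + z.im := by simp [phi]
lemma phi_im (z : ℂ) : (phi z).im = 1 - z.re := by simp [phi]

lemma phi_sig (z : ℂ) : phi (sig z) = (starRingEnd ℂ) (phi z) := by
  apply Complex.ext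
  · rw [phi_re, Complex.conj_re, phi_re]; simp [sig]
  · rw [phi_im, Complex.conj_im, phi_im]; simp [sig]; ring

noncomputable def zc (s : ℝ) : ℂ := ⟨1, -s⟩
def Lam (s : ℝ) : Set ℂ := {z | ‖phi z‖ ≤ 100 - s}
def Kst (s : ℝ) : Set ℂ := {z | |z.re - 1| ≤ s / 128}
def Sp (s : ℝ) : Set ℂ := ((ball (zc s) (s / 2) \ Lam s) \ Kst s) ∩ {z | z.re < 1}
def Sm (s : ℝ) : Set ℂ := ((ball (zc s) (s / 2) \ Lam s) \ Kst s) \ {z | z.re < 1}

lemma cont_phi : Continuous phi := by unfold phi; fun_prop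

lemma ms_Lam (s : ℝ) : MeasurableSet (Lam s) :=
  (isClosed_le cont_phi.norm continuous_const).measurableSet
lemma ms_Kst (s : ℝ) : MeasurableSet (Kst s) :=
  (isClosed_le (Complex.continuous_re.sub continuous_const).abs continuous_const).measurableSet
lemma ms_P : MeasurableSet {z : ℂ | z.re < 1} :=
  (isOpen_lt Complex.continuous_re continuous_const).measurableSet
lemma ms_Sp (s : ℝ) : MeasurableSet (Sp s) :=
  ((measurableSet_ball.diff (ms_Lam s)).diff (ms_Kst s)).inter ms_P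

lemma norm_sub_zc (z : ℂ) (s : ℝ) : ‖z - zc s‖ ^ 2 = (z.re - 1) ^ 2 + (z.im + s) ^ 2 := by
  rw [← Complex.normSq_eq_norm_sq, Complex.normSq_apply]
  simp [zc]; ring

lemma mem_ball_zc {z : ℂ} {s r : ℝ} (hr : 0 < r) :
    z ∈ ball (zc s) r ↔ (z.re - 1) ^ 2 + (z.im + s) ^ 2 < r ^ 2 := by
  rw [mem_ball, dist_eq_norm, ← norm_sub_zc]
  constructor
  · intro h; exact pow_lt_pow_left₀ h (norm_nonneg _) two_ne_zero
  · intro h; exact lt_of_pow_lt_pow_left₀ 2 hr.le h

lemma sig_pre {s : ℝ} (hs : 0 < s) : sig ⁻¹' (Sm s) = Sp s := by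
  ext z
  have hb : sig z ∈ ball (zc s) (s / 2) ↔ z ∈ ball (zc s) (s / 2) := by
    rw [mem_ball_zc (by linarith), mem_ball_zc (by linarith), sig_re, sig_im]
    constructor <;> intro h <;> nlinarith
  have hl : sig z ∈ Lam s ↔ z ∈ Lam s := by
    simp only [Lam, Set.mem_setOf_eq, phi_sig, RCLike.norm_conj]
  have hk : sig z ∈ Kst s ↔ z ∈ Kst s := by
    simp only [Kst, Set.mem_setOf_eq, sig_re]
    rw [show 2 - z.re - 1 = -(z.re - 1) by ring, abs_neg]
  simp only [Set.mem_preimage, Sm, Sp, Set.mem_diff, Set.mem_inter_iff, hb, hl, hk, Set.mem_setOf_eq,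
    sig_re]
  constructor
  · rintro ⟨⟨h1, h2⟩, h3⟩
    refine ⟨⟨h1, h2⟩, ?_⟩
    simp only [Kst, Set.mem_setOf_eq, not_le] at h2
    rcases lt_or_ge z.re 1 with h | h
    · exact h
    · exfalso
      have : z.re = 1 := by linarith
      rw [this] at h2; simp at h2; linarith
  · rintro ⟨⟨h1, h2⟩, h3⟩
    exact ⟨⟨h1, h2⟩, by linarith⟩

lemma Sp_coords {s : ℝ} (hs : 0 < s) {z : ℂ} (hz : z ∈ Sp s) :
    s / 128 < 1 - z.re ∧ 1 - z.re < s / 2 ∧ -(3 / 2) * s < z.im ∧ z.im < -(1 / 2) * s := by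
  obtain ⟨⟨⟨h1, h2⟩, h3⟩, h4⟩ := hz
  rw [mem_ball_zc (by linarith)] at h1
  simp only [Kst, Set.mem_setOf_eq, not_le] at h3
  simp only [Set.mem_setOf_eq] at h4
  rw [abs_of_neg (by linarith)] at h3
  have h5 : (z.re - 1) ^ 2 < (s / 2) ^ 2 := by nlinarith [sq_nonneg (z.im + s)]
  have h6 : (z.im + s) ^ 2 < (s / 2) ^ 2 := by nlinarith [sq_nonneg (z.re - 1)]
  have h7 := abs_lt_of_sq_lt_sq h5 (by linarith)
  have h8 := abs_lt_of_sq_lt_sq h6 (by linarith)
  rw [abs_lt] at h7 h8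
  refine ⟨by linarith, by linarith, by linarith, by linarith⟩

lemma Sp_r1 {s : ℝ} (hs : 0 < s) (hs1 : s ≤ 1 / 512) {z : ℂ} (hz : z ∈ Sp s) :
    s / 400 ≤ 1 - ‖z‖ ^ 2 := by
  obtain ⟨h1, h2, h3, h4⟩ := Sp_coords hs hz
  rw [← Complex.normSq_eq_norm_sq, Complex.normSq_apply]
  set b := 1 - z.re with hb
  have hx : z.re = 1 - b := by rw [hb]; ring
  rw [hx]
  have hy : z.im * z.im ≤ (9 / 4) * s ^ 2 := by nlinarith
  nlinarith

lemma Sp_lt_one {s : ℝ} (hs : 0 < s) (hs1 : s ≤ 1 / 512) {z : ℂ} (hz : z ∈ Sp s) : ‖z‖ < 1 := by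
  have h := Sp_r1 hs hs1 hz
  have : ‖z‖ ^ 2 < 1 := by linarith
  nlinarith [norm_nonneg z]

lemma norm_sub_real (z : ℂ) (c : ℝ) : ‖z - (c : ℂ)‖ ^ 2 = (z.re - c) ^ 2 + z.im ^ 2 := by
  rw [← Complex.normSq_eq_norm_sq, Complex.normSq_apply]
  simp; ring

lemma Sp_r2 {s c : ℝ} (hs : 0 < s) (hs1 : s ≤ 1 / 512) (hc0 : 0 < c) (hc : c ≤ 1 / 2) {z : ℂ}
    (hz : z ∈ Sp s) : ‖z - (c : ℂ)‖ ^ 2 ≤ (1 - c) ^ 2 - s / 400 := by
  obtain ⟨h1, h2, h3, h4⟩ := Sp_coords hs hz
  rw [norm_sub_real]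
  set b := 1 - z.re with hb
  have hx : z.re = 1 - b := by rw [hb]; ring
  rw [hx]
  have hy : z.im ^ 2 ≤ (9 / 4) * s ^ 2 := by nlinarith
  nlinarith

lemma Sp_r3 {s : ℝ} (hs : 0 < s) (hs1 : s ≤ 1 / 512) {z : ℂ} (hz : z ∈ Sp s) : ‖1 - z‖ ≤ 1 := by
  obtain ⟨h1, h2, h3, h4⟩ := Sp_coords hs hz
  have : ‖1 - z‖ ^ 2 ≤ 1 := by
    rw [← Complex.normSq_eq_norm_sq, Complex.normSq_apply]
    simp only [Complex.sub_re, Complex.one_re, Complex.sub_im, Complex.one_im]
    nlinarith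
  nlinarith [norm_nonneg (1 - z)]

lemma phi_le {s : ℝ} (hs : 0 < s) (hs1 : s ≤ 1 / 512) {z : ℂ} (hz : z ∈ ball (zc s) (s / 2)) :
    ‖phi z‖ ≤ 100 - s / 2 := by
  have h0 : phi z = ((100 - s : ℝ) : ℂ) - Complex.I * (z - zc s) := by
    apply Complex.ext
    · rw [phi_re]; simp [zc]; ring
    · rw [phi_im]; simp [zc]
  rw [h0]
  rw [mem_ball, dist_eq_norm] at hz
  calc ‖((100 - s : ℝ) : ℂ) - Complex.I * (z - zc s)‖ ≤ ‖((100 - s : ℝ) : ℂ)‖ + ‖Complex.I * (z - zc s)‖ :=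
        norm_sub_le _ _
    _ ≤ (100 - s) + s / 2 := by
        rw [norm_mul, Complex.norm_I, one_mul, Complex.norm_real, Real.norm_of_nonneg (by linarith)]
        linarith
    _ = 100 - s / 2 := by ring

lemma phi_zc (s : ℝ) : phi (zc s) = ((100 - s : ℝ) : ℂ) := by
  apply Complex.ext
  · rw [phi_re]; simp [zc]; ring
  · rw [phi_im]; simp [zc]

/-- measure of the part near the origin side -/
lemma vol_Lam {s : ℝ} (hs : 0 < s) :
    volume.real (ball (zc s) (s / 2) ∩ Lam s) ≤ (3 / 4) * (Real.pi * (s / 2) ^ 2) := by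
  set p : ℂ := ⟨1, -s + s / 4⟩ with hp
  have hsub1 : ball p (s / 4) ⊆ ball (zc s) (s / 2) := by
    apply ball_subset_ball'
    have : dist p (zc s) ≤ s / 4 := by
      rw [dist_eq_norm]
      have h1 := norm_sub_zc p s
      have h2 : ‖p - zc s‖ ^ 2 = (s / 4) ^ 2 := by rw [h1, hp]; simp
      exact ((pow_left_inj₀ (norm_nonneg _) (by linarith) two_ne_zero).mp h2).le
    linarith
  have hdis : ball (zc s) (s / 2) ∩ Lam s ⊆ ball (zc s) (s / 2) \ ball p (s / 4) := by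
    rintro z ⟨hz1, hz2⟩
    refine ⟨hz1, fun hz3 => ?_⟩
    simp only [Lam, Set.mem_setOf_eq] at hz2
    rw [mem_ball, dist_eq_norm] at hz3
    have h1 : |(z - p).im| < s / 4 := (Complex.abs_im_le_norm _).trans_lt hz3
    rw [abs_lt] at h1
    have h2 : (z - p).im = z.im - (-s + s / 4) := by simp [hp]
    have h3 : (phi z).re ≤ ‖phi z‖ := (le_abs_self _).trans (Complex.abs_re_le_norm _)
    rw [phi_re] at h3
    linarith [h1.1]
  have h1 : volume.real (ball (zc s) (s / 2) ∩ Lam s) ≤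
      volume.real (ball (zc s) (s / 2) \ ball p (s / 4)) :=
    measureReal_mono hdis (measure_ne_top_of_subset Set.diff_subset (vol_ball_fin _ _))
  rw [measureReal_diff hsub1 measurableSet_ball (vol_ball_fin _ _), vol_ball _ (by linarith),
    vol_ball _ (by linarith)] at h1
  refine h1.trans (le_of_eq ?_)
  ring

lemma vol_K {s : ℝ} (hs : 0 < s) :
    volume.real ((ball (zc s) (s / 2) \ Lam s) ∩ Kst s) ≤ (1 / 16) * (s / 2) ^ 2 := by
  have hsub : (ball (zc s) (s / 2) \ Lam s) ∩ Kst s ⊆ box (zc s) (s / 128) (s / 2) := by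
    rintro z ⟨⟨h1, -⟩, h2⟩
    refine ⟨?_, ?_⟩
    · simpa [zc, Kst] using h2
    · rw [mem_ball, dist_eq_norm] at h1
      have := (Complex.abs_im_le_norm (z - zc s)).trans h1.le
      simpa [zc] using this
  have h2 := vol_box (zc s) (a := s / 128) (b := s / 2) (by positivity) (by positivity)
  have hfin : volume (box (zc s) (s / 128) (s / 2)) ≠ ⊤ := by
    have hb : box (zc s) (s / 128) (s / 2) ⊆ closedBall (zc s) (s / 128 + s / 2) := by
      rintro z ⟨h1, h2⟩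
      rw [mem_closedBall, dist_eq_norm]
      calc ‖z - zc s‖ ≤ |(z - zc s).re| + |(z - zc s).im| := Complex.norm_le_abs_re_add_abs_im _
        _ ≤ s / 128 + s / 2 := by
          simp only [Complex.sub_re, Complex.sub_im]
          exact add_le_add h1 h2
    exact measure_ne_top_of_subset hb measure_closedBall_lt_top.ne
  refine (measureReal_mono hsub hfin).trans (h2.trans (le_of_eq ?_))
  ring

lemma vol_Sp_le {s : ℝ} (hs : 0 < s) : volume.real (Sp s) ≤ Real.pi * (s / 2) ^ 2 := by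
  rw [← vol_ball (zc s) (by linarith : 0 ≤ s / 2)]
  apply measureReal_mono _ (vol_ball_fin _ _)
  rintro z ⟨⟨⟨h1, -⟩, -⟩, -⟩
  exact h1

lemma vol_Sp_ge {s : ℝ} (hs : 0 < s) (hs1 : s ≤ 1 / 512) :
    Real.pi * (s / 16) ^ 2 ≤ volume.real (Sp s) := by
  set p : ℂ := ⟨1 - s / 4, -s + s / 4⟩ with hp
  rw [← vol_ball p (by linarith : 0 ≤ s / 16)]
  apply measureReal_mono
  · intro z hz
    rw [mem_ball, dist_eq_norm] at hz
    have h1 : |(z - p).im| < s / 16 := (Complex.abs_im_le_norm _).trans_lt hz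
    have h2 : |(z - p).re| < s / 16 := (Complex.abs_re_le_norm _).trans_lt hz
    have e1 : (z - p).im = z.im - (-s + s / 4) := by simp [hp]
    have e2 : (z - p).re = z.re - (1 - s / 4) := by simp [hp]
    rw [e1, abs_lt] at h1
    rw [e2, abs_lt] at h2
    refine ⟨⟨⟨?_, ?_⟩, ?_⟩, ?_⟩
    · rw [mem_ball_zc (by linarith)]
      have h3 : (z.re - 1) ^ 2 ≤ (5 / 16 * s) ^ 2 := by nlinarith
      have h4 : (z.im + s) ^ 2 ≤ (5 / 16 * s) ^ 2 := by nlinarith
      nlinarith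
    · simp only [Lam, Set.mem_setOf_eq, not_le]
      have h3 : (phi z).re ≤ ‖phi z‖ := (le_abs_self _).trans (Complex.abs_re_le_norm _)
      rw [phi_re] at h3
      linarith [h1.1]
    · simp only [Kst, Set.mem_setOf_eq, not_le]
      rw [abs_of_neg (by linarith)]
      linarith
    · simp only [Set.mem_setOf_eq]
      linarith
  · exact measure_ne_top_of_subset (fun z hz => hz.1.1.1) (vol_ball_fin (zc s) (s / 2))

end Pool.Agent.X207.CC
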