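import Mathlib
import Pool.Agent.X207.CC3
open Filter Topology MeasureTheory Metric
namespace Pool.Agent.X207.CC

/-- auxiliary analytic function attached to `x` -/
noncomputable def Fx (x : E2) (z : ℂ) : ℂ := (1 - z) * ev x z

lemma geom_c {c : ℝ} (hc0 : 0 < c) (hc : c ≤ 1 / 2) {z : ℂ} (hz : z ∈ ball (c : ℂ) (1 - c)) :
    ‖z‖ < 1 ∧ c * ‖1 - z‖ ^ 2 ≤ 1 - ‖z‖ ^ 2 := by
  rw [mem_ball, dist_eq_norm] at hz
  have h1 : ‖z - (c : ℂ)‖ ^ 2 < (1 - c) ^ 2 := pow_lt_pow_left₀ hz (norm_nonneg _) two_ne_zero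
  rw [norm_sub_real] at h1
  have h2 : ‖z‖ ^ 2 = z.re ^ 2 + z.im ^ 2 := by
    rw [← Complex.normSq_eq_norm_sq, Complex.normSq_apply]; ring
  have h3 : ‖1 - z‖ ^ 2 = (1 - z.re) ^ 2 + z.im ^ 2 := by
    rw [← Complex.normSq_eq_norm_sq, Complex.normSq_apply]
    simp; ring
  have hx : z.re < 1 := by
    have : (z.re - c) ^ 2 < (1 - c) ^ 2 := by nlinarith [sq_nonneg z.im]
    have := abs_lt_of_sq_lt_sq this (by linarith)
    rw [abs_lt] at this
    linarith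
  have h4 : c * ‖1 - z‖ ^ 2 ≤ 1 - ‖z‖ ^ 2 := by
    rw [h2, h3]
    have e1 : 2 * c * (1 - z.re) < 1 - z.re ^ 2 - z.im ^ 2 := by nlinarith
    have e2 : (1 - z.re) ^ 2 + z.im ^ 2 < 2 * (1 - z.re) * (1 - c) := by nlinarith
    have e3 : c * ((1 - z.re) ^ 2 + z.im ^ 2) ≤ c * (2 * (1 - z.re) * (1 - c)) := by gcongr
    have e4 : c * (2 * (1 - z.re) * (1 - c)) ≤ 2 * c * (1 - z.re) := by
      have : 0 ≤ c * (1 - z.re) * c := by
        have : 0 < 1 - z.re := by linarith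
        positivity
      nlinarith
    linarith
  refine ⟨?_, h4⟩
  have : ‖z‖ ^ 2 < 1 := by
    rw [h2]
    nlinarith
  nlinarith [norm_nonneg z]

lemma Fx_bd (x : E2) {c : ℝ} (hc0 : 0 < c) (hc : c ≤ 1 / 2) {z : ℂ}
    (hz : z ∈ ball (c : ℂ) (1 - c)) : ‖Fx x z‖ ^ 2 ≤ ‖x‖ ^ 2 / c := by
  obtain ⟨h1, h2⟩ := geom_c hc0 hc hz
  have h3 := ev_bound x h1
  rw [le_div_iff₀ hc0, Fx, norm_mul, mul_pow]
  calc ‖1 - z‖ ^ 2 * ‖ev x z‖ ^ 2 * c = ‖ev x z‖ ^ 2 * (c * ‖1 - z‖ ^ 2) := by ring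
    _ ≤ ‖ev x z‖ ^ 2 * (1 - ‖z‖ ^ 2) := by gcongr
    _ ≤ ‖x‖ ^ 2 := h3

lemma Fx_an (x : E2) : AnalyticOnNhd ℂ (Fx x) (ball 0 1) := by
  apply DifferentiableOn.analyticOnNhd _ isOpen_ball
  unfold Fx
  exact ((differentiable_const _).sub differentiable_id).differentiableOn.mul (diff_ev x)

noncomputable def Bx (x : E2) (c : ℝ) : ℝ := Real.sqrt (‖x‖ ^ 2 / c + 1)

lemma Bx_sq (x : E2) {c : ℝ} (hc0 : 0 < c) : Bx x c ^ 2 = ‖x‖ ^ 2 / c + 1 :=
  Real.sq_sqrt (by positivity)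

lemma Bx_ge (x : E2) {c : ℝ} (hc0 : 0 < c) : 1 ≤ Bx x c := by
  rw [Bx, Real.one_le_sqrt]
  have : 0 ≤ ‖x‖ ^ 2 / c := by positivity
  linarith

lemma ulF_le (x : E2) {c e' : ℝ} (hc0 : 0 < c) (hc : c ≤ 1 / 2) (he : 0 < e') (he1 : e' ≤ 1) {z : ℂ}
    (hz : z ∈ ball (c : ℂ) (1 - c)) : ul (Fx x) e' z ≤ Real.log (Bx x c) := by
  have h := Fx_bd x hc0 hc hz
  have h2 : Real.log (Bx x c) = (1 / 2) * Real.log (Bx x c ^ 2) := by
    rw [Real.log_pow]; push_cast; ring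
  rw [h2, Bx_sq x hc0, ul]
  have : Real.log (‖Fx x z‖ ^ 2 + e' ^ 2) ≤ Real.log (‖x‖ ^ 2 / c + 1) := by
    apply Real.log_le_log (by positivity)
    have : e' ^ 2 ≤ 1 := by nlinarith
    linarith
  linarith

noncomputable def Mx (x : E2) (c : ℝ) : ℝ :=
  Real.pi * (Real.log (Bx x c) - Real.log ‖Fx x (c : ℂ)‖)

lemma closedBall_sub {c R : ℝ} (hc0 : 0 < c) (hR : R < 1 - c) :
    closedBall (c : ℂ) R ⊆ ball (0 : ℂ) 1 := by
  intro z hz
  rw [mem_closedBall, dist_eq_norm] at hz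
  rw [mem_ball_zero_iff]
  calc ‖z‖ = ‖(z - c) + c‖ := by ring_nf
    _ ≤ ‖z - c‖ + ‖(c : ℂ)‖ := norm_add_le _ _
    _ < 1 := by rw [Complex.norm_real, Real.norm_of_nonneg hc0.le]; linarith

lemma Mx_bound (x : E2) {c R e' : ℝ} (hc0 : 0 < c) (hc : c ≤ 1 / 2) (hR0 : 0 < R) (hR : R < 1 - c)
    (he : 0 < e') (he1 : e' ≤ 1) (hF : Fx x (c : ℂ) ≠ 0) :
    IntegrableOn (fun z => Real.log (Bx x c) - ul (Fx x) e' z) (ball (c : ℂ) R) ∧
    ∫ z in ball (c : ℂ) R, (Real.log (Bx x c) - ul (Fx x) e' z) ≤ Mx x c := by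
  have han : AnalyticOnNhd ℂ (Fx x) (closedBall (c : ℂ) R) := (Fx_an x).mono (closedBall_sub hc0 hR)
  have hcont : ContinuousOn (ul (Fx x) e') (closedBall (c : ℂ) R) := ul_contOn he han.continuousOn
  have hi : IntegrableOn (ul (Fx x) e') (ball (c : ℂ) R) :=
    (hcont.integrableOn_compact (isCompact_closedBall _ _)).mono_set ball_subset_closedBall
  have hic : IntegrableOn (fun _ : ℂ => Real.log (Bx x c)) (ball (c : ℂ) R) :=
    integrableOn_const (vol_ball_fin _ _)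
  refine ⟨hic.sub hi, ?_⟩
  rw [integral_sub hic hi, setIntegral_const, vol_ball _ hR0.le, smul_eq_mul]
  have h1 := area_ge hR0 he han hF
  have hcc : (c : ℂ) ∈ ball (c : ℂ) (1 - c) := mem_ball_self (by linarith)
  have h2 : Real.log ‖Fx x (c : ℂ)‖ ≤ Real.log (Bx x c) := by
    have h3 := ulF_le x hc0 hc he he1 hcc
    refine le_trans ?_ h3
    rw [ul]
    have : Real.log ‖Fx x (c : ℂ)‖ = (1 / 2) * Real.log (‖Fx x (c : ℂ)‖ ^ 2) := by
      rw [Real.log_pow]; push_cast; ring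
    rw [this]
    have hp : 0 < ‖Fx x (c : ℂ)‖ ^ 2 := by positivity
    have := Real.log_le_log hp (by nlinarith [sq_nonneg e'] : ‖Fx x (c : ℂ)‖ ^ 2 ≤ ‖Fx x (c : ℂ)‖ ^ 2 + e' ^ 2)
    linarith
  have hR1 : R ^ 2 ≤ 1 := by nlinarith
  unfold Mx
  have h4 : Real.pi * R ^ 2 * Real.log (Bx x c) - Real.pi * R ^ 2 * Real.log ‖Fx x (c : ℂ)‖ ≤
      Real.pi * (Real.log (Bx x c) - Real.log ‖Fx x (c : ℂ)‖) := by
    have e : Real.pi * R ^ 2 * Real.log (Bx x c) - Real.pi * R ^ 2 * Real.log ‖Fx x (c : ℂ)‖ =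
        R ^ 2 * (Real.pi * (Real.log (Bx x c) - Real.log ‖Fx x (c : ℂ)‖)) := by ring
    rw [e]
    have hnn : 0 ≤ Real.pi * (Real.log (Bx x c) - Real.log ‖Fx x (c : ℂ)‖) :=
      mul_nonneg Real.pi_pos.le (by linarith)
    nlinarith
  linarith

/-- the symbol of `q(A)` -/
noncomputable def Qz (q : Polynomial ℝ) (z : ℂ) : ℂ := Polynomial.aeval (phi z) q

lemma Qz_an (q : Polynomial ℝ) (s : Set ℂ) : AnalyticOnNhd ℂ (Qz q) s := by
  have : Differentiable ℂ (Qz q) := by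
    unfold Qz
    have h1 : Differentiable ℂ phi := by unfold phi; fun_prop
    exact (Polynomial.differentiable_aeval q).comp h1
  exact fun z _ => this.analyticAt z

/-- nonnegative coefficients and constant term at least one -/
def Good (q : Polynomial ℝ) : Prop := (∀ n, 0 ≤ q.coeff n) ∧ 1 ≤ q.coeff 0

lemma Good.one_le {q : Polynomial ℝ} (hq : Good q) {t : ℝ} (ht : 0 ≤ t) : 1 ≤ q.eval t := by
  rw [Polynomial.eval_eq_sum_range]
  calc (1 : ℝ) ≤ q.coeff 0 * t ^ 0 := by simpa using hq.2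
    _ ≤ _ := Finset.single_le_sum (f := fun i => q.coeff i * t ^ i)
      (fun i _ => mul_nonneg (hq.1 i) (pow_nonneg ht i)) (by simp)

lemma Good.mono {q : Polynomial ℝ} (hq : Good q) {t u : ℝ} (ht : 0 ≤ t) (htu : t ≤ u) :
    q.eval t ≤ q.eval u := by
  rw [Polynomial.eval_eq_sum_range, Polynomial.eval_eq_sum_range]
  apply Finset.sum_le_sum
  intro i _
  have := hq.1 i
  gcongr

lemma Good.norm_le {q : Polynomial ℝ} (hq : Good q) (w : ℂ) :
    ‖Polynomial.aeval w q‖ ≤ q.eval ‖w‖ := by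
  rw [Polynomial.aeval_eq_sum_range, Polynomial.eval_eq_sum_range]
  refine (norm_sum_le _ _).trans (Finset.sum_le_sum ?_)
  intro i _
  rw [norm_smul, norm_pow, Real.norm_of_nonneg (hq.1 i)]

lemma Qz_zc (q : Polynomial ℝ) (s : ℝ) : Qz q (zc s) = ((q.eval (100 - s) : ℝ) : ℂ) := by
  rw [Qz, phi_zc]
  have := Polynomial.aeval_algebraMap_apply ℂ (100 - s) q
  simpa using this

lemma norm_Qz_sig (q : Polynomial ℝ) (z : ℂ) : ‖Qz q (sig z)‖ = ‖Qz q z‖ := by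
  rw [Qz, phi_sig, Polynomial.aeval_conj, RCLike.norm_conj, Qz]

/-- the auxiliary constant -/
noncomputable def H2 (q : Polynomial ℝ) (x : E2) (e e' : ℝ) : ℝ :=
  ‖Polynomial.aeval Aop q x‖ ^ 2 + e ^ 2 * ‖x‖ ^ 2 + e' ^ 2 * ((q.eval 100) ^ 2 + e ^ 2)

lemma H2_pos {q : Polynomial ℝ} (hq : Good q) (x : E2) {e e' : ℝ} (he' : 0 < e') :
    0 < H2 q x e e' := by
  have : 1 ≤ q.eval 100 := hq.one_le (by norm_num)
  unfold H2
  positivity

lemma pt_bound {q : Polynomial ℝ} (hq : Good q) (x : E2) {e e' s : ℝ} (he : 0 < e) (he' : 0 < e')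
    (hs : 0 < s) (hs1 : s ≤ 1 / 512) {z : ℂ} (hz : z ∈ Sp s) :
    ul (Qz q) e z ≤ (1 / 2) * Real.log (H2 q x e e' * (400 / s)) - ul (Fx x) e' z := by
  have hz1 := Sp_lt_one hs hs1 hz
  have hr1 := Sp_r1 hs hs1 hz
  have hr3 := Sp_r3 hs hs1 hz
  have hball : z ∈ ball (zc s) (s / 2) := hz.1.1.1
  have hphi := phi_le hs hs1 hball
  have hQ : ‖Qz q z‖ ≤ q.eval 100 :=
    (hq.norm_le _).trans (hq.mono (norm_nonneg _) (by linarith))
  have hh : ev (Polynomial.aeval Aop q x) z = Qz q z * ev x z := ev_poly q x hz1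
  have hh1 := ev_bound (Polynomial.aeval Aop q x) hz1
  have hx1 := ev_bound x hz1
  rw [hh, norm_mul, mul_pow] at hh1
  have hF : ‖Fx x z‖ ^ 2 ≤ ‖ev x z‖ ^ 2 := by
    rw [Fx, norm_mul, mul_pow]
    have : ‖1 - z‖ ^ 2 ≤ 1 := by nlinarith [norm_nonneg (1 - z)]
    nlinarith [sq_nonneg ‖ev x z‖]
  have hS : 0 < 400 / s := by positivity
  have key : (‖Qz q z‖ ^ 2 + e ^ 2) * (‖Fx x z‖ ^ 2 + e' ^ 2) ≤ H2 q x e e' * (400 / s) := by
    have a1 : (‖Qz q z‖ ^ 2 + e ^ 2) * ‖Fx x z‖ ^ 2 ≤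
        (‖Polynomial.aeval Aop q x‖ ^ 2 + e ^ 2 * ‖x‖ ^ 2) * (400 / s) := by
      have b1 : (‖Qz q z‖ ^ 2 + e ^ 2) * ‖Fx x z‖ ^ 2 ≤ (‖Qz q z‖ ^ 2 + e ^ 2) * ‖ev x z‖ ^ 2 := by
        gcongr
      have b2 : (‖Qz q z‖ ^ 2 + e ^ 2) * ‖ev x z‖ ^ 2 * (s / 400) ≤
          ‖Polynomial.aeval Aop q x‖ ^ 2 + e ^ 2 * ‖x‖ ^ 2 := by
        calc (‖Qz q z‖ ^ 2 + e ^ 2) * ‖ev x z‖ ^ 2 * (s / 400)
            ≤ (‖Qz q z‖ ^ 2 + e ^ 2) * ‖ev x z‖ ^ 2 * (1 - ‖z‖ ^ 2) := by gcongr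
          _ = ‖Qz q z‖ ^ 2 * ‖ev x z‖ ^ 2 * (1 - ‖z‖ ^ 2) + e ^ 2 * (‖ev x z‖ ^ 2 * (1 - ‖z‖ ^ 2)) := by
              ring
          _ ≤ _ := by gcongr
      refine b1.trans ?_
      have b3 := mul_le_mul_of_nonneg_right b2 hS.le
      refine le_trans (le_of_eq ?_) b3
      field_simp
    have a2 : (‖Qz q z‖ ^ 2 + e ^ 2) * e' ^ 2 ≤ (e' ^ 2 * ((q.eval 100) ^ 2 + e ^ 2)) * (400 / s) := by
      have b1 : (‖Qz q z‖ ^ 2 + e ^ 2) * e' ^ 2 ≤ ((q.eval 100) ^ 2 + e ^ 2) * e' ^ 2 := by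
        have := norm_nonneg (Qz q z)
        gcongr
      have b2 : (1 : ℝ) ≤ 400 / s := by
        rw [le_div_iff₀ hs]; linarith
      refine b1.trans ?_
      have b3 : 0 ≤ e' ^ 2 * ((q.eval 100) ^ 2 + e ^ 2) := by positivity
      nlinarith
    unfold H2
    nlinarith [a1, a2]
  have p1 : 0 < ‖Qz q z‖ ^ 2 + e ^ 2 := by positivity
  have p2 : 0 < ‖Fx x z‖ ^ 2 + e' ^ 2 := by positivity
  have hl := Real.log_le_log (by positivity) key
  rw [Real.log_mul p1.ne' p2.ne'] at hl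
  unfold ul
  linarith

lemma I_bound {q : Polynomial ℝ} (hq : Good q) (x : E2) {c e e' s : ℝ} (hc0 : 0 < c)
    (hc : c ≤ 1 / 2) (hF : Fx x (c : ℂ) ≠ 0) (he : 0 < e) (he' : 0 < e') (he1 : e' ≤ 1)
    (hs : 0 < s) (hs1 : s ≤ 1 / 512) :
    ∫ z in Sp s, ul (Qz q) e z ≤
      volume.real (Sp s) * ((1 / 2) * Real.log (H2 q x e e' * (400 / s)) - Real.log (Bx x c)) +
        Mx x c := by
  set R : ℝ := Real.sqrt ((1 - c) ^ 2 - s / 800) with hR
  have hRarg : 0 < (1 - c) ^ 2 - s / 800 := by nlinarith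
  have hR0 : 0 < R := Real.sqrt_pos.mpr hRarg
  have hRsq : R ^ 2 = (1 - c) ^ 2 - s / 800 := Real.sq_sqrt hRarg.le
  have hR1 : R < 1 - c := by
    apply lt_of_pow_lt_pow_left₀ 2 (by linarith)
    rw [hRsq]; linarith
  have hsub : Sp s ⊆ ball (c : ℂ) R := by
    intro z hz
    rw [mem_ball, dist_eq_norm]
    apply lt_of_pow_lt_pow_left₀ 2 hR0.le
    have := Sp_r2 hs hs1 hc0 hc hz
    rw [hRsq]; linarith
  obtain ⟨hi, hM⟩ := Mx_bound x hc0 hc hR0 hR1 he' he1 hF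
  have hfin : volume (Sp s) ≠ ⊤ := measure_ne_top_of_subset hsub (vol_ball_fin _ _)
  have hiS : IntegrableOn (fun z => Real.log (Bx x c) - ul (Fx x) e' z) (Sp s) := hi.mono_set hsub
  have hcQ : ContinuousOn (ul (Qz q) e) (closedBall (c : ℂ) R) := ul_contOn he (Qz_an q _).continuousOn
  have hiQ : IntegrableOn (ul (Qz q) e) (Sp s) :=
    (hcQ.integrableOn_compact (isCompact_closedBall _ _)).mono_set (hsub.trans ball_subset_closedBall)
  set C1 : ℝ := (1 / 2) * Real.log (H2 q x e e' * (400 / s)) - Real.log (Bx x c) with hC1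
  have hic : IntegrableOn (fun _ : ℂ => C1) (Sp s) := integrableOn_const hfin
  have h1 : ∫ z in Sp s, ul (Qz q) e z ≤
      ∫ z in Sp s, (C1 + (Real.log (Bx x c) - ul (Fx x) e' z)) := by
    apply setIntegral_mono_on hiQ (hic.add hiS) (ms_Sp s)
    intro z hz
    have := pt_bound hq x he he' hs hs1 hz
    show ul (Qz q) e z ≤ C1 + (Real.log (Bx x c) - ul (Fx x) e' z)
    rw [hC1]; linarith
  have h1b : ∫ z in Sp s, (C1 + (Real.log (Bx x c) - ul (Fx x) e' z)) =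
      volume.real (Sp s) * C1 + ∫ z in Sp s, (Real.log (Bx x c) - ul (Fx x) e' z) := by
    rw [integral_add hic hiS, setIntegral_const, smul_eq_mul]
  rw [h1b] at h1
  have h2 : ∫ z in Sp s, (Real.log (Bx x c) - ul (Fx x) e' z) ≤
      ∫ z in ball (c : ℂ) R, (Real.log (Bx x c) - ul (Fx x) e' z) := by
    apply setIntegral_mono_set hi
    · filter_upwards [ae_restrict_mem measurableSet_ball] with z hz
      have : z ∈ ball (c : ℂ) (1 - c) := ball_subset_ball hR1.le hz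
      have := ulF_le x hc0 hc he' he1 this
      simp only [Pi.zero_apply]
      linarith
    · exact HasSubset.Subset.eventuallyLE hsub
  linarith

/-- the basic step -/
lemma step {q : Polynomial ℝ} (hq : Good q) {e s : ℝ} (he : 0 < e) (he1 : e ≤ 1)
    (hs : 0 < s) (hs1 : s ≤ 1 / 512) :
    (Real.pi / 4) * (s / 2) ^ 2 * Real.log (q.eval (100 - s)) ≤
      4 * (s / 2) ^ 2 + (1 / 16) * (s / 2) ^ 2 * Real.log (q.eval (100 - s / 2)) +
        2 * ∫ z in Sp s, ul (Qz q) e z := by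
  have hr : 0 < s / 2 := by linarith
  set L := Real.log (q.eval (100 - s)) with hL
  set L' := Real.log (q.eval (100 - s / 2)) with hL'
  have hq1 : 1 ≤ q.eval (100 - s) := hq.one_le (by linarith)
  have hq2 : 1 ≤ q.eval (100 - s / 2) := hq.one_le (by linarith)
  have hL0 : 0 ≤ L := Real.log_nonneg hq1
  have hL0' : 0 ≤ L' := Real.log_nonneg hq2
  have hne : Qz q (zc s) ≠ 0 := by
    rw [Qz_zc]
    exact_mod_cast (by linarith : q.eval (100 - s) ≠ 0)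
  have h1 := area_ge hr he (Qz_an q (closedBall (zc s) (s / 2))) hne
  have hn : ‖Qz q (zc s)‖ = q.eval (100 - s) := by
    rw [Qz_zc, Complex.norm_real, Real.norm_of_nonneg (by linarith)]
  rw [hn] at h1
  have hc : ContinuousOn (ul (Qz q) e) (closedBall (zc s) (s / 2)) :=
    ul_contOn he (Qz_an q _).continuousOn
  have hi : IntegrableOn (ul (Qz q) e) (ball (zc s) (s / 2)) :=
    (hc.integrableOn_compact (isCompact_closedBall _ _)).mono_set ball_subset_closedBall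
  -- pointwise bounds
  have hub : ∀ t : ℝ, 0 ≤ t → 1 ≤ q.eval t → ∀ z : ℂ, ‖phi z‖ ≤ t →
      ul (Qz q) e z ≤ Real.log (q.eval t) + 1 := by
    intro t ht htq z hz
    have a1 : ‖Qz q z‖ ≤ q.eval t := (hq.norm_le _).trans (hq.mono (norm_nonneg _) hz)
    have a2 : ‖Qz q z‖ ^ 2 + e ^ 2 ≤ (q.eval t) ^ 2 * 2 := by
      have : ‖Qz q z‖ ^ 2 ≤ (q.eval t) ^ 2 := pow_le_pow_left₀ (norm_nonneg _) a1 2
      nlinarith
    have a3 : Real.log (‖Qz q z‖ ^ 2 + e ^ 2) ≤ Real.log ((q.eval t) ^ 2 * 2) :=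
      Real.log_le_log (by positivity) a2
    rw [Real.log_mul (by positivity) (by norm_num), Real.log_pow] at a3
    have a4 : Real.log 2 ≤ 1 := by
      have := Real.log_two_lt_d9; linarith
    unfold ul
    push_cast at a3
    linarith
  have hsplit1 := integral_inter_add_sdiff (μ := volume) (ms_Lam s) hi
  have hi2 : IntegrableOn (ul (Qz q) e) (ball (zc s) (s / 2) \ Lam s) := hi.mono_set Set.diff_subset
  have hsplit2 := integral_inter_add_sdiff (μ := volume) (ms_Kst s) hi2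
  have hi3 : IntegrableOn (ul (Qz q) e) ((ball (zc s) (s / 2) \ Lam s) \ Kst s) :=
    hi2.mono_set Set.diff_subset
  have hsplit3 := integral_inter_add_sdiff (μ := volume) ms_P hi3
  have b1 : ∫ z in ball (zc s) (s / 2) ∩ Lam s, ul (Qz q) e z ≤
      (L + 1) * volume.real (ball (zc s) (s / 2) ∩ Lam s) := by
    apply int_le (measurableSet_ball.inter (ms_Lam s))
      (measure_ne_top_of_subset Set.inter_subset_left (vol_ball_fin _ _))
      (hi.mono_set Set.inter_subset_left)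
    intro z hz
    exact hub (100 - s) (by linarith) hq1 z hz.2
  have b2 : ∫ z in (ball (zc s) (s / 2) \ Lam s) ∩ Kst s, ul (Qz q) e z ≤
      (L' + 1) * volume.real ((ball (zc s) (s / 2) \ Lam s) ∩ Kst s) := by
    apply int_le ((measurableSet_ball.diff (ms_Lam s)).inter (ms_Kst s))
      (measure_ne_top_of_subset (fun z hz => hz.1.1) (vol_ball_fin (zc s) (s / 2)))
      (hi2.mono_set Set.inter_subset_left)
    intro z hz
    exact hub (100 - s / 2) (by linarith) hq2 z (phi_le hs hs1 hz.1.1)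
  have b3 : ∫ z in Sm s, ul (Qz q) e z = ∫ z in Sp s, ul (Qz q) e z := by
    have := mp_sig.setIntegral_preimage_emb me_sig (ul (Qz q) e) (Sm s)
    rw [sig_pre hs] at this
    rw [← this]
    apply setIntegral_congr_fun (ms_Sp s)
    intro z _
    simp only [ul, norm_Qz_sig]
  have v1 := vol_Lam hs
  have v2 := vol_K hs
  have b1' : (L + 1) * volume.real (ball (zc s) (s / 2) ∩ Lam s) ≤
      (L + 1) * ((3 / 4) * (Real.pi * (s / 2) ^ 2)) := by gcongr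
  have b2' : (L' + 1) * volume.real ((ball (zc s) (s / 2) \ Lam s) ∩ Kst s) ≤
      (L' + 1) * ((1 / 16) * (s / 2) ^ 2) := by gcongr
  have hSp : ∫ z in ((ball (zc s) (s / 2) \ Lam s) \ Kst s) ∩ {z | z.re < 1}, ul (Qz q) e z =
      ∫ z in Sp s, ul (Qz q) e z := rfl
  have hSm : ∫ z in ((ball (zc s) (s / 2) \ Lam s) \ Kst s) \ {z | z.re < 1}, ul (Qz q) e z =
      ∫ z in Sm s, ul (Qz q) e z := rfl
  rw [hSp, hSm, b3] at hsplit3
  have hpi : Real.pi ≤ 4 := Real.pi_le_four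
  have hsq : 0 < (s / 2) ^ 2 := by positivity
  have hfin : (3 / 4) * (Real.pi * (s / 2) ^ 2) + (1 / 16) * (s / 2) ^ 2 ≤ 4 * (s / 2) ^ 2 := by
    nlinarith
  nlinarith [h1, hsplit1, hsplit2, hsplit3, b1, b2, b1', b2', hfin]

end Pool.Agent.X207.CC
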