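import Mathlib
import Pool.Agent.X207.CC4
open Filter Topology MeasureTheory Metric
namespace Pool.Agent.X207.CC

lemma log400 {s : ℝ} (hs : 0 < s) (hs1 : s ≤ 1 / 512) :
    0 ≤ (1 / 2) * Real.log (400 / s) ∧ (1 / 2) * Real.log (400 / s) ≤ 200 / s := by
  have h1 : (1 : ℝ) ≤ 400 / s := by rw [le_div_iff₀ hs]; linarith
  have h2 := Real.log_nonneg h1
  have h3 := Real.log_le_sub_one_of_pos (show (0 : ℝ) < 400 / s by positivity)
  refine ⟨by linarith, ?_⟩
  have e : (200 : ℝ) / s = (1 / 2) * (400 / s) := by ring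
  rw [e]; linarith

lemma Mx_nonneg (x : E2) {c : ℝ} (hc0 : 0 < c) (hc : c ≤ 1 / 2) (hF : Fx x (c : ℂ) ≠ 0) :
    0 ≤ Mx x c := by
  obtain ⟨hi, hM⟩ := Mx_bound x (R := (1 / 4 : ℝ)) (e' := 1) hc0 hc (by norm_num) (by linarith)
    one_pos le_rfl hF
  refine le_trans ?_ hM
  apply setIntegral_nonneg measurableSet_ball
  intro z hz
  have : z ∈ ball (c : ℂ) (1 - c) := ball_subset_ball (by linarith) hz
  have := ulF_le x hc0 hc one_pos le_rfl this
  linarith

noncomputable def Kx (x : E2) (c : ℝ) : ℝ := 2200 + 11 * Mx x c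

lemma stepA {q : Polynomial ℝ} (hq : Good q) (x : E2) {c e e' s : ℝ} (hc0 : 0 < c)
    (hc : c ≤ 1 / 2) (hF : Fx x (c : ℂ) ≠ 0) (he : 0 < e) (he1 : e ≤ 1) (he' : 0 < e')
    (he1' : e' ≤ 1) (hH : H2 q x e e' ≤ 1) (hs : 0 < s) (hs1 : s ≤ 1 / 512) :
    Real.log (q.eval (100 - s)) ≤ Real.log (q.eval (100 - s / 2)) / 12 + Kx x c / s ^ 2 := by
  have h1 := step hq he he1 hs hs1
  have h2 := I_bound hq x hc0 hc hF he he' he1' hs hs1
  have hM := Mx_nonneg x hc0 hc hF
  have hB : 0 ≤ Real.log (Bx x c) := Real.log_nonneg (Bx_ge x hc0)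
  obtain ⟨l1, l2⟩ := log400 hs hs1
  have hHp := H2_pos hq x (e := e) he'
  have hlH : Real.log (H2 q x e e') ≤ 0 := Real.log_nonpos hHp.le hH
  rw [Real.log_mul hHp.ne' (by positivity)] at h2
  have hV0 : 0 ≤ volume.real (Sp s) := measureReal_nonneg
  have hV := vol_Sp_le hs
  have hpi : Real.pi ≤ 4 := Real.pi_le_four
  have hpi3 : 3 < Real.pi := Real.pi_gt_three
  have hsq : 0 < (s / 2) ^ 2 := by positivity
  have h3 : volume.real (Sp s) * (1 / 2 * (Real.log (H2 q x e e') + Real.log (400 / s)) -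
      Real.log (Bx x c)) ≤ 4 * (s / 2) ^ 2 * (200 / s) := by
    calc volume.real (Sp s) * (1 / 2 * (Real.log (H2 q x e e') + Real.log (400 / s)) -
      Real.log (Bx x c)) ≤ volume.real (Sp s) * (200 / s) := by
          apply mul_le_mul_of_nonneg_left _ hV0
          linarith
      _ ≤ 4 * (s / 2) ^ 2 * (200 / s) := by
          have : 0 < 200 / s := by positivity
          apply mul_le_mul_of_nonneg_right _ this.le
          nlinarith
  set L := Real.log (q.eval (100 - s)) with hL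
  set L' := Real.log (q.eval (100 - s / 2)) with hL'
  have hL0 : 0 ≤ L := Real.log_nonneg (hq.one_le (by linarith))
  have hL0' : 0 ≤ L' := Real.log_nonneg (hq.one_le (by linarith))
  have h4 : (3 / 4) * (s / 2) ^ 2 * L ≤ 4 * (s / 2) ^ 2 + (1 / 16) * (s / 2) ^ 2 * L' +
      2 * (4 * (s / 2) ^ 2 * (200 / s) + Mx x c) := by
    have : (3 / 4) * (s / 2) ^ 2 * L ≤ (Real.pi / 4) * (s / 2) ^ 2 * L := by
      have : 0 ≤ (s / 2) ^ 2 * L := by positivity
      nlinarith
    linarith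
  have h5 : L ≤ (4 / 3) * (4 + L' / 16 + 1600 / s + 8 * Mx x c / s ^ 2) := by
    have e1 : (3 / 4) * (s / 2) ^ 2 * ((4 / 3) * (4 + L' / 16 + 1600 / s + 8 * Mx x c / s ^ 2)) =
        4 * (s / 2) ^ 2 + (1 / 16) * (s / 2) ^ 2 * L' +
      2 * (4 * (s / 2) ^ 2 * (200 / s) + Mx x c) := by
      field_simp
      ring
    rw [← e1] at h4
    exact le_of_mul_le_mul_left h4 (by positivity)
  have h6 : (4 / 3) * (4 + L' / 16 + 1600 / s + 8 * Mx x c / s ^ 2) ≤ L' / 12 + Kx x c / s ^ 2 := by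
    have a1 : (4 : ℝ) ≤ 4 / s ^ 2 := by
      rw [le_div_iff₀ (by positivity)]; nlinarith
    have a2 : 1600 / s ≤ 1600 / s ^ 2 := by
      apply div_le_div_of_nonneg_left (by norm_num) (by positivity)
      nlinarith
    have a3 : Kx x c / s ^ 2 = 2200 / s ^ 2 + 11 * (Mx x c / s ^ 2) := by
      unfold Kx; ring
    have a4 : 8 * Mx x c / s ^ 2 = 8 * (Mx x c / s ^ 2) := by ring
    have a5 : 0 ≤ Mx x c / s ^ 2 := by positivity
    have a6 : (4 : ℝ) / s ^ 2 = 4 * (1 / s ^ 2) := by ring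
    have a7 : (1600 : ℝ) / s ^ 2 = 1600 * (1 / s ^ 2) := by ring
    have a8 : (2200 : ℝ) / s ^ 2 = 2200 * (1 / s ^ 2) := by ring
    have a9 : 0 < 1 / s ^ 2 := by positivity
    rw [a3, a4]
    rw [a7] at a2
    rw [a6] at a1
    rw [a8]
    linarith
  linarith

lemma stepN {q : Polynomial ℝ} (hq : Good q) (x : E2) {c e e' : ℝ} (hc0 : 0 < c)
    (hc : c ≤ 1 / 2) (hF : Fx x (c : ℂ) ≠ 0) (he : 0 < e) (he1 : e ≤ 1) (he' : 0 < e')
    (he1' : e' ≤ 1) (hH : H2 q x e e' ≤ 1) (N : ℕ) : ∀ s : ℝ, 0 < s → s ≤ 1 / 512 →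
    Real.log (q.eval (100 - s)) ≤ (1 / 12) ^ N * Real.log (q.eval 100) +
      (3 / 2) * (Kx x c / s ^ 2) := by
  induction N with
  | zero =>
    intro s hs hs1
    have hK : 0 ≤ Kx x c := by unfold Kx; have := Mx_nonneg x hc0 hc hF; linarith
    have h1 : Real.log (q.eval (100 - s)) ≤ Real.log (q.eval 100) :=
      Real.log_le_log (by linarith [hq.one_le (t := 100 - s) (by linarith)])
        (hq.mono (by linarith) (by linarith))
    have h2 : 0 ≤ (3 / 2) * (Kx x c / s ^ 2) := by positivity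
    rw [pow_zero, one_mul]
    linarith
  | succ N ih =>
    intro s hs hs1
    have h1 := stepA hq x hc0 hc hF he he1 he' he1' hH hs hs1
    have h2 := ih (s / 2) (by linarith) (by linarith)
    have e1 : (3 / 2) * (Kx x c / (s / 2) ^ 2) = 6 * (Kx x c / s ^ 2) := by
      field_simp
      ring
    rw [e1] at h2
    rw [pow_succ]
    linarith

lemma L_bound {q : Polynomial ℝ} (hq : Good q) (x : E2) {c e e' s : ℝ} (hc0 : 0 < c)
    (hc : c ≤ 1 / 2) (hF : Fx x (c : ℂ) ≠ 0) (he : 0 < e) (he1 : e ≤ 1) (he' : 0 < e')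
    (he1' : e' ≤ 1) (hH : H2 q x e e' ≤ 1) (hs : 0 < s) (hs1 : s ≤ 1 / 512) :
    Real.log (q.eval (100 - s)) ≤ (3 / 2) * (Kx x c / s ^ 2) := by
  have ht : Tendsto (fun N : ℕ => (1 / 12 : ℝ) ^ N * Real.log (q.eval 100) +
      (3 / 2) * (Kx x c / s ^ 2)) atTop (𝓝 (0 * Real.log (q.eval 100) + (3 / 2) * (Kx x c / s ^ 2))) :=
    ((tendsto_pow_atTop_nhds_zero_of_lt_one (by norm_num) (by norm_num)).mul_const _).add_const _
  rw [zero_mul, zero_add] at ht
  exact ge_of_tendsto ht (Eventually.of_forall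
    (fun N => stepN hq x hc0 hc hF he he1 he' he1' hH N s hs hs1))

noncomputable def Cx (x : E2) (c : ℝ) : ℝ := 10 ^ 9 * (1 + Kx x c + Mx x c)

lemma H2_lower {q : Polynomial ℝ} (hq : Good q) (x : E2) {c e e' : ℝ} (hc0 : 0 < c)
    (hc : c ≤ 1 / 2) (hF : Fx x (c : ℂ) ≠ 0) (he : 0 < e) (he1 : e ≤ 1) (he' : 0 < e')
    (he1' : e' ≤ 1) : Real.exp (-(Cx x c)) ≤ H2 q x e e' := by
  have hM := Mx_nonneg x hc0 hc hF
  have hK : 0 ≤ Kx x c := by unfold Kx; linarith
  have hC : 0 ≤ Cx x c := by unfold Cx; positivity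
  rcases lt_or_ge 1 (H2 q x e e') with h | hH
  · have : Real.exp (-(Cx x c)) ≤ 1 := Real.exp_le_one_iff.mpr (by linarith)
    linarith
  · have hs : (0 : ℝ) < 1 / 512 := by norm_num
    have h1 := step hq he he1 hs le_rfl
    have h2 := I_bound hq x hc0 hc hF he he' he1' hs le_rfl
    have h3 := L_bound hq x hc0 hc hF he he1 he' he1' hH (s := 1 / 512 / 2) (by norm_num) (by norm_num)
    have hB : 0 ≤ Real.log (Bx x c) := Real.log_nonneg (Bx_ge x hc0)
    obtain ⟨l1, l2⟩ := log400 hs le_rfl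
    have hHp := H2_pos hq x (e := e) he'
    have hlH : Real.log (H2 q x e e') ≤ 0 := Real.log_nonpos hHp.le hH
    rw [Real.log_mul hHp.ne' (by norm_num)] at h2
    have hV0 : 0 ≤ volume.real (Sp (1 / 512)) := measureReal_nonneg
    have hV := vol_Sp_le hs
    have hVg := vol_Sp_ge hs le_rfl
    have hpi : Real.pi ≤ 4 := Real.pi_le_four
    have hpi3 : 3 < Real.pi := Real.pi_gt_three
    set V := volume.real (Sp (1 / 512)) with hVdef
    set lH := Real.log (H2 q x e e') with hlHdef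
    have hL0 : 0 ≤ Real.log (q.eval (100 - 1 / 512)) := Real.log_nonneg (hq.one_le (by norm_num))
    have a1 : V * (1 / 2 * (lH + Real.log (400 / (1 / 512))) - Real.log (Bx x c)) ≤
        (1 / 2) * (3 * (1 / 512 / 16) ^ 2) * lH + 4 * (1 / 512 / 2) ^ 2 * (200 / (1 / 512)) := by
      have b1 : V * ((1 / 2) * lH) ≤ (1 / 2) * (3 * (1 / 512 / 16) ^ 2) * lH := by
        have : 3 * (1 / 512 / 16 : ℝ) ^ 2 ≤ V := by nlinarith
        nlinarith
      have b2 : V * ((1 / 2) * Real.log (400 / (1 / 512)) - Real.log (Bx x c)) ≤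
          4 * (1 / 512 / 2) ^ 2 * (200 / (1 / 512)) := by
        calc V * ((1 / 2) * Real.log (400 / (1 / 512)) - Real.log (Bx x c)) ≤ V * (200 / (1 / 512)) := by
              apply mul_le_mul_of_nonneg_left _ hV0
              linarith
          _ ≤ 4 * (1 / 512 / 2) ^ 2 * (200 / (1 / 512)) := by
              apply mul_le_mul_of_nonneg_right _ (by norm_num)
              nlinarith
      nlinarith
    have a2 : 0 ≤ (Real.pi / 4) * (1 / 512 / 2) ^ 2 * Real.log (q.eval (100 - 1 / 512)) := by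
      positivity
    have a3 : -(Cx x c) ≤ lH := by
      unfold Cx
      norm_num at h1 h2 h3 a1 a2 ⊢
      nlinarith
    calc Real.exp (-(Cx x c)) ≤ Real.exp lH := Real.exp_le_exp.mpr a3
      _ = H2 q x e e' := Real.exp_log hHp

theorem norm_lower {q : Polynomial ℝ} (hq : Good q) (x : E2) {c : ℝ} (hc0 : 0 < c)
    (hc : c ≤ 1 / 2) (hF : Fx x (c : ℂ) ≠ 0) :
    Real.exp (-(Cx x c)) ≤ ‖Polynomial.aeval Aop q x‖ ^ 2 := by
  have ht : Tendsto (fun t : ℝ => H2 q x t t) (𝓝[>] 0) (𝓝 (H2 q x 0 0)) := by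
    apply Tendsto.mono_left _ nhdsWithin_le_nhds
    apply Continuous.tendsto
    unfold H2
    fun_prop
  have h0 : H2 q x 0 0 = ‖Polynomial.aeval Aop q x‖ ^ 2 := by unfold H2; ring
  rw [h0] at ht
  apply ge_of_tendsto ht
  filter_upwards [Ioo_mem_nhdsGT (show (0 : ℝ) < 1 by norm_num)] with t htt
  exact H2_lower hq x hc0 hc hF htt.1 htt.2.le htt.1 htt.2.le

lemma exists_ev_ne {x : E2} (hx : x ≠ 0) : ∃ c : ℝ, 0 < c ∧ c ≤ 1 / 2 ∧ ev x (c : ℂ) ≠ 0 := by
  have h0 : ∃ n, x n ≠ 0 := by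
    by_contra h
    push Not at h
    apply hx
    ext n
    simpa using h n
  classical
  set N := Nat.find h0 with hN
  have hN1 : x N ≠ 0 := Nat.find_spec h0
  have hN2 : ∀ m < N, x m = 0 := fun m hm => by
    have := Nat.find_min h0 hm
    push Not at this
    exact this
  have hmem : Memℓp (fun n => x (n + N)) 2 := by
    apply memℓp_gen
    have h := (summable_nat_add_iff N).mpr (summable_sq x)
    simpa using h
  set y : E2 := ⟨fun n => x (n + N), hmem⟩ with hy
  have hev : ∀ z : ℂ, ‖z‖ < 1 → ev x z = z ^ N * ev y z := by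
    intro z hz
    unfold ev
    rw [← (summable_ev x hz).sum_add_tsum_nat_add N, ← tsum_mul_left]
    have : ∑ i ∈ Finset.range N, x i * z ^ i = 0 := by
      apply Finset.sum_eq_zero
      intro i hi
      rw [hN2 i (Finset.mem_range.mp hi), zero_mul]
    rw [this, zero_add]
    congr 1
    ext n
    simp only [hy]
    ring
  have hcont : ContinuousAt (ev y) 0 :=
    ((diff_ev y) 0 (by simp)).differentiableAt (isOpen_ball.mem_nhds (by simp)) |>.continuousAt
  have hy0 : ev y 0 ≠ 0 := by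
    have : ev y 0 = y 0 := by
      unfold ev
      rw [tsum_eq_single 0]
      · simp
      · intro n hn
        simp [hn]
    rw [this]
    simpa [hy] using hN1
  have hne : ∀ᶠ z in 𝓝 (0 : ℂ), ev y z ≠ 0 := hcont.eventually_ne hy0
  have hr : Tendsto (fun t : ℝ => (t : ℂ)) (𝓝[>] 0) (𝓝 (0 : ℂ)) := by
    have : Tendsto (fun t : ℝ => (t : ℂ)) (𝓝 0) (𝓝 ((0 : ℝ) : ℂ)) := Complex.continuous_ofReal.tendsto 0
    rw [Complex.ofReal_zero] at this
    exact this.mono_left nhdsWithin_le_nhds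
  have h1 := hr.eventually hne
  have h2 := h1.and (Ioo_mem_nhdsGT (show (0 : ℝ) < 1 / 2 by norm_num))
  obtain ⟨t, ht1, ht2⟩ := h2.exists
  refine ⟨t, ht2.1, ht2.2.le, ?_⟩
  have hlt : ‖(t : ℂ)‖ < 1 := by
    rw [Complex.norm_real, Real.norm_of_nonneg ht2.1.le]; linarith [ht2.2]
  rw [hev t hlt]
  apply mul_ne_zero _ ht1
  apply pow_ne_zero
  exact_mod_cast ht2.1.ne'

/-- orbit -/
def orb (T : E2 →L[ℂ] E2) (x : E2) : Set E2 := Set.range (fun k : ℕ => (T ^ k) x)

lemma hull_sub (T : E2 →L[ℂ] E2) (x : E2) : convexHull ℝ (orb T x) ⊆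
    {y | ∃ p : Polynomial ℝ, (∀ n, 0 ≤ p.coeff n) ∧ p.eval 1 = 1 ∧ y = Polynomial.aeval T p x} := by
  apply convexHull_min
  · rintro _ ⟨k, rfl⟩
    refine ⟨Polynomial.X ^ k, ?_, by simp, by simp⟩
    intro n
    rw [Polynomial.coeff_X_pow]
    split_ifs <;> norm_num
  · rintro y ⟨p, hp, hp1, rfl⟩ z ⟨r, hr, hr1, rfl⟩ a b ha hb hab
    refine ⟨Polynomial.C a * p + Polynomial.C b * r, ?_, ?_, ?_⟩
    · intro n
      rw [Polynomial.coeff_add, Polynomial.coeff_C_mul, Polynomial.coeff_C_mul]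
      have := hp n
      have := hr n
      positivity
    · simp [hp1, hr1, hab]
    · simp only [map_add, map_mul, Polynomial.aeval_C, Algebra.algebraMap_eq_smul_one]
      simp

theorem A_not (x : E2) : ¬ Dense (convexHull ℝ (orb Aop x)) := by
  intro hd
  rcases eq_or_ne x 0 with rfl | hx
  · have h1 : convexHull ℝ (orb Aop (0 : E2)) = {0} := by
      have : orb Aop (0 : E2) = {0} := by
        ext y; simp [orb, eq_comm]
      rw [this, convexHull_singleton]
    rw [h1] at hd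
    have h2 : e0 ∈ closure ({0} : Set E2) := hd e0
    rw [closure_singleton, Set.mem_singleton_iff] at h2
    have := norm_e0
    rw [h2, norm_zero] at this
    norm_num at this
  · obtain ⟨c, hc0, hc, hev⟩ := exists_ev_ne hx
    have hF : Fx x (c : ℂ) ≠ 0 := by
      unfold Fx
      apply mul_ne_zero _ hev
      intro h
      have : (c : ℂ) = 1 := by linear_combination -h
      have : c = 1 := by exact_mod_cast this
      linarith
    have h1 : -x ∈ closure (convexHull ℝ (orb Aop x)) := hd (-x)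
    rw [Metric.mem_closure_iff] at h1
    obtain ⟨y, hy, hyd⟩ := h1 (Real.sqrt (Real.exp (-(Cx x c)))) (Real.sqrt_pos.mpr (Real.exp_pos _))
    obtain ⟨p, hp, hp1, rfl⟩ := hull_sub Aop x hy
    have hgood : Good (p + 1) := by
      constructor
      · intro n
        rw [Polynomial.coeff_add, Polynomial.coeff_one]
        have := hp n
        split_ifs <;> linarith
      · rw [Polynomial.coeff_add, Polynomial.coeff_one_zero]
        linarith [hp 0]
    have h2 := norm_lower hgood x hc0 hc hF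
    have e : Polynomial.aeval Aop (p + 1) x = Polynomial.aeval Aop p x + x := by
      rw [map_add, map_one]; rfl
    rw [e] at h2
    rw [dist_eq_norm] at hyd
    have h3 : ‖-x - Polynomial.aeval Aop p x‖ = ‖Polynomial.aeval Aop p x + x‖ := by
      rw [← norm_neg]; congr 1; abel
    rw [h3] at hyd
    have h4 : ‖Polynomial.aeval Aop p x + x‖ ^ 2 < Real.exp (-(Cx x c)) := by
      rw [← Real.sq_sqrt (Real.exp_pos (-(Cx x c))).le]
      exact pow_lt_pow_left₀ hyd (norm_nonneg _) two_ne_zero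
    linarith

end Pool.Agent.X207.CC
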