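import Mathlib
import Pool.Agent.X207.CC5
open scoped ENNReal InnerProductSpace
open Filter Topology
namespace Pool.Agent.X207.CC

/-- real-variable lemma -/
lemma seq_step (u w : ℕ → ℝ) (B C : ℝ) (hw : ∀ k, w k = u k + u (k+1) / 100)
    (h1 : ∀ k, |w k| ≤ B * 73 ^ k) (h2 : ∀ k, |u k| ≤ C * 73 ^ k) :
    ∀ k, |u k| ≤ (B / (27 / 100)) * 73 ^ k := by
  have hbdd : BddAbove (Set.range fun k => |u k| / 73 ^ k) := by
    refine ⟨C, ?_⟩
    rintro _ ⟨k, rfl⟩
    show |u k| / 73 ^ k ≤ C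
    rw [div_le_iff₀ (by positivity)]
    exact h2 k
  set N := ⨆ k, |u k| / 73 ^ k with hN
  have hle : ∀ k, |u k| ≤ N * 73 ^ k := by
    intro k
    have := le_ciSup hbdd k
    rw [← div_le_iff₀ (by positivity)]
    exact this
  have hN1 : N ≤ B + (73 / 100) * N := by
    apply ciSup_le
    intro k
    rw [div_le_iff₀ (by positivity)]
    have e : u k = w k - u (k + 1) / 100 := by rw [hw k]; ring
    have a1 := h1 k
    have a2 := hle (k + 1)
    have a3 : |u k| ≤ |w k| + |u (k + 1)| / 100 := by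
      rw [e]
      refine (abs_sub _ _).trans ?_
      rw [abs_div]
      norm_num
    rw [pow_succ] at a2
    nlinarith
  have hN2 : N ≤ B / (27 / 100) := by
    rw [le_div_iff₀ (by norm_num)]; linarith
  intro k
  refine (hle k).trans ?_
  gcongr

lemma seq_zero (v : ℕ → ℕ → ℝ) (K M : ℝ) (hK : 0 ≤ K) (hM : 0 ≤ M)
    (hv : ∀ n k, v (n+1) k = v n k + v n (k+1) / 100)
    (h1 : ∀ n k, |v n k| ≤ K * 102 ^ k * (1 / 50) ^ n)
    (h2 : ∀ k, |v 0 k| ≤ M * 52 ^ k) : ∀ n k, v n k = 0 := by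
  have h3 : ∀ n k, |v n k| ≤ M * 52 ^ k * (38 / 25) ^ n := by
    intro n
    induction n with
    | zero => intro k; simpa using h2 k
    | succ n ih =>
      intro k
      rw [hv]
      have a1 := ih k
      have a2 := ih (k + 1)
      have a3 : |v n k + v n (k + 1) / 100| ≤ |v n k| + |v n (k + 1)| / 100 := by
        refine (abs_add_le _ _).trans ?_
        rw [abs_div]
        norm_num
      rw [pow_succ] at a2 ⊢
      nlinarith
  set L := max K M with hL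
  have hL0 : 0 ≤ L := hK.trans (le_max_left _ _)
  have h4 : ∀ n k, |v n k| ≤ L * (7 / 40) ^ n * 73 ^ k := by
    intro n k
    apply abs_le_of_sq_le_sq' _ (by positivity) |> abs_le.mpr
    have a1 := h1 n k
    have a2 := h3 n k
    have a3 : |v n k| * |v n k| ≤ (K * 102 ^ k * (1 / 50) ^ n) * (M * 52 ^ k * (38 / 25) ^ n) :=
      mul_le_mul a1 a2 (abs_nonneg _) (by positivity)
    have a4 : (K * 102 ^ k * (1 / 50) ^ n) * (M * 52 ^ k * (38 / 25) ^ n) =
        (K * M) * (5304 ^ k * (19 / 625) ^ n) := by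
      have b1 : (5304 : ℝ) ^ k = 102 ^ k * 52 ^ k := by rw [← mul_pow]; norm_num
      have b2 : (19 / 625 : ℝ) ^ n = (1 / 50) ^ n * (38 / 25) ^ n := by rw [← mul_pow]; norm_num
      rw [b1, b2]; ring
    have a5 : (5304 : ℝ) ^ k ≤ (73 ^ 2) ^ k := by gcongr; norm_num
    have a6 : (19 / 625 : ℝ) ^ n ≤ ((7 / 40) ^ 2) ^ n := by gcongr; norm_num
    have a7 : K * M ≤ L * L := mul_le_mul (le_max_left _ _) (le_max_right _ _) hM hL0
    calc (v n k) ^ 2 = |v n k| * |v n k| := by rw [abs_mul_abs_self]; ring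
      _ ≤ (K * M) * (5304 ^ k * (19 / 625) ^ n) := a4 ▸ a3
      _ ≤ (L * L) * ((73 ^ 2) ^ k * ((7 / 40) ^ 2) ^ n) := by gcongr
      _ = (L * (7 / 40) ^ n * 73 ^ k) ^ 2 := by
        rw [← pow_mul, ← pow_mul]; ring
  have h5 : ∀ j n k, |v n k| ≤ (L * (7 / 40) ^ n * ((7 / 40) / (27 / 100)) ^ j) * 73 ^ k := by
    intro j
    induction j with
    | zero => intro n k; simpa using h4 n k
    | succ j ih =>
      intro n k
      have := seq_step (v n) (v (n + 1)) (L * (7 / 40) ^ (n + 1) * ((7 / 40) / (27 / 100)) ^ j)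
        (L * (7 / 40) ^ n) (hv n) (ih (n + 1)) (h4 n) k
      refine this.trans (le_of_eq ?_)
      rw [pow_succ, pow_succ]
      ring
  intro n k
  have ht : Tendsto (fun j : ℕ => (L * (7 / 40) ^ n * ((7 / 40) / (27 / 100)) ^ j) * (73 : ℝ) ^ k) atTop
      (𝓝 ((L * (7 / 40) ^ n * 0) * (73 : ℝ) ^ k)) := by
    apply Tendsto.mul_const
    apply Tendsto.const_mul
    exact tendsto_pow_atTop_nhds_zero_of_lt_one (by norm_num) (by norm_num)
  have h6 : |v n k| ≤ (L * (7 / 40) ^ n * 0) * (73 : ℝ) ^ k :=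
    ge_of_tendsto ht (Eventually.of_forall fun j => h5 j n k)
  have h7 : |v n k| ≤ 0 := by simpa using h6
  exact abs_nonpos_iff.mp h7

lemma two_pow_le_cb (j : ℕ) : 2 ^ j ≤ (2 * j).choose j := by
  rw [← Nat.centralBinom_eq_two_mul_choose]
  induction j with
  | zero => simp
  | succ j ih =>
    have h := Nat.succ_mul_centralBinom_succ j
    have : (j + 1) * 2 ^ (j + 1) ≤ (j + 1) * Nat.centralBinom (j + 1) := by
      rw [h, pow_succ]; nlinarith
    exact Nat.le_of_mul_le_mul_left this (Nat.succ_pos j)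

lemma seq_choose (w : ℕ → ℕ → ℝ) (hw : ∀ n k, w (n+1) k = w n k + w n (k+1) / 100)
    (h0 : ∀ k, 0 ≤ w 0 k) : ∀ n k j, 0 ≤ w n k ∧ (n.choose j : ℝ) * w 0 (k + j) / 100 ^ j ≤ w n k := by
  intro n
  induction n with
  | zero =>
    intro k j
    refine ⟨h0 k, ?_⟩
    cases j with
    | zero => simp
    | succ j => simpa using h0 k
  | succ n ih =>
    intro k j
    have p1 := (ih k 0).1
    have p2 := (ih (k + 1) 0).1
    refine ⟨by rw [hw]; positivity, ?_⟩
    rw [hw]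
    cases j with
    | zero =>
      have := (ih k 0).2
      simp at this ⊢
      linarith
    | succ j =>
      have q1 := (ih k (j + 1)).2
      have q2 := (ih (k + 1) j).2
      rw [Nat.choose_succ_succ, Nat.cast_add]
      have e : k + 1 + j = k + (j + 1) := by ring
      rw [e] at q2
      have e2 : ((n.choose j : ℝ) + (n.choose j.succ : ℝ)) * w 0 (k + (j + 1)) / 100 ^ (j + 1) =
        (n.choose (j + 1) : ℝ) * w 0 (k + (j + 1)) / 100 ^ (j + 1) +
        (n.choose j : ℝ) * w 0 (k + (j + 1)) / 100 ^ j / 100 := by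
        rw [pow_succ]; field_simp; ring
      rw [e2]
      linarith

lemma seq_main (v : ℕ → ℕ → ℝ) (K C : ℝ) (hK : 0 ≤ K) (hC : 0 ≤ C)
    (hv : ∀ n k, v (n+1) k = v n k + v n (k+1) / 100)
    (h1 : ∀ n k, |v n k| ≤ K * 102 ^ k * (1 / 50) ^ n)
    (h2 : ∀ k, v 0 k ≤ C) : ∀ n k, v n k = 0 := by
  apply seq_zero v K (2 * C + K) hK (by positivity) hv h1
  intro j
  have hw := seq_choose (fun n k => C * (101 / 100) ^ n - v n k)
    (fun n k => by
      show C * (101 / 100) ^ (n + 1) - v (n + 1) k =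
        C * (101 / 100) ^ n - v n k + (C * (101 / 100) ^ n - v n (k + 1)) / 100
      rw [hv, pow_succ]; ring)
    (fun k => by
      show 0 ≤ C * (101 / 100) ^ 0 - v 0 k
      have := h2 k
      rw [pow_zero]; linarith)
  have a1 := (hw (2 * j) 0 j).2
  have a0 := (hw 0 j 0).1
  simp only [zero_add, pow_zero, mul_one] at a1 a0
  have a2 : ((2 : ℝ) ^ j) ≤ ((2 * j).choose j : ℝ) := by exact_mod_cast two_pow_le_cb j
  have a3 : (2 : ℝ) ^ j * (C - v 0 j) / 100 ^ j ≤ C * (101 / 100) ^ (2 * j) - v (2 * j) 0 := by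
    refine le_trans ?_ a1
    gcongr
  have a4 : - v (2 * j) 0 ≤ K := by
    have := h1 (2 * j) 0
    have h5 : (1 / 50 : ℝ) ^ (2 * j) ≤ 1 := pow_le_one₀ (by norm_num) (by norm_num)
    have h6 : K * 102 ^ 0 * (1 / 50) ^ (2 * j) ≤ K := by
      rw [pow_zero, mul_one]
      exact mul_le_of_le_one_right hK h5
    have := neg_abs_le (v (2 * j) 0)
    linarith
  have a5 : (1 : ℝ) ≤ (101 / 100) ^ (2 * j) := one_le_pow₀ (by norm_num)
  have a6 : (2 : ℝ) ^ j * (C - v 0 j) / 100 ^ j ≤ (C + K) * (101 / 100) ^ (2 * j) := by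
    nlinarith
  rw [div_le_iff₀ (by positivity)] at a6
  have a7 : (C + K) * (101 / 100 : ℝ) ^ (2 * j) * 100 ^ j ≤ (C + K) * (2 ^ j * 52 ^ j) := by
    rw [mul_assoc]
    apply mul_le_mul_of_nonneg_left _ (by positivity)
    rw [pow_mul, ← mul_pow, ← mul_pow]
    apply pow_le_pow_left₀ (by positivity)
    norm_num
  have a8 : C - v 0 j ≤ (C + K) * 52 ^ j := by
    have : (2 : ℝ) ^ j * (C - v 0 j) ≤ 2 ^ j * ((C + K) * 52 ^ j) := by linarith
    exact le_of_mul_le_mul_left this (by positivity)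
  have a9 : (1 : ℝ) ≤ 52 ^ j := one_le_pow₀ (by norm_num)
  rw [abs_le]
  constructor
  · nlinarith
  · nlinarith

/-- the small operator -/
noncomputable def Dop : E2 →L[ℂ] E2 := (-(1 / 100) : ℂ) • Yop

lemma norm_Y_le : ‖Yop‖ ≤ 2 := by
  unfold Yop
  rw [norm_smul, Complex.norm_I, one_mul]
  have h1 : ‖(1 : E2 →L[ℂ] E2)‖ ≤ 1 := ContinuousLinearMap.norm_id_le
  have := norm_S_le
  linarith [norm_sub_le (1 : E2 →L[ℂ] E2) S]

lemma norm_D_le : ‖Dop‖ ≤ 1 / 50 := by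
  unfold Dop
  rw [norm_smul]
  have := norm_Y_le
  have e : ‖(-(1 / 100) : ℂ)‖ = 1 / 100 := by norm_num
  rw [e]; linarith

lemma norm_T_le : ‖-Aop‖ ≤ 102 := by
  rw [norm_neg]
  unfold Aop
  have h1 : ‖(1 : E2 →L[ℂ] E2)‖ ≤ 1 := ContinuousLinearMap.norm_id_le
  have h2 : ‖(100 : ℂ) • (1 : E2 →L[ℂ] E2)‖ ≤ 100 := by
    rw [norm_smul]
    have : ‖(100 : ℂ)‖ = 100 := by norm_num
    rw [this]; linarith
  have := norm_Y_le
  linarith [norm_add_le ((100 : ℂ) • (1 : E2 →L[ℂ] E2)) Yop]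

lemma D_eq : Dop = 1 + (1 / 100 : ℂ) • (-Aop) := by
  unfold Dop Aop
  rw [smul_neg, smul_add, smul_smul]
  norm_num

lemma commTD : Commute (-Aop) Dop := by
  rw [D_eq]
  exact (Commute.one_right _).add_right (Commute.smul_right (Commute.refl _) _)

lemma v_rec (g : E2 →L[ℂ] ℂ) (n k : ℕ) :
    (g (((-Aop) ^ k * Dop ^ (n + 1)) e0)).re =
      (g (((-Aop) ^ k * Dop ^ n) e0)).re + (g (((-Aop) ^ (k + 1) * Dop ^ n) e0)).re / 100 := by
  have e : (-Aop) ^ k * Dop ^ (n + 1) = (-Aop) ^ k * Dop ^ n + (1 / 100 : ℂ) • ((-Aop) ^ (k + 1) * Dop ^ n) := by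
    have h1 : Dop ^ (n + 1) = Dop ^ n + (1 / 100 : ℂ) • ((-Aop) * Dop ^ n) := by
      rw [pow_succ', D_eq, add_mul, one_mul, smul_mul_assoc]
    rw [h1, mul_add, mul_smul_comm, ← mul_assoc, ← pow_succ]
  rw [e, add_apply, map_add, smul_apply, map_smul,
    Complex.add_re, smul_eq_mul]
  congr 1
  have : (1 / 100 : ℂ) = ((1 / 100 : ℝ) : ℂ) := by norm_num
  rw [this, Complex.re_ofReal_mul]
  ring

lemma v_bound (g : E2 →L[ℂ] ℂ) (n k : ℕ) :
    |(g (((-Aop) ^ k * Dop ^ n) e0)).re| ≤ ‖g‖ * 102 ^ k * (1 / 50) ^ n := by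
  refine (Complex.abs_re_le_norm _).trans ?_
  refine (g.le_opNorm _).trans ?_
  rw [mul_assoc]
  apply mul_le_mul_of_nonneg_left _ (norm_nonneg _)
  refine (ContinuousLinearMap.le_opNorm _ _).trans ?_
  rw [norm_e0, mul_one]
  refine (norm_mul_le _ _).trans ?_
  have h1 : ‖(1 : E2 →L[ℂ] E2)‖ ≤ 1 := ContinuousLinearMap.norm_id_le
  have h2 : ∀ (B : E2 →L[ℂ] E2) (n : ℕ), ‖B ^ n‖ ≤ ‖B‖ ^ n := by
    intro B n
    rcases Nat.eq_zero_or_pos n with rfl | hn
    · simpa using h1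
    · exact norm_pow_le' B hn
  have h3 := norm_T_le
  have h4 := norm_D_le
  have h5 : ‖(-Aop) ^ k‖ ≤ 102 ^ k := (h2 _ _).trans (pow_le_pow_left₀ (norm_nonneg _) h3 _)
  have h6 : ‖Dop ^ n‖ ≤ (1 / 50) ^ n := (h2 _ _).trans (pow_le_pow_left₀ (norm_nonneg _) h4 _)
  exact mul_le_mul h5 h6 (norm_nonneg _) (by positivity)

/-- a functional bounded above on the orbit of `e0` under `-A` has vanishing real moments -/
lemma moments (g : E2 →L[ℂ] ℂ) (C : ℝ) (h : ∀ k : ℕ, (g (((-Aop) ^ k) e0)).re ≤ C) (n : ℕ) :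
    (g ((Yop ^ n) e0)).re = 0 := by
  have h0 := seq_main (fun n k => (g (((-Aop) ^ k * Dop ^ n) e0)).re) ‖g‖ (max C 0)
    (norm_nonneg _) (le_max_right _ _) (v_rec g) (v_bound g)
    (fun k => by
      show (g (((-Aop) ^ k * Dop ^ 0) e0)).re ≤ _
      rw [pow_zero, mul_one]
      exact (h k).trans (le_max_left _ _)) n 0
  simp only [pow_zero, one_mul] at h0
  have e : Dop ^ n = ((-(1 / 100) : ℂ)) ^ n • Yop ^ n := by
    unfold Dop
    rw [smul_pow]
  have e2 : ((-(1 / 100) : ℂ)) ^ n = (((-(1 / 100) : ℝ) ^ n : ℝ) : ℂ) := by push_cast; rfl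
  rw [e, smul_apply, map_smul, smul_eq_mul, e2, Complex.re_ofReal_mul] at h0
  rcases mul_eq_zero.mp h0 with h1 | h1
  · exact absurd h1 (pow_ne_zero _ (by norm_num))
  · exact h1

end Pool.Agent.X207.CC
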