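import Mathlib
import Pool.Agent.X207.CC6
open scoped ENNReal InnerProductSpace
open Filter Topology
namespace Pool.Agent.X207.CC

/-- denominators -/
noncomputable def dn (z : ℂ) : ℂ := 1 - Complex.I * z
noncomputable def lam (z : ℂ) : ℂ := -Complex.I * z / dn z

lemma normSq_dn (z : ℂ) : ‖dn z‖ ^ 2 = 1 + 2 * z.im + ‖z‖ ^ 2 := by
  rw [← Complex.normSq_eq_norm_sq, ← Complex.normSq_eq_norm_sq, Complex.normSq_apply, Complex.normSq_apply]
  simp [dn]
  ring

lemma dn_ne {z : ℂ} (hz : -(1 / 2) < z.im) : dn z ≠ 0 := by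
  intro h
  have := normSq_dn z
  rw [h] at this
  simp at this
  nlinarith [sq_nonneg ‖z‖]

lemma lam_id {z : ℂ} (hz : -(1 / 2) < z.im) : (1 - ‖lam z‖ ^ 2) * ‖dn z‖ ^ 2 = 1 + 2 * z.im := by
  have h := normSq_dn z
  have h0 : ‖dn z‖ ≠ 0 := norm_ne_zero_iff.mpr (dn_ne hz)
  have h1 : ‖lam z‖ = ‖z‖ / ‖dn z‖ := by
    unfold lam
    rw [norm_div, norm_mul, norm_neg, Complex.norm_I, one_mul]
  rw [h1]
  field_simp
  linarith

lemma lam_lt {z : ℂ} (hz : -(1 / 2) < z.im) : ‖lam z‖ < 1 := by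
  have h := lam_id hz
  have h0 : 0 < ‖dn z‖ ^ 2 := by
    have := norm_pos_iff.mpr (dn_ne hz)
    positivity
  have h1 : 0 < (1 - ‖lam z‖ ^ 2) * ‖dn z‖ ^ 2 := by rw [h]; linarith
  have h2 : 0 < 1 - ‖lam z‖ ^ 2 := by
    by_contra hc
    push Not at hc
    nlinarith
  nlinarith [norm_nonneg (lam z)]

lemma conj_lt {w : ℂ} (hw : ‖w‖ < 1) : ‖(starRingEnd ℂ) w‖ < 1 := by
  rw [Complex.norm_conj]; exact hw

/-- resolvent vector -/
noncomputable def kv (z : ℂ) (hz : -(1 / 2) < z.im) : E2 :=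
  (1 / dn z) • kz (starRingEnd ℂ (lam z)) (conj_lt (lam_lt hz))

lemma kz_apply {z : ℂ} (hz : ‖z‖ < 1) (n : ℕ) : (kz z hz) n = (starRingEnd ℂ z) ^ n := rfl

lemma kv_apply (z : ℂ) (hz : -(1 / 2) < z.im) (n : ℕ) : (kv z hz) n = (1 / dn z) * lam z ^ n := by
  unfold kv
  rw [lp.coeFn_smul, Pi.smul_apply, kz_apply, Complex.conj_conj, smul_eq_mul]

lemma e0_zero : e0 0 = 1 := by simp [e0, lp.single_apply]
lemma e0_succ (n : ℕ) : e0 (n + 1) = 0 := by simp [e0, lp.single_apply]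

lemma Y_apply (x : E2) : Yop x = Complex.I • (x - U x) := by
  simp only [Yop, smul_apply, sub_apply, one_apply_eq_self, S_apply]

lemma kv_eq (z : ℂ) (hz : -(1 / 2) < z.im) : kv z hz = e0 + z • Yop (kv z hz) := by
  have hd := dn_ne hz
  ext n
  rw [lp.coeFn_add, lp.coeFn_smul, Y_apply, lp.coeFn_smul, lp.coeFn_sub, Pi.add_apply, Pi.smul_apply,
    Pi.smul_apply, Pi.sub_apply]
  cases n with
  | zero =>
    rw [U_zero, kv_apply, e0_zero, pow_zero, smul_eq_mul, smul_eq_mul]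
    have : dn z = 1 - Complex.I * z := rfl
    field_simp
    rw [this]; ring
  | succ n =>
    rw [U_succ, kv_apply, kv_apply, e0_succ, smul_eq_mul, smul_eq_mul, pow_succ]
    have h1 : lam z * dn z = -Complex.I * z := by unfold lam; field_simp
    have h2 : dn z = 1 - Complex.I * z := rfl
    have h3 : lam z = Complex.I * z * (lam z - 1) := by
      rw [h2] at h1
      linear_combination h1
    have h4 : lam z ^ n * lam z = Complex.I * z * (lam z ^ n * lam z - lam z ^ n) := by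
      calc lam z ^ n * lam z = lam z ^ n * (Complex.I * z * (lam z - 1)) := by rw [← h3]
        _ = _ := by ring
    rw [zero_add]
    calc 1 / dn z * (lam z ^ n * lam z) = 1 / dn z * (Complex.I * z * (lam z ^ n * lam z - lam z ^ n)) := by
          rw [← h4]
      _ = _ := by ring

lemma kv_iter (z : ℂ) (hz : -(1 / 2) < z.im) (n : ℕ) :
    kv z hz = ∑ k ∈ Finset.range n, z ^ k • (Yop ^ k) e0 + z ^ n • (Yop ^ n) (kv z hz) := by
  induction n with
  | zero => simp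
  | succ n ih =>
    rw [Finset.sum_range_succ]
    have h1 : z ^ n • (Yop ^ n) (kv z hz) = z ^ n • (Yop ^ n) e0 + z ^ (n + 1) • (Yop ^ (n + 1)) (kv z hz) := by
      conv_lhs => rw [kv_eq z hz]
      rw [map_add, map_smul, smul_add, smul_smul, ← pow_succ, pow_succ Yop]
      rfl
    rw [add_assoc, ← h1]
    exact ih

lemma kv_norm_nonneg (z : ℂ) (hz : -(1 / 2) < z.im) : 0 ≤ ‖kv z hz‖ := norm_nonneg _

/-- the antisymmetry near zero -/
lemma anti (g : E2 →L[ℂ] ℂ) (h : ∀ n : ℕ, (g ((Yop ^ n) e0)).re = 0) {z : ℂ} (hz : ‖z‖ < 1 / 2)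
    (h1 : -(1 / 2) < z.im) (h2 : -(1 / 2) < (starRingEnd ℂ z).im) :
    g (kv z h1) + starRingEnd ℂ (g (kv (starRingEnd ℂ z) h2)) = 0 := by
  have key : ∀ n : ℕ, g (kv z h1) + starRingEnd ℂ (g (kv (starRingEnd ℂ z) h2)) =
      z ^ n * (g ((Yop ^ n) (kv z h1)) + starRingEnd ℂ (g ((Yop ^ n) (kv (starRingEnd ℂ z) h2)))) := by
    intro n
    have e1 : g (kv z h1) = ∑ k ∈ Finset.range n, z ^ k * g ((Yop ^ k) e0) + z ^ n * g ((Yop ^ n) (kv z h1)) := by
      conv_lhs => rw [kv_iter z h1 n]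
      rw [map_add, map_sum, map_smul, smul_eq_mul]
      congr 1
      apply Finset.sum_congr rfl
      intro k _
      rw [map_smul, smul_eq_mul]
    have e2 : g (kv (starRingEnd ℂ z) h2) = ∑ k ∈ Finset.range n, (starRingEnd ℂ z) ^ k * g ((Yop ^ k) e0) +
        (starRingEnd ℂ z) ^ n * g ((Yop ^ n) (kv (starRingEnd ℂ z) h2)) := by
      conv_lhs => rw [kv_iter (starRingEnd ℂ z) h2 n]
      rw [map_add, map_sum, map_smul, smul_eq_mul]
      congr 1
      apply Finset.sum_congr rfl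
      intro k _
      rw [map_smul, smul_eq_mul]
    have e3 : ∀ k, starRingEnd ℂ (g ((Yop ^ k) e0)) = - g ((Yop ^ k) e0) := by
      intro k
      apply Complex.ext
      · rw [Complex.conj_re, Complex.neg_re, h k, neg_zero]
      · rw [Complex.conj_im, Complex.neg_im]
    rw [e1, e2, map_add, map_sum, map_mul, map_pow, Complex.conj_conj]
    have e4 : ∑ k ∈ Finset.range n, starRingEnd ℂ ((starRingEnd ℂ z) ^ k * g ((Yop ^ k) e0)) =
        - ∑ k ∈ Finset.range n, z ^ k * g ((Yop ^ k) e0) := by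
      rw [← Finset.sum_neg_distrib]
      apply Finset.sum_congr rfl
      intro k _
      rw [map_mul, map_pow, Complex.conj_conj, e3]; ring
    rw [e4]; ring
  have bd : ∀ n : ℕ, ‖g (kv z h1) + starRingEnd ℂ (g (kv (starRingEnd ℂ z) h2))‖ ≤
      (2 * ‖z‖) ^ n * (‖g‖ * (‖kv z h1‖ + ‖kv (starRingEnd ℂ z) h2‖)) := by
    intro n
    rw [key n, norm_mul, norm_pow]
    have hY : ∀ x : E2, ‖(Yop ^ n) x‖ ≤ 2 ^ n * ‖x‖ := by
      intro x
      induction n generalizing x with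
      | zero => simp
      | succ n ih =>
        rw [pow_succ]
        refine (ih (Yop x)).trans ?_
        have := (Yop.le_opNorm x).trans (mul_le_mul_of_nonneg_right norm_Y_le (norm_nonneg x))
        rw [pow_succ, mul_assoc]
        gcongr
    have hg : ∀ x : E2, ‖g ((Yop ^ n) x)‖ ≤ ‖g‖ * (2 ^ n * ‖x‖) := by
      intro x
      exact (g.le_opNorm _).trans (mul_le_mul_of_nonneg_left (hY x) (norm_nonneg _))
    have t1 := hg (kv z h1)
    have t2 := hg (kv (starRingEnd ℂ z) h2)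
    have t3 := norm_add_le (g ((Yop ^ n) (kv z h1))) (starRingEnd ℂ (g ((Yop ^ n) (kv (starRingEnd ℂ z) h2))))
    rw [Complex.norm_conj] at t3
    have t4 : 0 ≤ ‖z‖ ^ n := by positivity
    calc ‖z‖ ^ n * ‖g ((Yop ^ n) (kv z h1)) + starRingEnd ℂ (g ((Yop ^ n) (kv (starRingEnd ℂ z) h2)))‖
        ≤ ‖z‖ ^ n * (‖g‖ * (2 ^ n * ‖kv z h1‖) + ‖g‖ * (2 ^ n * ‖kv (starRingEnd ℂ z) h2‖)) := by
          apply mul_le_mul_of_nonneg_left _ t4
          linarith
      _ = _ := by rw [mul_pow]; ring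
  have ht : Tendsto (fun n : ℕ => (2 * ‖z‖) ^ n * (‖g‖ * (‖kv z h1‖ + ‖kv (starRingEnd ℂ z) h2‖))) atTop
      (𝓝 (0 * (‖g‖ * (‖kv z h1‖ + ‖kv (starRingEnd ℂ z) h2‖)))) := by
    apply Tendsto.mul_const
    exact tendsto_pow_atTop_nhds_zero_of_lt_one (by positivity) (by linarith)
  rw [zero_mul] at ht
  have := ge_of_tendsto ht (Eventually.of_forall bd)
  exact norm_le_zero_iff.mp this

end Pool.Agent.X207.CC
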