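import Mathlib
import Pool.Agent.X207.CC7
open scoped ENNReal InnerProductSpace
open Filter Topology
namespace Pool.Agent.X207.CC

noncomputable def Gx (x : E2) (z : ℂ) : ℂ := (1 / dn z) * ev x (lam z)

lemma Gx_diff (x : E2) {z : ℂ} (hz : -(1 / 2) < z.im) : DifferentiableAt ℂ (Gx x) z := by
  have hd := dn_ne hz
  have h1 : DifferentiableAt ℂ dn z := by unfold dn; fun_prop
  have h2 : DifferentiableAt ℂ lam z := by
    unfold lam
    exact DifferentiableAt.div (by fun_prop) h1 hd
  have h3 : DifferentiableAt ℂ (ev x) (lam z) :=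
    ((diff_ev x) (lam z) (by rw [mem_ball_zero_iff]; exact lam_lt hz)).differentiableAt
      (Metric.isOpen_ball.mem_nhds (by rw [mem_ball_zero_iff]; exact lam_lt hz))
  exact ((differentiableAt_const _).div h1 hd).mul (h3.comp z h2)

lemma Gx_bound (x : E2) {z : ℂ} (hz : -(1 / 2) < z.im) :
    ‖Gx x z‖ ^ 2 * (1 + 2 * z.im) ≤ ‖x‖ ^ 2 := by
  have h0 : ‖dn z‖ ≠ 0 := norm_ne_zero_iff.mpr (dn_ne hz)
  have h1 := ev_bound x (lam_lt hz)
  have e : ‖Gx x z‖ ^ 2 * (1 + 2 * z.im) = ‖ev x (lam z)‖ ^ 2 * (1 - ‖lam z‖ ^ 2) := by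
    rw [← lam_id hz]
    unfold Gx
    rw [norm_mul, norm_div, norm_one]
    field_simp
  rw [e]; exact h1

lemma Gx_inner (f : E2) {z : ℂ} (hz : -(1 / 2) < z.im) : ⟪f, kv z hz⟫_ℂ = Gx (star f) z := by
  unfold Gx kv ev
  rw [inner_smul_right, lp.inner_eq_tsum]
  congr 1
  apply tsum_congr
  intro n
  rw [kz_apply, Complex.conj_conj]
  simp [mul_comm]

lemma Gx_zero (x : E2)
    (hs : ∀ z : ℂ, ‖z‖ < 1 / 2 → Gx x z + starRingEnd ℂ (Gx x (starRingEnd ℂ z)) = 0) : x = 0 := by
  set Gs : ℂ → ℂ := fun z => starRingEnd ℂ (Gx x (starRingEnd ℂ z)) with hGs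
  have hGs_diff : ∀ z : ℂ, z.im < 1 / 2 → DifferentiableAt ℂ Gs z := by
    intro z hz
    have h1 : DifferentiableAt ℂ (Gx x) (starRingEnd ℂ z) :=
      Gx_diff x (by rw [Complex.conj_im]; linarith)
    have := differentiableAt_conj_conj_iff.mpr h1
    exact this
  set F : ℂ → ℂ := fun z => Gx x z + Gs z with hF
  set V : Set ℂ := {z | -(1 / 2) < z.im} ∩ {z | z.im < 1 / 2} with hV
  have hVo : IsOpen V := (isOpen_lt continuous_const Complex.continuous_im).inter
    (isOpen_lt Complex.continuous_im continuous_const)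
  have hVc : Convex ℝ V := (convex_halfSpace_im_gt _).inter (convex_halfSpace_im_lt _)
  have hFd : DifferentiableOn ℂ F V := by
    intro z hz
    exact ((Gx_diff x hz.1).add (hGs_diff z hz.2)).differentiableWithinAt
  have hFa : AnalyticOnNhd ℂ F V := hFd.analyticOnNhd hVo
  have h0V : (0 : ℂ) ∈ V := by
    refine ⟨?_, ?_⟩ <;> simp
  have hev : F =ᶠ[𝓝 0] 0 := by
    filter_upwards [Metric.ball_mem_nhds (0 : ℂ) (show (0 : ℝ) < 1 / 2 by norm_num)] with z hz
    rw [mem_ball_zero_iff] at hz
    exact hs z hz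
  have hF0 := hFa.eqOn_zero_of_preconnected_of_eventuallyEq_zero hVc.isPreconnected h0V hev
  set H : ℂ → ℂ := fun z => if 0 ≤ z.im then Gx x z else - Gs z with hH
  have hHd : Differentiable ℂ H := by
    intro z
    rcases lt_or_ge (-(1 / 2)) z.im with hz | hz
    · have he : H =ᶠ[𝓝 z] Gx x := by
        have ho : {w : ℂ | -(1 / 2) < w.im} ∈ 𝓝 z :=
          (isOpen_lt continuous_const Complex.continuous_im).mem_nhds hz
        filter_upwards [ho] with w hw
        simp only [hH]
        split_ifs with h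
        · rfl
        · push Not at h
          have := hF0 (show w ∈ V from ⟨hw, by show w.im < 1 / 2; linarith⟩)
          simp only [hF, Pi.zero_apply] at this
          linear_combination -this
      exact he.differentiableAt_iff.mpr (Gx_diff x hz)
    · have he : H =ᶠ[𝓝 z] fun w => - Gs w := by
        have ho : {w : ℂ | w.im < 0} ∈ 𝓝 z :=
          (isOpen_lt Complex.continuous_im continuous_const).mem_nhds
            (show z.im < 0 by linarith)
        filter_upwards [ho] with w hw
        simp only [hH]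
        rw [if_neg (not_le.mpr hw)]
      exact he.differentiableAt_iff.mpr (hGs_diff z (by linarith)).neg
  have hHb : ∀ z, ‖H z‖ ≤ ‖x‖ := by
    intro z
    simp only [hH]
    split_ifs with h
    · have := Gx_bound x (z := z) (by linarith)
      apply le_of_sq_le_sq _ (norm_nonneg _)
      nlinarith [sq_nonneg ‖Gx x z‖]
    · push Not at h
      rw [norm_neg, hGs]
      simp only
      rw [Complex.norm_conj]
      have := Gx_bound x (z := starRingEnd ℂ z) (by rw [Complex.conj_im]; linarith)
      rw [Complex.conj_im] at this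
      apply le_of_sq_le_sq _ (norm_nonneg _)
      nlinarith [sq_nonneg ‖Gx x (starRingEnd ℂ z)‖]
  have hbd : Bornology.IsBounded (Set.range H) := by
    rw [isBounded_iff_forall_norm_le]
    refine ⟨‖x‖, ?_⟩
    rintro _ ⟨z, rfl⟩
    exact hHb z
  have hconst := hHd.apply_eq_apply_of_bounded hbd
  have hH0 : H 0 = 0 := by
    by_contra hne
    have hpos : 0 < ‖H 0‖ ^ 2 := by
      have := norm_pos_iff.mpr hne
      positivity
    set y : ℝ := ‖x‖ ^ 2 / ‖H 0‖ ^ 2 with hy
    have hy0 : 0 ≤ y := by positivity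
    have e1 : H ((y : ℂ) * Complex.I) = H 0 := hconst _ _
    have him : ((y : ℂ) * Complex.I).im = y := by simp
    have e2 : H ((y : ℂ) * Complex.I) = Gx x ((y : ℂ) * Complex.I) := by
      simp only [hH]
      rw [if_pos (by rw [him]; exact hy0)]
    have h3 := Gx_bound x (z := (y : ℂ) * Complex.I) (by rw [him]; linarith)
    rw [← e2, e1, him] at h3
    have h4 : ‖H 0‖ ^ 2 * y = ‖x‖ ^ 2 := by
      rw [hy]; field_simp
    nlinarith [sq_nonneg ‖x‖]
  by_contra hx
  obtain ⟨c, hc0, hc1, hc⟩ := exists_ev_ne hx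
  set t : ℝ := c / (1 - c) with ht
  have h1c : 0 < 1 - c := by linarith
  have ht0 : 0 ≤ t := by positivity
  have him : ((t : ℂ) * Complex.I).im = t := by simp
  have e1 : H ((t : ℂ) * Complex.I) = 0 := by rw [hconst _ 0, hH0]
  have e2 : H ((t : ℂ) * Complex.I) = Gx x ((t : ℂ) * Complex.I) := by
    simp only [hH]
    rw [if_pos (by rw [him]; exact ht0)]
  rw [e2] at e1
  have hd : dn ((t : ℂ) * Complex.I) = ((1 + t : ℝ) : ℂ) := by
    unfold dn
    push_cast
    linear_combination -(t : ℂ) * Complex.I_mul_I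
  have hl : lam ((t : ℂ) * Complex.I) = (c : ℂ) := by
    unfold lam
    rw [hd]
    have h5 : -Complex.I * ((t : ℂ) * Complex.I) = ((t : ℝ) : ℂ) := by
      linear_combination -(t : ℂ) * Complex.I_mul_I
    rw [h5, ← Complex.ofReal_div]
    congr 1
    rw [ht]
    field_simp
    ring
  unfold Gx at e1
  rw [hl, hd] at e1
  rcases mul_eq_zero.mp e1 with h6 | h6
  · have : ((1 + t : ℝ) : ℂ) ≠ 0 := by
      have : (1 + t : ℝ) ≠ 0 := by positivity
      exact_mod_cast this
    exact absurd h6 (by rw [one_div]; exact inv_ne_zero this)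
  · exact hc h6

theorem fun_zero (g : E2 →L[ℂ] ℂ) (h : ∀ n : ℕ, (g ((Yop ^ n) e0)).re = 0) : g = 0 := by
  set f : E2 := (InnerProductSpace.toDual ℂ E2).symm g with hf
  have hgf : ∀ y, g y = ⟪f, y⟫_ℂ := by
    intro y
    rw [hf, InnerProductSpace.toDual_symm_apply]
  have hx : star f = 0 := by
    apply Gx_zero
    intro z hz
    have h1 : -(1 / 2) < z.im := by
      have := Complex.abs_im_le_norm z
      have := neg_abs_le z.im
      linarith
    have h2 : -(1 / 2) < (starRingEnd ℂ z).im := by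
      rw [Complex.conj_im]
      have := Complex.abs_im_le_norm z
      have := le_abs_self z.im
      linarith
    have h3 := anti g h hz h1 h2
    rw [hgf, hgf, Gx_inner, Gx_inner] at h3
    exact h3
  have hf0 : f = 0 := by
    rw [← star_star f, hx, star_zero]
  ext y
  rw [hgf, hf0, inner_zero_left]
  rfl

theorem negA_dense : Dense (convexHull ℝ (orb (-Aop) e0)) := by
  by_contra hd
  rw [dense_iff_closure_eq] at hd
  obtain ⟨y, hy⟩ : ∃ y, y ∉ closure (convexHull ℝ (orb (-Aop) e0)) := by
    by_contra hc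
    push Not at hc
    exact hd (Set.eq_univ_of_forall hc)
  obtain ⟨g, u, hu1, hu2⟩ := RCLike.geometric_hahn_banach_closed_point (𝕜 := ℂ)
    (convex_convexHull ℝ (orb (-Aop) e0)).closure isClosed_closure hy
  have hg : g = 0 := by
    apply fun_zero
    apply moments g u
    intro k
    apply le_of_lt
    apply hu1
    apply subset_closure
    apply subset_convexHull
    exact ⟨k, rfl⟩
  have h3 : (0 : ℝ) < u := by
    have := hu1 e0 (subset_closure (subset_convexHull ℝ _ ⟨0, by simp⟩))
    rw [hg] at this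
    simpa using this
  rw [hg] at hu2
  have : u < 0 := by simpa using hu2
  linarith

end Pool.Agent.X207.CC
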