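import Mathlib
open MeasureTheory Filter Topology
open scoped ENNReal
namespace Pool.Agent.X207.KV

section Abstract
variable {X : Type*} [NormedAddCommGroup X] [NormedSpace ℝ X]

/-- contraction `C₀` semigroup data -/
structure CS (J : ℝ → (X →L[ℝ] X)) : Prop where
  zero : J 0 = 1
  add : ∀ s t, 0 ≤ s → 0 ≤ t → J (s + t) = J s * J t
  cont : ∀ f, Tendsto (fun t => J t f) (𝓝[>] 0) (𝓝 f)
  contr : ∀ t, 0 ≤ t → ∀ f, ‖J t f‖ ≤ ‖f‖

lemma CS.dist_le {J : ℝ → (X →L[ℝ] X)} (hJ : CS J) (f : X) {s t : ℝ} (hs : 0 ≤ s) (hst : s ≤ t) :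
    ‖J t f - J s f‖ ≤ ‖J (t - s) f - f‖ := by
  have h : J t = J s * J (t - s) := by
    rw [← hJ.add s (t - s) hs (by linarith)]
    congr 1; ring
  have e : J t f - J s f = J s (J (t - s) f - f) := by
    rw [h, map_sub]; rfl
  rw [e]
  exact hJ.contr s hs _

lemma CS.contOn {J : ℝ → (X →L[ℝ] X)} (hJ : CS J) (f : X) :
    ContinuousOn (fun t => J t f) (Set.Ici 0) := by
  have h0 : Tendsto (fun t => ‖J t f - f‖) (𝓝[≥] 0) (𝓝 0) := by
    have h1 : Tendsto (fun t => J t f) (𝓝[≥] 0) (𝓝 f) := by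
      have : ContinuousWithinAt (fun t => J t f) (Set.Ioi 0) 0 := by
        have := hJ.cont f
        unfold ContinuousWithinAt
        show Tendsto (fun t => J t f) (𝓝[>] 0) (𝓝 (J 0 f))
        rw [hJ.zero]
        exact this
      have h2 := (continuousWithinAt_Ioi_iff_Ici (f := fun t => J t f) (a := (0 : ℝ))).mp this
      unfold ContinuousWithinAt at h2
      change Tendsto (fun t => J t f) (𝓝[≥] 0) (𝓝 (J 0 f)) at h2
      rw [hJ.zero] at h2
      exact h2
    have := (h1.sub_const f).norm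
    simpa using this
  intro s hs
  have hs' : (0 : ℝ) ≤ s := hs
  unfold ContinuousWithinAt
  rw [tendsto_iff_norm_sub_tendsto_zero]
  have h3 : Tendsto (fun t : ℝ => ‖J |t - s| f - f‖) (𝓝[Set.Ici 0] s) (𝓝 0) := by
    apply h0.comp
    rw [tendsto_nhdsWithin_iff]
    refine ⟨?_, Eventually.of_forall fun t => Set.mem_Ici.mpr (abs_nonneg _)⟩
    have : Tendsto (fun t : ℝ => |t - s|) (𝓝 s) (𝓝 |s - s|) := by
      apply Continuous.tendsto; fun_prop
    rw [sub_self, abs_zero] at this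
    exact this.mono_left nhdsWithin_le_nhds
  refine squeeze_zero' (Eventually.of_forall fun t => norm_nonneg _) ?_ h3
  filter_upwards [self_mem_nhdsWithin] with t ht
  have ht' : (0 : ℝ) ≤ t := ht
  rcases le_total s t with h | h
  · rw [abs_of_nonneg (by linarith)]
    exact hJ.dist_le f hs' h
  · rw [abs_of_nonpos (by linarith), norm_sub_rev, neg_sub]
    exact hJ.dist_le f ht' h

lemma CS.deriv {J : ℝ → (X →L[ℝ] X)} (hJ : CS J) {f g : X}
    (hg : Tendsto (fun t : ℝ => t⁻¹ • (J t f - f)) (𝓝[>] 0) (𝓝 g)) {s : ℝ} (hs : 0 ≤ s) :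
    HasDerivWithinAt (fun t => J t f) (J s g) (Set.Ici s) s := by
  rw [← hasDerivWithinAt_Ioi_iff_Ici, hasDerivWithinAt_iff_tendsto_slope' (by simp)]
  have h1 : Tendsto (fun t : ℝ => t - s) (𝓝[>] s) (𝓝[>] 0) := by
    rw [tendsto_nhdsWithin_iff]
    constructor
    · have : Tendsto (fun t : ℝ => t - s) (𝓝 s) (𝓝 (s - s)) := by
        apply Continuous.tendsto; fun_prop
      rw [sub_self] at this
      exact this.mono_left nhdsWithin_le_nhds
    · filter_upwards [self_mem_nhdsWithin] with t ht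
      have : s < t := ht
      show 0 < t - s
      linarith
  have h2 := ((J s).continuous.tendsto g).comp (hg.comp h1)
  refine h2.congr' ?_
  filter_upwards [self_mem_nhdsWithin] with t ht
  have hts : s < t := ht
  simp only [Function.comp_apply, slope_def_module]
  rw [map_smul, map_sub]
  congr 2
  have : J t = J s * J (t - s) := by
    rw [← hJ.add s (t - s) hs (by linarith)]
    congr 1; ring
  rw [this]; rfl

theorem uniq {J J' : ℝ → (X →L[ℝ] X)} (hJ : CS J) (hJ' : CS J') (B : X →L[ℝ] X) (D : Set X)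
    (hD : Dense D)
    (h1 : ∀ f ∈ D, Tendsto (fun t : ℝ => t⁻¹ • (J t f - f)) (𝓝[>] 0) (𝓝 (B f)))
    (h2 : ∀ f ∈ D, Tendsto (fun t : ℝ => t⁻¹ • (J' t f - f)) (𝓝[>] 0) (𝓝 (B f))) :
    ∀ t, 0 ≤ t → J t = J' t := by
  have key : ∀ n : ℕ, ∀ t, 0 ≤ t → ∀ f, ‖J t f - J' t f‖ ≤ 2 * ((‖B‖ * t) ^ n / n.factorial) * ‖f‖ := by
    intro n
    induction n with
    | zero =>
      intro t ht f
      have := hJ.contr t ht f
      have := hJ'.contr t ht f
      have := norm_sub_le (J t f) (J' t f)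
      simp
      linarith
    | succ n ih =>
      intro t ht
      have hfD : ∀ f ∈ D, ‖J t f - J' t f‖ ≤ 2 * ((‖B‖ * t) ^ (n + 1) / (n + 1).factorial) * ‖f‖ := by
        intro f hf
        have hc : ContinuousOn (fun s => J s f - J' s f) (Set.Icc 0 t) :=
          ((hJ.contOn f).sub (hJ'.contOn f)).mono Set.Icc_subset_Ici_self
        have hd : ∀ s ∈ Set.Ico (0 : ℝ) t, HasDerivWithinAt (fun s => J s f - J' s f)
            (J s (B f) - J' s (B f)) (Set.Ici s) s := by
          intro s hs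
          exact (hJ.deriv (h1 f hf) hs.1).sub (hJ'.deriv (h2 f hf) hs.1)
        have hB : ∀ s : ℝ, HasDerivAt (fun s : ℝ => 2 * ((‖B‖) ^ n * s ^ (n + 1) / (n + 1).factorial) * ‖B f‖)
            (2 * ((‖B‖ * s) ^ n / n.factorial) * ‖B f‖) s := by
          intro s
          have e1 := ((hasDerivAt_pow (n + 1) s).const_mul (‖B‖ ^ n)).div_const ((n + 1).factorial : ℝ)
          have e2 := (e1.const_mul 2).mul_const ‖B f‖
          refine e2.congr_deriv ?_
          have hn : ((n + 1).factorial : ℝ) = (n + 1) * n.factorial := by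
            rw [Nat.factorial_succ]; push_cast; ring
          have hn0 : (n.factorial : ℝ) ≠ 0 := by positivity
          have hn1 : (n : ℝ) + 1 ≠ 0 := by positivity
          rw [hn, mul_pow]
          simp only [Nat.add_sub_cancel]
          push_cast
          field_simp
        have hfin := image_norm_le_of_norm_deriv_right_le_deriv_boundary hc hd
          (B := fun s : ℝ => 2 * ((‖B‖) ^ n * s ^ (n + 1) / (n + 1).factorial) * ‖B f‖)
          (B' := fun s : ℝ => 2 * ((‖B‖ * s) ^ n / n.factorial) * ‖B f‖)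
          (by simp [hJ.zero, hJ'.zero]) hB (fun s hs => ih s hs.1 (B f)) (Set.right_mem_Icc.mpr ht)
        refine hfin.trans ?_
        have hBf := B.le_opNorm f
        calc 2 * (‖B‖ ^ n * t ^ (n + 1) / (n + 1).factorial) * ‖B f‖
            ≤ 2 * (‖B‖ ^ n * t ^ (n + 1) / (n + 1).factorial) * (‖B‖ * ‖f‖) := by gcongr
          _ = _ := by rw [mul_pow, pow_succ ‖B‖]; ring
      intro f
      have hcl : IsClosed {f : X | ‖J t f - J' t f‖ ≤ 2 * ((‖B‖ * t) ^ (n + 1) / (n + 1).factorial) * ‖f‖} := by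
        apply isClosed_le <;> fun_prop
      exact closure_minimal hfD hcl (hD f)
  intro t ht
  ext f
  have hlim : Tendsto (fun n : ℕ => 2 * ((‖B‖ * t) ^ n / n.factorial) * ‖f‖) atTop (𝓝 (2 * 0 * ‖f‖)) :=
    ((FloorSemiring.tendsto_pow_div_factorial_atTop (‖B‖ * t)).const_mul 2).mul_const _
  have h3 := ge_of_tendsto hlim (Eventually.of_forall fun n => key n t ht f)
  have h4 : ‖J t f - J' t f‖ ≤ 0 := by simpa using h3
  exact sub_eq_zero.mp (norm_le_zero_iff.mp h4)

end Abstract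

end Pool.Agent.X207.KV
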