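import Mathlib
import Pool.Agent.X207.KV1
open MeasureTheory Filter Topology
open scoped ENNReal
namespace Pool.Agent.X207.KV

section Defs
variable {Ξ : Type*} [MeasurableSpace Ξ] (ν : Measure Ξ)

/-- `J` is a substochastic (positive and contractive) `C₀`-semigroup on the real space `L¹(ν)`
(only the values at `t ≥ 0` matter) -/
structure IsSubstochastic (J : ℝ → (Lp ℝ 1 ν →L[ℝ] Lp ℝ 1 ν)) : Prop where
  zero : J 0 = 1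
  add : ∀ s t, 0 ≤ s → 0 ≤ t → J (s + t) = J s * J t
  cont : ∀ f, Tendsto (fun t => J t f) (𝓝[>] 0) (𝓝 f)
  pos : ∀ t, 0 ≤ t → ∀ f, 0 ≤ f → 0 ≤ J t f
  contr : ∀ t, 0 ≤ t → ∀ f, ‖J t f‖ ≤ ‖f‖

/-- the graph of the generator of `J` -/
def gen (J : ℝ → (Lp ℝ 1 ν →L[ℝ] Lp ℝ 1 ν)) : Set (Lp ℝ 1 ν × Lp ℝ 1 ν) :=
  {p | Tendsto (fun t : ℝ => t⁻¹ • (J t p.1 - p.1)) (𝓝[>] 0) (𝓝 p.2)}

/-- the graph of `M₁ + P` on `D(M₁)`, where `M₁` is the generator of `M` -/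
def sumGraph (M : ℝ → (Lp ℝ 1 ν →L[ℝ] Lp ℝ 1 ν)) (P : Lp ℝ 1 ν →ₗ.[ℝ] Lp ℝ 1 ν) :
    Set (Lp ℝ 1 ν × Lp ℝ 1 ν) :=
  {p | ∃ g k, (p.1, g) ∈ gen ν M ∧ (p.1, k) ∈ P.graph ∧ p.2 = g + k}

/-- `M` is a substochastic `C₀`-semigroup with generator `M₁`, `P` is a positive operator with
`D(M₁) ⊆ D(P)` and `∫ (M₁ φ + P φ) dν ≤ 0` for `0 ≤ φ ∈ D(M₁)`, and `J` is the Kato-Voigt semigroup:
the minimal substochastic `C₀`-semigroup whose generator extends `M₁ + P` -/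
structure IsKatoVoigt (M : ℝ → (Lp ℝ 1 ν →L[ℝ] Lp ℝ 1 ν)) (P : Lp ℝ 1 ν →ₗ.[ℝ] Lp ℝ 1 ν)
    (J : ℝ → (Lp ℝ 1 ν →L[ℝ] Lp ℝ 1 ν)) : Prop where
  subM : IsSubstochastic ν M
  dom : ∀ p ∈ gen ν M, p.1 ∈ P.domain
  posP : ∀ p ∈ P.graph, 0 ≤ p.1 → 0 ≤ p.2
  diss : ∀ p ∈ sumGraph ν M P, 0 ≤ p.1 → ∫ x, p.2 x ∂ν ≤ 0
  subJ : IsSubstochastic ν J
  ext : sumGraph ν M P ⊆ gen ν J
  minimal : ∀ J', IsSubstochastic ν J' → sumGraph ν M P ⊆ gen ν J' →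
    ∀ t, 0 ≤ t → ∀ f, 0 ≤ f → J t f ≤ J' t f

/-- honest: `J₁` is the closure of `M₁ + P` -/
def Honest (M : ℝ → (Lp ℝ 1 ν →L[ℝ] Lp ℝ 1 ν)) (P : Lp ℝ 1 ν →ₗ.[ℝ] Lp ℝ 1 ν)
    (J : ℝ → (Lp ℝ 1 ν →L[ℝ] Lp ℝ 1 ν)) : Prop := gen ν J = closure (sumGraph ν M P)

/-- genuinely honest: `J₁ = M₁ + P` -/
def GenuinelyHonest (M : ℝ → (Lp ℝ 1 ν →L[ℝ] Lp ℝ 1 ν)) (P : Lp ℝ 1 ν →ₗ.[ℝ] Lp ℝ 1 ν)
    (J : ℝ → (Lp ℝ 1 ν →L[ℝ] Lp ℝ 1 ν)) : Prop := gen ν J = sumGraph ν M P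

/-- `R = (l - M₁)⁻¹` -/
def IsResolvent (M : ℝ → (Lp ℝ 1 ν →L[ℝ] Lp ℝ 1 ν)) (l : ℝ) (R : Lp ℝ 1 ν → Lp ℝ 1 ν) : Prop :=
  (∀ f, (R f, l • R f - f) ∈ gen ν M) ∧ ∀ p ∈ gen ν M, R (l • p.1 - p.2) = p.1

/-- `K = P (0 - M₁)⁻¹`: the strong limit of `P (l - M₁)⁻¹` as `l → 0+` -/
def IsLimitOp (M : ℝ → (Lp ℝ 1 ν →L[ℝ] Lp ℝ 1 ν)) (P : Lp ℝ 1 ν →ₗ.[ℝ] Lp ℝ 1 ν)
    (K : Lp ℝ 1 ν →L[ℝ] Lp ℝ 1 ν) : Prop :=
  ∃ R S : ℝ → Lp ℝ 1 ν → Lp ℝ 1 ν, (∀ l, 0 < l → IsResolvent ν M l (R l)) ∧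
    (∀ l, 0 < l → ∀ f, (R l f, S l f) ∈ P.graph) ∧
    ∀ f, Tendsto (fun l => S l f) (𝓝[>] 0) (𝓝 (K f))

end Defs

section Mul
variable {Ξ : Type*} [MeasurableSpace Ξ] {μ : Measure Ξ}

lemma mem_mul {b : Ξ → ℝ} (hb : Measurable b) {C : ℝ} (hC : ∀ x, |b x| ≤ C) (f : Lp ℝ 1 μ) :
    MemLp (fun x => b x * f x) 1 μ := by
  rw [memLp_one_iff_integrable]
  exact (memLp_one_iff_integrable.mp (Lp.memLp f)).bdd_mul hb.aestronglyMeasurable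
    (Eventually.of_forall hC)

/-- multiplication by a bounded function -/
noncomputable def mulL (b : Ξ → ℝ) (hb : Measurable b) (C : ℝ) (hC : ∀ x, |b x| ≤ C) :
    Lp ℝ 1 μ →L[ℝ] Lp ℝ 1 μ :=
  LinearMap.mkContinuous
    { toFun := fun f => (mem_mul hb hC f).toLp _
      map_add' := by
        intro f g
        apply Lp.ext
        filter_upwards [(mem_mul hb hC (f + g)).coeFn_toLp, (mem_mul hb hC f).coeFn_toLp,
          (mem_mul hb hC g).coeFn_toLp, Lp.coeFn_add f g,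
          Lp.coeFn_add ((mem_mul hb hC f).toLp _) ((mem_mul hb hC g).toLp _)] with x h1 h2 h3 h4 h5
        rw [h1, h5, Pi.add_apply, h2, h3, h4, Pi.add_apply]; ring
      map_smul' := by
        intro c f
        apply Lp.ext
        filter_upwards [(mem_mul hb hC (c • f)).coeFn_toLp, (mem_mul hb hC f).coeFn_toLp,
          Lp.coeFn_smul c f, Lp.coeFn_smul c ((mem_mul hb hC f).toLp _)] with x h1 h2 h3 h4
        simp only [RingHom.id_apply]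
        rw [h1, h4, Pi.smul_apply, h2, h3, Pi.smul_apply, smul_eq_mul, smul_eq_mul]; ring } C
    (by
      intro f
      apply Lp.norm_le_mul_norm_of_ae_le_mul
      filter_upwards [(mem_mul hb hC f).coeFn_toLp] with x h1
      simp only [LinearMap.coe_mk, AddHom.coe_mk]
      rw [h1, norm_mul]
      exact mul_le_mul_of_nonneg_right (hC x) (norm_nonneg _))

lemma coe_mulL {b : Ξ → ℝ} (hb : Measurable b) {C : ℝ} (hC : ∀ x, |b x| ≤ C) (f : Lp ℝ 1 μ) :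
    (mulL b hb C hC f : Ξ → ℝ) =ᵐ[μ] fun x => b x * f x :=
  (mem_mul hb hC f).coeFn_toLp

lemma integrable_coe (f : Lp ℝ 1 μ) : Integrable f μ := memLp_one_iff_integrable.mp (Lp.memLp f)

lemma norm_sub_fun (F g : Lp ℝ 1 μ) {φ γ : Ξ → ℝ} (h : F =ᵐ[μ] φ) (h' : g =ᵐ[μ] γ) :
    ‖F - g‖ = ∫ x, |φ x - γ x| ∂μ := by
  rw [L1.norm_eq_integral_norm]
  apply integral_congr_ae
  filter_upwards [Lp.coeFn_sub F g, h, h'] with x h1 h2 h3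
  rw [h1, Pi.sub_apply, h2, h3]; rfl

lemma tendsto_fun {ι : Type*} {l : Filter ι} [l.IsCountablyGenerated] (F : ι → Lp ℝ 1 μ) (g : Lp ℝ 1 μ)
    (φ : ι → Ξ → ℝ) (γ : Ξ → ℝ) (hF : ∀ᶠ i in l, F i =ᵐ[μ] φ i) (hg : g =ᵐ[μ] γ)
    (bound : Ξ → ℝ) (hb : Integrable bound μ)
    (hφ : ∀ᶠ i in l, ∀ᵐ x ∂μ, |φ i x - γ x| ≤ bound x)
    (hlim : ∀ᵐ x ∂μ, Tendsto (fun i => φ i x) l (𝓝 (γ x))) : Tendsto F l (𝓝 g) := by
  rw [tendsto_iff_norm_sub_tendsto_zero]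
  have h1 : Tendsto (fun i => ∫ x, |φ i x - γ x| ∂μ) l (𝓝 (∫ x, (0 : ℝ) ∂μ)) := by
    apply tendsto_integral_filter_of_dominated_convergence bound
    · filter_upwards [hF] with i hi
      have : AEStronglyMeasurable (fun x => φ i x - γ x) μ :=
        ((Lp.aestronglyMeasurable (F i)).congr hi).sub ((Lp.aestronglyMeasurable g).congr hg)
      exact this.norm
    · filter_upwards [hφ] with i hi
      filter_upwards [hi] with x hx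
      rw [Real.norm_eq_abs, abs_abs]; exact hx
    · exact hb
    · filter_upwards [hlim] with x hx
      have := (hx.sub_const (γ x)).abs
      simpa using this
  rw [integral_zero] at h1
  refine h1.congr' ?_
  filter_upwards [hF] with i hi
  exact (norm_sub_fun (F i) g hi hg).symm

end Mul

end Pool.Agent.X207.KV
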