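import Mathlib
import Pool.Agent.X207.KV2
open MeasureTheory Filter Topology
open scoped ENNReal
namespace Pool.Agent.X207.KV

variable {Ξ : Type*} [MeasurableSpace Ξ] {μ : Measure Ξ}

/-- total mass functional -/
noncomputable def mass : Lp ℝ 1 μ →L[ℝ] ℝ := L1.integralCLM

lemma mass_apply (f : Lp ℝ 1 μ) : mass f = ∫ x, f x ∂μ := by
  rw [← L1.integral_eq_integral, L1.integral_eq]; rfl

lemma abs_mass_le (f : Lp ℝ 1 μ) : |mass f| ≤ ‖f‖ := by
  rw [mass_apply, L1.norm_eq_integral_norm]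
  exact norm_integral_le_integral_norm (μ := μ) (fun x => f x)

variable [IsProbabilityMeasure μ]

/-- the constant function one -/
noncomputable def one1 : Lp ℝ 1 μ := Lp.const 1 μ (1 : ℝ)

lemma coe_one1 : (one1 (μ := μ) : Ξ → ℝ) =ᵐ[μ] fun _ => (1 : ℝ) := Lp.coeFn_const 1 μ (1 : ℝ)

lemma norm_one1 : ‖(one1 : Lp ℝ 1 μ)‖ = 1 := by
  rw [L1.norm_eq_integral_norm]
  have : ∫ x, ‖(one1 : Lp ℝ 1 μ) x‖ ∂μ = ∫ x, (1 : ℝ) ∂μ := by
    apply integral_congr_ae
    filter_upwards [coe_one1 (μ := μ)] with x hx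
    rw [hx]; simp
  rw [this]; simp

lemma mass_one1 : mass (one1 : Lp ℝ 1 μ) = 1 := by
  rw [mass_apply]
  have : ∫ x, (one1 : Lp ℝ 1 μ) x ∂μ = ∫ x, (1 : ℝ) ∂μ := by
    apply integral_congr_ae
    filter_upwards [coe_one1 (μ := μ)] with x hx
    rw [hx]
  rw [this]; simp

/-- the projection `f ↦ (∫ f) 1` -/
noncomputable def Q : Lp ℝ 1 μ →L[ℝ] Lp ℝ 1 μ := (mass (μ := μ)).smulRight one1

lemma Q_apply (f : Lp ℝ 1 μ) : Q f = mass f • (one1 : Lp ℝ 1 μ) := rfl

lemma coe_Q (f : Lp ℝ 1 μ) : (Q f : Ξ → ℝ) =ᵐ[μ] fun _ => mass f := by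
  filter_upwards [Lp.coeFn_smul (mass f) (one1 : Lp ℝ 1 μ), coe_one1 (μ := μ)] with x h1 h2
  rw [Q_apply, h1, Pi.smul_apply, h2, smul_eq_mul, mul_one]

lemma Q_Q (f : Lp ℝ 1 μ) : Q (Q f) = Q f := by
  rw [Q_apply (Q f), Q_apply f, map_smul, mass_one1, smul_eq_mul, mul_one]

lemma norm_Q_le (f : Lp ℝ 1 μ) : ‖Q f‖ ≤ ‖f‖ := by
  rw [Q_apply, norm_smul, norm_one1, mul_one]
  exact abs_mass_le f

lemma mass_Q (f : Lp ℝ 1 μ) : mass (Q f) = mass f := by
  rw [Q_apply, map_smul, mass_one1, smul_eq_mul, mul_one]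

lemma mass_nonneg {f : Lp ℝ 1 μ} (hf : 0 ≤ f) : 0 ≤ mass f := by
  rw [mass_apply]
  apply integral_nonneg_of_ae
  exact (Lp.coeFn_nonneg f).mpr hf

/-- the semigroup `e^{-t} + (1 - e^{-t}) Q` -/
noncomputable def Js (t : ℝ) : Lp ℝ 1 μ →L[ℝ] Lp ℝ 1 μ :=
  Real.exp (-t) • (1 : Lp ℝ 1 μ →L[ℝ] Lp ℝ 1 μ) + (1 - Real.exp (-t)) • Q

lemma Js_apply (t : ℝ) (f : Lp ℝ 1 μ) : Js t f = Real.exp (-t) • f + (1 - Real.exp (-t)) • Q f := rfl

lemma coe_Js (t : ℝ) (f : Lp ℝ 1 μ) :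
    (Js t f : Ξ → ℝ) =ᵐ[μ] fun x => Real.exp (-t) * f x + (1 - Real.exp (-t)) * mass f := by
  filter_upwards [Lp.coeFn_add (Real.exp (-t) • f) ((1 - Real.exp (-t)) • Q f),
    Lp.coeFn_smul (Real.exp (-t)) f, Lp.coeFn_smul (1 - Real.exp (-t)) (Q f), coe_Q f] with x h1 h2 h3 h4
  rw [Js_apply, h1, Pi.add_apply, h2, h3, Pi.smul_apply, Pi.smul_apply, h4, smul_eq_mul, smul_eq_mul]

lemma slope_exp (y : ℝ) : Tendsto (fun t : ℝ => t⁻¹ * (Real.exp (-(t * y)) - 1)) (𝓝[>] 0) (𝓝 (-y)) := by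
  have h : HasDerivAt (fun t : ℝ => Real.exp (-(t * y))) (Real.exp (-((0 : ℝ) * y)) * (-(1 * y))) 0 :=
    (((hasDerivAt_id (0 : ℝ)).mul_const y).neg).exp
  rw [zero_mul, neg_zero, Real.exp_zero, one_mul, one_mul] at h
  have h2 := h.tendsto_slope_zero_right
  refine h2.congr ?_
  intro t
  simp

lemma slope_bound {t y : ℝ} (ht : 0 < t) (hy : 0 ≤ y) : |t⁻¹ * (Real.exp (-(t * y)) - 1)| ≤ y := by
  have h1 : Real.exp (-(t * y)) ≤ 1 := by
    rw [Real.exp_le_one_iff]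
    have := mul_nonneg ht.le hy
    linarith
  have h2 : 1 - t * y ≤ Real.exp (-(t * y)) := by
    have := Real.add_one_le_exp (-(t * y))
    linarith
  rw [abs_mul, abs_of_pos (inv_pos.mpr ht), abs_of_nonpos (by linarith), inv_mul_le_iff₀ ht]
  linarith

lemma Js_gen (f : Lp ℝ 1 μ) :
    Tendsto (fun t : ℝ => t⁻¹ • (Js t f - f)) (𝓝[>] 0) (𝓝 (Q f - f)) := by
  have h := (slope_exp 1).smul_const (f - Q f)
  have e : (-1 : ℝ) • (f - Q f) = Q f - f := by module
  rw [e] at h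
  refine h.congr ?_
  intro t
  rw [Js_apply, mul_one]
  module

lemma Js_sub : IsSubstochastic μ (Js (μ := μ)) where
  zero := by
    ext f
    have := Js_apply (μ := μ) 0 f
    rw [this]
    simp
  add := by
    intro s t _ _
    ext1 f
    show Js (s + t) f = Js s (Js t f)
    rw [Js_apply, Js_apply, Js_apply, map_add, map_smul, map_smul, Q_Q, neg_add, Real.exp_add]
    module
  cont := by
    intro f
    have h : Tendsto (fun t : ℝ => Real.exp (-t)) (𝓝[>] 0) (𝓝 (Real.exp (-0))) := by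
      apply Tendsto.mono_left _ nhdsWithin_le_nhds
      apply Continuous.tendsto
      fun_prop
    rw [neg_zero, Real.exp_zero] at h
    have h2 := (h.smul_const f).add ((tendsto_const_nhds (x := (1 : ℝ))).sub h |>.smul_const (Q f))
    simpa [Js_apply] using h2
  pos := by
    intro t ht f hf
    rw [← Lp.coeFn_nonneg]
    have h1 : Real.exp (-t) ≤ 1 := by rw [Real.exp_le_one_iff]; linarith
    have h2 := mass_nonneg hf
    filter_upwards [coe_Js t f, (Lp.coeFn_nonneg f).mpr hf] with x h3 h4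
    rw [h3]
    have h5 : 0 ≤ f x := h4
    have h6 : 0 ≤ 1 - Real.exp (-t) := by linarith
    have h7 := (Real.exp_pos (-t)).le
    show 0 ≤ _
    positivity
  contr := by
    intro t ht f
    have h1 : Real.exp (-t) ≤ 1 := by rw [Real.exp_le_one_iff]; linarith
    have h7 := (Real.exp_pos (-t)).le
    rw [Js_apply]
    have h2 := norm_add_le (Real.exp (-t) • f) ((1 - Real.exp (-t)) • Q f)
    rw [norm_smul, norm_smul, Real.norm_of_nonneg h7, Real.norm_of_nonneg (by linarith)] at h2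
    have h3 := norm_Q_le f
    nlinarith [norm_nonneg f]

variable (a : Ξ → ℝ) (ha : Measurable a) (h1 : ∀ x, 1 ≤ a x)

include h1 in
lemma bM (t : ℝ) (x : Ξ) : |Real.exp (-(|t| * a x))| ≤ 1 := by
  rw [abs_of_pos (Real.exp_pos _), Real.exp_le_one_iff]
  have := h1 x
  have := mul_nonneg (abs_nonneg t) (by linarith : 0 ≤ a x)
  linarith

/-- the multiplication semigroup `e^{-ta}` -/
noncomputable def Ms (t : ℝ) : Lp ℝ 1 μ →L[ℝ] Lp ℝ 1 μ :=
  mulL (fun x => Real.exp (-(|t| * a x))) (by fun_prop) 1 (bM a h1 t)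

lemma coe_Ms {t : ℝ} (ht : 0 ≤ t) (f : Lp ℝ 1 μ) :
    (Ms a ha h1 t f : Ξ → ℝ) =ᵐ[μ] fun x => Real.exp (-(t * a x)) * f x := by
  filter_upwards [coe_mulL (μ := μ) (b := fun x => Real.exp (-(|t| * a x))) (by fun_prop) (bM a h1 t) f]
    with x hx
  unfold Ms
  rw [hx, abs_of_nonneg ht]

lemma coe_slope {t : ℝ} (ht : 0 < t) (f : Lp ℝ 1 μ) :
    (t⁻¹ • (Ms a ha h1 t f - f) : Lp ℝ 1 μ) =ᵐ[μ] fun x => t⁻¹ * (Real.exp (-(t * a x)) - 1) * f x := by
  filter_upwards [Lp.coeFn_smul t⁻¹ (Ms a ha h1 t f - f), Lp.coeFn_sub (Ms a ha h1 t f) f,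
    coe_Ms a ha h1 ht.le f] with x h2 h3 h4
  rw [h2, Pi.smul_apply, h3, Pi.sub_apply, h4, smul_eq_mul]; ring

lemma gen_Ms_of {f g : Lp ℝ 1 μ} (hg : g =ᵐ[μ] fun x => -(a x * f x)) : (f, g) ∈ gen μ (Ms a ha h1) := by
  show Tendsto (fun t : ℝ => t⁻¹ • (Ms a ha h1 t f - f)) (𝓝[>] 0) (𝓝 g)
  apply tendsto_fun _ g (fun t x => t⁻¹ * (Real.exp (-(t * a x)) - 1) * f x) (fun x => -(a x * f x))
    _ hg (fun x => 2 * |g x|) (((integrable_coe g).norm).const_mul 2)
  · filter_upwards [self_mem_nhdsWithin] with t ht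
    filter_upwards [hg] with x hx
    have ha0 : 0 ≤ a x := by linarith [h1 x]
    have h2 := slope_bound ht ha0
    rw [hx]
    have e : t⁻¹ * (Real.exp (-(t * a x)) - 1) * f x - -(a x * f x) =
      (t⁻¹ * (Real.exp (-(t * a x)) - 1) + a x) * f x := by ring
    rw [e, abs_mul, abs_neg, abs_mul, abs_of_nonneg ha0, ← mul_assoc]
    apply mul_le_mul_of_nonneg_right _ (abs_nonneg _)
    have := abs_add_le (t⁻¹ * (Real.exp (-(t * a x)) - 1)) (a x)
    rw [abs_of_nonneg ha0] at this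
    linarith
  · filter_upwards with x
    have := (slope_exp (a x)).mul_const (f x)
    rw [neg_mul] at this
    exact this
  · filter_upwards [self_mem_nhdsWithin] with t ht
    exact coe_slope a ha h1 ht f

include ha h1 in
lemma bE (x : Ξ) : |Real.exp (-(a x))| ≤ 1 := by
  rw [abs_of_pos (Real.exp_pos _), Real.exp_le_one_iff]
  have := h1 x
  linarith

lemma gen_Ms_iff {f g : Lp ℝ 1 μ} :
    (f, g) ∈ gen μ (Ms a ha h1) ↔ g =ᵐ[μ] fun x => -(a x * f x) := by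
  refine ⟨?_, gen_Ms_of a ha h1⟩
  intro h
  have hE := (mulL (μ := μ) (fun x => Real.exp (-(a x))) (by fun_prop) 1 (bE a ha h1)).continuous.tendsto g
  have h2 := hE.comp h
  have hmeas : Measurable (fun x => -(a x) * Real.exp (-(a x))) := by fun_prop
  have hbd : ∀ x, |-(a x) * Real.exp (-(a x))| ≤ 1 := by
    intro x
    have h3 := h1 x
    rw [abs_mul, abs_neg, abs_of_nonneg (by linarith : 0 ≤ a x), abs_of_pos (Real.exp_pos _)]
    have h4 := Real.add_one_le_exp (a x)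
    rw [Real.exp_neg, ← div_eq_mul_inv, div_le_one (Real.exp_pos _)]
    linarith
  have h3 : Tendsto (fun t : ℝ => mulL (μ := μ) (fun x => Real.exp (-(a x))) (by fun_prop) 1 (bE a ha h1)
      (t⁻¹ • (Ms a ha h1 t f - f))) (𝓝[>] 0) (𝓝 (mulL (μ := μ) _ hmeas 1 hbd f)) := by
    apply tendsto_fun _ _ (fun t x => Real.exp (-(a x)) * (t⁻¹ * (Real.exp (-(t * a x)) - 1) * f x))
      (fun x => -(a x) * Real.exp (-(a x)) * f x) _ (coe_mulL hmeas hbd f)
      (fun x => 2 * |f x|) (((integrable_coe f).norm).const_mul 2)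
    · filter_upwards [self_mem_nhdsWithin] with t ht
      filter_upwards with x
      have ha0 : 0 ≤ a x := by linarith [h1 x]
      have h2 := slope_bound ht ha0
      have e : Real.exp (-(a x)) * (t⁻¹ * (Real.exp (-(t * a x)) - 1) * f x) - -(a x) * Real.exp (-(a x)) * f x =
        (Real.exp (-(a x)) * (t⁻¹ * (Real.exp (-(t * a x)) - 1)) - -(a x) * Real.exp (-(a x))) * f x := by ring
      rw [e, abs_mul]
      apply mul_le_mul_of_nonneg_right _ (abs_nonneg _)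
      have h5 := abs_sub (Real.exp (-(a x)) * (t⁻¹ * (Real.exp (-(t * a x)) - 1))) (-(a x) * Real.exp (-(a x)))
      have h6 := hbd x
      have h7 : |Real.exp (-(a x)) * (t⁻¹ * (Real.exp (-(t * a x)) - 1))| ≤ 1 := by
        rw [abs_mul]
        rw [abs_mul, abs_neg, abs_of_nonneg ha0, mul_comm] at h6
        exact (mul_le_mul_of_nonneg_left h2 (abs_nonneg _)).trans h6
      linarith
    · filter_upwards with x
      have := ((slope_exp (a x)).mul_const (f x)).const_mul (Real.exp (-(a x)))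
      convert this using 2
      ring
    · filter_upwards [self_mem_nhdsWithin] with t ht
      filter_upwards [coe_mulL (μ := μ) (b := fun x => Real.exp (-(a x))) (by fun_prop) (bE a ha h1)
        (t⁻¹ • (Ms a ha h1 t f - f)), coe_slope a ha h1 ht f] with x h4 h5
      rw [h4, h5]
  have h4 := tendsto_nhds_unique h2 h3
  have h5 := coe_mulL (μ := μ) (b := fun x => Real.exp (-(a x))) (by fun_prop) (bE a ha h1) g
  have h6 := coe_mulL (μ := μ) hmeas hbd f
  rw [h4] at h5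
  filter_upwards [h5, h6] with x h7 h8
  rw [h8] at h7
  have hne := (Real.exp_pos (-(a x))).ne'
  have : Real.exp (-(a x)) * g x = Real.exp (-(a x)) * (-(a x * f x)) := by
    rw [← h7]; ring
  exact mul_left_cancel₀ hne this

end Pool.Agent.X207.KV
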