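import Mathlib
import Pool.Agent.X207.KV3
open MeasureTheory Filter Topology
open scoped ENNReal
namespace Pool.Agent.X207.KV

variable {Ξ : Type*} [MeasurableSpace Ξ] {μ : Measure Ξ} [IsProbabilityMeasure μ]
variable (a : Ξ → ℝ) (ha : Measurable a) (h1 : ∀ x, 1 ≤ a x)

lemma Ms_sub : IsSubstochastic μ (Ms (μ := μ) a ha h1) where
  zero := by
    ext1 f
    apply Lp.ext
    filter_upwards [coe_Ms a ha h1 le_rfl f] with x hx
    rw [hx]; simp
  add := by
    intro s t hs ht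
    ext1 f
    show Ms a ha h1 (s + t) f = Ms a ha h1 s (Ms a ha h1 t f)
    apply Lp.ext
    filter_upwards [coe_Ms a ha h1 (add_nonneg hs ht) f, coe_Ms a ha h1 hs (Ms a ha h1 t f),
      coe_Ms a ha h1 ht f] with x h2 h3 h4
    rw [h2, h3, h4, ← mul_assoc, ← Real.exp_add]
    congr 2; ring
  cont := by
    intro f
    apply tendsto_fun _ f (fun t x => Real.exp (-(t * a x)) * f x) (fun x => f x) _ (ae_eq_refl _)
      (fun x => 2 * |f x|) (((integrable_coe f).norm).const_mul 2)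
    · filter_upwards [self_mem_nhdsWithin] with t ht
      filter_upwards with x
      have ht' : (0 : ℝ) < t := ht
      have h2 : Real.exp (-(t * a x)) ≤ 1 := by
        rw [Real.exp_le_one_iff]
        have := mul_nonneg ht'.le (by linarith [h1 x] : 0 ≤ a x)
        linarith
      have e : Real.exp (-(t * a x)) * f x - f x = (Real.exp (-(t * a x)) - 1) * f x := by ring
      rw [e, abs_mul]
      apply mul_le_mul_of_nonneg_right _ (abs_nonneg _)
      rw [abs_le]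
      constructor <;> linarith [Real.exp_pos (-(t * a x))]
    · filter_upwards with x
      have : Tendsto (fun t : ℝ => Real.exp (-(t * a x)) * f x) (𝓝 0) (𝓝 (Real.exp (-(0 * a x)) * f x)) := by
        apply Continuous.tendsto; fun_prop
      rw [zero_mul, neg_zero, Real.exp_zero, one_mul] at this
      exact this.mono_left nhdsWithin_le_nhds
    · filter_upwards [self_mem_nhdsWithin] with t ht
      exact coe_Ms a ha h1 (le_of_lt ht) f
  pos := by
    intro t ht f hf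
    rw [← Lp.coeFn_nonneg]
    filter_upwards [coe_Ms a ha h1 ht f, (Lp.coeFn_nonneg f).mpr hf] with x h3 h4
    rw [h3]
    have h5 : 0 ≤ f x := h4
    show 0 ≤ _
    positivity
  contr := by
    intro t ht f
    have := Lp.norm_le_mul_norm_of_ae_le_mul (c := 1) (f := Ms a ha h1 t f) (g := f) (by
      filter_upwards [coe_Ms a ha h1 ht f] with x h3
      rw [h3, norm_mul, Real.norm_of_nonneg (Real.exp_pos _).le]
      apply mul_le_mul_of_nonneg_right _ (norm_nonneg _)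
      rw [Real.exp_le_one_iff]
      have := mul_nonneg ht (by linarith [h1 x] : 0 ≤ a x)
      linarith)
    rwa [one_mul] at this

/-- the domain `{f : a f ∈ L¹}` -/
def Pdom : Submodule ℝ (Lp ℝ 1 μ) where
  carrier := {f | Integrable (fun x => a x * f x) μ}
  add_mem' := by
    intro f g hf hg
    refine (Integrable.add hf hg).congr ?_
    filter_upwards [Lp.coeFn_add f g] with x hx
    rw [hx, Pi.add_apply, Pi.add_apply]; ring
  zero_mem' := by
    show Integrable (fun x => a x * (0 : Lp ℝ 1 μ) x) μ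
    refine (integrable_zero Ξ ℝ μ).congr ?_
    filter_upwards [Lp.coeFn_zero ℝ 1 μ] with x hx
    rw [hx]; simp
  smul_mem' := by
    intro c f hf
    refine (Integrable.const_mul hf c).congr ?_
    filter_upwards [Lp.coeFn_smul c f] with x hx
    rw [hx, Pi.smul_apply, smul_eq_mul]; ring

lemma mem_Pdom {f : Lp ℝ 1 μ} : f ∈ Pdom a ↔ Integrable (fun x => a x * f x) μ := Iff.rfl

/-- multiplication by `a` on its natural domain -/
noncomputable def aL : Pdom (μ := μ) a →ₗ[ℝ] Lp ℝ 1 μ where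
  toFun f := (memLp_one_iff_integrable.mpr f.2).toLp (fun x => a x * (f : Lp ℝ 1 μ) x)
  map_add' := by
    intro f g
    apply Lp.ext
    filter_upwards [(memLp_one_iff_integrable.mpr (f + g).2).coeFn_toLp,
      (memLp_one_iff_integrable.mpr f.2).coeFn_toLp, (memLp_one_iff_integrable.mpr g.2).coeFn_toLp,
      Lp.coeFn_add (f : Lp ℝ 1 μ) g,
      Lp.coeFn_add ((memLp_one_iff_integrable.mpr f.2).toLp (fun x => a x * (f : Lp ℝ 1 μ) x))
        ((memLp_one_iff_integrable.mpr g.2).toLp (fun x => a x * (g : Lp ℝ 1 μ) x))] with x h2 h3 h4 h5 h6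
    rw [h2, h6, Pi.add_apply, h3, h4]
    have : ((f + g : Pdom a) : Lp ℝ 1 μ) = (f : Lp ℝ 1 μ) + g := rfl
    rw [this, h5, Pi.add_apply]; ring
  map_smul' := by
    intro c f
    apply Lp.ext
    filter_upwards [(memLp_one_iff_integrable.mpr (c • f).2).coeFn_toLp,
      (memLp_one_iff_integrable.mpr f.2).coeFn_toLp,
      Lp.coeFn_smul c (f : Lp ℝ 1 μ),
      Lp.coeFn_smul c ((memLp_one_iff_integrable.mpr f.2).toLp (fun x => a x * (f : Lp ℝ 1 μ) x))]
      with x h2 h3 h4 h5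
    simp only [RingHom.id_apply]
    rw [h2, h5, Pi.smul_apply, h3]
    have : ((c • f : Pdom a) : Lp ℝ 1 μ) = c • (f : Lp ℝ 1 μ) := rfl
    rw [this, h4, Pi.smul_apply, smul_eq_mul, smul_eq_mul]; ring

lemma coe_aL (f : Pdom (μ := μ) a) : (aL a f : Ξ → ℝ) =ᵐ[μ] fun x => a x * (f : Lp ℝ 1 μ) x :=
  (memLp_one_iff_integrable.mpr f.2).coeFn_toLp

/-- the positive perturbation `P f = a f - f + (∫ f) 1` -/
noncomputable def Pp : Lp ℝ 1 μ →ₗ.[ℝ] Lp ℝ 1 μ where
  domain := Pdom a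
  toFun := aL a - (Pdom a).subtype + (Q (μ := μ)).toLinearMap ∘ₗ (Pdom a).subtype

lemma Pp_apply (f : Pdom (μ := μ) a) : Pp a f = aL a f - f + Q (f : Lp ℝ 1 μ) := rfl

lemma graph_iff {f k : Lp ℝ 1 μ} : (f, k) ∈ (Pp (μ := μ) a).graph ↔
    ∃ h : Integrable (fun x => a x * f x) μ, k = aL a ⟨f, h⟩ - f + Q f := by
  rw [LinearPMap.mem_graph_iff]
  constructor
  · rintro ⟨y, hy1, hy2⟩
    simp only at hy1 hy2
    subst hy1
    exact ⟨y.2, hy2.symm⟩
  · rintro ⟨h, hk⟩
    exact ⟨⟨f, h⟩, rfl, hk.symm⟩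

lemma sum_iff {f k : Lp ℝ 1 μ} : (f, k) ∈ sumGraph μ (Ms a ha h1) (Pp a) ↔
    Integrable (fun x => a x * f x) μ ∧ k = Q f - f := by
  constructor
  · rintro ⟨g, k', hg, hk', he⟩
    obtain ⟨h, hk2⟩ := (graph_iff a).mp hk'
    refine ⟨h, ?_⟩
    have hg2 := (gen_Ms_iff a ha h1).mp hg
    simp only at he
    have h3 : g = -aL a ⟨f, h⟩ := by
      apply Lp.ext
      filter_upwards [hg2, coe_aL a ⟨f, h⟩, Lp.coeFn_neg (aL a ⟨f, h⟩)] with x h4 h5 h6
      rw [h4, h6, Pi.neg_apply, h5]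
    rw [he, hk2, h3]; abel
  · rintro ⟨h, hk⟩
    refine ⟨-aL a ⟨f, h⟩, aL a ⟨f, h⟩ - f + Q f, ?_, (graph_iff a).mpr ⟨h, rfl⟩, ?_⟩
    · rw [gen_Ms_iff]
      filter_upwards [coe_aL a ⟨f, h⟩, Lp.coeFn_neg (aL a ⟨f, h⟩)] with x h5 h6
      rw [h6, Pi.neg_apply, h5]
    · simp only
      rw [hk]; abel

lemma gen_Js_iff {f k : Lp ℝ 1 μ} : (f, k) ∈ gen μ (Js (μ := μ)) ↔ k = Q f - f := by
  constructor
  · intro h
    exact tendsto_nhds_unique h (Js_gen f)
  · rintro rfl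
    exact Js_gen f

include ha h1 in
lemma exists_seq (f : Lp ℝ 1 μ) : ∃ F : ℕ → Lp ℝ 1 μ, (∀ n, F n ∈ Pdom a) ∧ Tendsto F atTop (𝓝 f) := by
  have hm : ∀ n : ℕ, Measurable (fun x => ((n : ℝ) + 1) / (n + 1 + a x)) := by
    intro n; fun_prop
  have hb : ∀ (n : ℕ) (x : Ξ), |((n : ℝ) + 1) / (n + 1 + a x)| ≤ 1 := by
    intro n x
    have h2 := h1 x
    have h3 : (0 : ℝ) < n + 1 + a x := by positivity
    rw [abs_of_nonneg (by positivity), div_le_one h3]
    linarith
  refine ⟨fun n => mulL _ (hm n) 1 (hb n) f, ?_, ?_⟩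
  · intro n
    rw [mem_Pdom]
    have hm2 : Measurable (fun x => a x * (((n : ℝ) + 1) / (n + 1 + a x))) := ha.mul (hm n)
    have hb2 : ∀ x, |a x * (((n : ℝ) + 1) / (n + 1 + a x))| ≤ (n : ℝ) + 1 := by
      intro x
      have h2 := h1 x
      have h3 : (0 : ℝ) < n + 1 + a x := by positivity
      rw [abs_of_nonneg (by positivity), ← mul_div_assoc, div_le_iff₀ h3]
      nlinarith
    refine (integrable_coe (mulL (μ := μ) _ hm2 _ hb2 f)).congr ?_
    filter_upwards [coe_mulL hm2 hb2 f, coe_mulL (hm n) (hb n) f] with x h4 h5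
    rw [h4, h5]; ring
  · apply tendsto_fun _ f (fun (n : ℕ) x => ((n : ℝ) + 1) / (n + 1 + a x) * f x) (fun x => f x) _
      (ae_eq_refl _) (fun x => 2 * |f x|) (((integrable_coe f).norm).const_mul 2)
    · filter_upwards with n
      filter_upwards with x
      have e : ((n : ℝ) + 1) / (n + 1 + a x) * f x - f x = (((n : ℝ) + 1) / (n + 1 + a x) - 1) * f x := by ring
      rw [e, abs_mul]
      apply mul_le_mul_of_nonneg_right _ (abs_nonneg _)
      have := hb n x
      rw [abs_le] at this ⊢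
      constructor <;> linarith [this.1, this.2]
    · filter_upwards with x
      have h2 := h1 x
      have h3 : Tendsto (fun n : ℕ => (1 : ℝ) - a x / (n + 1 + a x)) atTop (𝓝 (1 - 0)) := by
        apply Tendsto.const_sub
        apply Tendsto.div_atTop tendsto_const_nhds
        apply tendsto_atTop_mono (fun n : ℕ => (by linarith : (n : ℝ) ≤ n + 1 + a x))
        exact tendsto_natCast_atTop_atTop
      have h4 := h3.mul_const (f x)
      rw [sub_zero, one_mul] at h4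
      refine h4.congr ?_
      intro n
      have h5 : (n : ℝ) + 1 + a x ≠ 0 := by positivity
      field_simp
      ring
    · filter_upwards with n
      exact coe_mulL (hm n) (hb n) f

include ha h1 in
lemma dense_Pdom : Dense (Pdom (μ := μ) a : Set (Lp ℝ 1 μ)) := by
  intro f
  obtain ⟨F, hF, hl⟩ := exists_seq a ha h1 f
  exact mem_closure_of_tendsto hl (Eventually.of_forall hF)

lemma honest : Honest μ (Ms a ha h1) (Pp a) (Js (μ := μ)) := by
  apply Set.Subset.antisymm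
  · rintro ⟨f, k⟩ hfk
    rw [gen_Js_iff] at hfk
    obtain ⟨F, hF, hl⟩ := exists_seq a ha h1 f
    have hl2 : Tendsto (fun n => (F n, Q (F n) - F n)) atTop (𝓝 (f, k)) := by
      rw [hfk]
      exact hl.prodMk_nhds (((Q.continuous.tendsto f).comp hl).sub hl)
    refine mem_closure_of_tendsto hl2 (Eventually.of_forall fun n => ?_)
    exact (sum_iff a ha h1).mpr ⟨hF n, rfl⟩
  · apply closure_minimal
    · rintro ⟨f, k⟩ hfk
      rw [gen_Js_iff]
      exact ((sum_iff a ha h1).mp hfk).2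
    · have : gen μ (Js (μ := μ)) = {p | p.2 = Q p.1 - p.1} := by
        ext ⟨f, k⟩
        exact gen_Js_iff
      rw [this]
      exact isClosed_eq (by fun_prop) (by fun_prop)

lemma kato : IsKatoVoigt μ (Ms a ha h1) (Pp a) (Js (μ := μ)) where
  subM := Ms_sub a ha h1
  dom := by
    rintro ⟨f, g⟩ hfg
    have := (gen_Ms_iff a ha h1).mp hfg
    show Integrable (fun x => a x * f x) μ
    refine (integrable_coe (-g)).congr ?_
    filter_upwards [this, Lp.coeFn_neg g] with x h2 h3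
    rw [h3, Pi.neg_apply, h2, neg_neg]
  posP := by
    rintro ⟨f, k⟩ hfk hf
    obtain ⟨h, hk⟩ := (graph_iff a).mp hfk
    simp only at hf ⊢
    rw [hk, ← Lp.coeFn_nonneg]
    have hm := mass_nonneg hf
    filter_upwards [Lp.coeFn_add (aL a ⟨f, h⟩ - f) (Q f), Lp.coeFn_sub (aL a ⟨f, h⟩) f, coe_aL a ⟨f, h⟩,
      coe_Q f, (Lp.coeFn_nonneg f).mpr hf] with x h2 h3 h4 h5 h6
    rw [h2, Pi.add_apply, h3, Pi.sub_apply, h4, h5]
    have h7 : 0 ≤ f x := h6
    have h8 := h1 x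
    show 0 ≤ a x * f x - f x + mass f
    nlinarith
  diss := by
    rintro ⟨f, k⟩ hfk _
    have := ((sum_iff a ha h1).mp hfk).2
    simp only
    rw [← mass_apply, this, map_sub, mass_Q, sub_self]
  subJ := Js_sub
  ext := by
    rintro ⟨f, k⟩ hfk
    rw [gen_Js_iff]
    exact ((sum_iff a ha h1).mp hfk).2
  minimal := by
    intro J' hJ' hext t ht f hf
    have hu := uniq (J := Js (μ := μ)) (J' := J')
      ⟨Js_sub.zero, Js_sub.add, Js_sub.cont, Js_sub.contr⟩ ⟨hJ'.zero, hJ'.add, hJ'.cont, hJ'.contr⟩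
      (Q - 1) (Pdom (μ := μ) a : Set (Lp ℝ 1 μ)) (dense_Pdom a ha h1) (fun f _ => Js_gen f)
      (fun f hf => by
        have hf' : Integrable (fun x => a x * f x) μ := hf
        have h9 : (f, Q f - f) ∈ gen μ J' := hext ((sum_iff a ha h1).mpr ⟨hf', rfl⟩)
        exact h9) t ht
    rw [hu]

include h1 in
lemma bR (l : ℝ) (x : Ξ) : |1 / (|l| + a x)| ≤ 1 := by
  have h2 := h1 x
  have h3 := abs_nonneg l
  have h4 : 0 < |l| + a x := by linarith
  rw [abs_of_nonneg (by positivity), div_le_one h4]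
  linarith

/-- the resolvent -/
noncomputable def Rr (l : ℝ) : Lp ℝ 1 μ →L[ℝ] Lp ℝ 1 μ :=
  mulL (fun x => 1 / (|l| + a x)) (by fun_prop) 1 (bR a h1 l)

lemma coe_Rr {l : ℝ} (hl : 0 ≤ l) (f : Lp ℝ 1 μ) :
    (Rr a ha h1 l f : Ξ → ℝ) =ᵐ[μ] fun x => 1 / (l + a x) * f x := by
  filter_upwards [coe_mulL (μ := μ) (b := fun x => 1 / (|l| + a x)) (by fun_prop) (bR a h1 l) f] with x hx
  unfold Rr
  rw [hx, abs_of_nonneg hl]

include h1 in
lemma bS (l : ℝ) (x : Ξ) : |(a x - 1) / (|l| + a x)| ≤ 1 := by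
  have h2 := h1 x
  have h3 := abs_nonneg l
  have h4 : 0 < |l| + a x := by linarith
  rw [abs_of_nonneg (div_nonneg (by linarith) h4.le), div_le_one h4]
  linarith

/-- `P (l - M₁)⁻¹` -/
noncomputable def Ss (l : ℝ) : Lp ℝ 1 μ →L[ℝ] Lp ℝ 1 μ :=
  mulL (fun x => (a x - 1) / (|l| + a x)) (by fun_prop) 1 (bS a h1 l) + Q ∘L (Rr a ha h1 l)

lemma Ss_apply (l : ℝ) (f : Lp ℝ 1 μ) : Ss a ha h1 l f =
    mulL (fun x => (a x - 1) / (|l| + a x)) (by fun_prop) 1 (bS a h1 l) f + Q (Rr a ha h1 l f) := rfl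

lemma res {l : ℝ} (hl : 0 < l) : IsResolvent μ (Ms a ha h1) l (Rr a ha h1 l) := by
  constructor
  · intro f
    rw [gen_Ms_iff]
    filter_upwards [Lp.coeFn_sub (l • Rr a ha h1 l f) f, Lp.coeFn_smul l (Rr a ha h1 l f),
      coe_Rr a ha h1 hl.le f] with x h2 h3 h4
    rw [h2, Pi.sub_apply, h3, Pi.smul_apply, h4, smul_eq_mul]
    have h5 := h1 x
    have h6 : l + a x ≠ 0 := by positivity
    field_simp
    ring
  · rintro ⟨f, g⟩ hfg
    have hg := (gen_Ms_iff a ha h1).mp hfg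
    apply Lp.ext
    filter_upwards [coe_Rr a ha h1 hl.le (l • f - g), Lp.coeFn_sub (l • f) g, Lp.coeFn_smul l f, hg]
      with x h2 h3 h4 h5
    rw [h2, h3, Pi.sub_apply, h4, Pi.smul_apply, h5, smul_eq_mul]
    have h5 := h1 x
    have h6 : l + a x ≠ 0 := by positivity
    field_simp
    ring

lemma Rr_dom {l : ℝ} (hl : 0 ≤ l) (f : Lp ℝ 1 μ) : Integrable (fun x => a x * (Rr a ha h1 l f) x) μ := by
  have hm : Measurable (fun x => a x / (|l| + a x)) := by fun_prop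
  have hb : ∀ x, |a x / (|l| + a x)| ≤ 1 := by
    intro x
    have h2 := h1 x
    have h3 := abs_nonneg l
    have h4 : 0 < |l| + a x := by linarith
    rw [abs_of_nonneg (by positivity), div_le_one h4]
    linarith
  refine (integrable_coe (mulL (μ := μ) _ hm _ hb f)).congr ?_
  filter_upwards [coe_mulL hm hb f, coe_Rr a ha h1 hl f] with x h4 h5
  rw [h4, h5, abs_of_nonneg hl]; ring

lemma graph_S {l : ℝ} (hl : 0 ≤ l) (f : Lp ℝ 1 μ) :
    (Rr a ha h1 l f, Ss a ha h1 l f) ∈ (Pp (μ := μ) a).graph := by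
  rw [graph_iff]
  refine ⟨Rr_dom a ha h1 hl f, ?_⟩
  rw [Ss_apply]
  congr 1
  apply Lp.ext
  filter_upwards [coe_mulL (μ := μ) (b := fun x => (a x - 1) / (|l| + a x)) (by fun_prop) (bS a h1 l) f,
    Lp.coeFn_sub (aL a ⟨Rr a ha h1 l f, Rr_dom a ha h1 hl f⟩) (Rr a ha h1 l f),
    coe_aL a ⟨Rr a ha h1 l f, Rr_dom a ha h1 hl f⟩, coe_Rr a ha h1 hl f] with x h2 h3 h4 h5
  rw [h2, h3, Pi.sub_apply, h4, h5, abs_of_nonneg hl]
  ring

lemma coe_Ss {l : ℝ} (hl : 0 ≤ l) (f : Lp ℝ 1 μ) :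
    (Ss a ha h1 l f : Ξ → ℝ) =ᵐ[μ] fun x => (a x - 1) / (l + a x) * f x + mass (Rr a ha h1 l f) := by
  filter_upwards [coe_mulL (μ := μ) (b := fun x => (a x - 1) / (|l| + a x)) (by fun_prop) (bS a h1 l) f,
    Lp.coeFn_add (mulL (fun x => (a x - 1) / (|l| + a x)) (by fun_prop) 1 (bS a h1 l) f) (Q (Rr a ha h1 l f)),
    coe_Q (Rr a ha h1 l f)] with x h2 h3 h4
  rw [Ss_apply, h3, Pi.add_apply, h2, h4, abs_of_nonneg hl]

lemma tends_mul (c : ℝ → Ξ → ℝ) (hm : ∀ l, Measurable (c l)) (hb : ∀ l x, |c l x| ≤ 1)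
    (hc : ∀ x, Tendsto (fun l => c l x) (𝓝[>] 0) (𝓝 (c 0 x))) (f : Lp ℝ 1 μ) :
    Tendsto (fun l => mulL (μ := μ) (c l) (hm l) 1 (hb l) f) (𝓝[>] 0) (𝓝 (mulL (c 0) (hm 0) 1 (hb 0) f)) := by
  apply tendsto_fun _ _ (fun l x => c l x * f x) (fun x => c 0 x * f x) _ (coe_mulL (hm 0) (hb 0) f)
    (fun x => 2 * |f x|) (((integrable_coe f).norm).const_mul 2)
  · filter_upwards with l
    filter_upwards with x
    rw [← sub_mul, abs_mul]
    apply mul_le_mul_of_nonneg_right _ (abs_nonneg _)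
    have := abs_sub (c l x) (c 0 x)
    linarith [hb l x, hb 0 x]
  · filter_upwards with x
    exact (hc x).mul_const _
  · filter_upwards with l
    exact coe_mulL (hm l) (hb l) f

include h1 in
lemma pt_lim (n : ℝ → ℝ) (x : Ξ) : Tendsto (fun l : ℝ => n (a x) / (|l| + a x)) (𝓝[>] 0)
    (𝓝 (n (a x) / (|0| + a x))) := by
  have h2 := h1 x
  apply Tendsto.mono_left _ nhdsWithin_le_nhds
  have : ContinuousAt (fun l : ℝ => n (a x) / (|l| + a x)) 0 := by
    apply ContinuousAt.div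
    · fun_prop
    · fun_prop
    · have := abs_nonneg (0 : ℝ)
      positivity
  exact this

lemma limitOp : IsLimitOp μ (Ms a ha h1) (Pp a) (Ss (μ := μ) a ha h1 0) := by
  refine ⟨fun l => Rr a ha h1 l, fun l => Ss a ha h1 l, fun l hl => res a ha h1 hl,
    fun l hl f => graph_S a ha h1 hl.le f, ?_⟩
  intro f
  have t1 := tends_mul (μ := μ) (fun l x => (a x - 1) / (|l| + a x)) (fun l => by fun_prop)
    (fun l x => bS a h1 l x) (fun x => pt_lim a h1 (fun y => y - 1) x) f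
  have t2 := tends_mul (μ := μ) (fun l x => 1 / (|l| + a x)) (fun l => by fun_prop)
    (fun l x => bR a h1 l x) (fun x => pt_lim a h1 (fun _ => 1) x) f
  exact t1.add ((Q.continuous.tendsto _).comp t2)

lemma no_fixed (hna : ¬ Integrable a μ) {u : Lp ℝ 1 μ} (hu : Ss a ha h1 0 u = u) : u = 0 := by
  have h2 := coe_Ss a ha h1 le_rfl u
  rw [hu] at h2
  set c := mass (Rr a ha h1 0 u) with hc
  have h3 : (u : Ξ → ℝ) =ᵐ[μ] fun x => c * a x := by
    filter_upwards [h2] with x h4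
    have h5 := h1 x
    have h6 : a x ≠ 0 := by positivity
    rw [zero_add] at h4
    field_simp at h4
    linear_combination h4
  by_cases hc0 : c = 0
  · apply Lp.ext
    filter_upwards [h3, Lp.coeFn_zero ℝ 1 μ] with x h4 h5
    rw [h4, h5, hc0]; simp
  · exfalso
    apply hna
    refine ((integrable_coe u).const_mul c⁻¹).congr ?_
    filter_upwards [h3] with x h4
    rw [h4, ← mul_assoc, inv_mul_cancel₀ hc0, one_mul]

include ha h1 in
theorem main (hna : ¬ Integrable a μ) :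
    ∃ (M J : ℝ → (Lp ℝ 1 μ →L[ℝ] Lp ℝ 1 μ)) (P : Lp ℝ 1 μ →ₗ.[ℝ] Lp ℝ 1 μ)
      (K : Lp ℝ 1 μ →L[ℝ] Lp ℝ 1 μ) (v : Lp ℝ 1 μ),
      IsKatoVoigt μ M P J ∧ Honest μ M P J ∧ ¬ GenuinelyHonest μ M P J ∧ IsLimitOp μ M P K ∧
      0 ≤ v ∧ v ≠ 0 ∧ (v, 0) ∈ gen μ J ∧ (∀ g, (v, g) ∉ gen μ M) ∧ ∀ u, K u = u → u = 0 := by
  have hv : (one1 (μ := μ), (0 : Lp ℝ 1 μ)) ∈ gen μ (Js (μ := μ)) := by
    rw [gen_Js_iff, Q_apply, mass_one1, one_smul, sub_self]
  have hna2 : ¬ Integrable (fun x => a x * (one1 (μ := μ)) x) μ := by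
    intro h
    apply hna
    refine h.congr ?_
    filter_upwards [coe_one1 (μ := μ)] with x hx
    rw [hx, mul_one]
  refine ⟨Ms a ha h1, Js, Pp a, Ss a ha h1 0, one1, kato a ha h1, honest a ha h1, ?_, limitOp a ha h1,
    ?_, ?_, hv, ?_, fun u hu => no_fixed a ha h1 hna hu⟩
  · intro h
    unfold GenuinelyHonest at h
    rw [h] at hv
    exact hna2 ((sum_iff a ha h1).mp hv).1
  · rw [← Lp.coeFn_nonneg]
    filter_upwards [coe_one1 (μ := μ)] with x hx
    rw [hx]; exact zero_le_one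
  · intro h
    have := norm_one1 (μ := μ)
    rw [h, norm_zero] at this
    norm_num at this
  · intro g hg
    exact hna2 ((kato a ha h1).dom _ hg)

end Pool.Agent.X207.KV
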