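import Mathlib

set_option autoImplicit false

namespace Pool.Agent.X207.FR

open Complex

section Cfc

variable {A : Type*} [CStarAlgebra A]

/-- The cut-off function. -/
noncomputable def gcut (t : ℝ) : ℝ := max 0 (min 1 (3 * t - 1))

/-- The quotient of the cut-off function by the identity. -/
noncomputable def hcut (t : ℝ) : ℝ := gcut t / max t (1/3)

lemma gcut_cont : Continuous gcut := by unfold gcut; fun_prop

lemma hcut_cont : Continuous hcut := by
  unfold hcut
  apply gcut_cont.div (by fun_prop)
  intro t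
  have : (1:ℝ)/3 ≤ max t (1/3) := le_max_right _ _
  linarith

lemma gcut_eq (t : ℝ) : gcut t = t * hcut t := by
  unfold hcut
  rcases le_total t (1/3) with h | h
  · have : gcut t = 0 := by
      unfold gcut
      rw [max_eq_left]
      exact le_trans (min_le_right _ _) (by linarith)
    rw [this]; simp
  · rw [max_eq_left h]
    have : t ≠ 0 := by linarith
    field_simp

lemma gcut_spec {t e : ℝ} (h : |t - t * t| ≤ e) (he : e ≤ 1/5) :
    gcut t * gcut t = gcut t ∧ |gcut t - t| ≤ 2 * e := by
  have he0 : 0 ≤ e := le_trans (abs_nonneg _) h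
  rw [abs_le] at h
  rcases lt_or_ge t (1/3) with h1 | h1
  · have : gcut t = 0 := by
      unfold gcut
      rw [max_eq_left]
      exact le_trans (min_le_right _ _) (by linarith)
    rw [this]
    refine ⟨by ring, ?_⟩
    rw [abs_le]
    constructor
    · nlinarith
    · nlinarith
  · rcases lt_or_ge t (2/3) with h2 | h2
    · exfalso
      nlinarith [mul_nonneg (sub_nonneg.2 h1) (sub_nonneg.2 h2.le)]
    · have : gcut t = 1 := by
        unfold gcut
        rw [min_eq_left (by linarith)]
        norm_num
      rw [this]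
      refine ⟨by ring, ?_⟩
      rw [abs_le]
      constructor
      · nlinarith
      · nlinarith

/-- An almost idempotent self-adjoint element is close to a projection dominated by it. -/
theorem near_proj (a : A) (ha : IsSelfAdjoint a) {e : ℝ} (h : ‖a - a * a‖ ≤ e) (he : e ≤ 1/5) :
    ∃ q c : A, q * q = q ∧ IsSelfAdjoint q ∧ q = a * c ∧ ‖q - a‖ ≤ 2 * e := by
  have he0 : 0 ≤ e := le_trans (norm_nonneg _) h
  have hspec : ∀ t ∈ spectrum ℝ a, |t - t * t| ≤ e := by
    intro t ht
    have h1 : cfc (fun t : ℝ => t - t * t) a = a - a * a := by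
      rw [cfc_sub (fun t : ℝ => t) (fun t : ℝ => t * t) a, cfc_mul (fun t : ℝ => t) (fun t : ℝ => t) a,
        cfc_id' ℝ a]
    have h2 := norm_apply_le_norm_cfc (𝕜 := ℝ) (fun t : ℝ => t - t * t) a ht
    rw [h1] at h2
    exact le_trans h2 h
  refine ⟨cfc gcut a, cfc hcut a, ?_, ?_, ?_, ?_⟩
  · rw [← cfc_mul gcut gcut a gcut_cont.continuousOn gcut_cont.continuousOn]
    apply cfc_congr
    intro t ht
    exact (gcut_spec (hspec t ht) he).1
  · exact cfc_predicate _ _
  · have h1 : cfc gcut a = cfc (fun t : ℝ => t * hcut t) a := by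
      congr 1; funext t; exact gcut_eq t
    rw [h1, cfc_mul (fun t : ℝ => t) hcut a continuous_id.continuousOn hcut_cont.continuousOn,
      cfc_id' ℝ a]
  · have h1 : cfc gcut a - a = cfc (fun t : ℝ => gcut t - t) a := by
      rw [cfc_sub gcut (fun t : ℝ => t) a gcut_cont.continuousOn continuous_id.continuousOn,
        cfc_id' ℝ a]
    rw [h1]
    apply norm_cfc_le (by positivity)
    intro t ht
    exact (gcut_spec (hspec t ht) he).2

section Alg

variable {L : ℕ} (v : Fin L → A) (S : Fin L → A)

/-- The position operator. -/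
noncomputable def opD : A := ∑ i : Fin L, ((i : ℕ) : ℂ) • (v i * star (v i))

/-- The second self-adjoint operator. -/
noncomputable def opB : A := ∑ i, v i * S i * star (v i) + ∑ i, ∑ j, (if i = j then 0 else v i * star (v j))

lemma opD_sa : IsSelfAdjoint (opD v) := by
  unfold opD
  rw [IsSelfAdjoint, star_sum]
  apply Finset.sum_congr rfl; intro i _
  rw [star_smul, star_mul, star_star]
  simp

lemma opB_sa (hS : ∀ i, IsSelfAdjoint (S i)) : IsSelfAdjoint (opB v S) := by
  unfold opB
  rw [IsSelfAdjoint, star_add, star_sum, star_sum]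
  congr 1
  · apply Finset.sum_congr rfl; intro i _
    rw [star_mul, star_mul, star_star, (hS i).star_eq, mul_assoc]
  · rw [Finset.sum_comm]
    apply Finset.sum_congr rfl; intro i _
    rw [star_sum]
    apply Finset.sum_congr rfl; intro j _
    by_cases h : j = i
    · subst h; simp
    · rw [if_neg h, if_neg (Ne.symm h), star_mul, star_star]

variable (hv : ∀ i j, star (v i) * v j = if i = j then 1 else 0)

include hv

lemma vD (i : Fin L) : star (v i) * opD v = ((i : ℕ) : ℂ) • star (v i) := by
  unfold opD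
  rw [Finset.mul_sum, Finset.sum_eq_single i]
  · rw [mul_smul_comm, ← mul_assoc, hv, if_pos rfl, one_mul]
  · intro j _ hj
    rw [mul_smul_comm, ← mul_assoc, hv, if_neg (Ne.symm hj), zero_mul, smul_zero]
  · intro h; exact absurd (Finset.mem_univ i) h

lemma Dv (i : Fin L) : opD v * v i = ((i : ℕ) : ℂ) • v i := by
  unfold opD
  rw [Finset.sum_mul, Finset.sum_eq_single i]
  · rw [smul_mul_assoc, mul_assoc, hv, if_pos rfl, mul_one]
  · intro j _ hj
    rw [smul_mul_assoc, mul_assoc, hv, if_neg hj, mul_zero, smul_zero]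
  · intro h; exact absurd (Finset.mem_univ i) h

lemma vB (i : Fin L) : star (v i) * opB v S = S i * star (v i) + ∑ l, (if i = l then 0 else star (v l)) := by
  unfold opB
  rw [mul_add, Finset.mul_sum, Finset.sum_eq_single i, Finset.mul_sum, Finset.sum_eq_single i]
  · congr 1
    · rw [← mul_assoc, ← mul_assoc, hv, if_pos rfl, one_mul]
    · rw [Finset.mul_sum]
      apply Finset.sum_congr rfl; intro l _
      by_cases h : i = l
      · rw [if_pos h, if_pos h, mul_zero]
      · rw [if_neg h, if_neg h, ← mul_assoc, hv, if_pos rfl, one_mul]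
  · intro j _ hj
    rw [Finset.mul_sum]
    apply Finset.sum_eq_zero; intro l _
    by_cases h : j = l
    · rw [if_pos h, mul_zero]
    · rw [if_neg h, ← mul_assoc, hv, if_neg (Ne.symm hj), zero_mul]
  · intro h; exact absurd (Finset.mem_univ i) h
  · intro j _ hj
    rw [← mul_assoc, ← mul_assoc, hv, if_neg (Ne.symm hj), zero_mul, zero_mul]
  · intro h; exact absurd (Finset.mem_univ i) h

lemma Bv (hS : ∀ i, IsSelfAdjoint (S i)) (i : Fin L) :
    opB v S * v i = v i * S i + ∑ l, (if i = l then 0 else v l) := by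
  have h := congrArg star (vB v S hv i)
  rw [star_mul, star_star, (opB_sa v S hS).star_eq, star_add, star_mul, star_star,
    (hS i).star_eq, star_sum] at h
  rw [h]
  congr 1
  apply Finset.sum_congr rfl; intro l _
  by_cases h : i = l
  · simp [h]
  · simp [h]

lemma v_norm_le (i : Fin L) : ‖v i‖ ≤ 1 := by
  have h := CStarRing.norm_star_mul_self (x := v i)
  rw [hv, if_pos rfl] at h
  have h2 : ‖(1 : A)‖ ≤ 1 := by
    by_cases hn : Nontrivial A
    · rw [CStarRing.norm_one]
    · rw [not_nontrivial_iff_subsingleton] at hn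
      rw [Subsingleton.elim (1 : A) 0, norm_zero]; norm_num
  nlinarith [norm_nonneg (v i)]

lemma corner_le (i j : Fin L) (x : A) : ‖star (v i) * x * v j‖ ≤ ‖x‖ := by
  calc ‖star (v i) * x * v j‖ ≤ ‖star (v i)‖ * ‖x‖ * ‖v j‖ := by
        refine le_trans (norm_mul_le _ _) ?_
        gcongr
        exact norm_mul_le _ _
    _ ≤ 1 * ‖x‖ * 1 := by
        gcongr
        · rw [norm_star]; exact v_norm_le v hv i
        · exact v_norm_le v hv j
    _ = ‖x‖ := by ring

omit hv in
lemma lift_le (hv : ∀ i j, star (v i) * v j = if i = j then 1 else 0) (i j : Fin L) (x : A) :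
    ‖v i * x * star (v j)‖ ≤ ‖x‖ := by
  calc ‖v i * x * star (v j)‖ ≤ ‖v i‖ * ‖x‖ * ‖star (v j)‖ := by
        refine le_trans (norm_mul_le _ _) ?_
        gcongr
        exact norm_mul_le _ _
    _ ≤ 1 * ‖x‖ * 1 := by
        gcongr
        · exact v_norm_le v hv i
        · rw [norm_star]; exact v_norm_le v hv j
    _ = ‖x‖ := by ring

/-- Off-diagonal corners are small. -/
lemma corner_off {P : A} {e : ℝ} (hD : ‖P * opD v - opD v * P‖ ≤ e) {i j : Fin L} (hij : i ≠ j) :
    ‖star (v i) * P * v j‖ ≤ e := by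
  have h1 : star (v i) * (P * opD v - opD v * P) * v j
      = (((j : ℕ) : ℂ) - ((i : ℕ) : ℂ)) • (star (v i) * P * v j) := by
    rw [mul_sub, sub_mul, sub_smul]
    congr 1
    · rw [mul_assoc, mul_assoc, Dv v hv, mul_smul_comm, mul_smul_comm, mul_assoc]
    · rw [← mul_assoc, vD v hv, smul_mul_assoc, smul_mul_assoc]
  have h2 := corner_le v hv i j (P * opD v - opD v * P)
  rw [h1, norm_smul] at h2
  have h3 : (1 : ℝ) ≤ ‖(((j : ℕ) : ℂ) - ((i : ℕ) : ℂ))‖ := by
    have h4 : (((j : ℕ) : ℂ) - ((i : ℕ) : ℂ)) = (((j : ℕ) : ℤ) - ((i : ℕ) : ℤ) : ℤ) := by push_cast; rfl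
    rw [h4, Complex.norm_intCast]
    have h5 : (((j : ℕ) : ℤ) - ((i : ℕ) : ℤ) : ℤ) ≠ 0 := by
      intro h; apply hij; apply Fin.ext; omega
    exact_mod_cast Int.one_le_abs h5
  nlinarith [norm_nonneg (star (v i) * P * v j)]

/-- The corner of the second commutator. -/
lemma corner_B (hS : ∀ i, IsSelfAdjoint (S i)) (P : A) (i j : Fin L) :
    star (v i) * (P * opB v S - opB v S * P) * v j =
      (star (v i) * P * v j) * S j - S i * (star (v i) * P * v j)
      + ∑ l, (if j = l then 0 else star (v i) * P * v l) - ∑ l, (if i = l then 0 else star (v l) * P * v j) := by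
  rw [mul_sub, sub_mul]
  have h1 : star (v i) * (P * opB v S) * v j = star (v i) * P * v j * S j
      + ∑ l, (if j = l then 0 else star (v i) * P * v l) := by
    rw [← mul_assoc, mul_assoc _ (opB v S), Bv v S hv hS, mul_add, Finset.mul_sum, ← mul_assoc]
    congr 1
    apply Finset.sum_congr rfl; intro l _
    by_cases h : j = l
    · rw [if_pos h, if_pos h, mul_zero]
    · rw [if_neg h, if_neg h]
  have h2 : star (v i) * (opB v S * P) * v j = S i * (star (v i) * P * v j)
      + ∑ l, (if i = l then 0 else star (v l) * P * v j) := by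
    rw [← mul_assoc, vB v S hv, add_mul, add_mul, Finset.sum_mul, Finset.sum_mul]
    congr 1
    · simp only [mul_assoc]
    · apply Finset.sum_congr rfl; intro l _
      by_cases h : i = l
      · rw [if_pos h, if_pos h, zero_mul, zero_mul]
      · rw [if_neg h, if_neg h]
  rw [h1, h2]
  abel

end Alg

end Cfc

end Pool.Agent.X207.FR
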