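import Mathlib
import Pool.Agent.X207.FRAmp

set_option autoImplicit false

namespace Pool.Agent.X207.FR

open Complex

section Amp2

variable {A : Type*} [CStarAlgebra A] {L : ℕ} (v : Fin L → A) (S : Fin L → A)

/-- **Extraction of a projection from a corner.** -/
theorem amp_proj (hv : ∀ i j, star (v i) * v j = if i = j then 1 else 0)
    (hs : ∑ i, v i * star (v i) = 1) (hS : ∀ i, IsSelfAdjoint (S i)) (hSn : ∀ i, ‖S i‖ ≤ 1)
    (P : A) (hP : P * P = P) (hPs : IsSelfAdjoint P) {e : ℝ} (he : e ≤ 1 / 1000000)
    (hD : ‖P * opD v - opD v * P‖ ≤ e) (hB : ‖P * opB v S - opB v S * P‖ ≤ e)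
    (hL : (L : ℝ) ≤ 14) (o : Fin L) :
    ∃ q c : A, q * q = q ∧ IsSelfAdjoint q ∧ q = star (v o) * P * v o * c ∧
      (∀ i, ‖q * S i - S i * q‖ ≤ 1 / 2000) ∧ (q = 0 → P = 0) := by
  have he0 : 0 ≤ e := le_trans (norm_nonneg _) hD
  have hL0 : (0 : ℝ) ≤ L := Nat.cast_nonneg L
  set a : Fin L → Fin L → A := fun i j => star (v i) * P * v j with ha
  have hoff : ∀ i j, i ≠ j → ‖a i j‖ ≤ e := fun i j hij => corner_off v hv hD hij
  have hR : ∀ i j, ‖a i j * S j - S i * a i j
      + ∑ l, (if j = l then 0 else a i l) - ∑ l, (if i = l then 0 else a l j)‖ ≤ e := by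
    intro i j
    have h1 := corner_B v S hv hS P i j
    have h2 := corner_le v hv i j (P * opB v S - opB v S * P)
    rw [h1] at h2
    exact le_trans h2 hB
  have hsumbd : ∀ (f : Fin L → A), (∀ l, ‖f l‖ ≤ e) → ‖∑ l, f l‖ ≤ L * e := by
    intro f hf
    calc ‖∑ l, f l‖ ≤ ∑ l : Fin L, e := norm_sum_le_of_le _ (fun l _ => hf l)
      _ = L * e := by simp
  have hprodS : ∀ (x : A) (i : Fin L) (r : ℝ), ‖x‖ ≤ r → ‖x * S i‖ ≤ r := by
    intro x i r hx
    calc ‖x * S i‖ ≤ ‖x‖ * ‖S i‖ := norm_mul_le _ _
      _ ≤ r * 1 := mul_le_mul hx (hSn i) (norm_nonneg _) (le_trans (norm_nonneg _) hx)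
      _ = r := mul_one r
  have hprodS' : ∀ (x : A) (i : Fin L) (r : ℝ), ‖x‖ ≤ r → ‖S i * x‖ ≤ r := by
    intro x i r hx
    calc ‖S i * x‖ ≤ ‖S i‖ * ‖x‖ := norm_mul_le _ _
      _ ≤ 1 * r := mul_le_mul (hSn i) hx (norm_nonneg _) (by norm_num)
      _ = r := one_mul r
  have hdiag : ∀ i j, ‖a i i - a j j‖ ≤ 31 * e := by
    intro i j
    by_cases hij : i = j
    · subst hij; rw [sub_self, norm_zero]; positivity
    have h1 : ∑ l, (if j = l then 0 else a i l) = a i i
        + ∑ l, (if l = i then 0 else (if j = l then 0 else a i l)) := by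
      rw [← Finset.add_sum_erase _ _ (Finset.mem_univ i), if_neg (Ne.symm hij),
        ← Finset.add_sum_erase _ (fun l => if l = i then 0 else (if j = l then 0 else a i l))
          (Finset.mem_univ i), if_pos rfl, zero_add]
      congr 1
      apply Finset.sum_congr rfl; intro l hl
      rw [if_neg (Finset.ne_of_mem_erase hl)]
    have h2 : ∑ l, (if i = l then 0 else a l j) = a j j
        + ∑ l, (if l = j then 0 else (if i = l then 0 else a l j)) := by
      rw [← Finset.add_sum_erase _ _ (Finset.mem_univ j), if_neg hij,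
        ← Finset.add_sum_erase _ (fun l => if l = j then 0 else (if i = l then 0 else a l j))
          (Finset.mem_univ j), if_pos rfl, zero_add]
      congr 1
      apply Finset.sum_congr rfl; intro l hl
      rw [if_neg (Finset.ne_of_mem_erase hl)]
    have b1 : ‖∑ l, (if l = i then 0 else (if j = l then 0 else a i l))‖ ≤ L * e := by
      apply hsumbd
      intro l
      split_ifs with h3 h4
      · simpa using he0
      · simpa using he0
      · exact hoff _ _ (Ne.symm h3)
    have b2 : ‖∑ l, (if l = j then 0 else (if i = l then 0 else a l j))‖ ≤ L * e := by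
      apply hsumbd
      intro l
      split_ifs with h3 h4
      · simpa using he0
      · simpa using he0
      · exact hoff _ _ h3
    have b3 := hR i j
    rw [h1, h2] at b3
    set X1 := ∑ l, (if l = i then 0 else (if j = l then 0 else a i l))
    set X2 := ∑ l, (if l = j then 0 else (if i = l then 0 else a l j))
    have b4 := hprodS _ j _ (hoff i j hij)
    have b5 := hprodS' _ i _ (hoff i j hij)
    have h3 : a i i - a j j = (a i j * S j - S i * a i j + (a i i + X1) - (a j j + X2))
        - a i j * S j + S i * a i j - X1 + X2 := by abel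
    rw [h3]
    calc ‖(a i j * S j - S i * a i j + (a i i + X1) - (a j j + X2))
        - a i j * S j + S i * a i j - X1 + X2‖
        ≤ ‖a i j * S j - S i * a i j + (a i i + X1) - (a j j + X2)‖ + ‖a i j * S j‖
          + ‖S i * a i j‖ + ‖X1‖ + ‖X2‖ := by
          refine le_trans (norm_add_le _ _) ?_
          gcongr
          refine le_trans (norm_sub_le _ _) ?_
          gcongr
          refine le_trans (norm_add_le _ _) ?_
          gcongr
          exact norm_sub_le _ _
      _ ≤ e + e + e + L * e + L * e := by gcongr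
      _ ≤ 31 * e := by nlinarith
  have hcomm : ∀ i, ‖a i i * S i - S i * a i i‖ ≤ 29 * e := by
    intro i
    have b1 : ‖∑ l, (if i = l then 0 else a i l)‖ ≤ L * e := by
      apply hsumbd
      intro l
      split_ifs with h3
      · simpa using he0
      · exact hoff _ _ h3
    have b2 : ‖∑ l, (if i = l then 0 else a l i)‖ ≤ L * e := by
      apply hsumbd
      intro l
      split_ifs with h3
      · simpa using he0
      · exact hoff _ _ (Ne.symm h3)
    have b3 := hR i i
    set X1 := ∑ l, (if i = l then 0 else a i l)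
    set X2 := ∑ l, (if i = l then 0 else a l i)
    have h3 : a i i * S i - S i * a i i = (a i i * S i - S i * a i i + X1 - X2) - X1 + X2 := by abel
    rw [h3]
    calc _ ≤ ‖a i i * S i - S i * a i i + X1 - X2‖ + ‖X1‖ + ‖X2‖ := by
          refine le_trans (norm_add_le _ _) ?_
          gcongr
          exact norm_sub_le _ _
      _ ≤ e + L * e + L * e := by gcongr
      _ ≤ 29 * e := by nlinarith
  -- the corner
  set p := a o o with hp
  have hpsa : IsSelfAdjoint p := by
    rw [hp, ha]
    show star (star (v o) * P * v o) = _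
    rw [star_mul, star_mul, star_star, hPs.star_eq, ← mul_assoc]
  have hpc : ∀ i, ‖p * S i - S i * p‖ ≤ 91 * e := by
    intro i
    have h1 : p * S i - S i * p = (a i i * S i - S i * a i i) - (a i i - p) * S i
        + S i * (a i i - p) := by
      rw [sub_mul, mul_sub]; abel
    rw [h1]
    have h2 := hprodS _ i _ (hdiag i o)
    have h3 := hprodS' _ i _ (hdiag i o)
    calc _ ≤ ‖a i i * S i - S i * a i i‖ + ‖(a i i - p) * S i‖ + ‖S i * (a i i - p)‖ := by
          refine le_trans (norm_add_le _ _) ?_
          gcongr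
          exact norm_sub_le _ _
      _ ≤ 29 * e + 31 * e + 31 * e := by
          gcongr
          exact hcomm i
      _ = 91 * e := by ring
  have hexp : p = ∑ l, a o l * a l o := by
    have h1 : ∀ l, a o l * a l o = star (v o) * P * (v l * star (v l)) * (P * v o) := by
      intro l; simp only [ha, mul_assoc]
    simp_rw [h1]
    rw [← Finset.sum_mul, ← Finset.mul_sum, hs, mul_one, hp, ha]
    show star (v o) * P * v o = _
    rw [mul_assoc (star (v o)) P (P * v o), ← mul_assoc P P, hP, mul_assoc]
  have hpp : ‖p - p * p‖ ≤ 14 * e ^ 2 := by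
    have h1 : p - p * p = ∑ l ∈ Finset.univ.erase o, a o l * a l o := by
      have h2 := hexp
      rw [← Finset.add_sum_erase _ _ (Finset.mem_univ o)] at h2
      have h3 : a o o * a o o = p * p := rfl
      rw [h3] at h2
      rw [sub_eq_iff_eq_add, add_comm]
      exact h2
    rw [h1]
    calc ‖∑ l ∈ Finset.univ.erase o, a o l * a l o‖ ≤ ∑ l ∈ Finset.univ.erase o, e ^ 2 := by
          apply norm_sum_le_of_le
          intro l hl
          have hne := Finset.ne_of_mem_erase hl
          calc ‖a o l * a l o‖ ≤ ‖a o l‖ * ‖a l o‖ := norm_mul_le _ _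
            _ ≤ e * e := mul_le_mul (hoff _ _ (Ne.symm hne)) (hoff _ _ hne) (norm_nonneg _) he0
            _ = e ^ 2 := by ring
      _ ≤ ∑ l : Fin L, e ^ 2 := by
          apply Finset.sum_le_sum_of_subset_of_nonneg (Finset.erase_subset _ _)
          intro _ _ _; positivity
      _ = L * e ^ 2 := by simp
      _ ≤ 14 * e ^ 2 := by gcongr
  have hsmall : 14 * e ^ 2 ≤ 1 / 5 := by nlinarith
  obtain ⟨q, c, hqq, hqs, hqc, hqn⟩ := near_proj p hpsa hpp hsmall
  refine ⟨q, c, hqq, hqs, hqc, ?_, ?_⟩
  · intro i
    have h1 : q * S i - S i * q = (p * S i - S i * p) + (q - p) * S i - S i * (q - p) := by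
      rw [sub_mul, mul_sub]; abel
    rw [h1]
    have h2 := hprodS _ i _ hqn
    have h3 := hprodS' _ i _ hqn
    calc _ ≤ ‖p * S i - S i * p‖ + ‖(q - p) * S i‖ + ‖S i * (q - p)‖ := by
          refine le_trans (norm_sub_le _ _) ?_
          gcongr
          exact norm_add_le _ _
      _ ≤ 91 * e + 2 * (14 * e ^ 2) + 2 * (14 * e ^ 2) := by
          gcongr
          exact hpc i
      _ ≤ 1 / 2000 := by nlinarith
  · intro hq0
    rw [hq0, zero_sub, norm_neg] at hqn
    have hall : ∀ i j, ‖a i j‖ ≤ 31 * e + 2 * (14 * e ^ 2) := by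
      intro i j
      by_cases hij : i = j
      · subst hij
        calc ‖a i i‖ = ‖(a i i - p) + p‖ := by congr 1; abel
          _ ≤ ‖a i i - p‖ + ‖p‖ := norm_add_le _ _
          _ ≤ _ := by gcongr; exact hdiag i o
      · refine le_trans (hoff i j hij) ?_
        nlinarith
    have hPexp : P = ∑ i, ∑ j, v i * a i j * star (v j) := by
      have h1 : ∀ i j, v i * a i j * star (v j) = (v i * star (v i)) * P * (v j * star (v j)) := by
        intro i j; simp only [ha, mul_assoc]
      have h2 : ∀ i, ∑ j, v i * a i j * star (v j) = (v i * star (v i)) * P := by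
        intro i
        simp_rw [h1]
        rw [← Finset.mul_sum, hs, mul_one]
      simp_rw [h2]
      rw [← Finset.sum_mul, hs, one_mul]
    have hPn : ‖P‖ ≤ 1 / 2 := by
      rw [hPexp]
      calc ‖∑ i, ∑ j, v i * a i j * star (v j)‖ ≤ ∑ i : Fin L, ∑ j : Fin L, (31 * e + 2 * (14 * e ^ 2)) := by
            apply norm_sum_le_of_le; intro i _
            apply norm_sum_le_of_le; intro j _
            exact le_trans (lift_le v hv i j _) (hall i j)
        _ = L * (L * (31 * e + 2 * (14 * e ^ 2))) := by
            rw [Finset.sum_const, Finset.sum_const, Finset.card_univ, Fintype.card_fin,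
              nsmul_eq_mul, nsmul_eq_mul]
        _ ≤ 14 * (14 * (31 * e + 2 * (14 * e ^ 2))) := by gcongr
        _ ≤ 1 / 2 := by nlinarith
    have hPP : ‖P‖ ≤ ‖P‖ * ‖P‖ := by
      conv_lhs => rw [← hP]
      exact norm_mul_le _ _
    rw [← norm_eq_zero]
    nlinarith [norm_nonneg P]

end Amp2

end Pool.Agent.X207.FR
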