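import Mathlib

set_option autoImplicit false

namespace Pool.Agent.X207.FR

open Complex

/-- Real representative of a point of the circle ℝ/ℤ in `[-1/2, 1/2)`. -/
noncomputable def rp (t : UnitAddCircle) : ℝ := ((AddCircle.equivIco (1 : ℝ) (-1/2)) t : ℝ)

lemma rp_mem (t : UnitAddCircle) : -1/2 ≤ rp t ∧ rp t < 1/2 := by
  have h := ((AddCircle.equivIco (1 : ℝ) (-1/2)) t).2
  refine ⟨h.1, ?_⟩
  have := h.2
  unfold rp
  linarith

lemma coe_rp (t : UnitAddCircle) : ((rp t : ℝ) : UnitAddCircle) = t :=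
  AddCircle.coe_equivIco (p := (1 : ℝ)) (a := (-1/2 : ℝ)) (y := t)

lemma rp_coe {y : ℝ} (h1 : -1/2 ≤ y) (h2 : y < 1/2) : rp ((y : ℝ) : UnitAddCircle) = y := by
  unfold rp
  exact AddCircle.equivIco_coe_of_mem (p := (1 : ℝ)) (a := (-1/2 : ℝ)) ⟨h1, by linarith⟩

lemma rp_eq_zero {t : UnitAddCircle} : rp t = 0 ↔ t = 0 := by
  constructor
  · intro h
    rw [← coe_rp t, h]; rfl
  · intro h
    rw [h]
    exact rp_coe (y := 0) (by norm_num) (by norm_num)

lemma rp_add {s t : UnitAddCircle} (hs : |rp s| < 1/4) (ht : |rp t| < 1/4) :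
    rp (s + t) = rp s + rp t := by
  rw [abs_lt] at hs ht
  conv_lhs => rw [← coe_rp s, ← coe_rp t, ← AddCircle.coe_add]
  exact rp_coe (by linarith) (by linarith)

lemma rp_sub {s t : UnitAddCircle} (hs : |rp s| < 1/4) (ht : |rp t| < 1/4) :
    rp (s - t) = rp s - rp t := by
  rw [abs_lt] at hs ht
  conv_lhs => rw [← coe_rp s, ← coe_rp t, ← AddCircle.coe_sub]
  exact rp_coe (by linarith) (by linarith)

lemma normSq_toCircle_sub_one (t : UnitAddCircle) :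
    ‖((AddCircle.toCircle t : Circle) : ℂ) - 1‖ ^ 2 = 2 - 2 * Real.cos (2 * Real.pi * rp t) := by
  conv_lhs => rw [← coe_rp t]
  rw [AddCircle.toCircle_apply_mk, Circle.coe_exp, ← Complex.normSq_eq_norm_sq,
    Complex.normSq_apply]
  simp only [Complex.sub_re, Complex.sub_im, Complex.one_re, Complex.one_im,
    Complex.exp_ofReal_mul_I_re, Complex.exp_ofReal_mul_I_im]
  have h := Real.sin_sq_add_cos_sq (2 * Real.pi / 1 * rp t)
  rw [div_one] at *
  nlinarith [h]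

lemma two_le_normSq {t : UnitAddCircle} (h : 1/4 ≤ |rp t|) :
    2 ≤ ‖((AddCircle.toCircle t : Circle) : ℂ) - 1‖ ^ 2 := by
  rw [normSq_toCircle_sub_one]
  have h2 := rp_mem t
  have hc : Real.cos (2 * Real.pi * rp t) ≤ 0 := by
    rw [← Real.cos_abs, abs_mul, abs_of_pos (by positivity : (0:ℝ) < 2 * Real.pi)]
    have h3 : |rp t| ≤ 1/2 := by rw [abs_le]; constructor <;> linarith [h2.1, h2.2]
    apply Real.cos_nonpos_of_pi_div_two_le_of_le
    · nlinarith [Real.pi_pos]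
    · nlinarith [Real.pi_pos]
  linarith

/-- The positive sector. -/
def QP (a b : ℝ) : Prop := (0 < a ∧ 0 ≤ b) ∨ (a < 0 ∧ b ≤ 0)

/-- The negative sector. -/
def QM (a b : ℝ) : Prop := (a ≤ 0 ∧ 0 < b) ∨ (0 ≤ a ∧ b < 0)

/-- The small box. -/
def DD (a b : ℝ) : Prop := |a| < 1/4 ∧ |b| < 1/4

open Classical in
/-- `x` if `P` holds and `0` otherwise. -/
noncomputable def ind (P : Prop) (x : ℝ) : ℝ := if P then x else 0

lemma ind_pos {P : Prop} (h : P) (x : ℝ) : ind P x = x := by simp [ind, h]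

lemma ind_neg {P : Prop} (h : ¬ P) (x : ℝ) : ind P x = 0 := by simp [ind, h]

lemma ind_nonneg (P : Prop) {x : ℝ} (hx : 0 ≤ x) : 0 ≤ ind P x := by
  by_cases h : P
  · rw [ind_pos h]; exact hx
  · rw [ind_neg h]

lemma qp_or {a b : ℝ} (h : ¬ (a = 0 ∧ b = 0)) : (QP a b ∧ ¬ QM a b) ∨ (¬ QP a b ∧ QM a b) := by
  unfold QP QM
  rcases lt_trichotomy a 0 with h1 | h1 | h1
  · rcases lt_or_ge 0 b with h2 | h2
    · right
      refine ⟨?_, Or.inl ⟨h1.le, h2⟩⟩
      rintro (⟨h3, _⟩ | ⟨_, h3⟩) <;> linarith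
    · left
      refine ⟨Or.inr ⟨h1, h2⟩, ?_⟩
      rintro (⟨_, h3⟩ | ⟨h3, _⟩) <;> linarith
  · right
    rcases lt_trichotomy b 0 with h2 | h2 | h2
    · refine ⟨?_, Or.inr ⟨h1.ge, h2⟩⟩
      rintro (⟨h3, _⟩ | ⟨h3, _⟩) <;> linarith
    · exact absurd ⟨h1, h2⟩ h
    · refine ⟨?_, Or.inl ⟨h1.le, h2⟩⟩
      rintro (⟨h3, _⟩ | ⟨h3, _⟩) <;> linarith
  · rcases lt_or_ge b 0 with h2 | h2
    · right
      refine ⟨?_, Or.inr ⟨h1.le, h2⟩⟩
      rintro (⟨_, h3⟩ | ⟨h3, _⟩) <;> linarith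
    · left
      refine ⟨Or.inl ⟨h1, h2⟩, ?_⟩
      rintro (⟨h3, _⟩ | ⟨_, h3⟩) <;> linarith

lemma sum_ind_le {Y : Type*} [Fintype Y] (e : Equiv.Perm Y) (w : Y → ℝ) (hw : ∀ y, 0 ≤ w y)
    (P Q : Y → Prop) (h : ∀ y, P y → Q (e y)) :
    ∑ y, ind (P y) (w (e y)) ≤ ∑ y, ind (Q y) (w y) := by
  rw [← Equiv.sum_comp e (fun y => ind (Q y) (w y))]
  apply Finset.sum_le_sum
  intro y _
  by_cases hP : P y
  · rw [ind_pos hP, ind_pos (h y hP)]
  · rw [ind_neg hP]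
    exact ind_nonneg _ (hw _)

lemma sector_le {Y : Type*} [Fintype Y] (e f : Equiv.Perm Y) (w d d' : Y → ℝ)
    (hw : ∀ y, 0 ≤ w y) (hd0 : ∀ y, 0 ≤ d y) (hd0' : ∀ y, 0 ≤ d' y)
    (hd : ∀ y, w y - w (e y) ≤ 8 * d y + (w y + w (e y)) / 16)
    (hd' : ∀ y, w y - w (f y) ≤ 8 * d' y + (w y + w (f y)) / 16)
    (E Q R : Y → Prop) (h1 : ∀ y, E y → Q (e y) ∧ R (e y)) (h2 : ∀ y, E y → Q (f y) ∧ ¬ R (f y)) :
    2 * ∑ y, ind (E y) (w y) ≤ ∑ y, ind (Q y) (w y) +
      8 * ∑ y, d y + 8 * ∑ y, d' y + (∑ y, w y) / 4 := by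
  have key : ∀ (g : Equiv.Perm Y) (c : Y → ℝ), (∀ y, 0 ≤ c y) →
      (∀ y, w y - w (g y) ≤ 8 * c y + (w y + w (g y)) / 16) →
      ∑ y, ind (E y) (w y) ≤ ∑ y, ind (E y) (w (g y)) +
        8 * ∑ y, c y + (∑ y, w y) / 8 := by
    intro g c hc0 hc
    have hg : ∑ y, w (g y) = ∑ y, w y := Equiv.sum_comp g w
    have : (∑ y, w y) / 8 = ∑ y, (w y + w (g y)) / 16 := by
      rw [← Finset.sum_div, Finset.sum_add_distrib, hg]; ring
    rw [this, Finset.mul_sum, ← Finset.sum_add_distrib, ← Finset.sum_add_distrib]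
    apply Finset.sum_le_sum
    intro y _
    by_cases hE : E y
    · rw [ind_pos hE, ind_pos hE]
      linarith [hc y]
    · rw [ind_neg hE, ind_neg hE]
      linarith [hc0 y, hw y, hw (g y)]
  have k1 := key e d hd0 hd
  have k2 := key f d' hd0' hd'
  have s1 := sum_ind_le e w hw E (fun y => Q y ∧ R y) h1
  have s2 := sum_ind_le f w hw E (fun y => Q y ∧ ¬ R y) h2
  have s3 : ∑ y, ind (Q y ∧ R y) (w y) + ∑ y, ind (Q y ∧ ¬ R y) (w y)
      = ∑ y, ind (Q y) (w y) := by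
    rw [← Finset.sum_add_distrib]
    apply Finset.sum_congr rfl
    intro y _
    by_cases hQ : Q y <;> by_cases hR : R y <;> simp [hQ, hR, ind]
  linarith

/-- **The two-shear inequality.**  A function on a finite set with an equivariant map to the
two-torus that is almost invariant under the two shears and almost concentrated near the origin
has almost no mass off the origin. -/
theorem shear_gap {Y : Type*} [Fintype Y] (a b : Y → UnitAddCircle) (e f : Equiv.Perm Y)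
    (ea : ∀ y, a (e y) = a y + b y) (eb : ∀ y, b (e y) = b y)
    (fa : ∀ y, a (f y) = a y) (fb : ∀ y, b (f y) = a y + b y) (X : Y → ℂ) :
    ∑ y, ind (¬ (a y = 0 ∧ b y = 0)) (‖X y‖ ^ 2) ≤
      2 * ∑ y, (‖((AddCircle.toCircle (a y) : Circle) : ℂ) - 1‖ ^ 2
        + ‖((AddCircle.toCircle (b y) : Circle) : ℂ) - 1‖ ^ 2) * ‖X y‖ ^ 2
      + 32 * ∑ y, ‖X (e y) - X y‖ ^ 2 + 32 * ∑ y, ‖X (f y) - X y‖ ^ 2 := by
  set w : Y → ℝ := fun y => ind (¬ (a y = 0 ∧ b y = 0)) (‖X y‖ ^ 2) with hwdef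
  have hw : ∀ y, 0 ≤ w y := by
    intro y; exact ind_nonneg _ (by positivity)
  set W := ∑ y, w y with hW
  -- inverse relations
  have ea' : ∀ y, a (e.symm y) = a y - b y := by
    intro y
    have h1 := ea (e.symm y)
    have h2 := eb (e.symm y)
    rw [Equiv.apply_symm_apply] at h1 h2
    rw [h1, h2]; abel
  have eb' : ∀ y, b (e.symm y) = b y := by
    intro y
    have h2 := eb (e.symm y)
    rw [Equiv.apply_symm_apply] at h2
    exact h2.symm
  have fa' : ∀ y, a (f.symm y) = a y := by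
    intro y
    have h2 := fa (f.symm y)
    rw [Equiv.apply_symm_apply] at h2
    exact h2.symm
  have fb' : ∀ y, b (f.symm y) = b y - a y := by
    intro y
    have h1 := fb (f.symm y)
    have h2 := fa (f.symm y)
    rw [Equiv.apply_symm_apply] at h1 h2
    rw [h1, h2]; abel
  have real_ineq : ∀ u v : ℝ, 0 ≤ u → 0 ≤ v → u ^ 2 - v ^ 2 ≤ 8 * (v - u) ^ 2 + (u ^ 2 + v ^ 2) / 16 := by
    intro u v hu hv
    nlinarith [sq_nonneg (16 * (u - v) - (u + v)), sq_nonneg (u - v), sq_nonneg (u+v)]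
  have cx : ∀ y z : Y, ‖X y‖ ^ 2 - ‖X z‖ ^ 2 ≤ 8 * ‖X z - X y‖ ^ 2 + (‖X y‖ ^ 2 + ‖X z‖ ^ 2) / 16 := by
    intro y z
    have h1 := real_ineq ‖X y‖ ‖X z‖ (norm_nonneg _) (norm_nonneg _)
    have h2 : (‖X z‖ - ‖X y‖) ^ 2 ≤ ‖X z - X y‖ ^ 2 := by
      rw [← sq_abs (‖X z‖ - ‖X y‖)]
      exact pow_le_pow_left₀ (abs_nonneg _) (abs_norm_sub_norm_le _ _) 2
    linarith
  have cw : ∀ y z : Y, ((a y = 0 ∧ b y = 0) ↔ (a z = 0 ∧ b z = 0)) →
      w y - w z ≤ 8 * ‖X z - X y‖ ^ 2 + (w y + w z) / 16 := by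
    intro y z hyz
    simp only [hwdef]
    by_cases h : a y = 0 ∧ b y = 0
    · rw [ind_neg (not_not_intro h), ind_neg (not_not_intro (hyz.1 h))]
      have : 0 ≤ ‖X z - X y‖ ^ 2 := by positivity
      linarith
    · rw [ind_pos h, ind_pos (fun h' => h (hyz.2 h'))]
      exact cx y z
  have ie : ∀ y, (a y = 0 ∧ b y = 0) ↔ (a (e y) = 0 ∧ b (e y) = 0) := by
    intro y; rw [ea, eb]
    constructor
    · rintro ⟨h1, h2⟩; simp [h1, h2]
    · rintro ⟨h1, h2⟩; rw [h2, add_zero] at h1; exact ⟨h1, h2⟩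
  have iff' : ∀ y, (a y = 0 ∧ b y = 0) ↔ (a (f y) = 0 ∧ b (f y) = 0) := by
    intro y; rw [fa, fb]
    constructor
    · rintro ⟨h1, h2⟩; simp [h1, h2]
    · rintro ⟨h1, h2⟩; rw [h1, zero_add] at h2; exact ⟨h1, h2⟩
  have ie' : ∀ y, (a y = 0 ∧ b y = 0) ↔ (a (e.symm y) = 0 ∧ b (e.symm y) = 0) := by
    intro y
    have := ie (e.symm y)
    rw [Equiv.apply_symm_apply] at this
    exact this.symm
  have iff'' : ∀ y, (a y = 0 ∧ b y = 0) ↔ (a (f.symm y) = 0 ∧ b (f.symm y) = 0) := by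
    intro y
    have := iff' (f.symm y)
    rw [Equiv.apply_symm_apply] at this
    exact this.symm
  -- differences along the inverses
  have se : ∑ y, ‖X (e.symm y) - X y‖ ^ 2 = ∑ y, ‖X (e y) - X y‖ ^ 2 := by
    rw [← Equiv.sum_comp e (fun y => ‖X (e.symm y) - X y‖ ^ 2)]
    apply Finset.sum_congr rfl
    intro y _
    rw [Equiv.symm_apply_apply, norm_sub_rev]
  have sf : ∑ y, ‖X (f.symm y) - X y‖ ^ 2 = ∑ y, ‖X (f y) - X y‖ ^ 2 := by
    rw [← Equiv.sum_comp f (fun y => ‖X (f.symm y) - X y‖ ^ 2)]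
    apply Finset.sum_congr rfl
    intro y _
    rw [Equiv.symm_apply_apply, norm_sub_rev]
  -- sectors
  have P := sector_le e f w (fun y => ‖X (e y) - X y‖ ^ 2) (fun y => ‖X (f y) - X y‖ ^ 2) hw
    (fun y => by positivity) (fun y => by positivity)
    (fun y => cw y (e y) (ie y)) (fun y => cw y (f y) (iff' y))
    (fun y => QP (rp (a y)) (rp (b y)) ∧ DD (rp (a y)) (rp (b y)))
    (fun y => QP (rp (a y)) (rp (b y)))
    (fun y => |rp (b y)| < |rp (a y)|)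
    (by
      rintro y ⟨hq, hd1, hd2⟩
      rw [ea, eb, rp_add hd1 hd2]
      rcases hq with ⟨h1, h2⟩ | ⟨h1, h2⟩
      · exact ⟨Or.inl ⟨by linarith, h2⟩, by
          rw [abs_of_nonneg h2, abs_of_pos (by linarith)]; linarith⟩
      · exact ⟨Or.inr ⟨by linarith, h2⟩, by
          rw [abs_of_nonpos h2, abs_of_neg (by linarith)]; linarith⟩)
    (by
      rintro y ⟨hq, hd1, hd2⟩
      rw [fa, fb, rp_add hd1 hd2]
      rcases hq with ⟨h1, h2⟩ | ⟨h1, h2⟩
      · exact ⟨Or.inl ⟨h1, by linarith⟩, by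
          rw [abs_of_pos h1, abs_of_pos (by linarith)]; linarith⟩
      · exact ⟨Or.inr ⟨h1, by linarith⟩, by
          rw [abs_of_neg h1, abs_of_neg (by linarith)]; linarith⟩)
  have M := sector_le e.symm f.symm w (fun y => ‖X (e.symm y) - X y‖ ^ 2)
    (fun y => ‖X (f.symm y) - X y‖ ^ 2) hw
    (fun y => by positivity) (fun y => by positivity)
    (fun y => cw y (e.symm y) (ie' y)) (fun y => cw y (f.symm y) (iff'' y))
    (fun y => QM (rp (a y)) (rp (b y)) ∧ DD (rp (a y)) (rp (b y)))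
    (fun y => QM (rp (a y)) (rp (b y)))
    (fun y => |rp (b y)| ≤ |rp (a y)|)
    (by
      rintro y ⟨hq, hd1, hd2⟩
      rw [ea', eb', rp_sub hd1 hd2]
      rcases hq with ⟨h1, h2⟩ | ⟨h1, h2⟩
      · exact ⟨Or.inl ⟨by linarith, h2⟩, by
          rw [abs_of_pos h2, abs_of_neg (by linarith)]; linarith⟩
      · exact ⟨Or.inr ⟨by linarith, h2⟩, by
          rw [abs_of_neg h2, abs_of_pos (by linarith)]; linarith⟩)
    (by
      rintro y ⟨hq, hd1, hd2⟩
      rw [fa', fb', rp_sub hd2 hd1]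
      rcases hq with ⟨h1, h2⟩ | ⟨h1, h2⟩
      · exact ⟨Or.inl ⟨h1, by linarith⟩, by
          rw [abs_of_nonpos h1, abs_of_pos (by linarith)]; linarith⟩
      · exact ⟨Or.inr ⟨h1, by linarith⟩, by
          rw [abs_of_nonneg h1, abs_of_neg (by linarith)]; linarith⟩)
  rw [se, sf] at M
  -- split of the sum
  have split1 : ∀ y, w y = ind (QP (rp (a y)) (rp (b y))) (w y)
      + ind (QM (rp (a y)) (rp (b y))) (w y) := by
    intro y
    by_cases h0 : a y = 0 ∧ b y = 0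
    · simp [hwdef, h0, ind]
    · have h0' : ¬ (rp (a y) = 0 ∧ rp (b y) = 0) := by rw [rp_eq_zero, rp_eq_zero]; exact h0
      rcases qp_or h0' with ⟨h1, h2⟩ | ⟨h1, h2⟩
      · rw [ind_pos h1, ind_neg h2, add_zero]
      · rw [ind_neg h1, ind_pos h2, zero_add]
  -- the outside of the box
  have out : ∀ y, ¬ DD (rp (a y)) (rp (b y)) → 2 * w y ≤
      (‖((AddCircle.toCircle (a y) : Circle) : ℂ) - 1‖ ^ 2
        + ‖((AddCircle.toCircle (b y) : Circle) : ℂ) - 1‖ ^ 2) * ‖X y‖ ^ 2 := by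
    intro y hy
    have hwx : w y ≤ ‖X y‖ ^ 2 := by
      by_cases h0 : ¬ (a y = 0 ∧ b y = 0)
      · simp only [hwdef]
        rw [ind_pos h0]
      · simp only [hwdef]
        rw [ind_neg h0]
        positivity
    have h2 : 2 ≤ ‖((AddCircle.toCircle (a y) : Circle) : ℂ) - 1‖ ^ 2
        + ‖((AddCircle.toCircle (b y) : Circle) : ℂ) - 1‖ ^ 2 := by
      unfold DD at hy
      rw [not_and_or, not_lt, not_lt] at hy
      rcases hy with h | h
      · have := two_le_normSq h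
        have h3 : 0 ≤ ‖((AddCircle.toCircle (b y) : Circle) : ℂ) - 1‖ ^ 2 := by positivity
        linarith
      · have := two_le_normSq h
        have h3 : 0 ≤ ‖((AddCircle.toCircle (a y) : Circle) : ℂ) - 1‖ ^ 2 := by positivity
        linarith
    calc 2 * w y ≤ 2 * ‖X y‖ ^ 2 := by linarith
      _ ≤ _ := mul_le_mul_of_nonneg_right h2 (by positivity)
  have tot : ∀ y, w y + ind (QP (rp (a y)) (rp (b y))) (w y)
      + ind (QM (rp (a y)) (rp (b y))) (w y) ≤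
      2 * ind (QP (rp (a y)) (rp (b y)) ∧ DD (rp (a y)) (rp (b y))) (w y)
      + 2 * ind (QM (rp (a y)) (rp (b y)) ∧ DD (rp (a y)) (rp (b y))) (w y)
      + (‖((AddCircle.toCircle (a y) : Circle) : ℂ) - 1‖ ^ 2
        + ‖((AddCircle.toCircle (b y) : Circle) : ℂ) - 1‖ ^ 2) * ‖X y‖ ^ 2 := by
    intro y
    have hs := split1 y
    have hnn : 0 ≤ (‖((AddCircle.toCircle (a y) : Circle) : ℂ) - 1‖ ^ 2
        + ‖((AddCircle.toCircle (b y) : Circle) : ℂ) - 1‖ ^ 2) * ‖X y‖ ^ 2 := by positivity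
    by_cases hD : DD (rp (a y)) (rp (b y))
    · simp only [hD, and_true]
      linarith
    · have h1 : ¬ (QP (rp (a y)) (rp (b y)) ∧ DD (rp (a y)) (rp (b y))) := fun h => hD h.2
      have h2 : ¬ (QM (rp (a y)) (rp (b y)) ∧ DD (rp (a y)) (rp (b y))) := fun h => hD h.2
      rw [ind_neg h1, ind_neg h2]
      have := out y hD
      linarith
  have tot2 := Finset.sum_le_sum (fun y (_ : y ∈ Finset.univ) => tot y)
  simp only [Finset.sum_add_distrib, ← Finset.mul_sum] at tot2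
  have hQ : ∑ y, ind (QP (rp (a y)) (rp (b y))) (w y)
      + ∑ y, ind (QM (rp (a y)) (rp (b y))) (w y) = W := by
    rw [hW, ← Finset.sum_add_distrib]
    exact (Finset.sum_congr rfl (fun y _ => split1 y)).symm
  have hWw : ∑ y, w y = W := rfl
  rw [hWw] at P M tot2
  linarith

end Pool.Agent.X207.FR
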