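import Mathlib
import Pool.Agent.X207.FRPing

set_option autoImplicit false

namespace Pool.Agent.X207.FR

open Complex ComplexConjugate

section Four

variable {N : ℕ} [NeZero N]

/-- The square torus group `(ℤ/N)²`. -/
abbrev Tor (N : ℕ) := ZMod N × ZMod N

/-- First shear. -/
def shS (N : ℕ) : Equiv.Perm (Tor N) where
  toFun x := (x.1 + x.2, x.2)
  invFun x := (x.1 - x.2, x.2)
  left_inv x := by simp
  right_inv x := by simp

/-- Second shear. -/
def shT (N : ℕ) : Equiv.Perm (Tor N) where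
  toFun x := (x.1, x.1 + x.2)
  invFun x := (x.1, x.2 - x.1)
  left_inv x := by simp
  right_inv x := by simp

/-- First translation. -/
def tr1 (N : ℕ) : Equiv.Perm (Tor N) where
  toFun x := (x.1 + 1, x.2)
  invFun x := (x.1 - 1, x.2)
  left_inv x := by simp
  right_inv x := by simp

/-- Second translation. -/
def tr2 (N : ℕ) : Equiv.Perm (Tor N) where
  toFun x := (x.1, x.2 + 1)
  invFun x := (x.1, x.2 - 1)
  left_inv x := by simp
  right_inv x := by simp

/-- The pairing character. -/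
noncomputable def chr (u x : Tor N) : ℂ := ZMod.stdAddChar (N := N) (u.1 * x.1 + u.2 * x.2)

/-- The finite Fourier transform (unnormalised). -/
noncomputable def ft (f : Tor N → ℂ) (u : Tor N) : ℂ := ∑ x, chr u x * f x

lemma chr_norm (u x : Tor N) : ‖chr u x‖ = 1 := by
  unfold chr
  rw [ZMod.stdAddChar_apply]
  exact Circle.norm_coe _

lemma sum_chr (z : Tor N) : ∑ u : Tor N, chr u z = if z = 0 then (N : ℂ) ^ 2 else 0 := by
  unfold chr
  rw [Fintype.sum_prod_type]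
  simp only [AddChar.map_add_eq_mul]
  simp_rw [← Finset.mul_sum]
  rw [← Finset.sum_mul, AddChar.sum_mulShift _ (ZMod.isPrimitive_stdAddChar N),
    AddChar.sum_mulShift _ (ZMod.isPrimitive_stdAddChar N), ZMod.card]
  by_cases h1 : z.1 = 0 <;> by_cases h2 : z.2 = 0 <;> simp [h1, h2, Prod.ext_iff, sq]

lemma parseval (f : Tor N → ℂ) : ∑ u, ‖ft f u‖ ^ 2 = (N : ℝ) ^ 2 * ∑ x, ‖f x‖ ^ 2 := by
  have h : ((∑ u, ‖ft f u‖ ^ 2 : ℝ) : ℂ) = (((N : ℝ) ^ 2 * ∑ x, ‖f x‖ ^ 2 : ℝ) : ℂ) := by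
    push_cast
    have e1 : ∀ u, ((‖ft f u‖ : ℂ)) ^ 2 = ∑ x, ∑ y, chr u (x - y) * (f x * conj (f y)) := by
      intro u
      rw [← Complex.mul_conj']
      unfold ft
      rw [map_sum, Finset.sum_mul_sum]
      apply Finset.sum_congr rfl; intro x _
      apply Finset.sum_congr rfl; intro y _
      have : chr u (x - y) = chr u x * conj (chr u y) := by
        unfold chr
        rw [← AddChar.map_neg_eq_conj, ← AddChar.map_add_eq_mul]
        congr 1
        simp only [Prod.fst_sub, Prod.snd_sub]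
        ring
      rw [this, map_mul]; ring
    simp_rw [e1]
    rw [Finset.sum_comm]
    have e2 : ∀ x, ∑ u, ∑ y, chr u (x - y) * (f x * conj (f y)) = (N : ℂ) ^ 2 * (‖f x‖ : ℂ) ^ 2 := by
      intro x
      rw [Finset.sum_comm]
      simp_rw [← Finset.sum_mul, sum_chr, sub_eq_zero]
      rw [← Complex.mul_conj']
      simp
    simp_rw [e2, ← Finset.mul_sum]
  exact_mod_cast h

lemma ft_sub (f g : Tor N → ℂ) (u : Tor N) : ft (fun x => f x - g x) u = ft f u - ft g u := by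
  unfold ft
  rw [← Finset.sum_sub_distrib]
  apply Finset.sum_congr rfl; intro x _; ring

lemma ft_S (f : Tor N → ℂ) (u : Tor N) : ft (fun x => f (shS N x)) u = ft f ((shT N).symm u) := by
  unfold ft
  rw [← Equiv.sum_comp (shS N) (fun x => chr ((shT N).symm u) x * f x)]
  apply Finset.sum_congr rfl; intro x _
  congr 1
  unfold chr
  congr 1
  simp only [shS, shT, Equiv.coe_fn_mk, Equiv.coe_fn_symm_mk]
  ring

lemma ft_T (f : Tor N → ℂ) (u : Tor N) : ft (fun x => f (shT N x)) u = ft f ((shS N).symm u) := by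
  unfold ft
  rw [← Equiv.sum_comp (shT N) (fun x => chr ((shS N).symm u) x * f x)]
  apply Finset.sum_congr rfl; intro x _
  congr 1
  unfold chr
  congr 1
  simp only [shS, shT, Equiv.coe_fn_mk, Equiv.coe_fn_symm_mk]
  ring

lemma ft_1 (f : Tor N → ℂ) (u : Tor N) :
    ft (fun x => f (tr1 N x)) u = conj (ZMod.stdAddChar (N := N) u.1) * ft f u := by
  unfold ft
  rw [← Equiv.sum_comp (tr1 N) (fun x => chr u x * f x), Finset.mul_sum]
  apply Finset.sum_congr rfl; intro x _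
  rw [← mul_assoc]
  congr 1
  unfold chr
  rw [← AddChar.map_neg_eq_conj, ← AddChar.map_add_eq_mul]
  congr 1
  simp only [tr1, Equiv.coe_fn_mk]
  ring

lemma ft_2 (f : Tor N → ℂ) (u : Tor N) :
    ft (fun x => f (tr2 N x)) u = conj (ZMod.stdAddChar (N := N) u.2) * ft f u := by
  unfold ft
  rw [← Equiv.sum_comp (tr2 N) (fun x => chr u x * f x), Finset.mul_sum]
  apply Finset.sum_congr rfl; intro x _
  rw [← mul_assoc]
  congr 1
  unfold chr
  rw [← AddChar.map_neg_eq_conj, ← AddChar.map_add_eq_mul]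
  congr 1
  simp only [tr2, Equiv.coe_fn_mk]
  ring

lemma norm_conj_sub_one (z : ℂ) : ‖conj z - 1‖ = ‖z - 1‖ := by
  rw [← Complex.norm_conj, map_sub, Complex.conj_conj, map_one]

lemma stdAddChar_eq (j : ZMod N) :
    ZMod.stdAddChar (N := N) j = ((AddCircle.toCircle (ZMod.toAddCircle j) : Circle) : ℂ) := by
  rw [ZMod.stdAddChar_apply]
  rfl

/-- **The affine gap on the square torus.** -/
theorem affine_gap (f : Tor N → ℂ) (hf : ∑ x, f x = 0) :
    ∑ x, ‖f x‖ ^ 2 ≤ 2 * (∑ x, ‖f (tr1 N x) - f x‖ ^ 2 + ∑ x, ‖f (tr2 N x) - f x‖ ^ 2)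
      + 32 * ∑ x, ‖f (shS N x) - f x‖ ^ 2 + 32 * ∑ x, ‖f (shT N x) - f x‖ ^ 2 := by
  have hN : (0 : ℝ) < (N : ℝ) ^ 2 := by
    have := NeZero.pos N
    positivity
  have key := shear_gap (Y := Tor N) (fun u => ZMod.toAddCircle u.1)
    (fun u => ZMod.toAddCircle u.2) (shS N) (shT N)
    (fun y => by simp [shS]) (fun y => by simp [shS])
    (fun y => by simp [shT]) (fun y => by simp [shT]) (ft f)
  have h0 : ∑ y : Tor N, ind (¬ (ZMod.toAddCircle y.1 = 0 ∧ ZMod.toAddCircle y.2 = 0)) (‖ft f y‖ ^ 2)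
      = ∑ y, ‖ft f y‖ ^ 2 := by
    apply Finset.sum_congr rfl
    intro y _
    by_cases h : ZMod.toAddCircle y.1 = 0 ∧ ZMod.toAddCircle y.2 = 0
    · rw [ind_neg (not_not_intro h)]
      rw [ZMod.toAddCircle_eq_zero, ZMod.toAddCircle_eq_zero] at h
      have : ft f y = 0 := by
        unfold ft chr
        rw [h.1, h.2]
        simp [hf]
      rw [this]; simp
    · rw [ind_pos h]
  rw [h0, parseval] at key
  have hS : ∑ u, ‖ft f (shS N u) - ft f u‖ ^ 2 = (N : ℝ) ^ 2 * ∑ x, ‖f (shT N x) - f x‖ ^ 2 := by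
    rw [← parseval, ← Equiv.sum_comp (shS N).symm (fun u => ‖ft f (shS N u) - ft f u‖ ^ 2)]
    apply Finset.sum_congr rfl; intro u _
    rw [ft_sub, ft_T, Equiv.apply_symm_apply, norm_sub_rev]
  have hT : ∑ u, ‖ft f (shT N u) - ft f u‖ ^ 2 = (N : ℝ) ^ 2 * ∑ x, ‖f (shS N x) - f x‖ ^ 2 := by
    rw [← parseval, ← Equiv.sum_comp (shT N).symm (fun u => ‖ft f (shT N u) - ft f u‖ ^ 2)]
    apply Finset.sum_congr rfl; intro u _
    rw [ft_sub, ft_S, Equiv.apply_symm_apply, norm_sub_rev]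
  have h1 : ∑ u : Tor N, ‖((AddCircle.toCircle (ZMod.toAddCircle u.1) : Circle) : ℂ) - 1‖ ^ 2
      * ‖ft f u‖ ^ 2 = (N : ℝ) ^ 2 * ∑ x, ‖f (tr1 N x) - f x‖ ^ 2 := by
    rw [← parseval]
    apply Finset.sum_congr rfl; intro u _
    rw [ft_sub, ft_1, ← stdAddChar_eq, ← norm_conj_sub_one, ← mul_pow, ← norm_mul]
    congr 2; ring
  have h2 : ∑ u : Tor N, ‖((AddCircle.toCircle (ZMod.toAddCircle u.2) : Circle) : ℂ) - 1‖ ^ 2
      * ‖ft f u‖ ^ 2 = (N : ℝ) ^ 2 * ∑ x, ‖f (tr2 N x) - f x‖ ^ 2 := by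
    rw [← parseval]
    apply Finset.sum_congr rfl; intro u _
    rw [ft_sub, ft_2, ← stdAddChar_eq, ← norm_conj_sub_one, ← mul_pow, ← norm_mul]
    congr 2; ring
  rw [hS, hT] at key
  simp_rw [add_mul] at key
  rw [Finset.sum_add_distrib, h1, h2] at key
  have := le_of_mul_le_mul_left (a := (N : ℝ) ^ 2) (b := ∑ x, ‖f x‖ ^ 2)
    (c := 2 * (∑ x, ‖f (tr1 N x) - f x‖ ^ 2 + ∑ x, ‖f (tr2 N x) - f x‖ ^ 2)
      + 32 * ∑ x, ‖f (shS N x) - f x‖ ^ 2 + 32 * ∑ x, ‖f (shT N x) - f x‖ ^ 2) (by linarith) hN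
  exact this

end Four

end Pool.Agent.X207.FR
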