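import Mathlib
import Pool.Agent.X207.FRFour

set_option autoImplicit false

namespace Pool.Agent.X207.FR

open Complex ComplexConjugate

/-- The permutation attached to a generator. -/
def gs (s : Fin 6) (N : ℕ) : Equiv.Perm (Tor N) :=
  match s with
  | 0 => tr1 N
  | 1 => tr2 N
  | 2 => shS N
  | 3 => shT N
  | 4 => 1
  | 5 => 1

/-- The phase attached to a generator. -/
noncomputable def gp (s : Fin 6) (N : ℕ) [NeZero N] (y : Tor N) : ℂ :=
  match s with
  | 0 => 1
  | 1 => 1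
  | 2 => 1
  | 3 => 1
  | 4 => ZMod.stdAddChar (N := N) y.1
  | 5 => ZMod.stdAddChar (N := N) y.2

lemma gp_norm (s : Fin 6) (N : ℕ) [NeZero N] (y : Tor N) : ‖gp s N y‖ = 1 := by
  fin_cases s
  · simp [gp]
  · simp [gp]
  · simp [gp]
  · simp [gp]
  · show ‖ZMod.stdAddChar (N := N) y.1‖ = 1
    rw [ZMod.stdAddChar_apply]; exact Circle.norm_coe _
  · show ‖ZMod.stdAddChar (N := N) y.2‖ = 1
    rw [ZMod.stdAddChar_apply]; exact Circle.norm_coe _

/-- The energy of a block for one generator. -/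
noncomputable def en (s : Fin 6) {N M : ℕ} [NeZero N] [NeZero M] (X : Tor N → Tor M → ℂ) : ℝ :=
  ∑ y, ∑ x, ‖conj (gp s N y) * gp s M x * X (gs s N y) (gs s M x) - X y x‖ ^ 2

lemma en_nonneg (s : Fin 6) {N M : ℕ} [NeZero N] [NeZero M] (X : Tor N → Tor M → ℂ) :
    0 ≤ en s X := by
  unfold en; positivity

section

variable {N M : ℕ} [NeZero N] [NeZero M]

/-- First coordinate difference. -/
noncomputable def da (p : Tor N × Tor M) : UnitAddCircle :=
  ZMod.toAddCircle p.1.1 - ZMod.toAddCircle p.2.1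

/-- Second coordinate difference. -/
noncomputable def db (p : Tor N × Tor M) : UnitAddCircle :=
  ZMod.toAddCircle p.1.2 - ZMod.toAddCircle p.2.2

lemma block_shear (X : Tor N → Tor M → ℂ) :
    ∑ p : Tor N × Tor M, ind (¬ (da p = 0 ∧ db p = 0)) (‖X p.1 p.2‖ ^ 2) ≤
      2 * (en 4 X + en 5 X) + 32 * en 2 X + 32 * en 3 X := by
  have key := shear_gap (Y := Tor N × Tor M) da db
    (Equiv.prodCongr (shS N) (shS M)) (Equiv.prodCongr (shT N) (shT M))
    (fun y => by simp only [da, db, shS, Equiv.prodCongr_apply, Prod.map, Equiv.coe_fn_mk, map_add]; abel)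
    (fun y => by simp only [da, db, shS, Equiv.prodCongr_apply, Prod.map, Equiv.coe_fn_mk])
    (fun y => by simp only [da, db, shT, Equiv.prodCongr_apply, Prod.map, Equiv.coe_fn_mk])
    (fun y => by simp only [da, db, shT, Equiv.prodCongr_apply, Prod.map, Equiv.coe_fn_mk, map_add]; abel)
    (fun p => X p.1 p.2)
  have h2 : ∑ y : Tor N × Tor M, ‖X ((Equiv.prodCongr (shS N) (shS M)) y).1
      ((Equiv.prodCongr (shS N) (shS M)) y).2 - X y.1 y.2‖ ^ 2 = en 2 X := by
    rw [Fintype.sum_prod_type]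
    unfold en
    simp [gp, gs]
  have h3 : ∑ y : Tor N × Tor M, ‖X ((Equiv.prodCongr (shT N) (shT M)) y).1
      ((Equiv.prodCongr (shT N) (shT M)) y).2 - X y.1 y.2‖ ^ 2 = en 3 X := by
    rw [Fintype.sum_prod_type]
    unfold en
    simp [gp, gs]
  have hc : ∀ (u : ZMod N) (v : ZMod M),
      ‖((AddCircle.toCircle (ZMod.toAddCircle u - ZMod.toAddCircle v) : Circle) : ℂ) - 1‖
        = ‖conj (ZMod.stdAddChar (N := N) u) * ZMod.stdAddChar (N := M) v - 1‖ := by
    intro u v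
    have h1 : ((AddCircle.toCircle (ZMod.toAddCircle u - ZMod.toAddCircle v) : Circle) : ℂ)
        = ZMod.stdAddChar (N := N) u * conj (ZMod.stdAddChar (N := M) v) := by
      have h2 : AddCircle.toCircle (ZMod.toAddCircle u - ZMod.toAddCircle v)
          = AddCircle.toCircle (ZMod.toAddCircle u) * (AddCircle.toCircle (ZMod.toAddCircle v))⁻¹ := by
        rw [← AddCircle.toCircle_neg, ← AddCircle.toCircle_add, sub_eq_add_neg]
      rw [h2, stdAddChar_eq, stdAddChar_eq, Circle.coe_mul, Circle.coe_inv_eq_conj]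
    rw [← norm_conj_sub_one, h1, map_mul, Complex.conj_conj]
  have h4 : ∑ y : Tor N × Tor M, ‖((AddCircle.toCircle (da y) : Circle) : ℂ) - 1‖ ^ 2
      * ‖X y.1 y.2‖ ^ 2 = en 4 X := by
    rw [Fintype.sum_prod_type]
    unfold en
    apply Finset.sum_congr rfl; intro y _
    apply Finset.sum_congr rfl; intro x _
    simp only [da, gp, gs, Equiv.Perm.coe_one, id_eq]
    rw [hc, ← mul_pow, ← norm_mul]
    congr 2; ring
  have h5 : ∑ y : Tor N × Tor M, ‖((AddCircle.toCircle (db y) : Circle) : ℂ) - 1‖ ^ 2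
      * ‖X y.1 y.2‖ ^ 2 = en 5 X := by
    rw [Fintype.sum_prod_type]
    unfold en
    apply Finset.sum_congr rfl; intro y _
    apply Finset.sum_congr rfl; intro x _
    simp only [db, gp, gs, Equiv.Perm.coe_one, id_eq]
    rw [hc, ← mul_pow, ← norm_mul]
    congr 2; ring
  rw [h2, h3] at key
  simp_rw [add_mul] at key
  rw [Finset.sum_add_distrib, h4, h5] at key
  exact key

lemma sum_en (X : Tor N → Tor M → ℂ) :
    ∑ s, en s X = en 0 X + en 1 X + en 2 X + en 3 X + en 4 X + en 5 X := by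
  rw [Fin.sum_univ_six]

lemma toAddCircle_one_ne (h : N ≠ M) :
    (ZMod.toAddCircle (1 : ZMod N) : UnitAddCircle) ≠ ZMod.toAddCircle (1 : ZMod M) := by
  intro he
  have h1 : addOrderOf (ZMod.toAddCircle (1 : ZMod N) : UnitAddCircle) = N := by
    rw [addOrderOf_injective (ZMod.toAddCircle (N := N)) (ZMod.toAddCircle_injective N), ZMod.addOrderOf_one]
  have h2 : addOrderOf (ZMod.toAddCircle (1 : ZMod M) : UnitAddCircle) = M := by
    rw [addOrderOf_injective (ZMod.toAddCircle (N := M)) (ZMod.toAddCircle_injective M), ZMod.addOrderOf_one]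
  rw [he, h2] at h1
  exact h h1.symm

/-- **Off-diagonal blocks.** -/
theorem block_off (h : N ≠ M) (X : Tor N → Tor M → ℂ) :
    ∑ y, ∑ x, ‖X y x‖ ^ 2 ≤ 96 * ∑ s, en s X := by
  have hK := block_shear X
  set K := ∑ p : Tor N × Tor M, ind (¬ (da p = 0 ∧ db p = 0)) (‖X p.1 p.2‖ ^ 2) with hKdef
  have hE : ∑ p : Tor N × Tor M, ind (da p = 0 ∧ db p = 0) (‖X p.1 p.2‖ ^ 2) ≤ 2 * en 0 X + 2 * K := by
    have h0 : ∑ y : Tor N × Tor M, ‖X ((Equiv.prodCongr (tr1 N) (tr1 M)) y).1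
        ((Equiv.prodCongr (tr1 N) (tr1 M)) y).2 - X y.1 y.2‖ ^ 2 = en 0 X := by
      rw [Fintype.sum_prod_type]
      unfold en
      simp [gp, gs]
    have h1 := sum_ind_le (Equiv.prodCongr (tr1 N) (tr1 M))
      (fun p : Tor N × Tor M => ‖X p.1 p.2‖ ^ 2) (fun y => by positivity)
      (fun p => da p = 0 ∧ db p = 0) (fun p => ¬ (da p = 0 ∧ db p = 0))
      (by
        rintro p ⟨hp, _⟩ ⟨hq, _⟩
        simp only [da, Equiv.prodCongr_apply, Prod.map, tr1, Equiv.coe_fn_mk, map_add] at hp hq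
        apply toAddCircle_one_ne h
        rw [sub_eq_zero] at hp hq
        rw [hp] at hq
        exact add_left_cancel hq)
    have h2 : ∑ p : Tor N × Tor M, ind (da p = 0 ∧ db p = 0) (‖X p.1 p.2‖ ^ 2) ≤
        ∑ p : Tor N × Tor M, (2 * ‖X ((Equiv.prodCongr (tr1 N) (tr1 M)) p).1
        ((Equiv.prodCongr (tr1 N) (tr1 M)) p).2 - X p.1 p.2‖ ^ 2
        + 2 * ind (da p = 0 ∧ db p = 0) (‖X ((Equiv.prodCongr (tr1 N) (tr1 M)) p).1
        ((Equiv.prodCongr (tr1 N) (tr1 M)) p).2‖ ^ 2)) := by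
      apply Finset.sum_le_sum
      intro p _
      set u := X ((Equiv.prodCongr (tr1 N) (tr1 M)) p).1 ((Equiv.prodCongr (tr1 N) (tr1 M)) p).2
      set v := X p.1 p.2
      by_cases hp : da p = 0 ∧ db p = 0
      · rw [ind_pos hp, ind_pos hp]
        have h3 : ‖v‖ ≤ ‖u - v‖ + ‖u‖ := by
          calc ‖v‖ = ‖u - (u - v)‖ := by congr 1; ring
            _ ≤ ‖u‖ + ‖u - v‖ := norm_sub_le _ _
            _ = _ := add_comm _ _
        nlinarith [norm_nonneg v, norm_nonneg u, norm_nonneg (u - v), sq_nonneg (‖u - v‖ - ‖u‖),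
          mul_self_le_mul_self (norm_nonneg v) h3]
      · rw [ind_neg hp, ind_neg hp]
        positivity
    rw [Finset.sum_add_distrib, ← Finset.mul_sum, ← Finset.mul_sum, h0] at h2
    linarith
  have htot : ∑ y, ∑ x, ‖X y x‖ ^ 2 = ∑ p : Tor N × Tor M, ind (da p = 0 ∧ db p = 0) (‖X p.1 p.2‖ ^ 2)
      + K := by
    rw [← Fintype.sum_prod_type (f := fun p : Tor N × Tor M => ‖X p.1 p.2‖ ^ 2), hKdef,
      ← Finset.sum_add_distrib]
    apply Finset.sum_congr rfl; intro p _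
    by_cases hp : da p = 0 ∧ db p = 0 <;> simp [ind, hp]
  rw [htot, sum_en]
  linarith [en_nonneg 0 X, en_nonneg 1 X, en_nonneg 2 X, en_nonneg 3 X, en_nonneg 4 X,
    en_nonneg 5 X]

/-- **Diagonal blocks.** -/
theorem block_diag (X : Tor N → Tor N → ℂ) :
    ∑ y, ∑ x, ‖X y x - (if y = x then (∑ z, X z z) / (N : ℂ) ^ 2 else 0)‖ ^ 2 ≤
      96 * ∑ s, en s X := by
  have hK := block_shear X
  set c := (∑ z, X z z) / (N : ℂ) ^ 2 with hc
  set K := ∑ p : Tor N × Tor N, ind (¬ (da p = 0 ∧ db p = 0)) (‖X p.1 p.2‖ ^ 2) with hKdef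
  have hN : (N : ℂ) ≠ 0 := by exact_mod_cast NeZero.ne N
  have hf := affine_gap (N := N) (fun x => X x x - c) (by
    rw [Finset.sum_sub_distrib, Finset.sum_const, Finset.card_univ, hc]
    have : (Fintype.card (Tor N) : ℕ) = N ^ 2 := by
      rw [Fintype.card_prod, ZMod.card]; ring
    rw [this]
    simp only [nsmul_eq_mul, Nat.cast_pow]
    field_simp
    ring)
  simp only [sub_sub_sub_cancel_right] at hf
  have hle : ∀ s : Fin 6, (∀ y, gp s N y = 1) →
      ∑ x, ‖X (gs s N x) (gs s N x) - X x x‖ ^ 2 ≤ en s X := by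
    intro s hs
    unfold en
    apply Finset.sum_le_sum
    intro y _
    have := Finset.single_le_sum (f := fun x =>
      ‖conj (gp s N y) * gp s N x * X (gs s N y) (gs s N x) - X y x‖ ^ 2)
      (fun x _ => by positivity) (Finset.mem_univ y)
    simpa [hs] using this
  have g0 := hle 0 (fun y => rfl)
  have g1 := hle 1 (fun y => rfl)
  have g2 := hle 2 (fun y => rfl)
  have g3 := hle 3 (fun y => rfl)
  simp only [gs] at g0 g1 g2 g3
  have htot : ∑ y, ∑ x, ‖X y x - (if y = x then c else 0)‖ ^ 2 = ∑ x, ‖X x x - c‖ ^ 2 + K := by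
    rw [← Fintype.sum_prod_type (f := fun p : Tor N × Tor N =>
      ‖X p.1 p.2 - (if p.1 = p.2 then c else 0)‖ ^ 2)]
    have h1 : ∑ x, ‖X x x - c‖ ^ 2 = ∑ p : Tor N × Tor N, ind (p.1 = p.2) (‖X p.1 p.2 - c‖ ^ 2) := by
      rw [Fintype.sum_prod_type (f := fun p : Tor N × Tor N => ind (p.1 = p.2) (‖X p.1 p.2 - c‖ ^ 2))]
      apply Finset.sum_congr rfl; intro y _
      rw [Finset.sum_eq_single y]
      · rw [ind_pos rfl]
      · intro x _ hx
        rw [ind_neg (fun h => hx h.symm)]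
      · intro h; exact absurd (Finset.mem_univ y) h
    rw [h1, hKdef, ← Finset.sum_add_distrib]
    apply Finset.sum_congr rfl; intro p _
    have hiff : (da p = 0 ∧ db p = 0) ↔ p.1 = p.2 := by
      unfold da db
      rw [sub_eq_zero, sub_eq_zero, (ZMod.toAddCircle_injective N).eq_iff,
        (ZMod.toAddCircle_injective N).eq_iff, Prod.ext_iff]
    by_cases hp : p.1 = p.2
    · rw [ind_pos hp, ind_neg (not_not_intro (hiff.2 hp)), if_pos hp, add_zero]
    · rw [ind_neg hp, ind_pos (fun h => hp (hiff.1 h)), if_neg hp, zero_add, sub_zero]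
  rw [htot, sum_en]
  linarith [en_nonneg 0 X, en_nonneg 1 X, en_nonneg 2 X, en_nonneg 3 X, en_nonneg 4 X,
    en_nonneg 5 X]

end

end Pool.Agent.X207.FR
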