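import Mathlib
import Pool.Agent.X207.FRBlock

set_option autoImplicit false

namespace Pool.Agent.X207.FR

open Complex ComplexConjugate
open scoped ENNReal InnerProductSpace

section HS

variable {H : Type*} [NormedAddCommGroup H] [InnerProductSpace ℂ H] [CompleteSpace H]
variable {ι : Type*} (b : HilbertBasis ι ℂ H)

/-- Parseval, real form. -/
lemma hasSum_sq (v : H) : HasSum (fun x => ‖⟪b x, v⟫_ℂ‖ ^ 2) (‖v‖ ^ 2) := by
  have h := b.hasSum_inner_mul_inner v v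
  have h2 := (Complex.hasSum_iff _ _).1 h
  have h3 := h2.1
  convert h3 using 1
  · funext x
    rw [← inner_conj_symm v (b x), ← Complex.normSq_eq_conj_mul_self, Complex.normSq_eq_norm_sq]
    simp [← ofReal_pow]
  · rw [inner_self_eq_norm_sq_to_K]
    simp [← ofReal_pow]

/-- Parseval, extended form. -/
lemma tsum_enorm (v : H) : ∑' x, ‖⟪b x, v⟫_ℂ‖ₑ ^ 2 = ‖v‖ₑ ^ 2 := by
  have h := hasSum_sq b v
  have e : ∀ z : ℂ, ‖z‖ₑ ^ 2 = ENNReal.ofReal (‖z‖ ^ 2) := by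
    intro z; rw [ENNReal.ofReal_pow (norm_nonneg _), ofReal_norm_eq_enorm]
  have e' : ‖v‖ₑ ^ 2 = ENNReal.ofReal (‖v‖ ^ 2) := by
    rw [ENNReal.ofReal_pow (norm_nonneg _), ofReal_norm_eq_enorm]
  rw [e', ← h.tsum_eq, ENNReal.ofReal_tsum_of_nonneg (fun x => by positivity) h.summable]
  simp_rw [e]

lemma tsum_enorm' (v : H) : ∑' x, ‖⟪v, b x⟫_ℂ‖ₑ ^ 2 = ‖v‖ₑ ^ 2 := by
  rw [← tsum_enorm b v]
  congr 1; funext x
  rw [← inner_conj_symm v (b x)]
  congr 1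
  rw [← ofReal_norm_eq_enorm, ← ofReal_norm_eq_enorm, RCLike.norm_conj]

lemma enorm_app_le (T : H →L[ℂ] H) {d : ℝ} (hd : ‖T‖ ≤ d) (v : H) :
    ‖T v‖ₑ ^ 2 ≤ ENNReal.ofReal (d ^ 2) * ‖v‖ₑ ^ 2 := by
  have h0 : 0 ≤ d := le_trans (norm_nonneg _) hd
  rw [← ofReal_norm_eq_enorm, ← ofReal_norm_eq_enorm, ENNReal.ofReal_pow h0, ← mul_pow,
    ← ENNReal.ofReal_mul h0]
  apply pow_le_pow_left₀ (zero_le)
  exact ENNReal.ofReal_le_ofReal (T.le_of_opNorm_le hd v)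

lemma enorm_add_sq_le (u v : H) : ‖u + v‖ₑ ^ 2 ≤ 2 * ‖u‖ₑ ^ 2 + 2 * ‖v‖ₑ ^ 2 := by
  have h : ‖u + v‖ ^ 2 ≤ 2 * ‖u‖ ^ 2 + 2 * ‖v‖ ^ 2 := by
    have h1 := norm_add_le u v
    nlinarith [norm_nonneg (u + v), norm_nonneg u, norm_nonneg v, sq_nonneg (‖u‖ - ‖v‖),
      mul_self_le_mul_self (norm_nonneg _) h1]
  have e : ∀ w : H, ‖w‖ₑ ^ 2 = ENNReal.ofReal (‖w‖ ^ 2) := by
    intro w; rw [ENNReal.ofReal_pow (norm_nonneg _), ofReal_norm_eq_enorm]
  rw [e, e, e]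
  calc ENNReal.ofReal (‖u + v‖ ^ 2) ≤ ENNReal.ofReal (2 * ‖u‖ ^ 2 + 2 * ‖v‖ ^ 2) :=
        ENNReal.ofReal_le_ofReal h
    _ = _ := by
      rw [ENNReal.ofReal_add (by positivity) (by positivity), ENNReal.ofReal_mul (by norm_num),
        ENNReal.ofReal_mul (by norm_num)]
      norm_num

/-- The trace of a projection. -/
noncomputable def tau (q : H →L[ℂ] H) : ℝ≥0∞ := ∑' x, ‖q (b x)‖ₑ ^ 2

variable (q U : H →L[ℂ] H) (sg : ι → ι) (ph : ι → ℂ)

/-- **Hilbert-Schmidt bound for a commutator with a projection.** -/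
theorem hs_bound (hq : q * q = q) (hsa : IsSelfAdjoint q) (hsg : Function.Injective sg)
    (hph : ∀ x, ‖ph x‖ = 1) (hU : ∀ x, U (b x) = ph x • b (sg x)) {d : ℝ}
    (hd : ‖q * U - U * q‖ ≤ d) :
    ∑' y, ‖ContinuousLinearMap.adjoint (q * U - U * q) (U (b y))‖ₑ ^ 2 ≤
      4 * ENNReal.ofReal (d ^ 2) * tau b q := by
  set Z := q * U - U * q with hZ
  have hZd : ‖ContinuousLinearMap.adjoint Z‖ ≤ d := by
    rw [LinearIsometryEquiv.norm_map]; exact hd
  have hsplit : Z = q * Z + Z * q := by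
    rw [hZ, mul_sub, sub_mul, ← mul_assoc, hq, mul_assoc U q q, hq, mul_assoc]
    abel
  have hadj : ContinuousLinearMap.adjoint Z = ContinuousLinearMap.adjoint Z * q
      + q * ContinuousLinearMap.adjoint Z := by
    have hqa : ContinuousLinearMap.adjoint q = q := by
      rw [← ContinuousLinearMap.star_eq_adjoint]; exact hsa
    conv_lhs => rw [hsplit]
    rw [map_add]
    rw [ContinuousLinearMap.mul_def, ContinuousLinearMap.adjoint_comp,
      ContinuousLinearMap.mul_def, ContinuousLinearMap.adjoint_comp, hqa]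
    rfl
  have hone : ∀ x, ‖ph x‖ₑ = 1 := by
    intro x; rw [← ofReal_norm_eq_enorm, hph]; simp
  have h1 : ∑' y, ‖ContinuousLinearMap.adjoint Z (q (U (b y)))‖ₑ ^ 2 ≤
      ENNReal.ofReal (d ^ 2) * tau b q := by
    calc ∑' y, ‖ContinuousLinearMap.adjoint Z (q (U (b y)))‖ₑ ^ 2
        ≤ ∑' y, ENNReal.ofReal (d ^ 2) * ‖q (b (sg y))‖ₑ ^ 2 := by
          apply ENNReal.tsum_le_tsum
          intro y
          refine le_trans (enorm_app_le _ hZd _) ?_
          rw [hU, map_smul, enorm_smul, hone, one_mul]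
      _ = ENNReal.ofReal (d ^ 2) * ∑' y, ‖q (b (sg y))‖ₑ ^ 2 := ENNReal.tsum_mul_left
      _ ≤ ENNReal.ofReal (d ^ 2) * tau b q := by
          apply mul_le_mul_right
          exact ENNReal.tsum_comp_le_tsum_of_injective hsg (fun x => ‖q (b x)‖ₑ ^ 2)
  have h2 : ∑' y, ‖q (ContinuousLinearMap.adjoint Z (U (b y)))‖ₑ ^ 2 ≤
      ENNReal.ofReal (d ^ 2) * tau b q := by
    calc ∑' y, ‖q (ContinuousLinearMap.adjoint Z (U (b y)))‖ₑ ^ 2
        = ∑' y, ∑' x, ‖⟪b x, q (ContinuousLinearMap.adjoint Z (U (b y)))⟫_ℂ‖ₑ ^ 2 := by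
          congr 1; funext y; rw [tsum_enorm]
      _ = ∑' x, ∑' y, ‖⟪b x, q (ContinuousLinearMap.adjoint Z (U (b y)))⟫_ℂ‖ₑ ^ 2 :=
          ENNReal.tsum_comm
      _ = ∑' x, ∑' y, ‖⟪Z (q (b x)), b (sg y)⟫_ℂ‖ₑ ^ 2 := by
          congr 1; funext x; congr 1; funext y
          have hqa : ContinuousLinearMap.adjoint q = q := by
            rw [← ContinuousLinearMap.star_eq_adjoint]; exact hsa
          have e1 : ⟪b x, q (ContinuousLinearMap.adjoint Z (U (b y)))⟫_ℂ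
              = ⟪Z (q (b x)), U (b y)⟫_ℂ := by
            conv_lhs => rw [← hqa]
            rw [ContinuousLinearMap.adjoint_inner_right, ContinuousLinearMap.adjoint_inner_right]
          rw [e1, hU, inner_smul_right, enorm_mul, hone, one_mul]
      _ ≤ ∑' x, ∑' y, ‖⟪Z (q (b x)), b y⟫_ℂ‖ₑ ^ 2 := by
          apply ENNReal.tsum_le_tsum
          intro x
          exact ENNReal.tsum_comp_le_tsum_of_injective hsg (fun y => ‖⟪Z (q (b x)), b y⟫_ℂ‖ₑ ^ 2)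
      _ = ∑' x, ‖Z (q (b x))‖ₑ ^ 2 := by
          congr 1; funext x; rw [tsum_enorm']
      _ ≤ ∑' x, ENNReal.ofReal (d ^ 2) * ‖q (b x)‖ₑ ^ 2 := by
          apply ENNReal.tsum_le_tsum
          intro x
          exact enorm_app_le _ hd _
      _ = ENNReal.ofReal (d ^ 2) * tau b q := ENNReal.tsum_mul_left
  calc ∑' y, ‖ContinuousLinearMap.adjoint Z (U (b y))‖ₑ ^ 2
      ≤ ∑' y, (2 * ‖ContinuousLinearMap.adjoint Z (q (U (b y)))‖ₑ ^ 2
        + 2 * ‖q (ContinuousLinearMap.adjoint Z (U (b y)))‖ₑ ^ 2) := by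
        apply ENNReal.tsum_le_tsum
        intro y
        conv_lhs => rw [hadj]
        exact enorm_add_sq_le _ _
    _ = 2 * ∑' y, ‖ContinuousLinearMap.adjoint Z (q (U (b y)))‖ₑ ^ 2
        + 2 * ∑' y, ‖q (ContinuousLinearMap.adjoint Z (U (b y)))‖ₑ ^ 2 := by
        rw [ENNReal.tsum_add, ENNReal.tsum_mul_left, ENNReal.tsum_mul_left]
    _ ≤ 2 * (ENNReal.ofReal (d ^ 2) * tau b q) + 2 * (ENNReal.ofReal (d ^ 2) * tau b q) := by
        gcongr
    _ = 4 * ENNReal.ofReal (d ^ 2) * tau b q := by ring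

/-- Finite-rank projections have finite trace. -/
theorem tau_lt_top (hq : q * q = q) (hsa : IsSelfAdjoint q)
    (hfd : FiniteDimensional ℂ (LinearMap.range (q : H →ₗ[ℂ] H))) : tau b q < ∞ := by
  set R := LinearMap.range (q : H →ₗ[ℂ] H) with hR
  let v := stdOrthonormalBasis ℂ R
  have hqa : ContinuousLinearMap.adjoint q = q := by
    rw [← ContinuousLinearMap.star_eq_adjoint]; exact hsa
  have hfix : ∀ w : R, q (w : H) = w := by
    rintro ⟨w, hw⟩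
    obtain ⟨u, rfl⟩ := hw
    show q (q u) = q u
    rw [← ContinuousLinearMap.mul_apply, hq]
  have hn : ∀ x, ‖q (b x)‖ₑ ^ 2 = ∑ i, ‖⟪((v i : R) : H), b x⟫_ℂ‖ₑ ^ 2 := by
    intro x
    have hmem : q (b x) ∈ R := ⟨b x, rfl⟩
    have h1 : ‖(⟨q (b x), hmem⟩ : R)‖ ^ 2 = ∑ i, ‖⟪v i, (⟨q (b x), hmem⟩ : R)⟫_ℂ‖ ^ 2 :=
      (v.sum_sq_norm_inner_right _).symm
    have h2 : ∀ i, ⟪v i, (⟨q (b x), hmem⟩ : R)⟫_ℂ = ⟪((v i : R) : H), b x⟫_ℂ := by
      intro i
      rw [Submodule.coe_inner]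
      show ⟪((v i : R) : H), q (b x)⟫_ℂ = _
      conv_lhs => rw [← hqa]
      rw [ContinuousLinearMap.adjoint_inner_right, hfix]
    simp_rw [h2] at h1
    have h3 : ‖q (b x)‖ ^ 2 = ∑ i, ‖⟪((v i : R) : H), b x⟫_ℂ‖ ^ 2 := h1
    rw [← ofReal_norm_eq_enorm, ← ENNReal.ofReal_pow (norm_nonneg _), h3,
      ENNReal.ofReal_sum_of_nonneg (fun i _ => by positivity)]
    apply Finset.sum_congr rfl; intro i _
    rw [ENNReal.ofReal_pow (norm_nonneg _), ofReal_norm_eq_enorm]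
  unfold tau
  simp_rw [hn]
  rw [Summable.tsum_finsetSum (fun i _ => ENNReal.summable)]
  apply ENNReal.sum_lt_top.2
  intro i _
  rw [tsum_enorm']
  exact ENNReal.pow_lt_top enorm_lt_top

lemma eq_zero_of_tau (h : tau b q = 0) : q = 0 := by
  unfold tau at h
  rw [ENNReal.tsum_eq_zero] at h
  have h2 : ∀ x, q (b x) = 0 := by
    intro x
    have := h x
    rw [pow_eq_zero_iff (by norm_num)] at this
    exact enorm_eq_zero.1 this
  apply ContinuousLinearMap.ext_on (s := Set.range b)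
  · have := b.dense_span
    rw [← Submodule.dense_iff_topologicalClosure_eq_top] at this
    exact this
  · rintro _ ⟨x, rfl⟩
    rw [h2]; rfl

end HS

end Pool.Agent.X207.FR
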