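import Mathlib
import Pool.Agent.X207.FRHS

set_option autoImplicit false

namespace Pool.Agent.X207.FR

open Complex ComplexConjugate
open scoped ENNReal InnerProductSpace

/-- The index set: the disjoint union of the square tori `(ℤ/(n+1))²`. -/
abbrev Ix := Σ n : ℕ, Tor (n + 1)

/-- The global permutation attached to a generator. -/
def sg6 (s : Fin 6) (x : Ix) : Ix := ⟨x.1, gs s (x.1 + 1) x.2⟩

/-- The global phase attached to a generator. -/
noncomputable def ph6 (s : Fin 6) (x : Ix) : ℂ := gp s (x.1 + 1) x.2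

lemma sg6_inj (s : Fin 6) : Function.Injective (sg6 s) := by
  rintro ⟨n, y⟩ ⟨m, z⟩ h
  unfold sg6 at h
  simp only [Sigma.mk.injEq] at h
  obtain ⟨h1, h2⟩ := h
  subst h1
  rw [(gs s (n + 1)).injective (eq_of_heq h2)]

lemma ph6_norm (s : Fin 6) (x : Ix) : ‖ph6 s x‖ = 1 := gp_norm s _ _

/-- The inclusion of one torus in the next. -/
def emT (n : ℕ) (y : Tor (n + 1)) : Tor (n + 2) := ((y.1.val : ZMod (n + 2)), (y.2.val : ZMod (n + 2)))

lemma emT_inj (n : ℕ) : Function.Injective (emT n) := by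
  intro y z h
  unfold emT at h
  rw [Prod.ext_iff] at h
  have aux : ∀ u v : ZMod (n + 1), ((u.val : ℕ) : ZMod (n + 2)) = ((v.val : ℕ) : ZMod (n + 2)) → u = v := by
    intro u v huv
    have h1 := congrArg ZMod.val huv
    rw [ZMod.val_natCast_of_lt (lt_trans (ZMod.val_lt u) (by omega)),
      ZMod.val_natCast_of_lt (lt_trans (ZMod.val_lt v) (by omega))] at h1
    exact ZMod.val_injective _ h1
  exact Prod.ext (aux _ _ h.1) (aux _ _ h.2)

/-- The connecting map. -/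
def sgC (x : Ix) : Ix := ⟨x.1 + 1, emT x.1 x.2⟩

lemma sgC_inj : Function.Injective sgC := by
  rintro ⟨n, y⟩ ⟨m, z⟩ h
  unfold sgC at h
  simp only [Sigma.mk.injEq, add_left_inj] at h
  obtain ⟨h1, h2⟩ := h
  subst h1
  rw [emT_inj n (eq_of_heq h2)]

section Main

variable {H : Type*} [NormedAddCommGroup H] [InnerProductSpace ℂ H] [CompleteSpace H]
variable (b : HilbertBasis Ix ℂ H)

/-- The average diagonal entry of a projection on a block. -/
noncomputable def cn (q : H →L[ℂ] H) (n : ℕ) : ℝ :=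
  (∑ z : Tor (n + 1), ‖q (b ⟨n, z⟩)‖ ^ 2) / ((n : ℝ) + 1) ^ 2

variable {q : H →L[ℂ] H}

lemma card_tor (n : ℕ) : (Fintype.card (Tor (n + 1)) : ℝ) = ((n : ℝ) + 1) ^ 2 := by
  rw [Fintype.card_prod, ZMod.card]; push_cast; ring

lemma inner_self_q (hq : q * q = q) (hsa : IsSelfAdjoint q) (v : H) :
    ⟪v, q v⟫_ℂ = ((‖q v‖ ^ 2 : ℝ) : ℂ) := by
  have hqa : ContinuousLinearMap.adjoint q = q := by
    rw [← ContinuousLinearMap.star_eq_adjoint]; exact hsa
  have h1 : q v = q (q v) := by rw [← ContinuousLinearMap.mul_apply, hq]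
  rw [h1]
  conv_lhs => rw [← hqa]
  rw [ContinuousLinearMap.adjoint_inner_right, hqa, ← h1, inner_self_eq_norm_sq_to_K]
  simp

lemma norm_sq_q (hq : q * q = q) (hsa : IsSelfAdjoint q) (c : ℝ) (x : Ix) :
    ‖q (b x) - (c : ℂ) • b x‖ ^ 2 = ‖q (b x)‖ ^ 2 * (1 - 2 * c) + c ^ 2 := by
  rw [norm_sub_sq (𝕜 := ℂ), inner_smul_right, norm_smul, b.orthonormal.1 x]
  have h2 : ⟪q (b x), b x⟫_ℂ = ((‖q (b x)‖ ^ 2 : ℝ) : ℂ) := by
    rw [← inner_conj_symm, inner_self_q hq hsa, Complex.conj_ofReal]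
  rw [h2]
  simp only [RCLike.re_to_complex, Complex.norm_real, mul_one]
  rw [← Complex.ofReal_mul, Complex.ofReal_re, Real.norm_eq_abs, sq_abs]
  ring

lemma sum_norm_sq_q (hq : q * q = q) (hsa : IsSelfAdjoint q) (n : ℕ) :
    ∑ y : Tor (n + 1), ‖q (b ⟨n, y⟩) - ((cn b q n : ℝ) : ℂ) • b ⟨n, y⟩‖ ^ 2
      = ((n : ℝ) + 1) ^ 2 * (cn b q n * (1 - cn b q n)) := by
  simp_rw [norm_sq_q b hq hsa]
  rw [Finset.sum_add_distrib, ← Finset.sum_mul, Finset.sum_const, Finset.card_univ,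
    nsmul_eq_mul, card_tor]
  have : (∑ z : Tor (n + 1), ‖q (b ⟨n, z⟩)‖ ^ 2) = ((n : ℝ) + 1) ^ 2 * cn b q n := by
    unfold cn; field_simp
  rw [this]; ring

variable (U : Fin 6 → H →L[ℂ] H)

/-- **Row inequality.** -/
theorem row_ineq (hq : q * q = q) (hsa : IsSelfAdjoint q)
    (hU : ∀ s x, U s (b x) = ph6 s x • b (sg6 s x))
    (hiso : ∀ s v w, ⟪U s v, U s w⟫_ℂ = ⟪v, w⟫_ℂ) (n : ℕ) :
    ((n : ℝ) + 1) ^ 2 * (cn b q n * (1 - cn b q n)) ≤
      96 * ∑ s, ∑ y : Tor (n + 1),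
        ‖ContinuousLinearMap.adjoint (q * U s - U s * q) (U s (b ⟨n, y⟩))‖ ^ 2 := by
  have hqa : ContinuousLinearMap.adjoint q = q := by
    rw [← ContinuousLinearMap.star_eq_adjoint]; exact hsa
  rw [← sum_norm_sq_q b hq hsa]
  set c := cn b q n with hc
  -- the array
  let p : Ix → Ix → ℂ := fun y x => ⟪b y, q (b x)⟫_ℂ
  have hz : ∀ s y x, ⟪U s (b y), (q * U s - U s * q) (b x)⟫_ℂ
      = conj (ph6 s y) * ph6 s x * p (sg6 s y) (sg6 s x) - p y x := by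
    intro s y x
    rw [ContinuousLinearMap.sub_apply, inner_sub_right, ContinuousLinearMap.mul_apply,
      ContinuousLinearMap.mul_apply, hiso, hU, hU, map_smul, inner_smul_left, inner_smul_right]
    simp only [p]
    ring
  -- left side as a sum over blocks
  have hl : HasSum (fun m : ℕ => ∑ y : Tor (n + 1), ∑ x : Tor (m + 1),
      ‖⟪b ⟨m, x⟩, q (b ⟨n, y⟩) - (c : ℂ) • b ⟨n, y⟩⟫_ℂ‖ ^ 2)
      (∑ y : Tor (n + 1), ‖q (b ⟨n, y⟩) - (c : ℂ) • b ⟨n, y⟩‖ ^ 2) := by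
    apply hasSum_sum
    intro y _
    have h1 := hasSum_sq b (q (b ⟨n, y⟩) - (c : ℂ) • b ⟨n, y⟩)
    exact h1.sigma (fun m => hasSum_fintype _)
  have hr : HasSum (fun m : ℕ => 96 * ∑ s, ∑ y : Tor (n + 1), ∑ x : Tor (m + 1),
      ‖⟪b ⟨m, x⟩, ContinuousLinearMap.adjoint (q * U s - U s * q) (U s (b ⟨n, y⟩))⟫_ℂ‖ ^ 2)
      (96 * ∑ s, ∑ y : Tor (n + 1),
        ‖ContinuousLinearMap.adjoint (q * U s - U s * q) (U s (b ⟨n, y⟩))‖ ^ 2) := by
    apply HasSum.mul_left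
    apply hasSum_sum
    intro s _
    apply hasSum_sum
    intro y _
    have h1 := hasSum_sq b (ContinuousLinearMap.adjoint (q * U s - U s * q) (U s (b ⟨n, y⟩)))
    exact h1.sigma (fun m => hasSum_fintype _)
  refine hasSum_le (fun m => ?_) hl hr
  -- the block
  have hen : ∀ s, ∑ y : Tor (n + 1), ∑ x : Tor (m + 1),
      ‖⟪b ⟨m, x⟩, ContinuousLinearMap.adjoint (q * U s - U s * q) (U s (b ⟨n, y⟩))⟫_ℂ‖ ^ 2
      = en s (fun (y : Tor (n + 1)) (x : Tor (m + 1)) => p ⟨n, y⟩ ⟨m, x⟩) := by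
    intro s
    unfold en
    apply Finset.sum_congr rfl; intro y _
    apply Finset.sum_congr rfl; intro x _
    rw [ContinuousLinearMap.adjoint_inner_right, ← inner_conj_symm, RCLike.norm_conj, hz]
    rfl
  simp_rw [hen]
  have hlx : ∀ (y : Tor (n + 1)) (x : Tor (m + 1)),
      ‖⟪b ⟨m, x⟩, q (b ⟨n, y⟩) - (c : ℂ) • b ⟨n, y⟩⟫_ℂ‖
      = ‖p ⟨n, y⟩ ⟨m, x⟩ - (c : ℂ) * ⟪b ⟨n, y⟩, b ⟨m, x⟩⟫_ℂ‖ := by
    intro y x
    rw [← inner_conj_symm, RCLike.norm_conj, inner_sub_left, inner_smul_left, Complex.conj_ofReal]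
    congr 2
    simp only [p]
    conv_lhs => rw [← hqa]
    rw [ContinuousLinearMap.adjoint_inner_left]
  simp_rw [hlx]
  by_cases hnm : n = m
  · subst hnm
    have h1 := block_diag (N := n + 1) (fun (y : Tor (n + 1)) (x : Tor (n + 1)) => p ⟨n, y⟩ ⟨n, x⟩)
    refine le_trans (le_of_eq ?_) h1
    apply Finset.sum_congr rfl; intro y _
    apply Finset.sum_congr rfl; intro x _
    congr 2
    have hcc : (∑ z : Tor (n + 1), p ⟨n, z⟩ ⟨n, z⟩) / ((n + 1 : ℕ) : ℂ) ^ 2 = (c : ℂ) := by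
      rw [hc]; unfold cn
      simp only [p]
      simp_rw [inner_self_q hq hsa]
      push_cast
      rfl
    rw [hcc, orthonormal_iff_ite.1 b.orthonormal]
    by_cases hyx : y = x
    · subst hyx; simp
    · have : (⟨n, y⟩ : Ix) ≠ ⟨n, x⟩ := by
        intro h; simp only [Sigma.mk.injEq, heq_eq_eq, true_and] at h; exact hyx h
      rw [if_neg this, if_neg hyx]; simp
  · have h1 := block_off (N := n + 1) (M := m + 1) (by omega)
      (fun (y : Tor (n + 1)) (x : Tor (m + 1)) => p ⟨n, y⟩ ⟨m, x⟩)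
    refine le_trans (le_of_eq ?_) h1
    apply Finset.sum_congr rfl; intro y _
    apply Finset.sum_congr rfl; intro x _
    have : (⟨n, y⟩ : Ix) ≠ ⟨m, x⟩ := by
      intro h; simp only [Sigma.mk.injEq] at h; exact hnm h.1
    rw [orthonormal_iff_ite.1 b.orthonormal, if_neg this]; simp

end Main

end Pool.Agent.X207.FR
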