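import Mathlib
import Pool.Agent.X207.FRMain

set_option autoImplicit false

namespace Pool.Agent.X207.FR

open Complex ComplexConjugate Filter Topology
open scoped ENNReal InnerProductSpace

section NoProj

variable {H : Type*} [NormedAddCommGroup H] [InnerProductSpace ℂ H] [CompleteSpace H]
variable (b : HilbertBasis Ix ℂ H) {q : H →L[ℂ] H}

lemma cn_nonneg (n : ℕ) : 0 ≤ cn b q n := by unfold cn; positivity

lemma cn_mul_nonneg (hq : q * q = q) (hsa : IsSelfAdjoint q) (n : ℕ) :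
    0 ≤ cn b q n * (1 - cn b q n) := by
  have h := sum_norm_sq_q b hq hsa n
  have h2 : 0 ≤ ((n : ℝ) + 1) ^ 2 * (cn b q n * (1 - cn b q n)) := by
    rw [← h]; positivity
  exact nonneg_of_mul_nonneg_right h2 (by positivity)

lemma dev_le (hq : q * q = q) (hsa : IsSelfAdjoint q) (n : ℕ) :
    ∑ y : Tor (n + 1), (‖q (b ⟨n, y⟩)‖ ^ 2 - cn b q n) ^ 2 ≤
      ((n : ℝ) + 1) ^ 2 * (cn b q n * (1 - cn b q n)) := by
  rw [← sum_norm_sq_q b hq hsa n]
  apply Finset.sum_le_sum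
  intro y _
  have h1 : ⟪b ⟨n, y⟩, q (b ⟨n, y⟩) - ((cn b q n : ℝ) : ℂ) • b ⟨n, y⟩⟫_ℂ
      = ((‖q (b ⟨n, y⟩)‖ ^ 2 - cn b q n : ℝ) : ℂ) := by
    rw [inner_sub_right, inner_self_q hq hsa, inner_smul_right, inner_self_eq_norm_sq_to_K,
      b.orthonormal.1]
    push_cast
    simp
  have h2 := norm_inner_le_norm (𝕜 := ℂ) (b ⟨n, y⟩) (q (b ⟨n, y⟩) - ((cn b q n : ℝ) : ℂ) • b ⟨n, y⟩)
  rw [h1, b.orthonormal.1, one_mul, Complex.norm_real, Real.norm_eq_abs] at h2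
  rw [← sq_abs]
  exact pow_le_pow_left₀ (abs_nonneg _) h2 2

variable (U : Fin 6 → H →L[ℂ] H) (C : H →L[ℂ] H)

lemma adj_row (Z V : H →L[ℂ] H) (hV : ∀ v w, ⟪V v, V w⟫_ℂ = ⟪v, w⟫_ℂ) {d : ℝ} (hd : ‖Z‖ ≤ d)
    (x : Ix) : ‖ContinuousLinearMap.adjoint Z (V (b x))‖ ^ 2 ≤ d ^ 2 := by
  have h1 : ‖V (b x)‖ = 1 := by
    have h2 : ‖V (b x)‖ ^ 2 = ‖b x‖ ^ 2 := by
      have := hV (b x) (b x)
      rw [inner_self_eq_norm_sq_to_K, inner_self_eq_norm_sq_to_K] at this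
      exact_mod_cast this
    rw [b.orthonormal.1] at h2
    nlinarith [norm_nonneg (V (b x))]
  have h3 : ‖ContinuousLinearMap.adjoint Z (V (b x))‖ ≤ d := by
    calc _ ≤ ‖ContinuousLinearMap.adjoint Z‖ * ‖V (b x)‖ := ContinuousLinearMap.le_opNorm _ _
      _ = ‖Z‖ := by rw [h1, mul_one, LinearIsometryEquiv.norm_map]
      _ ≤ d := hd
  exact pow_le_pow_left₀ (norm_nonneg _) h3 2

theorem cn_small (hq : q * q = q) (hsa : IsSelfAdjoint q)
    (hU : ∀ s x, U s (b x) = ph6 s x • b (sg6 s x))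
    (hiso : ∀ s v w, ⟪U s v, U s w⟫_ℂ = ⟪v, w⟫_ℂ)
    (hd : ∀ s, ‖q * U s - U s * q‖ ≤ 1 / 1000) (n : ℕ) :
    cn b q n * (1 - cn b q n) ≤ 576 / 1000000 := by
  have h := row_ineq b U hq hsa hU hiso n
  have h2 : 96 * ∑ s, ∑ y : Tor (n + 1),
        ‖ContinuousLinearMap.adjoint (q * U s - U s * q) (U s (b ⟨n, y⟩))‖ ^ 2
      ≤ 96 * ∑ s : Fin 6, ∑ y : Tor (n + 1), (1 / 1000 : ℝ) ^ 2 := by
    apply mul_le_mul_of_nonneg_left _ (by norm_num)
    apply Finset.sum_le_sum; intro s _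
    apply Finset.sum_le_sum; intro y _
    exact adj_row b _ _ (hiso s) (hd s) _
  have h3 : 96 * ∑ s : Fin 6, ∑ y : Tor (n + 1), (1 / 1000 : ℝ) ^ 2
      = ((n : ℝ) + 1) ^ 2 * (576 / 1000000) := by
    simp only [Finset.sum_const, Finset.card_univ, nsmul_eq_mul, card_tor, Fintype.card_fin]
    ring
  rw [h3] at h2
  exact le_of_mul_le_mul_left (le_trans h h2) (by positivity)

theorem cn_step (hq : q * q = q) (hsa : IsSelfAdjoint q)
    (hU : ∀ s x, U s (b x) = ph6 s x • b (sg6 s x))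
    (hiso : ∀ s v w, ⟪U s v, U s w⟫_ℂ = ⟪v, w⟫_ℂ)
    (hd : ∀ s, ‖q * U s - U s * q‖ ≤ 1 / 1000)
    (hC : ∀ x, C (b x) = b (sgC x)) (hCiso : ∀ v w, ⟪C v, C w⟫_ℂ = ⟪v, w⟫_ℂ)
    (hdC : ‖q * C - C * q‖ ≤ 1 / 1000) (n : ℕ) :
    (cn b q n - cn b q (n + 1)) ^ 2 ≤ 1 / 100 := by
  have s1 := cn_small b U hq hsa hU hiso hd n
  have s2 := cn_small b U hq hsa hU hiso hd (n + 1)
  have d1 := dev_le b hq hsa n
  have d2 := dev_le b hq hsa (n + 1)
  push_cast at d2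
  set c := cn b q n
  set c' := cn b q (n + 1)
  have hdiff : ∀ y : Tor (n + 1), |‖q (b ⟨n + 1, emT n y⟩)‖ ^ 2 - ‖q (b ⟨n, y⟩)‖ ^ 2| ≤ 1 / 1000 := by
    intro y
    have h1 : ⟪C (b ⟨n, y⟩), (q * C - C * q) (b ⟨n, y⟩)⟫_ℂ
        = ((‖q (b ⟨n + 1, emT n y⟩)‖ ^ 2 - ‖q (b ⟨n, y⟩)‖ ^ 2 : ℝ) : ℂ) := by
      rw [ContinuousLinearMap.sub_apply, inner_sub_right, ContinuousLinearMap.mul_apply,
        ContinuousLinearMap.mul_apply, hCiso, inner_self_q hq hsa, inner_self_q hq hsa, hC]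
      push_cast
      rfl
    have h2 : ‖⟪C (b ⟨n, y⟩), (q * C - C * q) (b ⟨n, y⟩)⟫_ℂ‖ ≤ 1 / 1000 := by
      refine le_trans (norm_inner_le_norm _ _) ?_
      rw [hC, b.orthonormal.1, one_mul]
      refine le_trans (ContinuousLinearMap.le_opNorm _ _) ?_
      rw [b.orthonormal.1, mul_one]
      exact hdC
    rw [h1, Complex.norm_real, Real.norm_eq_abs] at h2
    exact h2
  have hpt : ∀ y : Tor (n + 1), (c - c') ^ 2 ≤ 3 * (‖q (b ⟨n, y⟩)‖ ^ 2 - c) ^ 2 + 3 * (1 / 1000) ^ 2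
      + 3 * (‖q (b ⟨n + 1, emT n y⟩)‖ ^ 2 - c') ^ 2 := by
    intro y
    set u := ‖q (b ⟨n, y⟩)‖ ^ 2
    set v := ‖q (b ⟨n + 1, emT n y⟩)‖ ^ 2
    have h1 : (v - u) ^ 2 ≤ (1 / 1000) ^ 2 := by
      rw [← sq_abs]; exact pow_le_pow_left₀ (abs_nonneg _) (hdiff y) 2
    nlinarith [sq_nonneg ((u - c) - (v - u)), sq_nonneg ((u - c) + (v - c')),
      sq_nonneg ((v - u) + (v - c')), sq_nonneg ((u - c) + (v - u)), sq_nonneg ((v - u) - (v - c'))]
  have hsum := Finset.sum_le_sum (fun y (_ : y ∈ (Finset.univ : Finset (Tor (n + 1)))) => hpt y)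
  simp only [Finset.sum_add_distrib, ← Finset.mul_sum, Finset.sum_const, Finset.card_univ,
    nsmul_eq_mul, card_tor] at hsum
  have hemb : ∑ y : Tor (n + 1), (‖q (b ⟨n + 1, emT n y⟩)‖ ^ 2 - c') ^ 2 ≤
      ∑ y : Tor (n + 2), (‖q (b ⟨n + 1, y⟩)‖ ^ 2 - c') ^ 2 := by
    rw [← Finset.sum_image (s := (Finset.univ : Finset (Tor (n + 1)))) (g := emT n)
      (f := fun y : Tor (n + 2) => (‖q (b ⟨n + 1, y⟩)‖ ^ 2 - c') ^ 2)
      (fun x _ y _ h => emT_inj n h)]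
    exact Finset.sum_le_sum_of_subset_of_nonneg (Finset.subset_univ _) (fun x _ _ => by positivity)
  have hN : (1 : ℝ) ≤ ((n : ℝ) + 1) ^ 2 := by
    have : (0 : ℝ) ≤ n := Nat.cast_nonneg n
    nlinarith
  have hN2 : ((n : ℝ) + 1 + 1) ^ 2 ≤ 4 * ((n : ℝ) + 1) ^ 2 := by
    have : (0 : ℝ) ≤ n := Nat.cast_nonneg n
    nlinarith
  have k1 : ((n : ℝ) + 1) ^ 2 * (c * (1 - c)) ≤ ((n : ℝ) + 1) ^ 2 * (576 / 1000000) :=
    mul_le_mul_of_nonneg_left s1 (by positivity)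
  have k2 : ((n : ℝ) + 1 + 1) ^ 2 * (c' * (1 - c')) ≤ 4 * ((n : ℝ) + 1) ^ 2 * (576 / 1000000) := by
    calc _ ≤ ((n : ℝ) + 1 + 1) ^ 2 * (576 / 1000000) := mul_le_mul_of_nonneg_left s2 (by positivity)
      _ ≤ _ := mul_le_mul_of_nonneg_right hN2 (by norm_num)
  have hfin : ((n : ℝ) + 1) ^ 2 * (c - c') ^ 2 ≤ ((n : ℝ) + 1) ^ 2 * (1 / 100) := by
    nlinarith
  exact le_of_mul_le_mul_left hfin (by positivity)

lemma tau_eq : tau b q = ∑' n : ℕ, ENNReal.ofReal (((n : ℝ) + 1) ^ 2 * cn b q n) := by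
  unfold tau
  rw [ENNReal.tsum_sigma']
  congr 1; funext n
  rw [tsum_fintype]
  have : ((n : ℝ) + 1) ^ 2 * cn b q n = ∑ z : Tor (n + 1), ‖q (b ⟨n, z⟩)‖ ^ 2 := by
    unfold cn; field_simp
  rw [this, ENNReal.ofReal_sum_of_nonneg (fun i _ => by positivity)]
  apply Finset.sum_congr rfl; intro y _
  rw [ENNReal.ofReal_pow (norm_nonneg _), ofReal_norm_eq_enorm]

/-- **No nonzero finite-rank projection almost commutes with the seven operators.** -/
theorem no_proj (hq : q * q = q) (hsa : IsSelfAdjoint q)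
    (hfd : FiniteDimensional ℂ (LinearMap.range (q : H →ₗ[ℂ] H)))
    (hU : ∀ s x, U s (b x) = ph6 s x • b (sg6 s x))
    (hiso : ∀ s v w, ⟪U s v, U s w⟫_ℂ = ⟪v, w⟫_ℂ)
    (hd : ∀ s, ‖q * U s - U s * q‖ ≤ 1 / 1000)
    (hC : ∀ x, C (b x) = b (sgC x)) (hCiso : ∀ v w, ⟪C v, C w⟫_ℂ = ⟪v, w⟫_ℂ)
    (hdC : ‖q * C - C * q‖ ≤ 1 / 1000) : q = 0 := by
  have hfin := tau_lt_top b q hq hsa hfd
  -- c_n tends to zero
  have hsumm : Summable (fun n : ℕ => ((n : ℝ) + 1) ^ 2 * cn b q n) := by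
    have h1 := tau_eq b (q := q)
    rw [h1] at hfin
    have h2 := ENNReal.summable_toReal hfin.ne
    convert h2 using 1
    funext n
    rw [ENNReal.toReal_ofReal]
    exact mul_nonneg (by positivity) (cn_nonneg b n)
  have hlim : Tendsto (fun n : ℕ => ((n : ℝ) + 1) ^ 2 * cn b q n) atTop (𝓝 0) :=
    hsumm.tendsto_atTop_zero
  have hsm : ∀ᶠ n : ℕ in atTop, cn b q n < 1 / 4 := by
    have h1 : ∀ᶠ n : ℕ in atTop, ((n : ℝ) + 1) ^ 2 * cn b q n < 1 / 4 :=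
      hlim.eventually_lt_const (by norm_num)
    filter_upwards [h1] with n hn
    have : (0 : ℝ) ≤ n := Nat.cast_nonneg n
    nlinarith [cn_nonneg b (q := q) n]
  -- dichotomy
  have hdich : ∀ n, cn b q n < 1 / 4 ∨ 3 / 4 < cn b q n := by
    intro n
    have h1 := cn_small b U hq hsa hU hiso hd n
    by_contra hcon
    push Not at hcon
    nlinarith [hcon.1, hcon.2]
  have hup : ∀ n, 3 / 4 < cn b q n → 3 / 4 < cn b q (n + 1) := by
    intro n hn
    rcases hdich (n + 1) with h | h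
    · exfalso
      have h1 := cn_step b U C hq hsa hU hiso hd hC hCiso hdC n
      nlinarith
    · exact h
  have hall : ∀ n, cn b q n < 1 / 4 := by
    intro n
    rcases hdich n with h | h
    · exact h
    · exfalso
      have h1 : ∀ k, 3 / 4 < cn b q (n + k) := by
        intro k
        induction k with
        | zero => exact h
        | succ k ih => exact hup _ ih
      obtain ⟨N, hN⟩ := eventually_atTop.1 hsm
      have h2 := hN (n + N) (by omega)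
      have h3 := h1 N
      linarith
  -- total energy
  have hen : ∀ s, ∑' y, ‖ContinuousLinearMap.adjoint (q * U s - U s * q) (U s (b y))‖ₑ ^ 2 ≤
      4 * ENNReal.ofReal ((1 / 1000) ^ 2) * tau b q := fun s =>
    hs_bound b q (U s) (sg6 s) (ph6 s) hq hsa (sg6_inj s) (ph6_norm s) (hU s) (hd s)
  have hrow : ∀ n : ℕ, ENNReal.ofReal (3 / 4) * ENNReal.ofReal (((n : ℝ) + 1) ^ 2 * cn b q n) ≤
      96 * ∑ s, ∑ y : Tor (n + 1),
        ‖ContinuousLinearMap.adjoint (q * U s - U s * q) (U s (b ⟨n, y⟩))‖ₑ ^ 2 := by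
    intro n
    have h1 := row_ineq b U hq hsa hU hiso n
    have h2 : 3 / 4 * (((n : ℝ) + 1) ^ 2 * cn b q n) ≤ 96 * ∑ s, ∑ y : Tor (n + 1),
        ‖ContinuousLinearMap.adjoint (q * U s - U s * q) (U s (b ⟨n, y⟩))‖ ^ 2 := by
      refine le_trans ?_ h1
      have h3 := hall n
      have h4 := cn_nonneg b (q := q) n
      have h5 : (3 / 4) * cn b q n ≤ cn b q n * (1 - cn b q n) := by nlinarith
      have := mul_le_mul_of_nonneg_left h5 (by positivity : (0 : ℝ) ≤ ((n : ℝ) + 1) ^ 2)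
      linarith
    have h3 := ENNReal.ofReal_le_ofReal h2
    rw [ENNReal.ofReal_mul (by norm_num : (0:ℝ) ≤ 3 / 4)] at h3
    refine le_trans h3 (le_of_eq ?_)
    rw [ENNReal.ofReal_mul (by norm_num : (0:ℝ) ≤ 96),
      ENNReal.ofReal_sum_of_nonneg (fun s _ => by positivity)]
    congr 1
    · norm_num
    apply Finset.sum_congr rfl; intro s _
    rw [ENNReal.ofReal_sum_of_nonneg (fun s _ => by positivity)]
    apply Finset.sum_congr rfl; intro y _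
    rw [ENNReal.ofReal_pow (norm_nonneg _), ofReal_norm_eq_enorm]
  have htot : ENNReal.ofReal (3 / 4) * tau b q ≤
      96 * ∑ s : Fin 6, 4 * ENNReal.ofReal ((1 / 1000) ^ 2) * tau b q := by
    calc ENNReal.ofReal (3 / 4) * tau b q
        = ∑' n : ℕ, ENNReal.ofReal (3 / 4) * ENNReal.ofReal (((n : ℝ) + 1) ^ 2 * cn b q n) := by
          rw [tau_eq, ENNReal.tsum_mul_left]
      _ ≤ ∑' n : ℕ, 96 * ∑ s, ∑ y : Tor (n + 1),
        ‖ContinuousLinearMap.adjoint (q * U s - U s * q) (U s (b ⟨n, y⟩))‖ₑ ^ 2 :=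
          ENNReal.tsum_le_tsum hrow
      _ = 96 * ∑ s, ∑' n : ℕ, ∑ y : Tor (n + 1),
        ‖ContinuousLinearMap.adjoint (q * U s - U s * q) (U s (b ⟨n, y⟩))‖ₑ ^ 2 := by
          rw [ENNReal.tsum_mul_left, Summable.tsum_finsetSum (fun i _ => ENNReal.summable)]
      _ = 96 * ∑ s, ∑' y, ‖ContinuousLinearMap.adjoint (q * U s - U s * q) (U s (b y))‖ₑ ^ 2 := by
          congr 1
          apply Finset.sum_congr rfl; intro s _
          rw [ENNReal.tsum_sigma']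
          congr 1; funext n
          rw [tsum_fintype]
      _ ≤ _ := by
          gcongr with s _
          exact hen s
  have hconst : 96 * ∑ s : Fin 6, 4 * ENNReal.ofReal ((1 / 1000) ^ 2) * tau b q
      = ENNReal.ofReal (2304 / 1000000) * tau b q := by
    rw [Finset.sum_const, Finset.card_univ, Fintype.card_fin, nsmul_eq_mul]
    have : ENNReal.ofReal (2304 / 1000000) = 96 * (6 * (4 * ENNReal.ofReal ((1 / 1000) ^ 2))) := by
      have h96 : (96 : ℝ≥0∞) = ENNReal.ofReal 96 := by norm_num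
      have h6 : (6 : ℝ≥0∞) = ENNReal.ofReal 6 := by norm_num
      have h4 : (4 : ℝ≥0∞) = ENNReal.ofReal 4 := by norm_num
      rw [h96, h6, h4, ← ENNReal.ofReal_mul (by norm_num), ← ENNReal.ofReal_mul (by norm_num),
        ← ENNReal.ofReal_mul (by norm_num)]
      congr 1; norm_num
    rw [this]
    push_cast
    ring
  rw [hconst] at htot
  apply eq_zero_of_tau b q
  by_contra hne
  have h1 := (ENNReal.mul_le_mul_iff_left hne hfin.ne).1 htot
  rw [ENNReal.ofReal_le_ofReal_iff (by norm_num)] at h1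
  norm_num at h1

end NoProj

end Pool.Agent.X207.FR
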