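import Mathlib
import Pool.Agent.X207.FRNoProj

set_option autoImplicit false

namespace Pool.Agent.X207.FR

open Complex ComplexConjugate Filter Topology
open scoped ENNReal InnerProductSpace

section State

variable {H : Type*} [NormedAddCommGroup H] [InnerProductSpace ℂ H] [CompleteSpace H]
variable (b : HilbertBasis Ix ℂ H)

/-- The exhausting finite sets. -/
def JN (N : ℕ) : Finset Ix := (Finset.range (N + 1)).sigma (fun _ => Finset.univ)

lemma mem_JN {N : ℕ} {x : Ix} : x ∈ JN N ↔ x.1 ≤ N := by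
  unfold JN
  rw [Finset.mem_sigma]
  simp [Nat.lt_succ_iff]

lemma card_JN (N : ℕ) : ((JN N).card : ℝ) = ∑ n ∈ Finset.range (N + 1), ((n : ℝ) + 1) ^ 2 := by
  unfold JN
  rw [Finset.card_sigma]
  push_cast
  apply Finset.sum_congr rfl; intro n _
  rw [Finset.card_univ, card_tor]

lemma card_JN_ge (N : ℕ) : ((N : ℝ) + 1) ^ 3 ≤ 3 * ((JN N).card : ℝ) := by
  rw [card_JN]
  induction N with
  | zero => norm_num
  | succ N ih =>
    rw [Finset.sum_range_succ]
    push_cast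
    have : (0 : ℝ) ≤ N := Nat.cast_nonneg N
    nlinarith [ih]

lemma card_JN_pos (N : ℕ) : (0 : ℝ) < ((JN N).card : ℝ) := by
  have h := card_JN_ge N
  have : (0 : ℝ) < ((N : ℝ) + 1) ^ 3 := by positivity
  linarith

/-- The averaged traces. -/
noncomputable def TN (N : ℕ) : StrongDual ℂ (H →L[ℂ] H) :=
  (((JN N).card : ℂ)⁻¹) • ∑ x ∈ JN N, (innerSL ℂ (b x)).comp (ContinuousLinearMap.apply ℂ H (b x))

lemma TN_apply (N : ℕ) (X : H →L[ℂ] H) :
    TN b N X = (((JN N).card : ℂ)⁻¹) * ∑ x ∈ JN N, ⟪b x, X (b x)⟫_ℂ := by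
  unfold TN
  simp

lemma inner_le (X : H →L[ℂ] H) (x y : Ix) : ‖⟪b x, X (b y)⟫_ℂ‖ ≤ ‖X‖ := by
  calc ‖⟪b x, X (b y)⟫_ℂ‖ ≤ ‖b x‖ * ‖X (b y)‖ := norm_inner_le_norm _ _
    _ = ‖X (b y)‖ := by rw [b.orthonormal.1, one_mul]
    _ ≤ ‖X‖ * ‖b y‖ := X.le_opNorm _
    _ = ‖X‖ := by rw [b.orthonormal.1, mul_one]

lemma TN_norm (N : ℕ) : ‖TN b N‖ ≤ 1 := by
  apply ContinuousLinearMap.opNorm_le_bound _ (by norm_num)
  intro X
  have hpos := card_JN_pos N
  rw [TN_apply, norm_mul, norm_inv, one_mul, Complex.norm_natCast]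
  rw [inv_mul_le_iff₀ hpos]
  calc ‖∑ x ∈ JN N, ⟪b x, X (b x)⟫_ℂ‖ ≤ ∑ x ∈ JN N, ‖X‖ :=
        norm_sum_le_of_le _ (fun x _ => inner_le b X x x)
    _ = _ := by rw [Finset.sum_const, nsmul_eq_mul]

lemma TN_one (N : ℕ) : TN b N 1 = 1 := by
  rw [TN_apply]
  have : ∀ x, ⟪b x, (1 : H →L[ℂ] H) (b x)⟫_ℂ = 1 := by
    intro x
    rw [ContinuousLinearMap.one_apply, inner_self_eq_norm_sq_to_K, b.orthonormal.1]
    simp
  simp_rw [this]
  have hpos := card_JN_pos N
  have : ((JN N).card : ℂ) ≠ 0 := by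
    intro h
    have : ((JN N).card : ℝ) = 0 := by exact_mod_cast h
    linarith
  simp [this]

/-- **Existence of the limiting functional.** -/
theorem exists_lim : ∃ f : StrongDual ℂ (H →L[ℂ] H), ‖f‖ ≤ 1 ∧
    ∀ X, Tendsto (fun N => TN b N X) (hyperfilter ℕ : Filter ℕ) (𝓝 (f X)) := by
  have hc := WeakDual.isCompact_closedBall (𝕜 := ℂ) (E := (H →L[ℂ] H)) 0 1
  let T : ℕ → WeakDual ℂ (H →L[ℂ] H) := fun N => (TN b N).toWeakDual
  have hmem : ∀ N, T N ∈ WeakDual.toStrongDual ⁻¹' Metric.closedBall (0 : StrongDual ℂ (H →L[ℂ] H)) 1 := by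
    intro N
    rw [Set.mem_preimage]
    have h1 : WeakDual.toStrongDual (T N) = TN b N := rfl
    rw [h1, mem_closedBall_zero_iff]
    exact TN_norm b N
  obtain ⟨f, hf, hlim⟩ := hc.ultrafilter_le_nhds ((hyperfilter ℕ).map T) (by
    rw [Ultrafilter.coe_map, le_principal_iff, mem_map]
    exact Filter.univ_mem' hmem)
  refine ⟨WeakDual.toStrongDual f, ?_, ?_⟩
  · have : WeakDual.toStrongDual f ∈ Metric.closedBall (0 : StrongDual ℂ (H →L[ℂ] H)) 1 := hf
    rw [mem_closedBall_zero_iff] at this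
    exact this
  · intro X
    have h1 : Tendsto T (hyperfilter ℕ : Filter ℕ) (𝓝 f) := hlim
    exact ((WeakDual.eval_continuous X).tendsto f).comp h1

variable {b}

lemma lim_zero {f : StrongDual ℂ (H →L[ℂ] H)} {X : H →L[ℂ] H}
    (hf : Tendsto (fun N => TN b N X) (hyperfilter ℕ : Filter ℕ) (𝓝 (f X)))
    (h0 : Tendsto (fun N => TN b N X) atTop (𝓝 0)) : f X = 0 :=
  tendsto_nhds_unique hf (h0.mono_left Nat.hyperfilter_le_atTop)

variable (b)

/-- The commutator identity for the averaged traces. -/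
lemma TN_comm (V X : H →L[ℂ] H) (sg : Ix → Ix) (ph : Ix → ℂ) (hsg : Function.Injective sg)
    (hph : ∀ x, ‖ph x‖ = 1) (hV : ∀ x, V (b x) = ph x • b (sg x))
    (hiso : ∀ v w, ⟪V v, V w⟫_ℂ = ⟪v, w⟫_ℂ) (N : ℕ) (hin : ∀ x, sg x ∈ JN N → x ∈ JN N)
    (hz : ∀ y, (∀ x, y ≠ sg x) → ∀ w, ⟪b y, V w⟫_ℂ = 0) :
    TN b N (X * V) - TN b N (V * X) =
      (((JN N).card : ℂ)⁻¹) * ∑ x ∈ (JN N).filter (fun x => sg x ∉ JN N),
        ph x * ⟪b x, X (b (sg x))⟫_ℂ := by
  classical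
  rw [TN_apply, TN_apply, ← mul_sub]
  congr 1
  have h1 : ∑ x ∈ JN N, ⟪b x, (X * V) (b x)⟫_ℂ = ∑ x ∈ JN N, ph x * ⟪b x, X (b (sg x))⟫_ℂ := by
    apply Finset.sum_congr rfl; intro x _
    rw [ContinuousLinearMap.mul_apply, hV, map_smul, inner_smul_right]
  have h2 : ∀ x, ⟪b (sg x), (V * X) (b (sg x))⟫_ℂ = ph x * ⟪b x, X (b (sg x))⟫_ℂ := by
    intro x
    have h3 : b (sg x) = conj (ph x) • V (b x) := by
      rw [hV, smul_smul, ← Complex.normSq_eq_conj_mul_self, Complex.normSq_eq_norm_sq, hph]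
      simp
    rw [ContinuousLinearMap.mul_apply]
    conv_lhs => rw [h3]
    rw [inner_smul_left, Complex.conj_conj, hiso, ← h3]
  have h4 : ∑ y ∈ JN N, ⟪b y, (V * X) (b y)⟫_ℂ
      = ∑ x ∈ (JN N).filter (fun x => sg x ∈ JN N), ph x * ⟪b x, X (b (sg x))⟫_ℂ := by
    have h5 : ∑ y ∈ JN N, ⟪b y, (V * X) (b y)⟫_ℂ
        = ∑ y ∈ ((JN N).filter (fun x => sg x ∈ JN N)).image sg, ⟪b y, (V * X) (b y)⟫_ℂ := by
      symm
      apply Finset.sum_subset
      · intro y hy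
        rw [Finset.mem_image] at hy
        obtain ⟨x, hx, rfl⟩ := hy
        exact (Finset.mem_filter.1 hx).2
      · intro y hy hy2
        apply hz
        intro x hx
        apply hy2
        rw [Finset.mem_image]
        refine ⟨x, Finset.mem_filter.2 ⟨hin x (hx ▸ hy), hx ▸ hy⟩, hx.symm⟩
    rw [h5, Finset.sum_image (fun x _ y _ h => hsg h)]
    apply Finset.sum_congr rfl; intro x _
    exact h2 x
  rw [h1, h4, sub_eq_iff_eq_add, add_comm]
  exact (Finset.sum_filter_add_sum_filter_not (JN N) (fun x => sg x ∈ JN N) _).symm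

lemma TN_comm_le (V X : H →L[ℂ] H) (sg : Ix → Ix) (ph : Ix → ℂ) (hsg : Function.Injective sg)
    (hph : ∀ x, ‖ph x‖ = 1) (hV : ∀ x, V (b x) = ph x • b (sg x))
    (hiso : ∀ v w, ⟪V v, V w⟫_ℂ = ⟪v, w⟫_ℂ) (N : ℕ) (hin : ∀ x, sg x ∈ JN N → x ∈ JN N)
    (hout : ∀ x, x ∈ JN N → sg x ∉ JN N → x.1 = N)
    (hz : ∀ y, (∀ x, y ≠ sg x) → ∀ w, ⟪b y, V w⟫_ℂ = 0) :
    ‖TN b N (X * V) - TN b N (V * X)‖ ≤ 3 * ‖X‖ / ((N : ℝ) + 1) := by
  classical
  rw [TN_comm b V X sg ph hsg hph hV hiso N hin hz, norm_mul, norm_inv, Complex.norm_natCast]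
  have hpos := card_JN_pos N
  have h1 : ((JN N).filter (fun x => sg x ∉ JN N)).card ≤ (N + 1) ^ 2 := by
    have h2 : (JN N).filter (fun x => sg x ∉ JN N) ⊆
        (Finset.univ : Finset (Tor (N + 1))).image (fun y => (⟨N, y⟩ : Ix)) := by
      intro x hx
      rw [Finset.mem_filter] at hx
      have h3 := hout x hx.1 hx.2
      obtain ⟨n, y⟩ := x
      simp only at h3
      subst h3
      rw [Finset.mem_image]
      exact ⟨y, Finset.mem_univ _, rfl⟩
    refine le_trans (Finset.card_le_card h2) (le_trans Finset.card_image_le ?_)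
    rw [Finset.card_univ, Fintype.card_prod, ZMod.card]
    exact le_of_eq (by ring)
  have h3 : ‖∑ x ∈ (JN N).filter (fun x => sg x ∉ JN N), ph x * ⟪b x, X (b (sg x))⟫_ℂ‖
      ≤ ((N : ℝ) + 1) ^ 2 * ‖X‖ := by
    calc _ ≤ ∑ x ∈ (JN N).filter (fun x => sg x ∉ JN N), ‖X‖ := by
          apply norm_sum_le_of_le
          intro x _
          rw [norm_mul, hph, one_mul]
          exact inner_le b X _ _
      _ = (((JN N).filter (fun x => sg x ∉ JN N)).card : ℝ) * ‖X‖ := by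
          rw [Finset.sum_const, nsmul_eq_mul]
      _ ≤ ((N : ℝ) + 1) ^ 2 * ‖X‖ := by
          gcongr
          exact_mod_cast h1
  have h4 := card_JN_ge N
  have hN : (0 : ℝ) < (N : ℝ) + 1 := by positivity
  rw [inv_mul_le_iff₀ hpos]
  refine le_trans h3 ?_
  rw [mul_div_assoc', le_div_iff₀ hN]
  nlinarith [norm_nonneg X, mul_le_mul_of_nonneg_right h4 (norm_nonneg X)]

lemma tendsto_const_div (c : ℝ) : Tendsto (fun N : ℕ => c / ((N : ℝ) + 1)) atTop (𝓝 0) := by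
  have h := tendsto_one_div_add_atTop_nhds_zero_nat (𝕜 := ℝ)
  have h2 := h.const_mul c
  rw [mul_zero] at h2
  convert h2 using 2
  ring

/-- Compact operators are small on most basis vectors. -/
lemma compact_small (K : H →L[ℂ] H) (hK : IsCompactOperator K) {e : ℝ} (he : 0 < e) :
    {x : Ix | e ≤ ‖K (b x)‖}.Finite := by
  by_contra hinf
  have hinf' : {x : Ix | e ≤ ‖K (b x)‖}.Infinite := hinf
  let g := hinf'.natEmbedding
  have hcomp : IsCompact (closure (K '' Metric.closedBall 0 1)) :=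
    IsCompactOperator.isCompact_closure_image_closedBall (𝕜₁ := ℂ) (f := (K : H →ₗ[ℂ] H)) hK 1
  have hmem : ∀ k, K (b (g k : Ix)) ∈ closure (K '' Metric.closedBall 0 1) := by
    intro k
    apply subset_closure
    refine ⟨b (g k : Ix), ?_, rfl⟩
    rw [mem_closedBall_zero_iff, b.orthonormal.1]
  obtain ⟨w, _, φ, hφ, hlim⟩ := hcomp.tendsto_subseq hmem
  have hw : e ≤ ‖w‖ := by
    apply ge_of_tendsto hlim.norm
    exact Filter.Eventually.of_forall (fun k => (g (φ k)).2)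
  -- weak convergence to zero
  have hz : Tendsto (fun x : Ix => ⟪ContinuousLinearMap.adjoint K w, b x⟫_ℂ) cofinite (𝓝 0) := by
    have h1 := (hasSum_sq b (ContinuousLinearMap.adjoint K w)).summable.tendsto_cofinite_zero
    rw [tendsto_zero_iff_norm_tendsto_zero]
    have h2 : Tendsto (fun x : Ix => Real.sqrt (‖⟪b x, ContinuousLinearMap.adjoint K w⟫_ℂ‖ ^ 2))
        cofinite (𝓝 (Real.sqrt 0)) := (Real.continuous_sqrt.tendsto 0).comp h1
    rw [Real.sqrt_zero] at h2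
    convert h2 using 2 with x
    rw [Real.sqrt_sq (norm_nonneg _), ← inner_conj_symm, RCLike.norm_conj]
  have hinj : Function.Injective (fun k => (g (φ k) : Ix)) := by
    intro k l hkl
    exact hφ.injective (g.injective (Subtype.ext hkl))
  have h3 : Tendsto (fun k => ⟪ContinuousLinearMap.adjoint K w, b (g (φ k) : Ix)⟫_ℂ) atTop (𝓝 0) := by
    rw [← Nat.cofinite_eq_atTop]
    exact hz.comp hinj.tendsto_cofinite
  have h4 : Tendsto (fun k => ⟪w, K (b (g (φ k) : Ix))⟫_ℂ) atTop (𝓝 ⟪w, w⟫_ℂ) :=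
    Tendsto.inner tendsto_const_nhds hlim
  have h5 : (fun k => ⟪ContinuousLinearMap.adjoint K w, b (g (φ k) : Ix)⟫_ℂ)
      = fun k => ⟪w, K (b (g (φ k) : Ix))⟫_ℂ := by
    funext k; rw [ContinuousLinearMap.adjoint_inner_left]
  rw [h5] at h3
  have h6 := tendsto_nhds_unique h3 h4
  have h7 : w = 0 := inner_self_eq_zero.1 h6.symm
  rw [h7, norm_zero] at hw
  linarith

lemma TN_compact (K : H →L[ℂ] H) (hK : IsCompactOperator K) :
    Tendsto (fun N => TN b N K) atTop (𝓝 0) := by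
  classical
  rw [Metric.tendsto_atTop]
  intro e he
  have hfin := compact_small b K hK (half_pos he)
  set F := hfin.toFinset with hF
  have hlim := tendsto_const_div (3 * (F.card : ℝ) * ‖K‖)
  obtain ⟨N0, hN0⟩ := (Metric.tendsto_atTop.1 hlim) (e / 2) (half_pos he)
  refine ⟨N0, fun N hN => ?_⟩
  have h1 := hN0 N hN
  rw [dist_zero_right, Real.norm_eq_abs, abs_lt] at h1
  rw [dist_zero_right, TN_apply, norm_mul, norm_inv, Complex.norm_natCast]
  have hpos := card_JN_pos N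
  have hN1 : (1 : ℝ) ≤ (N : ℝ) + 1 := by
    have : (0 : ℝ) ≤ N := Nat.cast_nonneg N
    linarith
  have hge := card_JN_ge N
  have h2 : ‖∑ x ∈ JN N, ⟪b x, K (b x)⟫_ℂ‖ ≤ (F.card : ℝ) * ‖K‖ + ((JN N).card : ℝ) * (e / 2) := by
    have h3 : ∀ x ∈ JN N, ‖⟪b x, K (b x)⟫_ℂ‖ ≤ (if x ∈ F then ‖K‖ else 0) + e / 2 := by
      intro x _
      by_cases hx : x ∈ F
      · rw [if_pos hx]
        have := inner_le b K x x
        linarith
      · rw [if_neg hx, zero_add]
        have h4 : ‖K (b x)‖ < e / 2 := by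
          rw [hF, Set.Finite.mem_toFinset] at hx
          exact not_le.1 hx
        calc _ ≤ ‖b x‖ * ‖K (b x)‖ := norm_inner_le_norm _ _
          _ = ‖K (b x)‖ := by rw [b.orthonormal.1, one_mul]
          _ ≤ e / 2 := h4.le
    refine le_trans (norm_sum_le_of_le _ h3) ?_
    rw [Finset.sum_add_distrib, Finset.sum_const, nsmul_eq_mul]
    gcongr
    rw [← Finset.sum_filter, Finset.sum_const, nsmul_eq_mul]
    gcongr
    intro x hx
    exact (Finset.mem_filter.1 hx).2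
  have h5 : (F.card : ℝ) * ‖K‖ < ((JN N).card : ℝ) * (e / 2) := by
    have h6 := h1.2
    rw [div_lt_iff₀ (by linarith)] at h6
    have h7 : ((N : ℝ) + 1) ≤ ((N : ℝ) + 1) ^ 3 := by
      nlinarith [mul_self_nonneg ((N : ℝ) + 1 - 1)]
    have h8 : ((N : ℝ) + 1) * (e / 2) ≤ 3 * ((JN N).card : ℝ) * (e / 2) :=
      mul_le_mul_of_nonneg_right (le_trans h7 hge) (by positivity)
    nlinarith
  rw [inv_mul_lt_iff₀ hpos]
  calc _ ≤ (F.card : ℝ) * ‖K‖ + ((JN N).card : ℝ) * (e / 2) := h2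
    _ < ((JN N).card : ℝ) * (e / 2) + ((JN N).card : ℝ) * (e / 2) := by linarith
    _ = ((JN N).card : ℝ) * e := by ring

lemma TN_adjoint (N : ℕ) (X : H →L[ℂ] H) :
    TN b N (ContinuousLinearMap.adjoint X) = conj (TN b N X) := by
  rw [TN_apply, TN_apply, map_mul, map_inv₀, map_sum, Complex.conj_natCast]
  congr 1
  apply Finset.sum_congr rfl; intro x _
  rw [ContinuousLinearMap.adjoint_inner_right, inner_conj_symm]

end State

end Pool.Agent.X207.FR
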