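import Mathlib
import Pool.Agent.X207.FRState
import Pool.Agent.X207.FRAmp2

set_option autoImplicit false

namespace Pool.Agent.X207.FR

open Complex ComplexConjugate Filter Topology
open scoped ENNReal InnerProductSpace

/-- The Hilbert space. -/
abbrev HS : Type := lp (fun _ : Ix => ℂ) 2

/-- Its standard basis. -/
noncomputable def bs : HilbertBasis Ix ℂ HS := HilbertBasis.ofRepr (LinearIsometryEquiv.refl ℂ HS)

section Isom

variable {H : Type*} [NormedAddCommGroup H] [InnerProductSpace ℂ H] [CompleteSpace H]
variable {ι : Type*} (b : HilbertBasis ι ℂ H)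

lemma ext_basis {X Y : H →L[ℂ] H} (h : ∀ x, X (b x) = Y (b x)) : X = Y := by
  apply ContinuousLinearMap.ext_on (s := Set.range b)
  · have := b.dense_span
    rw [← Submodule.dense_iff_topologicalClosure_eq_top] at this
    exact this
  · rintro _ ⟨x, rfl⟩
    exact h x

lemma ext_inner {u w : H} (h : ∀ x, ⟪b x, u⟫_ℂ = ⟪b x, w⟫_ℂ) : u = w := by
  have h1 : ∑' x, ‖⟪b x, u - w⟫_ℂ‖ₑ ^ 2 = 0 := by
    rw [ENNReal.tsum_eq_zero]
    intro x
    rw [inner_sub_right, h x, sub_self]
    simp
  rw [tsum_enorm] at h1
  rw [pow_eq_zero_iff (by norm_num)] at h1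
  exact sub_eq_zero.1 (enorm_eq_zero.1 h1)

/-- Existence of monomial isometries. -/
theorem exists_mono (sg : ι → ι) (ph : ι → ℂ) (hsg : Function.Injective sg)
    (hph : ∀ x, ‖ph x‖ = 1) : ∃ V : H →L[ℂ] H, (∀ x, V (b x) = ph x • b (sg x)) ∧
      (∀ v w, ⟪V v, V w⟫_ℂ = ⟪v, w⟫_ℂ) ∧ (∀ y, (∀ x, y ≠ sg x) → ∀ w, ⟪b y, V w⟫_ℂ = 0) := by
  classical
  have hv : Orthonormal ℂ (fun x => ph x • b (sg x)) := by
    rw [orthonormal_iff_ite]
    intro x y
    rw [inner_smul_left, inner_smul_right, orthonormal_iff_ite.1 b.orthonormal]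
    by_cases hxy : x = y
    · subst hxy
      rw [if_pos rfl, if_pos rfl, mul_one, ← Complex.normSq_eq_conj_mul_self,
        Complex.normSq_eq_norm_sq, hph]
      simp
    · rw [if_neg (fun h => hxy (hsg h)), if_neg hxy]
      simp
  let V0 : H →ₗᵢ[ℂ] H := (hv.orthogonalFamily.linearIsometry).comp b.repr.toLinearIsometry
  have hV0 : ∀ x, V0 (b x) = ph x • b (sg x) := by
    intro x
    show hv.orthogonalFamily.linearIsometry (b.repr (b x)) = _
    rw [b.repr_self, OrthogonalFamily.linearIsometry_apply_single]
    simp
  refine ⟨V0.toContinuousLinearMap, hV0, fun v w => V0.inner_map_map v w, ?_⟩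
  intro y hy w
  have h1 : (innerSL ℂ (b y)).comp V0.toContinuousLinearMap = 0 := by
    apply ContinuousLinearMap.ext_on (s := Set.range b)
    · have := b.dense_span
      rw [← Submodule.dense_iff_topologicalClosure_eq_top] at this
      exact this
    · rintro _ ⟨x, rfl⟩
      show ⟪b y, V0 (b x)⟫_ℂ = 0
      rw [hV0, inner_smul_right, orthonormal_iff_ite.1 b.orthonormal, if_neg (hy x), mul_zero]
  have h2 := congrArg (fun T => T w) h1
  simpa using h2

include b in
/-- Existence of Cuntz isometries. -/
theorem exists_cuntz {L : ℕ} (e : Fin L × ι ≃ ι) :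
    ∃ v : Fin L → (H →L[ℂ] H), (∀ i j, star (v i) * v j = if i = j then 1 else 0) ∧
      ∑ i, v i * star (v i) = 1 := by
  classical
  have hex : ∀ i : Fin L, ∃ V : H →L[ℂ] H, (∀ x, V (b x) = (1 : ℂ) • b (e (i, x))) ∧
      (∀ v w, ⟪V v, V w⟫_ℂ = ⟪v, w⟫_ℂ) ∧ (∀ y, (∀ x, y ≠ e (i, x)) → ∀ w, ⟪b y, V w⟫_ℂ = 0) := by
    intro i
    apply exists_mono b (fun x => e (i, x)) (fun _ => 1)
    · intro x y h
      have := e.injective h
      simpa using this
    · intro x; simp
  choose v hv hiso hz using hex
  simp only [one_smul] at hv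
  refine ⟨v, ?_, ?_⟩
  · intro i j
    apply ext_basis b
    intro x
    apply ext_inner b
    intro y
    rw [ContinuousLinearMap.mul_apply, ContinuousLinearMap.star_eq_adjoint,
      ContinuousLinearMap.adjoint_inner_right, hv, hv, orthonormal_iff_ite.1 b.orthonormal]
    by_cases hij : i = j
    · subst hij
      rw [if_pos rfl, ContinuousLinearMap.one_apply, orthonormal_iff_ite.1 b.orthonormal]
      by_cases hxy : y = x
      · subst hxy; simp
      · rw [if_neg, if_neg hxy]
        intro h
        have := e.injective h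
        exact hxy (by simpa using this)
    · rw [if_neg hij, if_neg]
      · simp
      · intro h
        have := e.injective h
        exact hij (Prod.ext_iff.1 this).1
  · apply ext_basis b
    intro z
    obtain ⟨⟨o, x⟩, rfl⟩ := e.surjective z
    have h1 : ∀ i, star (v i) (b (e (o, x))) = if i = o then b x else 0 := by
      intro i
      apply ext_inner b
      intro y
      rw [ContinuousLinearMap.star_eq_adjoint, ContinuousLinearMap.adjoint_inner_right, hv,
        orthonormal_iff_ite.1 b.orthonormal]
      by_cases hi : i = o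
      · subst hi
        rw [if_pos rfl, orthonormal_iff_ite.1 b.orthonormal]
        by_cases hxy : y = x
        · subst hxy; simp
        · rw [if_neg, if_neg hxy]
          intro h
          have := e.injective h
          exact hxy (by simpa using this)
      · rw [if_neg hi, if_neg]
        · simp
        · intro h
          have := e.injective h
          exact hi (Prod.ext_iff.1 this).1
    rw [ContinuousLinearMap.sum_apply]
    simp only [ContinuousLinearMap.mul_apply, h1, ContinuousLinearMap.one_apply]
    rw [Finset.sum_eq_single o]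
    · rw [if_pos rfl, hv]
    · intro i _ hi
      rw [if_neg hi, map_zero]
    · intro h; exact absurd (Finset.mem_univ o) h

end Isom

/-- The space is separable. -/
theorem separable_HS : TopologicalSpace.SeparableSpace HS := by
  rw [← TopologicalSpace.isSeparable_univ_iff]
  have h1 : TopologicalSpace.IsSeparable (Set.range bs) := (Set.countable_range bs).isSeparable
  have h2 : TopologicalSpace.IsSeparable ((Submodule.span ℂ (Set.range bs) : Submodule ℂ HS) : Set HS) :=
    TopologicalSpace.IsSeparable.span h1
  have h3 := h2.closure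
  have h4 := bs.dense_span
  rw [← Submodule.dense_iff_topologicalClosure_eq_top] at h4
  rw [h4.closure_eq] at h3
  exact h3

end Pool.Agent.X207.FR
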