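import Mathlib
import Pool.Agent.X207.FRIsom

set_option autoImplicit false

namespace Pool.Agent.X207.FR

open Complex ComplexConjugate Filter Topology
open scoped ENNReal InnerProductSpace

section ReIm

variable {A : Type*} [CStarAlgebra A]

/-- Real part. -/
noncomputable def reP (w : A) : A := (1 / 2 : ℂ) • (w + star w)

/-- Imaginary part. -/
noncomputable def imP (w : A) : A := (-(I / 2) : ℂ) • (w - star w)

lemma reP_sa (w : A) : IsSelfAdjoint (reP w) := by
  unfold reP
  rw [IsSelfAdjoint, star_smul, star_add, star_star, add_comm (star w)]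
  congr 1
  simp

lemma imP_sa (w : A) : IsSelfAdjoint (imP w) := by
  unfold imP
  rw [IsSelfAdjoint, star_smul, star_sub, star_star, ← neg_sub w (star w), smul_neg, ← neg_smul]
  congr 1
  simp [neg_div]

lemma re_add_im (w : A) : reP w + I • imP w = w := by
  unfold reP imP
  rw [smul_smul]
  have : I * -(I / 2) = 1 / 2 := by
    rw [mul_neg, mul_div_assoc', I_mul_I]; norm_num
  rw [this, ← smul_add]
  have h2 : w + star w + (w - star w) = (2 : ℂ) • w := by rw [two_smul]; abel
  rw [h2, smul_smul]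
  norm_num

lemma re_sub_im (w : A) : reP w - I • imP w = star w := by
  unfold reP imP
  rw [smul_smul]
  have : I * -(I / 2) = 1 / 2 := by
    rw [mul_neg, mul_div_assoc', I_mul_I]; norm_num
  rw [this, ← smul_sub]
  have h2 : w + star w - (w - star w) = (2 : ℂ) • star w := by rw [two_smul]; abel
  rw [h2, smul_smul]
  norm_num

lemma reP_norm (w : A) : ‖reP w‖ ≤ ‖w‖ := by
  unfold reP
  rw [norm_smul]
  calc ‖(1 / 2 : ℂ)‖ * ‖w + star w‖ ≤ ‖(1 / 2 : ℂ)‖ * (‖w‖ + ‖star w‖) := by
        gcongr; exact norm_add_le _ _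
    _ = ‖w‖ := by rw [norm_star]; norm_num; ring

lemma imP_norm (w : A) : ‖imP w‖ ≤ ‖w‖ := by
  unfold imP
  rw [norm_smul]
  calc ‖(-(I / 2) : ℂ)‖ * ‖w - star w‖ ≤ ‖(-(I / 2) : ℂ)‖ * (‖w‖ + ‖star w‖) := by
        gcongr; exact norm_sub_le _ _
    _ = ‖w‖ := by rw [norm_star, norm_neg]; norm_num; ring

/-- Commutators with real and imaginary parts. -/
lemma comm_re (P w : A) {e : ℝ} (h1 : ‖P * w - w * P‖ ≤ e) (h2 : ‖P * star w - star w * P‖ ≤ e) :
    ‖P * reP w - reP w * P‖ ≤ e := by
  have h : P * reP w - reP w * P = (1 / 2 : ℂ) • ((P * w - w * P) + (P * star w - star w * P)) := by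
    unfold reP
    rw [mul_smul_comm, smul_mul_assoc, ← smul_sub]
    congr 1
    rw [mul_add, add_mul]; abel
  rw [h, norm_smul]
  calc ‖(1 / 2 : ℂ)‖ * ‖(P * w - w * P) + (P * star w - star w * P)‖
      ≤ ‖(1 / 2 : ℂ)‖ * (e + e) := by
        gcongr
        exact le_trans (norm_add_le _ _) (add_le_add h1 h2)
    _ = e := by norm_num; ring

lemma comm_im (P w : A) {e : ℝ} (h1 : ‖P * w - w * P‖ ≤ e) (h2 : ‖P * star w - star w * P‖ ≤ e) :
    ‖P * imP w - imP w * P‖ ≤ e := by
  have h : P * imP w - imP w * P = (-(I / 2) : ℂ) • ((P * w - w * P) - (P * star w - star w * P)) := by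
    unfold imP
    rw [mul_smul_comm, smul_mul_assoc, ← smul_sub]
    congr 1
    rw [mul_sub, sub_mul]; abel
  rw [h, norm_smul]
  calc ‖(-(I / 2) : ℂ)‖ * ‖(P * w - w * P) - (P * star w - star w * P)‖
      ≤ ‖(-(I / 2) : ℂ)‖ * (e + e) := by
        gcongr
        exact le_trans (norm_sub_le _ _) (add_le_add h1 h2)
    _ = e := by rw [norm_neg]; norm_num; ring

lemma comm_of_re_im (P w : A) {e : ℝ} (h1 : ‖P * reP w - reP w * P‖ ≤ e)
    (h2 : ‖P * imP w - imP w * P‖ ≤ e) : ‖P * w - w * P‖ ≤ e + e := by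
  have h : P * w - w * P = (P * reP w - reP w * P) + I • (P * imP w - imP w * P) := by
    conv_lhs => rw [← re_add_im w]
    rw [mul_add, add_mul, mul_smul_comm, smul_mul_assoc, smul_sub]; abel
  rw [h]
  refine le_trans (norm_add_le _ _) ?_
  rw [norm_smul, Complex.norm_I, one_mul]
  exact add_le_add h1 h2

lemma reP_add (X Y : A) (hX : IsSelfAdjoint X) (hY : IsSelfAdjoint Y) : reP (X + I • Y) = X := by
  unfold reP
  rw [star_add, star_smul, hX.star_eq, hY.star_eq]
  have : X + I • Y + (X + star I • Y) = (2 : ℂ) • X := by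
    rw [two_smul]
    have : star I = -I := Complex.conj_I
    rw [this, neg_smul]; abel
  rw [this, smul_smul]
  norm_num

lemma imP_add (X Y : A) (hX : IsSelfAdjoint X) (hY : IsSelfAdjoint Y) : imP (X + I • Y) = Y := by
  unfold imP
  rw [star_add, star_smul, hX.star_eq, hY.star_eq]
  have : X + I • Y - (X + star I • Y) = (2 * I : ℂ) • Y := by
    have : star I = -I := Complex.conj_I
    rw [this, neg_smul, mul_smul, two_smul]; abel
  rw [this, smul_smul]
  have : -(I / 2) * (2 * I) = 1 := by
    have := I_mul_I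
    linear_combination -this
  rw [this, one_smul]

end ReIm

section Lift

variable {A : Type*} [CStarAlgebra A] {L : ℕ} (v : Fin L → A) (S : Fin L → A)

/-- The lifted functional. -/
noncomputable def liftF (f : StrongDual ℂ A) : StrongDual ℂ A :=
  ((L : ℂ)⁻¹) • ∑ j : Fin L, f.comp ((ContinuousLinearMap.mul ℂ A (star (v j))).comp
    ((ContinuousLinearMap.mul ℂ A).flip (v j)))

lemma liftF_apply (f : StrongDual ℂ A) (X : A) :
    liftF v f X = ((L : ℂ)⁻¹) * ∑ j : Fin L, f (star (v j) * (X * v j)) := by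
  unfold liftF
  simp

lemma liftF_norm (hv : ∀ i j, star (v i) * v j = if i = j then 1 else 0) (hL : 0 < L)
    (f : StrongDual ℂ A) (hf : ‖f‖ ≤ 1) : ‖liftF v f‖ ≤ 1 := by
  apply ContinuousLinearMap.opNorm_le_bound _ (by norm_num)
  intro X
  have hpos : (0 : ℝ) < L := by exact_mod_cast hL
  rw [liftF_apply, norm_mul, norm_inv, one_mul, Complex.norm_natCast, inv_mul_le_iff₀ hpos]
  calc ‖∑ j : Fin L, f (star (v j) * (X * v j))‖ ≤ ∑ j : Fin L, ‖X‖ := by
        apply norm_sum_le_of_le; intro j _
        calc ‖f (star (v j) * (X * v j))‖ ≤ ‖f‖ * ‖star (v j) * (X * v j)‖ := f.le_opNorm _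
          _ ≤ 1 * ‖X‖ := by
            gcongr
            rw [← mul_assoc]
            exact corner_le v hv j j X
          _ = ‖X‖ := one_mul _
    _ = L * ‖X‖ := by simp

lemma liftF_one (hv : ∀ i j, star (v i) * v j = if i = j then 1 else 0) (hL : 0 < L)
    (f : StrongDual ℂ A) (hf : f 1 = 1) : liftF v f 1 = 1 := by
  rw [liftF_apply]
  have : ∀ j, f (star (v j) * (1 * v j)) = 1 := by
    intro j; rw [one_mul, hv, if_pos rfl, hf]
  simp_rw [this]
  have hL' : (L : ℂ) ≠ 0 := by exact_mod_cast hL.ne'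
  simp [hL']

lemma f_smul_comm (f : StrongDual ℂ A) (c : ℂ) (X : A) : f (c • X) = c * f X := by
  rw [map_smul, smul_eq_mul]

/-- The lifted functional is a hypertrace for the encoded operator. -/
lemma liftF_comm (hv : ∀ i j, star (v i) * v j = if i = j then 1 else 0)
    (hS : ∀ i, IsSelfAdjoint (S i)) (f : StrongDual ℂ A) (hf : ∀ i X, f (S i * X) = f (X * S i))
    (X : A) : liftF v f ((opD v + I • opB v S) * X) = liftF v f (X * (opD v + I • opB v S)) := by
  rw [liftF_apply, liftF_apply]
  congr 1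
  set a : Fin L → Fin L → A := fun i j => star (v i) * X * v j with ha
  have h1 : ∀ j, star (v j) * ((opD v + I • opB v S) * X * v j)
      = ((j : ℕ) : ℂ) • a j j + I • (S j * a j j + ∑ l, (if j = l then 0 else a l j)) := by
    intro j
    have e1 : star (v j) * ((opD v + I • opB v S) * X * v j)
        = (star (v j) * opD v) * X * v j + I • ((star (v j) * opB v S) * X * v j) := by
      simp only [add_mul, mul_add, smul_mul_assoc, mul_smul_comm, mul_assoc]
    rw [e1, vD v hv, vB v S hv, smul_mul_assoc, smul_mul_assoc, add_mul, add_mul, Finset.sum_mul,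
      Finset.sum_mul]
    congr 2
    congr 1
    · simp only [ha, mul_assoc]
    · apply Finset.sum_congr rfl; intro l _
      by_cases h : j = l
      · rw [if_pos h, if_pos h, zero_mul, zero_mul]
      · rw [if_neg h, if_neg h]
  have h2 : ∀ j, star (v j) * (X * (opD v + I • opB v S) * v j)
      = ((j : ℕ) : ℂ) • a j j + I • (a j j * S j + ∑ l, (if j = l then 0 else a j l)) := by
    intro j
    have e1 : star (v j) * (X * (opD v + I • opB v S) * v j)
        = star (v j) * X * (opD v * v j) + I • (star (v j) * X * (opB v S * v j)) := by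
      simp only [add_mul, mul_add, smul_mul_assoc, mul_smul_comm, mul_assoc]
    rw [e1, Dv v hv, Bv v S hv hS, mul_smul_comm, mul_add, Finset.mul_sum]
    congr 2
    congr 1
    · simp only [ha, mul_assoc]
    · apply Finset.sum_congr rfl; intro l _
      by_cases h : j = l
      · rw [if_pos h, if_pos h, mul_zero]
      · rw [if_neg h, if_neg h]
  simp_rw [h1, h2, map_add, f_smul_comm, map_add, map_sum, hf, Finset.sum_add_distrib,
    ← Finset.mul_sum, Finset.sum_add_distrib]
  congr 3
  rw [Finset.sum_comm]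
  apply Finset.sum_congr rfl; intro l _
  apply Finset.sum_congr rfl; intro j _
  by_cases h : j = l
  · rw [if_pos h, if_pos h.symm]
  · rw [if_neg h, if_neg (Ne.symm h)]

end Lift


/-- The seven permutations. -/
def sg7 (k : Fin 7) (x : Ix) : Ix := if h : k.val < 6 then sg6 ⟨k.val, h⟩ x else sgC x

/-- The seven phases. -/
noncomputable def ph7 (k : Fin 7) (x : Ix) : ℂ := if h : k.val < 6 then ph6 ⟨k.val, h⟩ x else 1

lemma sg7_inj (k : Fin 7) : Function.Injective (sg7 k) := by
  intro x y h
  unfold sg7 at h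
  by_cases hk : k.val < 6
  · rw [dif_pos hk, dif_pos hk] at h
    exact sg6_inj _ h
  · rw [dif_neg hk, dif_neg hk] at h
    exact sgC_inj h

lemma ph7_norm (k : Fin 7) (x : Ix) : ‖ph7 k x‖ = 1 := by
  unfold ph7
  by_cases hk : k.val < 6
  · rw [dif_pos hk]; exact ph6_norm _ _
  · rw [dif_neg hk]; simp

/-- **The example.** -/
theorem main_example : ∃ A : HS →L[ℂ] HS,
    (∃ f : (HS →L[ℂ] HS) →L[ℂ] ℂ, f 1 = 1 ∧ ‖f‖ = 1 ∧
        (∀ X : HS →L[ℂ] HS, f (A * X - X * A) = 0) ∧
        (∀ K : HS →L[ℂ] HS, IsCompactOperator K → f K = 0)) ∧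
    ∀ F : HS →L[ℂ] HS, ‖F‖ < 1 / 2000000 → ∀ M : Submodule ℂ HS, FiniteDimensional ℂ M →
            (∀ x ∈ M, (A - F) x ∈ M) →
            (∀ x ∈ M, (ContinuousLinearMap.adjoint (A - F)) x ∈ M) → M = ⊥ := by
  classical
  -- the seven isometries
  have hW : ∀ k : Fin 7, ∃ V : HS →L[ℂ] HS, (∀ x, V (bs x) = ph7 k x • bs (sg7 k x)) ∧
      (∀ v w, ⟪V v, V w⟫_ℂ = ⟪v, w⟫_ℂ) ∧ (∀ y, (∀ x, y ≠ sg7 k x) → ∀ w, ⟪bs y, V w⟫_ℂ = 0) :=
    fun k => exists_mono bs (sg7 k) (ph7 k) (sg7_inj k) (ph7_norm k)
  choose W hWb hWi hWz using hW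
  have hWn : ∀ k, ‖W k‖ ≤ 1 := by
    intro k
    apply ContinuousLinearMap.opNorm_le_bound _ (by norm_num)
    intro x
    have h1 := hWi k x x
    rw [inner_self_eq_norm_sq_to_K, inner_self_eq_norm_sq_to_K] at h1
    have h2 : ‖W k x‖ ^ 2 = ‖x‖ ^ 2 := by exact_mod_cast h1
    rw [one_mul]
    exact le_of_eq ((pow_left_inj₀ (norm_nonneg _) (norm_nonneg _) (by norm_num)).1 h2)
  -- the Cuntz isometries
  obtain ⟨e⟩ : Nonempty (Fin 14 × Ix ≃ Ix) := nonempty_equiv_of_countable
  obtain ⟨v, hv, hvs⟩ := exists_cuntz bs e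
  -- the self-adjoint operators
  let S : Fin 14 → (HS →L[ℂ] HS) := fun k =>
    if h : k.val < 7 then reP (W ⟨k.val, h⟩) else imP (W ⟨k.val - 7, by omega⟩)
  have hSre : ∀ k : Fin 7, S ⟨k.val, by omega⟩ = reP (W k) := by
    intro k
    simp only [S]
    rw [dif_pos k.isLt]
  have hSim : ∀ k : Fin 7, S ⟨k.val + 7, by omega⟩ = imP (W k) := by
    intro k
    simp only [S]
    rw [dif_neg (by omega)]
    congr 2
  have hScase : ∀ i : Fin 14, ∃ k : Fin 7, S i = reP (W k) ∨ S i = imP (W k) := by
    intro i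
    by_cases h : i.val < 7
    · exact ⟨⟨i.val, h⟩, Or.inl (by simp only [S]; rw [dif_pos h])⟩
    · exact ⟨⟨i.val - 7, by omega⟩, Or.inr (by simp only [S]; rw [dif_neg h])⟩
  have hS : ∀ i, IsSelfAdjoint (S i) := by
    intro i
    obtain ⟨k, h | h⟩ := hScase i
    · rw [h]; exact reP_sa _
    · rw [h]; exact imP_sa _
  have hSn : ∀ i, ‖S i‖ ≤ 1 := by
    intro i
    obtain ⟨k, h | h⟩ := hScase i
    · rw [h]; exact le_trans (reP_norm _) (hWn k)
    · rw [h]; exact le_trans (imP_norm _) (hWn k)
  -- the functional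
  obtain ⟨f, hfn, hlim⟩ := exists_lim bs
  have hf1 : f 1 = 1 := by
    have h1 := hlim 1
    simp_rw [TN_one] at h1
    exact (tendsto_nhds_unique h1 tendsto_const_nhds)
  have hfW : ∀ k X, f (X * W k) = f (W k * X) := by
    intro k X
    rw [← sub_eq_zero, ← map_sub]
    apply lim_zero (hlim _)
    rw [tendsto_zero_iff_norm_tendsto_zero]
    refine squeeze_zero (fun N => norm_nonneg _) (fun N => ?_) (tendsto_const_div (3 * ‖X‖))
    rw [map_sub]
    apply TN_comm_le bs (W k) X (sg7 k) (ph7 k) (sg7_inj k) (ph7_norm k) (hWb k) (hWi k) N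
    · intro x hx
      rw [mem_JN] at hx ⊢
      unfold sg7 at hx
      by_cases hk : k.val < 6
      · rw [dif_pos hk] at hx; exact hx
      · rw [dif_neg hk] at hx
        have h2 : (sgC x).1 = x.1 + 1 := rfl
        omega
    · intro x hx hx2
      rw [mem_JN] at hx hx2
      unfold sg7 at hx2
      by_cases hk : k.val < 6
      · rw [dif_pos hk] at hx2; exact absurd hx hx2
      · rw [dif_neg hk] at hx2
        have h2 : (sgC x).1 = x.1 + 1 := rfl
        omega
    · exact hWz k
  have hfs : ∀ X, f (star X) = conj (f X) := by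
    intro X
    have h1 := hlim (star X)
    have h2 := (Complex.continuous_conj.tendsto (f X)).comp (hlim X)
    refine tendsto_nhds_unique h1 ?_
    convert h2 using 1
    funext N
    rw [ContinuousLinearMap.star_eq_adjoint, TN_adjoint]
    rfl
  have hfW' : ∀ k X, f (X * star (W k)) = f (star (W k) * X) := by
    intro k X
    have h1 : X * star (W k) = star (W k * star X) := by rw [star_mul, star_star]
    have h2 : star (W k) * X = star (star X * W k) := by rw [star_mul, star_star]
    rw [h1, h2, hfs, hfs, hfW]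
  have hfS : ∀ i X, f (S i * X) = f (X * S i) := by
    intro i X
    obtain ⟨k, h | h⟩ := hScase i
    · rw [h]; unfold reP
      rw [smul_mul_assoc, mul_smul_comm, map_smul, map_smul, add_mul, mul_add, map_add, map_add,
        hfW, hfW']
    · rw [h]; unfold imP
      rw [smul_mul_assoc, mul_smul_comm, map_smul, map_smul, sub_mul, mul_sub, map_sub, map_sub,
        hfW, hfW']
  have hfK : ∀ K : HS →L[ℂ] HS, IsCompactOperator K → f K = 0 := by
    intro K hK
    exact lim_zero (hlim K) (TN_compact bs K hK)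
  -- the operator
  set D := opD v with hD
  set B := opB v S with hB
  have hDs : IsSelfAdjoint D := opD_sa v
  have hBs : IsSelfAdjoint B := opB_sa v S hS
  refine ⟨D + I • B, ⟨liftF v f, liftF_one v hv (by norm_num) f hf1, ?_, ?_, ?_⟩, ?_⟩
  · apply le_antisymm (liftF_norm v hv (by norm_num) f hfn)
    have h1 := (liftF v f).le_opNorm 1
    rw [liftF_one v hv (by norm_num) f hf1, norm_one] at h1
    have h2 : ‖(1 : HS →L[ℂ] HS)‖ ≤ 1 := ContinuousLinearMap.norm_id_le
    nlinarith [norm_nonneg (liftF v f)]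
  · intro X
    rw [map_sub, sub_eq_zero]
    exact liftF_comm v S hv hS f hfS X
  · intro K hK
    rw [liftF_apply]
    have : ∀ j, f (star (v j) * (K * v j)) = 0 := by
      intro j
      apply hfK
      have h1 : IsCompactOperator (K ∘ v j) := hK.comp_clm (v j)
      exact h1.clm_comp (star (v j))
    simp_rw [this]
    simp
  · intro F hF M hM hinv hinv'
    haveI := hM
    set P := M.starProjection with hP
    have hPP : P * P = P := M.isIdempotentElem_starProjection
    have hPs : IsSelfAdjoint P := isSelfAdjoint_starProjection M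
    have hPn : ‖P‖ ≤ 1 := M.starProjection_norm_le
    set T := D + I • B - F with hT
    have hc1 : P * T * P = T * P := by
      ext x : 1
      show P (T (P x)) = T (P x)
      exact Submodule.starProjection_eq_self_iff.2 (hinv _ (M.starProjection_apply_mem x))
    have hc2 : P * star T * P = star T * P := by
      ext x : 1
      show P (star T (P x)) = star T (P x)
      exact Submodule.starProjection_eq_self_iff.2 (hinv' _ (M.starProjection_apply_mem x))
    have hc3 : P * T = T * P := by
      have h1 := congrArg star hc2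
      rw [star_mul, star_mul, star_mul, star_star, hPs.star_eq, ← mul_assoc] at h1
      rw [← h1, hc1]
    set A := D + I • B with hA
    have hPA : ‖P * A - A * P‖ ≤ 1 / 1000000 := by
      have h1 : P * A - A * P = P * F - F * P := by
        have h2 : A = T + F := by rw [hT]; abel
        rw [h2, mul_add, add_mul, hc3]; abel
      rw [h1]
      calc ‖P * F - F * P‖ ≤ ‖P‖ * ‖F‖ + ‖F‖ * ‖P‖ :=
            le_trans (norm_sub_le _ _) (add_le_add (norm_mul_le _ _) (norm_mul_le _ _))
        _ ≤ 1 / 1000000 := by nlinarith [norm_nonneg P, norm_nonneg F]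
    have hPA' : ‖P * star A - star A * P‖ ≤ 1 / 1000000 := by
      have h1 : P * star A - star A * P = -star (P * A - A * P) := by
        rw [star_sub, star_mul, star_mul, hPs.star_eq]; abel
      rw [h1, norm_neg, norm_star]
      exact hPA
    have hDe : reP A = D := reP_add D B hDs hBs
    have hBe : imP A = B := imP_add D B hDs hBs
    have hPD := comm_re P A hPA hPA'
    have hPB := comm_im P A hPA hPA'
    rw [hDe] at hPD
    rw [hBe] at hPB
    obtain ⟨q, c, hqq, hqs, hqc, hqS, hq0⟩ := amp_proj v S hv hvs hS hSn P hPP hPs (le_refl _)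
      hPD hPB (by norm_num) 0
    have hqW : ∀ k, ‖q * W k - W k * q‖ ≤ 1 / 1000 := by
      intro k
      have h1 := hqS ⟨k.val, by omega⟩
      have h2 := hqS ⟨k.val + 7, by omega⟩
      rw [hSre] at h1
      rw [hSim] at h2
      refine le_trans (comm_of_re_im q (W k) h1 h2) ?_
      norm_num
    have hfd : FiniteDimensional ℂ (LinearMap.range (q : HS →ₗ[ℂ] HS)) := by
      have h1 : LinearMap.range (q : HS →ₗ[ℂ] HS) ≤ Submodule.map ((star (v 0) : HS →L[ℂ] HS) : HS →ₗ[ℂ] HS) M := by
        rintro _ ⟨x, rfl⟩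
        rw [Submodule.mem_map]
        refine ⟨P (v 0 (c x)), M.starProjection_apply_mem _, ?_⟩
        show star (v 0) (P (v 0 (c x))) = q x
        rw [hqc]
        rfl
      exact Submodule.finiteDimensional_of_le h1
    have hqz : q = 0 := by
      refine no_proj bs (fun s : Fin 6 => W ⟨s.val, by omega⟩) (W 6) hqq hqs hfd ?_ ?_ ?_ ?_ ?_ ?_
      · intro s x
        have h1 := hWb ⟨s.val, by omega⟩ x
        unfold sg7 ph7 at h1
        rw [dif_pos s.isLt, dif_pos s.isLt] at h1
        exact h1
      · intro s; exact hWi _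
      · intro s; exact hqW _
      · intro x
        have h1 := hWb 6 x
        unfold sg7 ph7 at h1
        rw [dif_neg (by decide), dif_neg (by decide), one_smul] at h1
        exact h1
      · exact hWi 6
      · exact hqW 6
    have hP0 := hq0 hqz
    rw [Submodule.eq_bot_iff]
    intro x hx
    have h1 : P x = x := Submodule.starProjection_eq_self_iff.2 hx
    rw [hP0] at h1
    exact h1.symm

end Pool.Agent.X207.FR
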