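import Pool.Agent.X83.DA.Stm

/-! Part DA_ST1 of the project DA (helper83). -/

set_option autoImplicit false

namespace Pool.Agent.X207.DAST1

open MeasureTheory Set Filter Topology RealInnerProductSpace
open Pool.Agent.X83.DA

variable {H : Type*} [NormedAddCommGroup H] [InnerProductSpace ℝ H] [CompleteSpace H]

theorem int_G {D : Submodule ℝ H} {A : D →ₗ[ℝ] H} {c γ C : ℝ} {P G : ℝ → H →L[ℝ] H} (hγ : 0 < γ)
    (hK : Fam D A c P G) (v : H)
    (h : ∀ s : ℝ, 0 ≤ s → ‖P s v‖ ≤ C * Real.exp (-(γ * s)) ∧ ‖G s v‖ ≤ C * Real.exp (-(γ * s))) :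
    ∫ s in Ioi (0 : ℝ), G s v = 0 := by
  have hGc : Continuous fun s => G s v := hK.cont v
  have hexp : IntegrableOn (fun s : ℝ => C * Real.exp (-(γ * s))) (Ioi 0) := by
    have h1 : IntegrableOn (fun s : ℝ => C * Real.exp (-γ * s)) (Ioi 0) :=
      (exp_neg_integrableOn_Ioi 0 hγ).const_mul C
    simpa only [neg_mul] using h1
  have hint : IntegrableOn (fun s => G s v) (Ioi 0) := by
    refine Integrable.mono' hexp hGc.aestronglyMeasurable.restrict ?_
    filter_upwards [ae_restrict_mem measurableSet_Ioi] with s hs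
    exact (h s (le_of_lt hs)).2
  have hlim : Tendsto (fun s => P s v) atTop (𝓝 0) := by
    have h1 : Tendsto (fun s : ℝ => C * Real.exp (-(γ * s))) atTop (𝓝 0) := by
      have h2 : Tendsto (fun s : ℝ => γ * s) atTop atTop := tendsto_id.const_mul_atTop hγ
      have h3 := (Real.tendsto_exp_neg_atTop_nhds_zero.comp h2).const_mul C
      simpa [Function.comp_def] using h3
    refine squeeze_zero_norm' ?_ h1
    filter_upwards [eventually_ge_atTop 0] with s hs
    exact (h s hs).1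
  have h2 := integral_Ioi_of_hasDerivAt_of_tendsto (a := 0) (f := fun s => P s v)
    (f' := fun s => G s v) (m := 0)
    (hK.dP v 0).continuousAt.continuousWithinAt (fun s _ => hK.dP v s) hint hlim
  rw [h2, hK.P0]
  simp

theorem cont_XX (c : ℝ) (q : ℝ → H) (hq : Continuous q) : Continuous (XX c q) := by
  unfold XX
  have h1 : Continuous fun s : ℝ => ∫ r in (0 : ℝ)..s, (r * Real.exp (c * r / 2)) • q r := by
    refine intervalIntegral.continuous_primitive (fun a b => ?_) 0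
    exact (Continuous.smul (by fun_prop) hq).intervalIntegrable a b
  exact (Continuous.smul (by fun_prop) hq).add (Continuous.smul (by fun_prop) h1)

theorem t_ST1 (H : Type*) [NormedAddCommGroup H] [InnerProductSpace ℝ H] [CompleteSpace H] :
    S_ST1 H := by
  intro hE hY hM b c1 c2 hb hc1 hc12
  obtain ⟨γ0, hγ0, hE'⟩ := hE b c1 c2 hb hc1 hc12
  obtain ⟨Ca, hCa, ha⟩ := hE' γ0 hγ0 le_rfl
  obtain ⟨Cb, hCb, hbb⟩ := hE' (γ0 / 2) (by positivity) (by linarith)
  obtain ⟨Cc, hCc, hc⟩ := hE' (γ0 / 4) (by positivity) (by linarith)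
  refine ⟨γ0 / 8, Ca + Cc * (Cb * Ca), by positivity, by positivity, ?_⟩
  intro D A hSA c h hcc hh hch P G P' G' hK hK'
  have hcI : c ∈ Icc c1 c2 := ⟨hcc, by linarith⟩
  have hchI : c + h ∈ Icc c1 c2 := ⟨by linarith, hch⟩
  have hPc : ∀ x : H, Continuous fun t => P t x := fun x =>
    continuous_iff_continuousAt.2 fun s => (hK.dP x s).continuousAt
  have hPc' : ∀ x : H, Continuous fun t => P' t x := fun x =>
    continuous_iff_continuousAt.2 fun s => (hK'.dP x s).continuousAt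
  -- the operators, on the domain
  have s1 : ∀ (v : D) (s : ℝ), 0 ≤ s → ‖P s (v : H)‖ ≤ Ca * ‖(v : H)‖ * Real.exp (-(γ0 / 2 * s)) ∧
      ‖G s (v : H)‖ ≤ Ca * ‖(v : H)‖ * Real.exp (-(γ0 / 2 * s)) := by
    intro v s hs
    have h1 := ha D A hSA c hcI (fun t => P t (v : H)) (fun t => G t (v : H))
      (fun t => P t (A v)) (fun _ => 0) 0 le_rfl (hPc (A v)) (fun s => hK.dP v s)
      (fun s => by simpa using hK.dG s v) (fun s => hK.comP s v) (fun s _ => by simp) s hs
    simp only [hK.P0, hK.G0] at h1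
    simpa using h1
  -- by density
  have s1' : ∀ (v : H) (s : ℝ), 0 ≤ s → ‖P s v‖ ≤ Ca * ‖v‖ * Real.exp (-(γ0 / 2 * s)) ∧
      ‖G s v‖ ≤ Ca * ‖v‖ * Real.exp (-(γ0 / 2 * s)) := by
    intro v s hs
    have hcl : IsClosed {v : H | ‖P s v‖ ≤ Ca * ‖v‖ * Real.exp (-(γ0 / 2 * s)) ∧
        ‖G s v‖ ≤ Ca * ‖v‖ * Real.exp (-(γ0 / 2 * s))} := by
      have k1 : Continuous fun w : H => ‖P s w‖ := (P s).continuous.norm
      have k2 : Continuous fun w : H => ‖G s w‖ := (G s).continuous.norm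
      have k3 : Continuous fun w : H => Ca * ‖w‖ * Real.exp (-(γ0 / 2 * s)) :=
        (continuous_const.mul continuous_norm).mul continuous_const
      exact (isClosed_le k1 k3).inter (isClosed_le k2 k3)
    have hsub : (D : Set H) ⊆ {v : H | ‖P s v‖ ≤ Ca * ‖v‖ * Real.exp (-(γ0 / 2 * s)) ∧
        ‖G s v‖ ≤ Ca * ‖v‖ * Real.exp (-(γ0 / 2 * s))} := fun w hw => s1 ⟨w, hw⟩ s hs
    have := hcl.closure_subset_iff.2 hsub (hSA.dense v)
    exact this
  have hexp : ∀ s : ℝ, 0 ≤ s → Real.exp (-(γ0 / 2 * s)) ≤ Real.exp (-(γ0 / 8 * s)) := by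
    intro s hs
    apply Real.exp_le_exp.2
    nlinarith
  have hmono : ∀ (v : H) (s : ℝ), 0 ≤ s → Ca * ‖v‖ * Real.exp (-(γ0 / 2 * s)) ≤
      (Ca + Cc * (Cb * Ca)) * ‖v‖ * Real.exp (-(γ0 / 8 * s)) := by
    intro v s hs
    apply mul_le_mul _ (hexp s hs) (Real.exp_pos _).le (by positivity)
    apply mul_le_mul_of_nonneg_right _ (norm_nonneg _)
    have : 0 ≤ Cc * (Cb * Ca) := by positivity
    linarith
  refine ⟨fun v s hs => ⟨(s1' v s hs).1.trans (hmono v s hs), (s1' v s hs).2.trans (hmono v s hs)⟩,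
    fun v => int_G (by positivity : 0 < γ0 / 2) hK v (s1' v), ?_⟩
  intro v s hs
  -- the derivative
  obtain ⟨hXd, hYd⟩ := hY c (fun t => P t (v : H)) (fun t => G t (v : H)) (fun t => P t (A v))
    (by simp [hK.P0]) (hPc (A v)) (fun s => hK.dP v s) (fun s => hK.dG s v)
  have hY0 : YY c (fun t => G t (v : H)) 0 = 0 := by
    unfold YY
    simp
  have hX0 : XX c (fun t => P t (v : H)) 0 = 0 := by
    unfold XX
    simp
  have hXm : ∀ s, ∃ h : XX c (fun t => P t (v : H)) s ∈ D, A ⟨_, h⟩ = XX c (fun t => P t (A v)) s :=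
    fun s => hM D A b c P G hSA hK v s
  have hCv : 0 ≤ Ca * ‖(v : H)‖ := by positivity
  have s2 : ∀ s : ℝ, 0 ≤ s → ‖YY c (fun t => G t (v : H)) s‖ ≤
      Cb * (Ca * ‖(v : H)‖) * Real.exp (-(γ0 / 4 * s)) := by
    intro s hs
    have h1 := hbb D A hSA c hcI (XX c (fun t => P t (v : H))) (YY c (fun t => G t (v : H)))
      (XX c (fun t => P t (A v))) (fun s => -G s (v : H)) (Ca * ‖(v : H)‖) hCv
      (cont_XX c _ (hPc (A v))) (fun s => hXd s)
      (fun s => by simpa [sub_eq_add_neg] using hYd s) hXm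
      (fun s hs => by rw [norm_neg]; exact (s1 v s hs).2) s hs
    rw [hX0, hY0] at h1
    have h2 := h1.2
    rw [inner_zero_right, Real.sqrt_zero, norm_zero, zero_add, zero_add] at h2
    have e : γ0 / 2 / 2 * s = γ0 / 4 * s := by ring
    rwa [e] at h2
  -- the remainder
  have h1 := hc D A hSA (c + h) hchI
    (fun s => P' s (v : H) - P s (v : H) - h • XX c (fun t => P t (v : H)) s)
    (fun s => G' s (v : H) - G s (v : H) - h • YY c (fun t => G t (v : H)) s)
    (fun s => P' s (A v) - P s (A v) - h • XX c (fun t => P t (A v)) s)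
    (fun s => -(h ^ 2 • YY c (fun t => G t (v : H)) s)) (h ^ 2 * (Cb * (Ca * ‖(v : H)‖)))
    (by positivity)
    (((hPc' (A v)).sub (hPc (A v))).sub ((cont_XX c _ (hPc (A v))).const_smul h))
    (fun s => ((hK'.dP v s).sub (hK.dP v s)).sub ((hXd s).const_smul h))
    (fun s => by
      have h2 := ((hK'.dG s v).sub (hK.dG s v)).sub ((hYd s).const_smul h)
      have e : -((c + h) • (G' s (v : H) - G s (v : H) - h • YY c (fun t => G t (v : H)) s)) -
          (P' s (A v) - P s (A v) - h • XX c (fun t => P t (A v)) s) +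
          -(h ^ 2 • YY c (fun t => G t (v : H)) s) =
          -((c + h) • G' s (v : H)) - P' s (A v) - (-(c • G s (v : H)) - P s (A v)) -
          h • (-(c • YY c (fun t => G t (v : H)) s) - XX c (fun t => P t (A v)) s - G s (v : H)) := by
        module
      rw [e]
      exact h2)
    (fun s => by
      obtain ⟨m1, e1⟩ := hK'.comP s v
      obtain ⟨m2, e2⟩ := hK.comP s v
      obtain ⟨m3, e3⟩ := hXm s
      refine ⟨D.sub_mem (D.sub_mem m1 m2) (D.smul_mem h m3), ?_⟩
      have e4 : (⟨P' s (v : H) - P s (v : H) - h • XX c (fun t => P t (v : H)) s,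
          D.sub_mem (D.sub_mem m1 m2) (D.smul_mem h m3)⟩ : D) =
          (⟨P' s (v : H), m1⟩ - ⟨P s (v : H), m2⟩) - h • ⟨XX c (fun t => P t (v : H)) s, m3⟩ := rfl
      rw [e4, map_sub, map_sub, map_smul, e1, e2, e3])
    (fun s hs => by
      rw [norm_neg, norm_smul, Real.norm_of_nonneg (by positivity : (0 : ℝ) ≤ h ^ 2)]
      have h3 := mul_le_mul_of_nonneg_left (s2 s hs) (by positivity : (0 : ℝ) ≤ h ^ 2)
      calc h ^ 2 * ‖YY c (fun t => G t (v : H)) s‖ ≤
          h ^ 2 * (Cb * (Ca * ‖(v : H)‖) * Real.exp (-(γ0 / 4 * s))) := h3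
        _ = h ^ 2 * (Cb * (Ca * ‖(v : H)‖)) * Real.exp (-(γ0 / 4 * s)) := by ring) s hs
  have h2 := h1.2
  have hZ0 : P' 0 (v : H) - P 0 (v : H) - h • XX c (fun t => P t (v : H)) 0 = 0 := by
    rw [hX0, hK'.P0, hK.P0]; simp
  have hR0 : G' 0 (v : H) - G 0 (v : H) - h • YY c (fun t => G t (v : H)) 0 = 0 := by
    rw [hY0, hK'.G0, hK.G0]; simp
  simp only [hZ0, hR0] at h2
  rw [inner_zero_right, Real.sqrt_zero, norm_zero, zero_add, zero_add] at h2
  have e : γ0 / 4 / 2 * s = γ0 / 8 * s := by ring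
  rw [e] at h2
  refine h2.trans ?_
  apply mul_le_mul_of_nonneg_right _ (Real.exp_pos _).le
  have h5 : 0 ≤ Ca * ‖(v : H)‖ * h ^ 2 := by positivity
  nlinarith

end Pool.Agent.X207.DAST1
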