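import Pool.Agent.X207.EquiNorm

/-!
Equilateral sets for the quartic norm: the double limit argument.
-/

open Filter Topology Set
open scoped RealInnerProductSpace

namespace Pool.Agent.X207.Equi

noncomputable section

variable {H : Type*} [NormedAddCommGroup H] [InnerProductSpace ℝ H]
variable {P : ℕ → H →L[ℝ] H}

/-- The Lorentz-type form. -/
def F (s : ℝ) (a : ℕ → ℝ) : ℝ := s ^ 2 - 1 / 8 * ∑' n, w n * a n ^ 2

lemma Q_eq_F (y : H) : Q P y = F (‖y‖ ^ 2) (fun n => ‖P n y‖ ^ 2) := by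
  unfold Q F
  congr 1
  · ring
  · congr 2
    ext n
    ring

lemma summable_sq {a : ℕ → ℝ} {R : ℝ} (h : ∀ n, |a n| ≤ R) : Summable fun n => w n * a n ^ 2 := by
  apply summable_w_mul (R := R ^ 2)
  intro n
  rw [abs_of_nonneg (sq_nonneg _), ← sq_abs]
  exact pow_le_pow_left₀ (abs_nonneg _) (h n) 2

lemma summable_mul {a b : ℕ → ℝ} {R S : ℝ} (h : ∀ n, |a n| ≤ R) (h' : ∀ n, |b n| ≤ S) :
    Summable fun n => w n * (a n * b n) := by
  apply summable_w_mul (R := R * S)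
  intro n
  rw [abs_mul]
  exact mul_le_mul (h n) (h' n) (abs_nonneg _) ((abs_nonneg _).trans (h n))

lemma tendsto_F {ι : Type*} {l : Filter ι} {s : ι → ℝ} {a : ι → ℕ → ℝ} {s₀ : ℝ} {a₀ : ℕ → ℝ}
    {R : ℝ} (hs : Tendsto s l (𝓝 s₀)) (ha : ∀ n, Tendsto (fun i => a i n) l (𝓝 (a₀ n)))
    (hR : ∀ i n, |a i n| ≤ R) : Tendsto (fun i => F (s i) (a i)) l (𝓝 (F s₀ a₀)) := by
  unfold F
  refine (hs.pow 2).sub (Tendsto.const_mul _ ?_)
  refine tendsto_tsum_of_dominated_convergence (bound := fun n => w n * R ^ 2)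
    (summable_w.mul_right _) ?_ ?_
  · intro n
    exact ((ha n).pow 2).const_mul _
  · refine Eventually.of_forall fun i n => ?_
    rw [Real.norm_eq_abs, abs_mul, abs_of_nonneg (w_nonneg n), abs_of_nonneg (sq_nonneg _),
      ← sq_abs]
    exact mul_le_mul_of_nonneg_left (pow_le_pow_left₀ (abs_nonneg _) (hR i n) 2) (w_nonneg n)

/-- Bounded functions have limits along ultrafilters. -/
lemma exists_lim {ι : Type*} (U : Ultrafilter ι) {g : ι → ℝ} {R : ℝ} (h : ∀ i, g i ∈ Icc 0 R) :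
    ∃ a ∈ Icc 0 R, Tendsto g U (𝓝 a) := by
  have hm : Icc 0 R ∈ U.map g := by
    rw [Ultrafilter.mem_map]
    exact Filter.univ_mem' h
  obtain ⟨a, ha, hle⟩ := (isCompact_Icc (a := (0:ℝ)) (b := R)).ultrafilter_le_nhds' (U.map g) hm
  exact ⟨a, ha, hle⟩

/-- Bounded families have weak limits along ultrafilters. -/
lemma exists_weak_lim [CompleteSpace H] {ι : Type*} (U : Ultrafilter ι) {f : ι → H} {R : ℝ}
    (h : ∀ i, ‖f i‖ ≤ R) : ∃ z : H, ∀ x, Tendsto (fun i => ⟪f i, x⟫) U (𝓝 ⟪z, x⟫) := by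
  let g : ι → WeakDual ℝ H := fun i => StrongDual.toWeakDual (InnerProductSpace.toDual ℝ H (f i))
  have hm : WeakDual.toStrongDual ⁻¹' Metric.closedBall (0 : StrongDual ℝ H) R ∈ U.map g := by
    rw [Ultrafilter.mem_map]
    refine Filter.univ_mem' fun i => ?_
    simp only [mem_preimage, Metric.mem_closedBall, dist_zero_right]
    change ‖InnerProductSpace.toDual ℝ H (f i)‖ ≤ R
    rw [LinearIsometryEquiv.norm_map]
    exact h i
  obtain ⟨φ, -, hφ⟩ := (WeakDual.isCompact_closedBall (0 : StrongDual ℝ H) R).ultrafilter_le_nhds'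
    (U.map g) hm
  refine ⟨(InnerProductSpace.toDual ℝ H).symm (WeakDual.toStrongDual φ), fun x => ?_⟩
  have h1 : Tendsto g U (𝓝 φ) := hφ
  have h2 : Continuous fun ψ : WeakDual ℝ H => ψ x := WeakDual.eval_continuous x
  have h3 := (h2.tendsto φ).comp h1
  rw [InnerProductSpace.toDual_symm_apply]
  exact h3

/-- Convergence of the squared norms of translates. -/
lemma tendsto_translate [CompleteSpace H] {ι : Type*} {l : Filter ι} {f : ι → H} {z : H}
    (hz : ∀ x, Tendsto (fun i => ⟪f i, x⟫) l (𝓝 ⟪z, x⟫)) (T : H →L[ℝ] H) {α : ℝ}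
    (hα : Tendsto (fun i => ‖T (f i - z)‖ ^ 2) l (𝓝 α)) (x : H) :
    Tendsto (fun i => ‖T (f i - x)‖ ^ 2) l (𝓝 (α + ‖T (z - x)‖ ^ 2)) := by
  have e : ∀ i, ‖T (f i - x)‖ ^ 2 = ‖T (f i - z)‖ ^ 2 +
      2 * (⟪f i, T.adjoint (T (z - x))⟫ - ⟪z, T.adjoint (T (z - x))⟫) + ‖T (z - x)‖ ^ 2 := by
    intro i
    have h1 : f i - x = (f i - z) + (z - x) := by abel
    rw [h1, map_add, @norm_add_sq_real, ← inner_sub_left, ContinuousLinearMap.adjoint_inner_right]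
  simp_rw [e]
  have h2 := ((hz (T.adjoint (T (z - x)))).sub_const ⟪z, T.adjoint (T (z - x))⟫).const_mul 2
  rw [sub_self, mul_zero] at h2
  simpa using (hα.add h2).add_const (‖T (z - x)‖ ^ 2)

/-- All the data of a limit along a filter. -/
structure Lim {ι : Type*} (P : ℕ → H →L[ℝ] H) (f : ι → H) (l : Filter ι) (z : H) (s : ℝ)
    (a : ℕ → ℝ) : Prop where
  weak : ∀ x, Tendsto (fun i => ⟪f i, x⟫) l (𝓝 ⟪z, x⟫)
  ts : Tendsto (fun i => ‖f i - z‖ ^ 2) l (𝓝 s)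
  ta : ∀ n, Tendsto (fun i => ‖P n (f i - z)‖ ^ 2) l (𝓝 (a n))
  a0 : ∀ n, 0 ≤ a n
  as : ∀ n, a n ≤ s

lemma exists_Lim [CompleteSpace H] (hP : ∀ n x, ‖P n x‖ ≤ ‖x‖) {ι : Type*} (U : Ultrafilter ι)
    {f : ι → H} {R : ℝ} (h : ∀ i, ‖f i‖ ≤ R) : ∃ z s a, Lim P f U z s a := by
  obtain ⟨z, hz⟩ := exists_weak_lim U h
  have hb : ∀ i, ‖f i - z‖ ≤ R + ‖z‖ := fun i => (norm_sub_le _ _).trans (by linarith [h i])
  have hb2 : ∀ i, ‖f i - z‖ ^ 2 ∈ Icc 0 ((R + ‖z‖) ^ 2) := fun i =>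
    ⟨by positivity, pow_le_pow_left₀ (norm_nonneg _) (hb i) 2⟩
  have hb3 : ∀ n i, ‖P n (f i - z)‖ ^ 2 ∈ Icc 0 ((R + ‖z‖) ^ 2) := fun n i =>
    ⟨by positivity, pow_le_pow_left₀ (norm_nonneg _) ((hP n _).trans (hb i)) 2⟩
  obtain ⟨s, hs, hs'⟩ := exists_lim U hb2
  choose a ha ha' using fun n => exists_lim U (hb3 n)
  refine ⟨z, s, a, ⟨hz, hs', ha', fun n => (ha n).1, fun n => ?_⟩⟩
  exact le_of_tendsto_of_tendsto' (ha' n) hs'
    fun i => pow_le_pow_left₀ (norm_nonneg _) (hP n _) 2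

lemma Lim.tendsto_Q [CompleteSpace H] (hP : ∀ n x, ‖P n x‖ ≤ ‖x‖) {ι : Type*} {l : Filter ι}
    {f : ι → H} {z : H} {s : ℝ} {a : ℕ → ℝ} (L : Lim P f l z s a) {R : ℝ} (h : ∀ i, ‖f i‖ ≤ R)
    (x : H) : Tendsto (fun i => Q P (f i - x)) l
      (𝓝 (F (s + ‖z - x‖ ^ 2) (fun n => a n + ‖P n (z - x)‖ ^ 2))) := by
  simp_rw [Q_eq_F]
  refine tendsto_F (R := (R + ‖x‖) ^ 2) ?_ ?_ ?_
  · exact tendsto_translate L.weak (ContinuousLinearMap.id ℝ H) L.ts x
  · intro n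
    exact tendsto_translate L.weak (P n) (L.ta n) x
  · intro i n
    rw [abs_of_nonneg (by positivity)]
    exact pow_le_pow_left₀ (norm_nonneg _)
      ((hP n _).trans ((norm_sub_le _ _).trans (by linarith [h i]))) 2

/-- The double limit. -/
lemma double_limit [CompleteSpace H] (hP : ∀ n x, ‖P n x‖ ≤ ‖x‖) {ι : Type*}
    {f : ι → H} {R : ℝ} (h : ∀ i, ‖f i‖ ≤ R) {c : ℝ}
    (hf : ∀ i j, i ≠ j → Q P (f i - f j) = c) {l l' : Filter ι} [NeBot l] [NeBot l']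
    (hl : l ≤ cofinite)
    {z z' : H} {s s' : ℝ} {a a' : ℕ → ℝ} (L : Lim P f l z s a) (L' : Lim P f l' z' s' a') :
    F (s + (s' + ‖z' - z‖ ^ 2)) (fun n => a n + (a' n + ‖P n (z' - z)‖ ^ 2)) = c := by
  have h1 : ∀ j, F (s + ‖z - f j‖ ^ 2) (fun n => a n + ‖P n (z - f j)‖ ^ 2) = c := by
    intro j
    have h2 := L.tendsto_Q hP h (f j)
    have h3 : ∀ᶠ i in l, Q P (f i - f j) = c := by
      have : ∀ᶠ i in cofinite, i ≠ j := by
        rw [eventually_cofinite]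
        simp
      filter_upwards [hl this] with i hi using hf i j hi
    exact tendsto_nhds_unique (h2.congr' h3) tendsto_const_nhds |>.symm ▸ rfl
  have h4 : Tendsto (fun j => F (s + ‖z - f j‖ ^ 2) (fun n => a n + ‖P n (z - f j)‖ ^ 2)) l'
      (𝓝 (F (s + (s' + ‖z' - z‖ ^ 2)) (fun n => a n + (a' n + ‖P n (z' - z)‖ ^ 2)))) := by
    refine tendsto_F (R := s + (‖z‖ + R) ^ 2) ?_ ?_ ?_
    · refine Tendsto.const_add _ ?_
      simp_rw [norm_sub_rev z]
      exact tendsto_translate L'.weak (ContinuousLinearMap.id ℝ H) L'.ts z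
    · intro n
      refine Tendsto.const_add _ ?_
      have : ∀ j, ‖P n (z - f j)‖ = ‖P n (f j - z)‖ := by
        intro j
        rw [← neg_sub, map_neg, norm_neg]
      simp_rw [this]
      exact tendsto_translate L'.weak (P n) (L'.ta n) z
    · intro i n
      rw [abs_of_nonneg (add_nonneg (L.a0 n) (by positivity))]
      refine add_le_add (L.as n) ?_
      exact pow_le_pow_left₀ (norm_nonneg _)
        ((hP n _).trans ((norm_sub_le _ _).trans (by linarith [h i]))) 2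
  have h5 := h4.congr' (Eventually.of_forall h1)
  exact (tendsto_nhds_unique h5 tendsto_const_nhds)

end

end Pool.Agent.X207.Equi
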