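import Mathlib

/-!
A renorming of a real Hilbert space by the fourth root of
`‖x‖ ^ 4 - (1/8) * ∑ₙ 2^{-n-1} ‖Pₙ x‖ ^ 4`, where the `Pₙ` are linear contractions.
-/

open Filter Topology Set
open scoped RealInnerProductSpace

namespace Pool.Agent.X207.Equi

noncomputable section

/-- The weights `2^{-n-1}`. -/
def w (n : ℕ) : ℝ := 1 / 2 / 2 ^ n

lemma w_nonneg (n : ℕ) : 0 ≤ w n := by unfold w; positivity

lemma w_pos (n : ℕ) : 0 < w n := by unfold w; positivity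

lemma hasSum_w : HasSum w 1 := hasSum_geometric_two' 1

lemma summable_w : Summable w := hasSum_w.summable

lemma tsum_w : ∑' n, w n = 1 := hasSum_w.tsum_eq

lemma summable_w_mul {a : ℕ → ℝ} {R : ℝ} (h : ∀ n, |a n| ≤ R) : Summable fun n => w n * a n := by
  refine Summable.of_norm_bounded (g := fun n => w n * R) (summable_w.mul_right R) ?_
  intro n
  rw [Real.norm_eq_abs, abs_mul, abs_of_nonneg (w_nonneg n)]
  exact mul_le_mul_of_nonneg_left (h n) (w_nonneg n)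

lemma tsum_w_le {a : ℕ → ℝ} {R : ℝ} (h : ∀ n, |a n| ≤ R) : ∑' n, w n * a n ≤ R := by
  calc ∑' n, w n * a n ≤ ∑' n, w n * R := by
        refine (summable_w_mul h).tsum_le_tsum ?_ (summable_w.mul_right R)
        intro n
        exact mul_le_mul_of_nonneg_left ((le_abs_self _).trans (h n)) (w_nonneg n)
    _ = R := by rw [tsum_mul_right, tsum_w, one_mul]

/-- The scalar inequality behind the convexity of the quartic form. -/
lemma key {l m a c d a' c' d' : ℝ} (hl : 0 ≤ l) (hm : 0 ≤ m) (hlm : l + m = 1)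
    (ha' : 0 ≤ a') (hc' : 0 ≤ c') (hd' : 0 ≤ d') (ha : a' ≤ a) (hc : c' ≤ c) (hd : d' ≤ d)
    (hz : 0 ≤ l * a + m * c - l * m * d)
    (hac : (a' - c') ^ 2 ≤ 2 * d * (a + c)) :
    l * a' ^ 2 + m * c' ^ 2 - (l * a' + m * c' - l * m * d') ^ 2 ≤
      8 * (l * a ^ 2 + m * c ^ 2 - (l * a + m * c - l * m * d) ^ 2) := by
  have hm' : m = 1 - l := by linarith
  have e1 : l * a' ^ 2 + m * c' ^ 2 - (l * a' + m * c' - l * m * d') ^ 2 =
      l * m * ((a' - c') ^ 2 + d' * (2 * (l * a' + m * c') - l * m * d')) := by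
    subst hm'; ring
  have e2 : l * a ^ 2 + m * c ^ 2 - (l * a + m * c - l * m * d) ^ 2 =
      l * m * ((a - c) ^ 2 + d * (2 * (l * a + m * c) - l * m * d)) := by
    subst hm'; ring
  have hlm0 : 0 ≤ l * m := mul_nonneg hl hm
  have hd0 : 0 ≤ d := hd'.trans hd
  have ha0 : 0 ≤ a := ha'.trans ha
  have hc0 : 0 ≤ c := hc'.trans hc
  set M := l * a + m * c with hM
  have hM0 : 0 ≤ M := by positivity
  have hM1 : l * a' + m * c' ≤ M := by
    have := mul_le_mul_of_nonneg_left ha hl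
    have := mul_le_mul_of_nonneg_left hc hm
    rw [hM]; linarith
  have hmin : min a c ≤ M := by
    have h1 := mul_le_mul_of_nonneg_left (min_le_left a c) hl
    have h2 := mul_le_mul_of_nonneg_left (min_le_right a c) hm
    have h3 : l * min a c + m * min a c = min a c := by rw [← add_mul, hlm, one_mul]
    rw [hM]; linarith
  have h6 : (a' - c') ^ 2 ≤ 6 * (d * M + (a - c) ^ 2) := by
    rcases le_total a c with hle | hle
    · rw [min_eq_left hle] at hmin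
      rcases le_total (c - a) a with h | h
      · have : 2 * d * (a + c) ≤ 6 * (d * M) := by nlinarith
        nlinarith [sq_nonneg (a - c)]
      · have h1 : |a' - c'| ≤ 2 * (c - a) := by
          rw [abs_le]; constructor <;> linarith
        have h2 : (a' - c') ^ 2 ≤ (2 * (c - a)) ^ 2 := by
          rw [← sq_abs]
          exact pow_le_pow_left₀ (abs_nonneg _) h1 2
        nlinarith [sq_nonneg (a - c), mul_nonneg hd0 hM0]
    · rw [min_eq_right hle] at hmin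
      rcases le_total (a - c) c with h | h
      · have : 2 * d * (a + c) ≤ 6 * (d * M) := by nlinarith
        nlinarith [sq_nonneg (a - c)]
      · have h1 : |a' - c'| ≤ 2 * (a - c) := by
          rw [abs_le]; constructor <;> linarith
        have h2 : (a' - c') ^ 2 ≤ (2 * (a - c)) ^ 2 := by
          rw [← sq_abs]
          exact pow_le_pow_left₀ (abs_nonneg _) h1 2
        nlinarith [sq_nonneg (a - c), mul_nonneg hd0 hM0]
  have hA : (a' - c') ^ 2 + d' * (2 * (l * a' + m * c') - l * m * d') ≤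
      6 * (d * M + (a - c) ^ 2) + 2 * (d * M) := by
    have h1 : d' * (2 * (l * a' + m * c') - l * m * d') ≤ d' * (2 * M) := by
      apply mul_le_mul_of_nonneg_left _ hd'
      have h0 : 0 ≤ l * m * d' := mul_nonneg hlm0 hd'
      linarith
    have h2 : d' * (2 * M) ≤ d * (2 * M) := mul_le_mul_of_nonneg_right hd (by positivity)
    linarith
  have hB : (a - c) ^ 2 + d * M ≤ (a - c) ^ 2 + d * (2 * M - l * m * d) := by
    have : d * M ≤ d * (2 * M - l * m * d) := by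
      apply mul_le_mul_of_nonneg_left _ hd0
      linarith
    linarith
  clear_value M
  rw [e1, e2]
  calc l * m * ((a' - c') ^ 2 + d' * (2 * (l * a' + m * c') - l * m * d'))
      ≤ l * m * (8 * ((a - c) ^ 2 + d * (2 * M - l * m * d))) := by
        apply mul_le_mul_of_nonneg_left _ hlm0
        have h7 : 0 ≤ (a - c) ^ 2 := sq_nonneg _
        linarith
    _ = 8 * (l * m * ((a - c) ^ 2 + d * (2 * M - l * m * d))) := by ring

variable {H : Type*} [NormedAddCommGroup H] [InnerProductSpace ℝ H]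

/-- The quartic form. -/
def Q (P : ℕ → H →L[ℝ] H) (x : H) : ℝ := ‖x‖ ^ 4 - 1 / 8 * ∑' n, w n * ‖P n x‖ ^ 4

variable {P : ℕ → H →L[ℝ] H}

lemma pow4_le (hP : ∀ n x, ‖P n x‖ ≤ ‖x‖) (x : H) (n : ℕ) : |‖P n x‖ ^ 4| ≤ ‖x‖ ^ 4 := by
  rw [abs_of_nonneg (by positivity)]
  exact pow_le_pow_left₀ (norm_nonneg _) (hP n x) 4

lemma Q_le (x : H) : Q P x ≤ ‖x‖ ^ 4 := by
  have : 0 ≤ ∑' n, w n * ‖P n x‖ ^ 4 := tsum_nonneg fun n => mul_nonneg (w_nonneg n) (by positivity)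
  unfold Q; linarith

lemma le_Q (hP : ∀ n x, ‖P n x‖ ≤ ‖x‖) (x : H) : 7 / 8 * ‖x‖ ^ 4 ≤ Q P x := by
  have := tsum_w_le (pow4_le hP x)
  unfold Q; linarith

lemma Q_nonneg (hP : ∀ n x, ‖P n x‖ ≤ ‖x‖) (x : H) : 0 ≤ Q P x :=
  le_trans (by positivity) (le_Q hP x)

lemma Q_smul (c : ℝ) (x : H) : Q P (c • x) = |c| ^ 4 * Q P x := by
  unfold Q
  have : ∀ n, w n * ‖P n (c • x)‖ ^ 4 = |c| ^ 4 * (w n * ‖P n x‖ ^ 4) := by
    intro n
    rw [map_smul, norm_smul, Real.norm_eq_abs]; ring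
  simp_rw [this]
  rw [tsum_mul_left, norm_smul, Real.norm_eq_abs]
  ring

lemma quad_identity (T : H →L[ℝ] H) {l m : ℝ} (hlm : l + m = 1) (x y : H) :
    ‖T (l • x + m • y)‖ ^ 2 = l * ‖T x‖ ^ 2 + m * ‖T y‖ ^ 2 - l * m * ‖T (x - y)‖ ^ 2 := by
  have hm' : m = 1 - l := by linarith
  rw [map_add, map_smul, map_smul, map_sub, @norm_add_sq_real, @norm_sub_sq_real,
    norm_smul, norm_smul, inner_smul_left, inner_smul_right]
  simp only [Real.norm_eq_abs, mul_pow, sq_abs, conj_trivial]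
  subst hm'; ring

lemma diff_sq_le (T : H →L[ℝ] H) (hT : ∀ x, ‖T x‖ ≤ ‖x‖) (x y : H) :
    (‖T x‖ ^ 2 - ‖T y‖ ^ 2) ^ 2 ≤ 2 * ‖x - y‖ ^ 2 * (‖x‖ ^ 2 + ‖y‖ ^ 2) := by
  have h1 : ‖T x‖ ^ 2 - ‖T y‖ ^ 2 = ⟪T (x - y), T (x + y)⟫ := by
    rw [map_sub, map_add, inner_sub_left, inner_add_right, inner_add_right,
      real_inner_self_eq_norm_sq, real_inner_self_eq_norm_sq, real_inner_comm (T x) (T y)]
    ring
  have h2 : |⟪T (x - y), T (x + y)⟫| ≤ ‖x - y‖ * ‖x + y‖ :=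
    (abs_real_inner_le_norm _ _).trans
      (mul_le_mul (hT _) (hT _) (norm_nonneg _) (norm_nonneg _))
  have h3 : (⟪T (x - y), T (x + y)⟫) ^ 2 ≤ (‖x - y‖ * ‖x + y‖) ^ 2 := by
    rw [← sq_abs]
    exact pow_le_pow_left₀ (abs_nonneg _) h2 2
  have h4 : ‖x + y‖ ^ 2 ≤ 2 * (‖x‖ ^ 2 + ‖y‖ ^ 2) := by
    have := parallelogram_law_with_norm ℝ x y
    nlinarith [sq_nonneg ‖x - y‖]
  rw [h1]
  calc (⟪T (x - y), T (x + y)⟫) ^ 2 ≤ ‖x - y‖ ^ 2 * ‖x + y‖ ^ 2 := by rw [← mul_pow]; exact h3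
    _ ≤ ‖x - y‖ ^ 2 * (2 * (‖x‖ ^ 2 + ‖y‖ ^ 2)) := mul_le_mul_of_nonneg_left h4 (by positivity)
    _ = _ := by ring

lemma Q_convex (hP : ∀ n x, ‖P n x‖ ≤ ‖x‖) {l m : ℝ} (hl : 0 ≤ l) (hm : 0 ≤ m) (hlm : l + m = 1)
    (x y : H) : Q P (l • x + m • y) ≤ l * Q P x + m * Q P y := by
  set z := l • x + m • y with hz
  set S0 := l * (‖x‖ ^ 2) ^ 2 + m * (‖y‖ ^ 2) ^ 2 - (‖z‖ ^ 2) ^ 2 with hS0
  have hid : ‖z‖ ^ 2 = l * ‖x‖ ^ 2 + m * ‖y‖ ^ 2 - l * m * ‖x - y‖ ^ 2 := by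
    simpa using quad_identity (ContinuousLinearMap.id ℝ H) hlm x y
  have hk : ∀ n, l * ‖P n x‖ ^ 4 + m * ‖P n y‖ ^ 4 - ‖P n z‖ ^ 4 ≤ 8 * S0 := by
    intro n
    have h := key (l := l) (m := m) (a := ‖x‖ ^ 2) (c := ‖y‖ ^ 2) (d := ‖x - y‖ ^ 2)
      (a' := ‖P n x‖ ^ 2) (c' := ‖P n y‖ ^ 2) (d' := ‖P n (x - y)‖ ^ 2) hl hm hlm
      (by positivity) (by positivity) (by positivity)
      (pow_le_pow_left₀ (norm_nonneg _) (hP n x) 2)
      (pow_le_pow_left₀ (norm_nonneg _) (hP n y) 2)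
      (pow_le_pow_left₀ (norm_nonneg _) (hP n (x - y)) 2)
      (by rw [← hid]; positivity) (diff_sq_le (P n) (hP n) x y)
    rw [← quad_identity (P n) hlm x y, ← hid] at h
    rw [hS0]
    calc l * ‖P n x‖ ^ 4 + m * ‖P n y‖ ^ 4 - ‖P n z‖ ^ 4
        = l * (‖P n x‖ ^ 2) ^ 2 + m * (‖P n y‖ ^ 2) ^ 2 - (‖P n z‖ ^ 2) ^ 2 := by ring
      _ ≤ _ := h
  have sx := summable_w_mul (pow4_le hP x)
  have sy := summable_w_mul (pow4_le hP y)
  have sz := summable_w_mul (pow4_le hP z)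
  have hsum : l * ∑' n, w n * ‖P n x‖ ^ 4 + m * ∑' n, w n * ‖P n y‖ ^ 4
      - ∑' n, w n * ‖P n z‖ ^ 4 ≤ 8 * S0 := by
    have e : l * ∑' n, w n * ‖P n x‖ ^ 4 + m * ∑' n, w n * ‖P n y‖ ^ 4
      - ∑' n, w n * ‖P n z‖ ^ 4 =
      ∑' n, w n * (l * ‖P n x‖ ^ 4 + m * ‖P n y‖ ^ 4 - ‖P n z‖ ^ 4) := by
      rw [← tsum_mul_left, ← tsum_mul_left, ← (sx.mul_left l).tsum_add (sy.mul_left m),
        ← ((sx.mul_left l).add (sy.mul_left m)).tsum_sub sz]
      congr 1; ext n; ring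
    rw [e]
    have hs : Summable fun n => w n * (l * ‖P n x‖ ^ 4 + m * ‖P n y‖ ^ 4 - ‖P n z‖ ^ 4) := by
      have := ((sx.mul_left l).add (sy.mul_left m)).sub sz
      refine this.congr ?_
      intro n; ring
    calc ∑' n, w n * (l * ‖P n x‖ ^ 4 + m * ‖P n y‖ ^ 4 - ‖P n z‖ ^ 4)
        ≤ ∑' n, w n * (8 * S0) :=
          hs.tsum_le_tsum (fun n => mul_le_mul_of_nonneg_left (hk n) (w_nonneg n))
            (summable_w.mul_right _)
      _ = 8 * S0 := by rw [tsum_mul_right, tsum_w, one_mul]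
  unfold Q
  have : S0 = l * ‖x‖ ^ 4 + m * ‖y‖ ^ 4 - ‖z‖ ^ 4 := by rw [hS0]; ring
  nlinarith

/-- The new norm. -/
def N (P : ℕ → H →L[ℝ] H) (x : H) : ℝ := √(√(Q P x))

lemma N_nonneg (x : H) : 0 ≤ N P x := Real.sqrt_nonneg _

lemma N_pow (hP : ∀ n x, ‖P n x‖ ≤ ‖x‖) (x : H) : N P x ^ 4 = Q P x := by
  unfold N
  have : (√(√(Q P x))) ^ 4 = ((√(√(Q P x))) ^ 2) ^ 2 := by ring
  rw [this, Real.sq_sqrt (Real.sqrt_nonneg _), Real.sq_sqrt (Q_nonneg hP x)]

lemma N_smul (hP : ∀ n x, ‖P n x‖ ≤ ‖x‖) (c : ℝ) (x : H) : N P (c • x) = |c| * N P x := by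
  have h : N P (c • x) ^ 4 = (|c| * N P x) ^ 4 := by
    rw [N_pow hP, mul_pow, N_pow hP, Q_smul]
  exact (pow_left_inj₀ (N_nonneg _) (mul_nonneg (abs_nonneg _) (N_nonneg _)) (by norm_num)).1 h

lemma N_le (hP : ∀ n x, ‖P n x‖ ≤ ‖x‖) (x : H) : N P x ≤ ‖x‖ := by
  have h : N P x ^ 4 ≤ ‖x‖ ^ 4 := by rw [N_pow hP]; exact Q_le x
  exact le_of_pow_le_pow_left₀ (by norm_num) (norm_nonneg _) h

lemma le_N (hP : ∀ n x, ‖P n x‖ ≤ ‖x‖) (x : H) : 1 / 2 * ‖x‖ ≤ N P x := by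
  have h : (1 / 2 * ‖x‖) ^ 4 ≤ N P x ^ 4 := by
    rw [N_pow hP]
    refine le_trans ?_ (le_Q hP x)
    have : 0 ≤ ‖x‖ ^ 4 := by positivity
    nlinarith
  exact le_of_pow_le_pow_left₀ (by norm_num) (N_nonneg _) h

lemma N_add_le (hP : ∀ n x, ‖P n x‖ ≤ ‖x‖) (x y : H) : N P (x + y) ≤ N P x + N P y := by
  have ha := N_nonneg (P := P) x
  have hb := N_nonneg (P := P) y
  rcases ha.eq_or_lt with ha0 | ha0
  · have : x = 0 := by
      have := le_N hP x
      rw [← ha0] at this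
      have h0 : ‖x‖ ≤ 0 := by linarith
      simpa using h0
    subst this
    simp [← ha0]
  rcases hb.eq_or_lt with hb0 | hb0
  · have : y = 0 := by
      have := le_N hP y
      rw [← hb0] at this
      have h0 : ‖y‖ ≤ 0 := by linarith
      simpa using h0
    subst this
    simp [← hb0]
  set a := N P x with hA
  set b := N P y with hB
  have hab : 0 < a + b := by positivity
  have hx1 : Q P ((1 / a) • x) = 1 := by
    rw [← N_pow hP, N_smul hP, ← hA, abs_of_pos (by positivity)]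
    field_simp
  have hy1 : Q P ((1 / b) • y) = 1 := by
    rw [← N_pow hP, N_smul hP, ← hB, abs_of_pos (by positivity)]
    field_simp
  have hc := Q_convex hP (l := a / (a + b)) (m := b / (a + b)) (by positivity) (by positivity)
    (by field_simp) ((1 / a) • x) ((1 / b) • y)
  rw [hx1, hy1] at hc
  have e : (a / (a + b)) • (1 / a) • x + (b / (a + b)) • (1 / b) • y = (1 / (a + b)) • (x + y) := by
    rw [smul_smul, smul_smul, smul_add]
    congr 2 <;> field_simp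
  rw [e, ← N_pow hP, N_smul hP, abs_of_pos (by positivity)] at hc
  have h1 : a / (a + b) * 1 + b / (a + b) * 1 = 1 := by field_simp
  rw [h1] at hc
  have h2 : 1 / (a + b) * N P (x + y) ≤ 1 := by
    have : (1 / (a + b) * N P (x + y)) ^ 4 ≤ 1 ^ 4 := by simpa using hc
    exact le_of_pow_le_pow_left₀ (by norm_num) (by norm_num) this
  rw [one_div, inv_mul_le_iff₀ hab] at h2
  linarith

end

end Pool.Agent.X207.Equi
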