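import Pool.Agent.X207.EquiLimit

/-!
Equilateral sets for the quartic norm: conclusion.
-/

open Filter Topology Set
open scoped RealInnerProductSpace

namespace Pool.Agent.X207.Equi

noncomputable section

variable {H : Type*} [NormedAddCommGroup H] [InnerProductSpace ℝ H]
variable {P : ℕ → H →L[ℝ] H}

lemma F_algebra {s s' D₀ c : ℝ} {a a' D : ℕ → ℝ} (ha0 : ∀ n, 0 ≤ a n) (has : ∀ n, a n ≤ s)
    (ha0' : ∀ n, 0 ≤ a' n) (has' : ∀ n, a' n ≤ s') (hD0 : ∀ n, 0 ≤ D n) (hDs : ∀ n, D n ≤ D₀)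
    (hc : 0 < c) (h1 : F (s + s) (fun n => a n + a n) = c)
    (h2 : F (s' + s') (fun n => a' n + a' n) = c)
    (h3 : F (s + (s' + D₀)) (fun n => a n + (a' n + D n)) = c) :
    s = s' ∧ (∀ n, a n = a' n) ∧ D₀ = 0 := by
  have hs0 : 0 ≤ s := (ha0 0).trans (has 0)
  have hs0' : 0 ≤ s' := (ha0' 0).trans (has' 0)
  have hD00 : 0 ≤ D₀ := (hD0 0).trans (hDs 0)
  have bA : ∀ n, |a n| ≤ s := fun n => by rw [abs_of_nonneg (ha0 n)]; exact has n
  have bA' : ∀ n, |a' n| ≤ s' := fun n => by rw [abs_of_nonneg (ha0' n)]; exact has' n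
  have bD : ∀ n, |D n| ≤ D₀ := fun n => by rw [abs_of_nonneg (hD0 n)]; exact hDs n
  obtain ⟨A, hA⟩ := summable_sq bA
  obtain ⟨A', hA'⟩ := summable_sq bA'
  obtain ⟨E, hE⟩ := summable_sq bD
  obtain ⟨C, hC⟩ := summable_mul bA bA'
  obtain ⟨G, hG⟩ := summable_mul bA bD
  obtain ⟨G', hG'⟩ := summable_mul bA' bD
  have e1 : ∑' n, w n * (a n + a n) ^ 2 = 4 * A := by
    refine HasSum.tsum_eq ((hA.mul_left 4).congr_fun ?_)
    intro n; ring
  have e2 : ∑' n, w n * (a' n + a' n) ^ 2 = 4 * A' := by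
    refine HasSum.tsum_eq ((hA'.mul_left 4).congr_fun ?_)
    intro n; ring
  have e3 : ∑' n, w n * (a n + (a' n + D n)) ^ 2 = A + A' + E + 2 * C + 2 * G + 2 * G' := by
    refine HasSum.tsum_eq ((((((hA.add hA').add hE).add (hC.mul_left 2)).add
      (hG.mul_left 2)).add (hG'.mul_left 2)).congr_fun ?_)
    intro n; ring
  have hM : HasSum (fun n => w n * (a n - a' n) ^ 2) (A + A' - 2 * C) := by
    refine ((hA.add hA').sub (hC.mul_left 2)).congr_fun ?_
    intro n; ring
  have hS : A + A' + 2 * C ≤ (s + s') ^ 2 := by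
    have h : HasSum (fun n => w n * (a n + a' n) ^ 2) (A + A' + 2 * C) := by
      refine ((hA.add hA').add (hC.mul_left 2)).congr_fun ?_
      intro n; ring
    rw [← h.tsum_eq]
    apply tsum_w_le
    intro n
    rw [abs_of_nonneg (sq_nonneg _)]
    exact pow_le_pow_left₀ (add_nonneg (ha0 n) (ha0' n)) (add_le_add (has n) (has' n)) 2
  have hGG : G + G' ≤ (s + s') * D₀ := by
    have h : HasSum (fun n => w n * ((a n + a' n) * D n)) (G + G') := by
      refine (hG.add hG').congr_fun ?_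
      intro n; ring
    rw [← h.tsum_eq]
    apply tsum_w_le
    intro n
    rw [abs_of_nonneg (mul_nonneg (add_nonneg (ha0 n) (ha0' n)) (hD0 n))]
    exact mul_le_mul (add_le_add (has n) (has' n)) (hDs n) (hD0 n) (by positivity)
  have hEE : E ≤ D₀ ^ 2 := by
    rw [← hE.tsum_eq]
    apply tsum_w_le
    intro n
    rw [abs_of_nonneg (sq_nonneg _)]
    exact pow_le_pow_left₀ (hD0 n) (hDs n) 2
  have hM0 : 0 ≤ A + A' - 2 * C := by
    rw [← hM.tsum_eq]
    exact tsum_nonneg fun n => mul_nonneg (w_nonneg n) (sq_nonneg _)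
  have hA0 : 0 ≤ A := by
    rw [← hA.tsum_eq]
    exact tsum_nonneg fun n => mul_nonneg (w_nonneg n) (sq_nonneg _)
  unfold F at h1 h2 h3
  rw [e1] at h1
  rw [e2] at h2
  rw [e3] at h3
  have hspos : 0 < s := by
    rcases hs0.eq_or_lt with h | h
    · rw [← h] at h1
      exfalso; linarith
    · exact h
  have hσ : 0 < s + s' := by linarith
  -- Cauchy-Schwarz by a discriminant trick
  have hCS : 64 * (s - s') ^ 2 ≤ A + A' - 2 * C := by
    set t := 8 * (s - s') / (s + s') with ht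
    have hq : HasSum (fun n => w n * ((a n - a' n) - t * (a n + a' n)) ^ 2)
        ((A + A' - 2 * C) - 2 * t * (A - A') + t ^ 2 * (A + A' + 2 * C)) := by
      have := ((hM.sub ((hA.sub hA').mul_left (2 * t)))).add
        (((hA.add hA').add (hC.mul_left 2)).mul_left (t ^ 2))
      refine this.congr_fun ?_
      intro n; ring
    have hq0 : 0 ≤ (A + A' - 2 * C) - 2 * t * (A - A') + t ^ 2 * (A + A' + 2 * C) := by
      rw [← hq.tsum_eq]
      exact tsum_nonneg fun n => mul_nonneg (w_nonneg n) (sq_nonneg _)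
    have h4 : A - A' = 8 * (s - s') * (s + s') := by
      linear_combination (-2) * (h1 - h2)
    have h5 : t * (A - A') = 64 * (s - s') ^ 2 := by
      rw [h4, ht]; field_simp; ring
    have h6 : t ^ 2 * (A + A' + 2 * C) ≤ 64 * (s - s') ^ 2 := by
      have : t ^ 2 * (s + s') ^ 2 = 64 * (s - s') ^ 2 := by
        rw [ht]; field_simp; ring
      rw [← this]
      exact mul_le_mul_of_nonneg_left hS (sq_nonneg _)
    linarith
  have hkey : (s - s') ^ 2 - 1 / 8 * (A + A' - 2 * C) =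
      2 * ((s + s') * D₀) - 1 / 4 * (G + G') + (D₀ ^ 2 - 1 / 8 * E) := by
    linear_combination (h1 + h2) / 2 - h3
  have hp : 0 ≤ (s + s') * D₀ := by positivity
  have hx0 : 0 ≤ (s - s') ^ 2 := sq_nonneg _
  have hy0 : 0 ≤ D₀ ^ 2 := sq_nonneg _
  have hMz : A + A' - 2 * C = 0 := by linarith
  have hDz : D₀ ^ 2 = 0 := by linarith
  have hsz : (s - s') ^ 2 = 0 := by linarith
  have hss : s - s' = 0 := pow_eq_zero_iff (two_ne_zero) |>.1 hsz
  refine ⟨by linarith, ?_, pow_eq_zero_iff (two_ne_zero) |>.1 hDz⟩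
  rw [hMz] at hM
  have h7 := (hasSum_zero_iff_of_nonneg fun n => mul_nonneg (w_nonneg n) (sq_nonneg _)).1 hM
  intro n
  have h8 := congrFun h7 n
  simp only [Pi.zero_apply, mul_eq_zero] at h8
  rcases h8 with h8 | h8
  · exact absurd h8 (w_pos n).ne'
  · have := pow_eq_zero_iff (two_ne_zero) |>.1 h8
    linarith

/-- Limits along the cofinite filter exist. -/
lemma exists_Lim_cofinite [CompleteSpace H] (hP : ∀ n x, ‖P n x‖ ≤ ‖x‖) {ι : Type*} [Infinite ι]
    {f : ι → H} {R : ℝ} (h : ∀ i, ‖f i‖ ≤ R) {c : ℝ} (hc : 0 < c)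
    (hf : ∀ i j, i ≠ j → Q P (f i - f j) = c) : ∃ z s a, Lim P f cofinite z s a := by
  obtain ⟨z, s, a, L⟩ := exists_Lim hP (hyperfilter ι) h
  have hu : ∀ U : Ultrafilter ι, (U : Filter ι) ≤ cofinite → Lim P f U z s a := by
    intro U hU
    obtain ⟨z', s', a', L'⟩ := exists_Lim hP U h
    have h1 := double_limit hP h hf hyperfilter_le_cofinite L L
    have h2 := double_limit hP h hf hU L' L'
    have h3 := double_limit hP h hf hyperfilter_le_cofinite L L'
    simp only [sub_self, norm_zero, map_zero, ne_eq, OfNat.ofNat_ne_zero, not_false_eq_true,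
      zero_pow, add_zero] at h1 h2
    obtain ⟨hs, ha, hD⟩ := F_algebra L.a0 L.as L'.a0 L'.as
      (D := fun n => ‖P n (z' - z)‖ ^ 2) (fun n => by positivity)
      (fun n => pow_le_pow_left₀ (norm_nonneg _) (hP n _) 2) hc h1 h2 h3
    have hz : z' = z := by
      have := pow_eq_zero_iff (two_ne_zero) |>.1 hD
      rwa [norm_eq_zero, sub_eq_zero] at this
    have ha' : a = a' := funext ha
    rw [hs, ha', ← hz]
    exact L'
  refine ⟨z, s, a, ⟨fun x => ?_, ?_, fun n => ?_, L.a0, L.as⟩⟩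
  · rw [tendsto_iff_ultrafilter]
    exact fun U hU => (hu U hU).weak x
  · rw [tendsto_iff_ultrafilter]
    exact fun U hU => (hu U hU).ts
  · rw [tendsto_iff_ultrafilter]
    exact fun U hU => (hu U hU).ta n

end

end Pool.Agent.X207.Equi
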