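import Pool.Agent.X207.GurStep

/-!
The extension step and the Gurarii property.
-/

open Finset
open scoped ENNReal

namespace Pool.Agent.X207.Gur

noncomputable section

variable {Y : Type*} [NormedAddCommGroup Y] [NormedSpace ℝ Y]

/-- The extension step: an almost isometric operator into the span of finitely many generators
extends to a larger space. -/
lemma extend_step [FiniteDimensional ℝ Y] {X : Submodule ℝ Y} {A : Finset Idx} (f : X →ₗ[ℝ] L)
    (hfA : ∀ x, f x ∈ Submodule.span ℝ (yy '' (A : Set Idx))) {δ : ℝ} (hδ : 0 < δ) (hδ1 : δ < 1)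
    (hlow : ∀ x, (1 - δ) * ‖x‖ ≤ ‖f x‖) (hup : ∀ x, ‖f x‖ ≤ (1 + δ) * ‖x‖) :
    ∃ g : Y →ₗ[ℝ] L, (∀ y, g y ∈ Submodule.span ℝ (Set.range yy)) ∧ (∀ x : X, g x = f x) ∧
      ∀ y, (1 - δ) * (1 - δ) * ‖y‖ ≤ ‖g y‖ ∧ ‖g y‖ ≤ (1 + δ) * ‖y‖ := by
  classical
  -- extension of the coordinates
  choose F hF1 hF2 using fun η : Idx => exists_coord f (by linarith : (0 : ℝ) ≤ 1 + δ) hup η
  let FA : Y →ₗ[ℝ] (A → ℝ) := LinearMap.pi fun η : A => (F η).toLinearMap
  have hFA : ∀ y (η : A), FA y η = F η y := fun y η => rfl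
  let g₀ : Y →ₗ[ℝ] L :=
    (Submodule.subtype _).comp ((eA A).toLinearMap.comp FA)
  have hg₀ : ∀ y, g₀ y = (eA A (FA y) : L) := fun y => rfl
  have hg₀A : ∀ y (η : A), (g₀ y : Idx → ℝ) η = F η y := fun y η => eA_apply A (FA y) η
  -- the norming family
  obtain ⟨N, φ, hφ1, hφ2⟩ := exists_net (Y := Y) hδ
  choose a ha1 ha2 using fun i => exists_repr f hfA (by linarith : 0 < 1 - δ) hlow (φ i) (hφ1 i)
  -- the new indices
  let e : Fin A.card ≃ A := A.equivFin.symm
  let β : Fin N → Idx := fun i =>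
    Idx.mk A.card (fun j => (e j : Idx)) (fun j => a i (e j)) (i : ℕ)
  have hβinj : Function.Injective β := by
    intro i j hij
    have : (i : ℕ) = j := by
      have := hij
      simp only [β, Idx.mk.injEq] at this
      exact this.2.2.2
    exact Fin.ext this
  have hrank : ∀ i, ∀ η ∈ A, η.rank < (β i).rank := by
    intro i η hη
    have := rank_lt (fun j => (e j : Idx)) (fun j => a i (e j)) (i : ℕ) (e.symm ⟨η, hη⟩)
    simpa [β] using this
  have hβA : ∀ i, β i ∉ A := fun i h => lt_irrefl _ (hrank i _ h)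
  have hrank2 : ∀ i j, (β i).rank = (β j).rank := by
    intro i j
    simp only [β, Idx.rank]
  -- the correction terms
  let cc : Fin N → Y →ₗ[ℝ] ℝ := fun i =>
    (1 - δ) • (φ i).toLinearMap - ∑ η : A, a i η • (F η).toLinearMap
  have hcc : ∀ i y, cc i y = (1 - δ) * φ i y - ∑ η : A, a i η * F η y := by
    intro i y
    simp [cc, LinearMap.sum_apply]
  let g : Y →ₗ[ℝ] L := g₀ + ∑ i, (cc i).smulRight (yy (β i))
  have hg : ∀ y, g y = g₀ y + ∑ i, cc i y • yy (β i) := by
    intro y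
    simp [g, LinearMap.sum_apply]
  have hco : ∀ y (δ' : Idx), (g y : Idx → ℝ) δ' =
      (g₀ y : Idx → ℝ) δ' + ∑ i, cc i y * M δ' (β i) := by
    intro y δ'
    rw [hg, lp.coeFn_add, Pi.add_apply, lp.coeFn_sum, Finset.sum_apply]
    congr 1
  have hcoA : ∀ y (η : A), (g y : Idx → ℝ) η = F η y := by
    intro y η
    rw [hco, hg₀A]
    have : ∑ i, cc i y * M η (β i) = 0 := by
      apply sum_eq_zero
      intro i _
      rw [M_zero _ _ (hrank i η η.2).le (by intro h; exact hβA i (h ▸ η.2)), mul_zero]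
    rw [this, add_zero]
  have hg₀mem : ∀ y, g₀ y ∈ Submodule.span ℝ (yy '' (A : Set Idx)) := fun y => (eA A (FA y)).2
  have hcoβ : ∀ y i, (g y : Idx → ℝ) (β i) = (1 - δ) * φ i y := by
    intro y i
    rw [hco]
    have h1 : (g₀ y : Idx → ℝ) (β i) = ∑ η : A, a i η * F η y := by
      rw [span_rec (hg₀mem y) (by exact_mod_cast hβA i)]
      have h2 : ∑ j : Fin A.card, |a i (e j)| ≤ 1 := by
        rw [Equiv.sum_comp e (fun η => |a i η|)]
        exact ha1 i
      have h3 : ∀ j : Fin A.card, nrm (fun j => a i (e j)) j * (g₀ y : Idx → ℝ) (e j) =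
          a i (e j) * F (e j) y := by
        intro j
        rw [nrm_eq h2, hg₀A]
      rw [sum_congr rfl fun j _ => h3 j, Equiv.sum_comp e (fun η : A => a i η * F η y)]
    have h2 : ∑ j, cc j y * M (β i) (β j) = cc i y := by
      rw [sum_eq_single i]
      · rw [M_self, mul_one]
      · intro j _ hj
        rw [M_zero _ _ (hrank2 i j).le (fun h => hj (hβinj h).symm), mul_zero]
      · simp
    rw [h1, h2, hcc]; ring
  let A' : Set Idx := (A : Set Idx) ∪ Set.range β
  have hgmem : ∀ y, g y ∈ Submodule.span ℝ (yy '' A') := by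
    intro y
    rw [hg]
    apply Submodule.add_mem
    · exact Submodule.span_mono (Set.image_mono Set.subset_union_left) (hg₀mem y)
    · apply Submodule.sum_mem
      intro i _
      exact Submodule.smul_mem _ _ (Submodule.subset_span ⟨β i, Or.inr ⟨i, rfl⟩, rfl⟩)
  refine ⟨g, fun y => Submodule.span_mono (Set.image_subset_range _ _) (hgmem y), ?_, ?_⟩
  · -- extension
    intro x
    have hc0 : ∀ i, cc i x = 0 := by
      intro i
      rw [hcc, ha2 i x]
      have : ∀ η : A, a i η * F η x = a i η * (f x : Idx → ℝ) η := fun η => by rw [hF2]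
      rw [sum_congr rfl fun η _ => this η, sub_self]
    rw [hg]
    simp only [hc0, zero_smul, sum_const_zero, add_zero]
    exact eA_eq A (FA x) (hfA x) fun η => by rw [hFA, hF2]
  · intro y
    by_cases hy : y = 0
    · simp [hy]
    have hy0 : 0 < ‖y‖ := norm_pos_iff.2 hy
    constructor
    · obtain ⟨i, hi⟩ := hφ2 y hy
      have h1 := abs_apply_le (g y) (β i)
      rw [hcoβ] at h1
      have h2 := le_abs_self ((1 - δ) * φ i y)
      have h3 : (1 - δ) * ((1 - δ) * ‖y‖) ≤ (1 - δ) * φ i y :=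
        mul_le_mul_of_nonneg_left hi (by linarith)
      linarith
    · apply norm_le_of_values (hgmem y) (by positivity)
      rintro η (hη | ⟨i, rfl⟩)
      · rw [hcoA y ⟨η, hη⟩, ← Real.norm_eq_abs]
        refine ((F η).le_opNorm y).trans ?_
        exact mul_le_mul_of_nonneg_right (hF1 η) (norm_nonneg _)
      · rw [hcoβ, abs_mul, abs_of_pos (by linarith : 0 < 1 - δ), ← Real.norm_eq_abs]
        have h1 : ‖φ i y‖ ≤ 1 * ‖y‖ := ((φ i).le_opNorm y).trans
          (mul_le_mul_of_nonneg_right (hφ1 i) (norm_nonneg _))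
        have h2 : (1 - δ) * ‖φ i y‖ ≤ (1 - δ) * (1 * ‖y‖) :=
          mul_le_mul_of_nonneg_left h1 (by linarith)
        nlinarith

/-- The closed span of the generators. -/
def GS : Submodule ℝ L := (Submodule.span ℝ (Set.range yy)).topologicalClosure

/-- The Gurarii space. -/
abbrev GG : Type := GS

instance : CompleteSpace GG := by
  have : IsClosed (GS : Set L) := Submodule.isClosed_topologicalClosure _
  exact this.completeSpace_coe

lemma span_le_GS : Submodule.span ℝ (Set.range yy) ≤ GS := Submodule.le_topologicalClosure _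

/-- The Gurarii property. -/
theorem gurarii [FiniteDimensional ℝ Y] (X : Submodule ℝ Y) (f : X →ₗ[ℝ] GG)
    (hf : ∀ x, ‖f x‖ = ‖x‖) {ε : ℝ} (hε : 0 < ε) :
    ∃ g : Y →ₗ[ℝ] GG, (∀ x : X, g x = f x) ∧
      ∀ y, (1 + ε)⁻¹ * ‖y‖ ≤ ‖g y‖ ∧ ‖g y‖ ≤ (1 + ε) * ‖y‖ := by
  classical
  set δ : ℝ := ε / (3 * (1 + ε)) with hδ
  have hδ0 : 0 < δ := by positivity
  have hδ3 : 3 * δ * (1 + ε) = ε := by rw [hδ]; field_simp
  have hδ1 : 3 * δ < 1 := by
    by_contra hlt
    push Not at hlt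
    nlinarith
  -- a projection
  obtain ⟨π, hπ⟩ := X.exists_isCompl
  let pr : Y →ₗ[ℝ] X := Submodule.projectionOnto X π hπ
  have hpr : ∀ x : X, pr x = x := fun x => Submodule.projectionOnto_apply_left hπ x
  obtain ⟨K, hK0, hK⟩ : ∃ K : ℝ, 0 ≤ K ∧ ∀ y, ‖pr y‖ ≤ K * ‖y‖ :=
    ⟨‖LinearMap.toContinuousLinearMap pr‖, ContinuousLinearMap.opNorm_nonneg _, fun y =>
      (LinearMap.toContinuousLinearMap pr).le_opNorm y⟩
  -- a basis
  let b := Module.finBasis ℝ X
  set n := Module.finrank ℝ X with hn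
  obtain ⟨K', hK'0, hK'⟩ : ∃ K' : ℝ, 0 ≤ K' ∧ ∀ x j, |b.equivFun x j| ≤ K' * ‖x‖ :=
    ⟨‖LinearMap.toContinuousLinearMap b.equivFun.toLinearMap‖, ContinuousLinearMap.opNorm_nonneg _, fun x j => by
      rw [← Real.norm_eq_abs]
      exact (norm_le_pi_norm (b.equivFun x) j).trans
        ((LinearMap.toContinuousLinearMap b.equivFun.toLinearMap).le_opNorm x)⟩
  set κ : ℝ := δ / (1 + K) with hκ
  have hκ0 : 0 < κ := by positivity
  have hκδ : κ ≤ δ := div_le_self hδ0.le (by linarith)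
  have hκK : κ * K ≤ δ := by
    rw [hκ, div_mul_eq_mul_div, div_le_iff₀ (by positivity)]
    nlinarith
  set τ : ℝ := κ / (n * K' + 1) with hτ
  have hτ0 : 0 < τ := by positivity
  have hτ1 : n * (K' * τ) ≤ κ := by
    have : τ * (n * K' + 1) = κ := by rw [hτ]; field_simp
    nlinarith
  -- approximations of the images of the basis vectors
  have happ : ∀ j, ∃ c : Idx →₀ ℝ, ‖(c.sum fun i r => r • yy i) - (f (b j) : L)‖ < τ := by
    intro j
    have h1 : (f (b j) : L) ∈ closure ((Submodule.span ℝ (Set.range yy) : Submodule ℝ L) : Set L) :=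
      (f (b j)).2
    obtain ⟨z, hz, hzd⟩ := Metric.mem_closure_iff.1 h1 τ hτ0
    obtain ⟨c, hc⟩ := (Finsupp.mem_span_range_iff_exists_finsupp).1 hz
    refine ⟨c, ?_⟩
    rw [hc, ← dist_eq_norm, dist_comm]
    exact hzd
  choose c hc using happ
  set z : Fin n → L := fun j => (c j).sum fun i r => r • yy i with hz
  let A : Finset Idx := univ.biUnion fun j => (c j).support
  have hzA : ∀ j, z j ∈ Submodule.span ℝ (yy '' (A : Set Idx)) := by
    intro j
    apply Submodule.sum_mem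
    intro i hi
    apply Submodule.smul_mem
    apply Submodule.subset_span
    exact ⟨i, by simpa [A] using ⟨j, by simpa using hi⟩, rfl⟩
  let f' : X →ₗ[ℝ] L := b.constr ℝ z
  have hf' : ∀ x, f' x = ∑ j, b.equivFun x j • z j := fun x => b.constr_apply_fintype ℝ z x
  have hfA : ∀ x, f' x ∈ Submodule.span ℝ (yy '' (A : Set Idx)) := by
    intro x
    rw [hf']
    exact Submodule.sum_mem _ fun j _ => Submodule.smul_mem _ _ (hzA j)
  have hdiff : ∀ x, ‖f' x - (f x : L)‖ ≤ κ * ‖x‖ := by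
    intro x
    have h1 : (f x : L) = ∑ j, b.equivFun x j • (f (b j) : L) := by
      conv_lhs => rw [← b.sum_equivFun x]
      rw [map_sum, Submodule.coe_sum]
      apply sum_congr rfl
      intro j _
      rw [map_smul, Submodule.coe_smul]
    rw [hf', h1, ← sum_sub_distrib]
    calc ‖∑ j, (b.equivFun x j • z j - b.equivFun x j • (f (b j) : L))‖
        ≤ ∑ j, ‖b.equivFun x j • z j - b.equivFun x j • (f (b j) : L)‖ := norm_sum_le _ _
      _ ≤ ∑ _j : Fin n, (K' * ‖x‖) * τ := by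
          apply sum_le_sum
          intro j _
          rw [← smul_sub, norm_smul, Real.norm_eq_abs]
          exact mul_le_mul (hK' x j) (hc j).le (norm_nonneg _) (by positivity)
      _ = (n * (K' * τ)) * ‖x‖ := by
          rw [sum_const, card_univ, Fintype.card_fin, nsmul_eq_mul]; ring
      _ ≤ κ * ‖x‖ := mul_le_mul_of_nonneg_right hτ1 (norm_nonneg _)
  have hfn : ∀ x, ‖(f x : L)‖ = ‖x‖ := fun x => hf x
  have hlow : ∀ x, (1 - δ) * ‖x‖ ≤ ‖f' x‖ := by
    intro x
    have h1 := hdiff x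
    have h2 : ‖(f x : L)‖ ≤ ‖f' x‖ + ‖f' x - (f x : L)‖ := by
      have := norm_sub_le (f' x) (f' x - (f x : L))
      rwa [sub_sub_cancel] at this
    rw [hfn] at h2
    have h3 := mul_le_mul_of_nonneg_right hκδ (norm_nonneg x)
    linarith
  have hup : ∀ x, ‖f' x‖ ≤ (1 + δ) * ‖x‖ := by
    intro x
    have h1 := hdiff x
    have h2 : ‖f' x‖ ≤ ‖(f x : L)‖ + ‖f' x - (f x : L)‖ := by
      have := norm_add_le (f x : L) (f' x - (f x : L))
      rwa [add_sub_cancel] at this
    rw [hfn] at h2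
    have h3 := mul_le_mul_of_nonneg_right hκδ (norm_nonneg x)
    linarith
  obtain ⟨g, hg1, hg2, hg3⟩ := extend_step f' hfA hδ0 (by linarith) hlow hup
  let g' : Y →ₗ[ℝ] L := g + ((GS.subtype.comp f) - f').comp pr
  have hg' : ∀ y, g' y = g y + ((f (pr y) : L) - f' (pr y)) := fun y => rfl
  have hmem : ∀ y, g' y ∈ GS := by
    intro y
    rw [hg']
    apply Submodule.add_mem _ (span_le_GS (hg1 y))
    apply Submodule.sub_mem _ (f (pr y)).2
    exact span_le_GS (Submodule.span_mono (Set.image_subset_range _ _) (hfA _))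
  refine ⟨g'.codRestrict GS hmem, fun x => ?_, fun y => ?_⟩
  · apply Subtype.ext
    change g' x = (f x : L)
    rw [hg', hg2, hpr]
    abel
  · have h1 : ‖g'.codRestrict GS hmem y‖ = ‖g' y‖ := rfl
    rw [h1]
    have h2 : ‖g' y - g y‖ ≤ δ * ‖y‖ := by
      rw [hg', add_sub_cancel_left, norm_sub_rev]
      calc ‖f' (pr y) - (f (pr y) : L)‖ ≤ κ * ‖pr y‖ := hdiff _
        _ ≤ κ * (K * ‖y‖) := mul_le_mul_of_nonneg_left (hK y) hκ0.le
        _ = (κ * K) * ‖y‖ := by ring
        _ ≤ δ * ‖y‖ := mul_le_mul_of_nonneg_right hκK (norm_nonneg _)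
    obtain ⟨h3, h4⟩ := hg3 y
    have h5 : ‖g y‖ ≤ ‖g' y‖ + ‖g' y - g y‖ := by
      have := norm_sub_le (g' y) (g' y - g y)
      rwa [sub_sub_cancel] at this
    have h6 : ‖g' y‖ ≤ ‖g y‖ + ‖g' y - g y‖ := by
      have := norm_add_le (g y) (g' y - g y)
      rwa [add_sub_cancel] at this
    have hy := norm_nonneg y
    constructor
    · have h7 : (1 - 3 * δ) * ‖y‖ ≤ ‖g' y‖ := by
        have : (1 - δ) * (1 - δ) * ‖y‖ - δ * ‖y‖ ≥ (1 - 3 * δ) * ‖y‖ := by nlinarith [sq_nonneg δ]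
        linarith
      refine le_trans ?_ h7
      apply mul_le_mul_of_nonneg_right _ hy
      rw [inv_le_iff_one_le_mul₀ (by linarith)]
      nlinarith
    · have h7 : ‖g' y‖ ≤ (1 + 2 * δ) * ‖y‖ := by linarith
      refine h7.trans (mul_le_mul_of_nonneg_right ?_ hy)
      nlinarith

/-- The generators are one-separated. -/
lemma yy_sep {β γ : Idx} (h : β ≠ γ) : 1 ≤ ‖yy β - yy γ‖ := by
  wlog hr : β.rank ≤ γ.rank generalizing β γ with H
  · rw [norm_sub_rev]
    exact H h.symm (by omega)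
  · have h1 := abs_apply_le (yy β - yy γ) β
    rw [lp.coeFn_sub, Pi.sub_apply, yy_apply, yy_apply, M_self, M_zero β γ hr h] at h1
    simpa using h1

/-- The generators as elements of the space. -/
def gg (β : Idx) : GG := ⟨yy β, span_le_GS (Submodule.subset_span ⟨β, rfl⟩)⟩

/-- The space is not separable. -/
theorem not_separable : ¬ TopologicalSpace.SeparableSpace GG := by
  intro hs
  -- an uncountable one-separated family
  let ι : ℝ → Idx := fun r => Idx.mk 1 (fun _ => Idx.mk 0 Fin.elim0 Fin.elim0 0) (fun _ => r) 0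
  have hι : Function.Injective ι := by
    intro r s h
    simp only [ι, Idx.mk.injEq] at h
    have := h.2.2.1
    have h2 := eq_of_heq this
    exact congrFun h2 0
  have hdisj : (Set.univ : Set ℝ).PairwiseDisjoint fun r => Metric.ball (gg (ι r)) (1 / 2) := by
    intro r _ s _ hrs
    apply Metric.ball_disjoint_ball
    have h1 := yy_sep (hι.ne hrs)
    rw [dist_eq_norm]
    have h2 : ‖gg (ι r) - gg (ι s)‖ = ‖yy (ι r) - yy (ι s)‖ := rfl
    rw [h2]; linarith
  have h1 := hdisj.countable_of_isOpen (fun r _ => Metric.isOpen_ball)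
    (fun r _ => ⟨gg (ι r), Metric.mem_ball_self (by norm_num)⟩)
  exact Set.not_countable_univ h1

/-- For a bounded functional the values on the generators are summable on every rank. -/
lemma sum_functional_le (φ : StrongDual ℝ GG) (m : ℕ) (F : Finset Idx)
    (hF : ∀ β ∈ F, β.rank = m) : ∑ β ∈ F, |φ (gg β)| ≤ ‖φ‖ := by
  set s : Idx → ℝ := fun β => (SignType.sign (φ (gg β)) : ℝ) with hs
  have hs1 : ∀ β, |s β| ≤ 1 := by
    intro β
    rw [hs]
    rcases SignType.trichotomy (SignType.sign (φ (gg β))) with h | h | h <;> simp [h]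
  have h1 : ∑ β ∈ F, |φ (gg β)| = φ (∑ β ∈ F, s β • gg β) := by
    rw [map_sum]
    apply sum_congr rfl
    intro β _
    rw [map_smul, smul_eq_mul, hs, sign_mul_self]
  have h2 : ‖∑ β ∈ F, s β • gg β‖ ≤ 1 := by
    have e : ‖∑ β ∈ F, s β • gg β‖ = ‖∑ β ∈ F, s β • yy β‖ := by
      have : ((∑ β ∈ F, s β • gg β : GG) : L) = ∑ β ∈ F, s β • yy β := by
        rw [Submodule.coe_sum]; rfl
      rw [← this]; rfl
    rw [e]
    refine lp.norm_le_of_forall_le zero_le_one fun δ => ?_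
    rw [Real.norm_eq_abs, lp.coeFn_sum, Finset.sum_apply]
    refine (abs_sum_le_sum_abs _ _).trans (le_trans ?_ (row_sum m F hF δ))
    apply sum_le_sum
    intro β _
    rw [lp.coeFn_smul, Pi.smul_apply, smul_eq_mul, yy_apply, abs_mul]
    exact mul_le_of_le_one_left (abs_nonneg _) (hs1 β)
  rw [h1]
  refine (le_abs_self _).trans ((φ.le_opNorm _).trans ?_)
  exact mul_le_of_le_one_right (ContinuousLinearMap.opNorm_nonneg _) h2

/-- Finiteness of the set of generators of given rank with a large value. -/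
lemma finite_large (φ : StrongDual ℝ GG) (m : ℕ) {ε : ℝ} (hε : 0 < ε) :
    {β : Idx | β.rank = m ∧ ε ≤ |φ (gg β)|}.Finite := by
  by_contra hinf
  obtain ⟨N, hN⟩ := exists_nat_gt (‖φ‖ / ε)
  obtain ⟨F, hF1, hF2⟩ := (Set.not_finite.1 hinf |> Set.Infinite.exists_subset_card_eq) N
  have h1 := sum_functional_le φ m F fun β hβ => (hF1 hβ).1
  have h2 : (N : ℝ) * ε ≤ ∑ β ∈ F, |φ (gg β)| := by
    rw [← hF2, ← nsmul_eq_mul, ← sum_const]
    exact sum_le_sum fun β hβ => (hF1 hβ).2
  rw [div_lt_iff₀ hε] at hN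
  linarith

lemma countable_support (φ : StrongDual ℝ GG) : {β : Idx | φ (gg β) ≠ 0}.Countable := by
  have : {β : Idx | φ (gg β) ≠ 0} ⊆
      ⋃ (m : ℕ) (k : ℕ), {β : Idx | β.rank = m ∧ 1 / ((k : ℝ) + 1) ≤ |φ (gg β)|} := by
    intro β hβ
    obtain ⟨k, hk⟩ := exists_nat_one_div_lt (abs_pos.2 hβ)
    simp only [Set.mem_iUnion]
    exact ⟨β.rank, k, rfl, hk.le⟩
  refine Set.Countable.mono this ?_
  exact Set.countable_iUnion fun m => Set.countable_iUnion fun k =>
    (finite_large φ m (by positivity)).countable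

/-- The scaled generators. -/
def sg (β : Idx) : GG := (1 / 2 : ℝ) ^ β.rank • gg β

lemma finite_large' (φ : StrongDual ℝ GG) {ε : ℝ} (hε : 0 < ε) :
    {β : Idx | ε ≤ |φ (sg β)|}.Finite := by
  have hbd : ∀ β, |φ (gg β)| ≤ ‖φ‖ := fun β => by
    have := sum_functional_le φ β.rank {β} (by simp)
    simpa using this
  obtain ⟨m₀, hm₀⟩ : ∃ m₀ : ℕ, (1 / 2 : ℝ) ^ m₀ * ‖φ‖ < ε := by
    obtain ⟨m₀, hm₀⟩ := exists_pow_lt_of_lt_one (show 0 < ε / (‖φ‖ + 1) by positivity)
      (by norm_num : (1 / 2 : ℝ) < 1)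
    refine ⟨m₀, ?_⟩
    rw [lt_div_iff₀ (by positivity)] at hm₀
    have : 0 < (1 / 2 : ℝ) ^ m₀ := by positivity
    nlinarith
  have hsub : {β : Idx | ε ≤ |φ (sg β)|} ⊆
      ⋃ m ∈ Finset.range m₀, {β : Idx | β.rank = m ∧ ε ≤ |φ (gg β)|} := by
    intro β hβ
    have h1 : ε ≤ (1 / 2 : ℝ) ^ β.rank * |φ (gg β)| := by
      have : ε ≤ |φ (sg β)| := hβ
      rwa [sg, map_smul, smul_eq_mul, abs_mul, abs_of_pos (by positivity)] at this
    simp only [Set.mem_iUnion, Finset.mem_range]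
    refine ⟨β.rank, ?_, rfl, ?_⟩
    · by_contra hge
      push Not at hge
      have h2 : (1 / 2 : ℝ) ^ β.rank ≤ (1 / 2 : ℝ) ^ m₀ :=
        pow_le_pow_of_le_one (by norm_num) (by norm_num) hge
      have h3 : (1 / 2 : ℝ) ^ β.rank * |φ (gg β)| ≤ (1 / 2 : ℝ) ^ m₀ * ‖φ‖ :=
        mul_le_mul h2 (hbd β) (abs_nonneg _) (by positivity)
      linarith
    · refine h1.trans ?_
      exact mul_le_of_le_one_left (abs_nonneg _) (pow_le_one₀ (by norm_num) (by norm_num))
  refine Set.Finite.subset ?_ hsub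
  exact Set.Finite.biUnion (Finset.finite_toSet _) fun m _ => finite_large φ m hε

end

end Pool.Agent.X207.Gur
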