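import Mathlib

/-!
A triangular matrix of Lazar-Lindenstrauss type over an inductive index set.
-/

open Finset

namespace Pool.Agent.X207.Gur

noncomputable section

open scoped Classical in
/-- The index set: an index is given by finitely many earlier indices, real coefficients and a
label. -/
inductive Idx : Type
  | mk (n : ℕ) (A : Fin n → Idx) (a : Fin n → ℝ) (k : ℕ) : Idx

/-- The rank of an index. -/
def Idx.rank : Idx → ℕ
  | .mk _ A _ _ => univ.sup fun i => (A i).rank + 1

/-- The normalised coefficients. -/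
def nrm {n : ℕ} (a : Fin n → ℝ) (i : Fin n) : ℝ := a i / max 1 (∑ j, |a j|)

lemma sum_nrm_le {n : ℕ} (a : Fin n → ℝ) : ∑ i, |nrm a i| ≤ 1 := by
  unfold nrm
  have h : (0 : ℝ) < max 1 (∑ j, |a j|) := lt_of_lt_of_le one_pos (le_max_left _ _)
  simp_rw [abs_div, abs_of_pos h]
  rw [← sum_div, div_le_one h]
  exact le_max_right _ _

lemma nrm_eq {n : ℕ} {a : Fin n → ℝ} (h : ∑ j, |a j| ≤ 1) (i : Fin n) : nrm a i = a i := by
  unfold nrm
  rw [max_eq_left h, div_one]

open scoped Classical in
/-- The matrix. -/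
def M : Idx → Idx → ℝ
  | .mk n A a k, β => (if Idx.mk n A a k = β then 1 else 0) + ∑ i, nrm a i * M (A i) β

lemma rank_lt {n : ℕ} (A : Fin n → Idx) (a : Fin n → ℝ) (k : ℕ) (i : Fin n) :
    (A i).rank < (Idx.mk n A a k).rank := by
  rw [Idx.rank]
  exact Nat.lt_of_succ_le (le_sup (f := fun i => (A i).rank + 1) (mem_univ i))

open scoped Classical in
lemma M_mk (n : ℕ) (A : Fin n → Idx) (a : Fin n → ℝ) (k : ℕ) (β : Idx) :
    M (.mk n A a k) β = (if Idx.mk n A a k = β then 1 else 0) + ∑ i, nrm a i * M (A i) β := by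
  rw [M]

lemma M_zero (δ β : Idx) (hr : δ.rank ≤ β.rank) (hne : δ ≠ β) : M δ β = 0 := by
  induction δ with
  | mk n A a k ih =>
    rw [M_mk, if_neg hne, zero_add]
    apply sum_eq_zero
    intro i _
    have h1 := rank_lt A a k i
    rw [ih i (by omega) (by rintro rfl; omega), mul_zero]

lemma M_self (δ : Idx) : M δ δ = 1 := by
  cases δ with
  | mk n A a k =>
    rw [M_mk, if_pos rfl]
    have : ∑ i, nrm a i * M (A i) (Idx.mk n A a k) = 0 := by
      apply sum_eq_zero
      intro i _
      have h1 := rank_lt A a k i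
      rw [M_zero (A i) _ h1.le (by intro h; rw [← h] at h1; exact lt_irrefl _ h1), mul_zero]
    rw [this, add_zero]

lemma M_rec {n : ℕ} {A : Fin n → Idx} {a : Fin n → ℝ} {k : ℕ} {β : Idx}
    (h : Idx.mk n A a k ≠ β) : M (.mk n A a k) β = ∑ i, nrm a i * M (A i) β := by
  rw [M_mk, if_neg h, zero_add]

/-- Rows are absolutely summable with sum at most one on every rank. -/
lemma row_sum (m : ℕ) (F : Finset Idx) (hF : ∀ β ∈ F, β.rank = m) (δ : Idx) :
    ∑ β ∈ F, |M δ β| ≤ 1 := by
  classical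
  induction δ with
  | mk n A a k ih =>
    by_cases hmem : Idx.mk n A a k ∈ F
    · have hr := hF _ hmem
      have : ∑ β ∈ F, |M (Idx.mk n A a k) β| = |M (Idx.mk n A a k) (Idx.mk n A a k)| := by
        apply sum_eq_single_of_mem _ hmem
        intro β hβ hne
        rw [M_zero _ _ (by rw [hr, hF β hβ]) (Ne.symm hne), abs_zero]
      rw [this, M_self]; simp
    · have : ∀ β ∈ F, |M (Idx.mk n A a k) β| ≤ ∑ i, |nrm a i| * |M (A i) β| := by
        intro β hβ
        rw [M_rec (by rintro rfl; exact hmem hβ)]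
        refine (abs_sum_le_sum_abs _ _).trans (le_of_eq ?_)
        exact sum_congr rfl fun i _ => abs_mul _ _
      calc ∑ β ∈ F, |M (Idx.mk n A a k) β| ≤ ∑ β ∈ F, ∑ i, |nrm a i| * |M (A i) β| :=
            sum_le_sum this
        _ = ∑ i, |nrm a i| * ∑ β ∈ F, |M (A i) β| := by
            rw [sum_comm]
            exact sum_congr rfl fun i _ => (mul_sum _ _ _).symm
        _ ≤ ∑ i, |nrm a i| * 1 :=
            sum_le_sum fun i _ => mul_le_mul_of_nonneg_left (ih i) (abs_nonneg _)
        _ ≤ 1 := by simpa using sum_nrm_le a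

lemma abs_M_le (δ β : Idx) : |M δ β| ≤ 1 := by
  have := row_sum β.rank {β} (by simp) δ
  simpa using this

end

end Pool.Agent.X207.Gur
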