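import Pool.Agent.X207.GurIdx

/-!
The span of the columns and the extension step.
-/

open Finset
open scoped ENNReal

namespace Pool.Agent.X207.Gur

noncomputable section

/-- The ambient space of bounded functions. -/
abbrev L : Type := lp (fun _ : Idx => ℝ) ∞

/-- The generators. -/
def yy (β : Idx) : L := ⟨fun δ => M δ β, memℓp_infty ⟨1, by
  rintro _ ⟨δ, rfl⟩
  exact abs_M_le δ β⟩⟩

lemma yy_apply (β δ : Idx) : (yy β : Idx → ℝ) δ = M δ β := rfl

lemma span_rec {A : Set Idx} {x : L} (hx : x ∈ Submodule.span ℝ (yy '' A)) {n : ℕ}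
    {B : Fin n → Idx} {a : Fin n → ℝ} {k : ℕ} (h : Idx.mk n B a k ∉ A) :
    (x : Idx → ℝ) (.mk n B a k) = ∑ i, nrm a i * (x : Idx → ℝ) (B i) := by
  induction hx using Submodule.span_induction with
  | mem x hx =>
    obtain ⟨β, hβ, rfl⟩ := hx
    simp only [yy_apply]
    exact M_rec (by rintro rfl; exact h hβ)
  | zero => simp
  | add x y _ _ hx hy =>
    rw [lp.coeFn_add, Pi.add_apply, hx, hy, ← sum_add_distrib]
    exact sum_congr rfl fun i _ => by rw [Pi.add_apply]; ring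
  | smul r x _ hx =>
    rw [lp.coeFn_smul, Pi.smul_apply, hx, smul_eq_mul, mul_sum]
    exact sum_congr rfl fun i _ => by rw [Pi.smul_apply, smul_eq_mul]; ring

/-- The norm of an element of the span of `y β`, `β ∈ A`, is determined by the values on `A`. -/
lemma norm_le_of_values {A : Set Idx} {x : L} (hx : x ∈ Submodule.span ℝ (yy '' A)) {C : ℝ}
    (hC : 0 ≤ C) (h : ∀ η ∈ A, |(x : Idx → ℝ) η| ≤ C) : ‖x‖ ≤ C := by
  refine lp.norm_le_of_forall_le hC fun δ => ?_
  rw [Real.norm_eq_abs]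
  induction δ with
  | mk n B a k ih =>
    by_cases hmem : Idx.mk n B a k ∈ A
    · exact h _ hmem
    · rw [span_rec hx hmem]
      calc |∑ i, nrm a i * (x : Idx → ℝ) (B i)| ≤ ∑ i, |nrm a i * (x : Idx → ℝ) (B i)| :=
            abs_sum_le_sum_abs _ _
        _ ≤ ∑ i, |nrm a i| * C := sum_le_sum fun i _ => by
            rw [abs_mul]; exact mul_le_mul_of_nonneg_left (ih i) (abs_nonneg _)
        _ = (∑ i, |nrm a i|) * C := (sum_mul _ _ _).symm
        _ ≤ 1 * C := mul_le_mul_of_nonneg_right (sum_nrm_le a) hC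
        _ = C := one_mul C

lemma abs_apply_le (x : L) (δ : Idx) : |(x : Idx → ℝ) δ| ≤ ‖x‖ := by
  have := lp.norm_apply_le_norm (by simp) x δ
  rwa [Real.norm_eq_abs] at this

/-- Elements of a span are determined by their values. -/
lemma eq_of_values {A : Set Idx} {x x' : L} (hx : x ∈ Submodule.span ℝ (yy '' A))
    (hx' : x' ∈ Submodule.span ℝ (yy '' A)) (h : ∀ η ∈ A, (x : Idx → ℝ) η = (x' : Idx → ℝ) η) :
    x = x' := by
  have h1 : ‖x - x'‖ ≤ 0 := by
    apply norm_le_of_values (Submodule.sub_mem _ hx hx') le_rfl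
    intro η hη
    rw [lp.coeFn_sub, Pi.sub_apply, h η hη, sub_self, abs_zero]
  exact sub_eq_zero.1 (norm_le_zero_iff.1 h1)

/-- Interpolation. -/
lemma interpolate (A : Finset Idx) (v : Idx → ℝ) :
    ∃ x ∈ Submodule.span ℝ (yy '' (A : Set Idx)), ∀ η ∈ A, (x : Idx → ℝ) η = v η := by
  classical
  induction A using Finset.induction_on_max_value (f := Idx.rank) with
  | empty => exact ⟨0, Submodule.zero_mem _, by simp⟩
  | insert β s hβ hmax ih =>
    obtain ⟨x, hx, hxv⟩ := ih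
    refine ⟨x + (v β - (x : Idx → ℝ) β) • yy β, ?_, ?_⟩
    · refine Submodule.add_mem _ (Submodule.span_mono (Set.image_mono (by simp)) hx)
        (Submodule.smul_mem _ _ (Submodule.subset_span ⟨β, by simp, rfl⟩))
    · intro η hη
      rw [mem_insert] at hη
      rw [lp.coeFn_add, Pi.add_apply, lp.coeFn_smul, Pi.smul_apply, smul_eq_mul, yy_apply]
      rcases hη with rfl | hη
      · rw [M_self]; ring
      · rw [M_zero η β (hmax η hη) (by rintro rfl; exact hβ hη), mul_zero, add_zero]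
        exact hxv η hη

/-- Restriction to `A` as a linear map. -/
def restr (A : Finset Idx) : Submodule.span ℝ (yy '' (A : Set Idx)) →ₗ[ℝ] (A → ℝ) where
  toFun x := fun η => ((x : L) : Idx → ℝ) η
  map_add' x y := by ext η; simp
  map_smul' r x := by ext η; simp

lemma restr_bijective (A : Finset Idx) : Function.Bijective (restr A) := by
  constructor
  · intro x x' h
    apply Subtype.ext
    exact eq_of_values x.2 x'.2 fun η hη => congrFun h ⟨η, hη⟩
  · intro v
    classical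
    obtain ⟨x, hx, hv⟩ := interpolate A (fun η => if h : η ∈ A then v ⟨η, h⟩ else 0)
    refine ⟨⟨x, hx⟩, ?_⟩
    ext η
    have := hv η η.2
    rw [dif_pos η.2] at this
    exact this

/-- The linear isomorphism. -/
def eA (A : Finset Idx) : (A → ℝ) ≃ₗ[ℝ] Submodule.span ℝ (yy '' (A : Set Idx)) :=
  (LinearEquiv.ofBijective (restr A) (restr_bijective A)).symm

lemma eA_apply (A : Finset Idx) (v : A → ℝ) (η : A) :
    ((eA A v : L) : Idx → ℝ) η = v η := by
  have : restr A (eA A v) = v :=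
    (LinearEquiv.ofBijective (restr A) (restr_bijective A)).apply_symm_apply v
  exact congrFun this η

lemma eA_eq (A : Finset Idx) (v : A → ℝ) {x : L}
    (hx : x ∈ Submodule.span ℝ (yy '' (A : Set Idx))) (h : ∀ η : A, (x : Idx → ℝ) η = v η) :
    (eA A v : L) = x := by
  apply eq_of_values (eA A v).2 hx
  intro η hη
  rw [h ⟨η, hη⟩]
  exact eA_apply A v ⟨η, hη⟩

/-- Evaluation at an index is a bounded functional. -/
def ev (δ : Idx) : L →ₗ[ℝ] ℝ where
  toFun x := (x : Idx → ℝ) δ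
  map_add' x y := by simp
  map_smul' r x := by simp

lemma ev_apply (δ : Idx) (x : L) : ev δ x = (x : Idx → ℝ) δ := rfl

variable {Y : Type*} [NormedAddCommGroup Y] [NormedSpace ℝ Y]

/-- Extension of coordinates. -/
lemma exists_coord {X : Submodule ℝ Y} (f : X →ₗ[ℝ] L) {C : ℝ} (hC : 0 ≤ C)
    (hf : ∀ x, ‖f x‖ ≤ C * ‖x‖) (η : Idx) :
    ∃ F : StrongDual ℝ Y, ‖F‖ ≤ C ∧ ∀ x : X, F x = (f x : Idx → ℝ) η := by
  let ψ : StrongDual ℝ X := ((ev η).comp f).mkContinuous C (fun x => by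
    rw [Real.norm_eq_abs, LinearMap.comp_apply, ev_apply]
    exact (abs_apply_le _ _).trans (hf x))
  obtain ⟨F, hF1, hF2⟩ := exists_extension_norm_eq X ψ
  refine ⟨F, ?_, fun x => ?_⟩
  · rw [hF2]
    exact LinearMap.mkContinuous_norm_le _ hC _
  · rw [hF1]; rfl

/-- Representation of functionals by coordinates. -/
lemma exists_repr {X : Submodule ℝ Y} {A : Finset Idx} (f : X →ₗ[ℝ] L)
    (hfA : ∀ x, f x ∈ Submodule.span ℝ (yy '' (A : Set Idx))) {c : ℝ} (hc : 0 < c)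
    (hf : ∀ x, c * ‖x‖ ≤ ‖f x‖) (φ : StrongDual ℝ Y) (hφ : ‖φ‖ ≤ 1) :
    ∃ a : A → ℝ, ∑ η, |a η| ≤ 1 ∧ ∀ x : X, c * φ x = ∑ η, a η * (f x : Idx → ℝ) η := by
  let r : X →ₗ[ℝ] (A → ℝ) :=
    { toFun := fun x η => (f x : Idx → ℝ) η
      map_add' := fun x y => by ext η; simp
      map_smul' := fun s x => by ext η; simp }
  have hr : ∀ x, c * ‖x‖ ≤ ‖r x‖ := by
    intro x
    refine (hf x).trans ?_
    apply norm_le_of_values (hfA x) (norm_nonneg _)
    intro η hη
    rw [← Real.norm_eq_abs]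
    exact norm_le_pi_norm (r x) ⟨η, hη⟩
  have hinj : Function.Injective r := by
    rw [injective_iff_map_eq_zero]
    intro x hx
    have h1 := hr x
    rw [hx, norm_zero] at h1
    have h2 : ‖x‖ ≤ 0 := by
      by_contra hlt
      push Not at hlt
      nlinarith
    exact norm_le_zero_iff.1 h2
  let e := LinearEquiv.ofInjective r hinj
  let ψ₀ : LinearMap.range r →ₗ[ℝ] ℝ := (φ.toLinearMap.comp X.subtype).comp e.symm.toLinearMap
  have hψ₀ : ∀ z, ‖ψ₀ z‖ ≤ c⁻¹ * ‖z‖ := by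
    intro z
    obtain ⟨x, rfl⟩ := e.surjective z
    have h1 : ψ₀ (e x) = φ x := by
      change φ ((e.symm (e x) : X) : Y) = φ x
      rw [LinearEquiv.symm_apply_apply]
    rw [h1]
    have h2 : ‖e x‖ = ‖r x‖ := rfl
    rw [h2]
    have h3 : ‖φ x‖ ≤ ‖(x : Y)‖ := by
      refine (φ.le_opNorm _).trans ?_
      exact mul_le_of_le_one_left (norm_nonneg _) hφ
    have h4 : ‖x‖ ≤ c⁻¹ * ‖r x‖ := by
      rw [le_inv_mul_iff₀ hc]
      exact hr x
    exact h3.trans h4
  let ψ : StrongDual ℝ (LinearMap.range r) := ψ₀.mkContinuous c⁻¹ hψ₀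
  obtain ⟨Ψ, hΨ1, hΨ2⟩ := exists_extension_norm_eq (LinearMap.range r) ψ
  have hΨ : ‖Ψ‖ ≤ c⁻¹ := by
    rw [hΨ2]
    exact LinearMap.mkContinuous_norm_le _ (inv_pos.2 hc).le _
  classical
  have hexp : ∀ v : A → ℝ, Ψ v = ∑ η, v η * Ψ (Pi.single η 1) := by
    intro v
    conv_lhs => rw [← Finset.univ_sum_single v]
    rw [map_sum]
    apply sum_congr rfl
    intro η _
    have : (Pi.single η (v η) : A → ℝ) = v η • Pi.single η 1 := by
      rw [← Pi.single_smul]; simp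
    rw [this, map_smul, smul_eq_mul]
  refine ⟨fun η => c * Ψ (Pi.single η 1), ?_, fun x => ?_⟩
  · have h1 : ∑ η, |c * Ψ (Pi.single η 1)| = c * Ψ (fun η => SignType.sign (Ψ (Pi.single η 1))) := by
      rw [hexp, mul_sum]
      apply sum_congr rfl
      intro η _
      rw [abs_mul, abs_of_pos hc, sign_mul_self]
    rw [h1]
    have h2 : ‖(fun η => ((SignType.sign (Ψ (Pi.single η 1)) : SignType) : ℝ) : A → ℝ)‖ ≤ 1 := by
      rw [pi_norm_le_iff_of_nonneg zero_le_one]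
      intro η
      rw [Real.norm_eq_abs]
      rcases SignType.trichotomy (SignType.sign (Ψ (Pi.single η (1:ℝ)))) with h | h | h <;>
        rw [h] <;> simp
    have h3 := Ψ.le_opNorm (fun η => ((SignType.sign (Ψ (Pi.single η 1)) : SignType) : ℝ))
    have h4 : Ψ (fun η => ((SignType.sign (Ψ (Pi.single η 1)) : SignType) : ℝ)) ≤ c⁻¹ := by
      refine (le_abs_self _).trans (h3.trans ?_)
      calc ‖Ψ‖ * _ ≤ c⁻¹ * 1 := mul_le_mul hΨ h2 (norm_nonneg _) (inv_pos.2 hc).le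
        _ = c⁻¹ := mul_one _
    calc c * Ψ _ ≤ c * c⁻¹ := mul_le_mul_of_nonneg_left h4 hc.le
      _ = 1 := mul_inv_cancel₀ hc.ne'
  · have h1 : Ψ (r x) = φ x := by
      have := hΨ1 (e x)
      have h2 : ψ (e x) = φ x := by
        change φ ((e.symm (e x) : X) : Y) = φ x
        rw [LinearEquiv.symm_apply_apply]
      rw [h2] at this
      exact this
    rw [← h1, hexp, mul_sum]
    apply sum_congr rfl
    intro η _
    change c * ((f x : Idx → ℝ) η * _) = _
    ring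

/-- A finite norming family. -/
lemma exists_net [FiniteDimensional ℝ Y] {δ : ℝ} (hδ : 0 < δ) :
    ∃ (N : ℕ) (φ : Fin N → StrongDual ℝ Y), (∀ i, ‖φ i‖ ≤ 1) ∧
      ∀ y : Y, y ≠ 0 → ∃ i, (1 - δ) * ‖y‖ ≤ φ i y := by
  have hcomp : IsCompact (Metric.sphere (0 : Y) 1) := isCompact_sphere 0 1
  obtain ⟨t, ht, htf, htc⟩ := hcomp.finite_cover_balls hδ
  have : ∀ z : Y, ∃ φ : StrongDual ℝ Y, ‖φ‖ ≤ 1 ∧ φ z = ‖z‖ := by
    intro z
    by_cases hz : z = 0
    · exact ⟨0, by simp, by simp [hz]⟩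
    · obtain ⟨φ, h1, h2⟩ := exists_dual_vector ℝ z (norm_ne_zero_iff.2 hz)
      exact ⟨φ, h1.le, h2⟩
  choose φ hφ1 hφ2 using this
  obtain ⟨N, z, hz⟩ : ∃ (N : ℕ) (z : Fin N → Y), Set.range z = t := by
    have := htf.to_subtype
    have hft : Fintype t := Fintype.ofFinite t
    refine ⟨Fintype.card t, fun i => ((Fintype.equivFin t).symm i : Y), ?_⟩
    ext w
    constructor
    · rintro ⟨i, rfl⟩
      exact ((Fintype.equivFin t).symm i).2
    · intro hw
      exact ⟨Fintype.equivFin t ⟨w, hw⟩, by simp⟩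
  refine ⟨N, fun i => φ (z i), fun i => hφ1 _, fun y hy => ?_⟩
  have hy0 : 0 < ‖y‖ := norm_pos_iff.2 hy
  have hmem : ‖y‖⁻¹ • y ∈ Metric.sphere (0 : Y) 1 := by
    rw [mem_sphere_zero_iff_norm, norm_smul, norm_inv, norm_norm, inv_mul_cancel₀ hy0.ne']
  have hcov := htc hmem
  simp only [Set.mem_iUnion, exists_prop] at hcov
  obtain ⟨w, hw, hwb⟩ := hcov
  rw [← hz] at hw
  obtain ⟨i, rfl⟩ := hw
  refine ⟨i, ?_⟩
  have hzi : ‖z i‖ = 1 := by
    have : z i ∈ t := by rw [← hz]; exact ⟨i, rfl⟩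
    have := ht this
    rwa [mem_sphere_zero_iff_norm] at this
  rw [Metric.mem_ball, dist_eq_norm] at hwb
  have h1 : φ (z i) (z i - ‖y‖⁻¹ • y) ≤ δ := by
    refine (le_abs_self _).trans (((φ (z i)).le_opNorm _).trans ?_)
    rw [norm_sub_rev]
    calc ‖φ (z i)‖ * ‖‖y‖⁻¹ • y - z i‖ ≤ 1 * δ :=
          mul_le_mul (hφ1 _) hwb.le (norm_nonneg _) zero_le_one
      _ = δ := one_mul _
  rw [map_sub, hφ2, hzi, map_smul, smul_eq_mul] at h1
  have h2 : 1 - δ ≤ ‖y‖⁻¹ * φ (z i) y := by linarith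
  rw [le_inv_mul_iff₀ hy0] at h2
  linarith

end

end Pool.Agent.X207.Gur
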