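import Mathlib

/-!
Lacunary cosine series with Taylor radius of convergence zero at every real point.
-/

open Filter Topology Finset

namespace Pool.Agent.X207.PSLac

noncomputable section

/-- growth target -/
def G (n : ℕ) : ℝ := ((3 * n + 1).factorial : ℝ) * (n + 1 : ℝ) ^ (3 * n + 1)

lemma G_nonneg (n : ℕ) : 0 ≤ G n := by unfold G; positivity

/-- growth factor -/
def V (n : ℕ) : ℝ := 2 * (n.factorial : ℝ) * (n + G n + 1)

lemma V_ge (n : ℕ) : 2 ≤ V n := by
  unfold V
  have h1 : (1 : ℝ) ≤ n.factorial := by exact_mod_cast Nat.one_le_iff_ne_zero.2 n.factorial_ne_zero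
  have h2 := G_nonneg n
  have h3 : (1 : ℝ) ≤ n + G n + 1 := by
    have : (0 : ℝ) ≤ n := n.cast_nonneg
    linarith
  nlinarith [mul_le_mul h1 h3 zero_le_one (by linarith)]

/-- the frequencies -/
def B : ℕ → ℝ
  | 0 => 2
  | n + 1 => B n ^ (3 * (n + 1) + 2) * V (n + 1)

lemma B_ge (n : ℕ) : (2 : ℝ) ^ (n + 1) ≤ B n := by
  induction n with
  | zero => simp [B]
  | succ n ih =>
    have h1 : (1 : ℝ) ≤ B n := le_trans (one_le_pow₀ (by norm_num)) ih
    have h2 : B n ≤ B n ^ (3 * (n + 1) + 2) := le_self_pow₀ h1 (by omega)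
    have h3 := V_ge (n + 1)
    have h4 : (0 : ℝ) ≤ B n := by linarith
    calc (2 : ℝ) ^ (n + 1 + 1) = 2 ^ (n + 1) * 2 := by ring
      _ ≤ B n * V (n + 1) := mul_le_mul ih h3 (by norm_num) h4
      _ ≤ B n ^ (3 * (n + 1) + 2) * V (n + 1) := mul_le_mul_of_nonneg_right h2 (by linarith)
      _ = B (n + 1) := rfl

lemma B_ge_one (n : ℕ) : 1 ≤ B n := le_trans (one_le_pow₀ (by norm_num)) (B_ge n)

lemma B_pos (n : ℕ) : 0 < B n := lt_of_lt_of_le one_pos (B_ge_one n)

lemma B_mono : Monotone B := by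
  apply monotone_nat_of_le_succ
  intro n
  have h1 := B_ge_one n
  have h2 : B n ≤ B n ^ (3 * (n + 1) + 2) := le_self_pow₀ h1 (by omega)
  have h3 := V_ge (n + 1)
  calc B n ≤ B n ^ (3 * (n + 1) + 2) * 1 := by rw [mul_one]; exact h2
    _ ≤ B n ^ (3 * (n + 1) + 2) * V (n + 1) := mul_le_mul_of_nonneg_left (by linarith)
        (by positivity)
    _ = B (n + 1) := rfl

/-- the amplitudes `B_n ^ (1 - 3 n)` -/
def c (n : ℕ) : ℝ := B n * (B n ^ (3 * n))⁻¹

lemma c_pos (n : ℕ) : 0 < c n := mul_pos (B_pos n) (inv_pos.2 (pow_pos (B_pos n) _))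

lemma c_mul_pow (n : ℕ) : c n * B n ^ (3 * n) = B n := by
  unfold c
  rw [mul_assoc, inv_mul_cancel₀ (pow_pos (B_pos n) _).ne', mul_one]

/-- low index bound -/
lemma c_low (m k : ℕ) : c m * B m ^ k ≤ B m ^ (k + 1) := by
  unfold c
  have h1 : (B m ^ (3 * m))⁻¹ ≤ 1 := inv_le_one_of_one_le₀ (one_le_pow₀ (B_ge_one m))
  have h2 := B_pos m
  calc B m * (B m ^ (3 * m))⁻¹ * B m ^ k ≤ B m * 1 * B m ^ k := by gcongr
    _ = B m ^ (k + 1) := by ring

/-- high index bound -/
lemma c_high {m k : ℕ} (h : k + 2 ≤ 3 * m) : c m * B m ^ k ≤ (1 / 2) ^ (m + 1) := by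
  have h0 := B_pos m
  have h1 : c m * B m ^ k * B m ≤ 1 := by
    have e : c m * B m ^ k * B m = B m ^ (k + 2) * (B m ^ (3 * m))⁻¹ := by
      unfold c; ring
    rw [e, mul_inv_le_iff₀ (pow_pos h0 _), one_mul]
    exact pow_le_pow_right₀ (B_ge_one m) h
  have h2 : c m * B m ^ k ≤ 1 / B m := by rwa [le_div_iff₀ h0]
  refine h2.trans ?_
  rw [one_div_pow]
  exact one_div_le_one_div_of_le (by positivity) (B_ge m)

lemma summable_c (k : ℕ) : Summable fun m => c m * B m ^ k := by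
  have hg : Summable fun m : ℕ => (1 / 2 : ℝ) ^ (m + 1) :=
    (summable_geometric_of_lt_one (by norm_num) (by norm_num)).comp_injective
      (add_left_injective 1)
  refine Summable.of_norm_bounded_eventually_nat hg ?_
  filter_upwards [eventually_ge_atTop (k + 1)] with m hm
  rw [Real.norm_of_nonneg (mul_pos (c_pos m) (pow_pos (B_pos m) k)).le]
  exact c_high (by omega)

/-- the terms -/
def term (α : ℕ → ℝ) (m : ℕ) (x : ℝ) : ℝ := α m * c m * Real.cos (B m * x)

lemma iteratedDeriv_term (α : ℕ → ℝ) (m k : ℕ) (x : ℝ) :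
    iteratedDeriv k (term α m) x =
      α m * (c m * B m ^ k) * iteratedDeriv k Real.cos (B m * x) := by
  unfold term
  rw [iteratedDeriv_const_mul_field, iteratedDeriv_comp_const_mul Real.contDiff_cos]
  ring

lemma contDiff_term (α : ℕ → ℝ) (m : ℕ) : ContDiff ℝ (⊤ : ℕ∞) (term α m) := by
  unfold term
  exact contDiff_const.mul (Real.contDiff_cos.comp (contDiff_const.mul contDiff_id))

lemma abs_iteratedDeriv_term {α : ℕ → ℝ} {A : ℝ} (hA : ∀ m, |α m| ≤ A) (m k : ℕ) (x : ℝ) :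
    |iteratedDeriv k (term α m) x| ≤ A * (c m * B m ^ k) := by
  rw [iteratedDeriv_term, abs_mul, abs_mul, abs_of_pos (mul_pos (c_pos m) (pow_pos (B_pos m) k))]
  have h1 := Real.abs_iteratedDeriv_cos_le_one k (B m * x)
  have h2 := hA m
  have h3 := (mul_pos (c_pos m) (pow_pos (B_pos m) k)).le
  calc |α m| * (c m * B m ^ k) * |iteratedDeriv k Real.cos (B m * x)|
      ≤ |α m| * (c m * B m ^ k) * 1 := mul_le_mul_of_nonneg_left h1 (by positivity)
    _ ≤ A * (c m * B m ^ k) := by rw [mul_one]; exact mul_le_mul_of_nonneg_right h2 h3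

/-- the sum -/
def H (α : ℕ → ℝ) (x : ℝ) : ℝ := ∑' m, term α m x

lemma norm_iteratedFDeriv_term {α : ℕ → ℝ} {A : ℝ} (hA : ∀ m, |α m| ≤ A) (m k : ℕ) (x : ℝ) :
    ‖iteratedFDeriv ℝ k (term α m) x‖ ≤ A * (c m * B m ^ k) := by
  rw [norm_iteratedFDeriv_eq_norm_iteratedDeriv, Real.norm_eq_abs]
  exact abs_iteratedDeriv_term hA m k x

lemma contDiff_H {α : ℕ → ℝ} {A : ℝ} (hA : ∀ m, |α m| ≤ A) : ContDiff ℝ (⊤ : ℕ∞) (H α) := by
  unfold H
  exact contDiff_tsum (N := (⊤ : ℕ∞)) (v := fun k m => A * (c m * B m ^ k)) (contDiff_term α)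
    (fun k _ => (summable_c k).mul_left A) (fun k m x _ => norm_iteratedFDeriv_term hA m k x)

lemma summable_iter {α : ℕ → ℝ} {A : ℝ} (hA : ∀ m, |α m| ≤ A) (k : ℕ) (x : ℝ) :
    Summable fun m => iteratedDeriv k (term α m) x :=
  Summable.of_norm_bounded (g := fun m => A * (c m * B m ^ k)) ((summable_c k).mul_left A)
    fun m => by rw [Real.norm_eq_abs]; exact abs_iteratedDeriv_term hA m k x

lemma iteratedDeriv_H {α : ℕ → ℝ} {A : ℝ} (hA : ∀ m, |α m| ≤ A) (k : ℕ) (x : ℝ) :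
    iteratedDeriv k (H α) x = ∑' m, iteratedDeriv k (term α m) x := by
  have h1 := iteratedFDeriv_tsum_apply (N := (⊤ : ℕ∞)) (v := fun k m => A * (c m * B m ^ k))
    (contDiff_term α) (fun k _ => (summable_c k).mul_left A)
    (fun k m x _ => norm_iteratedFDeriv_term hA m k x) (k := k) (by exact_mod_cast le_top) x
  have hs : Summable fun m => iteratedFDeriv ℝ k (term α m) x :=
    Summable.of_norm_bounded (g := fun m => A * (c m * B m ^ k)) ((summable_c k).mul_left A)
      fun m => norm_iteratedFDeriv_term hA m k x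
  unfold H
  rw [iteratedDeriv_eq_iteratedFDeriv, h1]
  have h2 := (ContinuousMultilinearMap.apply ℝ (fun _ : Fin k => ℝ) ℝ (fun _ => 1)).map_tsum hs
  simp only [ContinuousMultilinearMap.apply_apply] at h2
  rw [h2]
  rfl

lemma sq_add_sq (k : ℕ) (y : ℝ) :
    iteratedDeriv k Real.cos y ^ 2 + iteratedDeriv (k + 1) Real.cos y ^ 2 = 1 := by
  induction k with
  | zero => simp [Real.cos_sq_add_sin_sq]
  | succ k ih =>
    have h : iteratedDeriv (k + 1 + 1) Real.cos y = - iteratedDeriv k Real.cos y := by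
      rw [Real.iteratedDeriv_add_one_cos, Pi.neg_apply, Real.iteratedDeriv_add_one_sin]
    rw [h]
    linarith

/-- The key lower bound. -/
lemma lower {α : ℕ → ℝ} {A : ℝ} (hA : ∀ m, |α m| ≤ A) {n : ℕ} (hn : 1 ≤ n) (x : ℝ) :
    ∃ k, (k = 3 * n ∨ k = 3 * n + 1) ∧
      |α n| * B n / 2 - A * (n * B (n - 1) ^ (3 * n + 2)) - A ≤ |iteratedDeriv k (H α) x| := by
  have hA0 : 0 ≤ A := (abs_nonneg _).trans (hA 0)
  obtain ⟨k, hk, hcos⟩ : ∃ k, (k = 3 * n ∨ k = 3 * n + 1) ∧
      1 / 2 ≤ |iteratedDeriv k Real.cos (B n * x)| := by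
    by_contra hno
    push Not at hno
    have h1 := hno (3 * n) (Or.inl rfl)
    have h2 := hno (3 * n + 1) (Or.inr rfl)
    have h3 := sq_add_sq (3 * n) (B n * x)
    rw [← sq_abs, ← sq_abs (iteratedDeriv (3 * n + 1) Real.cos (B n * x))] at h3
    nlinarith [abs_nonneg (iteratedDeriv (3 * n) Real.cos (B n * x)),
      abs_nonneg (iteratedDeriv (3 * n + 1) Real.cos (B n * x))]
  refine ⟨k, hk, ?_⟩
  have hk1 : 3 * n ≤ k := by omega
  have hk2 : k ≤ 3 * n + 1 := by omega
  rw [iteratedDeriv_H hA]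
  have hs := summable_iter hA k x
  have hsplit : ∑' m, iteratedDeriv k (term α m) x =
      (∑ m ∈ range n, iteratedDeriv k (term α m) x) + iteratedDeriv k (term α n) x +
        ∑' m, iteratedDeriv k (term α (m + (n + 1))) x := by
    rw [← hs.sum_add_tsum_nat_add (n + 1), sum_range_succ]
  have hmain : |α n| * B n / 2 ≤ |iteratedDeriv k (term α n) x| := by
    rw [iteratedDeriv_term, abs_mul, abs_mul,
      abs_of_pos (mul_pos (c_pos n) (pow_pos (B_pos n) k))]
    have h1 : B n ≤ c n * B n ^ k := by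
      calc B n = c n * B n ^ (3 * n) := (c_mul_pow n).symm
        _ ≤ c n * B n ^ k := mul_le_mul_of_nonneg_left (pow_le_pow_right₀ (B_ge_one n) hk1)
            (c_pos n).le
    calc |α n| * B n / 2 = |α n| * B n * (1 / 2) := by ring
      _ ≤ |α n| * (c n * B n ^ k) * |iteratedDeriv k Real.cos (B n * x)| := by
          apply mul_le_mul (mul_le_mul_of_nonneg_left h1 (abs_nonneg _)) hcos (by norm_num)
          have := c_pos n
          have := B_pos n
          positivity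
  have hlow : |∑ m ∈ range n, iteratedDeriv k (term α m) x| ≤
      A * (n * B (n - 1) ^ (3 * n + 2)) := by
    calc |∑ m ∈ range n, iteratedDeriv k (term α m) x|
        ≤ ∑ m ∈ range n, |iteratedDeriv k (term α m) x| := abs_sum_le_sum_abs _ _
      _ ≤ ∑ m ∈ range n, A * B (n - 1) ^ (3 * n + 2) := by
          apply sum_le_sum
          intro m hm
          rw [mem_range] at hm
          refine (abs_iteratedDeriv_term hA m k x).trans ?_
          apply mul_le_mul_of_nonneg_left _ hA0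
          refine (c_low m k).trans ?_
          calc B m ^ (k + 1) ≤ B (n - 1) ^ (k + 1) :=
                pow_le_pow_left₀ (B_pos m).le (B_mono (by omega)) _
            _ ≤ B (n - 1) ^ (3 * n + 2) := pow_le_pow_right₀ (B_ge_one _) (by omega)
      _ = A * (n * B (n - 1) ^ (3 * n + 2)) := by
          rw [sum_const, card_range, nsmul_eq_mul]; ring
  have hhigh : |∑' m, iteratedDeriv k (term α (m + (n + 1))) x| ≤ A := by
    have hg : HasSum (fun m : ℕ => A * ((1 / 2 : ℝ) / 2 ^ m)) (A * 1) :=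
      (hasSum_geometric_two' 1).mul_left A
    rw [← mul_one A, ← hg.tsum_eq, ← Real.norm_eq_abs]
    apply tsum_of_norm_bounded hg.summable.hasSum
    intro m
    rw [Real.norm_eq_abs]
    refine (abs_iteratedDeriv_term hA _ k x).trans ?_
    apply mul_le_mul_of_nonneg_left _ hA0
    refine (c_high (by omega)).trans ?_
    calc (1 / 2 : ℝ) ^ (m + (n + 1) + 1) ≤ (1 / 2 : ℝ) ^ (m + 1) :=
          pow_le_pow_of_le_one (by norm_num) (by norm_num) (by omega)
      _ = 1 / 2 / 2 ^ m := by rw [pow_succ, one_div_pow]; ring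
  rw [hsplit]
  set a := ∑ m ∈ range n, iteratedDeriv k (term α m) x
  set b := iteratedDeriv k (term α n) x
  set d := ∑' m, iteratedDeriv k (term α (m + (n + 1))) x
  have h1 : |b| ≤ |a + b + d| + |a| + |d| := by
    have e : b = (a + b + d) - a - d := by ring
    calc |b| = |(a + b + d) - a - d| := by rw [← e]
      _ ≤ |(a + b + d) - a| + |d| := abs_sub _ _
      _ ≤ |a + b + d| + |a| + |d| := by
          have := abs_sub (a + b + d) a
          linarith
  linarith

/-- If the coefficients decay at most geometrically, some derivative of order `3n` or `3n+1` is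
huge, for all large `n`. -/
lemma huge {α : ℕ → ℝ} {A a t : ℝ} (hA : ∀ m, |α m| ≤ A) (ha : 0 < a) (ht : 0 < t)
    (hlow : ∀ᶠ n in atTop, a * t ^ n ≤ |α n|) :
    ∀ᶠ n in atTop, ∀ x : ℝ, ∃ k, (k = 3 * n ∨ k = 3 * n + 1) ∧
      G n ≤ |iteratedDeriv k (H α) x| := by
  have hA0 : 0 ≤ A := (abs_nonneg _).trans (hA 0)
  have hfac : ∀ᶠ n : ℕ in atTop, A + 1 ≤ a * t ^ n * n.factorial := by
    have h1 : Tendsto (fun n : ℕ => (1 / t) ^ n / n.factorial) atTop (𝓝 0) :=
      FloorSemiring.tendsto_pow_div_factorial_atTop (1 / t)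
    have h2 : ∀ᶠ n : ℕ in atTop, (1 / t) ^ n / n.factorial < a / (A + 1) :=
      h1.eventually (gt_mem_nhds (by positivity))
    filter_upwards [h2] with n hn
    rw [div_lt_div_iff₀ (by positivity) (by positivity), one_div_pow, one_div,
      inv_mul_lt_iff₀ (by positivity)] at hn
    linarith
  filter_upwards [hlow, hfac, eventually_ge_atTop 1] with n h1 h2 h3 x
  obtain ⟨k, hk, hle⟩ := lower hA h3 x
  refine ⟨k, hk, le_trans ?_ hle⟩
  obtain ⟨m, rfl⟩ : ∃ m, n = m + 1 := ⟨n - 1, by omega⟩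
  have hB : B (m + 1) = B m ^ (3 * (m + 1) + 2) * V (m + 1) := rfl
  rw [Nat.add_sub_cancel]
  set P := B m ^ (3 * (m + 1) + 2) with hP
  have hP1 : 1 ≤ P := one_le_pow₀ (B_ge_one m)
  have hG := G_nonneg (m + 1)
  have hV : V (m + 1) = 2 * ((m + 1).factorial : ℝ) * (((m + 1 : ℕ) : ℝ) + G (m + 1) + 1) := rfl
  have h4 : a * t ^ (m + 1) * B (m + 1) / 2 ≤ |α (m + 1)| * B (m + 1) / 2 := by
    have := mul_le_mul_of_nonneg_right h1 (B_pos (m + 1)).le
    linarith
  set q : ℝ := ((m + 1 : ℕ) : ℝ) with hq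
  have hq0 : 0 ≤ q := Nat.cast_nonneg _
  have h5 : a * t ^ (m + 1) * B (m + 1) / 2 =
      (a * t ^ (m + 1) * ((m + 1).factorial : ℝ)) * (P * (q + G (m + 1) + 1)) := by
    rw [hB, hV]; ring
  have h6 : (A + 1) * (P * (q + G (m + 1) + 1)) ≤
      (a * t ^ (m + 1) * ((m + 1).factorial : ℝ)) * (P * (q + G (m + 1) + 1)) :=
    mul_le_mul_of_nonneg_right h2 (by positivity)
  have h7 : A * (q * P) + A + G (m + 1) ≤ (A + 1) * (P * (q + G (m + 1) + 1)) := by
    have e : (A + 1) * (P * (q + G (m + 1) + 1)) =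
      A * (q * P) + A * (P * G (m + 1)) + A * P + P * q + P * G (m + 1) + P := by ring
    rw [e]
    have i1 : A ≤ A * P := le_mul_of_one_le_right hA0 hP1
    have i2 : G (m + 1) ≤ P * G (m + 1) := le_mul_of_one_le_left hG hP1
    have i3 : 0 ≤ A * (P * G (m + 1)) := by positivity
    have i4 : 0 ≤ P * q := by positivity
    linarith
  linarith

/-- Finite combinations of geometric sequences with distinct ratios decay at most
geometrically. -/
lemma geometric_lower (s : Finset ℝ) (hs : ∀ t ∈ s, 0 < t ∧ t < 1) (a : ℝ → ℝ)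
    (hne : ∃ t ∈ s, a t ≠ 0) : ∃ b t : ℝ, 0 < b ∧ 0 < t ∧
      ∀ᶠ n : ℕ in atTop, b * t ^ n ≤ |∑ u ∈ s, a u * u ^ n| := by
  classical
  set s' := s.filter (fun t => a t ≠ 0) with hs'
  have hne' : s'.Nonempty := by
    obtain ⟨t, ht, hat⟩ := hne
    exact ⟨t, by rw [hs', mem_filter]; exact ⟨ht, hat⟩⟩
  set t := s'.max' hne' with htdef
  have htm : t ∈ s' := s'.max'_mem hne'
  have htm' := htm
  rw [hs', mem_filter] at htm'
  have ht0 : 0 < t := (hs t htm'.1).1
  have hat : 0 < |a t| := abs_pos.2 htm'.2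
  refine ⟨|a t| / 2, t, by positivity, ht0, ?_⟩
  have hlim : Tendsto (fun n : ℕ => ∑ u ∈ s, a u * (u / t) ^ n) atTop
      (𝓝 (∑ u ∈ s, if u = t then a t else 0)) := by
    apply tendsto_finsetSum
    intro u hu
    by_cases hut : u = t
    · subst hut
      simp [div_self ht0.ne']
    · rw [if_neg hut]
      by_cases hau : a u = 0
      · simp [hau]
      · have hu' : u ∈ s' := by rw [hs', mem_filter]; exact ⟨hu, hau⟩
        have hlt : u < t := lt_of_le_of_ne (s'.le_max' u hu') hut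
        have h0 : Tendsto (fun n : ℕ => (u / t) ^ n) atTop (𝓝 0) :=
          tendsto_pow_atTop_nhds_zero_of_lt_one (div_nonneg (hs u hu).1.le ht0.le)
            ((div_lt_one ht0).2 hlt)
        simpa using h0.const_mul (a u)
  rw [sum_ite_eq' s t (fun _ => a t), if_pos htm'.1] at hlim
  have h1 : ∀ᶠ n : ℕ in atTop, |a t| / 2 < |∑ u ∈ s, a u * (u / t) ^ n| :=
    hlim.abs.eventually (lt_mem_nhds (by linarith))
  filter_upwards [h1] with n hn
  have e : ∑ u ∈ s, a u * u ^ n = t ^ n * ∑ u ∈ s, a u * (u / t) ^ n := by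
    rw [mul_sum]
    apply sum_congr rfl
    intro u _
    rw [div_pow]
    field_simp
  rw [e, abs_mul, abs_of_pos (pow_pos ht0 n), mul_comm]
  exact mul_le_mul_of_nonneg_left hn.le (pow_pos ht0 n).le

end

end Pool.Agent.X207.PSLac
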