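import Pool.Agent.X207.RBThm
import Pool.Agent.H136R3.WA.Rep

/-!
# The Borel functional calculus of a continuous functional calculus on a reflexive space
-/

set_option autoImplicit false

namespace Pool.Agent.X207.RB

open MeasureTheory Set Metric Filter Topology
open scoped ENNReal NNReal ComplexConjugate

/-! ### approximation -/

/-- truncation to a ball -/
noncomputable def trc (M : ℝ) (z : ℂ) : ℂ := ((M / max M ‖z‖ : ℝ) : ℂ) * z

lemma trc_cont {M : ℝ} (hM : 0 < M) : Continuous (trc M) := by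
  unfold trc
  refine (Complex.continuous_ofReal.comp ?_).mul continuous_id
  refine continuous_const.div (continuous_const.max continuous_norm) fun z => ?_
  have : M ≤ max M ‖z‖ := le_max_left _ _
  linarith

lemma trc_norm {M : ℝ} (hM : 0 < M) (z : ℂ) : ‖trc M z‖ ≤ M := by
  unfold trc
  have h1 : 0 < max M ‖z‖ := hM.trans_le (le_max_left _ _)
  rw [norm_mul, Complex.norm_real, Real.norm_eq_abs, abs_of_pos (div_pos hM h1), div_mul_eq_mul_div,
    div_le_iff₀ h1]
  exact mul_le_mul_of_nonneg_left (le_max_right _ _) hM.le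

lemma trc_eq {M : ℝ} (hM : 0 < M) {z : ℂ} (hz : ‖z‖ ≤ M) : trc M z = z := by
  unfold trc
  rw [max_eq_left hz, div_self hM.ne', Complex.ofReal_one, one_mul]

lemma approx (μ : Measure ℂ) [IsFiniteMeasure μ] {f : ℂ → ℂ} {M : ℝ} (hf : Measurable f)
    (hM : ∀ z, ‖f z‖ ≤ M) : ∃ h : ℕ → ℂ → ℂ, (∀ n, Continuous (h n)) ∧ (∀ n z, ‖h n z‖ ≤ M) ∧
      ∀ᵐ z ∂μ, Tendsto (fun n => h n z) atTop (𝓝 (f z)) := by
  rcases le_or_gt M 0 with h0 | h0
  · have h1 : ∀ z, f z = 0 := fun z => norm_le_zero_iff.1 ((hM z).trans h0)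
    refine ⟨fun _ _ => 0, fun _ => continuous_const, fun n z => ?_, ae_of_all _ fun z => ?_⟩
    · rw [norm_zero]
      exact (norm_nonneg (f z)).trans (hM z)
    · rw [h1 z]
      exact tendsto_const_nhds
  have hmem : MemLp f 1 μ := MemLp.of_bound hf.aestronglyMeasurable M (ae_of_all _ hM)
  have h1 : ∀ n : ℕ, ∃ g : BoundedContinuousFunction ℂ ℂ,
      eLpNorm (f - (g : ℂ → ℂ)) 1 μ ≤ (n + 1 : ℝ≥0∞)⁻¹ := fun n => by
    obtain ⟨g, hg, -⟩ := hmem.exists_boundedContinuous_eLpNorm_sub_le ENNReal.one_ne_top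
      (ε := (n + 1 : ℝ≥0∞)⁻¹) (by simp)
    exact ⟨g, hg⟩
  choose g hg using h1
  have h2 : Tendsto (fun n => eLpNorm ((g n : ℂ → ℂ) - f) 1 μ) atTop (𝓝 0) := by
    have h3 : Tendsto (fun n : ℕ => (n + 1 : ℝ≥0∞)⁻¹) atTop (𝓝 0) := by
      have := ENNReal.tendsto_inv_nat_nhds_zero.comp (tendsto_add_atTop_nat 1)
      refine this.congr fun n => ?_
      simp
    refine tendsto_of_tendsto_of_tendsto_of_le_of_le tendsto_const_nhds h3
      (fun _ => zero_le) fun n => ?_
    rw [eLpNorm_sub_comm]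
    exact hg n
  have h3 : TendstoInMeasure μ (fun n => (g n : ℂ → ℂ)) atTop f :=
    tendstoInMeasure_of_tendsto_eLpNorm one_ne_zero
      (fun n => (g n).continuous.aestronglyMeasurable) hf.aestronglyMeasurable h2
  obtain ⟨s, -, hs⟩ := h3.exists_seq_tendsto_ae
  refine ⟨fun n z => trc M (g (s n) z), fun n => (trc_cont h0).comp (g (s n)).continuous,
    fun n z => trc_norm h0 _, ?_⟩
  filter_upwards [hs] with z hz
  have := ((trc_cont h0).tendsto (f z)).comp hz
  rw [trc_eq h0 (hM z)] at this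
  exact this

lemma conv {m : Measure ℂ} [IsFiniteMeasure m] {θ : ℂ → ℂ} (hθ : Measurable θ)
    (hθ1 : ∀ z, ‖θ z‖ = 1) {f g : ℂ → ℂ} (hg : BB g) {h : ℕ → ℂ → ℂ} {M : ℝ}
    (hh : ∀ n, Continuous (h n)) (hb : ∀ n z, ‖h n z‖ ≤ M)
    (hl : ∀ᵐ z ∂m, Tendsto (fun n => h n z) atTop (𝓝 (f z))) :
    Tendsto (fun n => ∫ z, h n z * g z * θ z ∂m) atTop (𝓝 (∫ z, f z * g z * θ z ∂m)) := by
  obtain ⟨M', hM'⟩ := hg.bdd
  refine tendsto_integral_of_dominated_convergence (fun _ => M * M')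
    (fun n => (((hh n).measurable.mul hg.meas).mul hθ).aestronglyMeasurable)
    (integrable_const _) (fun n => ae_of_all _ fun z => ?_) ?_
  · rw [norm_mul, norm_mul, hθ1, mul_one]
    exact mul_le_mul (hb n z) (hM' z) (norm_nonneg _) ((norm_nonneg _).trans (hb n z))
  · filter_upwards [hl] with z hz
    exact (hz.mul_const _).mul_const _

lemma conv1 {m : Measure ℂ} [IsFiniteMeasure m] {θ : ℂ → ℂ} (hθ : Measurable θ)
    (hθ1 : ∀ z, ‖θ z‖ = 1) {f : ℂ → ℂ} {h : ℕ → ℂ → ℂ} {M : ℝ}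
    (hh : ∀ n, Continuous (h n)) (hb : ∀ n z, ‖h n z‖ ≤ M)
    (hl : ∀ᵐ z ∂m, Tendsto (fun n => h n z) atTop (𝓝 (f z))) :
    Tendsto (fun n => ∫ z, h n z * θ z ∂m) atTop (𝓝 (∫ z, f z * θ z ∂m)) := by
  have := conv hθ hθ1 (BB.const 1) hh hb hl
  simpa only [mul_one] using this

/-! ### representing measures -/

variable {X : Type} [NormedAddCommGroup X] [NormedSpace ℂ X]

/-- restriction of continuous functions to a compact set -/
def res (K : Set ℂ) (h : ℂ → ℂ) (hh : Continuous h) : C(K, ℂ) :=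
  ⟨fun z => h z, hh.comp continuous_subtype_val⟩

/-- representing measures for a continuous functional calculus -/
structure RK {K : Set ℂ} (Φ : C(K, ℂ) →ₐ[ℂ] (X →L[ℂ] X)) (w : StrongDual ℂ X) (x : X)
    (m : Measure ℂ) (θ : ℂ → ℂ) : Prop where
  fin : IsFiniteMeasure m
  meas : Measurable θ
  norm : ∀ z, ‖θ z‖ = 1
  off : m Kᶜ = 0
  eq : ∀ (h : ℂ → ℂ) (hh : Continuous h), w (Φ (res K h hh) x) = ∫ z, h z * θ z ∂m

lemma exists_RK {K : Set ℂ} (hK : IsCompact K) (Φ : C(K, ℂ) →ₐ[ℂ] (X →L[ℂ] X))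
    (hΦ : Continuous Φ) (w : StrongDual ℂ X) (x : X) :
    ∃ (m : Measure ℂ) (θ : ℂ → ℂ), RK Φ w x m θ := by
  let Ψ : StrongDual ℂ C(K, ℂ) :=
    { toFun := fun h => w (Φ h x)
      map_add' := fun h h' => by rw [map_add, add_apply, map_add]
      map_smul' := fun c h => by
        rw [map_smul, smul_apply, map_smul]
        rfl
      cont := by
        refine w.continuous.comp ?_
        exact (ContinuousLinearMap.apply ℂ X x).continuous.comp hΦ }
  obtain ⟨M, θ, hfin, hoff, hθ, hθ1, hrep⟩ := Pool.Agent.H136R3.WA.rep hK Ψ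
  set m : Measure ℂ := M.withDensity fun z => (‖θ z‖₊ : ℝ≥0∞) with hm
  set θ' : ℂ → ℂ := fun z => if θ z = 0 then 1 else θ z / (‖θ z‖ : ℂ) with hθ'
  have hθ'm : Measurable θ' := by
    refine Measurable.ite (hθ (measurableSet_singleton 0)) measurable_const ?_
    exact hθ.div (Complex.measurable_ofReal.comp hθ.norm)
  refine ⟨m, θ', ⟨?_, hθ'm, ?_, ?_, ?_⟩⟩
  · refine ⟨?_⟩
    rw [hm, withDensity_apply _ MeasurableSet.univ, Measure.restrict_univ]
    calc ∫⁻ z, (‖θ z‖₊ : ℝ≥0∞) ∂M ≤ ∫⁻ _, 1 ∂M := by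
          refine lintegral_mono fun z => ?_
          have h1 : ‖θ z‖₊ ≤ 1 := hθ1 z
          exact ENNReal.coe_le_one_iff.2 h1
      _ < ∞ := by
          rw [lintegral_one]
          exact measure_lt_top _ _
  · intro z
    simp only [hθ']
    split_ifs with h
    · exact norm_one
    · rw [norm_div, Complex.norm_real, norm_norm]
      exact div_self (norm_ne_zero_iff.2 h)
  · exact withDensity_absolutelyContinuous _ _ hoff
  · intro h hh
    have h1 := hrep h hh.continuousOn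
    have h2 : Ψ ⟨K.domRestrict h, hh.continuousOn.domRestrict⟩ = w (Φ (res K h hh) x) := rfl
    rw [← h2, h1, hm, integral_withDensity_eq_integral_smul hθ.nnnorm]
    refine integral_congr_ae (ae_of_all _ fun z => ?_)
    simp only [hθ', NNReal.smul_def, coe_nnnorm]
    split_ifs with h0
    · rw [h0, norm_zero, zero_smul, mul_zero]
    · have h3 : (‖θ z‖ : ℂ) ≠ 0 := by
        exact_mod_cast norm_ne_zero_iff.2 h0
      rw [Complex.real_smul]
      field_simp

lemma exists_bd {K : Set ℂ} (hK : IsCompact K) (Φ : C(K, ℂ) →ₐ[ℂ] (X →L[ℂ] X))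
    (hΦ : Continuous Φ) : ∃ C₀ : ℝ, 0 ≤ C₀ ∧ ∀ (h : ℂ → ℂ) (hh : Continuous h) (M : ℝ), 0 ≤ M →
      (∀ z, ‖h z‖ ≤ M) → ‖Φ (res K h hh)‖ ≤ C₀ * M := by
  have : CompactSpace K := isCompact_iff_compactSpace.1 hK
  let L : C(K, ℂ) →L[ℂ] (X →L[ℂ] X) := ⟨Φ.toLinearMap, hΦ⟩
  refine ⟨‖L‖, L.opNorm_nonneg, fun h hh M hM hb => ?_⟩
  have h1 : ‖res K h hh‖ ≤ M := (ContinuousMap.norm_le _ hM).2 fun z => hb z
  calc ‖Φ (res K h hh)‖ = ‖L (res K h hh)‖ := rfl
    _ ≤ ‖L‖ * ‖res K h hh‖ := L.le_opNorm _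
    _ ≤ ‖L‖ * M := mul_le_mul_of_nonneg_left h1 L.opNorm_nonneg

section
variable {K : Set ℂ} {Φ : C(K, ℂ) →ₐ[ℂ] (X →L[ℂ] X)}

/-- three functionals: linear relations pass from continuous to Borel functions -/
lemma rel3 {w₁ w₂ w₃ : StrongDual ℂ X} {x₁ x₂ x₃ : X} {m₁ m₂ m₃ : Measure ℂ}
    {θ₁ θ₂ θ₃ : ℂ → ℂ} (h₁ : RK Φ w₁ x₁ m₁ θ₁) (h₂ : RK Φ w₂ x₂ m₂ θ₂) (h₃ : RK Φ w₃ x₃ m₃ θ₃)
    {a b : ℂ} (hrel : ∀ Q : X →L[ℂ] X, w₁ (Q x₁) = a * w₂ (Q x₂) + b * w₃ (Q x₃)) {f : ℂ → ℂ}
    (hf : BB f) : ∫ z, f z * θ₁ z ∂m₁ = a * ∫ z, f z * θ₂ z ∂m₂ + b * ∫ z, f z * θ₃ z ∂m₃ := by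
  have := h₁.fin
  have := h₂.fin
  have := h₃.fin
  obtain ⟨M, hM⟩ := hf.bdd
  obtain ⟨h, hh, hb, hl⟩ := approx (m₁ + (m₂ + m₃)) hf.meas hM
  rw [ae_add_measure_iff, ae_add_measure_iff] at hl
  obtain ⟨l1, l2, l3⟩ := hl
  have c1 := conv1 h₁.meas h₁.norm hh hb l1
  have c2 := conv1 h₂.meas h₂.norm hh hb l2
  have c3 := conv1 h₃.meas h₃.norm hh hb l3
  refine tendsto_nhds_unique c1 (((c2.const_mul a).add (c3.const_mul b)).congr fun n => ?_)
  rw [← h₁.eq _ (hh n), ← h₂.eq _ (hh n), ← h₃.eq _ (hh n), hrel]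

end

/-- the Borel functional calculus -/
theorem exists_calc (hX : Refl X) {K : Set ℂ} (hK : IsCompact K)
    (Φ : C(K, ℂ) →ₐ[ℂ] (X →L[ℂ] X)) (hΦ : Continuous Φ) :
    ∃ (P : (ℂ → ℂ) → (X →L[ℂ] X)) (C₀ : ℝ), Calc (Φ (res K (fun z => z) continuous_id)) P C₀ := by
  classical
  obtain ⟨C₀, hC₀, hbd⟩ := exists_bd hK Φ hΦ
  choose m θ hR using fun w x => exists_RK hK Φ hΦ w x
  -- the bound
  have hB : ∀ (f : ℂ → ℂ) (M : ℝ), Measurable f → (∀ z, ‖f z‖ ≤ M) → ∀ w x,
      ‖∫ z, f z * θ w x z ∂(m w x)‖ ≤ C₀ * M * ‖x‖ * ‖w‖ := by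
    intro f M hf hM w x
    have := (hR w x).fin
    obtain ⟨h, hh, hb, hl⟩ := approx (m w x) hf hM
    have c1 := (conv1 (hR w x).meas (hR w x).norm hh hb hl).norm
    refine le_of_tendsto' c1 fun n => ?_
    rw [← (hR w x).eq _ (hh n)]
    have hM0 : 0 ≤ M := (norm_nonneg _).trans (hM 0)
    calc ‖w (Φ (res K (h n) (hh n)) x)‖ ≤ ‖w‖ * ‖Φ (res K (h n) (hh n)) x‖ := w.le_opNorm _
      _ ≤ ‖w‖ * (C₀ * M * ‖x‖) := by
          refine mul_le_mul_of_nonneg_left ?_ (norm_nonneg _)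
          exact (ContinuousLinearMap.le_opNorm _ _).trans
            (mul_le_mul_of_nonneg_right (hbd _ (hh n) M hM0 (hb n)) (norm_nonneg _))
      _ = C₀ * M * ‖x‖ * ‖w‖ := by ring
  -- the operators
  have hex : ∀ f : ℂ → ℂ, ∃ Q : X →L[ℂ] X, (BB f → ∀ w x, w (Q x) = ∫ z, f z * θ w x z ∂(m w x)) ∧
      ∀ M : ℝ, Measurable f → (∀ z, ‖f z‖ ≤ M) → ‖Q‖ ≤ C₀ * M := by
    intro f
    by_cases hf : BB f
    swap
    · refine ⟨0, fun h => absurd h hf, fun M h1 h2 => ?_⟩
      exact absurd ⟨h1, M, h2⟩ hf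
    obtain ⟨M, hM⟩ := hf.bdd
    have hM0 : 0 ≤ M := (norm_nonneg _).trans (hM 0)
    have h1 : ∀ x : X, ∃ y : X, ∀ w : StrongDual ℂ X, w y = ∫ z, f z * θ w x z ∂(m w x) := by
      intro x
      let ζ₀ : StrongDual ℂ X →ₗ[ℂ] ℂ :=
        { toFun := fun w => ∫ z, f z * θ w x z ∂(m w x)
          map_add' := fun w w' => by
            have := rel3 (hR (w + w') x) (hR w x) (hR w' x) (a := 1) (b := 1)
              (fun Q => by simp) hf
            rw [this, one_mul, one_mul]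
          map_smul' := fun c w => by
            have := rel3 (hR (c • w) x) (hR w x) (hR w x) (a := c) (b := 0)
              (fun Q => by simp) hf
            rw [this, zero_mul, add_zero]
            rfl }
      let ζ : StrongDual ℂ (StrongDual ℂ X) := ζ₀.mkContinuous (C₀ * M * ‖x‖)
        fun w => hB f M hf.meas hM w x
      obtain ⟨y, hy⟩ := hX ζ
      exact ⟨y, fun w => congrArg (fun ξ : StrongDual ℂ (StrongDual ℂ X) => ξ w) hy⟩
    choose q hq using h1
    have hqb : ∀ (M' : ℝ), (∀ z, ‖f z‖ ≤ M') → ∀ x, ‖q x‖ ≤ C₀ * M' * ‖x‖ := by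
      intro M' hM' x
      have hM'0 : 0 ≤ M' := (norm_nonneg _).trans (hM' 0)
      refine NormedSpace.norm_le_dual_bound ℂ (q x) (by positivity) fun w => ?_
      rw [hq]
      exact hB f M' hf.meas hM' w x
    let Q₀ : X →ₗ[ℂ] X :=
      { toFun := q
        map_add' := fun x x' => by
          refine ext_dual fun w => ?_
          have := rel3 (hR w (x + x')) (hR w x) (hR w x') (a := 1) (b := 1)
            (fun Q => by simp) hf
          rw [map_add, hq, hq, hq, this, one_mul, one_mul]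
        map_smul' := fun c x => by
          refine ext_dual fun w => ?_
          have := rel3 (hR w (c • x)) (hR w x) (hR w x) (a := c) (b := 0)
            (fun Q => by simp) hf
          rw [RingHom.id_apply, map_smul, hq, hq, this, zero_mul, add_zero]
          rfl }
    refine ⟨Q₀.mkContinuous (C₀ * M) (hqb M hM), fun _ w x => hq x w, fun M' _ hM' => ?_⟩
    have hM'0 : 0 ≤ M' := (norm_nonneg _).trans (hM' 0)
    exact ContinuousLinearMap.opNorm_le_bound _ (by positivity) (hqb M' hM')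
  choose P hP hPb using hex
  -- functions agreeing on `K`
  have hcong : ∀ f g : ℂ → ℂ, BB f → BB g → (∀ z ∈ K, f z = g z) → P f = P g := by
    intro f g hf hg h
    ext x
    refine ext_dual fun w => ?_
    rw [hP f hf, hP g hg]
    refine integral_congr_ae ?_
    have h1 : ∀ᵐ z ∂(m w x), z ∈ K := by
      rw [ae_iff]
      exact (hR w x).off
    filter_upwards [h1] with z hz
    rw [h z hz]
  -- continuous functions
  have hcont : ∀ (h : ℂ → ℂ) (hh : Continuous h), BB h → P h = Φ (res K h hh) := by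
    intro h hh hb
    ext x
    refine ext_dual fun w => ?_
    rw [hP h hb, (hR w x).eq h hh]
  have hadd : ∀ f g, BB f → BB g → P (fun z => f z + g z) = P f + P g := by
    intro f g hf hg
    ext x
    refine ext_dual fun w => ?_
    have := (hR w x).fin
    obtain ⟨Mf, hMf⟩ := hf.bdd
    obtain ⟨Mg, hMg⟩ := hg.bdd
    have i1 : Integrable (fun z => f z * θ w x z) (m w x) :=
      Integrable.of_bound (hf.meas.mul (hR w x).meas).aestronglyMeasurable Mf
        (ae_of_all _ fun z => by rw [norm_mul, (hR w x).norm, mul_one]; exact hMf z)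
    have i2 : Integrable (fun z => g z * θ w x z) (m w x) :=
      Integrable.of_bound (hg.meas.mul (hR w x).meas).aestronglyMeasurable Mg
        (ae_of_all _ fun z => by rw [norm_mul, (hR w x).norm, mul_one]; exact hMg z)
    rw [add_apply, map_add, hP _ (hf.add hg), hP f hf, hP g hg, ← integral_add i1 i2]
    refine integral_congr_ae (ae_of_all _ fun z => ?_)
    show (f z + g z) * θ w x z = f z * θ w x z + g z * θ w x z
    ring
  have hsmul : ∀ (c : ℂ) (f : ℂ → ℂ), BB f → P (fun z => c * f z) = c • P f := by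
    intro c f hf
    ext x
    refine ext_dual fun w => ?_
    rw [smul_apply, map_smul, hP _ (hf.smul c), hP f hf, smul_eq_mul, ← integral_const_mul]
    refine integral_congr_ae (ae_of_all _ fun z => ?_)
    show c * f z * θ w x z = c * (f z * θ w x z)
    ring
  have hone : P (fun _ => 1) = 1 := by
    rw [hcont _ continuous_const (BB.const 1)]
    exact map_one Φ
  -- multiplicativity, one factor continuous
  have hmul1 : ∀ (h g : ℂ → ℂ) (hh : Continuous h), BB h → BB g →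
      P (fun z => h z * g z) = P h * P g := by
    intro h g hh hhb hg
    ext x
    refine ext_dual fun w => ?_
    have e1 : w ((P h * P g) x) = (w.comp (P h)) (P g x) := rfl
    rw [e1, hP g hg, hP _ (hhb.mul hg)]
    set w' : StrongDual ℂ X := w.comp (P h) with hw'
    have := (hR w x).fin
    have := (hR w' x).fin
    obtain ⟨M, hM⟩ := hg.bdd
    obtain ⟨s, hs, hb, hl⟩ := approx (m w x + m w' x) hg.meas hM
    rw [ae_add_measure_iff] at hl
    have c1 := conv (hR w x).meas (hR w x).norm hhb hs hb hl.1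
    have c2 := conv1 (hR w' x).meas (hR w' x).norm hs hb hl.2
    have e2 : ∫ z, h z * g z * θ w x z ∂(m w x) = ∫ z, g z * h z * θ w x z ∂(m w x) := by
      refine integral_congr_ae (ae_of_all _ fun z => ?_)
      show h z * g z * θ w x z = g z * h z * θ w x z
      ring
    rw [e2]
    refine tendsto_nhds_unique c1 (c2.congr fun n => ?_)
    have hsb : BB (s n) := ⟨(hs n).measurable, M, hb n⟩
    rw [← (hR w' x).eq _ (hs n), ← (hR w x).eq (fun z => s n z * h z) ((hs n).mul hh)]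
    have e3 : res K (fun z => s n z * h z) ((hs n).mul hh) = res K h hh * res K (s n) (hs n) := by
      ext z
      show s n z * h z = h z * s n z
      ring
    rw [e3, map_mul, hw', hcont h hh hhb]
    rfl
  have hmul : ∀ f g, BB f → BB g → P (fun z => f z * g z) = P f * P g := by
    intro f g hf hg
    ext x
    refine ext_dual fun w => ?_
    have e1 : w ((P f * P g) x) = w (P f (P g x)) := rfl
    rw [e1, hP f hf, hP _ (hf.mul hg)]
    have := (hR w x).fin
    have := (hR w (P g x)).fin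
    obtain ⟨M, hM⟩ := hf.bdd
    obtain ⟨s, hs, hb, hl⟩ := approx (m w x + m w (P g x)) hf.meas hM
    rw [ae_add_measure_iff] at hl
    have c1 := conv (hR w x).meas (hR w x).norm hg hs hb hl.1
    have c2 := conv1 (hR w (P g x)).meas (hR w (P g x)).norm hs hb hl.2
    refine tendsto_nhds_unique c1 (c2.congr fun n => ?_)
    have hsb : BB (s n) := ⟨(hs n).measurable, M, hb n⟩
    rw [← hP (s n) hsb, ← hP (fun z => s n z * g z) (hsb.mul hg), hmul1 _ _ (hs n) hsb hg]
    rfl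
  obtain ⟨R, hRK⟩ := hK.isBounded.subset_closedBall (0 : ℂ)
  refine ⟨P, C₀, ⟨hC₀, hadd, hsmul, hmul, hone, fun f M h1 h2 => hPb f M h1 h2, ?_, ?_, ?_⟩⟩
  · intro w x
    exact ⟨m w x, θ w x, (hR w x).fin, (hR w x).meas, (hR w x).norm, fun f hf => hP f hf w x⟩
  · intro f hf hzf
    -- a bounded continuous function equal to `z` on `K`
    set s : ℂ → ℂ := trc (|R| + 1) with hs
    have hs0 : 0 < |R| + 1 := by positivity
    have hsc : Continuous s := trc_cont hs0
    have hsb : BB s := ⟨hsc.measurable, |R| + 1, trc_norm hs0⟩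
    have hse : ∀ z ∈ K, s z = z := by
      intro z hz
      have h1 := hRK hz
      rw [mem_closedBall, dist_zero_right] at h1
      exact trc_eq hs0 (by linarith [le_abs_self R])
    have e1 : Φ (res K (fun z => z) continuous_id) = P s := by
      rw [hcont s hsc hsb]
      congr 1
      ext z
      exact (hse z z.2).symm
    rw [e1, ← hmul _ _ hsb hf]
    refine hcong _ _ (hsb.mul hf) hzf fun z hz => ?_
    rw [hse z hz]
  · refine ⟨R, ?_⟩
    have h1 := hcong ((closedBall (0:ℂ) R)ᶜ.indicator fun _ => 1) (fun z => 0 * 1)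
      (BB.ind isClosed_closedBall.measurableSet.compl) ((BB.const 1).smul 0) (fun z hz => by
        rw [indicator_of_notMem (fun h : z ∈ (closedBall (0:ℂ) R)ᶜ => h (hRK hz)), zero_mul])
    rw [h1, hsmul 0 _ (BB.const 1), zero_smul]

end Pool.Agent.X207.RB
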