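import Pool.Agent.X207.RBTest
import Pool.Agent.Y941.RO.CUTV

/-!
# The vectors in case B of the dichotomy
-/

set_option autoImplicit false

namespace Pool.Agent.X207.RB

open MeasureTheory Set Metric Filter Topology
open scoped ENNReal NNReal ComplexConjugate ContDiff
open Pool.Agent.Y271.RO (db ht Bd S_HT S_CTG S_POM Cut)
open Pool.Agent.Y941.RO (CO lim_int)

variable {X : Type} [NormedAddCommGroup X] [NormedSpace ℂ X]
variable {N : X →L[ℂ] X} {P : (ℂ → ℂ) → (X →L[ℂ] X)} {C₀ : ℝ}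

/-- the indicator function of a ball -/
noncomputable def bI (a : ℂ) (t : ℝ) : ℂ → ℂ := (ball a t).indicator fun _ => 1

lemma bb_bI (a : ℂ) (t : ℝ) : BB (bI a t) := BB.ind measurableSet_ball

/-- vectors living in a ball -/
def Lives (P : (ℂ → ℂ) → (X →L[ℂ] X)) (a : ℂ) (t : ℝ) (x : X) : Prop := P (bI a t) x = x

lemma congr_lives (hc : Calc N P C₀) {a : ℂ} {t : ℝ} {x : X} (hx : Lives P a t x) {f g : ℂ → ℂ}
    (hf : BB f) (hg : BB g) (h : ∀ z ∈ ball a t, f z = g z) : P f x = P g x := by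
  have h1 : ∀ k, BB k → P k x = P (fun z => k z * bI a t z) x := by
    intro k hk
    rw [hc.mul _ _ hk (bb_bI a t)]
    show P k x = P k (P (bI a t) x)
    rw [hx]
  rw [h1 f hf, h1 g hg]
  congr 2
  funext z
  by_cases hz : z ∈ ball a t
  · rw [h z hz]
  · unfold bI
    rw [indicator_of_notMem hz, mul_zero, mul_zero]

/-- the measure representing a vector which lives in a ball -/
lemma null_lives (hc : Calc N P C₀) {a : ℂ} {t : ℝ} {x : X} (hx : Lives P a t x)
    {w : StrongDual ℂ X} {m : Measure ℂ} {θ : ℂ → ℂ} (hw : Rep P w x m θ) :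
    ∀ᵐ s ∂m, s ∈ ball a t := by
  rw [ae_iff]
  change m (ball a t)ᶜ = 0
  refine hw.null hc measurableSet_ball.compl fun f hf => ?_
  have h1 : P ((ball a t)ᶜ.indicator fun _ => 1) x = 0 := by
    have h2 := congr_lives hc hx (BB.ind measurableSet_ball.compl) (BB.const 0) (fun z hz =>
      indicator_of_notMem (show z ∉ (ball a t)ᶜ from fun h => h hz) _)
    rw [h2]
    have h3 : P (fun _ => (0:ℂ)) = 0 := by
      have := hc.smul 0 (fun _ => (0:ℂ)) (BB.const 0)
      simpa using this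
    rw [h3]
    rfl
  rw [h1, map_zero, map_zero]

lemma Kbound (hc : Calc N P C₀) {v : StrongDual ℂ X} {x : X} {m : Measure ℂ} {θ : ℂ → ℂ}
    (hw : Rep P v x m θ) (a : ℂ) (τ : ℝ) (hτ : 0 < τ) (hx : Lives P a (τ / 2) x) :
    ∃ B : ℝ, 0 ≤ B ∧ ∀ z : ℂ, τ ≤ ‖z - a‖ → ‖cc m θ z‖ ≤ B := by
  have := hw.fin
  have hae := null_lives hc hx hw
  refine ⟨(τ / 2)⁻¹ * m.real univ, by positivity, fun z hz => ?_⟩
  unfold cc
  refine norm_integral_le_of_norm_le_const ?_
  filter_upwards [hae] with s hs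
  rw [mem_ball, dist_eq_norm] at hs
  have h1 : τ / 2 ≤ ‖z - s‖ := by
    have : ‖z - a‖ ≤ ‖z - s‖ + ‖s - a‖ := by
      have := norm_add_le (z - s) (s - a)
      rwa [sub_add_sub_cancel] at this
    linarith
  rw [norm_mul, hw.norm, one_mul, norm_inv]
  exact inv_anti₀ (by positivity) h1

lemma Y_step (hHT : S_HT) (hCTG : S_CTG) (hc : Calc N P C₀) {u : X} {v : StrongDual ℂ X}
    {m : Measure ℂ} {θ : ℂ → ℂ} (hrep : Rep P v u m θ) (a : ℂ) (r K : ℝ) (hr : 0 < r)
    (hK0 : 0 ≤ K)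
    (hK : ∀ (c : ℂ) (M : ℝ) (g : ℂ → ℂ), Bd g c r M →
      Integrable g ∧ Measurable (ht g) ∧ (∀ l, Integrable (fun z => g z * (z - l)⁻¹)) ∧
      (∀ l, ‖ht g l‖ ≤ K * M) ∧
      ∀ b l : ℂ, ht (fun z => (z - b) * g z) l = (l - b) * ht g l + ∫ z, g z)
    (M : ℝ) (h : ℂ → ℂ) (hb : Bd h a r M) :
    Integrable (fun z => h z * (1 - cc m θ z)) ∧
    TT N u v (P (ht h) u) - a • P (ht h) u =
      P (ht (fun z => (z - a) * h z)) u - (∫ z, h z * (1 - cc m θ z)) • u ∧
    ‖P (ht h) u‖ ≤ C₀ * (K * M) * ‖u‖ := by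
  obtain ⟨i1, i2, i3, i4, i5⟩ := hK a M h hb
  have hb' : Bd (fun z => (z - a) * h z) a r (r * M) := by
    refine ⟨?_, mul_nonneg hr.le hb.nonneg, ?_, ?_⟩
    · exact (measurable_id.sub_const a).mul hb.meas
    · intro z
      rw [norm_mul]
      by_cases hz : z ∈ ball a r
      · rw [mem_ball, dist_eq_norm] at hz
        exact mul_le_mul hz.le (hb.bd z) (norm_nonneg _) hr.le
      · rw [hb.supp z hz, norm_zero, mul_zero]
        exact mul_nonneg hr.le hb.nonneg
    · intro z hz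
      rw [hb.supp z hz, mul_zero]
  obtain ⟨-, -, hf⟩ := hrep.ctg hHT hCTG
  obtain ⟨f1, f2⟩ := hf a r M h hr hb
  have hi : ∀ z, h z * (1 - cc m θ z) = h z - h z * cc m θ z := fun z => by ring
  have hs := hc.step (a := a) (c := ∫ z, h z) (bb_ht hHT hr hb) (bb_ht hHT hr hb')
    (fun l => by rw [i5 a l]; ring) u
  refine ⟨?_, ?_, hc.bd i2 i4 u⟩
  · simp_rw [hi]
    exact i1.sub f1
  · have e1 : ∫ z, h z * (1 - cc m θ z) = (∫ z, h z) - ∫ z, h z * cc m θ z := by
      simp_rw [hi]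
      exact integral_sub i1 f1
    rw [TT_apply, e1, f2, sub_smul, add_sub_right_comm, hs]
    abel

/-! ### pairings -/

lemma pair_pow (hHT : S_HT) (hCTG : S_CTG) (hPOM : S_POM) (hc : Calc N P C₀)
    {v : StrongDual ℂ X} {x : X} {m : Measure ℂ} {θ : ℂ → ℂ} (hw : Rep P v x m θ)
    {Θ : ℂ → ℂ} {a : ℂ} {τ r : ℝ} (h : CO Θ a τ r) (hτ : 0 < τ) (hr : 0 < r)
    (hx : Lives P a (τ / 2) x) (k : ℕ) (χ : ℂ → ℂ) (hχ : BB χ)
    (hχe : ∀ z ∈ ball a (τ / 2), χ z = (z - a) ^ k) :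
    Integrable (fun z => (z - a) ^ k * db Θ z * cc m θ z) ∧
      ∫ z, (z - a) ^ k * db Θ z * cc m θ z = -(Real.pi * v (P χ x)) := by
  obtain ⟨M, hM⟩ := h.bd hPOM (fun z => (z - a) ^ k) (by fun_prop) (r ^ k) (by positivity)
    (fun z _ hz => by
      rw [norm_pow]
      exact pow_le_pow_left₀ (norm_nonneg _) hz k)
  obtain ⟨-, -, hf⟩ := hw.ctg hHT hCTG
  obtain ⟨f1, f2⟩ := hf a (r + 1) M _ (by linarith) hM
  refine ⟨f1, ?_⟩
  have e1 : P (ht fun z => (z - a) ^ k * db Θ z) x = P (fun z => (-Real.pi : ℂ) * χ z) x := by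
    refine congr_lives hc hx (bb_ht hHT (by linarith : 0 < r + 1) hM) (hχ.smul _) fun z hz => ?_
    have hw' : z ∈ ball a τ := ball_subset_ball (by linarith) hz
    rw [h.ht_pow hPOM, h.one _ hw', hχe _ hz]
    ring
  rw [← f2, e1, hc.smul _ _ hχ]
  simp

lemma pair_inv (hHT : S_HT) (hCTG : S_CTG) (hPOM : S_POM) (hc : Calc N P C₀)
    {v : StrongDual ℂ X} {x : X} {m : Measure ℂ} {θ : ℂ → ℂ} (hw : Rep P v x m θ)
    {Θ : ℂ → ℂ} {a : ℂ} {τ r : ℝ} (h : CO Θ a τ r) (hτ : 0 < τ) (hr : 0 < r)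
    (hx : Lives P a (τ / 2) x) :
    Integrable (fun z => (z - a)⁻¹ * db Θ z * cc m θ z) ∧
      ∫ z, (z - a)⁻¹ * db Θ z * cc m θ z = 0 := by
  obtain ⟨M, hM⟩ := h.bd hPOM (fun z => (z - a)⁻¹) (by fun_prop) τ⁻¹ (by positivity)
    (fun z hz _ => by
      rw [norm_inv]
      exact inv_anti₀ hτ hz)
  obtain ⟨-, -, hf⟩ := hw.ctg hHT hCTG
  obtain ⟨f1, f2⟩ := hf a (r + 1) M _ (by linarith) hM
  refine ⟨f1, ?_⟩
  have e1 : P (ht fun z => (z - a)⁻¹ * db Θ z) x = P (fun z => (0 : ℂ) * 1) x := by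
    refine congr_lives hc hx (bb_ht hHT (by linarith : 0 < r + 1) hM) ((BB.const 1).smul _)
      fun z hz => ?_
    have hw' : z ∈ ball a τ := ball_subset_ball (by linarith) hz
    rw [h.ht_inv hHT hPOM hτ hr _ hw', zero_mul]
  rw [← f2, e1, hc.smul _ _ (BB.const 1)]
  simp

theorem cutv (hHT : S_HT) (hCTG : S_CTG) (hPOM : S_POM) (hc : Calc N P C₀) {u : X}
    {v : StrongDual ℂ X} {m : Measure ℂ} {θ : ℂ → ℂ} (hrep : Rep P v u m θ) (a : ℂ) (τ r : ℝ)
    (hτ : 0 < τ) (hτr : τ < r) (hcut : Cut (fun z => 1 - cc m θ z) a τ r) (x : X)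
    (hx : Lives P a (τ / 2) x) :
    ∃ (V : ℕ → ℕ → X) (Z : ℕ → X) (C : ℝ), (∀ n k, ‖V n k‖ ≤ C * r ^ k) ∧
      (∀ n, ‖Z n‖ ≤ C) ∧
      (∀ k, Tendsto (fun n => TT N u v (V n k) - a • V n k - V n (k + 1)) atTop (𝓝 0)) ∧
      Tendsto (fun n => x - V n 0 - (TT N u v (Z n) - a • Z n)) atTop (𝓝 0) := by
  classical
  obtain ⟨Θ, g, C, c1, c2, c3, c4, c5, c6, c7, c8⟩ := hcut
  have hr : 0 < r := hτ.trans hτr
  obtain ⟨K, hK0, hK⟩ := hHT r hr
  have hC0 : 0 ≤ C := (norm_nonneg _).trans (c5 0 0)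
  have hP0 := hc.nonneg
  have hΘ : ∀ n, CO (Θ n) a τ r := fun n => ⟨(c1 n).of_le (by exact_mod_cast le_top), c2 n, c3 n⟩
  obtain ⟨mx, θx, hwx⟩ := hc.rep v x
  obtain ⟨ctm, -, -⟩ := hwx.ctg hHT hCTG
  obtain ⟨Kb, hKb0, kb⟩ := Kbound hc hwx a τ hτ hx
  -- the product of a bounded function with `g n` and the Cauchy transform
  have hbd : ∀ (Q : ℂ → ℂ) (B : ℝ), Measurable Q → 0 ≤ B →
      (∀ z, τ ≤ ‖z - a‖ → ‖z - a‖ ≤ r → ‖Q z‖ ≤ B) → ∀ n,
      Bd (fun z => Q z * (g n z * cc mx θx z)) a r (B * (C * Kb)) := by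
    intro Q B hP hB0 hB n
    refine ⟨hP.mul ((c4 n).mul ctm), by positivity, ?_, ?_⟩
    · intro z
      by_cases h1 : z ∈ ball a τ
      · rw [c6 n z h1]
        simp only [zero_mul, mul_zero, norm_zero]
        positivity
      · rw [mem_ball, dist_eq_norm, not_lt] at h1
        by_cases h2 : ‖z - a‖ ≤ r
        · rw [norm_mul, norm_mul]
          exact mul_le_mul (hB z h1 h2) (mul_le_mul (c5 n z) (kb z h1) (norm_nonneg _) hC0)
            (by positivity) hB0
        · rw [c7 n z (not_le.mp h2).le]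
          simp only [zero_mul, mul_zero, norm_zero]
          positivity
    · intro z hz
      rw [mem_ball, dist_eq_norm, not_lt] at hz
      show Q z * (g n z * cc mx θx z) = 0
      rw [c7 n z hz]
      ring
  have hbp : ∀ k n, Bd (fun z => (z - a) ^ k * (g n z * cc mx θx z)) a r (r ^ k * (C * Kb)) := by
    intro k n
    exact hbd (fun z => (z - a) ^ k) (r ^ k) (by fun_prop) (by positivity)
      (fun z _ hz => by rw [norm_pow]; exact pow_le_pow_left₀ (norm_nonneg _) hz k) n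
  have hbi : ∀ n, Bd (fun z => (z - a)⁻¹ * (g n z * cc mx θx z)) a r (τ⁻¹ * (C * Kb)) := by
    intro n
    exact hbd (fun z => (z - a)⁻¹) τ⁻¹ (by fun_prop) (by positivity)
      (fun z hz _ => by rw [norm_inv]; exact inv_anti₀ hτ hz) n
  -- the powers cut off
  set χ : ℕ → ℂ → ℂ := fun k => (ball a (τ / 2)).indicator (fun z => (z - a) ^ k) with hχ
  have hχm : ∀ k, Measurable (χ k) := fun k => by
    apply Measurable.indicator _ measurableSet_ball
    fun_prop
  have hχb : ∀ k z, ‖χ k z‖ ≤ r ^ k := by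
    intro k z
    by_cases hz : z ∈ ball a (τ / 2)
    · simp only [hχ, indicator_of_mem hz, norm_pow]
      rw [mem_ball, dist_eq_norm] at hz
      exact pow_le_pow_left₀ (norm_nonneg _) (by linarith) k
    · simp only [hχ, indicator_of_notMem hz, norm_zero]
      positivity
  have hχB : ∀ k, BB (χ k) := fun k => ⟨hχm k, _, hχb k⟩
  have hχe : ∀ k, ∀ z ∈ ball a (τ / 2), χ k z = (z - a) ^ k := fun k z hz => by
    simp only [hχ, indicator_of_mem hz]
  have hχs : ∀ k l, (l - a) * χ k l = χ (k + 1) l - 0 := by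
    intro k l
    by_cases hz : l ∈ ball a (τ / 2)
    · rw [hχe k l hz, hχe (k + 1) l hz]
      ring
    · simp only [hχ, indicator_of_notMem hz]
      ring
  have hx0 : P (χ 0) x = x := by
    have h1 : P (χ 0) x = P (fun _ => 1) x := by
      refine congr_lives hc hx (hχB 0) (BB.const 1) fun z hz => ?_
      rw [hχe 0 z hz, pow_zero]
    rw [h1, hc.one]
    rfl
  have hpi : (Real.pi : ℂ) ≠ 0 := by exact_mod_cast Real.pi_ne_zero
  have hpi' : ‖(1 / Real.pi : ℂ)‖ = 1 / Real.pi := by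
    rw [norm_div, norm_one, Complex.norm_real, Real.norm_eq_abs, abs_of_pos Real.pi_pos]
  -- integrals against the error
  have herr : ∀ (Q : ℂ → ℂ) (B : ℝ), 0 ≤ B →
      (∀ z, τ ≤ ‖z - a‖ → ‖z - a‖ ≤ r → ‖Q z‖ ≤ B) →
      Tendsto (fun n => ((1 / Real.pi : ℂ) *
        ∫ z, (Q z * cc mx θx z) * ((1 - cc m θ z) * g n z - db (Θ n) z)) • u) atTop (𝓝 0) := by
    intro Q B hB0 hB
    have h1 := lim_int hPOM Θ g hΘ c6 c7 c8 (fun z => Q z * cc mx θx z) (B * Kb)
      (by positivity) (fun z hz1 hz2 => by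
        rw [norm_mul]
        exact mul_le_mul (hB z hz1 hz2) (kb z hz1) (norm_nonneg _) hB0)
    have h2 := (h1.const_mul (1 / Real.pi : ℂ)).smul_const u
    rwa [mul_zero, zero_smul] at h2
  refine ⟨fun n k => P (χ k) x - (1 / Real.pi : ℂ) •
      P (ht (fun z => (z - a) ^ k * (g n z * cc mx θx z))) u,
    fun n => (1 / Real.pi : ℂ) • P (ht (fun z => (z - a)⁻¹ * (g n z * cc mx θx z))) u,
    (C₀ * ‖x‖ + 1 / Real.pi * (C₀ * (K * (C * Kb)) * ‖u‖)) +
      1 / Real.pi * (C₀ * (K * (τ⁻¹ * (C * Kb))) * ‖u‖),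
    ?_, ?_, ?_, ?_⟩
  · intro n k
    obtain ⟨-, -, h3⟩ := Y_step hHT hCTG hc hrep a r K hr hK0 hK _ _ (hbp k n)
    have h4 := hc.bd (hχm k) (hχb k) x
    have hrk : 0 < r ^ k := by positivity
    calc _ ≤ ‖P (χ k) x‖ + ‖(1 / Real.pi : ℂ) •
          P (ht (fun z => (z - a) ^ k * (g n z * cc mx θx z))) u‖ := norm_sub_le _ _
      _ ≤ C₀ * r ^ k * ‖x‖ + 1 / Real.pi * (C₀ * (K * (r ^ k * (C * Kb))) * ‖u‖) := by
          rw [norm_smul, hpi']
          gcongr
      _ = (C₀ * ‖x‖ + 1 / Real.pi * (C₀ * (K * (C * Kb)) * ‖u‖)) * r ^ k := by ring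
      _ ≤ _ := by
          have : 0 ≤ 1 / Real.pi * (C₀ * (K * (τ⁻¹ * (C * Kb))) * ‖u‖) := by positivity
          exact mul_le_mul_of_nonneg_right (by linarith) hrk.le
  · intro n
    obtain ⟨-, -, h3⟩ := Y_step hHT hCTG hc hrep a r K hr hK0 hK _ _ (hbi n)
    calc _ ≤ 1 / Real.pi * (C₀ * (K * (τ⁻¹ * (C * Kb))) * ‖u‖) := by
          rw [norm_smul, hpi']
          gcongr
      _ ≤ _ := by
          have : 0 ≤ C₀ * ‖x‖ + 1 / Real.pi * (C₀ * (K * (C * Kb)) * ‖u‖) := by positivity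
          linarith
  · intro k
    have hl := herr (fun z => (z - a) ^ k) (r ^ k) (by positivity)
      (fun z _ hz => by rw [norm_pow]; exact pow_le_pow_left₀ (norm_nonneg _) hz k)
    refine hl.congr (fun n => ?_)
    obtain ⟨i1, i2, -⟩ := Y_step hHT hCTG hc hrep a r K hr hK0 hK _ _ (hbp k n)
    obtain ⟨p1, p2⟩ := pair_pow hHT hCTG hPOM hc hwx (hΘ n) hτ hr hx k (χ k) (hχB k) (hχe k)
    have e1 : ∫ z, ((z - a) ^ k * cc mx θx z) * ((1 - cc m θ z) * g n z - db (Θ n) z) =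
        (∫ z, (z - a) ^ k * (g n z * cc mx θx z) * (1 - cc m θ z)) +
          Real.pi * v (P (χ k) x) := by
      have : ∀ z, ((z - a) ^ k * cc mx θx z) * ((1 - cc m θ z) * g n z - db (Θ n) z) =
          (z - a) ^ k * (g n z * cc mx θx z) * (1 - cc m θ z) -
            (z - a) ^ k * db (Θ n) z * cc mx θx z := fun z => by ring
      simp_rw [this]
      rw [integral_sub i1 p1, p2]
      ring
    have e2 := hc.step (hχB k) (hχB (k + 1)) (hχs k) x
    have e3 : TT N u v (P (χ k) x) - a • P (χ k) x =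
        P (χ (k + 1)) x + v (P (χ k) x) • u := by
      rw [TT_apply, add_sub_right_comm, e2, zero_smul, sub_zero]
    have e4 : (fun z => (z - a) * ((z - a) ^ k * (g n z * cc mx θx z))) =
        fun z => (z - a) ^ (k + 1) * (g n z * cc mx θx z) := by
      funext z; ring
    rw [e4] at i2
    rw [e1]
    simp only [map_sub, map_smul]
    rw [eq_add_of_sub_eq e3, eq_add_of_sub_eq i2]
    simp only [smul_sub, smul_add, smul_smul, mul_add, add_smul]
    rw [show (1 / Real.pi : ℂ) * (Real.pi * v (P (χ k) x)) = v (P (χ k) x) by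
      field_simp]
    rw [mul_comm (1 / Real.pi : ℂ) a]
    abel
  · have hl := herr (fun z => (z - a)⁻¹) τ⁻¹ (by positivity)
      (fun z hz _ => by rw [norm_inv]; exact inv_anti₀ hτ hz)
    refine hl.congr (fun n => ?_)
    obtain ⟨i1, i2, -⟩ := Y_step hHT hCTG hc hrep a r K hr hK0 hK _ _ (hbi n)
    obtain ⟨p1, p2⟩ := pair_inv hHT hCTG hPOM hc hwx (hΘ n) hτ hr hx
    have e1 : ∫ z, ((z - a)⁻¹ * cc mx θx z) * ((1 - cc m θ z) * g n z - db (Θ n) z) =
        ∫ z, (z - a)⁻¹ * (g n z * cc mx θx z) * (1 - cc m θ z) := by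
      have : ∀ z, ((z - a)⁻¹ * cc mx θx z) * ((1 - cc m θ z) * g n z - db (Θ n) z) =
          (z - a)⁻¹ * (g n z * cc mx θx z) * (1 - cc m θ z) -
            (z - a)⁻¹ * db (Θ n) z * cc mx θx z := fun z => by ring
      simp_rw [this]
      rw [integral_sub i1 p1, p2, sub_zero]
    have e4 : (fun z => (z - a) * ((z - a)⁻¹ * (g n z * cc mx θx z))) =
        fun z => (z - a) ^ 0 * (g n z * cc mx θx z) := by
      funext z
      by_cases hz : z = a
      · rw [hz, c6 n a (mem_ball_self hτ)]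
        simp
      · have : z - a ≠ 0 := sub_ne_zero.mpr hz
        field_simp
    rw [e4] at i2
    rw [e1]
    simp only [map_smul, hx0]
    rw [eq_add_of_sub_eq i2]
    simp only [smul_sub, smul_add, smul_smul]
    rw [mul_comm (1 / Real.pi : ℂ) a]
    abel

/-- FAR -/
theorem far (hc : Calc N P C₀) (u : X) (v : StrongDual ℂ X) (a : ℂ) (τ : ℝ) (hτ : 0 < τ) (x : X) :
    ∃ x₁ x₂ W : X, ∃ c : ℂ, x = x₁ + x₂ ∧ Lives P a τ x₁ ∧ x₂ = TT N u v W - a • W + c • u := by
  classical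
  let k2 : ℂ → ℂ := (ball a τ)ᶜ.indicator fun _ => 1
  let h : ℂ → ℂ := fun z => if z ∈ ball a τ then 0 else (z - a)⁻¹
  have b1 : BB (bI a τ) := bb_bI a τ
  have b2 : BB k2 := BB.ind measurableSet_ball.compl
  have b3 : BB h := by
    refine ⟨Measurable.ite measurableSet_ball measurable_const
      ((measurable_id.sub_const a).inv), τ⁻¹, fun z => ?_⟩
    simp only [h]
    split_ifs with hs
    · rw [norm_zero]; positivity
    · rw [norm_inv]
      apply inv_anti₀ hτ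
      rw [mem_ball, dist_eq_norm, not_lt] at hs
      exact hs
  refine ⟨P (bI a τ) x, P k2 x, P h x, -v (P h x), ?_, ?_, ?_⟩
  · have e : (fun z => bI a τ z + k2 z) = fun _ => 1 := by
      funext z
      by_cases hz : z ∈ ball a τ
      · have : z ∉ (ball a τ)ᶜ := fun h => h hz
        simp only [bI, k2]
        rw [indicator_of_mem hz, indicator_of_notMem this, add_zero]
      · have : z ∈ (ball a τ)ᶜ := hz
        simp only [bI, k2]
        rw [indicator_of_notMem hz, indicator_of_mem this, zero_add]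
    have h1 := hc.add _ _ b1 b2
    rw [e, hc.one] at h1
    have h2 := congrArg (fun Q : X →L[ℂ] X => Q x) h1
    exact h2
  · unfold Lives
    have e : (fun z => bI a τ z * bI a τ z) = bI a τ := by
      funext z
      by_cases hz : z ∈ ball a τ
      · simp only [bI]
        rw [indicator_of_mem hz, one_mul]
      · simp only [bI]
        rw [indicator_of_notMem hz, zero_mul]
    have h1 := hc.mul _ _ b1 b1
    rw [e] at h1
    have h2 := congrArg (fun Q : X →L[ℂ] X => Q x) h1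
    exact h2.symm
  · have h4 : P k2 x = N (P h x) - a • P h x := by
      have h5 := hc.step (a := a) (c := 0) b3 b2 (fun z => by
        simp only [h, k2]
        split_ifs with hs
        · have : z ∉ (ball a τ)ᶜ := fun h => h hs
          rw [indicator_of_notMem this, mul_zero, sub_zero]
        · have : z ∈ (ball a τ)ᶜ := hs
          rw [indicator_of_mem this, sub_zero]
          have hne : z - a ≠ 0 := by
            intro h0
            apply hs
            rw [mem_ball, dist_eq_norm, h0, norm_zero]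
            exact hτ
          field_simp) x
      rw [h5, zero_smul, sub_zero]
    rw [h4, TT_apply]
    module

end Pool.Agent.X207.RB
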