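import Pool.Agent.Y271.RO.Stm

/-!
# Rank one perturbations of scalar type operators on reflexive Banach spaces: definitions

Adapted from the project RO of the starting library (`Pool.Agent.Y271.RO`, rank one perturbations
of normal operators on Hilbert space).
-/

set_option autoImplicit false

namespace Pool.Agent.X207.RB

open MeasureTheory Set Metric Filter Topology
open scoped ENNReal NNReal ComplexConjugate ContDiff
open Pool.Agent.Y271.RO (db ht Bd S_HT S_CTG)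
open Pool.Agent.Y283.NK (ct)

/-- bounded Borel functions on the plane -/
structure BB (f : ℂ → ℂ) : Prop where
  meas : Measurable f
  bdd : ∃ M : ℝ, ∀ z, ‖f z‖ ≤ M

lemma BB.add {f g : ℂ → ℂ} (hf : BB f) (hg : BB g) : BB (fun z => f z + g z) := by
  obtain ⟨M, hM⟩ := hf.bdd
  obtain ⟨M', hM'⟩ := hg.bdd
  exact ⟨hf.meas.add hg.meas, M + M', fun z =>
    (norm_add_le _ _).trans (add_le_add (hM z) (hM' z))⟩

lemma BB.mul {f g : ℂ → ℂ} (hf : BB f) (hg : BB g) : BB (fun z => f z * g z) := by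
  obtain ⟨M, hM⟩ := hf.bdd
  obtain ⟨M', hM'⟩ := hg.bdd
  refine ⟨hf.meas.mul hg.meas, M * M', fun z => ?_⟩
  rw [norm_mul]
  exact mul_le_mul (hM z) (hM' z) (norm_nonneg _) ((norm_nonneg _).trans (hM z))

lemma BB.const (c : ℂ) : BB (fun _ => c) := ⟨measurable_const, ‖c‖, fun _ => le_rfl⟩

lemma BB.smul {f : ℂ → ℂ} (c : ℂ) (hf : BB f) : BB (fun z => c * f z) := (BB.const c).mul hf

lemma BB.ind {s : Set ℂ} (hs : MeasurableSet s) : BB (s.indicator fun _ => (1 : ℂ)) := by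
  refine ⟨measurable_const.indicator hs, 1, fun z => ?_⟩
  by_cases hz : z ∈ s
  · rw [indicator_of_mem hz]; simp
  · rw [indicator_of_notMem hz]; simp

variable {X : Type} [NormedAddCommGroup X] [NormedSpace ℂ X]

/-- the measure `m` and the unimodular function `θ` represent `f ↦ w (P f x)` -/
structure Rep (P : (ℂ → ℂ) → (X →L[ℂ] X)) (w : StrongDual ℂ X) (x : X) (m : Measure ℂ)
    (θ : ℂ → ℂ) : Prop where
  fin : IsFiniteMeasure m
  meas : Measurable θ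
  norm : ∀ z, ‖θ z‖ = 1
  eq : ∀ f, BB f → w (P f x) = ∫ z, f z * θ z ∂m

/-- `P` is a bounded Borel functional calculus for `N` -/
structure Calc (N : X →L[ℂ] X) (P : (ℂ → ℂ) → (X →L[ℂ] X)) (C₀ : ℝ) : Prop where
  nonneg : 0 ≤ C₀
  add : ∀ f g, BB f → BB g → P (fun z => f z + g z) = P f + P g
  smul : ∀ (c : ℂ) (f : ℂ → ℂ), BB f → P (fun z => c * f z) = c • P f
  mul : ∀ f g, BB f → BB g → P (fun z => f z * g z) = P f * P g
  one : P (fun _ => 1) = 1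
  bound : ∀ (f : ℂ → ℂ) (M : ℝ), Measurable f → (∀ z, ‖f z‖ ≤ M) → ‖P f‖ ≤ C₀ * M
  rep : ∀ (w : StrongDual ℂ X) (x : X), ∃ (m : Measure ℂ) (θ : ℂ → ℂ), Rep P w x m θ
  id : ∀ f, BB f → BB (fun z => z * f z) → N * P f = P (fun z => z * f z)
  supp : ∃ R : ℝ, P ((closedBall (0:ℂ) R)ᶜ.indicator fun _ => 1) = 0

/-- the Cauchy transform of `θ m` -/
noncomputable def cc (m : Measure ℂ) (θ : ℂ → ℂ) (z : ℂ) : ℂ := ∫ l, θ l * (z - l)⁻¹ ∂m

/-- chains -/
def IsCh (T : X →L[ℂ] X) (c : ℂ) (r : ℝ) (Y : ℕ → X) : Prop :=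
  (∀ k, T (Y k) - c • Y k = Y (k + 1)) ∧ ∃ C : ℝ, ∀ k, ‖Y k‖ ≤ C * r ^ k

/-- there is a nonzero chain -/
def HasC (T : X →L[ℂ] X) (c : ℂ) (r : ℝ) : Prop := ∃ Y, IsCh T c r Y ∧ Y 0 ≠ 0

/-- the rank one perturbation -/
noncomputable def TT (N : X →L[ℂ] X) (u : X) (v : StrongDual ℂ X) : X →L[ℂ] X := N + v.smulRight u

lemma TT_apply (N : X →L[ℂ] X) (u : X) (v : StrongDual ℂ X) (x : X) :
    TT N u v x = N x + v x • u := rfl

/-- reflexive spaces -/
def Refl (X : Type) [NormedAddCommGroup X] [NormedSpace ℂ X] : Prop :=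
  Function.Surjective (NormedSpace.inclusionInDoubleDual ℂ X)

variable {N : X →L[ℂ] X} {P : (ℂ → ℂ) → (X →L[ℂ] X)} {C₀ : ℝ}

lemma Calc.bd (hc : Calc N P C₀) {f : ℂ → ℂ} {M : ℝ} (hf : Measurable f) (hM : ∀ z, ‖f z‖ ≤ M)
    (x : X) : ‖P f x‖ ≤ C₀ * M * ‖x‖ :=
  ((P f).le_opNorm x).trans (mul_le_mul_of_nonneg_right (hc.bound f M hf hM) (norm_nonneg _))

lemma Calc.step (hc : Calc N P C₀) {h h' : ℂ → ℂ} {a c : ℂ} (hh : BB h) (hh' : BB h')
    (he : ∀ l, (l - a) * h l = h' l - c) (x : X) :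
    N (P h x) - a • P h x = P h' x - c • x := by
  have e : (fun z => z * h z) = fun z => a * h z + (h' z + (-c) * 1) := by
    funext z
    linear_combination he z
  have hb : BB (fun z => a * h z + (h' z + (-c) * 1)) :=
    (hh.smul a).add (hh'.add ((BB.const 1).smul (-c)))
  have h1 := hc.id h hh (by rw [e]; exact hb)
  rw [e, hc.add _ _ (hh.smul a) (hh'.add ((BB.const 1).smul (-c))), hc.smul _ _ hh,
    hc.add _ _ hh' ((BB.const 1).smul (-c)), hc.smul _ _ (BB.const 1), hc.one] at h1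
  have h2 := congrArg (fun Q : X →L[ℂ] X => Q x) h1
  have h3 : N (P h x) = a • P h x + (P h' x + (-c) • x) := h2
  rw [h3, neg_smul]
  abel

/-- the representing vectors of `L²(m)` -/
lemma Rep.toL2 {w : StrongDual ℂ X} {x : X} {m : Measure ℂ} {θ : ℂ → ℂ} (h : Rep P w x m θ) :
    ∃ W U : Lp ℂ 2 m, (⇑W =ᵐ[m] fun z => conj (θ z)) ∧ (⇑U =ᵐ[m] fun _ => 1) ∧
      ct (fun z : ℂ => z) W U = cc m θ := by
  have := h.fin
  have hm : Measurable (fun z => conj (θ z)) := Complex.continuous_conj.measurable.comp h.meas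
  have h1 : MemLp (fun z => conj (θ z)) 2 m :=
    MemLp.of_bound hm.aestronglyMeasurable 1 (Eventually.of_forall fun z => by
      rw [RCLike.norm_conj, h.norm])
  have h2 : MemLp (fun _ : ℂ => (1 : ℂ)) 2 m := memLp_const 1
  refine ⟨h1.toLp _, h2.toLp _, h1.coeFn_toLp, h2.coeFn_toLp, ?_⟩
  funext z
  unfold ct cc
  refine integral_congr_ae ?_
  filter_upwards [h1.coeFn_toLp, h2.coeFn_toLp] with s e1 e2
  rw [e1, e2, Complex.conj_conj, mul_one]

lemma bb_ht (hHT : S_HT) {g : ℂ → ℂ} {c : ℂ} {r M : ℝ} (hr : 0 < r) (hg : Bd g c r M) :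
    BB (ht g) := by
  obtain ⟨K, -, hK⟩ := hHT r hr
  obtain ⟨-, h1, -, h2, -⟩ := hK c M g hg
  exact ⟨h1, K * M, h2⟩

/-- Cauchy transforms are locally integrable; Fubini -/
theorem Rep.ctg (hHT : S_HT) (hCTG : S_CTG) {w : StrongDual ℂ X} {x : X} {m : Measure ℂ}
    {θ : ℂ → ℂ} (h : Rep P w x m θ) :
    Measurable (cc m θ) ∧ LocallyIntegrable (cc m θ) ∧
      ∀ (c : ℂ) (r M : ℝ) (g : ℂ → ℂ), 0 < r → Bd g c r M →
        Integrable (fun z => g z * cc m θ z) ∧ w (P (ht g) x) = ∫ z, g z * cc m θ z := by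
  have := h.fin
  obtain ⟨W, U, hW, hU, hct⟩ := h.toL2
  obtain ⟨h1, h2, h3⟩ := hCTG ℂ m (fun z => z) measurable_id W U
  rw [hct] at h1 h2 h3
  refine ⟨h1, h2, fun c r M g hr hg => ⟨(h3 c r M g hg).1, ?_⟩⟩
  rw [← (h3 c r M g hg).2, h.eq _ (bb_ht hHT hr hg)]
  refine integral_congr_ae ?_
  filter_upwards [hW, hU] with s e1 e2
  rw [e1, e2, Complex.conj_conj]
  ring

/-! ### weak limits -/

lemma wlim (hX : Refl X) (U : Ultrafilter ℕ) (v : ℕ → X) (C : ℝ) (hv : ∀ n, ‖v n‖ ≤ C) :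
    ∃ w : X, ‖w‖ ≤ C ∧ ∀ y : StrongDual ℂ X, Tendsto (fun n => y (v n)) U (𝓝 (y w)) := by
  have hC : 0 ≤ C := (norm_nonneg _).trans (hv 0)
  have h1 : ∀ y : StrongDual ℂ X, ∃ L : ℂ, ‖L‖ ≤ C * ‖y‖ ∧
      Tendsto (fun n => y (v n)) U (𝓝 L) := by
    intro y
    have hb : ∀ n, y (v n) ∈ closedBall (0 : ℂ) (C * ‖y‖) := by
      intro n
      rw [mem_closedBall, dist_zero_right]
      calc ‖y (v n)‖ ≤ ‖y‖ * ‖v n‖ := y.le_opNorm _
        _ ≤ ‖y‖ * C := mul_le_mul_of_nonneg_left (hv n) (norm_nonneg _)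
        _ = C * ‖y‖ := mul_comm _ _
    obtain ⟨L, hL, hl⟩ := (isCompact_closedBall (0 : ℂ) (C * ‖y‖)).ultrafilter_le_nhds
      (U.map fun n => y (v n)) (by
        rw [le_principal_iff]
        exact Filter.mem_map.2 (Filter.Eventually.of_forall hb))
    refine ⟨L, by simpa using hL, hl⟩
  choose L hL1 hL2 using h1
  let ξ₀ : StrongDual ℂ X →ₗ[ℂ] ℂ :=
    { toFun := L
      map_add' := fun y y' => tendsto_nhds_unique (hL2 (y + y')) ((hL2 y).add (hL2 y'))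
      map_smul' := fun c y => tendsto_nhds_unique (hL2 (c • y)) ((hL2 y).const_mul c) }
  let ξ : StrongDual ℂ (StrongDual ℂ X) := ξ₀.mkContinuous C hL1
  obtain ⟨w, hw⟩ := hX ξ
  have hw' : ∀ y : StrongDual ℂ X, y w = L y := by
    intro y
    have := congrArg (fun ζ : StrongDual ℂ (StrongDual ℂ X) => ζ y) hw
    exact this
  refine ⟨w, ?_, fun y => by rw [hw']; exact hL2 y⟩
  have h2 : ‖NormedSpace.inclusionInDoubleDual ℂ X w‖ = ‖w‖ :=
    (NormedSpace.inclusionInDoubleDualLi ℂ (E := X)).norm_map w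
  rw [← h2, hw]
  exact LinearMap.mkContinuous_norm_le _ hC _

lemma ext_dual {x y : X} (h : ∀ w : StrongDual ℂ X, w x = w y) : x = y := by
  rw [← sub_eq_zero]
  by_contra hne
  obtain ⟨f, -, hf⟩ := exists_dual_vector ℂ (x - y) (norm_ne_zero_iff.2 hne)
  rw [map_sub, h f, sub_self] at hf
  exact hne (by simpa using hf.symm)

lemma chainlim (hX : Refl X) (U : Ultrafilter ℕ) (hU : (U : Filter ℕ) ≤ atTop) (T : X →L[ℂ] X)
    (c : ℂ) (r C : ℝ) (V : ℕ → ℕ → X) (hb : ∀ n k, ‖V n k‖ ≤ C * r ^ k)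
    (h1 : ∀ k, Tendsto (fun n => T (V n k) - c • V n k - V n (k + 1)) atTop (𝓝 0)) :
    ∃ Y : ℕ → X, IsCh T c r Y ∧
      ∀ k (y : StrongDual ℂ X), Tendsto (fun n => y (V n k)) U (𝓝 (y (Y k))) := by
  choose Y hYb hY using fun k => wlim hX U (fun n => V n k) (C * r ^ k) (fun n => hb n k)
  refine ⟨Y, ⟨fun k => ?_, C, hYb⟩, hY⟩
  refine ext_dual fun y => ?_
  have e1 : Tendsto (fun n => y (T (V n k)) - c • y (V n k)) U
      (𝓝 (y (T (Y k)) - c • y (Y k))) := (hY k (y.comp T)).sub ((hY k y).const_smul c)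
  have e2 := e1.sub (hY (k + 1) y)
  have e3 : Tendsto (fun n => y (T (V n k) - c • V n k - V n (k + 1))) U (𝓝 (y 0)) :=
    (y.continuous.tendsto 0).comp ((h1 k).mono_left hU)
  have e4 := tendsto_nhds_unique (e2.congr fun n => by simp) e3
  rw [map_zero, sub_eq_zero] at e4
  rw [map_sub, map_smul]
  exact e4

theorem wlimc (hX : Refl X) (T : X →L[ℂ] X) (c : ℂ) (r C : ℝ) (V : ℕ → ℕ → X)
    (hb : ∀ n k, ‖V n k‖ ≤ C * r ^ k)
    (h1 : ∀ k, Tendsto (fun n => T (V n k) - c • V n k - V n (k + 1)) atTop (𝓝 0)) :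
    (∀ (b : ℂ) (x : X) (Z : ℕ → X) (C' : ℝ), (∀ n, ‖Z n‖ ≤ C') →
      Tendsto (fun n => x - V n 0 - (T (Z n) - b • Z n)) atTop (𝓝 0) →
      ∃ (Y : ℕ → X) (W : X), IsCh T c r Y ∧ x = Y 0 + (T W - b • W)) ∧
    ((∀ Y, IsCh T c r Y → Y 0 = 0) → ∀ w : StrongDual ℂ X,
      Tendsto (fun n => w (V n 0)) atTop (𝓝 0)) := by
  refine ⟨fun b x Z C' hZ h2 => ?_, fun h w => ?_⟩
  · set U : Ultrafilter ℕ := Ultrafilter.of atTop with hU
    have hle : (U : Filter ℕ) ≤ atTop := Ultrafilter.of_le _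
    obtain ⟨Y, hY, hYl⟩ := chainlim hX U hle T c r C V hb h1
    obtain ⟨W, -, hW⟩ := wlim hX U Z C' hZ
    refine ⟨Y, W, hY, ?_⟩
    refine ext_dual fun y => ?_
    have e1 : Tendsto (fun n => y x - y (V n 0) - (y (T (Z n)) - b • y (Z n))) U
        (𝓝 (y x - y (Y 0) - (y (T W) - b • y W))) :=
      ((tendsto_const_nhds).sub (hYl 0 y)).sub ((hW (y.comp T)).sub ((hW y).const_smul b))
    have e3 : Tendsto (fun n => y (x - V n 0 - (T (Z n) - b • Z n))) U (𝓝 (y 0)) :=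
      (y.continuous.tendsto 0).comp (h2.mono_left hle)
    have e4 := tendsto_nhds_unique (e1.congr fun n => by simp) e3
    rw [map_zero, sub_sub, sub_eq_zero] at e4
    rw [e4]
    simp
  · rw [tendsto_iff_ultrafilter]
    intro U hU
    obtain ⟨Y, hY, hYl⟩ := chainlim hX U hU T c r C V hb h1
    have h4 := hYl 0 w
    rw [h Y hY, map_zero] at h4
    exact h4

end Pool.Agent.X207.RB
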