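import Pool.Agent.X207.RBCut

/-!
# The essential spectrum of the functional calculus
-/

set_option autoImplicit false

namespace Pool.Agent.X207.RB

open MeasureTheory Set Metric Filter Topology
open scoped ENNReal NNReal ComplexConjugate ContDiff

variable {X : Type} [NormedAddCommGroup X] [NormedSpace ℂ X]
variable {N : X →L[ℂ] X} {P : (ℂ → ℂ) → (X →L[ℂ] X)} {C₀ : ℝ}

/-- the points near which the calculus has infinite rank -/
def EssP (P : (ℂ → ℂ) → (X →L[ℂ] X)) (a : ℂ) : Prop :=
  ∀ t : ℝ, 0 < t → ¬ FiniteDimensional ℂ (LinearMap.range (P (bI a t)).toLinearMap)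

/-- the truncated identity function -/
noncomputable def nf (R : ℝ) : ℂ → ℂ := fun z => z * (closedBall (0:ℂ) R).indicator (fun _ => 1) z

lemma bb_nf (R : ℝ) : BB (nf R) := by
  refine ⟨measurable_id.mul (measurable_const.indicator isClosed_closedBall.measurableSet),
    |R|, fun z => ?_⟩
  unfold nf
  by_cases hz : z ∈ closedBall (0:ℂ) R
  · rw [indicator_of_mem hz, mul_one]
    rw [mem_closedBall, dist_zero_right] at hz
    exact hz.trans (le_abs_self R)
  · rw [indicator_of_notMem hz, mul_zero, norm_zero]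
    exact abs_nonneg R

lemma mul_app (hc : Calc N P C₀) {f g : ℂ → ℂ} (hf : BB f) (hg : BB g) (x : X) :
    P f (P g x) = P (fun z => f z * g z) x := by
  rw [hc.mul f g hf hg]
  rfl

lemma P_zero (hc : Calc N P C₀) : P (fun _ => (0:ℂ)) = 0 := by
  have := hc.smul 0 (fun _ => (0:ℂ)) (BB.const 0)
  simpa using this

/-- outside the support -/
lemma P_off (hc : Calc N P C₀) {R : ℝ} (hR : P ((closedBall (0:ℂ) R)ᶜ.indicator fun _ => 1) = 0)
    {f g : ℂ → ℂ} (hf : BB f) (hg : BB g) (h : ∀ z ∈ closedBall (0:ℂ) R, f z = g z) :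
    P f = P g := by
  have hi : BB ((closedBall (0:ℂ) R)ᶜ.indicator fun _ => (1:ℂ)) :=
    BB.ind isClosed_closedBall.measurableSet.compl
  have e : f = fun z => g z + (f z + (-1) * g z) * (closedBall (0:ℂ) R)ᶜ.indicator (fun _ => 1) z := by
    funext z
    by_cases hz : z ∈ closedBall (0:ℂ) R
    · have : z ∉ (closedBall (0:ℂ) R)ᶜ := fun h => h hz
      rw [indicator_of_notMem this, mul_zero, add_zero, h z hz]
    · have : z ∈ (closedBall (0:ℂ) R)ᶜ := hz
      rw [indicator_of_mem this]
      ring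
  have hb : BB (fun z => f z + (-1) * g z) := hf.add (hg.smul _)
  rw [e, hc.add _ _ hg (hb.mul hi), hc.mul _ _ hb hi, hR, mul_zero, add_zero]

lemma N_eq (hc : Calc N P C₀) {R : ℝ}
    (hR : P ((closedBall (0:ℂ) R)ᶜ.indicator fun _ => 1) = 0) : N = P (nf R) := by
  have hi : BB ((closedBall (0:ℂ) R).indicator fun _ => (1:ℂ)) :=
    BB.ind isClosed_closedBall.measurableSet
  have h1 : P (fun _ => 1) = P ((closedBall (0:ℂ) R).indicator fun _ => 1) :=
    P_off hc hR (BB.const 1) hi fun z hz => (indicator_of_mem hz (fun _ => (1:ℂ))).symm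
  rw [hc.one] at h1
  have h2 := hc.id _ hi (bb_nf R)
  rw [← h1, mul_one] at h2
  exact h2

lemma comm (hc : Calc N P C₀) {f : ℂ → ℂ} (hf : BB f) : P f * N = N * P f := by
  obtain ⟨R, hR⟩ := hc.supp
  rw [N_eq hc hR, ← hc.mul _ _ hf (bb_nf R), ← hc.mul _ _ (bb_nf R) hf]
  congr 1
  funext z
  ring

/-- the powers cut off -/
noncomputable def pw (a : ℂ) (t : ℝ) (k : ℕ) : ℂ → ℂ := (ball a t).indicator fun z => (z - a) ^ k

lemma pw_bd (a : ℂ) {t : ℝ} (ht : 0 < t) (k : ℕ) :
    Measurable (pw a t k) ∧ ∀ z, ‖pw a t k z‖ ≤ t ^ k := by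
  constructor
  · apply Measurable.indicator _ measurableSet_ball
    fun_prop
  · intro z
    by_cases hz : z ∈ ball a t
    · simp only [pw, indicator_of_mem hz, norm_pow]
      rw [mem_ball, dist_eq_norm] at hz
      exact pow_le_pow_left₀ (norm_nonneg _) hz.le k
    · simp only [pw, indicator_of_notMem hz, norm_zero]
      positivity

lemma pw_bb (a : ℂ) {t : ℝ} (ht : 0 < t) (k : ℕ) : BB (pw a t k) :=
  ⟨(pw_bd a ht k).1, _, (pw_bd a ht k).2⟩

lemma pw_step (hc : Calc N P C₀) (a : ℂ) {t : ℝ} (ht : 0 < t) (k : ℕ) (x : X) :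
    N (P (pw a t k) x) - a • P (pw a t k) x = P (pw a t (k + 1)) x := by
  have h := hc.step (a := a) (c := 0) (pw_bb a ht k) (pw_bb a ht (k + 1)) (fun z => by
    by_cases hz : z ∈ ball a t
    · simp only [pw, indicator_of_mem hz]
      ring
    · simp only [pw, indicator_of_notMem hz]
      ring) x
  rw [h, zero_smul, sub_zero]

lemma pw_zero (a : ℂ) (t : ℝ) : pw a t 0 = bI a t := by
  funext z
  by_cases hz : z ∈ ball a t
  · simp only [pw, bI, indicator_of_mem hz, pow_zero]
  · simp only [pw, bI, indicator_of_notMem hz]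

/-- NOR: chains of `N` itself -/
theorem nor (hc : Calc N P C₀) {a : ℂ} {r : ℝ} (hr : 0 < r) (hE : EssP P a) : HasC N a r := by
  have h1 : ∃ x, P (bI a r) x ≠ 0 := by
    by_contra h
    push Not at h
    apply hE r hr
    have h2 : (P (bI a r)).toLinearMap = 0 := by
      ext x
      exact h x
    rw [h2, LinearMap.range_zero]
    infer_instance
  obtain ⟨x, hx⟩ := h1
  refine ⟨fun k => P (pw a r k) x, ⟨fun k => pw_step hc a hr k x, C₀ * ‖x‖, fun k => ?_⟩, ?_⟩
  · refine (hc.bd (pw_bd a hr k).1 (pw_bd a hr k).2 x).trans (le_of_eq ?_)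
    ring
  · show P (pw a r 0) x ≠ 0
    rw [pw_zero]
    exact hx

/-- SUR -/
theorem sur [CompleteSpace X] (hc : Calc N P C₀) (u : X) (v : StrongDual ℂ X) {a : ℂ}
    (hE : EssP P a) : ¬ ∀ x : X, ∃ (W : X) (c : ℂ), x = TT N u v W - a • W + c • u := by
  intro hsurj
  let L : (X × ℂ) →L[ℂ] X :=
    (TT N u v - a • ContinuousLinearMap.id ℂ X).comp (ContinuousLinearMap.fst ℂ X ℂ) +
      (ContinuousLinearMap.snd ℂ X ℂ).smulRight u
  have hL : ∀ (W : X) (c : ℂ), L (W, c) = TT N u v W - a • W + c • u := by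
    intro W c
    simp [L]
  have hs : Function.Surjective L := by
    intro x
    obtain ⟨W, c, h⟩ := hsurj x
    exact ⟨(W, c), by rw [hL, ← h]⟩
  obtain ⟨C, hC0, hC⟩ := L.exists_preimage_norm_le hs
  have hP0 := hc.nonneg
  set t : ℝ := 1 / (2 * (C₀ * C + 1)) with ht
  have ht0 : 0 < t := by positivity
  have hE' := hE t ht0
  set S : Submodule ℂ X := LinearMap.range (P (bI a t)).toLinearMap with hS
  have hmem : ∀ y, P (bI a t) y ∈ S := fun y => ⟨y, rfl⟩
  set F : Submodule ℂ S := Submodule.span ℂ {(⟨P (bI a t) u, hmem u⟩ : S)} with hF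
  have hFf : FiniteDimensional ℂ F := by
    rw [hF]
    infer_instance
  have hFc : IsClosed (F : Set S) := Submodule.closed_of_finiteDimensional F
  have hFp : ∃ x : S, x ∉ F := by
    by_contra h
    push Not at h
    apply hE'
    have h1 : F = ⊤ := Submodule.eq_top_iff'.2 h
    rw [h1] at hFf
    exact (Submodule.topEquiv (R := ℂ) (M := S)).finiteDimensional
  obtain ⟨x₀, hx₀, hR⟩ := riesz_lemma hFc hFp (show (3 / 4 : ℝ) < 1 by norm_num)
  obtain ⟨p, hp, hpn⟩ := hC (x₀ : X)
  have hidem : P (bI a t) (x₀ : X) = x₀ := by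
    obtain ⟨y, hy⟩ := x₀.2
    have hy' : P (bI a t) y = x₀ := hy
    rw [← hy', mul_app hc (bb_bI a t) (bb_bI a t)]
    congr 2
    funext z
    by_cases hz : z ∈ ball a t
    · simp only [bI, indicator_of_mem hz, mul_one]
    · simp only [bI, indicator_of_notMem hz, mul_zero]
  set β : ℂ := v p.1 + p.2 with hβ
  have h1 : (x₀ : X) = P (pw a t 1) p.1 + β • P (bI a t) u := by
    have h2 : (x₀ : X) = (N p.1 - a • p.1) + β • u := by
      rw [← hp]
      conv_lhs => rw [← Prod.mk.eta (p := p), hL, TT_apply]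
      rw [hβ]
      module
    have h3 : P (bI a t) (N p.1 - a • p.1) = P (pw a t 1) p.1 := by
      have h4 := pw_step hc a ht0 0 p.1
      rw [pw_zero, zero_add] at h4
      rw [map_sub, map_smul, ← h4]
      congr 1
      have h5 := congrArg (fun Q : X →L[ℂ] X => Q p.1) (comm hc (bb_bI a t))
      exact h5
    conv_lhs => rw [← hidem, h2, map_add, map_smul, h3]
  have h2 : ‖(x₀ : X) - β • P (bI a t) u‖ ≤ 1 / 2 * ‖x₀‖ := by
    have h3 : (x₀ : X) - β • P (bI a t) u = P (pw a t 1) p.1 := by
      rw [h1]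
      have : ((⟨P (pw a t 1) p.1 + β • P (bI a t) u, by rw [← h1]; exact x₀.2⟩ : S) : X) =
        P (pw a t 1) p.1 + β • P (bI a t) u := rfl
      abel
    rw [h3]
    calc ‖P (pw a t 1) p.1‖ ≤ C₀ * t ^ 1 * ‖p.1‖ := hc.bd (pw_bd a ht0 1).1 (pw_bd a ht0 1).2 _
      _ ≤ C₀ * t ^ 1 * (C * ‖x₀‖) := by
          refine mul_le_mul_of_nonneg_left ((norm_fst_le p).trans hpn) (by positivity)
      _ = (C₀ * C) * t * ‖x₀‖ := by ring
      _ ≤ 1 / 2 * ‖x₀‖ := by
          refine mul_le_mul_of_nonneg_right ?_ (norm_nonneg _)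
          rw [ht]
          have : 0 < 2 * (C₀ * C + 1) := by positivity
          rw [mul_one_div, div_le_div_iff₀ this two_pos]
          linarith
  have h3 := hR (β • ⟨P (bI a t) u, hmem u⟩) (F.smul_mem _ (Submodule.mem_span_singleton_self _))
  have h4 : ‖x₀ - β • (⟨P (bI a t) u, hmem u⟩ : S)‖ = ‖(x₀ : X) - β • P (bI a t) u‖ := rfl
  rw [h4] at h3
  have h5 : 0 < ‖x₀‖ := by
    rw [norm_pos_iff]
    rintro rfl
    exact hx₀ F.zero_mem
  linarith

/-! ### compactness -/

lemma compact_of_finite {T : X →L[ℂ] X} (h : FiniteDimensional ℂ (LinearMap.range T.toLinearMap)) :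
    IsCompactOperator (⇑T) := by
  have : ProperSpace (LinearMap.range T.toLinearMap) := FiniteDimensional.proper ℂ _
  let T' : X →L[ℂ] LinearMap.range T.toLinearMap :=
    T.codRestrict _ fun x => ⟨x, rfl⟩
  have h1 : IsCompactOperator (⇑T') :=
    isCompactOperator_of_locallyCompactSpace_dom T'
  have h2 := h1.clm_comp (LinearMap.range T.toLinearMap).subtypeL
  exact h2

/-- FRE: outside the essential spectrum -/
theorem fre (hc : Calc N P C₀) {c : ℂ} (hE : ¬ EssP P c) :
    ∃ A F : X →L[ℂ] X, N = A + F ∧ IsCompactOperator F ∧ c ∉ spectrum ℂ A := by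
  classical
  unfold EssP at hE
  push Not at hE
  obtain ⟨t, ht, hfin⟩ := hE
  obtain ⟨R, hR⟩ := hc.supp
  have hcomp := compact_of_finite hfin
  set g : ℂ → ℂ := fun z => if z ∈ ball c t then c + 1 else
    if z ∈ closedBall (0:ℂ) R then z else c + 1 with hg
  have hgm : Measurable g := Measurable.ite measurableSet_ball measurable_const
    (Measurable.ite isClosed_closedBall.measurableSet measurable_id measurable_const)
  have hgb : BB g := by
    refine ⟨hgm, ‖c + 1‖ + |R|, fun z => ?_⟩
    simp only [hg]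
    split_ifs with h1 h2
    · exact le_add_of_nonneg_right (abs_nonneg _)
    · rw [mem_closedBall, dist_zero_right] at h2
      exact h2.trans ((le_abs_self R).trans (le_add_of_nonneg_left (norm_nonneg _)))
    · exact le_add_of_nonneg_right (abs_nonneg _)
  have hlow : ∀ z, min t 1 ≤ ‖g z - c‖ := by
    intro z
    simp only [hg]
    split_ifs with h1 h2
    · rw [add_sub_cancel_left, norm_one]
      exact min_le_right _ _
    · rw [mem_ball, dist_eq_norm, not_lt] at h1
      exact (min_le_left _ _).trans h1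
    · rw [add_sub_cancel_left, norm_one]
      exact min_le_right _ _
  have hpos : 0 < min t 1 := lt_min ht one_pos
  have hib : BB (fun z => (g z - c)⁻¹) := by
    refine ⟨(hgm.sub_const c).inv, (min t 1)⁻¹, fun z => ?_⟩
    rw [norm_inv]
    exact inv_anti₀ hpos (hlow z)
  have hdb : BB (fun z => g z + (-c) * 1) := hgb.add ((BB.const 1).smul _)
  have hPd : P (fun z => g z + (-c) * 1) = P g - c • 1 := by
    rw [hc.add _ _ hgb ((BB.const 1).smul _), hc.smul _ _ (BB.const 1), hc.one, neg_smul,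
      sub_eq_add_neg]
  have hne : ∀ z, g z - c ≠ 0 := fun z h => by
    have := hlow z
    rw [h, norm_zero] at this
    linarith
  have hinv1 : (P g - c • 1) * P (fun z => (g z - c)⁻¹) = 1 := by
    rw [← hPd, ← hc.mul _ _ hdb hib, ← hc.one]
    congr 1
    funext z
    have := hne z
    rw [show g z + -c * 1 = g z - c by ring]
    exact mul_inv_cancel₀ this
  have hinv2 : P (fun z => (g z - c)⁻¹) * (P g - c • 1) = 1 := by
    rw [← hPd, ← hc.mul _ _ hib hdb, ← hc.one]
    congr 1
    funext z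
    have := hne z
    rw [show g z + -c * 1 = g z - c by ring]
    exact inv_mul_cancel₀ this
  refine ⟨P g, N - P g, by abel, ?_, ?_⟩
  · have hnb : BB (fun z => nf R z + (-1) * g z) := (bb_nf R).add (hgb.smul _)
    have e : N - P g = P (fun z => nf R z + (-1) * g z) * P (bI c t) := by
      rw [← hc.mul _ _ hnb (bb_bI c t)]
      have e1 : N - P g = P (fun z => nf R z + (-1) * g z) := by
        rw [hc.add _ _ (bb_nf R) (hgb.smul _), hc.smul _ _ hgb, ← N_eq hc hR, neg_one_smul,
          sub_eq_add_neg]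
      rw [e1]
      refine P_off hc hR hnb (hnb.mul (bb_bI c t)) fun z hz => ?_
      by_cases h : z ∈ ball c t
      · simp only [bI, indicator_of_mem h, mul_one]
      · simp only [bI, indicator_of_notMem h, mul_zero, nf, indicator_of_mem hz, hg, if_neg h,
          if_pos hz]
        ring
    rw [e]
    exact hcomp.clm_comp _
  · rw [spectrum.notMem_iff, IsUnit.sub_iff]
    refine ⟨⟨P g - c • 1, P (fun z => (g z - c)⁻¹), hinv1, hinv2⟩, ?_⟩
    rw [Algebra.algebraMap_eq_smul_one]

/-- `N - a` is compact if `a` is the only point of the essential spectrum -/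
theorem compact_of_one (hc : Calc N P C₀) {a : ℂ} (h : ∀ c, c ≠ a → ¬ EssP P c) [CompleteSpace X] :
    IsCompactOperator (⇑(N - a • (1 : X →L[ℂ] X))) := by
  obtain ⟨R, hR⟩ := hc.supp
  -- the compact part
  have hcpt : ∀ K : Set ℂ, IsCompact K → a ∉ K → ∃ S : Set ℂ, MeasurableSet S ∧ K ⊆ S ∧
      IsCompactOperator (⇑(P (S.indicator fun _ => 1))) := by
    intro K hK haK
    refine hK.induction_on (p := fun K => ∃ S : Set ℂ, MeasurableSet S ∧ K ⊆ S ∧
      IsCompactOperator (⇑(P (S.indicator fun _ => 1)))) ?_ ?_ ?_ ?_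
    · refine ⟨∅, MeasurableSet.empty, le_rfl, ?_⟩
      rw [indicator_empty, P_zero hc]
      exact isCompactOperator_zero
    · rintro s t hst ⟨S, h1, h2, h3⟩
      exact ⟨S, h1, hst.trans h2, h3⟩
    · rintro s t ⟨S, h1, h2, h3⟩ ⟨S', h1', h2', h3'⟩
      refine ⟨S ∪ S', h1.union h1', union_subset_union h2 h2', ?_⟩
      have hi := BB.ind h1
      have hi' := BB.ind h1'
      have hd : BB (fun z => 1 + (-1) * S.indicator (fun _ => (1:ℂ)) z) :=
        (BB.const 1).add (hi.smul _)
      have e : (S ∪ S').indicator (fun _ => (1:ℂ)) = fun z => S.indicator (fun _ => (1:ℂ)) z +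
          (1 + (-1) * S.indicator (fun _ => (1:ℂ)) z) * S'.indicator (fun _ => (1:ℂ)) z := by
        funext z
        by_cases hz : z ∈ S
        · rw [indicator_of_mem (show z ∈ S ∪ S' from Or.inl hz), indicator_of_mem hz]
          ring
        · by_cases hz' : z ∈ S'
          · rw [indicator_of_mem (show z ∈ S ∪ S' from Or.inr hz'), indicator_of_notMem hz,
              indicator_of_mem hz']
            ring
          · rw [indicator_of_notMem (show z ∉ S ∪ S' by rintro (h | h) <;> contradiction),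
              indicator_of_notMem hz, indicator_of_notMem hz']
            ring
      rw [e, hc.add _ _ hi (hd.mul hi'), hc.mul _ _ hd hi']
      exact h3.add (h3'.clm_comp _)
    · intro c hcK
      have hca : c ≠ a := fun h => haK (h ▸ hcK)
      have hE := h c hca
      unfold EssP at hE
      push Not at hE
      obtain ⟨t, ht, hfin⟩ := hE
      refine ⟨ball c t, mem_nhdsWithin_of_mem_nhds (ball_mem_nhds c ht), ball c t,
        measurableSet_ball, le_rfl, compact_of_finite hfin⟩
  have hmem : (N - a • (1 : X →L[ℂ] X)) ∈ closure {T : X →L[ℂ] X | IsCompactOperator (⇑T)} := by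
    rw [Metric.mem_closure_iff]
    intro ε hε
    set δ : ℝ := ε / (2 * (C₀ + 1)) with hδ
    have hP0 := hc.nonneg
    have hδ0 : 0 < δ := by positivity
    set K : Set ℂ := closedBall (0:ℂ) R \ ball a δ with hK
    obtain ⟨S, hS1, hS2, hS3⟩ := hcpt K ((isCompact_closedBall 0 R).diff isOpen_ball)
      (fun h => h.2 (mem_ball_self hδ0))
    have hi := BB.ind hS1
    have hnb : BB (fun z => nf R z + (-a) * 1) := (bb_nf R).add ((BB.const 1).smul _)
    have hPn : P (fun z => nf R z + (-a) * 1) = N - a • 1 := by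
      rw [hc.add _ _ (bb_nf R) ((BB.const 1).smul _), hc.smul _ _ (BB.const 1), hc.one, neg_smul,
        ← N_eq hc hR, sub_eq_add_neg]
    have hm1 : IsCompactOperator (⇑((N - a • (1 : X →L[ℂ] X)) * P (S.indicator fun _ => 1))) :=
      IsCompactOperator.clm_comp hS3 (N - a • (1 : X →L[ℂ] X))
    refine ⟨(N - a • 1) * P (S.indicator fun _ => 1), hm1, ?_⟩
    set f : ℂ → ℂ := fun z => (Sᶜ ∩ closedBall (0:ℂ) R).indicator (fun z => z - a) z with hf
    have hfm : Measurable f :=
      Measurable.indicator (by fun_prop) (hS1.compl.inter isClosed_closedBall.measurableSet)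
    have hfb : ∀ z, ‖f z‖ ≤ δ := by
      intro z
      by_cases hz : z ∈ Sᶜ ∩ closedBall (0:ℂ) R
      · simp only [hf, indicator_of_mem hz]
        have h1 : z ∈ ball a δ := by
          by_contra h2
          exact hz.1 (hS2 ⟨hz.2, h2⟩)
        rw [mem_ball, dist_eq_norm] at h1
        exact h1.le
      · simp only [hf, indicator_of_notMem hz, norm_zero]
        exact hδ0.le
    have hfB : BB f := ⟨hfm, δ, hfb⟩
    have e : (N - a • (1 : X →L[ℂ] X)) - (N - a • 1) * P (S.indicator fun _ => 1) = P f := by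
      have hd : BB (fun z => (nf R z + (-a) * 1) +
          (-1) * ((nf R z + (-a) * 1) * S.indicator (fun _ => (1:ℂ)) z)) :=
        hnb.add ((hnb.mul hi).smul _)
      have e1 : P f = P (fun z => (nf R z + (-a) * 1) +
          (-1) * ((nf R z + (-a) * 1) * S.indicator (fun _ => (1:ℂ)) z)) := by
        refine P_off hc hR hfB hd fun z hz => ?_
        by_cases h1 : z ∈ S
        · have h2 : z ∉ Sᶜ ∩ closedBall (0:ℂ) R := fun h => h.1 h1
          simp only [hf, indicator_of_notMem h2, indicator_of_mem h1]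
          ring
        · have h2 : z ∈ Sᶜ ∩ closedBall (0:ℂ) R := ⟨h1, hz⟩
          simp only [hf, indicator_of_mem h2, indicator_of_notMem h1, nf, indicator_of_mem hz]
          ring
      rw [e1, hc.add _ _ hnb ((hnb.mul hi).smul _), hc.smul _ _ (hnb.mul hi), hc.mul _ _ hnb hi,
        hPn, neg_one_smul, sub_eq_add_neg]
    rw [dist_eq_norm, e]
    calc ‖P f‖ ≤ C₀ * δ := hc.bound f δ hfm hfb
      _ < ε := by
        rw [hδ, ← mul_div_assoc, div_lt_iff₀ (by positivity)]
        nlinarith
  have hcl : IsClosed {T : X →L[ℂ] X | IsCompactOperator (⇑T)} :=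
    isClosed_setOfPred_isCompactOperator
  rw [hcl.closure_eq] at hmem
  exact hmem

end Pool.Agent.X207.RB
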