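import Pool.Agent.X207.RBDefs

/-!
# Convergence almost everywhere
-/

set_option autoImplicit false

namespace Pool.Agent.X207.RB

open MeasureTheory Set Metric Filter Topology
open scoped ENNReal NNReal ComplexConjugate ContDiff
open Pool.Agent.Y271.RO (db ht Bd S_HT S_CTG S_POM S_PTW ff)
open Pool.Agent.Y283.NK (ct)

variable {X : Type} [NormedAddCommGroup X] [NormedSpace ℂ X]
variable {N : X →L[ℂ] X} {P : (ℂ → ℂ) → (X →L[ℂ] X)} {C₀ : ℝ}

/-- bounded functions suffice for testing weak convergence -/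
lemma tendsto_of_bdd {m : Measure ℂ} [IsFiniteMeasure m] (F : ℕ → ℂ → ℂ) (F' : ℂ → ℂ) (D : ℝ)
    (hF : ∀ n, Measurable (F n)) (hF' : Measurable F') (hD : ∀ n z, ‖F n z‖ ≤ D)
    (hD' : ∀ z, ‖F' z‖ ≤ D)
    (h : ∀ g, BB g → Tendsto (fun n => ∫ z, g z * F n z ∂m) atTop (𝓝 (∫ z, g z * F' z ∂m)))
    (x : ℂ → ℂ) (hx : Measurable x) (hxi : Integrable x m) :
    Tendsto (fun n => ∫ z, x z * F n z ∂m) atTop (𝓝 (∫ z, x z * F' z ∂m)) := by
  have hD0 : 0 ≤ D := (norm_nonneg _).trans (hD' 0)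
  set g : ℕ → ℂ → ℂ := fun k => {z | ‖x z‖ ≤ k}.indicator x with hg
  have hsm : ∀ k : ℕ, MeasurableSet {z | ‖x z‖ ≤ k} := fun k =>
    measurableSet_le hx.norm measurable_const
  have hgm : ∀ k, Measurable (g k) := fun k => hx.indicator (hsm k)
  have hgb : ∀ k z, ‖g k z‖ ≤ k := by
    intro k z
    by_cases hz : z ∈ {z | ‖x z‖ ≤ k}
    · rw [hg]
      simp only
      rw [indicator_of_mem hz]
      exact hz
    · rw [hg]
      simp only
      rw [indicator_of_notMem hz, norm_zero]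
      positivity
  have hgx : ∀ k z, ‖g k z‖ ≤ ‖x z‖ := by
    intro k z
    by_cases hz : z ∈ {z | ‖x z‖ ≤ k}
    · rw [hg]
      simp only
      rw [indicator_of_mem hz]
    · rw [hg]
      simp only
      rw [indicator_of_notMem hz, norm_zero]
      positivity
  have hlim : Tendsto (fun k => ∫ z, ‖x z - g k z‖ ∂m) atTop (𝓝 (∫ _, (0:ℝ) ∂m)) := by
    refine tendsto_integral_of_dominated_convergence (fun z => ‖x z‖ + ‖x z‖) (fun k =>
      (hx.sub (hgm k)).norm.aestronglyMeasurable) (hxi.norm.add hxi.norm) (fun k => ?_) ?_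
    · refine Eventually.of_forall fun z => ?_
      rw [norm_norm]
      exact (norm_sub_le _ _).trans (add_le_add le_rfl (hgx k z))
    · refine Eventually.of_forall fun z => ?_
      obtain ⟨K, hK⟩ := exists_nat_ge ‖x z‖
      refine tendsto_const_nhds.congr' ?_
      filter_upwards [eventually_ge_atTop K] with k hk
      have hz : z ∈ {z | ‖x z‖ ≤ k} := hK.trans (by exact_mod_cast hk)
      rw [hg]
      simp only
      rw [indicator_of_mem hz, sub_self, norm_zero]
  rw [integral_zero] at hlim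
  rw [Metric.tendsto_atTop]
  intro ε hε
  obtain ⟨k, hk⟩ := (hlim.eventually (gt_mem_nhds (show 0 < ε / (3 * (D + 1)) by positivity))).exists
  obtain ⟨n₀, hn₀⟩ := Metric.tendsto_atTop.1 (h (g k) ⟨hgm k, k, hgb k⟩) (ε / 3) (by positivity)
  have hbig : ∀ f : ℂ → ℂ, Measurable f → (∀ z, ‖f z‖ ≤ D) →
      ‖(∫ z, x z * f z ∂m) - ∫ z, g k z * f z ∂m‖ < ε / 3 := by
    intro f hf hfD
    have i1 : Integrable (fun z => x z * f z) m := by
      have := hxi.bdd_mul (c := D) hf.aestronglyMeasurable (Eventually.of_forall hfD)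
      refine this.congr (Eventually.of_forall fun z => ?_)
      simp only
      ring
    have i3 : Integrable (g k) m :=
      hxi.mono (hgm k).aestronglyMeasurable (Eventually.of_forall (hgx k))
    have i2 : Integrable (fun z => g k z * f z) m := by
      have := i3.bdd_mul (c := D) hf.aestronglyMeasurable (Eventually.of_forall hfD)
      refine this.congr (Eventually.of_forall fun z => ?_)
      simp only
      ring
    rw [← integral_sub i1 i2]
    calc ‖∫ z, (x z * f z - g k z * f z) ∂m‖ ≤ ∫ z, ‖x z * f z - g k z * f z‖ ∂m :=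
          norm_integral_le_integral_norm _
      _ ≤ ∫ z, D * ‖x z - g k z‖ ∂m := by
          refine integral_mono_of_nonneg (Eventually.of_forall fun z => norm_nonneg _)
            ((hxi.sub i3).norm.const_mul D) (Eventually.of_forall fun z => ?_)
          show ‖x z * f z - g k z * f z‖ ≤ D * ‖x z - g k z‖
          rw [← sub_mul, norm_mul, mul_comm]
          exact mul_le_mul_of_nonneg_right (hfD z) (norm_nonneg _)
      _ = D * ∫ z, ‖x z - g k z‖ ∂m := integral_const_mul _ _
      _ ≤ (D + 1) * ∫ z, ‖x z - g k z‖ ∂m :=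
          mul_le_mul_of_nonneg_right (by linarith) (integral_nonneg fun _ => norm_nonneg _)
      _ < (D + 1) * (ε / (3 * (D + 1))) := mul_lt_mul_of_pos_left hk (by linarith)
      _ = ε / 3 := by
          have : D + 1 ≠ 0 := by linarith
          field_simp
  refine ⟨n₀, fun n hn => ?_⟩
  have h1 := hbig (F n) (hF n) (hD n)
  have h2 := hbig F' hF' hD'
  have h3 := hn₀ n hn
  rw [dist_eq_norm] at h3 ⊢
  rw [norm_sub_rev] at h2
  calc ‖(∫ z, x z * F n z ∂m) - ∫ z, x z * F' z ∂m‖
      = ‖((∫ z, x z * F n z ∂m) - ∫ z, g k z * F n z ∂m) +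
        ((∫ z, g k z * F n z ∂m) - ∫ z, g k z * F' z ∂m) +
        ((∫ z, g k z * F' z ∂m) - ∫ z, x z * F' z ∂m)‖ := by
          congr 1
          ring
    _ ≤ _ := norm_add₃_le
    _ < ε := by linarith

/-- PTW -/
theorem ptw (hPTW : S_PTW) (hc : Calc N P C₀) {u : X}
    {v : StrongDual ℂ X} {m : Measure ℂ} {θ : ℂ → ℂ} (hrep : Rep P v u m θ) (a : ℂ) {ρ C : ℝ}
    (hρ : 0 < ρ) (q : ℕ → ℂ → ℂ) (G : ℂ → ℂ) (hq : ∀ n, ContDiff ℝ 1 (q n))
    (hqC : ∀ n, ∀ z ∈ ball a ρ, ‖q n z‖ ≤ C) (hG : DifferentiableOn ℂ G (ball a ρ))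
    (hGC : ∀ z ∈ ball a ρ, ‖G z‖ ≤ C)
    (hweak : ∀ h : ℂ → ℂ, IntegrableOn h (ball a ρ) →
      Tendsto (fun n => ∫ z in ball a ρ, q n z * h z) atTop (𝓝 (∫ z in ball a ρ, G z * h z)))
    (hq0 : Tendsto (fun n => ∫⁻ z in ball a ρ, ‖(1 - cc m θ z) * db (q n) z‖ₑ) atTop (𝓝 0))
    (ψ : ℂ → ℂ) (hψ : ContDiff ℝ ∞ ψ) (hψs : tsupport ψ ⊆ ball a ρ)
    (hmid : ∀ w : StrongDual ℂ X, Tendsto (fun n => w (P (fun z => q n z * ψ z) u)) atTop
      (𝓝 (w (P (fun z => G z * ψ z) u)))) :
    ∃ s : ℕ → ℕ, StrictMono s ∧ ∀ᵐ w : ℂ, Tendsto (fun n => ψ w * q (s n) w * (1 - cc m θ w))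
      atTop (𝓝 (ψ w * G w * (1 - cc m θ w))) := by
  have := hrep.fin
  obtain ⟨W, U, hW, hU, hct⟩ := hrep.toL2
  have hff : ∀ z, ff (fun z : ℂ => z) U W z = 1 - cc m θ z := by
    intro z
    unfold ff
    rw [hct]
  -- bounds
  have hψc : HasCompactSupport ψ :=
    Metric.isCompact_of_isClosed_isBounded (isClosed_tsupport ψ) (isBounded_ball.subset hψs)
  obtain ⟨B, hB⟩ := hψc.exists_bound_of_continuous hψ.continuous
  have hB0 : 0 ≤ B := (norm_nonneg _).trans (hB a)
  have hC0 : 0 ≤ C := (norm_nonneg _).trans (hGC a (mem_ball_self hρ))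
  have hψ0 : ∀ z, z ∉ ball a ρ → ψ z = 0 := fun z hz =>
    image_eq_zero_of_notMem_tsupport fun h => hz (hψs h)
  have hbd : ∀ f : ℂ → ℂ, (∀ z ∈ ball a ρ, ‖f z‖ ≤ C) → ∀ z, ‖f z * ψ z‖ ≤ C * B := by
    intro f hf z
    by_cases hz : z ∈ ball a ρ
    · rw [norm_mul]
      exact mul_le_mul (hf z hz) (hB z) (norm_nonneg _) hC0
    · rw [hψ0 z hz, mul_zero, norm_zero]
      positivity
  have hGm : Continuous (fun z => G z * ψ z) := by
    rw [continuous_iff_continuousAt]
    intro z
    by_cases hz : z ∈ ball a ρ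
    · exact (hG.continuousOn.continuousAt (isOpen_ball.mem_nhds hz)).mul hψ.continuous.continuousAt
    · have h8 : z ∉ tsupport ψ := fun h => hz (hψs h)
      have h9 : (fun z => G z * ψ z) =ᶠ[𝓝 z] fun _ => 0 := by
        filter_upwards [notMem_tsupport_iff_eventuallyEq.1 h8] with w hw
        rw [hw]
        simp
      exact continuousAt_const.congr h9.symm
  have hqm : ∀ n, Measurable (fun z => q n z * ψ z) := fun n =>
    ((hq n).continuous.mul hψ.continuous).measurable
  have hbq : ∀ n, BB (fun z => q n z * ψ z) := fun n => ⟨hqm n, _, hbd _ (hqC n)⟩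
  have hbG : BB (fun z => G z * ψ z) := ⟨hGm.measurable, _, hbd _ hGC⟩
  have htest : ∀ g, BB g → Tendsto (fun n => ∫ z, g z * (q n z * ψ z) ∂m) atTop
      (𝓝 (∫ z, g z * (G z * ψ z) ∂m)) := by
    intro g hg
    have hb : BB (fun z => conj (θ z)) :=
      ⟨Complex.continuous_conj.measurable.comp hrep.meas, 1, fun z => by
        rw [RCLike.norm_conj, hrep.norm]⟩
    have hgθ : BB (fun z => g z * conj (θ z)) := hg.mul hb
    have h1 := hmid (v.comp (P fun z => g z * conj (θ z)))
    have key : ∀ f, BB f → (v.comp (P fun z => g z * conj (θ z))) (P f u) =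
        ∫ z, g z * f z ∂m := by
      intro f hf
      have e1 : (v.comp (P fun z => g z * conj (θ z))) (P f u) =
          v (P (fun z => (g z * conj (θ z)) * f z) u) := by
        rw [hc.mul _ _ hgθ hf]
        rfl
      rw [e1, hrep.eq _ (hgθ.mul hf)]
      congr 1
      funext z
      have : conj (θ z) * θ z = 1 := by
        rw [Complex.conj_mul', hrep.norm]
        simp
      linear_combination g z * f z * this
    rw [key _ hbG] at h1
    exact h1.congr fun n => key _ (hbq n)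
  have hL2 : ∀ x : Lp ℂ 2 m,
      Tendsto (fun n => ∫ s, conj (x s) * (q n s * ψ s * U s) ∂m) atTop
        (𝓝 (∫ s, conj (x s) * (G s * ψ s * U s) ∂m)) := by
    intro x
    have hxm : Measurable (fun s => conj (x s)) :=
      Complex.continuous_conj.measurable.comp (Lp.stronglyMeasurable x).measurable
    have hxi : Integrable (fun s => conj (x s)) m := by
      have h1 : Integrable (x : ℂ → ℂ) m := (Lp.memLp x).integrable (by norm_num)
      exact h1.mono hxm.aestronglyMeasurable (Eventually.of_forall fun s => by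
        rw [RCLike.norm_conj])
    have h1 := tendsto_of_bdd (m := m) (fun n z => q n z * ψ z) (fun z => G z * ψ z) (C * B)
      hqm hGm.measurable (fun n => hbd _ (hqC n)) (hbd _ hGC) htest _ hxm hxi
    have e : ∀ f : ℂ → ℂ, ∫ s, conj (x s) * (f s * ψ s * U s) ∂m =
        ∫ s, conj (x s) * (f s * ψ s) ∂m := by
      intro f
      refine integral_congr_ae ?_
      filter_upwards [hU] with s hs
      rw [hs, mul_one]
    rw [e]
    exact h1.congr fun n => (e _).symm
  have hmain := hPTW ℂ m (fun z => z) measurable_id U W a ρ C q G hρ hq hqC hG hGC hweak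
    (by simp only [hff]; exact hq0) ψ hψ hψs hL2
  obtain ⟨s, hs, hae⟩ := hmain
  refine ⟨s, hs, ?_⟩
  filter_upwards [hae] with w hw
  rw [hff] at hw
  exact hw

end Pool.Agent.X207.RB
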