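import Pool.Agent.X207.RBTest
import Pool.Agent.Y914.RO.VEC
import Pool.Agent.Y51.RO.TST
import Pool.Agent.Y287.RO.MID

/-!
# The vectors of case A, test functions, and the convergence for the functional calculus
-/

set_option autoImplicit false

namespace Pool.Agent.X207.RB

open MeasureTheory Set Metric Filter Topology
open scoped ENNReal NNReal ComplexConjugate ContDiff
open Pool.Agent.Y271.RO (db ht Bd S_HT S_CTG S_POM)

variable {X : Type} [NormedAddCommGroup X] [NormedSpace ℂ X]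
variable {N : X →L[ℂ] X} {P : (ℂ → ℂ) → (X →L[ℂ] X)} {C₀ : ℝ}

/-- continuous functions with support in a ball -/
lemma bb_of_supp {χ : ℂ → ℂ} {a : ℂ} {r : ℝ} (hχ : Continuous χ) (hs : tsupport χ ⊆ ball a r) :
    BB χ := by
  have hcs : HasCompactSupport χ :=
    Metric.isCompact_of_isClosed_isBounded (isClosed_tsupport χ) (isBounded_ball.subset hs)
  obtain ⟨M, hM⟩ := hcs.exists_bound_of_continuous hχ
  exact ⟨hχ.measurable, M, hM⟩

/-- VEC -/
theorem vec (hHT : S_HT) (hCTG : S_CTG) (hPOM : S_POM) (hc : Calc N P C₀) {u : X}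
    {v : StrongDual ℂ X} {m : Measure ℂ} {θ : ℂ → ℂ} (hrep : Rep P v u m θ) (a : ℂ) {r : ℝ}
    (hr : 0 < r) (ψ : ℂ → ℂ) (hψ : ContDiff ℝ ∞ ψ) (hψs : tsupport ψ ⊆ ball a r) (C : ℝ) :
    ∃ K : ℝ, ∀ q : ℂ → ℂ,
      ContDiff ℝ 1 q → (∀ z ∈ ball a r, ‖q z‖ ≤ C) →
      ∃ V : ℕ → X, (∀ k, ‖V k‖ ≤ K * r ^ k) ∧
        (∀ k, TT N u v (V k) - a • V k = V (k + 1) +
          (∫ z in ball a r, (z - a) ^ k * ψ z * ((1 - cc m θ z) * db q z)) • u) ∧
        ∀ (w : StrongDual ℂ X) (m' : Measure ℂ) (θ' : ℂ → ℂ), Rep P w u m' θ' →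
          w (V 0) = (∫ z, q z * db ψ z * cc m' θ' z) +
            Real.pi * w (P (fun z => q z * ψ z) u) := by
  obtain ⟨hP1, hP2, hP3, -, hP5, -, hP7⟩ := hPOM
  obtain ⟨K₀, hK₀, hHT'⟩ := hHT r hr
  have hψ1 : ContDiff ℝ 1 ψ := hψ.of_le (by exact_mod_cast le_top)
  have hψc : HasCompactSupport ψ :=
    Metric.isCompact_of_isClosed_isBounded (isClosed_tsupport ψ) (isBounded_ball.subset hψs)
  have hdψc : HasCompactSupport (db ψ) := HasCompactSupport.intro hψc fun z hz => hP7 ψ z hz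
  obtain ⟨C₁, hC₁⟩ := hψc.exists_bound_of_continuous hψ1.continuous
  obtain ⟨C₂, hC₂⟩ := hdψc.exists_bound_of_continuous (hP5 ψ hψ1)
  have hC₁0 : 0 ≤ C₁ := (norm_nonneg _).trans (hC₁ 0)
  have hC₂0 : 0 ≤ C₂ := (norm_nonneg _).trans (hC₂ 0)
  have hψ0 : ∀ z, z ∉ ball a r → ψ z = 0 := fun z hz =>
    image_eq_zero_of_notMem_tsupport fun h => hz (hψs h)
  have hdψ0 : ∀ z, z ∉ ball a r → db ψ z = 0 := fun z hz => hP7 ψ z fun h => hz (hψs h)
  refine ⟨C₀ * (K₀ * (|C| * C₂) + Real.pi * (|C| * C₁)) * ‖u‖, ?_⟩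
  intro q hq hqC
  have hqC' : ∀ z ∈ ball a r, ‖q z‖ ≤ |C| := fun z hz => (hqC z hz).trans (le_abs_self C)
  have hdq := hP5 q hq
  -- the three functions
  set g : ℂ → ℂ := fun z => q z * db ψ z with hg
  set e : ℂ → ℂ := fun z => ψ z * db q z with he
  set χ : ℂ → ℂ := fun z => q z * ψ z with hχ
  have hgc : Continuous g := hq.continuous.mul (hP5 ψ hψ1)
  have hec : Continuous e := hψ1.continuous.mul hdq
  have hχc : ContDiff ℝ 1 χ := hq.mul hψ1
  have hes : HasCompactSupport e := hψc.mul_right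
  obtain ⟨Me, hMe⟩ := hes.exists_bound_of_continuous hec
  have hMe0 : 0 ≤ Me := (norm_nonneg _).trans (hMe 0)
  have hg0 : ∀ z, z ∉ ball a r → g z = 0 := fun z hz => by simp only [hg, hdψ0 z hz, mul_zero]
  have he0 : ∀ z, z ∉ ball a r → e z = 0 := fun z hz => by simp only [he, hψ0 z hz, zero_mul]
  have hχ0 : ∀ z, z ∉ ball a r → χ z = 0 := fun z hz => by simp only [hχ, hψ0 z hz, mul_zero]
  have hgb : ∀ z ∈ ball a r, ‖g z‖ ≤ |C| * C₂ := fun z hz => by
    simp only [hg, norm_mul]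
    exact mul_le_mul (hqC' z hz) (hC₂ z) (norm_nonneg _) (abs_nonneg C)
  have hχb : ∀ z ∈ ball a r, ‖χ z‖ ≤ |C| * C₁ := fun z hz => by
    simp only [hχ, norm_mul]
    exact mul_le_mul (hqC' z hz) (hC₁ z) (norm_nonneg _) (abs_nonneg C)
  have Bg : ∀ k : ℕ, Bd (fun z => (z - a) ^ k * g z) a r (r ^ k * (|C| * C₂)) := fun k =>
    Pool.Agent.Y914.RO.VEC.bdk g hgc (by positivity) hr hgb hg0 k
  have Be : ∀ k : ℕ, Bd (fun z => (z - a) ^ k * e z) a r (r ^ k * Me) := fun k =>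
    Pool.Agent.Y914.RO.VEC.bdk e hec hMe0 hr (fun z _ => hMe z) he0 k
  have Bχ : ∀ k : ℕ, Bd (fun z => (z - a) ^ k * χ z) a r (r ^ k * (|C| * C₁)) := fun k =>
    Pool.Agent.Y914.RO.VEC.bdk χ hχc.continuous (by positivity) hr hχb hχ0 k
  -- the product rule
  have hdb : ∀ (k : ℕ) (z : ℂ), db (fun z => (z - a) ^ k * χ z) z =
      (z - a) ^ k * g z + (z - a) ^ k * e z := by
    intro k z
    have hF : DifferentiableAt ℂ (fun z : ℂ => (z - a) ^ k) z := by fun_prop
    rw [hP2 (fun z => (z - a) ^ k) χ z (hF.restrictScalars ℝ)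
      (hχc.differentiable one_ne_zero z), hP3 _ z hF, zero_mul, zero_add]
    have h1 : db χ z = db q z * ψ z + q z * db ψ z :=
      hP2 q ψ z (hq.differentiable one_ne_zero z) (hψ1.differentiable one_ne_zero z)
    rw [h1]
    simp only [hg, he]
    ring
  -- the formula of Cauchy and Pompeiu
  have hkey : ∀ (k : ℕ) (l : ℂ), -(ht (fun z => (z - a) ^ k * e z) l) =
      ht (fun z => (z - a) ^ k * g z) l + Real.pi * ((l - a) ^ k * χ l) := by
    intro k l
    have hc1 : ContDiff ℝ 1 (fun z : ℂ => (z - a) ^ k * χ z) :=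
      ((contDiff_id.sub contDiff_const).pow k).mul hχc
    have hc2 : HasCompactSupport (fun z : ℂ => (z - a) ^ k * χ z) := by
      refine HasCompactSupport.intro hψc fun z hz => ?_
      show (z - a) ^ k * (q z * ψ z) = 0
      rw [image_eq_zero_of_notMem_tsupport hz, mul_zero, mul_zero]
    have h1 := hP1 _ hc1 hc2 l
    have h2 : ht (db (fun z => (z - a) ^ k * χ z)) l =
        ht (fun z => (z - a) ^ k * g z) l + ht (fun z => (z - a) ^ k * e z) l := by
      unfold ht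
      rw [← integral_add ((hHT' _ _ _ (Bg k)).2.2.1 l) ((hHT' _ _ _ (Be k)).2.2.1 l)]
      refine integral_congr_ae (Eventually.of_forall fun z => ?_)
      show db (fun z => (z - a) ^ k * χ z) z * (z - l)⁻¹ = _
      rw [hdb]
      ring
    rw [h2] at h1
    linear_combination -h1
  -- the functions `h k`
  set h : ℕ → ℂ → ℂ := fun k l => -(ht (fun z => (z - a) ^ k * e z) l) with hh
  have hhm : ∀ k, Measurable (h k) := fun k => (hHT' _ _ _ (Be k)).2.1.neg
  have hhb : ∀ k l, ‖h k l‖ ≤ r ^ k * (K₀ * (|C| * C₂) + Real.pi * (|C| * C₁)) := by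
    intro k l
    have h1 : h k l = ht (fun z => (z - a) ^ k * g z) l + Real.pi * ((l - a) ^ k * χ l) :=
      hkey k l
    have h2 := (hHT' _ _ _ (Bg k)).2.2.2.1 l
    have h3 := (Bχ k).bd l
    rw [h1]
    refine (norm_add_le _ _).trans ?_
    rw [norm_mul, Complex.norm_real, Real.norm_of_nonneg Real.pi_pos.le]
    have h4 := mul_le_mul_of_nonneg_left h3 Real.pi_pos.le
    calc ‖ht (fun z => (z - a) ^ k * g z) l‖ + Real.pi * ‖(l - a) ^ k * χ l‖
        ≤ K₀ * (r ^ k * (|C| * C₂)) + Real.pi * (r ^ k * (|C| * C₁)) := add_le_add h2 h4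
      _ = _ := by ring
  have hbb : ∀ k, BB (h k) := fun k => ⟨hhm k, _, hhb k⟩
  refine ⟨fun k => P (h k) u, ?_, ?_, ?_⟩
  · intro k
    refine (hc.bd (hhm k) (hhb k) u).trans (le_of_eq ?_)
    ring
  · intro k
    have h1 : N (P (h k) u) - a • P (h k) u =
        P (h (k + 1)) u + (∫ z, (z - a) ^ k * e z) • u := by
      have h0 := hc.step (a := a) (c := -∫ z, (z - a) ^ k * e z) (hbb k) (hbb (k + 1))
        (fun l => by
          have h2 := (hHT' _ _ _ (Be k)).2.2.2.2 a l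
          have h3 : (fun z => (z - a) * ((z - a) ^ k * e z)) = fun z => (z - a) ^ (k + 1) * e z := by
            funext z
            ring
          rw [h3] at h2
          simp only [hh]
          rw [h2]
          ring) u
      rw [h0, neg_smul, sub_neg_eq_add]
    have hbe : BB (ht (fun z => (z - a) ^ k * e z)) := bb_ht hHT hr (Be k)
    have h2 : v (P (h k) u) = -∫ z, (z - a) ^ k * e z * cc m θ z := by
      have e1 : P (h k) = (-1 : ℂ) • P (ht (fun z => (z - a) ^ k * e z)) := by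
        rw [← hc.smul _ _ hbe]
        congr 1
        funext l
        simp only [hh]
        ring
      rw [e1, ← ((hrep.ctg hHT hCTG).2.2 a r _ _ hr (Be k)).2]
      simp
    have h3 : ∫ z in ball a r, (z - a) ^ k * ψ z * ((1 - cc m θ z) * db q z) =
        (∫ z, (z - a) ^ k * e z) - ∫ z, (z - a) ^ k * e z * cc m θ z := by
      rw [← integral_sub (hHT' _ _ _ (Be k)).1 ((hrep.ctg hHT hCTG).2.2 a r _ _ hr (Be k)).1]
      rw [setIntegral_eq_integral_of_forall_compl_eq_zero]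
      · refine integral_congr_ae (Eventually.of_forall fun z => ?_)
        simp only [he]
        ring
      · intro z hz
        rw [hψ0 z hz]
        ring
    rw [h3, TT_apply, h2]
    calc N (P (h k) u) + (-∫ z, (z - a) ^ k * e z * cc m θ z) • u - a • P (h k) u
        = (N (P (h k) u) - a • P (h k) u) +
          (-∫ z, (z - a) ^ k * e z * cc m θ z) • u := by abel
      _ = _ := by
        rw [h1, sub_eq_add_neg, add_smul]
        abel
  · intro w m' θ' hw
    have hbχ : BB χ := ⟨hχc.continuous.measurable, |C| * C₁, fun z => by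
      have := (Bχ 0).bd z
      simpa using this⟩
    have hbg : BB (ht (fun z => (z - a) ^ 0 * g z)) := bb_ht hHT hr (Bg 0)
    have e1 : P (h 0) = P (ht (fun z => (z - a) ^ 0 * g z)) + (Real.pi : ℂ) • P χ := by
      rw [← hc.smul _ _ hbχ, ← hc.add _ _ hbg (hbχ.smul _)]
      congr 1
      funext l
      have h2 : h 0 l = ht (fun z => (z - a) ^ 0 * g z) l + Real.pi * ((l - a) ^ 0 * χ l) :=
        hkey 0 l
      rw [h2, pow_zero, one_mul]
    have e2 := ((hw.ctg hHT hCTG).2.2 a r _ _ hr (Bg 0)).2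
    show w (P (h 0) u) = _
    rw [e1]
    simp only [ContinuousLinearMap.add_apply, ContinuousLinearMap.smul_apply, map_add, map_smul,
      smul_eq_mul]
    rw [e2]
    simp only [hg, pow_zero, one_mul]

/-- the pairings of the vectors `V 0` tend to zero -/
def Star (P : (ℂ → ℂ) → (X →L[ℂ] X)) (u : X) (a : ℂ) (r : ℝ) (q : ℕ → ℂ → ℂ) : Prop :=
  ∀ ψ : ℂ → ℂ, ContDiff ℝ ∞ ψ → tsupport ψ ⊆ ball a r → ∀ (w : StrongDual ℂ X) (m : Measure ℂ)
    (θ : ℂ → ℂ), Rep P w u m θ →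
    Tendsto (fun n => (∫ z, q n z * db ψ z * cc m θ z) +
      Real.pi * w (P (fun z => q n z * ψ z) u)) atTop (𝓝 0)

/-- NUL -/
theorem nul (hHT : S_HT) (hCTG : S_CTG) (hPOM : S_POM) (hX : Refl X) (hc : Calc N P C₀) {u : X}
    {v : StrongDual ℂ X} {m : Measure ℂ} {θ : ℂ → ℂ} (hrep : Rep P v u m θ) (a : ℂ) {r : ℝ}
    (hr : 0 < r) (q : ℕ → ℂ → ℂ) (C : ℝ) (hq : ∀ n, ContDiff ℝ 1 (q n))
    (hqC : ∀ n, ∀ z ∈ ball a r, ‖q n z‖ ≤ C)
    (hq0 : Tendsto (fun n => ∫⁻ z in ball a r, ‖(1 - cc m θ z) * db (q n) z‖ₑ) atTop (𝓝 0))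
    (hno : ¬ HasC (TT N u v) a r) : Star P u a r q := by
  intro ψ hψ hsupp w m' θ' hw
  obtain ⟨K, hK⟩ := vec hHT hCTG hPOM hc hrep a hr ψ hψ hsupp C
  choose V hV1 hV2 hV3 using fun n => hK (q n) (hq n) (hqC n)
  -- `ψ` is bounded
  have hcs : HasCompactSupport ψ :=
    (isCompact_closedBall a r).of_isClosed_subset (isClosed_tsupport ψ)
      (hsupp.trans ball_subset_closedBall)
  obtain ⟨B, hB⟩ := hcs.exists_bound_of_continuous hψ.continuous
  have hB0 : 0 ≤ B := (norm_nonneg _).trans (hB a)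
  have hlim : ∀ k : ℕ, Tendsto (fun n => ∫ z in ball a r,
      (z - a) ^ k * ψ z * ((1 - cc m θ z) * db (q n) z)) atTop (𝓝 0) := by
    intro k
    rw [tendsto_zero_iff_enorm_tendsto_zero]
    have hub : Tendsto (fun n => ENNReal.ofReal (r ^ k * B) *
        ∫⁻ z in ball a r, ‖(1 - cc m θ z) * db (q n) z‖ₑ) atTop (𝓝 0) := by
      have := ENNReal.Tendsto.const_mul (a := ENNReal.ofReal (r ^ k * B)) hq0
        (Or.inr ENNReal.ofReal_ne_top)
      rwa [mul_zero] at this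
    refine tendsto_of_tendsto_of_tendsto_of_le_of_le tendsto_const_nhds hub
      (fun _ => zero_le) (fun n => ?_)
    refine (enorm_integral_le_lintegral_enorm _).trans ?_
    rw [← lintegral_const_mul' _ _ ENNReal.ofReal_ne_top]
    refine setLIntegral_mono' measurableSet_ball fun z hz => ?_
    rw [enorm_mul]
    refine mul_le_mul' ?_ le_rfl
    rw [← ofReal_norm_eq_enorm]
    refine ENNReal.ofReal_le_ofReal ?_
    rw [norm_mul, norm_pow]
    refine mul_le_mul (pow_le_pow_left₀ (norm_nonneg _) ?_ k) (hB z) (norm_nonneg _) (by positivity)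
    exact (mem_ball_iff_norm.1 hz).le
  have h2 := (wlimc hX (TT N u v) a r K V hV1 (by
    intro k
    have h3 : (fun n => TT N u v (V n k) - a • V n k - V n (k + 1)) =
        fun n => (∫ z in ball a r, (z - a) ^ k * ψ z * ((1 - cc m θ z) * db (q n) z)) • u := by
      funext n
      rw [hV2 n k]
      abel
    rw [h3]
    have := (hlim k).smul_const u
    rwa [zero_smul] at this)).2 (by
    intro Y hY
    by_contra h0
    exact hno ⟨Y, hY, h0⟩) w
  exact h2.congr fun n => hV3 n w m' θ' hw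

/-- TST -/
theorem tst (hPOM : S_POM) (hc : Calc N P C₀) {u : X} (hu : u ≠ 0) (a : ℂ) {r : ℝ} (hr : 0 < r)
    (q : ℕ → ℂ → ℂ) (hq : ∀ n, Continuous (q n)) (hstar : Star P u a r q) :
    ∃ ρ : ℝ, 0 < ρ ∧ ρ ≤ r ∧
      ∀ ψ : ℂ → ℂ, ContDiff ℝ ∞ ψ → tsupport ψ ⊆ ball a ρ \ {a} →
        Tendsto (fun n => ∫ z, q n z * db ψ z) atTop (𝓝 0) := by
  obtain ⟨-, hprod, hhol, -, -, -, hts⟩ := hPOM
  obtain ⟨l, hl⟩ := test hc hu
  obtain ⟨ρ, hρ, hρr, hrad⟩ := Pool.Agent.Y51.RO.TST.radius l a hr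
  refine ⟨ρ, hρ, hρr, fun ψ hψ hsupp => ?_⟩
  obtain ⟨t, ht, hdist⟩ := hrad ψ hsupp
  obtain ⟨w, m', hw, hx0, hne, hdiff⟩ := hl t ht
  obtain ⟨G, hG⟩ : ∃ G : ℂ → ℂ, G = cc m' (fun _ => 1) := ⟨_, rfl⟩
  rw [← hG] at hne hdiff
  have hopen : IsOpen {z : ℂ | t < ‖z - l‖} :=
    isOpen_lt continuous_const ((continuous_id.sub continuous_const).norm)
  have hGat : ∀ z, t < ‖z - l‖ → DifferentiableAt ℂ G z := fun z hz =>
    (hdiff z hz).differentiableAt (hopen.mem_nhds hz)
  have hψ0 : ∀ z, z ∉ tsupport ψ → ψ z = 0 := fun z hz => image_eq_zero_of_notMem_tsupport hz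
  -- smoothness
  have hsm : ContDiff ℝ ∞ (fun z => ψ z * (G z)⁻¹) := by
    rw [contDiff_iff_contDiffAt]
    intro z
    by_cases hz : z ∈ tsupport ψ
    · have h3 := hdist z hz
      have hzt : t < ‖z - l‖ := by linarith
      have h1 : ContDiffAt ℂ ∞ G z :=
        (hdiff.analyticAt (hopen.mem_nhds hzt)).contDiffAt
      have h2 : ContDiffAt ℝ ∞ G z := h1.restrict_scalars ℝ
      exact hψ.contDiffAt.mul (h2.inv (hne z (by linarith)))
    · have h1 : (fun z => ψ z * (G z)⁻¹) =ᶠ[𝓝 z] fun _ => 0 := by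
        filter_upwards [(isClosed_tsupport ψ).isOpen_compl.mem_nhds hz] with z' hz'
        rw [hψ0 z' hz', zero_mul]
      exact contDiffAt_const.congr_of_eventuallyEq h1
  have htsub : tsupport (fun z => ψ z * (G z)⁻¹) ⊆ tsupport ψ := tsupport_mul_subset_left
  -- the derivative
  have hdb : ∀ z, db (fun z => ψ z * (G z)⁻¹) z * G z = db ψ z := by
    intro z
    by_cases hz : z ∈ tsupport ψ
    · have h3 := hdist z hz
      have hzt : t < ‖z - l‖ := by linarith
      have h1 := hprod (fun z => ψ z * (G z)⁻¹) G z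
        ((hsm.differentiable (by simp)).differentiableAt)
        ((hGat z hzt).restrictScalars ℝ)
      rw [hhol G z (hGat z hzt), mul_zero, add_zero] at h1
      rw [← h1]
      have h2 : (fun w => ψ w * (G w)⁻¹ * G w) =ᶠ[𝓝 z] ψ := by
        have h4 : {z : ℂ | 2 * t < ‖z - l‖} ∈ 𝓝 z :=
          (isOpen_lt continuous_const ((continuous_id.sub continuous_const).norm)).mem_nhds
            (show 2 * t < ‖z - l‖ by linarith)
        filter_upwards [h4] with z' hz'
        have h5 : G z' ≠ 0 := hne z' (le_of_lt hz')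
        field_simp
      unfold db
      rw [h2.fderiv_eq]
    · rw [hts ψ z hz, hts _ z (fun h => hz (htsub h)), zero_mul]
  have hsub : tsupport (fun z => ψ z * (G z)⁻¹) ⊆ ball a r :=
    htsub.trans (hsupp.trans (sdiff_subset.trans (ball_subset_ball hρr)))
  have h1 := hstar (fun z => ψ z * (G z)⁻¹) hsm hsub w m' _ hw
  refine h1.congr fun n => ?_
  have e1 : ∫ z, q n z * db (fun z => ψ z * (G z)⁻¹) z * cc m' (fun _ => 1) z =
      ∫ z, q n z * db ψ z := by
    refine integral_congr_ae (Eventually.of_forall fun z => ?_)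
    simp only
    rw [← hG, mul_assoc, hdb]
  have hbb : BB (fun z => q n z * (ψ z * (G z)⁻¹)) :=
    bb_of_supp ((hq n).mul hsm.continuous) (tsupport_mul_subset_right.trans hsub)
  have e2 : w (P (fun z => q n z * (ψ z * (G z)⁻¹)) u) = 0 := by
    rw [hw.eq _ hbb, ← integral_zero ℂ ℂ (μ := m')]
    refine integral_congr_ae ?_
    have hae : ∀ᵐ s ∂m', s ∈ ball l t := by
      rw [ae_iff]
      exact hx0
    filter_upwards [hae] with s h
    have h2 : s ∉ tsupport ψ := by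
      intro h3
      have h4 := hdist _ h3
      rw [mem_ball, dist_eq_norm] at h
      linarith
    rw [hψ0 _ h2]
    ring
  rw [e1, e2, mul_zero, add_zero]

/-- MID -/
theorem mid (hHT : S_HT) (hCTG : S_CTG) (hPOM : S_POM) (hc : Calc N P C₀) {u : X} (a : ℂ)
    {ρ C : ℝ} (hρ : 0 < ρ) (q : ℕ → ℂ → ℂ) (G : ℂ → ℂ) (hG : DifferentiableOn ℂ G (ball a ρ))
    (hweak : ∀ h : ℂ → ℂ, IntegrableOn h (ball a ρ) →
      Tendsto (fun n => ∫ z in ball a ρ, q n z * h z)
      atTop (𝓝 (∫ z in ball a ρ, G z * h z)))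
    (hstar : Star P u a ρ q) (ψ : ℂ → ℂ) (hψ : ContDiff ℝ ∞ ψ) (hψs : tsupport ψ ⊆ ball a ρ)
    (w : StrongDual ℂ X) :
    Tendsto (fun n => w (P (fun z => q n z * ψ z) u)) atTop
      (𝓝 (w (P (fun z => G z * ψ z) u))) := by
  obtain ⟨m, θ, hw⟩ := hc.rep w u
  obtain ⟨h1, h2, h3, h4, h5, h6, h7⟩ := hPOM
  have hψ1 : ContDiff ℝ 1 ψ := hψ.of_le (by exact_mod_cast le_top)
  obtain ⟨-, -, hF⟩ := hw.ctg hHT hCTG
  -- the product
  have hGat : ∀ z ∈ ball a ρ, AnalyticAt ℂ G z := fun z hz =>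
    hG.analyticAt (isOpen_ball.mem_nhds hz)
  have hψ0 : ∀ z, z ∉ ball a ρ → ψ =ᶠ[𝓝 z] fun _ => 0 := by
    intro z hz
    have h8 : z ∉ tsupport ψ := fun h => hz (hψs h)
    exact notMem_tsupport_iff_eventuallyEq.1 h8
  obtain ⟨χ, hχ⟩ : ∃ χ : ℂ → ℂ, χ = fun z => G z * ψ z := ⟨_, rfl⟩
  have hχd : ContDiff ℝ 1 χ := by
    rw [contDiff_iff_contDiffAt]
    intro z
    by_cases hz : z ∈ ball a ρ
    · rw [hχ]
      exact ((hGat z hz).contDiffAt.restrict_scalars ℝ).mul hψ1.contDiffAt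
    · refine (contDiffAt_const (c := (0 : ℂ))).congr_of_eventuallyEq ?_
      filter_upwards [hψ0 z hz] with w hw
      rw [hχ]
      simp only []
      rw [hw, mul_zero]
  have hχs : tsupport χ ⊆ ball a ρ := by
    rw [hχ]
    exact (tsupport_mul_subset_right).trans hψs
  have hχc : HasCompactSupport χ := by
    exact Metric.isCompact_of_isClosed_isBounded (isClosed_tsupport χ)
      (isBounded_ball.subset hχs)
  have hdb : ∀ z, db χ z = G z * db ψ z := by
    intro z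
    by_cases hz : z ∈ ball a ρ
    · have hGd : DifferentiableAt ℂ G z := (hGat z hz).differentiableAt
      rw [hχ, h2 G ψ z (hGd.restrictScalars ℝ) (hψ1.differentiable one_ne_zero z), h3 G z hGd,
        zero_mul, zero_add]
    · rw [h7 χ z fun h => hz (hχs h), h7 ψ z fun h => hz (hψs h), mul_zero]
  obtain ⟨M, hM⟩ := Pool.Agent.Y287.RO.bd_of ⟨h1, h2, h3, h4, h5, h6, h7⟩ hχd hχs
  obtain ⟨M', hM'⟩ := Pool.Agent.Y287.RO.bd_of ⟨h1, h2, h3, h4, h5, h6, h7⟩ hψ1 hψs
  obtain ⟨k1, -⟩ := hF a ρ M' _ hρ hM'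
  obtain ⟨-, k2⟩ := hF a ρ M _ hρ hM
  have hoff : ∀ z, z ∉ ball a ρ → db ψ z = 0 := fun z hz => h7 ψ z fun h => hz (hψs h)
  -- integrals over the ball
  have hball : ∀ g : ℂ → ℂ, ∫ z in ball a ρ, g z * (db ψ z * cc m θ z) =
      ∫ z, g z * db ψ z * cc m θ z := by
    intro g
    rw [setIntegral_eq_integral_of_forall_compl_eq_zero]
    · refine integral_congr_ae (Eventually.of_forall fun z => ?_)
      simp only []
      ring
    · intro z hz
      rw [hoff z hz, zero_mul, mul_zero]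
  have hw' := hweak (fun z => db ψ z * cc m θ z) k1.integrableOn
  simp only [hball] at hw'
  have hst := hstar ψ hψ hψs w m θ hw
  have hpi : (Real.pi : ℂ) ≠ 0 := Complex.ofReal_ne_zero.2 Real.pi_ne_zero
  -- the limit
  have hbχ : BB χ := bb_of_supp hχd.continuous hχs
  have hlim : ∫ z, G z * db ψ z * cc m θ z = -(Real.pi * w (P χ u)) := by
    have e1 : ∫ z, G z * db ψ z * cc m θ z = ∫ z, db χ z * cc m θ z := by
      refine integral_congr_ae (Eventually.of_forall fun z => ?_)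
      simp only [hdb]
    have e2 : ht (db χ) = fun z => (-Real.pi : ℂ) * χ z := by
      funext l
      rw [h1 χ hχd hχc]
      ring
    rw [e1, ← k2, e2, hc.smul _ _ hbχ]
    simp
  have h8 := (hst.sub hw').div_const (Real.pi : ℂ)
  have e2 : (fun n => ((∫ z, q n z * db ψ z * cc m θ z) +
      Real.pi * w (P (fun z => q n z * ψ z) u) -
      ∫ z, q n z * db ψ z * cc m θ z) / (Real.pi : ℂ)) =
      fun n => w (P (fun z => q n z * ψ z) u) := by
    funext n
    rw [add_sub_cancel_left, mul_div_cancel_left₀ _ hpi]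
  rw [e2, hlim] at h8
  have e3 : ((0 : ℂ) - -(Real.pi * w (P χ u))) / (Real.pi : ℂ) = w (P χ u) := by
    rw [sub_neg_eq_add, zero_add, mul_div_cancel_left₀ _ hpi]
  rw [e3, hχ] at h8
  exact h8

end Pool.Agent.X207.RB
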