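import Pool.Agent.X207.RBEss
import Pool.Agent.X207.RBVec
import Pool.Agent.X207.RBPtw
import Pool.Agent.Y271.RO.Final

/-!
# Chains, adjoints, and the theorem for operators with a Borel functional calculus
-/

set_option autoImplicit false

namespace Pool.Agent.X207.RB

open MeasureTheory Set Metric Filter Topology
open scoped ENNReal NNReal ComplexConjugate ContDiff
open Pool.Agent.Y271.RO (db ht Bd S_HT S_CTG S_POM Cut Tun dich hHT hCTG hPOM hPTW hWKS hWEYL hCON
  hPCA hPCB hPOL hALT hSMO hTUNA hCUTA)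
open Pool.Agent.Y283.NK (HasHyp)

variable {X : Type} [NormedAddCommGroup X] [NormedSpace ℂ X]
variable {N : X →L[ℂ] X} {P : (ℂ → ℂ) → (X →L[ℂ] X)} {C₀ : ℝ}

lemma HasC.mono {T : X →L[ℂ] X} {c : ℂ} {r r' : ℝ} (h : HasC T c r) (h0 : 0 ≤ r) (hr : r ≤ r') :
    HasC T c r' := by
  obtain ⟨V, ⟨h1, C, h2⟩, h3⟩ := h
  refine ⟨V, ⟨h1, |C|, fun k => (h2 k).trans ?_⟩, h3⟩
  calc C * r ^ k ≤ |C| * r ^ k := mul_le_mul_of_nonneg_right (le_abs_self C) (by positivity)
    _ ≤ |C| * r' ^ k := mul_le_mul_of_nonneg_left (pow_le_pow_left₀ h0 hr k) (abs_nonneg C)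

/-- Case B -/
theorem caseB [CompleteSpace X] (hX : Refl X) (hc : Calc N P C₀) {u : X} {v : StrongDual ℂ X}
    {m : Measure ℂ} {θ : ℂ → ℂ} (hrep : Rep P v u m θ) (a : ℂ) (τ r : ℝ)
    (hτ : 0 < τ) (hτr : τ < r) (hC : Cut (fun z => 1 - cc m θ z) a τ r) (hE : EssP P a) :
    HasC (TT N u v) a r := by
  by_contra hno
  have hch : ∀ Y, IsCh (TT N u v) a r Y → Y 0 = 0 := by
    intro Y hY
    by_contra h0
    exact hno ⟨Y, hY, h0⟩
  refine sur hc u v hE fun x => ?_
  obtain ⟨x₁, x₂, W, c, e1, e2, e3⟩ := far hc u v a (τ / 2) (by positivity) x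
  obtain ⟨V, Z, C, h1, h2, h3, h4⟩ := cutv hHT hCTG hPOM hc hrep a τ r hτ hτr hC x₁ e2
  obtain ⟨Y, W', hY, hx⟩ := (wlimc hX (TT N u v) a r C V h1 h3).1 a x₁ Z C h2 h4
  refine ⟨W' + W, c, ?_⟩
  rw [e1, hx, hch Y hY, e3, map_add, smul_add]
  abel

/-- Case A -/
theorem caseA (hX : Refl X) (hc : Calc N P C₀) {u : X} {v : StrongDual ℂ X}
    {m : Measure ℂ} {θ : ℂ → ℂ} (hrep : Rep P v u m θ) (hu : u ≠ 0) (a : ℂ) (r : ℝ)
    (hr : 0 < r) (hne : ∀ᵐ z ∂(volume.restrict (ball a r)), 1 - cc m θ z ≠ 0)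
    (hT : Tun (fun z => 1 - cc m θ z) a r) : HasC (TT N u v) a r := by
  by_contra hno
  obtain ⟨b, q, C, hb, hq, hqC, hq0, hql⟩ := hT
  have hC0 : 0 ≤ C := (norm_nonneg _).trans (hqC 0 a (mem_ball_self hr))
  have hstar := nul hHT hCTG hPOM hX hc hrep a hr q C hq hqC hq0 hno
  obtain ⟨ρ, hρ, hρr, hlim⟩ := tst hPOM hc hu a hr q (fun n => (hq n).continuous) hstar
  have hsub : ball a ρ ⊆ ball a r := ball_subset_ball hρr
  obtain ⟨s, Q, hs, hQm, hQC, hQl⟩ := hWKS q a ρ C hC0 (fun n => (hq n).continuous.measurable)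
    (fun n z hz => hqC n z (hsub hz))
  -- the limit is analytic
  have hzero : ∀ (F : ℂ → ℂ) (ψ : ℂ → ℂ), tsupport ψ ⊆ ball a ρ →
      ∫ z, F z * db ψ z = ∫ z in ball a ρ, F z * db ψ z := by
    intro F ψ hψ
    rw [← integral_indicator measurableSet_ball]
    congr 1
    funext z
    by_cases hz : z ∈ ball a ρ
    · rw [indicator_of_mem hz]
    · rw [indicator_of_notMem hz, hPOM.2.2.2.2.2.2 ψ z (fun h => hz (hψ h)), mul_zero]
  have hdbi : ∀ ψ : ℂ → ℂ, ContDiff ℝ ∞ ψ → IntegrableOn (db ψ) (ball a ρ) := by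
    intro ψ hψ
    have hcont : Continuous (db ψ) := hPOM.2.2.2.2.1 ψ (hψ.of_le (by exact_mod_cast le_top))
    exact (hcont.continuousOn.integrableOn_compact (isCompact_closedBall a ρ)).mono_set
      ball_subset_closedBall
  obtain ⟨G, hGd, hGC, hGQ⟩ := hWEYL Q a ρ C hρ hQm hQC (by
    intro ψ hψ hsupp
    have hsupp' : tsupport ψ ⊆ ball a ρ := hsupp.trans Set.sdiff_subset
    have h1 := (hlim ψ hψ hsupp).comp hs.tendsto_atTop
    have h2 := hQl (db ψ) (hdbi ψ hψ)
    have h3 : (fun n => ∫ z in ball a ρ, q (s n) z * db ψ z) =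
        (fun n => ∫ z, q n z * db ψ z) ∘ s := by
      funext n
      exact (hzero _ ψ hsupp').symm
    rw [h3] at h2
    rw [hzero _ ψ hsupp']
    exact tendsto_nhds_unique h2 h1)
  have hGl : ∀ h : ℂ → ℂ, IntegrableOn h (ball a ρ) →
      Tendsto (fun n => ∫ z in ball a ρ, q (s n) z * h z) atTop
        (𝓝 (∫ z in ball a ρ, G z * h z)) := by
    intro h hh
    have h1 := hQl h hh
    have h2 : ∫ z in ball a ρ, Q z * h z = ∫ z in ball a ρ, G z * h z := by
      refine integral_congr_ae ?_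
      filter_upwards [hGQ] with z hz
      rw [hz]
    rwa [h2] at h1
  have hstar' : Star P u a ρ (fun n => q (s n)) := by
    intro ψ hψ hsupp w m' θ' hw
    exact (hstar ψ hψ (hsupp.trans hsub) w m' θ' hw).comp hs.tendsto_atTop
  have hq' : ∀ n, ContDiff ℝ 1 (q (s n)) := fun n => hq (s n)
  have hqC' : ∀ n, ∀ z ∈ ball a ρ, ‖q (s n) z‖ ≤ C := fun n z hz => hqC (s n) z (hsub hz)
  have hq0' : Tendsto (fun n => ∫⁻ z in ball a ρ, ‖(1 - cc m θ z) * db (q (s n)) z‖ₑ) atTop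
      (𝓝 0) := by
    refine tendsto_of_tendsto_of_tendsto_of_le_of_le tendsto_const_nhds
      (hq0.comp hs.tendsto_atTop) (fun _ => zero_le) (fun n => ?_)
    exact lintegral_mono_set hsub
  -- a bump function
  let B : ContDiffBump a := ⟨ρ / 2, 3 * ρ / 4, by positivity, by linarith⟩
  set ψ : ℂ → ℂ := fun z => ((B z : ℝ) : ℂ) with hψdef
  have hψ : ContDiff ℝ ∞ ψ := Complex.ofRealCLM.contDiff.comp B.contDiff
  have hψs : tsupport ψ ⊆ ball a ρ := by
    have h1 : tsupport ψ ⊆ closedBall a (3 * ρ / 4) := by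
      refine closure_minimal ?_ isClosed_closedBall
      intro z hz
      have hz' : B z ≠ 0 := by
        intro h0
        apply hz
        show ((B z : ℝ) : ℂ) = 0
        rw [h0]
        simp
      have h2 : z ∈ Function.support B := hz'
      rw [B.support_eq] at h2
      exact ball_subset_closedBall h2
    exact h1.trans (closedBall_subset_ball (by linarith))
  have hψ1 : ∀ z ∈ ball a (ρ / 2), ψ z = 1 := by
    intro z hz
    have h1 : B z = 1 := B.one_of_mem_closedBall (ball_subset_closedBall hz)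
    show ((B z : ℝ) : ℂ) = 1
    rw [h1]
    simp
  obtain ⟨s', hs', hae⟩ := ptw hPTW hc hrep a hρ (fun n => q (s n)) G hq' hqC' hGd hGC
    hGl hq0' ψ hψ hψs
    (fun w => mid (C := C) hHT hCTG hPOM hc a hρ (fun n => q (s n)) G hGd hGl hstar' ψ hψ hψs w)
  refine hCON G a b (ρ / 2) (by positivity) (by linarith) (hGd.mono (ball_subset_ball (by linarith))) ?_
  have hsub2 : ball a (ρ / 2) ⊆ ball a r := ball_subset_ball (by linarith)
  have hne' : ∀ᵐ z ∂(volume.restrict (ball a (ρ / 2))), 1 - cc m θ z ≠ 0 :=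
    ae_restrict_of_ae_restrict_of_subset hsub2 hne
  filter_upwards [hne', ae_restrict_of_ae hae, ae_restrict_mem measurableSet_ball] with z h1 h2 h3
  have h4 : Tendsto (fun n => q (s (s' n)) z * (1 - cc m θ z)) atTop
      (𝓝 (G z * (1 - cc m θ z))) := by
    have := h2
    simp only [hψ1 z h3, one_mul] at this
    exact this
  have h5 : Tendsto (fun n => q (s (s' n)) z) atTop (𝓝 (G z)) := by
    have h6 := h4.mul_const (1 - cc m θ z)⁻¹
    simp only [mul_assoc, mul_inv_cancel₀ h1, mul_one] at h6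
    exact h6
  have h6 : Tendsto (fun n => ‖q (s (s' n)) z‖ ^ 2) atTop (𝓝 (‖G z‖ ^ 2)) := (h5.norm).pow 2
  have h7 := (hql z (hsub2 h3)).comp (hs.comp hs').tendsto_atTop
  exact tendsto_nhds_unique h6 h7

/-- chains at the points of the essential spectrum -/
theorem chain [CompleteSpace X] (hX : Refl X) (hc : Calc N P C₀) (u : X) (v : StrongDual ℂ X)
    (a : ℂ) (r : ℝ) (hr : 0 < r) (hE : EssP P a) : HasC (TT N u v) a r := by
  obtain ⟨m, θ, hrep⟩ := hc.rep v u
  by_cases hu : u = 0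
  · have h1 : TT N u v = N := by
      ext x
      rw [TT_apply, hu, smul_zero, add_zero]
    rw [h1]
    exact nor hc hr hE
  by_cases hne : ∀ᵐ z ∂(volume.restrict (ball a (r / 2))), 1 - cc m θ z ≠ 0
  · obtain ⟨hm, hli, -⟩ := hrep.ctg hHT hCTG
    have hf : Measurable (fun z => 1 - cc m θ z) := measurable_const.sub hm
    have hi : IntegrableOn (fun z => 1 - cc m θ z) (ball a (r / 2)) := by
      have h1 : IntegrableOn (cc m θ) (ball a (r / 2)) :=
        (hli.integrableOn_isCompact (isCompact_closedBall a (r / 2))).mono_set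
          ball_subset_closedBall
      exact (integrableOn_const measure_ball_lt_top.ne (by simp)).sub h1
    rcases dich hPCA hPCB hPOL hALT hSMO hTUNA hCUTA (fun z => 1 - cc m θ z) a (r / 2)
      (by positivity) hf hi hne with h | ⟨τ, h1, h2, h3⟩
    · exact (caseA hX hc hrep hu a (r / 2) (by positivity) hne h).mono (by positivity) (by linarith)
    · exact (caseB hX hc hrep a τ (2 * (r / 2)) h1 h2 h3 hE).mono (by positivity) (by linarith)
  · exact (zero hHT hCTG hc hrep (a := a) (r := r / 2) (by positivity) hu hne).mono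
      (by positivity) (by linarith)

/-! ### adjoints -/

/-- the adjoint operator on the dual space -/
noncomputable def adj (T : X →L[ℂ] X) : StrongDual ℂ X →L[ℂ] StrongDual ℂ X :=
  (ContinuousLinearMap.compL ℂ X X ℂ).flip T

lemma adj_apply (T : X →L[ℂ] X) (w : StrongDual ℂ X) (x : X) : adj T w x = w (T x) := rfl

lemma adj_norm (T : X →L[ℂ] X) : ‖adj T‖ ≤ ‖T‖ := by
  refine ContinuousLinearMap.opNorm_le_bound _ (norm_nonneg _) fun w => ?_
  rw [mul_comm]
  exact ContinuousLinearMap.opNorm_comp_le w T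

lemma refl_dual (hX : Refl X) : Refl (StrongDual ℂ X) := by
  intro ξ
  refine ⟨ξ.comp (NormedSpace.inclusionInDoubleDual ℂ X), ?_⟩
  ext ζ
  obtain ⟨x, rfl⟩ := hX ζ
  rfl

theorem Calc.adj (hX : Refl X) (hc : Calc N P C₀) :
    Calc (adj N) (fun f => adj (P f)) C₀ := by
  refine ⟨hc.nonneg, ?_, ?_, ?_, ?_, ?_, ?_, ?_, ?_⟩
  · intro f g hf hg
    rw [hc.add f g hf hg]
    exact map_add _ _ _
  · intro c f hf
    rw [hc.smul c f hf]
    exact map_smul _ _ _
  · intro f g hf hg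
    have e : (fun z => f z * g z) = fun z => g z * f z := by
      funext z
      ring
    rw [e, hc.mul g f hg hf]
    rfl
  · rw [hc.one]
    rfl
  · intro f M hf hM
    exact (adj_norm _).trans (hc.bound f M hf hM)
  · intro W₂ w
    obtain ⟨x, rfl⟩ := hX W₂
    obtain ⟨m, θ, h⟩ := hc.rep w x
    exact ⟨m, θ, h.fin, h.meas, h.norm, fun f hf => h.eq f hf⟩
  · intro f hf hzf
    rw [← hc.id f hf hzf, ← comm hc hf]
    rfl
  · obtain ⟨R, hR⟩ := hc.supp
    refine ⟨R, ?_⟩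
    rw [hR]
    exact map_zero _

lemma adj_TT (N : X →L[ℂ] X) (u : X) (v : StrongDual ℂ X) :
    adj (TT N u v) = TT (adj N) v (NormedSpace.inclusionInDoubleDual ℂ X u) := by
  ext w x
  rw [TT_apply, adj_apply, TT_apply, map_add, map_smul]
  show w (N x) + v x • w u = w (N x) + w u • v x
  rw [smul_eq_mul, smul_eq_mul, mul_comm]

/-- vectors with disjoint local spectra annihilate each other -/
theorem ann {T : X →L[ℂ] X} {c₁ c₂ : ℂ} {r₁ r₂ : ℝ} (hr1 : 0 ≤ r₁) (hr2 : 0 ≤ r₂)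
    (hr : r₁ + r₂ < ‖c₁ - c₂‖) {Y : ℕ → X} {W : ℕ → StrongDual ℂ X} (hY : IsCh T c₁ r₁ Y)
    (hW : IsCh (adj T) c₂ r₂ W) (hY0 : Y 0 ≠ 0) (hW0 : W 0 ≠ 0) : HasHyp T := by
  obtain ⟨hY, C₁, hYb⟩ := hY
  obtain ⟨hW, C₂, hWb⟩ := hW
  have horth : ∀ Q : X →L[ℂ] X, Q * T = T * Q → W 0 (Q (Y 0)) = 0 := by
    intro Q hQ
    have hrec : ∀ a b, W (b + 1) (Q (Y a)) - W b (Q (Y (a + 1))) =
        (c₁ - c₂) * W b (Q (Y a)) := by
      intro a b
      have e1 : Q (T (Y a)) = T (Q (Y a)) := by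
        have := congrArg (fun R : X →L[ℂ] X => R (Y a)) hQ
        exact this
      rw [← hY a, ← hW b, map_sub, map_smul, e1, map_sub, map_smul]
      show W b (T (Q (Y a))) - c₂ * W b (Q (Y a)) - (W b (T (Q (Y a))) - c₁ * W b (Q (Y a))) = _
      ring
    have hC1 : 0 ≤ C₁ := by
      have := (norm_nonneg _).trans (hYb 0)
      simpa using this
    have hC2 : 0 ≤ C₂ := by
      have := (norm_nonneg _).trans (hWb 0)
      simpa using this
    have hbd : ∀ n a b : ℕ, ‖c₁ - c₂‖ ^ n * ‖W b (Q (Y a))‖ ≤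
        ‖Q‖ * C₁ * C₂ * (r₁ + r₂) ^ n * (r₁ ^ a * r₂ ^ b) := by
      intro n
      induction n with
      | zero =>
        intro a b
        have h1 : ‖W b (Q (Y a))‖ ≤ ‖W b‖ * (‖Q‖ * ‖Y a‖) :=
          ((W b).le_opNorm _).trans
            (mul_le_mul_of_nonneg_left (Q.le_opNorm _) (norm_nonneg _))
        have h2 : ‖W b‖ * (‖Q‖ * ‖Y a‖) ≤ (C₂ * r₂ ^ b) * (‖Q‖ * (C₁ * r₁ ^ a)) := by
          refine mul_le_mul (hWb b) (mul_le_mul_of_nonneg_left (hYb a) (norm_nonneg _))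
            (by positivity) (by positivity)
        rw [pow_zero, one_mul, pow_zero, mul_one]
        refine (h1.trans h2).trans (le_of_eq (by ring))
      | succ n ih =>
        intro a b
        have h1 := ih a (b + 1)
        have h2 := ih (a + 1) b
        have h3 : ‖c₁ - c₂‖ * ‖W b (Q (Y a))‖ ≤
            ‖W (b + 1) (Q (Y a))‖ + ‖W b (Q (Y (a + 1)))‖ := by
          rw [← norm_mul, ← hrec a b]
          exact norm_sub_le _ _
        calc ‖c₁ - c₂‖ ^ (n + 1) * ‖W b (Q (Y a))‖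
            = ‖c₁ - c₂‖ ^ n * (‖c₁ - c₂‖ * ‖W b (Q (Y a))‖) := by ring
          _ ≤ ‖c₁ - c₂‖ ^ n * (‖W (b + 1) (Q (Y a))‖ + ‖W b (Q (Y (a + 1)))‖) :=
              mul_le_mul_of_nonneg_left h3 (by positivity)
          _ ≤ ‖Q‖ * C₁ * C₂ * (r₁ + r₂) ^ n * (r₁ ^ a * r₂ ^ (b + 1)) +
              ‖Q‖ * C₁ * C₂ * (r₁ + r₂) ^ n * (r₁ ^ (a + 1) * r₂ ^ b) := by
              rw [mul_add]
              exact add_le_add h1 h2
          _ = _ := by ring
    have h0 := Pool.Agent.Y529.NK.ANN.zero_of (x := ‖W 0 (Q (Y 0))‖) (K := ‖Q‖ * C₁ * C₂)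
      (ρ := r₁ + r₂) (δ := ‖c₁ - c₂‖) (lt_of_le_of_lt (by positivity) hr) (by positivity) hr
      (norm_nonneg _) (fun n => by simpa using hbd n 0 0)
    exact norm_eq_zero.1 h0
  let V0 : Submodule ℂ X :=
    { carrier := {y | ∃ Q : X →L[ℂ] X, Q * T = T * Q ∧ Q (Y 0) = y}
      add_mem' := by
        rintro _ _ ⟨Q, hQ, rfl⟩ ⟨Q', hQ', rfl⟩
        exact ⟨Q + Q', by rw [add_mul, mul_add, hQ, hQ'], rfl⟩
      zero_mem' := ⟨0, by rw [zero_mul, mul_zero], rfl⟩
      smul_mem' := by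
        rintro c _ ⟨Q, hQ, rfl⟩
        exact ⟨c • Q, by rw [smul_mul_assoc, mul_smul_comm, hQ], rfl⟩ }
  refine ⟨V0.topologicalClosure, Submodule.isClosed_topologicalClosure _, ?_, ?_, ?_⟩
  · intro h
    have h1 : Y 0 ∈ V0.topologicalClosure :=
      Submodule.le_topologicalClosure _ ⟨1, by rw [one_mul, mul_one], rfl⟩
    rw [h, Submodule.mem_bot] at h1
    exact hY0 h1
  · intro h
    apply hW0
    ext y
    have h1 : y ∈ V0.topologicalClosure := by rw [h]; exact Submodule.mem_top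
    have h2 : (V0.topologicalClosure : Set X) ⊆ {y | W 0 y = 0} := by
      rw [Submodule.topologicalClosure_coe]
      refine closure_minimal ?_ (isClosed_eq (W 0).continuous continuous_const)
      rintro _ ⟨Q, hQ, rfl⟩
      exact horth Q hQ
    exact h2 h1
  · intro Q hQ x hx
    have h1 : x ∈ closure (V0 : Set X) := by
      rw [← Submodule.topologicalClosure_coe]; exact hx
    have h2 : Q x ∈ closure (V0 : Set X) := by
      refine map_mem_closure Q.continuous h1 ?_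
      rintro _ ⟨Q', hQ', rfl⟩
      exact ⟨Q * Q', by rw [mul_assoc, hQ', ← mul_assoc, hQ, mul_assoc], rfl⟩
    rw [← Submodule.topologicalClosure_coe] at h2
    exact h2

end Pool.Agent.X207.RB
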