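import Pool.Agent.X207.RBDefs
import Pool.Agent.Y528.RO.TEST

/-!
# Test functionals, and the case of a function vanishing on a set of positive area
-/

set_option autoImplicit false

namespace Pool.Agent.X207.RB

open MeasureTheory Set Metric Filter Topology
open scoped ENNReal NNReal ComplexConjugate ContDiff
open Pool.Agent.Y271.RO (db ht Bd S_HT S_CTG)

variable {X : Type} [NormedAddCommGroup X] [NormedSpace ℂ X]
variable {N : X →L[ℂ] X} {P : (ℂ → ℂ) → (X →L[ℂ] X)} {C₀ : ℝ}

/-- sets on which the representing measure vanishes -/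
lemma Rep.null (hc : Calc N P C₀) {w : StrongDual ℂ X} {x : X} {m : Measure ℂ} {θ : ℂ → ℂ}
    (h : Rep P w x m θ) {A : Set ℂ} (hA : MeasurableSet A)
    (h0 : ∀ f, BB f → w (P f (P (A.indicator fun _ => 1) x)) = 0) : m A = 0 := by
  have := h.fin
  have hb : BB (fun z => conj (θ z)) :=
    ⟨Complex.continuous_conj.measurable.comp h.meas, 1, fun z => by
      rw [RCLike.norm_conj, h.norm]⟩
  have h1 := h0 _ hb
  have h2 : P (fun z => conj (θ z)) (P (A.indicator fun _ => 1) x) =
      P (fun z => conj (θ z) * A.indicator (fun _ => 1) z) x := by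
    rw [hc.mul _ _ hb (BB.ind hA)]
    rfl
  rw [h2, h.eq _ (hb.mul (BB.ind hA))] at h1
  have h3 : ∀ z, conj (θ z) * A.indicator (fun _ => (1:ℂ)) z * θ z =
      A.indicator (fun _ => (1:ℂ)) z := by
    intro z
    by_cases hz : z ∈ A
    · rw [indicator_of_mem hz, mul_one, Complex.conj_mul', h.norm]
      simp
    · rw [indicator_of_notMem hz]
      simp
  simp only [h3] at h1
  rw [integral_indicator_const _ hA] at h1
  have h4 : m.real A = 0 := by
    rcases smul_eq_zero.1 h1 with h | h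
    · exact h
    · exact absurd h one_ne_zero
  rw [measureReal_def, ENNReal.toReal_eq_zero_iff] at h4
  rcases h4 with h | h
  · exact h
  · exact absurd h (measure_ne_top _ _)

/-- test functionals -/
theorem test (hc : Calc N P C₀) {u : X} (hu : u ≠ 0) : ∃ l : ℂ, ∀ t : ℝ, 0 < t →
    ∃ (w : StrongDual ℂ X) (m : Measure ℂ), Rep P w u m (fun _ => 1) ∧ m (ball l t)ᶜ = 0 ∧
      (∀ z, 2 * t ≤ ‖z - l‖ → cc m (fun _ => 1) z ≠ 0) ∧
      DifferentiableOn ℂ (cc m (fun _ => 1)) {z | t < ‖z - l‖} := by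
  obtain ⟨w₀, -, hw₀⟩ := exists_dual_vector ℂ u (norm_ne_zero_iff.2 hu)
  obtain ⟨m₀, θ₀, h⟩ := hc.rep w₀ u
  have := h.fin
  have hm₀ : m₀ univ ≠ 0 := by
    intro h0
    have h1 := h.eq (fun _ => 1) (BB.const 1)
    have h2 : m₀ = 0 := Measure.measure_univ_eq_zero.1 h0
    rw [hc.one, h2, integral_zero_measure] at h1
    have h3 : w₀ u = 0 := h1
    rw [hw₀] at h3
    exact hu (by simpa using h3)
  obtain ⟨l, -, hl⟩ := exists_mem_forall_mem_nhdsWithin_pos_measure hm₀
  refine ⟨l, fun t ht => ?_⟩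
  have hpos : 0 < m₀ (ball l t) := hl _ (by rw [nhdsWithin_univ]; exact ball_mem_nhds l ht)
  set B : Set ℂ := ball l t with hB
  have hBm : MeasurableSet B := measurableSet_ball
  have hb : BB (fun z => conj (θ₀ z)) :=
    ⟨Complex.continuous_conj.measurable.comp h.meas, 1, fun z => by
      rw [RCLike.norm_conj, h.norm]⟩
  have hb' : BB (fun z => conj (θ₀ z) * B.indicator (fun _ => 1) z) := hb.mul (BB.ind hBm)
  set m : Measure ℂ := m₀.restrict B with hm
  have hfin : IsFiniteMeasure m := inferInstance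
  have hmB : m Bᶜ = 0 := by
    rw [hm, Measure.restrict_apply hBm.compl, compl_inter_self, measure_empty]
  have hae : ∀ᵐ s ∂m, s ∈ B := by
    rw [hm]
    exact ae_restrict_mem hBm
  have hrep : Rep P (w₀.comp (P fun z => conj (θ₀ z) * B.indicator (fun _ => 1) z)) u m
      (fun _ => 1) := by
    refine ⟨hfin, measurable_const, fun z => by simp, fun f hf => ?_⟩
    have e1 : (w₀.comp (P fun z => conj (θ₀ z) * B.indicator (fun _ => 1) z)) (P f u) =
        w₀ (P (fun z => (conj (θ₀ z) * B.indicator (fun _ => 1) z) * f z) u) := by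
      rw [hc.mul _ _ hb' hf]
      rfl
    rw [e1, h.eq _ (hb'.mul hf), hm, ← integral_indicator hBm]
    congr 1
    funext z
    by_cases hz : z ∈ B
    · rw [indicator_of_mem hz, indicator_of_mem hz, mul_one, mul_one]
      have : conj (θ₀ z) * θ₀ z = 1 := by
        rw [Complex.conj_mul', h.norm]
        simp
      linear_combination f z * this
    · rw [indicator_of_notMem hz, indicator_of_notMem hz]
      ring
  have hdist : ∀ s ∈ B, ‖s - l‖ < t := fun s hs => by
    rw [← dist_eq_norm]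
    exact hs
  have hcc : ∀ z, cc m (fun _ => 1) z = ∫ s, (z - s)⁻¹ ∂m := fun z => by
    unfold cc
    simp only [one_mul]
  have hmeas : ∀ z, AEStronglyMeasurable (fun s : ℂ => (z - s)⁻¹) m := fun z =>
    (measurable_const.sub measurable_id).inv.aestronglyMeasurable
  have hint : ∀ (z : ℂ) (d : ℝ), 0 < d → (∀ s ∈ B, d ≤ ‖z - s‖) →
      Integrable (fun s : ℂ => (z - s)⁻¹) m := by
    intro z d hd hz
    refine Integrable.of_bound (hmeas z) d⁻¹ ?_
    filter_upwards [hae] with s hs
    rw [norm_inv]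
    exact inv_anti₀ hd (hz s hs)
  refine ⟨_, m, hrep, hmB, ?_, ?_⟩
  · intro z hz h0
    rw [hcc] at h0
    have hF := hint z t ht (fun s hs => by
      have : ‖z - l‖ ≤ ‖z - s‖ + ‖s - l‖ := by
        have e : z - l = (z - s) + (s - l) := by ring
        rw [e]
        exact norm_add_le _ _
      linarith [hdist s hs])
    have hF' := hF.const_mul (z - l)
    have h1 : ∫ s, ((z - l) * (z - s)⁻¹).re ∂m = 0 := by
      have h2 := Complex.reCLM.integral_comp_comm hF'
      simp only [Complex.reCLM_apply] at h2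
      rw [h2, integral_const_mul, h0, mul_zero, Complex.zero_re]
    have hp : ∀ᵐ s ∂m, 0 < ((z - l) * (z - s)⁻¹).re := by
      filter_upwards [hae] with s hs
      exact Pool.Agent.Y528.RO.re_pos hz (hdist s hs)
    have h5 := (integral_eq_zero_iff_of_nonneg_ae (μ := m) (by
      filter_upwards [hp] with s hs
      exact hs.le) hF'.re).1 h1
    have h6 : ∀ᵐ s ∂m, False := by
      filter_upwards [hp, h5] with s h7 h8
      have h9 : ((z - l) * (z - s)⁻¹).re = 0 := h8
      linarith
    rw [eventually_false_iff_eq_bot, ae_eq_bot] at h6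
    have h7 : m univ = 0 := by rw [h6]; simp
    rw [hm, Measure.restrict_apply MeasurableSet.univ, univ_inter] at h7
    exact hpos.ne' h7
  · intro z₀ hz₀
    have hz₀' : t < ‖z₀ - l‖ := hz₀
    have hfun : cc m (fun _ => 1) = fun z => ∫ s, (z - s)⁻¹ ∂m := funext hcc
    rw [hfun]
    obtain ⟨d, hd⟩ : ∃ d : ℝ, d = (‖z₀ - l‖ - t) / 2 := ⟨_, rfl⟩
    have hd0 : 0 < d := by
      rw [hd]
      linarith
    have hk : ∀ s ∈ B, ∀ z ∈ ball z₀ d, d ≤ ‖z - s‖ := by
      intro s hs z hz
      have hs' := hdist s hs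
      have hz' : ‖z₀ - z‖ < d := by
        rw [← dist_eq_norm, dist_comm]
        exact hz
      have : ‖z₀ - l‖ ≤ ‖z₀ - z‖ + ‖z - s‖ + ‖s - l‖ := by
        have e : z₀ - l = (z₀ - z) + (z - s) + (s - l) := by ring
        rw [e]
        exact norm_add₃_le
      linarith
    have hmain := hasDerivAt_integral_of_dominated_loc_of_deriv_le (μ := m)
      (F := fun (z : ℂ) (s : ℂ) => (z - s)⁻¹)
      (F' := fun (z : ℂ) (s : ℂ) => (-1 / (z - s) ^ 2))
      (bound := fun _ => (1 / d ^ 2)) (x₀ := z₀) (s := ball z₀ d)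
      (ball_mem_nhds z₀ hd0) (Eventually.of_forall hmeas)
      (hint z₀ d hd0 fun s hs => hk s hs z₀ (mem_ball_self hd0))
      ((measurable_const.div ((measurable_const.sub measurable_id).pow_const 2)).aestronglyMeasurable)
      (by
        filter_upwards [hae] with s hs z hz
        rw [norm_div, norm_neg, norm_one, norm_pow]
        exact one_div_le_one_div_of_le (by positivity)
          (pow_le_pow_left₀ hd0.le (hk s hs z hz) 2))
      (integrable_const _)
      (by
        filter_upwards [hae] with s hs z hz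
        have hne : z - s ≠ 0 := by
          intro h
          have := hk s hs z hz
          rw [h, norm_zero] at this
          linarith
        exact ((hasDerivAt_id z).sub_const s).inv hne)
    exact hmain.2.differentiableAt.differentiableWithinAt

lemma bd_pow {g : ℂ → ℂ} {a : ℂ} {r : ℝ} (hr : 0 < r) (hg : Bd g a r 1) (k : ℕ) :
    Bd (fun z => (z - a) ^ k * g z) a r (r ^ k) := by
  refine ⟨((measurable_id.sub_const a).pow_const k).mul hg.meas, by positivity, fun z => ?_,
    fun z hz => ?_⟩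
  · by_cases hz : z ∈ ball a r
    · rw [norm_mul, norm_pow]
      have h1 : ‖z - a‖ ≤ r := (mem_ball_iff_norm.1 hz).le
      calc ‖z - a‖ ^ k * ‖g z‖ ≤ r ^ k * 1 := by
            gcongr
            exact hg.bd z
        _ = r ^ k := mul_one _
    · rw [hg.supp z hz, mul_zero, norm_zero]
      positivity
  · rw [hg.supp z hz, mul_zero]

theorem key (hHT : S_HT) (hCTG : S_CTG) (hc : Calc N P C₀) {u : X} {v : StrongDual ℂ X}
    {m : Measure ℂ} {θ : ℂ → ℂ} (hrep : Rep P v u m θ) {a : ℂ} {r : ℝ} (hr : 0 < r)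
    (hch : ¬ HasC (TT N u v) a r) {g : ℂ → ℂ} (hg : Bd g a r 1)
    (hg0 : ∀ z, 1 - cc m θ z ≠ 0 → g z = 0) {w : StrongDual ℂ X} {m' : Measure ℂ} {θ' : ℂ → ℂ}
    (hw : Rep P w u m' θ') : ∫ z, g z * cc m' θ' z = 0 := by
  obtain ⟨K, hK0, hK⟩ := hHT r hr
  obtain ⟨-, -, hctg⟩ := hrep.ctg hHT hCTG
  obtain ⟨-, -, hctx⟩ := hw.ctg hHT hCTG
  set G : ℕ → ℂ → ℂ := fun k z => (z - a) ^ k * g z with hGdef
  have hG : ∀ k, Bd (G k) a r (r ^ k) := bd_pow hr hg
  have hGs : ∀ k, G (k + 1) = fun z => (z - a) * G k z := by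
    intro k
    funext z
    simp only [hGdef]
    ring
  have hT : ∀ k, Measurable (ht (G k)) ∧ (∀ l, ‖ht (G k) l‖ ≤ K * r ^ k) ∧
      ∀ l, ht (G (k + 1)) l = (l - a) * ht (G k) l + ∫ z, G k z := by
    intro k
    obtain ⟨-, h1, -, h2, h3⟩ := hK a (r ^ k) (G k) (hG k)
    refine ⟨h1, h2, fun l => ?_⟩
    rw [hGs k]
    exact h3 a l
  have hbb : ∀ k, BB (ht (G k)) := fun k => bb_ht hHT hr (hG k)
  set Y : ℕ → X := fun k => P (ht (G k)) u with hYdef
  have hin : ∀ k, v (Y k) = ∫ z, G k z := by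
    intro k
    rw [(hctg a r _ (G k) hr (hG k)).2]
    refine integral_congr_ae (Eventually.of_forall fun z => ?_)
    by_cases hz : 1 - cc m θ z = 0
    · have h1 : cc m θ z = 1 := (sub_eq_zero.1 hz).symm
      simp only [h1, mul_one]
    · have h1 : G k z = 0 := by simp only [hGdef, hg0 z hz, mul_zero]
      simp only [h1, zero_mul]
  have hstep : ∀ k, TT N u v (Y k) - a • Y k = Y (k + 1) := by
    intro k
    have h1 := hc.step (a := a) (c := ∫ z, G k z) (hbb k) (hbb (k + 1))
      (fun l => by rw [(hT k).2.2 l]; ring) u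
    rw [TT_apply, hin k, add_sub_right_comm, h1]
    abel
  have hchain : IsCh (TT N u v) a r Y := by
    refine ⟨hstep, C₀ * K * ‖u‖, fun k => ?_⟩
    calc ‖Y k‖ ≤ C₀ * (K * r ^ k) * ‖u‖ := hc.bd (hT k).1 (hT k).2.1 u
      _ = C₀ * K * ‖u‖ * r ^ k := by ring
  have hX0 : Y 0 = 0 := by
    by_contra h
    exact hch ⟨Y, hchain, h⟩
  have h1 := (hctx a r _ (G 0) hr (hG 0)).2
  have h0 : P (ht (G 0)) u = 0 := hX0
  rw [h0, map_zero] at h1
  have h2 : (fun z => G 0 z * cc m' θ' z) = fun z => g z * cc m' θ' z := by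
    funext z
    simp [hGdef]
  rw [h2] at h1
  exact h1.symm

theorem zero (hHT : S_HT) (hCTG : S_CTG) (hc : Calc N P C₀) {u : X} {v : StrongDual ℂ X}
    {m : Measure ℂ} {θ : ℂ → ℂ} (hrep : Rep P v u m θ) {a : ℂ} {r : ℝ} (hr : 0 < r)
    (hu : u ≠ 0) (hno : ¬ (∀ᵐ z ∂(volume.restrict (ball a r)), 1 - cc m θ z ≠ 0)) :
    HasC (TT N u v) a r := by
  by_contra hch
  apply hno
  have hfm : Measurable (fun z => 1 - cc m θ z) := measurable_const.sub (hrep.ctg hHT hCTG).1
  set E : Set ℂ := {z | z ∈ ball a r ∧ 1 - cc m θ z = 0} with hEdef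
  have hE : MeasurableSet E :=
    measurableSet_ball.inter (hfm (measurableSet_singleton 0))
  have hzero : ∀ (w : StrongDual ℂ X) (m' : Measure ℂ) (θ' : ℂ → ℂ), Rep P w u m' θ' →
      ∀ᵐ z : ℂ, z ∈ E → cc m' θ' z = 0 := by
    intro w m' θ' hw
    obtain ⟨hxm, -, hxg⟩ := hw.ctg hHT hCTG
    set c : ℂ → ℂ := cc m' θ' with hcdef
    set g : ℂ → ℂ := E.indicator fun z => conj (c z) / ‖c z‖ with hgdef
    have hgm : Measurable g := by
      refine Measurable.indicator ?_ hE
      exact (Complex.continuous_conj.measurable.comp hxm).div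
        (Complex.measurable_ofReal.comp hxm.norm)
    have hg : Bd g a r 1 := by
      refine ⟨hgm, zero_le_one, fun z => ?_, fun z hz => ?_⟩
      · by_cases hz : z ∈ E
        · rw [hgdef, indicator_of_mem hz, norm_div, RCLike.norm_conj, Complex.norm_real, norm_norm]
          exact div_self_le_one _
        · rw [hgdef, indicator_of_notMem hz, norm_zero]
          exact zero_le_one
      · exact indicator_of_notMem (fun h => hz h.1) _
    have hg0 : ∀ z, 1 - cc m θ z ≠ 0 → g z = 0 := fun z hz =>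
      indicator_of_notMem (fun h => hz h.2) _
    have h1 : ∫ z, g z * c z = 0 := key hHT hCTG hc hrep hr hch hg hg0 hw
    have h2 := (hxg a r 1 g hr hg).1
    have h3 : ∀ z, g z * c z = ((E.indicator (fun z => ‖c z‖) z : ℝ) : ℂ) := by
      intro z
      by_cases hz : z ∈ E
      · rw [hgdef, indicator_of_mem hz, indicator_of_mem hz]
        by_cases hcz : c z = 0
        · simp [hcz]
        · have h4 : (‖c z‖ : ℂ) ≠ 0 := by
            exact_mod_cast (norm_ne_zero_iff.2 hcz)
          rw [div_mul_eq_mul_div, div_eq_iff h4, ← Complex.normSq_eq_conj_mul_self,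
            Complex.normSq_eq_norm_sq]
          push_cast
          ring
      · rw [hgdef, indicator_of_notMem hz, indicator_of_notMem hz]
        simp
    simp only [h3] at h1 h2
    rw [integral_complex_ofReal] at h1
    have h5 : ∫ z, E.indicator (fun z => ‖c z‖) z = 0 := by exact_mod_cast h1
    have h6 : Integrable (E.indicator fun z => ‖c z‖) := by
      have := h2.re
      simpa using this
    rw [integral_eq_zero_iff_of_nonneg (fun z => indicator_nonneg (fun _ _ => norm_nonneg _) z)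
      h6] at h5
    filter_upwards [h5] with z hz hzE
    rw [indicator_of_mem hzE] at hz
    exact norm_eq_zero.1 hz
  obtain ⟨l, hl⟩ := test hc hu
  choose w m' hx1 hx2 hx3 hx4 using fun n : ℕ => hl (1 / (n + 1)) (by positivity)
  have hall : ∀ᵐ z : ℂ, ∀ n, z ∈ E → cc (m' n) (fun _ => 1) z = 0 :=
    ae_all_iff.2 fun n => hzero (w n) (m' n) _ (hx1 n)
  have hne : ∀ᵐ z : ℂ, z ≠ l := by
    rw [ae_iff]
    simp
  rw [ae_restrict_iff' measurableSet_ball]
  filter_upwards [hall, hne] with z hz hzl hzb hz0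
  have hzE : z ∈ E := ⟨hzb, hz0⟩
  have h1 : 0 < ‖z - l‖ := norm_pos_iff.2 (sub_ne_zero.2 hzl)
  obtain ⟨n, hn⟩ := exists_nat_one_div_lt (half_pos h1)
  refine hx3 n z ?_ (hz n hzE)
  linarith

end Pool.Agent.X207.RB
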