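import Pool.Agent.X207.RBMain

/-!
# Rank one perturbations: small local spectra and hyperinvariant subspaces
-/

set_option autoImplicit false

namespace Pool.Agent.X207.RB

open MeasureTheory Set Metric Filter Topology
open scoped ENNReal NNReal ComplexConjugate
open Pool.Agent.Y283.NK (HasHyp LocVec)

variable {X : Type} [NormedAddCommGroup X] [NormedSpace ℂ X]
variable {N : X →L[ℂ] X} {P : (ℂ → ℂ) → (X →L[ℂ] X)} {C₀ : ℝ}

/-- Fredholm alternative for compact perturbations -/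
theorem eigen_of_spectrum [CompleteSpace X] {S K : X →L[ℂ] X} (hK : IsCompactOperator K) {z : ℂ}
    (hzS : z ∉ spectrum ℂ S) (hzT : z ∈ spectrum ℂ (S + K)) :
    ∃ x : X, x ≠ 0 ∧ (S + K) x = z • x := by
  have hu : IsUnit (algebraMap ℂ (X →L[ℂ] X) z - S) := by
    by_contra h
    exact hzS h
  set R : X →L[ℂ] X := Ring.inverse (algebraMap ℂ (X →L[ℂ] X) z - S) with hR
  have hR1 : (algebraMap ℂ (X →L[ℂ] X) z - S) * R = 1 := Ring.mul_inverse_cancel _ hu
  have hfac : algebraMap ℂ (X →L[ℂ] X) z - (S + K) =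
      (algebraMap ℂ (X →L[ℂ] X) z - S) * (1 - R * K) := by
    rw [mul_sub, mul_one, ← mul_assoc, hR1, one_mul]; abel
  have hnu : ¬ IsUnit (1 - R * K) := by
    intro h
    apply hzT
    rw [spectrum.mem_resolventSet_iff, hfac]
    exact hu.mul h
  have h1 : (1 : ℂ) ∈ spectrum ℂ (R * K) := by
    rw [spectrum.mem_iff]
    simpa using hnu
  have hcomp : IsCompactOperator (R * K) := hK.clm_comp R
  have hev := (IsCompactOperator.hasEigenvalue_iff_mem_spectrum hcomp one_ne_zero).2 h1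
  obtain ⟨x, hx⟩ := hev.exists_hasEigenvector
  have hRK : R (K x) = x := by
    have := hx.apply_eq_smul
    simpa using this
  have hSx : z • x - S x = K x := by
    have := congrArg (fun L : X →L[ℂ] X => L (K x)) hR1
    simp only [mul_apply_eq_comp, one_apply_eq_self, sub_apply, hRK] at this
    simpa [Algebra.algebraMap_eq_smul_one] using this
  refine ⟨x, hx.2, ?_⟩
  rw [add_apply, ← hSx]; abel

lemma rank_cpt (u : X) (v : StrongDual ℂ X) : IsCompactOperator (⇑(v.smulRight u)) := by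
  have h1 : IsCompactOperator (⇑v) :=
    isCompactOperator_of_locallyCompactSpace_dom v
  have h2 := h1.clm_comp (ContinuousLinearMap.toSpanSingleton ℂ u)
  have e : (⇑(v.smulRight u) : X → X) = ⇑(ContinuousLinearMap.toSpanSingleton ℂ u) ∘ ⇑v := by
    funext x
    simp [ContinuousLinearMap.toSpanSingleton_apply]
  rw [e]
  exact h2

/-- small local spectra at every point of the spectrum -/
theorem locVec [CompleteSpace X] (hX : Refl X) (hc : Calc N P C₀) (u : X) (v : StrongDual ℂ X) :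
    LocVec (TT N u v) := by
  intro c hcs ε hε
  by_cases hE : EssP P c
  · obtain ⟨V, ⟨X1, C, X2⟩, X3⟩ := chain hX hc u v c ε hε hE
    refine ⟨V 0, C, X3, fun n => ?_⟩
    rw [Pool.Agent.Y283.NK.pow_of_rec X1]
    exact X2 n
  · obtain ⟨A, F, h1, h2, h3⟩ := fre hc hE
    have h4 : TT N u v = A + (F + v.smulRight u) := by
      unfold TT
      rw [h1]
      abel
    have hc' : c ∈ spectrum ℂ (A + (F + v.smulRight u)) := by rwa [← h4]
    obtain ⟨x, hx0, hx⟩ := eigen_of_spectrum (h2.add (rank_cpt u v)) h3 hc'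
    rw [← h4] at hx
    refine ⟨x, ‖x‖, hx0, fun n => ?_⟩
    have h5 : (TT N u v - c • (1 : X →L[ℂ] X)) x = 0 := by
      show TT N u v x - c • x = 0
      rw [hx, sub_self]
    cases n with
    | zero => simp
    | succ n =>
      have h6 : ((TT N u v - c • (1 : X →L[ℂ] X)) ^ (n + 1)) x = 0 := by
        rw [pow_succ]
        show ((TT N u v - c • (1 : X →L[ℂ] X)) ^ n)
          ((TT N u v - c • (1 : X →L[ℂ] X)) x) = 0
        rw [h5, map_zero]
      rw [h6, norm_zero]
      positivity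

/-- the essential points belong to the spectrum -/
theorem mem_of_ess [CompleteSpace X] (hX : Refl X) (hc : Calc N P C₀) (u : X)
    (v : StrongDual ℂ X) {c : ℂ} (hE : EssP P c) : c ∈ spectrum ℂ (TT N u v) := by
  by_contra hns
  have hu : IsUnit (algebraMap ℂ (X →L[ℂ] X) c - TT N u v) := by
    by_contra h
    exact hns h
  set R : X →L[ℂ] X := Ring.inverse (algebraMap ℂ (X →L[ℂ] X) c - TT N u v) with hR
  have hR1 : R * (algebraMap ℂ (X →L[ℂ] X) c - TT N u v) = 1 := Ring.inverse_mul_cancel _ hu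
  have hb : ∀ x : X, ‖x‖ ≤ ‖R‖ * ‖TT N u v x - c • x‖ := by
    intro x
    have h1 := congrArg (fun L : X →L[ℂ] X => L x) hR1
    have h2 : R (c • x - TT N u v x) = x := by
      simpa [Algebra.algebraMap_eq_smul_one] using h1
    calc ‖x‖ = ‖R (c • x - TT N u v x)‖ := by rw [h2]
      _ ≤ ‖R‖ * ‖c • x - TT N u v x‖ := R.le_opNorm _
      _ = ‖R‖ * ‖TT N u v x - c • x‖ := by rw [norm_sub_rev]
  set r : ℝ := 1 / (2 * (‖R‖ + 1)) with hr
  have hr0 : 0 < r := by positivity
  obtain ⟨V, ⟨h1, C, h2⟩, h3⟩ := chain hX hc u v c r hr0 hE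
  have h4 : ∀ k, ‖V 0‖ ≤ ‖R‖ ^ k * ‖V k‖ := by
    intro k
    induction k with
    | zero => simp
    | succ k ih =>
      refine ih.trans ?_
      rw [pow_succ, mul_assoc]
      refine mul_le_mul_of_nonneg_left ?_ (by positivity)
      have := hb (V k)
      rwa [h1 k] at this
  have h5 : ∀ k, ‖V 0‖ ≤ |C| * (1 / 2 : ℝ) ^ k := by
    intro k
    calc ‖V 0‖ ≤ ‖R‖ ^ k * ‖V k‖ := h4 k
      _ ≤ ‖R‖ ^ k * (|C| * r ^ k) := by
          refine mul_le_mul_of_nonneg_left ((h2 k).trans ?_) (by positivity)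
          exact mul_le_mul_of_nonneg_right (le_abs_self C) (by positivity)
      _ = |C| * (‖R‖ * r) ^ k := by rw [mul_pow]; ring
      _ ≤ |C| * (1 / 2 : ℝ) ^ k := by
          refine mul_le_mul_of_nonneg_left (pow_le_pow_left₀ (by positivity) ?_ k) (abs_nonneg C)
          rw [hr, mul_one_div, div_le_div_iff₀ (by positivity) two_pos]
          linarith [norm_nonneg R]
  have h6 : Tendsto (fun k : ℕ => |C| * (1 / 2 : ℝ) ^ k) atTop (𝓝 0) := by
    have := (tendsto_pow_atTop_nhds_zero_of_lt_one (r := (1 / 2 : ℝ)) (by norm_num)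
      (by norm_num)).const_mul |C|
    simpa using this
  have h7 : ‖V 0‖ ≤ 0 := ge_of_tendsto' h6 h5
  exact h3 (norm_le_zero_iff.1 h7)

/-- the spectrum of the adjoint -/
lemma spec_adj [CompleteSpace X] (hX : Refl X) (T : X →L[ℂ] X) {c : ℂ} (hc : c ∈ spectrum ℂ T) :
    c ∈ spectrum ℂ (adj T) := by
  by_contra hns
  have hu : IsUnit (c • (1 : StrongDual ℂ X →L[ℂ] StrongDual ℂ X) - adj T) := by
    have := spectrum.notMem_iff.1 hns
    rwa [Algebra.algebraMap_eq_smul_one] at this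
  obtain ⟨⟨A, S, hS1, hS2⟩, hA⟩ := hu
  have hA' : A = c • (1 : StrongDual ℂ X →L[ℂ] StrongDual ℂ X) - adj T := hA
  have hap : ∀ (w : StrongDual ℂ X) (x : X), A w x = w (c • x - T x) := by
    intro w x
    rw [hA', map_sub, map_smul]
    rfl
  have h1 : ∀ (w : StrongDual ℂ X) (x : X), (S w) (c • x - T x) = w x := by
    intro w x
    have := congrArg (fun L : StrongDual ℂ X →L[ℂ] StrongDual ℂ X => L w x) hS1
    rw [← hap]
    exact this
  have h2 : ∀ (w : StrongDual ℂ X), S (A w) = w := by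
    intro w
    have := congrArg (fun L : StrongDual ℂ X →L[ℂ] StrongDual ℂ X => L w) hS2
    exact this
  apply hc
  rw [spectrum.mem_resolventSet_iff, ContinuousLinearMap.isUnit_iff_bijective]
  have hT : ∀ x, (algebraMap ℂ (X →L[ℂ] X) c - T) x = c • x - T x := by
    intro x
    rw [Algebra.algebraMap_eq_smul_one]
    rfl
  constructor
  · rw [injective_iff_map_eq_zero]
    intro x hx
    refine ext_dual fun w => ?_
    rw [← h1 w x, ← hT, hx, map_zero, map_zero]
  · intro y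
    let ζ : StrongDual ℂ (StrongDual ℂ X) :=
      (NormedSpace.inclusionInDoubleDual ℂ X y).comp S
    obtain ⟨x, hx⟩ := hX ζ
    have hx' : ∀ w : StrongDual ℂ X, w x = (S w) y := by
      intro w
      exact congrArg (fun ξ : StrongDual ℂ (StrongDual ℂ X) => ξ w) hx
    refine ⟨x, ext_dual fun w => ?_⟩
    rw [hT, ← hap, hx', h2]

/-- the theorem -/
theorem main [CompleteSpace X] (hX : Refl X) (hc : Calc N P C₀) (u : X) (v : StrongDual ℂ X) :
    ((∃ c : ℂ, TT N u v = c • 1) ∨ HasHyp (TT N u v)) ∧ LocVec (TT N u v) ∧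
      LocVec (adj (TT N u v)) := by
  have hL1 : LocVec (TT N u v) := locVec hX hc u v
  have hL2 : LocVec (adj (TT N u v)) := by
    rw [adj_TT]
    exact locVec (refl_dual hX) (hc.adj hX) v _
  refine ⟨?_, hL1, hL2⟩
  by_cases hsc : ∃ c : ℂ, TT N u v = c • 1
  · exact Or.inl hsc
  right
  have hnt : Nontrivial X := by
    by_contra h
    rw [not_nontrivial_iff_subsingleton] at h
    apply hsc
    refine ⟨0, ?_⟩
    ext1 f
    exact Subsingleton.elim _ _
  obtain ⟨c₁, hc₁⟩ := spectrum.nonempty (TT N u v)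
  by_cases hone : spectrum ℂ (TT N u v) = {c₁}
  · have h2 : IsCompactOperator (⇑(N - c₁ • (1 : X →L[ℂ] X))) := by
      refine compact_of_one hc fun c hne hE => hne ?_
      have := mem_of_ess hX hc u v hE
      rw [hone] at this
      exact this
    have h3 : IsCompactOperator (⇑(TT N u v - c₁ • (1 : X →L[ℂ] X))) := by
      have h4 : TT N u v - c₁ • (1 : X →L[ℂ] X) =
          (N - c₁ • (1 : X →L[ℂ] X)) + v.smulRight u := by
        unfold TT
        abel
      rw [h4]
      exact h2.add (rank_cpt u v)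
    refine Pool.Agent.Y271.RO.hyp_shift c₁ (Pool.Agent.W577.HI.G1.main _ _ h3 ?_)
    rintro ⟨c, hc⟩
    apply hsc
    refine ⟨c + c₁, ?_⟩
    rw [add_smul, ← hc]
    abel
  · obtain ⟨c₂, hc₂, hne⟩ : ∃ c₂ ∈ spectrum ℂ (TT N u v), c₂ ≠ c₁ := by
      by_contra hcon
      push Not at hcon
      apply hone
      ext z
      exact ⟨fun hz => hcon z hz, fun hz => by rw [mem_singleton_iff.1 hz]; exact hc₁⟩
    have hdist : 0 < ‖c₁ - c₂‖ := norm_pos_iff.2 (sub_ne_zero.2 hne.symm)
    obtain ⟨x, C₁, hx0, hx⟩ := hL1 c₁ hc₁ (‖c₁ - c₂‖ / 3) (by positivity)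
    obtain ⟨y, C₂, hy0, hy⟩ := hL2 c₂ (spec_adj hX _ hc₂) (‖c₁ - c₂‖ / 3) (by positivity)
    refine ann (c₁ := c₁) (c₂ := c₂) (r₁ := ‖c₁ - c₂‖ / 3) (r₂ := ‖c₁ - c₂‖ / 3)
      (Y := fun n => ((TT N u v - c₁ • (1 : X →L[ℂ] X)) ^ n) x)
      (W := fun n => ((adj (TT N u v) - c₂ • (1 : StrongDual ℂ X →L[ℂ] StrongDual ℂ X)) ^ n) y)
      (by positivity) (by positivity) (by linarith) ⟨fun a => ?_, C₁, hx⟩ ⟨fun a => ?_, C₂, hy⟩
      ?_ ?_
    · show _ = ((TT N u v - c₁ • (1 : X →L[ℂ] X)) ^ (a + 1)) x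
      rw [pow_succ']
      rfl
    · show _ = ((adj (TT N u v) - c₂ • (1 : StrongDual ℂ X →L[ℂ] StrongDual ℂ X)) ^ (a + 1)) y
      rw [pow_succ']
      rfl
    · simpa using hx0
    · simpa using hy0

end Pool.Agent.X207.RB
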