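import Pool.Agent.X207.SBSel

/-!
The dimension function is locally constant for suitable topologies, and the construction of the
selections.
-/

open Set Filter Topology TopologicalSpace Metric

namespace Pool.Agent.X207.SB

noncomputable section

variable {𝕜 Y : Type*} [RCLike 𝕜] [NormedAddCommGroup Y] [NormedSpace 𝕜 Y]

/-- `X` contains `n` linearly independent vectors. -/
def DimGe (n : ℕ) (X : SB 𝕜 Y) : Prop :=
  ∃ v : Fin n → Y, (∀ i, v i ∈ X.1) ∧ LinearIndependent 𝕜 v

lemma dimGe_of_le_rank {n : ℕ} {X : SB 𝕜 Y} (h : (n : Cardinal) ≤ Module.rank 𝕜 X.1) :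
    DimGe n X := by
  obtain ⟨v, hli⟩ := exists_linearIndependent_of_le_rank h
  exact ⟨fun i => (v i : Y), fun i => (v i).2, hli.map' X.1.subtype (Submodule.ker_subtype _)⟩

lemma finite_of_not_dimGe {n : ℕ} {X : SB 𝕜 Y} (h : ¬ DimGe (n + 1) X) :
    Module.Finite 𝕜 X.1 ∧ Module.finrank 𝕜 X.1 ≤ n := by
  have h1 : Module.rank 𝕜 X.1 < ((n + 1 : ℕ) : Cardinal) := by
    by_contra hlt
    exact h (dimGe_of_le_rank (not_lt.1 hlt))
  have h2 : Module.rank 𝕜 X.1 < Cardinal.aleph0 := h1.trans (Cardinal.natCast_lt_aleph0)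
  have hf : Module.Finite 𝕜 X.1 := Module.rank_lt_aleph0_iff.1 h2
  refine ⟨hf, ?_⟩
  have h3 := Module.finrank_eq_rank 𝕜 X.1
  rw [← h3] at h1
  have h4 : Module.finrank 𝕜 X.1 < n + 1 := by exact_mod_cast h1
  omega

lemma dimGe_mono {m n : ℕ} (hmn : m ≤ n) {X : SB 𝕜 Y} (h : DimGe n X) : DimGe m X := by
  obtain ⟨v, hv, hli⟩ := h
  exact ⟨fun i => v (Fin.castLE hmn i), fun i => hv _,
    hli.comp _ (Fin.castLE_injective hmn)⟩

/-- The cone sets. -/
def VV (fs : ℕ → StrongDual 𝕜 Y) (n : ℕ) (e : Fin n → ℕ) (K : ℕ) : Set Y :=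
  {y | (K : ℝ) * ∑ i, ‖fs (e i) y‖ < ‖y‖}

lemma isOpen_VV (fs : ℕ → StrongDual 𝕜 Y) (n : ℕ) (e : Fin n → ℕ) (K : ℕ) :
    IsOpen (VV fs n e K) :=
  isOpen_lt (by fun_prop) (by fun_prop)

lemma not_dimGe_of_VV {fs : ℕ → StrongDual 𝕜 Y} {n : ℕ} {e : Fin n → ℕ} {K : ℕ} {X : SB 𝕜 Y}
    (h : X ∉ Ep (𝕜 := 𝕜) (VV fs n e K)) : ¬ DimGe (n + 1) X := by
  rintro ⟨v, hv, hli⟩
  let L : Y →ₗ[𝕜] (Fin n → 𝕜) := LinearMap.pi fun i => (fs (e i)).toLinearMap
  have hinj : ∀ y ∈ X.1, L y = 0 → y = 0 := by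
    intro y hy hL
    by_contra hne
    apply h
    refine ⟨y, hy, ?_⟩
    have h1 : ∀ i, fs (e i) y = 0 := fun i => congrFun hL i
    change (K : ℝ) * ∑ i, ‖fs (e i) y‖ < ‖y‖
    simp only [h1, norm_zero, Finset.sum_const_zero, mul_zero]
    exact norm_pos_iff.2 hne
  have hli2 : LinearIndependent 𝕜 (fun i => L (v i)) := by
    rw [Fintype.linearIndependent_iff]
    intro c hc
    have h1 : L (∑ i, c i • v i) = 0 := by
      rw [map_sum, ← hc]
      exact Finset.sum_congr rfl fun i _ => map_smul L _ _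
    have h2 : ∑ i, c i • v i = 0 :=
      hinj _ (X.1.sum_mem fun i _ => X.1.smul_mem _ (hv i)) h1
    exact Fintype.linearIndependent_iff.1 hli c h2
  have h3 := hli2.fintype_card_le_finrank
  simp at h3

lemma exists_indices (fs : ℕ → StrongDual 𝕜 Y) (hfs : ∀ y, (∀ k, fs k y = 0) → y = 0) (n : ℕ) :
    ∀ X : Submodule 𝕜 Y, Module.Finite 𝕜 X → Module.finrank 𝕜 X ≤ n →
      ∃ e : Fin n → ℕ, ∀ y ∈ X, (∀ i, fs (e i) y = 0) → y = 0 := by
  induction n with
  | zero =>
    intro X hX h0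
    refine ⟨Fin.elim0, fun y hy _ => ?_⟩
    have h1 : X = ⊥ := Submodule.finrank_eq_zero.1 (by omega)
    rw [h1] at hy
    exact (Submodule.mem_bot 𝕜).1 hy
  | succ n ih =>
    intro X hX hn
    by_cases hbot : X = ⊥
    · refine ⟨fun _ => 0, fun y hy _ => ?_⟩
      rw [hbot] at hy
      exact (Submodule.mem_bot 𝕜).1 hy
    · obtain ⟨y, hy, hy0⟩ := Submodule.exists_mem_ne_zero_of_ne_bot hbot
      obtain ⟨k, hk⟩ : ∃ k, fs k y ≠ 0 := by
        by_contra hno
        push Not at hno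
        exact hy0 (hfs y hno)
      let X' : Submodule 𝕜 Y := X ⊓ LinearMap.ker (fs k).toLinearMap
      have hlt : X' < X := by
        refine lt_of_le_of_ne inf_le_left ?_
        intro he
        have : y ∈ X' := by rw [he]; exact hy
        exact hk this.2
      have hfin : Module.Finite 𝕜 X' := Submodule.finiteDimensional_of_le hlt.le
      have hr := Submodule.finrank_lt_finrank_of_lt hlt
      obtain ⟨e, he⟩ := ih X' hfin (by omega)
      refine ⟨Fin.cons k e, fun z hz hz0 => ?_⟩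
      apply he z ⟨hz, ?_⟩
      · intro i
        have := hz0 i.succ
        simpa using this
      · have := hz0 0
        simpa using this

lemma exists_VV {fs : ℕ → StrongDual 𝕜 Y} (hfs : ∀ y, (∀ k, fs k y = 0) → y = 0) {n : ℕ}
    {X : SB 𝕜 Y} (h : ¬ DimGe (n + 1) X) : ∃ (e : Fin n → ℕ) (K : ℕ),
      X ∉ Ep (𝕜 := 𝕜) (VV fs n e K) := by
  obtain ⟨hf, hr⟩ := finite_of_not_dimGe h
  obtain ⟨e, he⟩ := exists_indices fs hfs n X.1 hf hr
  let L : X.1 →ₗ[𝕜] (Fin n → 𝕜) := (LinearMap.pi fun i => (fs (e i)).toLinearMap).comp X.1.subtype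
  have hker : LinearMap.ker L = ⊥ := by
    rw [LinearMap.ker_eq_bot']
    intro y hy
    apply Subtype.ext
    exact he y y.2 fun i => congrFun hy i
  obtain ⟨K, hK, hKa⟩ := L.exists_antilipschitzWith hker
  obtain ⟨N, hN⟩ := exists_nat_ge (K : ℝ)
  refine ⟨e, N, ?_⟩
  rintro ⟨y, hy, hyV⟩
  have h1 : ‖y‖ ≤ K * ‖L ⟨y, hy⟩‖ := by
    have := hKa.le_mul_dist ⟨y, hy⟩ 0
    rw [map_zero, dist_zero_right, dist_zero_right] at this
    exact this
  have h2 : ‖L ⟨y, hy⟩‖ ≤ ∑ i, ‖fs (e i) y‖ := by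
    rw [pi_norm_le_iff_of_nonneg (Finset.sum_nonneg fun i _ => norm_nonneg _)]
    intro i
    exact Finset.single_le_sum (f := fun i => ‖fs (e i) y‖) (fun i _ => norm_nonneg _)
      (Finset.mem_univ i)
  have h3 : (N : ℝ) * ∑ i, ‖fs (e i) y‖ < ‖y‖ := hyV
  have h4 : (K : ℝ) * ‖L ⟨y, hy⟩‖ ≤ N * ∑ i, ‖fs (e i) y‖ :=
    mul_le_mul hN h2 (norm_nonneg _) (by positivity)
  linarith

lemma isOpen_dimGe {ι : Type*} {W : ι → Set Y} (n : ℕ)
    (hO : ∀ U : Set Y, IsOpen U → @IsOpen (SB 𝕜 Y) (tau 𝕜 W) (Ep U)) :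
    @IsOpen (SB 𝕜 Y) (tau 𝕜 W) {X | DimGe n X} := by
  let _ : TopologicalSpace (SB 𝕜 Y) := tau 𝕜 W
  rw [isOpen_iff_mem_nhds]
  rintro X ⟨v, hv, hli⟩
  have h1 : IsOpen {f : Fin n → Y | LinearIndependent 𝕜 f} := isOpen_setOfPred_linearIndependent
  obtain ⟨ε, hε, hsub⟩ := Metric.isOpen_iff.1 h1 v hli
  have h2 : ∀ᶠ X' in 𝓝 X, ∀ i : Fin n, X' ∈ Ep (𝕜 := 𝕜) (ball (v i) ε) := by
    rw [eventually_all]
    intro i
    exact (hO _ isOpen_ball).mem_nhds ⟨v i, hv i, mem_ball_self hε⟩
  filter_upwards [h2] with X' hX'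
  choose w hw hw' using hX'
  refine ⟨w, hw, hsub ?_⟩
  rw [mem_ball, dist_pi_lt_iff hε]
  exact hw'

/-- A countable separating family of functionals. -/
lemma exists_separating [SeparableSpace Y] :
    ∃ fs : ℕ → StrongDual 𝕜 Y, ∀ y, (∀ k, fs k y = 0) → y = 0 := by
  choose fs h1 h2 using fun k => exists_dual_vector'' 𝕜 (denseSeq Y k)
  refine ⟨fs, fun y hy => ?_⟩
  by_contra hne
  have hpos : 0 < ‖y‖ := norm_pos_iff.2 hne
  obtain ⟨k, hk⟩ := (denseRange_denseSeq Y).exists_dist_lt y (show 0 < ‖y‖ / 2 by positivity)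
  rw [dist_eq_norm] at hk
  have h3 : ‖denseSeq Y k‖ ≤ ‖y - denseSeq Y k‖ := by
    have h4 : fs k (denseSeq Y k - y) = ‖denseSeq Y k‖ := by
      rw [map_sub, h2, hy k, sub_zero]
    have h5 := (fs k).le_opNorm (denseSeq Y k - y)
    rw [h4, RCLike.norm_ofReal, abs_norm, norm_sub_rev] at h5
    exact h5.trans (mul_le_of_le_one_left (norm_nonneg _) (h1 k))
  have h6 : ‖y‖ ≤ ‖y - denseSeq Y k‖ + ‖denseSeq Y k‖ := by
    have := norm_add_le (y - denseSeq Y k) (denseSeq Y k)
    rwa [sub_add_cancel] at this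
  linarith

lemma linearIndependent_of_fin {v : ℕ → Y}
    (h : ∀ n : ℕ, LinearIndependent 𝕜 (fun i : Fin n => v i)) : LinearIndependent 𝕜 v := by
  rw [linearIndependent_iff']
  intro s g hg i hi
  obtain ⟨n, hn⟩ := s.exists_nat_subset_range
  classical
  have h1 := Fintype.linearIndependent_iff.1 (h n) (fun j => if (j : ℕ) ∈ s then g j else 0) (by
    rw [← hg]
    rw [Fin.sum_univ_eq_sum_range (fun j => (if j ∈ s then g j else 0) • v j) n]
    symm
    calc ∑ j ∈ s, g j • v j = ∑ j ∈ s, (if j ∈ s then g j else 0) • v j :=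
          Finset.sum_congr rfl fun j hj => by rw [if_pos hj]
      _ = ∑ j ∈ Finset.range n, (if j ∈ s then g j else 0) • v j := by
          apply Finset.sum_subset hn
          intro j _ hj
          rw [if_neg hj, zero_smul])
  have h2 := h1 ⟨i, Finset.mem_range.1 (hn hi)⟩
  simpa [hi] using h2

/-- The main construction in abstract form. -/
theorem exists_independent_selections {Z : Type*} [TopologicalSpace Z] (hZ : LC Z)
    (Φ : Z → Submodule 𝕜 Y) (D : ℕ → Set Z) (hD : ∀ n, IsClopen (D n))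
    (hDdim : ∀ n z, z ∈ D (n + 1) → ∀ F : Submodule 𝕜 Y, Module.Finite 𝕜 F →
      Module.finrank 𝕜 F ≤ n → ∃ y ∈ Φ z, y ∉ F)
    (hDmono : ∀ n, D (n + 1) ⊆ D n)
    (g : ℕ → Z → Y) (hg : ∀ j, Continuous (g j)) (hgΦ : ∀ j z, g j z ∈ Φ z)
    (hgd : ∀ z, ∀ y ∈ Φ z, ∀ ε > 0, ∃ j, ‖y - g j z‖ < ε) :
    ∃ h : ℕ → Z → Y, (∀ i, Continuous (h i)) ∧ (∀ i z, h i z ∈ Φ z) ∧
      (∀ z, ∀ y ∈ Φ z, ∀ ε > 0, ∃ i, ‖y - h i z‖ < ε) ∧
      ∀ z, (∀ n, z ∈ D n) → LinearIndependent 𝕜 (fun i => h i z) := by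
  let P : ℕ → (ℕ → Z → Y) → Prop := fun n h =>
    (∀ i < n, Continuous (h i) ∧ (∀ z, h i z ∈ Φ z) ∧
      ∀ z, ‖h i z - g (Nat.unpair i).1 z‖ ≤ (1 / 2) ^ i) ∧
    ∀ z ∈ D n, LinearIndependent 𝕜 (fun i : Fin n => h i z)
  have hstep : ∀ (n : ℕ) (h : ℕ → Z → Y), P n h → ∃ h' : Z → Y,
      P (n + 1) (Function.update h n h') := by
    intro n h hP
    set g₀ := g (Nat.unpair n).1 with hg₀
    let pert : ℕ → Z → Y := fun k z =>
      ((1 / 2 : 𝕜) ^ (Nat.unpair k).2) • g (Nat.unpair k).1 z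
    have hpert : ∀ k, Continuous (pert k) := fun k => (hg _).const_smul _
    let G : ℕ → Z → Y := fun k => match k with
      | 0 => g₀
      | k + 1 => fun z => g₀ z + pert k z
    have hG : ∀ k, Continuous (G k) := by
      intro k
      cases k with
      | zero => exact hg _
      | succ k => exact (hg _).add (hpert k)
    let H : Z → Fin n → Y := fun z i => h i z
    have hH : Continuous H := continuous_pi fun i => (hP.1 i i.2).1
    let O : ℕ → Set Z := fun k => match k with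
      | 0 => (D (n + 1))ᶜ
      | k + 1 => {z | ‖pert k z‖ < (1 / 2) ^ n} ∩
          {z | LinearIndependent 𝕜 (Fin.snoc (H z) (G (k + 1) z) : Fin (n + 1) → Y)}
    have hO : ∀ k, IsOpen (O k) := by
      intro k
      cases k with
      | zero => exact (hD _).compl.isOpen
      | succ k =>
        apply IsOpen.inter
        · exact isOpen_lt (hpert k).norm continuous_const
        · have hc : Continuous fun z => (Fin.snoc (H z) (G (k + 1) z) : Fin (n + 1) → Y) :=
            Continuous.finSnoc hH (hG (k + 1))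
          exact isOpen_setOfPred_linearIndependent.preimage hc
    have hcov : ∀ z, ∃ k, z ∈ O k := by
      intro z
      by_cases hz : z ∈ D (n + 1)
      · have hli : LinearIndependent 𝕜 (H z) := hP.2 z (hDmono n hz)
        set F := Submodule.span 𝕜 (range (H z)) with hF
        have hFfin : Module.Finite 𝕜 F := Module.Finite.span_of_finite 𝕜 (finite_range _)
        have hFr : Module.finrank 𝕜 F ≤ n := by
          have := finrank_range_le_card (R := 𝕜) (H z)
          simpa [Set.finrank] using this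
        have hFc : IsClosed (F : Set Y) := F.closed_of_finiteDimensional
        obtain ⟨y, hy, hyF⟩ := hDdim n z hz F hFfin hFr
        -- some `g j z` outside `F`
        obtain ⟨j, hj⟩ : ∃ j, g j z ∉ F := by
          obtain ⟨ε, hε, hεF⟩ := Metric.isOpen_iff.1 hFc.isOpen_compl y hyF
          obtain ⟨j, hj⟩ := hgd z y hy ε hε
          refine ⟨j, hεF ?_⟩
          rw [mem_ball, dist_eq_norm, norm_sub_rev]
          exact hj
        -- a scale
        have hhalf : ‖(1 / 2 : 𝕜)‖ = 1 / 2 := by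
          rw [norm_div, norm_one, RCLike.norm_ofNat]
        have hex : ∃ m : ℕ, ‖((1 / 2 : 𝕜) ^ m) • g j z‖ < (1 / 2) ^ n ∧
            g₀ z + ((1 / 2 : 𝕜) ^ m) • g j z ∉ F := by
          by_cases hgF : g₀ z ∈ F
          · obtain ⟨m, hm⟩ := exists_pow_lt_of_lt_one
              (show 0 < (1 / 2 : ℝ) ^ n / (‖g j z‖ + 1) by positivity)
              (by norm_num : (1 / 2 : ℝ) < 1)
            refine ⟨m, ?_, ?_⟩
            · rw [norm_smul, norm_pow, hhalf]
              rw [lt_div_iff₀ (by positivity)] at hm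
              have : 0 < (1 / 2 : ℝ) ^ m := by positivity
              nlinarith [norm_nonneg (g j z)]
            · intro hmem
              have h1 : ((1 / 2 : 𝕜) ^ m) • g j z ∈ F := by
                have := F.sub_mem hmem hgF
                rwa [add_sub_cancel_left] at this
              have h2 : (1 / 2 : 𝕜) ^ m ≠ 0 := pow_ne_zero _ (by norm_num)
              exact hj ((F.smul_mem_iff h2).1 h1)
          · obtain ⟨ε, hε, hεF⟩ := Metric.isOpen_iff.1 hFc.isOpen_compl (g₀ z) hgF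
            obtain ⟨m, hm⟩ := exists_pow_lt_of_lt_one
              (show 0 < (min ε ((1 / 2 : ℝ) ^ n)) / (‖g j z‖ + 1) by positivity)
              (by norm_num : (1 / 2 : ℝ) < 1)
            have h3 : ‖((1 / 2 : 𝕜) ^ m) • g j z‖ < min ε ((1 / 2 : ℝ) ^ n) := by
              rw [norm_smul, norm_pow, hhalf]
              rw [lt_div_iff₀ (by positivity)] at hm
              have : 0 < (1 / 2 : ℝ) ^ m := by positivity
              nlinarith [norm_nonneg (g j z)]
            refine ⟨m, lt_of_lt_of_le h3 (min_le_right _ _), ?_⟩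
            apply hεF
            rw [mem_ball, dist_eq_norm, add_sub_cancel_left]
            exact lt_of_lt_of_le h3 (min_le_left _ _)
        obtain ⟨m, hm1, hm2⟩ := hex
        refine ⟨Nat.pair j m + 1, ?_, ?_⟩
        · change ‖pert (Nat.pair j m) z‖ < _
          simpa [pert, Nat.unpair_pair] using hm1
        · change LinearIndependent 𝕜 (Fin.snoc (H z) (g₀ z + pert (Nat.pair j m) z) :
            Fin (n + 1) → Y)
          rw [linearIndependent_finSnoc]
          refine ⟨hli, ?_⟩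
          simpa [pert, Nat.unpair_pair] using hm2
      · exact ⟨0, hz⟩
    obtain ⟨f, hf, hfO⟩ := hZ O hO hcov
    refine ⟨fun z => G (f z) z, ?_, ?_⟩
    · intro i hi
      rcases Nat.lt_succ_iff_lt_or_eq.1 hi with hi' | rfl
      · rw [Function.update_of_ne hi'.ne]
        exact hP.1 i hi'
      · rw [Function.update_self]
        refine ⟨continuous_glue hf hG, fun z => ?_, fun z => ?_⟩
        · cases hk : f z with
          | zero => exact hgΦ _ _
          | succ k => exact (Φ z).add_mem (hgΦ _ _) ((Φ z).smul_mem _ (hgΦ _ _))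
        · have hz := hfO z
          cases hk : f z with
          | zero =>
            change ‖g₀ z - g₀ z‖ ≤ _
            rw [sub_self, norm_zero]; positivity
          | succ k =>
            rw [hk] at hz
            change ‖g₀ z + pert k z - g₀ z‖ ≤ _
            rw [add_sub_cancel_left]
            exact hz.1.le
    · intro z hz
      have hzO := hfO z
      cases hk : f z with
      | zero =>
        rw [hk] at hzO
        exact absurd hz hzO
      | succ k =>
        rw [hk] at hzO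
        have h1 : (fun i : Fin (n + 1) => Function.update h n (fun z => G (f z) z) i z) =
            (Fin.snoc (H z) (G (k + 1) z) : Fin (n + 1) → Y) := by
          funext i
          refine Fin.lastCases ?_ (fun i => ?_) i
          · simp [hk]
          · rw [Fin.snoc_castSucc, Fin.val_castSucc, Function.update_of_ne i.2.ne]
        rw [h1]
        exact hzO.2
  choose nx hnx using hstep
  let s : ∀ n, {h : ℕ → Z → Y // P n h} := fun n => Nat.rec
    ⟨fun _ _ => 0, by
      refine ⟨fun i hi => absurd hi (Nat.not_lt_zero i), fun z _ => ?_⟩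
      exact linearIndependent_empty_type⟩
    (fun n h => ⟨Function.update h.1 n (nx n h.1 h.2), hnx n h.1 h.2⟩) n
  have hs : ∀ n, (s (n + 1)).1 = Function.update (s n).1 n (nx n (s n).1 (s n).2) := fun n => rfl
  let hh : ℕ → Z → Y := fun i => (s (i + 1)).1 i
  have hagree : ∀ n i, i < n → (s n).1 i = hh i := by
    intro n
    induction n with
    | zero => intro i hi; exact absurd hi (Nat.not_lt_zero i)
    | succ n ih =>
      intro i hi
      rcases Nat.lt_succ_iff_lt_or_eq.1 hi with hi' | rfl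
      · rw [hs, Function.update_of_ne hi'.ne]
        exact ih i hi'
      · rfl
  have hprop : ∀ i, Continuous (hh i) ∧ (∀ z, hh i z ∈ Φ z) ∧
      ∀ z, ‖hh i z - g (Nat.unpair i).1 z‖ ≤ (1 / 2) ^ i := fun i =>
    (s (i + 1)).2.1 i (Nat.lt_succ_self i)
  refine ⟨hh, fun i => (hprop i).1, fun i => (hprop i).2.1, ?_, ?_⟩
  · intro z y hy ε hε
    obtain ⟨j, hj⟩ := hgd z y hy (ε / 2) (by positivity)
    obtain ⟨m, hm⟩ := exists_pow_lt_of_lt_one (show 0 < ε / 2 by positivity)
      (by norm_num : (1 / 2 : ℝ) < 1)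
    refine ⟨Nat.pair j m, ?_⟩
    have h1 := (hprop (Nat.pair j m)).2.2 z
    rw [Nat.unpair_pair] at h1
    have h2 : (1 / 2 : ℝ) ^ (Nat.pair j m) ≤ (1 / 2) ^ m :=
      pow_le_pow_of_le_one (by norm_num) (by norm_num) (Nat.right_le_pair j m)
    have h3 : ‖y - hh (Nat.pair j m) z‖ ≤ ‖y - g j z‖ + ‖hh (Nat.pair j m) z - g j z‖ := by
      have := norm_sub_le (y - g j z) (hh (Nat.pair j m) z - g j z)
      rwa [sub_sub_sub_cancel_right] at this
    change ‖hh (Nat.pair j m) z - g j z‖ ≤ _ at h1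
    linarith
  · intro z hz
    apply linearIndependent_of_fin
    intro n
    have h1 := (s n).2.2 z (hz n)
    have h2 : (fun i : Fin n => (s n).1 i z) = fun i : Fin n => hh i z := by
      funext i
      rw [hagree n i i.2]
    rwa [h2] at h1

end

end Pool.Agent.X207.SB
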