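import Pool.Agent.X207.SBTop

/-!
Continuous selections on spaces with locally constant choice.
-/

open Set Filter Topology TopologicalSpace Metric

namespace Pool.Agent.X207.SB

noncomputable section

/-- Locally constant choice from countable open covers. -/
def LC (Z : Type*) [TopologicalSpace Z] : Prop :=
  ∀ O : ℕ → Set Z, (∀ n, IsOpen (O n)) → (∀ z, ∃ n, z ∈ O n) →
    ∃ f : Z → ℕ, IsLocallyConstant f ∧ ∀ z, z ∈ O (f z)

lemma lc_of_basis {Z : Type*} [TopologicalSpace Z] [SecondCountableTopology Z]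
    (hB : ∀ (U : Set Z) (z : Z), IsOpen U → z ∈ U → ∃ C : Set Z, IsClopen C ∧ z ∈ C ∧ C ⊆ U) :
    LC Z := by
  intro O hO hcov
  choose n hn using hcov
  choose C hC1 hC2 hC3 using fun z => hB (O (n z)) z (hO _) (hn z)
  rcases isEmpty_or_nonempty Z with hZ | hZ
  · exact ⟨fun _ => 0, IsLocallyConstant.const _, fun z => (hZ.false z).elim⟩
  obtain ⟨s, hs, hsu⟩ := TopologicalSpace.countable_cover_nhds
    (f := C) (fun z => (hC1 z).isOpen.mem_nhds (hC2 z))
  have hsne : s.Nonempty := by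
    by_contra he
    rw [not_nonempty_iff_eq_empty] at he
    rw [he] at hsu
    simp only [mem_empty_iff_false, iUnion_of_empty, iUnion_empty] at hsu
    have := hZ.some
    have h2 : this ∈ (univ : Set Z) := mem_univ _
    rw [← hsu] at h2
    exact h2
  obtain ⟨e, he⟩ := hs.exists_eq_range hsne
  have hex : ∀ z, ∃ k, z ∈ C (e k) := by
    intro z
    have h1 : z ∈ ⋃ x ∈ s, C x := by rw [hsu]; exact mem_univ z
    simp only [mem_iUnion, exists_prop] at h1
    obtain ⟨x, hx, hz⟩ := h1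
    rw [he] at hx
    obtain ⟨k, rfl⟩ := hx
    exact ⟨k, hz⟩
  classical
  let κ : Z → ℕ := fun z => Nat.find (hex z)
  have hκ1 : ∀ z, z ∈ C (e (κ z)) := fun z => Nat.find_spec (hex z)
  have hκ2 : ∀ z m, m < κ z → z ∉ C (e m) := fun z m hm => Nat.find_min (hex z) hm
  have hκlc : IsLocallyConstant κ := by
    rw [IsLocallyConstant.iff_eventually_eq]
    intro z
    have h1 : ∀ᶠ w in 𝓝 z, w ∈ C (e (κ z)) := (hC1 _).isOpen.mem_nhds (hκ1 z)
    have h2 : ∀ᶠ w in 𝓝 z, ∀ m ∈ Finset.range (κ z), w ∉ C (e m) := by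
      rw [Filter.eventually_all_finset]
      intro m hm
      exact (hC1 _).compl.isOpen.mem_nhds (hκ2 z m (Finset.mem_range.1 hm))
    filter_upwards [h1, h2] with w hw1 hw2
    apply (Nat.find_eq_iff (hex w)).2
    exact ⟨hw1, fun m hm => hw2 m (Finset.mem_range.2 hm)⟩
  exact ⟨fun z => n (e (κ z)), hκlc.comp (fun k => n (e k)), fun z => hC3 _ (hκ1 z)⟩

lemma lc_tau {Y : Type*} [NormedAddCommGroup Y] (𝕜 : Type*) [RCLike 𝕜] [NormedSpace 𝕜 Y]
    {ι : Type*} [Countable ι] (W : ι → Set Y) : @LC (SB 𝕜 Y) (tau 𝕜 W) := by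
  let _ : TopologicalSpace (SB 𝕜 Y) := tau 𝕜 W
  have hind : IsInducing (chi (𝕜 := 𝕜) W) := ⟨rfl⟩
  have : SecondCountableTopology (SB 𝕜 Y) := hind.secondCountableTopology
  apply lc_of_basis
  intro U z hU hz
  obtain ⟨U', hU', rfl⟩ := hind.isOpen_iff.1 hU
  have hb : IsTopologicalBasis {s : Set (ι → Bool) | IsClopen s} := isTopologicalBasis_isClopen
  obtain ⟨C, hC, hzC, hCU⟩ := hb.exists_subset_of_mem_open (show chi W z ∈ U' from hz) hU'
  exact ⟨chi W ⁻¹' C, IsClopen.preimage hC hind.continuous, hzC, preimage_mono hCU⟩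

lemma continuous_glue {Z Y : Type*} [TopologicalSpace Z] [TopologicalSpace Y] {f : Z → ℕ}
    (hf : IsLocallyConstant f) {G : ℕ → Z → Y} (hG : ∀ n, Continuous (G n)) :
    Continuous fun z => G (f z) z := by
  rw [continuous_iff_continuousAt]
  intro z
  have h1 : ∀ᶠ w in 𝓝 z, f w = f z := (IsLocallyConstant.iff_eventually_eq f).1 hf z
  have h2 : (fun w => G (f z) w) =ᶠ[𝓝 z] fun w => G (f w) w := by
    filter_upwards [h1] with w hw
    rw [hw]
  exact ((hG (f z)).continuousAt).congr h2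

/-- Continuous selections of lower semicontinuous closed-valued maps. -/
theorem exists_selection {Z Y : Type*} [TopologicalSpace Z] (hZ : LC Z) [MetricSpace Y]
    [CompleteSpace Y] [SeparableSpace Y] {Φ : Z → Set Y} (hcl : ∀ z, IsClosed (Φ z))
    (hlsc : ∀ U : Set Y, IsOpen U → IsOpen {z | (Φ z ∩ U).Nonempty}) {p₀ : Z → Y}
    (hp₀ : Continuous p₀) {r : ℝ} (hr : 0 < r) (h₀ : ∀ z, (Φ z ∩ ball (p₀ z) r).Nonempty) :
    ∃ p : Z → Y, Continuous p ∧ (∀ z, p z ∈ Φ z) ∧ ∀ z, dist (p z) (p₀ z) ≤ 3 * r := by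
  rcases isEmpty_or_nonempty Y with hY | hY
  · refine ⟨p₀, hp₀, fun z => (hY.false (p₀ z)).elim, fun z => (hY.false (p₀ z)).elim⟩
  let P : ℕ → (Z → Y) → Prop := fun k p =>
    Continuous p ∧ ∀ z, (Φ z ∩ ball (p z) (r / 2 ^ k)).Nonempty
  have hstep : ∀ (k : ℕ) (p : {p // P k p}), ∃ q : {p // P (k + 1) p},
      ∀ z, dist (p.1 z) (q.1 z) ≤ 3 * r / 2 / 2 ^ k := by
    rintro k ⟨p, hp, hpΦ⟩
    set ρ : ℝ := r / 2 ^ k with hρ
    have hρ0 : 0 < ρ := by positivity
    have hρ' : r / 2 ^ (k + 1) = ρ / 2 := by rw [hρ, pow_succ]; field_simp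
    let O : ℕ → Set Z := fun i =>
      {z | (Φ z ∩ (ball (denseSeq Y i) (ρ / 2) ∩ ball (p z) ρ)).Nonempty}
    have hO : ∀ i, IsOpen (O i) := by
      intro i
      rw [isOpen_iff_mem_nhds]
      rintro z ⟨y, hy, hy1, hy2⟩
      set η := (ρ - dist y (p z)) / 2 with hη
      have hη0 : 0 < η := by
        rw [mem_ball] at hy2
        rw [hη]; linarith
      have h1 : IsOpen {w | (Φ w ∩ (ball (denseSeq Y i) (ρ / 2) ∩ ball (p z) (ρ - η))).Nonempty} :=
        hlsc _ (isOpen_ball.inter isOpen_ball)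
      have h2 : z ∈ {w | (Φ w ∩ (ball (denseSeq Y i) (ρ / 2) ∩ ball (p z) (ρ - η))).Nonempty} :=
        ⟨y, hy, hy1, by rw [mem_ball, hη]; linarith⟩
      have h3 : ∀ᶠ w in 𝓝 z, dist (p w) (p z) < η := hp.continuousAt.eventually
        (ball_mem_nhds _ hη0)
      filter_upwards [h1.mem_nhds h2, h3] with w hw1 hw2
      obtain ⟨y', hy', hy'1, hy'2⟩ := hw1
      refine ⟨y', hy', hy'1, ?_⟩
      rw [mem_ball] at hy'2 ⊢
      have := dist_triangle y' (p z) (p w)
      rw [dist_comm (p z)] at this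
      linarith
    have hcov : ∀ z, ∃ i, z ∈ O i := by
      intro z
      obtain ⟨y, hy, hy2⟩ := hpΦ z
      obtain ⟨i, hi⟩ := (denseRange_denseSeq Y).exists_dist_lt y (show 0 < ρ / 2 by positivity)
      exact ⟨i, y, hy, mem_ball.2 hi, hy2⟩
    obtain ⟨f, hf, hfO⟩ := hZ O hO hcov
    refine ⟨⟨fun z => denseSeq Y (f z), ?_, ?_⟩, ?_⟩
    · exact (hf.comp (fun i => denseSeq Y i)).continuous
    · intro z
      obtain ⟨y, hy, hy1, -⟩ := hfO z
      rw [hρ']
      exact ⟨y, hy, hy1⟩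
    · intro z
      obtain ⟨y, hy, hy1, hy2⟩ := hfO z
      rw [mem_ball] at hy1 hy2
      have := dist_triangle_left (p z) (denseSeq Y (f z)) y
      have e : 3 * r / 2 / 2 ^ k = ρ + ρ / 2 := by rw [hρ]; ring
      rw [e]
      linarith
  choose nx hnx using hstep
  let s : ∀ k, {p // P k p} := fun k => Nat.rec
    ⟨p₀, hp₀, fun z => by simpa using h₀ z⟩ (fun k p => nx k p) k
  have hs0 : (s 0).1 = p₀ := rfl
  have hs : ∀ k z, dist ((s k).1 z) ((s (k + 1)).1 z) ≤ 3 * r / 2 / 2 ^ k := fun k z => hnx k (s k) z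
  have hlim : ∀ z, ∃ y, Tendsto (fun k => (s k).1 z) atTop (𝓝 y) := fun z =>
    cauchySeq_tendsto_of_complete (cauchySeq_of_le_geometric_two (fun k => hs k z))
  choose p hp using hlim
  have hdist : ∀ k z, dist ((s k).1 z) (p z) ≤ 3 * r / 2 ^ k := fun k z =>
    dist_le_of_le_geometric_two_of_tendsto (fun k => hs k z) (hp z) k
  refine ⟨p, ?_, ?_, ?_⟩
  · have hu : TendstoUniformly (fun k z => (s k).1 z) p atTop := by
      rw [Metric.tendstoUniformly_iff]
      intro ε hε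
      obtain ⟨k₀, hk₀⟩ := exists_pow_lt_of_lt_one (show 0 < ε / (3 * r) by positivity)
        (by norm_num : (1 / 2 : ℝ) < 1)
      filter_upwards [eventually_ge_atTop k₀] with k hk z
      rw [dist_comm]
      refine lt_of_le_of_lt (hdist k z) ?_
      have h1 : (1 / 2 : ℝ) ^ k ≤ (1 / 2) ^ k₀ :=
        pow_le_pow_of_le_one (by norm_num) (by norm_num) hk
      rw [lt_div_iff₀ (by positivity)] at hk₀
      calc 3 * r / 2 ^ k = (1 / 2) ^ k * (3 * r) := by rw [one_div_pow]; ring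
        _ ≤ (1 / 2) ^ k₀ * (3 * r) := mul_le_mul_of_nonneg_right h1 (by positivity)
        _ < ε := hk₀
    exact hu.continuous (Frequently.of_forall fun k => (s k).2.1)
  · intro z
    rw [← (hcl z).closure_eq, Metric.mem_closure_iff]
    intro ε hε
    obtain ⟨k, hk⟩ := exists_pow_lt_of_lt_one (show 0 < ε / (4 * r) by positivity)
      (by norm_num : (1 / 2 : ℝ) < 1)
    obtain ⟨y, hy, hyb⟩ := (s k).2.2 z
    refine ⟨y, hy, ?_⟩
    rw [mem_ball] at hyb
    have h1 := hdist k z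
    have h2 := dist_triangle_left (p z) y ((s k).1 z)
    rw [lt_div_iff₀ (by positivity)] at hk
    have h3 : r / 2 ^ k + 3 * r / 2 ^ k = (1 / 2) ^ k * (4 * r) := by rw [one_div_pow]; ring
    rw [dist_comm] at hyb
    linarith
  · intro z
    rw [dist_comm]
    have := hdist 0 z
    rw [hs0] at this
    simpa using this

end

end Pool.Agent.X207.SB
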