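import Mathlib

/-!
Polish topologies on the set of closed subspaces of a separable Banach space, generated by the
sets of subspaces meeting the members of a countable family of open sets, and their complements.
-/

open Set Filter Topology TopologicalSpace Metric

namespace Pool.Agent.X207.SB

noncomputable section

/-- `Gδ` subsets of Polish spaces are Polish (as in `Pool.Agent.H110K2`). -/
theorem polish_of_Gdelta {Y : Type*} [TopologicalSpace Y] [PolishSpace Y] {s : Set Y}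
    (hs : IsGδ s) : PolishSpace s := by
  obtain ⟨U, hU, rfl⟩ := hs.eq_iInter_nat
  have : ∀ n, PolishSpace (U n) := fun n => (hU n).polishSpace
  let f : (⋂ n, U n : Set Y) → ∀ n, U n := fun x n => ⟨x, Set.mem_iInter.1 x.2 n⟩
  have hfc : Continuous f := continuous_pi (fun n => Continuous.subtype_mk continuous_subtype_val _)
  have hg : Continuous (fun p : ∀ n, U n => (p 0 : Y)) :=
    continuous_subtype_val.comp (continuous_apply 0)
  have hind : Topology.IsInducing f := by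
    apply Topology.IsInducing.of_comp hfc hg
    exact Topology.IsInducing.subtypeVal
  have hinj : Function.Injective f := by
    intro x y hxy
    have h1 := congrFun hxy 0
    have h2 : ((f x 0 : U 0) : Y) = ((f y 0 : U 0) : Y) := congrArg (fun z : U 0 => (z : Y)) h1
    exact Subtype.ext h2
  have hrange : Set.range f = ⋂ n, {p : ∀ n, U n | (p n : Y) = (p 0 : Y)} := by
    ext p
    simp only [Set.mem_range, Set.mem_iInter]
    constructor
    · rintro ⟨x, rfl⟩ n
      rfl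
    · intro h
      refine ⟨⟨p 0, Set.mem_iInter.2 (fun n => ?_)⟩, ?_⟩
      · have h2 : (p n : Y) = (p 0 : Y) := h n
        rw [← h2]
        exact (p n).2
      · funext n
        have h2 : (p n : Y) = (p 0 : Y) := h n
        exact Subtype.ext h2.symm
  have hcl : IsClosed (Set.range f) := by
    rw [hrange]
    apply isClosed_iInter
    intro n
    exact isClosed_eq (continuous_subtype_val.comp (continuous_apply n)) hg
  exact Topology.IsClosedEmbedding.polishSpace (f := f) ⟨⟨hind, hinj⟩, hcl⟩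

variable (𝕜 Y : Type*) [RCLike 𝕜] [NormedAddCommGroup Y] [NormedSpace 𝕜 Y]

/-- The closed subspaces. -/
abbrev SB : Type _ := {X : Submodule 𝕜 Y // IsClosed (X : Set Y)}

variable {𝕜 Y}

/-- The closed subspaces meeting `U`. -/
def Ep (U : Set Y) : Set (SB 𝕜 Y) := {X | ((X.1 : Set Y) ∩ U).Nonempty}

variable [SeparableSpace Y]

variable (Y) in
/-- A dense sequence. -/
def dd (i : ℕ) : Y := denseSeq Y i

/-- The basic balls. -/
def bb (p : ℕ × ℕ) : Set Y := ball (dd Y p.1) ((1 / 2) ^ p.2)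

lemma isOpen_bb (p : ℕ × ℕ) : IsOpen (bb p : Set Y) := isOpen_ball

/-- Small basic balls around points of open sets. -/
lemma exists_bb {U : Set Y} (hU : IsOpen U) {y : Y} (hy : y ∈ U) (m : ℕ) :
    ∃ p : ℕ × ℕ, m ≤ p.2 ∧ y ∈ (bb p : Set Y) ∧
      closedBall (dd Y p.1) ((1 / 2) ^ p.2) ⊆ U := by
  obtain ⟨ε, hε, hεU⟩ := Metric.isOpen_iff.1 hU y hy
  obtain ⟨k, hk⟩ := exists_pow_lt_of_lt_one (show 0 < ε / 2 by positivity)
    (by norm_num : (1 / 2 : ℝ) < 1)
  set n := max m k with hn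
  have hn' : (1 / 2 : ℝ) ^ n < ε / 2 :=
    lt_of_le_of_lt (pow_le_pow_of_le_one (by norm_num) (by norm_num) (le_max_right _ _)) hk
  obtain ⟨i, hi⟩ := (denseRange_denseSeq Y).exists_dist_lt y
    (show (0 : ℝ) < (1 / 2) ^ n by positivity)
  refine ⟨(i, n), le_max_left _ _, ?_, ?_⟩
  · exact mem_ball.2 hi
  · intro z hz
    apply hεU
    rw [mem_closedBall] at hz
    rw [mem_ball]
    have h1 : dist z y ≤ dist z (dd Y i) + dist (dd Y i) y := dist_triangle _ _ _
    have h2 : dist (dd Y i) y < (1 / 2) ^ n := by rw [dist_comm]; exact hi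
    have h3 : dist z (dd Y i) ≤ (1 / 2) ^ n := hz
    linarith

variable {ι : Type*}

open scoped Classical in
/-- The characteristic map. -/
def chi (W : ι → Set Y) (X : SB 𝕜 Y) (j : ι) : Bool := decide (X ∈ Ep (𝕜 := 𝕜) (W j))

omit [SeparableSpace Y] in
lemma chi_iff (W : ι → Set Y) (X : SB 𝕜 Y) (j : ι) :
    chi W X j = true ↔ ((X.1 : Set Y) ∩ W j).Nonempty := by
  unfold chi
  simp only [decide_eq_true_eq]
  rfl

/-- The topology. -/
@[reducible] def tau (𝕜 : Type*) [RCLike 𝕜] [NormedSpace 𝕜 Y] (W : ι → Set Y) : TopologicalSpace (SB 𝕜 Y) :=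
  induced (chi W) inferInstance

/-- The characterisation of the range. -/
structure Good (𝕜 : Type*) [RCLike 𝕜] [NormedSpace 𝕜 Y] (W : ι → Set Y) (b : ℕ × ℕ → ι)
    (x : ι → Bool) : Prop where
  small : ∀ (j : ι) (m : ℕ), x j = true → ∃ p : ℕ × ℕ, m ≤ p.2 ∧
    closedBall (dd Y p.1) ((1 / 2) ^ p.2) ⊆ W j ∧ x (b p) = true
  mono : ∀ (j : ι) (p : ℕ × ℕ), (bb p : Set Y) ⊆ W j → x (b p) = true → x j = true
  lin : ∀ (p q : ℕ × ℕ) (j : ι) (r s : 𝕜), (∀ y ∈ (bb p : Set Y), ∀ z ∈ (bb q : Set Y),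
    r • y + s • z ∈ W j) → x (b p) = true → x (b q) = true → x j = true
  zero : ∀ j : ι, (0 : Y) ∈ W j → x j = true

lemma isGδ_good [Countable ι] (W : ι → Set Y) (b : ℕ × ℕ → ι) :
    IsGδ {x : ι → Bool | Good 𝕜 W b x} := by
  have hval : ∀ (j : ι) (v : Bool), IsClopen {x : ι → Bool | x j = v} := by
    intro j v
    have : {x : ι → Bool | x j = v} = (fun x : ι → Bool => x j) ⁻¹' {v} := rfl
    rw [this]
    exact (isClopen_discrete {v}).preimage (continuous_apply j)
  have e : {x : ι → Bool | Good 𝕜 W b x} =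
      (⋂ (q : ι × ℕ), {x : ι → Bool | x q.1 = true → ∃ p : ℕ × ℕ, q.2 ≤ p.2 ∧
        closedBall (dd Y p.1) ((1 / 2) ^ p.2) ⊆ W q.1 ∧ x (b p) = true}) ∩
      ((⋂ (j : ι) (p : ℕ × ℕ) (_ : (bb p : Set Y) ⊆ W j),
        {x : ι → Bool | x (b p) = true → x j = true}) ∩
      ((⋂ (p : ℕ × ℕ) (q : ℕ × ℕ) (j : ι) (r : 𝕜) (s : 𝕜) (_ : ∀ y ∈ (bb p : Set Y),
          ∀ z ∈ (bb q : Set Y), r • y + s • z ∈ W j),
        {x : ι → Bool | x (b p) = true → x (b q) = true → x j = true}) ∩
      (⋂ (j : ι) (_ : (0 : Y) ∈ W j), {x : ι → Bool | x j = true}))) := by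
    ext x
    simp only [mem_inter_iff, mem_iInter, mem_ofPred_eq]
    constructor
    · intro h
      exact ⟨fun q => h.small q.1 q.2, h.mono, h.lin, h.zero⟩
    · rintro ⟨h1, h2, h3, h4⟩
      exact ⟨fun j m => h1 (j, m), h2, h3, h4⟩
  rw [e]
  refine IsGδ.inter ?_ (IsClosed.isGδ ?_)
  · refine IsGδ.iInter fun q => IsOpen.isGδ ?_
    have : {x : ι → Bool | x q.1 = true → ∃ p : ℕ × ℕ, q.2 ≤ p.2 ∧
        closedBall (dd Y p.1) ((1 / 2) ^ p.2) ⊆ W q.1 ∧ x (b p) = true} =
        {x | x q.1 = true}ᶜ ∪ ⋃ (p : ℕ × ℕ) (_ : q.2 ≤ p.2 ∧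
          closedBall (dd Y p.1) ((1 / 2) ^ p.2) ⊆ W q.1), {x | x (b p) = true} := by
      ext x
      simp only [mem_ofPred_eq, mem_union, mem_compl_iff, mem_iUnion, exists_prop]
      tauto
    rw [this]
    exact (hval _ _).compl.isOpen.union
      (isOpen_iUnion fun p => isOpen_iUnion fun _ => (hval _ _).isOpen)
  · refine IsClosed.inter ?_ (IsClosed.inter ?_ ?_)
    · refine isClosed_iInter fun j => isClosed_iInter fun p => isClosed_iInter fun _ => ?_
      have : {x : ι → Bool | x (b p) = true → x j = true} =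
          {x | x (b p) = true}ᶜ ∪ {x | x j = true} := by
        ext x; simp only [mem_ofPred_eq, mem_union, mem_compl_iff]; tauto
      rw [this]
      exact (hval _ _).compl.isClosed.union (hval _ _).isClosed
    · refine isClosed_iInter fun p => isClosed_iInter fun q => isClosed_iInter fun j =>
        isClosed_iInter fun r => isClosed_iInter fun s => isClosed_iInter fun _ => ?_
      have : {x : ι → Bool | x (b p) = true → x (b q) = true → x j = true} =
          {x | x (b p) = true}ᶜ ∪ ({x | x (b q) = true}ᶜ ∪ {x | x j = true}) := by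
        ext x; simp only [mem_ofPred_eq, mem_union, mem_compl_iff]; tauto
      rw [this]
      exact (hval _ _).compl.isClosed.union ((hval _ _).compl.isClosed.union (hval _ _).isClosed)
    · exact isClosed_iInter fun j => isClosed_iInter fun _ => (hval _ _).isClosed

lemma good_chi {W : ι → Set Y} (hW : ∀ j, IsOpen (W j)) {b : ℕ × ℕ → ι}
    (hb : ∀ p, W (b p) = bb p) (X : SB 𝕜 Y) : Good 𝕜 W b (chi W X) := by
  refine ⟨?_, ?_, ?_, ?_⟩
  · intro j m hj
    rw [chi_iff] at hj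
    obtain ⟨y, hyX, hyW⟩ := hj
    obtain ⟨p, hp1, hp2, hp3⟩ := exists_bb (hW j) hyW m
    refine ⟨p, hp1, hp3, ?_⟩
    rw [chi_iff, hb]
    exact ⟨y, hyX, hp2⟩
  · intro j p hsub hp
    rw [chi_iff, hb] at hp
    rw [chi_iff]
    exact hp.mono (inter_subset_inter_right _ hsub)
  · intro p q j r s hlin hp hq
    rw [chi_iff, hb] at hp hq
    rw [chi_iff]
    obtain ⟨y, hy, hy'⟩ := hp
    obtain ⟨z, hz, hz'⟩ := hq
    exact ⟨r • y + s • z, X.1.add_mem (X.1.smul_mem r hy) (X.1.smul_mem s hz), hlin y hy' z hz'⟩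
  · intro j hj
    rw [chi_iff]
    exact ⟨0, X.1.zero_mem, hj⟩

/-- The subspace of a good code. -/
lemma exists_of_good [CompleteSpace Y] {W : ι → Set Y} (hW : ∀ j, IsOpen (W j))
    {b : ℕ × ℕ → ι} (hb : ∀ p, W (b p) = bb p) {x : ι → Bool} (hx : Good 𝕜 W b x) :
    ∃ X : SB 𝕜 Y, chi W X = x := by
  have hcomb : ∀ (y z : Y), (∀ p, y ∈ (bb p : Set Y) → x (b p) = true) →
      (∀ p, z ∈ (bb p : Set Y) → x (b p) = true) → ∀ (r s : 𝕜) (p : ℕ × ℕ),
      r • y + s • z ∈ (bb p : Set Y) → x (b p) = true := by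
    intro y z hy hz r s p hp
    have hc : Continuous fun q : Y × Y => r • q.1 + s • q.2 := by fun_prop
    have hopen : IsOpen ((fun q : Y × Y => r • q.1 + s • q.2) ⁻¹' (bb p : Set Y)) :=
      (isOpen_bb p).preimage hc
    obtain ⟨U, V, hU, hV, hyU, hzV, hUV⟩ := isOpen_prod_iff.1 hopen y z hp
    obtain ⟨q₁, -, hq₁, hq₁'⟩ := exists_bb hU hyU 0
    obtain ⟨q₂, -, hq₂, hq₂'⟩ := exists_bb hV hzV 0
    refine hx.lin q₁ q₂ (b p) r s ?_ (hy q₁ hq₁) (hz q₂ hq₂)
    intro y' hy' z' hz'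
    rw [hb]
    exact hUV (mk_mem_prod (hq₁' (ball_subset_closedBall hy')) (hq₂' (ball_subset_closedBall hz')))
  let X : Submodule 𝕜 Y :=
    { carrier := {y | ∀ p, y ∈ (bb p : Set Y) → x (b p) = true}
      add_mem' := by
        intro y z hy hz p hp
        exact hcomb y z hy hz 1 1 p (by simpa using hp)
      zero_mem' := by
        intro p hp
        exact hx.zero (b p) (by rw [hb]; exact hp)
      smul_mem' := by
        intro r y hy p hp
        exact hcomb y y hy hy r 0 p (by simpa using hp) }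
  have hXmem : ∀ y, y ∈ X ↔ ∀ p, y ∈ (bb p : Set Y) → x (b p) = true := fun y => Iff.rfl
  have hXc : IsClosed (X : Set Y) := by
    rw [← isOpen_compl_iff, isOpen_iff_mem_nhds]
    intro y hy
    rw [mem_compl_iff, SetLike.mem_coe, hXmem] at hy
    push Not at hy
    obtain ⟨p, hp, hpx⟩ := hy
    filter_upwards [(isOpen_bb p).mem_nhds hp] with z hz
    rw [mem_compl_iff, SetLike.mem_coe, hXmem]
    intro h
    exact hpx (h p hz)
  refine ⟨⟨X, hXc⟩, ?_⟩
  funext j
  have key : chi W (⟨X, hXc⟩ : SB 𝕜 Y) j = true ↔ x j = true := by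
    rw [chi_iff]
    constructor
    · rintro ⟨y, hyX, hyW⟩
      obtain ⟨p, -, hp2, hp3⟩ := exists_bb (hW j) hyW 0
      exact hx.mono j p (ball_subset_closedBall.trans hp3) ((hXmem y).1 hyX p hp2)
    · intro hj
      -- nested balls
      have hstep : ∀ (n : ℕ) (p : {p : ℕ × ℕ // x (b p) = true}),
          ∃ q : {q : ℕ × ℕ // x (b q) = true}, n ≤ q.1.2 ∧
            closedBall (dd Y q.1.1) ((1 / 2) ^ q.1.2) ⊆ (bb p.1 : Set Y) := by
        intro n p
        obtain ⟨q, hq1, hq2, hq3⟩ := hx.small (b p.1) n p.2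
        rw [hb] at hq2
        exact ⟨⟨q, hq3⟩, hq1, hq2⟩
      choose nx hnx1 hnx2 using hstep
      obtain ⟨p₀, -, hp₀W, hp₀⟩ := hx.small j 0 hj
      let s : ℕ → {p : ℕ × ℕ // x (b p) = true} := fun n => Nat.rec ⟨p₀, hp₀⟩ (fun n p => nx n p) n
      have hs0 : s 0 = ⟨p₀, hp₀⟩ := rfl
      have hs : ∀ n, s (n + 1) = nx n (s n) := fun n => rfl
      have hsub : ∀ n, closedBall (dd Y (s (n + 1)).1.1) ((1 / 2) ^ (s (n + 1)).1.2) ⊆
          (bb (s n).1 : Set Y) := fun n => by rw [hs]; exact hnx2 n (s n)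
      have hrad : ∀ n, n ≤ (s (n + 1)).1.2 := fun n => by rw [hs]; exact hnx1 n (s n)
      let K : ℕ → Set Y := fun n => closedBall (dd Y (s n).1.1) ((1 / 2) ^ (s n).1.2)
      have hKanti : ∀ n, K (n + 1) ⊆ K n := fun n =>
        (hsub n).trans ball_subset_closedBall
      have hKanti' : Antitone K := antitone_nat_of_succ_le hKanti
      have hcau : CauchySeq fun n => dd Y (s n).1.1 := by
        rw [Metric.cauchySeq_iff']
        intro ε hε
        obtain ⟨k, hk⟩ := exists_pow_lt_of_lt_one hε (by norm_num : (1 / 2 : ℝ) < 1)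
        refine ⟨k + 1, fun n hn => ?_⟩
        have h1 : dd Y (s n).1.1 ∈ K (k + 1) := hKanti' hn (mem_closedBall_self (by positivity))
        have h2 : (1 / 2 : ℝ) ^ (s (k + 1)).1.2 ≤ (1 / 2) ^ k :=
          pow_le_pow_of_le_one (by norm_num) (by norm_num) (hrad k)
        exact lt_of_le_of_lt ((mem_closedBall.1 h1).trans h2) hk
      obtain ⟨y, hy⟩ := cauchySeq_tendsto_of_complete hcau
      have hyK : ∀ n, y ∈ K n := by
        intro n
        refine isClosed_closedBall.mem_of_tendsto hy ?_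
        filter_upwards [eventually_ge_atTop n] with m hm
        exact hKanti' hm (mem_closedBall_self (by positivity))
      refine ⟨y, ?_, hp₀W (hyK 0)⟩
      rw [SetLike.mem_coe, hXmem]
      intro p hp
      obtain ⟨ε, hε, hεp⟩ := Metric.isOpen_iff.1 (isOpen_bb p) y hp
      obtain ⟨k, hk⟩ := exists_pow_lt_of_lt_one (show 0 < ε / 2 by positivity)
        (by norm_num : (1 / 2 : ℝ) < 1)
      refine hx.mono (b p) (s (k + 1)).1 ?_ (s (k + 1)).2
      rw [hb]
      intro z hz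
      apply hεp
      have h1 : dist z (dd Y (s (k + 1)).1.1) < (1 / 2) ^ (s (k + 1)).1.2 := mem_ball.1 hz
      have h2 : dist y (dd Y (s (k + 1)).1.1) ≤ (1 / 2) ^ (s (k + 1)).1.2 :=
        mem_closedBall.1 (hyK (k + 1))
      have h3 : (1 / 2 : ℝ) ^ (s (k + 1)).1.2 ≤ (1 / 2) ^ k :=
        pow_le_pow_of_le_one (by norm_num) (by norm_num) (hrad k)
      have h4 := dist_triangle_right z y (dd Y (s (k + 1)).1.1)
      rw [mem_ball]
      linarith
  cases h1 : chi W (⟨X, hXc⟩ : SB 𝕜 Y) j <;> cases h2 : x j <;> simp_all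

lemma chi_injective {W : ι → Set Y} {b : ℕ × ℕ → ι} (hb : ∀ p, W (b p) = bb p) :
    Function.Injective (chi (𝕜 := 𝕜) W) := by
  intro X X' h
  apply Subtype.ext
  have key : ∀ X X' : SB 𝕜 Y, chi W X = chi W X' → X.1 ≤ X'.1 := by
    intro X X' h y hy
    by_contra hy'
    have hopen : IsOpen ((X'.1 : Set Y)ᶜ) := X'.2.isOpen_compl
    obtain ⟨p, -, hp1, hp2⟩ := exists_bb hopen hy' 0
    have h1 : chi W X (b p) = true := by
      rw [chi_iff, hb]; exact ⟨y, hy, hp1⟩
    rw [h, chi_iff, hb] at h1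
    obtain ⟨z, hz, hz'⟩ := h1
    exact hp2 (ball_subset_closedBall hz') hz
  exact le_antisymm (key X X' h) (key X' X h.symm)

/-- The topology is Polish. -/
theorem polish_tau [CompleteSpace Y] [Countable ι] {W : ι → Set Y} (hW : ∀ j, IsOpen (W j))
    {b : ℕ × ℕ → ι} (hb : ∀ p, W (b p) = bb p) : @PolishSpace (SB 𝕜 Y) (tau 𝕜 W) := by
  let _ : TopologicalSpace (SB 𝕜 Y) := tau 𝕜 W
  have hrange : range (chi (𝕜 := 𝕜) W) = {x : ι → Bool | Good 𝕜 W b x} := by
    ext x
    constructor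
    · rintro ⟨X, rfl⟩
      exact good_chi hW hb X
    · intro hx
      exact exists_of_good hW hb hx
  have hemb : IsEmbedding (chi (𝕜 := 𝕜) W) := ⟨⟨rfl⟩, chi_injective hb⟩
  have hG : IsGδ (range (chi (𝕜 := 𝕜) W)) := by
    rw [hrange]; exact isGδ_good W b
  have hp : PolishSpace (ι → Bool) :=
    { toSecondCountableTopology := inferInstance
      toIsCompletelyMetrizableSpace := inferInstance }
  have := polish_of_Gdelta hG
  exact hemb.toHomeomorph.isClosedEmbedding.polishSpace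

/-- Open sets and complements. -/
lemma isClopen_tau (W : ι → Set Y) (j : ι) : @IsClopen (SB 𝕜 Y) (tau 𝕜 W) (Ep (W j)) := by
  let _ : TopologicalSpace (SB 𝕜 Y) := tau 𝕜 W
  have hc : Continuous (chi (𝕜 := 𝕜) W) := continuous_induced_dom
  have e : Ep (𝕜 := 𝕜) (W j) = (fun X => chi (𝕜 := 𝕜) W X j) ⁻¹' {true} := by
    ext X
    simp only [mem_preimage, mem_singleton_iff]
    rw [chi_iff]; rfl
  rw [e]
  exact (isClopen_discrete _).preimage ((continuous_apply j).comp hc)

lemma isOpen_Ep {W : ι → Set Y} {b : ℕ × ℕ → ι} (hb : ∀ p, W (b p) = bb p) {U : Set Y}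
    (hU : IsOpen U) : @IsOpen (SB 𝕜 Y) (tau 𝕜 W) (Ep U) := by
  let _ : TopologicalSpace (SB 𝕜 Y) := tau 𝕜 W
  have e : Ep (𝕜 := 𝕜) U = ⋃ (p : ℕ × ℕ) (_ : (bb p : Set Y) ⊆ U), Ep (𝕜 := 𝕜) (W (b p)) := by
    ext X
    simp only [mem_iUnion, exists_prop]
    constructor
    · rintro ⟨y, hy, hyU⟩
      obtain ⟨p, -, hp1, hp2⟩ := exists_bb hU hyU 0
      exact ⟨p, ball_subset_closedBall.trans hp2, y, hy, by rw [hb]; exact hp1⟩
    · rintro ⟨p, hp, y, hy, hy'⟩
      rw [hb] at hy'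
      exact ⟨y, hy, hp hy'⟩
  rw [e]
  exact isOpen_iUnion fun p => isOpen_iUnion fun _ => (isClopen_tau W (b p)).isOpen

end

end Pool.Agent.X207.SB
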