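import Pool.Agent.X207.StepExt

/-!
Step-isometries on dense subsets: companion functionals.
-/

open Set Metric Filter Topology

namespace Pool.Agent.X207.Step

variable {X : Type*} [NormedAddCommGroup X] [NormedSpace ℝ X]

/-- Step relation on a dense set. -/
def IsStepOn {S : Set X} (T : S ≃ S) : Prop :=
  ∀ (k : ℕ) (x y : S), ‖(x : X) - y‖ < k ↔ ‖(T x : X) - T y‖ < k

omit [NormedSpace ℝ X] in
lemma IsStepOn.symm {S : Set X} {T : S ≃ S} (h : IsStepOn T) : IsStepOn T.symm := by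
  intro k x y
  have := h k (T.symm x) (T.symm y)
  simp only [Equiv.apply_symm_apply] at this
  exact this.symm

variable {S : Set X} {T : S ≃ S}

omit [NormedSpace ℝ X] in
lemma exists_two_lt (hS : Dense S) (p q p' q' : X → ℝ) (hp : Continuous p) (hq : Continuous q)
    (hp' : Continuous p') (hq' : Continuous q') {x₀ : X} (h : p x₀ < q x₀) (h' : p' x₀ < q' x₀) :
    ∃ z : S, p z < q z ∧ p' z < q' z := by
  obtain ⟨z, hz, hzS⟩ := hS.inter_open_nonempty ({z : X | p z < q z} ∩ {z : X | p' z < q' z})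
    ((isOpen_lt hp hq).inter (isOpen_lt hp' hq')) ⟨x₀, h, h'⟩
  exact ⟨⟨z, hzS⟩, hz.1, hz.2⟩

/-- `Dir` with centres in a dense set. -/
lemma dir_dense (hS : Dense S) {f : StrongDual ℝ X} (hn : ‖f‖ = 1) (hf : Dir f) {t : ℝ}
    {x₁ x₂ : X} (h₁ : f x₁ < t) (h₂ : f x₂ < t) :
    ∃ (y : S) (k : ℕ), ‖x₁ - y‖ < k ∧ ‖x₂ - y‖ < k ∧ f y + k ≤ t := by
  obtain ⟨t', ht1, ht2⟩ := exists_between (max_lt h₁ h₂)
  obtain ⟨y₀, k, hy1, hy2, hy3⟩ := hf t' x₁ x₂ (lt_of_le_of_lt (le_max_left _ _) ht1)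
    (lt_of_le_of_lt (le_max_right _ _) ht1)
  obtain ⟨y, h1, h2⟩ := exists_two_lt hS (fun y => max ‖x₁ - y‖ ‖x₂ - y‖) (fun _ => (k : ℝ))
    (fun y => f y + k) (fun _ => t) (by fun_prop) (by fun_prop) (by fun_prop) (by fun_prop)
    (x₀ := y₀) (max_lt hy1 hy2) (by linarith)
  exact ⟨y, k, lt_of_le_of_lt (le_max_left _ _) h1, lt_of_le_of_lt (le_max_right _ _) h1, h2.le⟩

/-- The open set filled by images of balls inside `{f < t}`. -/
def UU (T : S ≃ S) (f : StrongDual ℝ X) (t : ℝ) : Set X :=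
  {w | ∃ (y : S) (k : ℕ), ‖w - T y‖ < k ∧ f y + k ≤ t}

lemma isOpen_UU (f : StrongDual ℝ X) (t : ℝ) : IsOpen (UU T f t) := by
  have : UU T f t = ⋃ (y : S) (k : ℕ) (_ : f y + k ≤ t), ball (T y : X) k := by
    ext w
    simp only [UU, mem_ofPred_eq, mem_iUnion, mem_ball_iff_norm, exists_prop]
    constructor
    · rintro ⟨y, k, h1, h2⟩; exact ⟨y, k, h2, h1⟩
    · rintro ⟨y, k, h1, h2⟩; exact ⟨y, k, h2, h1⟩
  rw [this]
  exact isOpen_iUnion fun y => isOpen_iUnion fun k => isOpen_iUnion fun _ => isOpen_ball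

lemma mem_UU (hS : Dense S) (hT : IsStepOn T) {f : StrongDual ℝ X} (hn : ‖f‖ = 1) (hf : Dir f)
    (t : ℝ) (x : S) : (T x : X) ∈ UU T f t ↔ f x < t := by
  constructor
  · rintro ⟨y, k, h1, h2⟩
    rw [← hT] at h1
    have := apply_le hn ((x : X) - y)
    rw [map_sub] at this
    linarith
  · intro h
    obtain ⟨y, k, h1, -, h2⟩ := dir_dense hS hn hf h h
    exact ⟨y, k, (hT k x y).1 h1, h2⟩

lemma convex_closure_UU (hS : Dense S) (hT : IsStepOn T) {f : StrongDual ℝ X} (hn : ‖f‖ = 1)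
    (hf : Dir f) (t : ℝ) : Convex ℝ (closure (UU T f t)) := by
  have hcl : closure (UU T f t) ⊆ closure (UU T f t ∩ S) :=
    closure_minimal (hS.open_subset_closure_inter (isOpen_UU f t)) isClosed_closure
  intro w₁ h₁ w₂ h₂ a b ha hb hab
  refine map_mem_closure₂ (f := fun u v : X => a • u + b • v) (by fun_prop) (hcl h₁) (hcl h₂) ?_
  rintro s₁ ⟨hs₁, hs₁'⟩ s₂ ⟨hs₂, hs₂'⟩
  obtain ⟨x₁, hx₁⟩ := T.surjective ⟨s₁, hs₁'⟩
  obtain ⟨x₂, hx₂⟩ := T.surjective ⟨s₂, hs₂'⟩
  have e₁ : s₁ = T x₁ := by rw [hx₁]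
  have e₂ : s₂ = T x₂ := by rw [hx₂]
  rw [e₁, mem_UU hS hT hn hf] at hs₁
  rw [e₂, mem_UU hS hT hn hf] at hs₂
  obtain ⟨y, k, h1, h2, h3⟩ := dir_dense hS hn hf hs₁ hs₂
  rw [hT] at h1 h2
  refine ⟨y, k, ?_, h3⟩
  rw [e₁, e₂]
  have hc : a • (T x₁ : X) + b • (T x₂ : X) ∈ ball (T y : X) k := by
    apply convex_ball (T y : X) k _ _ ha hb hab
    · rw [mem_ball_iff_norm]; exact h1
    · rw [mem_ball_iff_norm]; exact h2
  rwa [mem_ball_iff_norm] at hc

lemma disjoint_UU (hS : Dense S) (hT : IsStepOn T) {f : StrongDual ℝ X} (hn : ‖f‖ = 1)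
    (hf : Dir f) (t : ℝ) : Disjoint (UU T f t) (UU T (-f) (-t)) := by
  rw [Set.disjoint_iff_inter_eq_empty]
  by_contra hne
  rw [← Ne, ← nonempty_iff_ne_empty] at hne
  obtain ⟨w, ⟨h1, h2⟩, hw⟩ := hS.inter_open_nonempty _
    ((isOpen_UU (T := T) f t).inter (isOpen_UU (T := T) (-f) (-t))) hne
  obtain ⟨x, hx⟩ := T.surjective ⟨w, hw⟩
  have e : w = T x := by rw [hx]
  rw [e] at h1 h2
  rw [mem_UU hS hT hn hf] at h1
  rw [mem_UU hS hT (by rw [norm_neg, hn]) hf.neg, neg_apply] at h2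
  linarith

lemma exists_lt_dense (hS : Dense S) {f : StrongDual ℝ X} (hn : ‖f‖ = 1) (t : ℝ) :
    ∃ x : S, f x < t := by
  obtain ⟨e, he, -⟩ := exists_unit hn (r := 2) (by norm_num)
  obtain ⟨x, h1, h2⟩ := hS.inter_open_nonempty {x : X | f x < t}
    (isOpen_lt (by fun_prop) continuous_const) ⟨(t - 1) • e, by simp [he]⟩
  exact ⟨⟨x, h2⟩, h1⟩

lemma exists_gt_dense (hS : Dense S) {f : StrongDual ℝ X} (hn : ‖f‖ = 1) (t : ℝ) :
    ∃ x : S, t < f x := by
  obtain ⟨x, hx⟩ := exists_lt_dense hS (f := -f) (by rw [norm_neg, hn]) (-t)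
  exact ⟨x, by rw [neg_apply] at hx; linarith⟩

lemma exists_half_dense (hS : Dense S) (hT : IsStepOn T) {f : StrongDual ℝ X} (hn : ‖f‖ = 1)
    (hf : Dir f) (t : ℝ) : ∃ (g : StrongDual ℝ X) (u : ℝ), ‖g‖ = 1 ∧
      (∀ x : S, f x < t → g (T x) < u) ∧ ∀ x : S, t < f x → u < g (T x) := by
  have hn' : ‖-f‖ = 1 := by rw [norm_neg, hn]
  have hd := disjoint_UU hS hT hn hf t
  have hd1 : Disjoint (closure (UU T f t)) (UU T (-f) (-t)) := hd.closure_left (isOpen_UU _ _)
  have hd2 : Disjoint (interior (closure (UU T f t))) (closure (UU T (-f) (-t))) :=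
    (hd1.mono_left interior_subset).closure_right isOpen_interior
  have hd3 : Disjoint (interior (closure (UU T f t))) (interior (closure (UU T (-f) (-t)))) :=
    hd2.mono_right interior_subset
  obtain ⟨g, u, h1, h2⟩ := geometric_hahn_banach_open_open
    (convex_closure_UU hS hT hn hf t).interior isOpen_interior
    (convex_closure_UU hS hT hn' hf.neg (-t)).interior isOpen_interior hd3
  have k1 : ∀ x : S, f x < t → g (T x) < u := fun x hx =>
    h1 _ (interior_maximal subset_closure (isOpen_UU _ _) ((mem_UU hS hT hn hf t x).2 hx))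
  have k2 : ∀ x : S, t < f x → u < g (T x) := fun x hx =>
    h2 _ (interior_maximal subset_closure (isOpen_UU _ _)
      ((mem_UU hS hT hn' hf.neg (-t) x).2 (by rw [neg_apply]; linarith)))
  have hg0 : g ≠ 0 := by
    rintro rfl
    obtain ⟨x, hx⟩ := exists_lt_dense hS hn t
    obtain ⟨x', hx'⟩ := exists_gt_dense hS hn t
    have h3 := k1 x hx
    have h4 := k2 x' hx'
    simp at h3 h4
    linarith
  have hgn : 0 < ‖g‖ := norm_pos_iff.2 hg0
  refine ⟨‖g‖⁻¹ • g, ‖g‖⁻¹ * u, by rw [norm_smul, norm_inv, norm_norm, inv_mul_cancel₀ hgn.ne'],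
    fun x hx => ?_, fun x hx => ?_⟩
  · rw [smul_apply, smul_eq_mul, mul_lt_mul_iff_right₀ (inv_pos.2 hgn)]
    exact k1 x hx
  · rw [smul_apply, smul_eq_mul, mul_lt_mul_iff_right₀ (inv_pos.2 hgn)]
    exact k2 x hx

/-- The companion functional of a functional with `Dir`. -/
theorem exists_companion_dense (hS : Dense S) (hT : IsStepOn T) {f : StrongDual ℝ X}
    (hn : ‖f‖ = 1) (hf : Dir f) : ∃ g : StrongDual ℝ X, ‖g‖ = 1 ∧
      ∀ x x' : S, f x < f x' → g (T x) < g (T x') := by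
  choose g u hg h1 h2 using exists_half_dense hS hT hn hf
  have hmono : ∀ s t, s < t → g t = g s := by
    intro s t hst
    have key : ∀ w : X, u t < g t w → u s ≤ g s w := by
      intro w hw
      by_contra hlt
      push Not at hlt
      obtain ⟨z, hz1, hz2⟩ := exists_two_lt hS (fun _ => u t) (fun w => g t w)
        (fun w => g s w) (fun _ => u s) (by fun_prop) (by fun_prop) (by fun_prop) (by fun_prop)
        (x₀ := w) hw hlt
      obtain ⟨x, rfl⟩ := T.surjective z
      rcases lt_or_ge (f x) t with h | h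
      · exact lt_asymm hz1 (h1 t x h)
      · exact lt_asymm hz2 (h2 s x (lt_of_lt_of_le hst h))
    have := nested (g := -g t) (g' := -g s) (by rw [norm_neg, hg]) (by rw [norm_neg, hg])
      (c := -u t) (c' := -u s + 1) (by
        intro w hw
        rw [neg_apply] at hw ⊢
        have := key w (by linarith)
        linarith)
    exact neg_inj.1 this
  have hall : ∀ t, g t = g 0 := by
    intro t
    rcases lt_trichotomy t 0 with h | h | h
    · exact (hmono t 0 h).symm
    · rw [h]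
    · exact hmono 0 t h
  refine ⟨g 0, hg 0, fun x x' hxx => ?_⟩
  obtain ⟨t, ht1, ht2⟩ := exists_between hxx
  have k1 := h1 t x ht1
  have k2 := h2 t x' ht2
  rw [hall] at k1 k2
  exact k1.trans k2

lemma step_up (hS : Dense S) (hT : IsStepOn T) {f g : StrongDual ℝ X} (hn : ‖f‖ = 1)
    (hgn : ‖g‖ = 1) (h : ∀ x x' : S, f x < f x' → g (T x) < g (T x')) {k : ℕ} (hk : 1 ≤ k)
    {x x' : S} (hx : f x - f x' < k) : g (T x) - g (T x') < k := by
  have hk' : (1 : ℝ) ≤ k := by exact_mod_cast hk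
  set a := max (f x - f x') 0 with ha
  have hak : a < k := max_lt hx (by linarith)
  obtain ⟨b, hab, hbk⟩ := exists_between hak
  have hb0 : 0 < b := lt_of_le_of_lt (le_max_right _ _) hab
  have hb1 : f x - f x' < b := lt_of_le_of_lt (le_max_left _ _) hab
  obtain ⟨v, hv1, hv2⟩ := exists_unit hn (r := k / b) (by rw [lt_div_iff₀ hb0]; linarith)
  rw [lt_div_iff₀ hb0] at hv2
  obtain ⟨z, hz1, hz2⟩ := exists_two_lt hS (fun z => ‖z - x‖) (fun _ => (k : ℝ))
    (fun z => f z) (fun _ => f x') (by fun_prop) (by fun_prop) (by fun_prop) (by fun_prop)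
    (x₀ := (x : X) - b • v)
    (by rw [sub_sub_cancel_left, norm_neg, norm_smul, Real.norm_of_nonneg hb0.le]; linarith)
    (by rw [map_sub, map_smul, hv1, smul_eq_mul]; linarith)
  have h1 := h z x' hz2
  have h2 := (hT k z x).1 hz1
  have h3 := apply_le hgn ((T x : X) - T z)
  rw [norm_sub_rev, map_sub] at h3
  linarith

lemma step_down (hS : Dense S) (hT : IsStepOn T) {f g : StrongDual ℝ X} (hn : ‖f‖ = 1)
    (hgn : ‖g‖ = 1) (h : ∀ x x' : S, f x < f x' → g (T x) < g (T x')) {k : ℕ} (hk : 1 ≤ k)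
    {x x' : S} (hx : g (T x) - g (T x') < k) : f x - f x' < k := by
  have hk' : (1 : ℝ) ≤ k := by exact_mod_cast hk
  set a := max (g (T x) - g (T x')) 0 with ha
  have hak : a < k := max_lt hx (by linarith)
  obtain ⟨b, hab, hbk⟩ := exists_between hak
  have hb0 : 0 < b := lt_of_le_of_lt (le_max_right _ _) hab
  have hb1 : g (T x) - g (T x') < b := lt_of_le_of_lt (le_max_left _ _) hab
  obtain ⟨v, hv1, hv2⟩ := exists_unit hgn (r := k / b) (by rw [lt_div_iff₀ hb0]; linarith)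
  rw [lt_div_iff₀ hb0] at hv2
  obtain ⟨z, hz1, hz2⟩ := exists_two_lt hS (fun z => ‖z - T x‖) (fun _ => (k : ℝ))
    (fun z => g z) (fun _ => g (T x')) (by fun_prop) (by fun_prop) (by fun_prop) (by fun_prop)
    (x₀ := (T x : X) - b • v)
    (by rw [sub_sub_cancel_left, norm_neg, norm_smul, Real.norm_of_nonneg hb0.le]; linarith)
    (by rw [map_sub, map_smul, hv1, smul_eq_mul]; linarith)
  obtain ⟨y, rfl⟩ := T.surjective z
  rw [← hT] at hz1
  have h1 : f y ≤ f x' := by
    by_contra hlt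
    push Not at hlt
    exact lt_asymm (h x' y hlt) hz2
  have h3 := apply_le hn ((x : X) - y)
  rw [norm_sub_rev, map_sub] at h3
  linarith

/-- Companion functionals change increments by at most `2`. -/
theorem companion_bound (hS : Dense S) (hT : IsStepOn T) {f g : StrongDual ℝ X} (hn : ‖f‖ = 1)
    (hgn : ‖g‖ = 1) (h : ∀ x x' : S, f x < f x' → g (T x) < g (T x')) (x x' : S) :
    |(g (T x) - g (T x')) - (f x - f x')| ≤ 2 := by
  have key : ∀ x x' : S, 0 ≤ f x - f x' →
      |(g (T x) - g (T x')) - (f x - f x')| ≤ 2 := by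
    intro x x' h0
    rw [abs_le]
    constructor
    · -- lower bound
      set k := ⌊f x - f x'⌋₊ with hk
      have hk1 : (k : ℝ) ≤ f x - f x' := Nat.floor_le h0
      have hk2 : f x - f x' < k + 1 := Nat.lt_floor_add_one _
      rcases Nat.eq_zero_or_pos k with h1 | h1
      · rw [h1] at hk2
        have h2 := step_up hS hT hn hgn h (k := 1) le_rfl (x := x') (x' := x) (by
          push_cast; linarith)
        push_cast at h2 hk2
        linarith
      · by_contra hlt
        push Not at hlt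
        have h2 := step_down hS hT hn hgn h (k := k) h1 (x := x) (x' := x') (by linarith)
        linarith
    · have h1 : f x - f x' < ((⌊f x - f x'⌋₊ + 1 : ℕ) : ℝ) := by
        push_cast; exact Nat.lt_floor_add_one _
      have h2 := step_up hS hT hn hgn h (by omega) h1
      have h3 : ((⌊f x - f x'⌋₊ : ℕ) : ℝ) ≤ f x - f x' := Nat.floor_le h0
      push_cast at h2
      linarith
  rcases le_total 0 (f x - f x') with h0 | h0
  · exact key x x' h0
  · have := key x' x (by linarith)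
    rw [abs_sub_comm] at this
    have e : (f x' - f x) - (g (T x') - g (T x)) = (g (T x) - g (T x')) - (f x - f x') := by ring
    rwa [e] at this

end Pool.Agent.X207.Step
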