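import Mathlib

/-!
Extreme functionals on a real normed space: any two points of an open half-space of an extreme
functional lie in a ball of integer radius contained in that half-space.
-/

open Set Metric Filter Topology

namespace Pool.Agent.X207.Step

variable {X : Type*} [NormedAddCommGroup X] [NormedSpace ℝ X]

/-- Any two points of an open half-space of `f` lie in a ball of integer radius inside the
half-space. -/
def Dir (f : StrongDual ℝ X) : Prop :=
  ∀ (t : ℝ) (x₁ x₂ : X), f x₁ < t → f x₂ < t →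
    ∃ (y : X) (k : ℕ), ‖x₁ - y‖ < k ∧ ‖x₂ - y‖ < k ∧ f y + k ≤ t

/-- A functional of norm one takes the value `1` at vectors of norm arbitrarily close to `1`. -/
lemma exists_unit {f : StrongDual ℝ X} (hf : ‖f‖ = 1) {r : ℝ} (hr : 1 < r) :
    ∃ u : X, f u = 1 ∧ ‖u‖ < r := by
  have h1 : 1 / r < ‖f‖ := by rw [hf, div_lt_one (by linarith)]; exact hr
  obtain ⟨x, hx1, hx2⟩ := ContinuousLinearMap.exists_lt_apply_of_lt_opNorm f h1
  have hr0 : 0 < r := by linarith
  have hfx : 0 < |f x| := lt_of_le_of_lt (by positivity) hx2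
  have hfx0 : f x ≠ 0 := abs_pos.1 hfx
  refine ⟨(f x)⁻¹ • x, by simp [hfx0], ?_⟩
  rw [norm_smul, norm_inv, Real.norm_eq_abs]
  rw [Real.norm_eq_abs, div_lt_iff₀ hr0] at hx2
  rw [inv_mul_lt_iff₀ hfx]
  linarith

lemma norm_le_of_forall_le {f : StrongDual ℝ X} {c : ℝ} (h : ∀ x, ‖x‖ ≤ 1 → f x ≤ c) :
    ‖f‖ ≤ c := by
  have hc : 0 ≤ c := by simpa using h 0 (by simp)
  apply ContinuousLinearMap.opNorm_le_of_unit_norm hc
  intro x hx
  rw [Real.norm_eq_abs, abs_le]
  have h1 := h x hx.le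
  have h2 := h (-x) (by rw [norm_neg]; exact hx.le)
  rw [map_neg] at h2
  constructor <;> linarith

lemma extreme_two {f : StrongDual ℝ X} (hf : ‖f‖ = 1)
    (he : f ∈ (closedBall (0 : StrongDual ℝ X) 1).extremePoints ℝ) {t : ℝ} {x₁ x₂ : X}
    (h1 : f x₁ < t) (h2 : f x₂ < t) : ∃ y : X, ‖x₁ - y‖ < t - f y ∧ ‖x₂ - y‖ < t - f y := by
  by_contra hcon
  push Not at hcon
  let C : Set (X × X × ℝ) := {p | ‖p.1‖ < p.2.2 ∧ ‖p.2.1‖ < p.2.2}
  let M : Set (X × X × ℝ) := range fun y : X => (x₁ - y, x₂ - y, t - f y)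
  have hC : Convex ℝ C := by
    intro p hp q hq a b ha hb hab
    have key : ∀ u v : X, ∀ r s : ℝ, ‖u‖ < r → ‖v‖ < s → ‖a • u + b • v‖ < a * r + b * s := by
      intro u v r s hu hv
      have h3 : ‖a • u + b • v‖ ≤ a * ‖u‖ + b * ‖v‖ := by
        refine (norm_add_le _ _).trans ?_
        rw [norm_smul, norm_smul, Real.norm_of_nonneg ha, Real.norm_of_nonneg hb]
      rcases ha.eq_or_lt with ha' | ha'
      · have hb' : b = 1 := by linarith
        rw [← ha', hb'] at h3 ⊢
        linarith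
      · have h4 : a * ‖u‖ < a * r := mul_lt_mul_of_pos_left hu ha'
        have h5 : b * ‖v‖ ≤ b * s := mul_le_mul_of_nonneg_left hv.le hb
        linarith
    exact ⟨key _ _ _ _ hp.1 hq.1, key _ _ _ _ hp.2 hq.2⟩
  have hCo : IsOpen C := by
    apply IsOpen.inter
    · exact isOpen_lt (continuous_fst.norm) (continuous_snd.snd)
    · exact isOpen_lt (continuous_snd.fst.norm) (continuous_snd.snd)
  have hM : Convex ℝ M := by
    rintro _ ⟨y, rfl⟩ _ ⟨y', rfl⟩ a b ha hb hab
    refine ⟨a • y + b • y', ?_⟩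
    have hb' : b = 1 - a := by linarith
    subst hb'
    simp only [Prod.smul_mk, Prod.mk_add_mk, Prod.mk.injEq, map_add, map_smul, smul_eq_mul]
    refine ⟨?_, ?_, by ring⟩
    · module
    · module
  have hdisj : Disjoint C M := by
    rw [Set.disjoint_left]
    rintro _ hp ⟨y, rfl⟩
    exact absurd hp.2 (not_lt.2 (hcon y hp.1))
  obtain ⟨Φ, s, hΦC, hΦM⟩ := geometric_hahn_banach_open hC hCo hM hdisj
  let G₁ : StrongDual ℝ X := Φ.comp (ContinuousLinearMap.inl ℝ X (X × ℝ))
  let G₂ : StrongDual ℝ X := (Φ.comp (ContinuousLinearMap.inr ℝ X (X × ℝ))).comp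
    (ContinuousLinearMap.inl ℝ X ℝ)
  set ρ : ℝ := -Φ (0, 0, 1) with hρ
  have hdec : ∀ u v r, Φ (u, v, r) = G₁ u + G₂ v - ρ * r := by
    intro u v r
    have e : ((u, v, r) : X × X × ℝ) = (u, 0, 0) + (0, v, 0) + r • (0, 0, 1) := by simp
    rw [e, map_add, map_add, map_smul, smul_eq_mul, hρ]
    change Φ (u, 0, 0) + Φ (0, v, 0) + r * Φ (0, 0, 1) = Φ (u, 0, 0) + Φ (0, v, 0) - -Φ (0, 0, 1) * r
    ring
  -- `Φ ≤ 0` on the cone
  have hneg : ∀ u v : X, ∀ r : ℝ, ‖u‖ < r → ‖v‖ < r → G₁ u + G₂ v ≤ ρ * r := by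
    intro u v r hu hv
    by_contra hlt
    push Not at hlt
    obtain ⟨n, hn⟩ := exists_nat_gt (|s| / (G₁ u + G₂ v - ρ * r))
    have hpos : 0 < G₁ u + G₂ v - ρ * r := by linarith
    have hn0 : (0 : ℝ) < n := lt_of_le_of_lt (by positivity) hn
    rw [div_lt_iff₀ hpos] at hn
    have hmem : ((n : ℝ) • u, (n : ℝ) • v, (n : ℝ) * r) ∈ C := by
      constructor
      · change ‖(n : ℝ) • u‖ < (n : ℝ) * r
        rw [norm_smul, Real.norm_of_nonneg hn0.le]
        exact mul_lt_mul_of_pos_left hu hn0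
      · change ‖(n : ℝ) • v‖ < (n : ℝ) * r
        rw [norm_smul, Real.norm_of_nonneg hn0.le]
        exact mul_lt_mul_of_pos_left hv hn0
    have := hΦC _ hmem
    rw [hdec, map_smul, map_smul, smul_eq_mul, smul_eq_mul] at this
    have h3 := le_abs_self s
    nlinarith
  have hneg' : ∀ u v : X, ‖u‖ ≤ 1 → ‖v‖ ≤ 1 → G₁ u + G₂ v ≤ ρ := by
    intro u v hu hv
    have h3 : ∀ᶠ r in 𝓝[>] (1 : ℝ), G₁ u + G₂ v ≤ ρ * r := by
      filter_upwards [self_mem_nhdsWithin] with r hr
      exact hneg u v r (lt_of_le_of_lt hu hr) (lt_of_le_of_lt hv hr)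
    have h4 : Tendsto (fun r : ℝ => ρ * r) (𝓝[>] (1 : ℝ)) (𝓝 (ρ * 1)) :=
      ((continuous_const.mul continuous_id).tendsto 1).mono_left nhdsWithin_le_nhds
    have := ge_of_tendsto h4 h3
    simpa using this
  have hnorm : ‖G₁‖ + ‖G₂‖ ≤ ρ := by
    have h3 : ∀ v : X, ‖v‖ ≤ 1 → ‖G₁‖ ≤ ρ - G₂ v := fun v hv =>
      norm_le_of_forall_le fun u hu => by linarith [hneg' u v hu hv]
    have h4 : ‖G₂‖ ≤ ρ - ‖G₁‖ := norm_le_of_forall_le fun v hv => by linarith [h3 v hv]
    linarith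
  -- nonnegativity of `s`
  have hs : 0 ≤ s := by
    have h3 : ∀ᶠ r in 𝓝[>] (0 : ℝ), -ρ * r ≤ s := by
      filter_upwards [self_mem_nhdsWithin] with r hr
      have hr' : (0 : ℝ) < r := hr
      have hm : ((0, 0, r) : X × X × ℝ) ∈ C := by
        constructor
        · change ‖(0 : X)‖ < r; simpa using hr'
        · change ‖(0 : X)‖ < r; simpa using hr'
      have := hΦC _ hm
      rw [hdec, map_zero, map_zero] at this
      linarith
    have h4 : Tendsto (fun r : ℝ => -ρ * r) (𝓝[>] (0 : ℝ)) (𝓝 (-ρ * 0)) :=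
      ((continuous_const.mul continuous_id).tendsto 0).mono_left nhdsWithin_le_nhds
    have := le_of_tendsto h4 h3
    simpa using this
  have hMy : ∀ y : X, s ≤ G₁ x₁ + G₂ x₂ - ρ * t - (G₁ y + G₂ y - ρ * f y) := by
    intro y
    have := hΦM _ ⟨y, rfl⟩
    rw [hdec, map_sub, map_sub] at this
    linarith
  have hlin : ∀ y : X, G₁ y + G₂ y = ρ * f y := by
    have hle : ∀ y : X, G₁ y + G₂ y - ρ * f y ≤ 0 := by
      intro y
      by_contra hlt
      push Not at hlt
      obtain ⟨n, hn⟩ := exists_nat_gt (|G₁ x₁ + G₂ x₂ - ρ * t - s| / (G₁ y + G₂ y - ρ * f y))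
      rw [div_lt_iff₀ hlt] at hn
      have := hMy ((n : ℝ) • y)
      rw [map_smul, map_smul, map_smul, smul_eq_mul, smul_eq_mul, smul_eq_mul] at this
      have h3 := le_abs_self (G₁ x₁ + G₂ x₂ - ρ * t - s)
      nlinarith
    intro y
    have h3 := hle y
    have h4 := hle (-y)
    rw [map_neg, map_neg, map_neg] at h4
    linarith
  have hρ0 : 0 < ρ := by
    have h3 : 0 ≤ ρ := le_trans (by positivity) hnorm
    rcases h3.eq_or_lt with h4 | h4
    · exfalso
      rw [← h4] at hnorm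
      have hG1 : G₁ = 0 := by
        have : ‖G₁‖ ≤ 0 := by linarith [norm_nonneg G₂]
        simpa using this
      have hG2 : G₂ = 0 := by
        have : ‖G₂‖ ≤ 0 := by linarith [norm_nonneg G₁]
        simpa using this
      have h5 := hMy 0
      have hm : ((0, 0, 1) : X × X × ℝ) ∈ C := by
        constructor
        · change ‖(0 : X)‖ < 1; simp
        · change ‖(0 : X)‖ < 1; simp
      have h6 := hΦC _ hm
      rw [hdec] at h6
      rw [← h4, hG1, hG2] at h5 h6
      simp at h5 h6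
      linarith
    · exact h4
  have hge : ρ * t ≤ G₁ x₁ + G₂ x₂ := by
    have := hMy 0
    simp only [map_zero] at this
    linarith
  -- extremality
  have hsum : ‖G₁‖ + ‖G₂‖ = ρ := by
    refine le_antisymm hnorm ?_
    have h3 : G₁ + G₂ = ρ • f := by
      ext y
      simpa using hlin y
    have h4 : ‖ρ • f‖ = ρ := by rw [norm_smul, hf, mul_one, Real.norm_of_nonneg hρ0.le]
    rw [← h4, ← h3]
    exact norm_add_le _ _
  have hG : (∀ x, G₁ x = ‖G₁‖ * f x) ∧ (∀ x, G₂ x = ‖G₂‖ * f x) := by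
    by_cases h10 : ‖G₁‖ = 0
    · have hG1 : G₁ = 0 := by simpa using h10
      have h3 : ‖G₂‖ = ρ := by linarith
      refine ⟨fun x => by rw [hG1]; simp, fun x => ?_⟩
      have := hlin x
      rw [hG1] at this
      rw [h3, ← this]; simp
    by_cases h20 : ‖G₂‖ = 0
    · have hG2 : G₂ = 0 := by simpa using h20
      have h3 : ‖G₁‖ = ρ := by linarith
      refine ⟨fun x => ?_, fun x => by rw [hG2]; simp⟩
      have := hlin x
      rw [hG2] at this
      rw [h3, ← this]; simp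
    have p1 : 0 < ‖G₁‖ := lt_of_le_of_ne (norm_nonneg _) (Ne.symm h10)
    have p2 : 0 < ‖G₂‖ := lt_of_le_of_ne (norm_nonneg _) (Ne.symm h20)
    have m1 : (‖G₁‖⁻¹ • G₁) ∈ closedBall (0 : StrongDual ℝ X) 1 := by
      rw [mem_closedBall_zero_iff, norm_smul, norm_inv, norm_norm, inv_mul_cancel₀ h10]
    have m2 : (‖G₂‖⁻¹ • G₂) ∈ closedBall (0 : StrongDual ℝ X) 1 := by
      rw [mem_closedBall_zero_iff, norm_smul, norm_inv, norm_norm, inv_mul_cancel₀ h20]
    have hseg : f ∈ openSegment ℝ (‖G₁‖⁻¹ • G₁) (‖G₂‖⁻¹ • G₂) := by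
      refine ⟨‖G₁‖ / ρ, ‖G₂‖ / ρ, by positivity, by positivity, ?_, ?_⟩
      · rw [← add_div, hsum, div_self hρ0.ne']
      · ext x
        simp only [add_apply, smul_apply, smul_eq_mul]
        have := hlin x
        field_simp
        linarith
    obtain ⟨e1, e2⟩ := (mem_extremePoints.1 he).2 _ m1 _ m2 hseg
    constructor
    · intro x
      have := congrArg (fun g : StrongDual ℝ X => g x) e1
      simp only [smul_apply, smul_eq_mul] at this
      rw [← this]; field_simp
    · intro x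
      have := congrArg (fun g : StrongDual ℝ X => g x) e2
      simp only [smul_apply, smul_eq_mul] at this
      rw [← this]; field_simp
  rw [hG.1 x₁, hG.2 x₂, ← hsum] at hge
  have q1 := norm_nonneg G₁
  have q2 := norm_nonneg G₂
  rcases q1.eq_or_lt with h5 | h5
  · have : 0 < ‖G₂‖ := by linarith
    nlinarith
  · nlinarith

/-- Extreme functionals have the property `Dir`. -/
theorem dir_of_extreme {f : StrongDual ℝ X} (hf : ‖f‖ = 1)
    (he : f ∈ (closedBall (0 : StrongDual ℝ X) 1).extremePoints ℝ) : Dir f := by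
  intro t x₁ x₂ h1 h2
  obtain ⟨y, hy1, hy2⟩ := extreme_two hf he h1 h2
  set m := min (t - f y - ‖x₁ - y‖) (t - f y - ‖x₂ - y‖) with hm
  have hm0 : 0 < m := lt_min (by linarith) (by linarith)
  have hm1 : ‖x₁ - y‖ ≤ t - f y - m := by
    have := min_le_left (t - f y - ‖x₁ - y‖) (t - f y - ‖x₂ - y‖)
    rw [← hm] at this; linarith
  have hm2 : ‖x₂ - y‖ ≤ t - f y - m := by
    have := min_le_right (t - f y - ‖x₁ - y‖) (t - f y - ‖x₂ - y‖)
    rw [← hm] at this; linarith
  obtain ⟨k, hk⟩ := exists_nat_ge (t - f y)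
  set a := (k : ℝ) - (t - f y) with ha
  have ha0 : 0 ≤ a := by linarith
  obtain ⟨u, hu1, hu2⟩ := exists_unit hf (r := 1 + m / (a + 1)) (by
    have : 0 < m / (a + 1) := by positivity
    linarith)
  have hau : a * ‖u‖ < a + m := by
    rcases ha0.eq_or_lt with h | h
    · rw [← h]; linarith
    · have h3 : a * ‖u‖ < a * (1 + m / (a + 1)) := mul_lt_mul_of_pos_left hu2 h
      have h4 : a * (1 + m / (a + 1)) ≤ a + m := by
        rw [mul_add, mul_one]
        have : a * (m / (a + 1)) ≤ m := by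
          rw [mul_div_assoc', div_le_iff₀ (by linarith)]
          nlinarith
        linarith
      linarith
  refine ⟨y - a • u, k, ?_, ?_, ?_⟩
  · have e : x₁ - (y - a • u) = (x₁ - y) + a • u := by abel
    rw [e]
    refine lt_of_le_of_lt (norm_add_le _ _) ?_
    rw [norm_smul, Real.norm_of_nonneg ha0]
    linarith
  · have e : x₂ - (y - a • u) = (x₂ - y) + a • u := by abel
    rw [e]
    refine lt_of_le_of_lt (norm_add_le _ _) ?_
    rw [norm_smul, Real.norm_of_nonneg ha0]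
    linarith
  · rw [map_sub, map_smul, hu1, smul_eq_mul, mul_one]
    linarith

end Pool.Agent.X207.Step
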