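import Pool.Agent.X207.StepDir

open Set Metric Filter Topology

namespace Pool.Agent.X207.Step

variable {X : Type*} [NormedAddCommGroup X] [NormedSpace ℝ X]

/-- Every nonzero vector is normed by an extreme functional. -/
theorem exists_extreme_norming {v : X} (hv : v ≠ 0) :
    ∃ g : StrongDual ℝ X, g ∈ (closedBall (0 : StrongDual ℝ X) 1).extremePoints ℝ ∧ ‖g‖ = 1 ∧
      g v = ‖v‖ := by
  let K : Set (WeakDual ℝ X) := WeakDual.toStrongDual ⁻¹' closedBall (0 : StrongDual ℝ X) 1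
  have hK : IsCompact K := WeakDual.isCompact_closedBall _ _
  let F : Set (WeakDual ℝ X) := K ∩ {g | g v = ‖v‖}
  have hFc : IsClosed {g : WeakDual ℝ X | g v = ‖v‖} :=
    isClosed_eq (WeakDual.eval_continuous v) continuous_const
  have hF : IsCompact F := hK.inter_right hFc
  obtain ⟨g₀, hg₀, hg₀v⟩ := exists_dual_vector ℝ v (norm_ne_zero_iff.2 hv)
  have hne : F.Nonempty := by
    refine ⟨StrongDual.toWeakDual g₀, ?_, ?_⟩
    · change g₀ ∈ closedBall (0 : StrongDual ℝ X) 1
      rw [mem_closedBall_zero_iff, hg₀]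
    · exact hg₀v
  have : LocallyConvexSpace ℝ (WeakDual ℝ X) :=
    (WeakDual.withSeminorms ℝ X).toLocallyConvexSpace
  obtain ⟨g, hg⟩ := hF.extremePoints_nonempty hne
  rw [mem_extremePoints] at hg
  have hle : ∀ h : WeakDual ℝ X, h ∈ K → h v ≤ ‖v‖ := by
    intro h hh
    have h1 : ‖WeakDual.toStrongDual h‖ ≤ 1 := by simpa [K] using hh
    have h2 := (WeakDual.toStrongDual h).le_opNorm v
    have h3 : h v ≤ ‖(WeakDual.toStrongDual h) v‖ := le_abs_self _
    have h4 : ‖WeakDual.toStrongDual h‖ * ‖v‖ ≤ 1 * ‖v‖ :=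
      mul_le_mul_of_nonneg_right h1 (norm_nonneg _)
    linarith
  have hgK : g ∈ K := hg.1.1
  have hgv : g v = ‖v‖ := hg.1.2
  have hgn : ‖WeakDual.toStrongDual g‖ ≤ 1 := by simpa [K] using hgK
  refine ⟨WeakDual.toStrongDual g, ?_, ?_, hgv⟩
  · rw [mem_extremePoints]
    refine ⟨by simpa using hgn, ?_⟩
    intro h₁ hh₁ h₂ hh₂ hseg
    obtain ⟨a, b, ha, hb, hab, hcomb⟩ := hseg
    have k1 : (StrongDual.toWeakDual h₁) ∈ K := hh₁
    have k2 : (StrongDual.toWeakDual h₂) ∈ K := hh₂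
    have l1 := hle _ k1
    have l2 := hle _ k2
    have e : a * (StrongDual.toWeakDual h₁) v + b * (StrongDual.toWeakDual h₂) v = ‖v‖ := by
      rw [← hgv]
      exact congrArg (fun φ : StrongDual ℝ X => φ v) hcomb
    have m1 : (StrongDual.toWeakDual h₁) v = ‖v‖ := by
      by_contra hne
      have h5 := mul_lt_mul_of_pos_left (lt_of_le_of_ne l1 hne) ha
      have h6 := mul_le_mul_of_nonneg_left l2 hb.le
      have h7 : a * ‖v‖ + b * ‖v‖ = ‖v‖ := by rw [← add_mul, hab, one_mul]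
      linarith
    have m2 : (StrongDual.toWeakDual h₂) v = ‖v‖ := by
      by_contra hne
      have h5 := mul_lt_mul_of_pos_left (lt_of_le_of_ne l2 hne) hb
      have h6 := mul_le_mul_of_nonneg_left l1 ha.le
      have h7 : a * ‖v‖ + b * ‖v‖ = ‖v‖ := by rw [← add_mul, hab, one_mul]
      linarith
    exact hg.2 _ ⟨k1, m1⟩ _ ⟨k2, m2⟩ ⟨a, b, ha, hb, hab, hcomb⟩
  · refine le_antisymm hgn ?_
    have h2 := (WeakDual.toStrongDual g).le_opNorm v
    have h3 : (WeakDual.toStrongDual g) v = ‖v‖ := hgv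
    rw [h3, norm_norm] at h2
    have hv' : 0 < ‖v‖ := norm_pos_iff.2 hv
    by_contra hlt
    push Not at hlt
    nlinarith

/-- If one open half-space is contained in another one then the (norm one) functionals agree. -/
lemma nested {g g' : StrongDual ℝ X} (hg : ‖g‖ = 1) (hg' : ‖g'‖ = 1) {c c' : ℝ}
    (h : ∀ x, g x < c → g' x < c') : g = g' := by
  obtain ⟨e, he, -⟩ := exists_unit hg (r := 2) (by norm_num)
  have h1 : ∀ x, g x ≤ 0 → g' x ≤ 0 := by
    intro x hx
    by_contra hlt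
    push Not at hlt
    obtain ⟨x₀, hgx₀⟩ : ∃ x₀, g x₀ = c - 1 := ⟨(c - 1) • e, by rw [map_smul, he]; simp⟩
    obtain ⟨n, hn⟩ := exists_nat_gt (|c' - g' x₀| / g' x)
    rw [div_lt_iff₀ hlt] at hn
    have h2 := h (x₀ + (n : ℝ) • x) (by
      rw [map_add, map_smul, smul_eq_mul, hgx₀]
      have : (n : ℝ) * g x ≤ 0 := mul_nonpos_of_nonneg_of_nonpos (by positivity) hx
      linarith)
    rw [map_add, map_smul, smul_eq_mul] at h2
    have := le_abs_self (c' - g' x₀)
    linarith
  have h2 : ∀ x, g' x = g x * g' e := by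
    intro x
    have h3 := h1 (x - g x • e) (by simp [he])
    have h4 := h1 (-(x - g x • e)) (by simp [he])
    rw [map_neg] at h4
    rw [map_sub, map_smul, smul_eq_mul] at h3 h4
    linarith
  have h5 : 0 ≤ g' e := by
    have := h1 (-e) (by simp [he])
    rw [map_neg] at this
    linarith
  have h6 : g' = (g' e) • g := by
    ext x
    rw [smul_apply, smul_eq_mul, h2 x, mul_comm]
  have h7 : ‖g'‖ = g' e := by
    conv_lhs => rw [h6]
    rw [norm_smul, hg, mul_one, Real.norm_of_nonneg h5]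
  rw [hg'] at h7
  rw [h6, ← h7, one_smul]

lemma Dir.neg {f : StrongDual ℝ X} (h : Dir f) : Dir (-f) := by
  intro t x₁ x₂ h1 h2
  obtain ⟨y, k, hy1, hy2, hy3⟩ := h t (-x₁) (-x₂) (by simpa using h1) (by simpa using h2)
  refine ⟨-y, k, ?_, ?_, ?_⟩
  · have e : x₁ - -y = -(-x₁ - y) := by abel
    rw [e, norm_neg]; exact hy1
  · have e : x₂ - -y = -(-x₂ - y) := by abel
    rw [e, norm_neg]; exact hy2
  · simpa using hy3

/-- `T` preserves the relations `‖x - y‖ < k` for `k ∈ ℕ`. -/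
def IsStep (T : X ≃ X) : Prop := ∀ (k : ℕ) x y, ‖x - y‖ < k ↔ ‖T x - T y‖ < k

omit [NormedSpace ℝ X] in
lemma IsStep.symm {T : X ≃ X} (h : IsStep T) : IsStep T.symm := by
  intro k x y
  have := h k (T.symm x) (T.symm y)
  simp only [Equiv.apply_symm_apply] at this
  exact this.symm

variable {T : X ≃ X}

lemma apply_le {f : StrongDual ℝ X} (hn : ‖f‖ = 1) (x : X) : f x ≤ ‖x‖ := by
  have := f.le_opNorm x
  rw [hn, one_mul] at this
  exact (le_abs_self _).trans this

/-- The preimage of an open half-space of a functional with `Dir` is convex. -/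
lemma convex_preimage (hT : IsStep T) {g : StrongDual ℝ X} (hn : ‖g‖ = 1) (hg : Dir g) (t : ℝ) :
    Convex ℝ {x | g (T x) < t} := by
  intro x₁ h₁ x₂ h₂ a b ha hb hab
  obtain ⟨y, k, hy1, hy2, hy3⟩ := hg t _ _ h₁ h₂
  obtain ⟨z, rfl⟩ := T.surjective y
  rw [← hT] at hy1 hy2
  have hc : a • x₁ + b • x₂ ∈ ball z k := by
    apply convex_ball z k _ _ ha hb hab
    · rw [mem_ball_iff_norm]; exact hy1
    · rw [mem_ball_iff_norm]; exact hy2
  rw [mem_ball_iff_norm, hT] at hc
  have h3 := apply_le hn (T (a • x₁ + b • x₂) - T z)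
  rw [map_sub] at h3
  change g (T (a • x₁ + b • x₂)) < t
  linarith

lemma open_preimage (hT : IsStep T) {g : StrongDual ℝ X} (hn : ‖g‖ = 1) (hg : Dir g) (t : ℝ) :
    IsOpen {x | g (T x) < t} := by
  rw [isOpen_iff_mem_nhds]
  intro x hx
  obtain ⟨y, k, hy1, -, hy3⟩ := hg t _ _ hx hx
  obtain ⟨z, rfl⟩ := T.surjective y
  rw [← hT] at hy1
  have hx' : x ∈ ball z k := by rw [mem_ball_iff_norm]; exact hy1
  filter_upwards [isOpen_ball.mem_nhds hx'] with w hw
  rw [mem_ball_iff_norm, hT] at hw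
  have h3 := apply_le hn (T w - T z)
  rw [map_sub] at h3
  linarith

lemma exists_half (hT : IsStep T) {g : StrongDual ℝ X} (hn : ‖g‖ = 1) (hg : Dir g) (c : ℝ) :
    ∃ (f : StrongDual ℝ X) (u : ℝ), ‖f‖ = 1 ∧ ∀ x, g (T x) < c ↔ f x < u := by
  have hcc : Convex ℝ {x | c ≤ g (T x)} := by
    have e : {x | c ≤ g (T x)} = ⋂ c' : Iio c, {x | (-g) (T x) < -c'} := by
      ext x
      simp only [mem_ofPred_eq, mem_iInter, neg_apply, neg_lt_neg_iff]
      constructor
      · intro h c'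
        exact lt_of_lt_of_le c'.2 h
      · intro h
        by_contra hlt
        push Not at hlt
        obtain ⟨c', h1, h2⟩ := exists_between hlt
        exact absurd (h ⟨c', h2⟩) (not_lt.2 h1.le)
    rw [e]
    exact convex_iInter fun c' => convex_preimage hT (by rw [norm_neg, hn]) hg.neg _
  have hdisj : Disjoint {x | g (T x) < c} {x | c ≤ g (T x)} := by
    rw [Set.disjoint_left]
    intro x (h1 : g (T x) < c) (h2 : c ≤ g (T x))
    exact absurd h1 (not_lt.2 h2)
  obtain ⟨f, u, h1, h2⟩ := geometric_hahn_banach_open (convex_preimage hT hn hg c)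
    (open_preimage hT hn hg c) hcc hdisj
  obtain ⟨e, he, -⟩ := exists_unit hn (r := 2) (by norm_num)
  have hf0 : f ≠ 0 := by
    rintro rfl
    have h3 := h1 (T.symm ((c - 1) • e)) (by simp [he])
    have h4 := h2 (T.symm (c • e)) (by simp [he])
    simp at h3 h4
    linarith
  have hfn : 0 < ‖f‖ := norm_pos_iff.2 hf0
  refine ⟨‖f‖⁻¹ • f, ‖f‖⁻¹ * u, by rw [norm_smul, norm_inv, norm_norm, inv_mul_cancel₀ hfn.ne'],
    fun x => ?_⟩
  rw [smul_apply, smul_eq_mul, mul_lt_mul_iff_right₀ (inv_pos.2 hfn)]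
  constructor
  · exact h1 x
  · intro h
    by_contra hlt
    push Not at hlt
    exact absurd h (not_lt.2 (h2 x hlt))

/-- A functional with `Dir` composed with a step-isometry is a monotone function of a
functional. -/
theorem exists_companion (hT : IsStep T) {g : StrongDual ℝ X} (hn : ‖g‖ = 1) (hg : Dir g) :
    ∃ f : StrongDual ℝ X, ‖f‖ = 1 ∧ ∀ x x', f x ≤ f x' → g (T x) ≤ g (T x') := by
  choose f u hf hfu using exists_half hT hn hg
  have hmono : ∀ c c', c ≤ c' → f c = f c' := by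
    intro c c' hcc
    apply nested (hf c) (hf c') (c := u c) (c' := u c')
    intro x hx
    rw [← hfu] at hx ⊢
    exact lt_of_lt_of_le hx hcc
  have hall : ∀ c, f c = f 0 := by
    intro c
    rcases le_total c 0 with h | h
    · exact hmono c 0 h
    · exact (hmono 0 c h).symm
  refine ⟨f 0, hf 0, fun x x' hxx => ?_⟩
  by_contra hlt
  push Not at hlt
  have h1 := (hfu (g (T x)) x').1 hlt
  rw [hall] at h1
  have h2 := lt_of_le_of_lt hxx h1
  rw [← hall (g (T x)), ← hfu] at h2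
  exact lt_irrefl _ h2

/-- Continuity at `0` of a step-isometry fixing `0`. -/
theorem continuousAt_zero [CompleteSpace X] (hT : IsStep T) (h0 : T 0 = 0) :
    ContinuousAt T 0 := by
  by_contra hcont
  -- the oscillation at `0`
  let A : Set ℝ := {s | ∃ r > 0, ∀ h : X, ‖h‖ < r → ‖T h‖ ≤ s}
  have h1 : ∀ h : X, ‖h‖ < 1 → ‖T h‖ < 1 := by
    intro h hh
    have := (hT 1 h 0).1 (by simpa using hh)
    simpa [h0] using this
  have hA1 : (1 : ℝ) ∈ A := ⟨1, one_pos, fun h hh => (h1 h hh).le⟩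
  have hAbdd : BddBelow A := ⟨0, by
    rintro s ⟨r, hr, hs⟩
    exact (norm_nonneg _).trans (hs 0 (by simpa using hr))⟩
  set ε := sInf A with hε
  have hε1 : ε ≤ 1 := csInf_le hAbdd hA1
  have hε0' : 0 ≤ ε := le_csInf ⟨1, hA1⟩ (by
    rintro s ⟨r, hr, hs⟩
    exact (norm_nonneg _).trans (hs 0 (by simpa using hr)))
  have hε0 : 0 < ε := by
    rcases hε0'.eq_or_lt with h | h
    · exfalso
      apply hcont
      rw [Metric.continuousAt_iff]
      intro δ hδ
      obtain ⟨s, ⟨r, hr, hs⟩, hsδ⟩ := exists_lt_of_csInf_lt ⟨1, hA1⟩ (show sInf A < δ by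
        rw [← hε, ← h]; exact hδ)
      refine ⟨r, hr, fun {x} hx => ?_⟩
      rw [dist_zero_right] at hx
      rw [h0, dist_zero_right]
      exact lt_of_le_of_lt (hs x hx) hsδ
    · exact h
  -- an upper bound near `0`
  set η := ε / 4 with hη
  obtain ⟨s₁, ⟨r, hr, hs₁⟩, hs₁'⟩ := exists_lt_of_csInf_lt ⟨1, hA1⟩
    (show sInf A < ε * (1 + η) by rw [← hε]; nlinarith)
  have hup : ∀ h : X, ‖h‖ < r → ‖T h‖ < ε * (1 + η) := fun h hh =>
    lt_of_le_of_lt (hs₁ h hh) hs₁'
  -- points with large images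
  have hlow : ∀ n : ℕ, ∃ h : X, ‖h‖ < 1 / ((n : ℝ) + 1) ∧ ε * (1 - η) < ‖T h‖ := by
    intro n
    by_contra hno
    push Not at hno
    have : ε * (1 - η) ∈ A := ⟨1 / ((n : ℝ) + 1), by positivity, hno⟩
    have := csInf_le hAbdd this
    rw [← hε] at this
    nlinarith
  choose h hh1 hh2 using hlow
  have hη1 : η ≤ 1 / 4 := by rw [hη]; linarith
  have hη0 : 0 < η := by positivity
  have hTh0 : ∀ n, T (h n) ≠ 0 := by
    intro n hn
    have := hh2 n
    rw [hn, norm_zero] at this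
    nlinarith
  choose g hge hgn hgv using fun n => exists_extreme_norming (hTh0 n)
  choose f hfn hfg using fun n => exists_companion hT (hgn n) (dir_of_extreme (hgn n) (hge n))
  -- the values `δ n`
  have hδ0 : ∀ n, 0 < f n (h n) := by
    intro n
    by_contra hle
    push Not at hle
    have := hfg n (h n) 0 (by simpa using hle)
    rw [h0, map_zero, hgv] at this
    exact hTh0 n (norm_eq_zero.1 (le_antisymm this (norm_nonneg _)))
  have hδ1 : ∀ n, f n (h n) < 1 / ((n : ℝ) + 1) := fun n =>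
    lt_of_le_of_lt (apply_le (hfn n) _) (hh1 n)
  -- Banach-Steinhaus
  have hBS : ∃ x : X, ∀ C : ℝ, ∃ n, C * f n (h n) < |f n x| := by
    by_contra hno
    push Not at hno
    have := banach_steinhaus (g := fun n => (f n (h n))⁻¹ • f n) (by
      intro x
      obtain ⟨C, hC⟩ := hno x
      refine ⟨C, fun n => ?_⟩
      rw [smul_apply, norm_smul, norm_inv, Real.norm_eq_abs, Real.norm_eq_abs,
        abs_of_pos (hδ0 n), inv_mul_le_iff₀ (hδ0 n)]
      linarith [hC n])
    obtain ⟨C, hC⟩ := this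
    obtain ⟨n, hn⟩ := exists_nat_gt C
    have h3 := hC n
    rw [norm_smul, hfn, mul_one, norm_inv, Real.norm_eq_abs, abs_of_pos (hδ0 n)] at h3
    have h4 : ((n : ℝ) + 1) < (f n (h n))⁻¹ := by
      have := (one_div_lt_one_div (by positivity) (hδ0 n)).2 (hδ1 n)
      simpa using this
    linarith
  obtain ⟨x, hx⟩ := hBS
  -- fix the sign
  have hsgn : ∃ x : X, ∀ C : ℝ, ∃ n, C * f n (h n) < f n x := by
    by_cases hp : ∀ C : ℝ, ∃ n, C * f n (h n) < f n x
    · exact ⟨x, hp⟩
    · push Not at hp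
      obtain ⟨C₀, hC₀⟩ := hp
      refine ⟨-x, fun C => ?_⟩
      obtain ⟨n, hn⟩ := hx (max C C₀)
      refine ⟨n, ?_⟩
      have h3 := hC₀ n
      have h4 : C * f n (h n) ≤ max C C₀ * f n (h n) :=
        mul_le_mul_of_nonneg_right (le_max_left _ _) (hδ0 n).le
      have h5 : C₀ * f n (h n) ≤ max C C₀ * f n (h n) :=
        mul_le_mul_of_nonneg_right (le_max_right _ _) (hδ0 n).le
      rw [map_neg]
      rcases lt_abs.1 hn with h6 | h6 <;> linarith
  obtain ⟨x, hx⟩ := hsgn
  -- scale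
  obtain ⟨z, hz1, hz2⟩ : ∃ z : X, ‖z‖ < r ∧ ∀ C : ℝ, ∃ n, C * f n (h n) < f n z := by
    set ρ := r / (‖x‖ + 1) with hρ
    have hρ0 : 0 < ρ := by positivity
    refine ⟨ρ • x, ?_, fun C => ?_⟩
    · rw [norm_smul, Real.norm_of_nonneg hρ0.le, hρ, div_mul_eq_mul_div, div_lt_iff₀ (by positivity)]
      nlinarith [norm_nonneg x]
    · obtain ⟨n, hn⟩ := hx (C / ρ)
      refine ⟨n, ?_⟩
      rw [map_smul, smul_eq_mul]
      rw [div_mul_eq_mul_div, div_lt_iff₀ hρ0] at hn
      linarith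
  -- the contradiction
  set lam := 1 / (ε * (1 + η)) with hlam
  have hlam0 : 0 < lam := by positivity
  have hlam1 : lam * (ε * (1 + η)) = 1 := by rw [hlam]; field_simp
  obtain ⟨y, hy⟩ := T.surjective (-(lam • T z))
  have hTy : ‖T y‖ < 1 := by
    rw [hy, norm_neg, norm_smul, Real.norm_of_nonneg hlam0.le]
    calc lam * ‖T z‖ < lam * (ε * (1 + η)) := mul_lt_mul_of_pos_left (hup z hz1) hlam0
      _ = 1 := hlam1
  have hyn : ‖y‖ < 1 := by
    have := (hT 1 y 0).2 (by simpa [h0] using hTy)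
    simpa using this
  obtain ⟨n, hn⟩ := hz2 (max 1 (‖z‖ / (1 - ‖y‖)))
  have hn1 : f n (h n) < f n z := by
    refine lt_of_le_of_lt ?_ hn
    have := mul_le_mul_of_nonneg_right (le_max_left 1 (‖z‖ / (1 - ‖y‖))) (hδ0 n).le
    linarith
  have hn2 : f n (h n) < 1 - ‖y‖ := by
    have h3 : ‖z‖ / (1 - ‖y‖) * f n (h n) < ‖z‖ := by
      refine lt_of_le_of_lt ?_ (lt_of_lt_of_le hn (apply_le (hfn n) z))
      exact mul_le_mul_of_nonneg_right (le_max_right 1 (‖z‖ / (1 - ‖y‖))) (hδ0 n).le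
    have h4 : 0 < 1 - ‖y‖ := by linarith
    have hz0 : 0 < ‖z‖ := lt_of_lt_of_le (lt_trans (hδ0 n) hn1) (apply_le (hfn n) z)
    rw [div_mul_eq_mul_div, div_lt_iff₀ h4] at h3
    nlinarith
  have hgz : ‖T (h n)‖ ≤ g n (T z) := by
    have := hfg n (h n) z hn1.le
    rwa [hgv] at this
  -- a point `y + v` at `f`-level of `h n`
  have hfy : -‖y‖ ≤ f n y := by
    have := apply_le (hfn n) (-y)
    rw [map_neg, norm_neg] at this
    linarith
  have hgap : f n (h n) - f n y < 1 := by linarith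
  have hgTy : g n (T y) = -(lam * g n (T z)) := by rw [hy, map_neg, map_smul, smul_eq_mul]
  have hgTz0 : 0 < g n (T z) := lt_of_lt_of_le (norm_pos_iff.2 (hTh0 n)) hgz
  have hfyneg : f n y < f n (h n) := by
    by_contra hle
    push Not at hle
    have h3 := hfg n (h n) y hle
    rw [hgv, hgTy] at h3
    have : 0 < lam * g n (T z) := by positivity
    have := norm_nonneg (T (h n))
    linarith
  set a := f n (h n) - f n y with ha
  have ha0 : 0 < a := by linarith
  obtain ⟨v, hv1, hv2⟩ := exists_unit (hfn n) (r := 1 / a) (by rw [lt_div_iff₀ ha0]; linarith)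
  have hv3 : f n (y + a • v) = f n (h n) := by
    rw [map_add, map_smul, hv1, smul_eq_mul, ha]; ring
  have hv4 : ‖(y + a • v) - y‖ < (1 : ℕ) := by
    rw [add_sub_cancel_left, norm_smul, Real.norm_of_nonneg ha0.le]
    rw [lt_div_iff₀ ha0] at hv2
    push_cast
    linarith
  rw [hT] at hv4
  have h5 := apply_le (hgn n) (T (y + a • v) - T y)
  have h6 : ‖T (h n)‖ ≤ g n (T (y + a • v)) := by
    have := hfg n (h n) (y + a • v) hv3.ge
    rwa [hgv] at this
  rw [map_sub, hgTy] at h5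
  push_cast at hv4
  have h7 : ‖T (h n)‖ + lam * g n (T z) < 1 := by linarith
  have h8 := hh2 n
  have h9 : lam * (ε * (1 - η)) ≤ lam * g n (T z) :=
    mul_le_mul_of_nonneg_left (by linarith) hlam0.le
  have h10 : ε * (1 - η) + lam * (ε * (1 - η)) < 1 := by linarith
  have h11 : lam * (ε * (1 - η)) = (1 - η) / (1 + η) := by
    rw [hlam]; field_simp
  rw [h11] at h10
  have h12 : 1 - 2 * η ≤ (1 - η) / (1 + η) := by
    rw [le_div_iff₀ (by linarith)]
    nlinarith
  have h13 : ε * (1 - η) < 2 * η := by linarith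
  rw [hη] at h13 hη1
  nlinarith

/-- Step-isometries of Banach spaces are continuous. -/
theorem continuous_of_step [CompleteSpace X] (hT : IsStep T) : Continuous T := by
  rw [continuous_iff_continuousAt]
  intro x
  let T' : X ≃ X := ((Equiv.addLeft x).trans T).trans (Equiv.subRight (T x))
  have hT' : IsStep T' := by
    intro k u v
    have := hT k (x + u) (x + v)
    simpa [T'] using this
  have h0 : T' 0 = 0 := by simp [T']
  have h1 := continuousAt_zero hT' h0
  have h2 : ContinuousAt (fun w => T' (w - x) + T x) x := by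
    have h3 : ContinuousAt (fun w : X => w - x) x := by fun_prop
    have h4 : ContinuousAt T' ((fun w : X => w - x) x) := by simpa using h1
    exact (ContinuousAt.comp (f := fun w : X => w - x) (g := T') h4 h3).add continuousAt_const
  have h5 : (fun w => T' (w - x) + T x) = T := by
    ext w
    simp [T']
  rw [h5] at h2
  exact h2

end Pool.Agent.X207.Step
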