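import Pool.Agent.X207.StepRigid

/-!
Step-isometries on dense subsets of a line.
-/

open Set Metric Filter Topology

namespace Pool.Agent.X207.Step

variable {X : Type*} [NormedAddCommGroup X] [NormedSpace ℝ X]
variable {S : Set X} {T : S ≃ S}

omit [NormedSpace ℝ X] in
lemma isStepOn_floor (h : ∀ (k : ℕ) (x y : S), ‖(x : X) - y‖ < k ↔ ‖(T x : X) - T y‖ < k) :
    IsStepOn T := h

/-- The extension theorem on a real line. -/
theorem extend_line (hS : Dense S) (hT : IsStepOn T) {v : X} (hv : v ≠ 0)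
    (hspan : ∀ b : X, ∃ r : ℝ, b = r • v) :
    ∃ F : X → X, (∀ (k : ℕ) x y, ‖x - y‖ < k ↔ ‖F x - F y‖ < k) ∧ Function.Bijective F ∧
      ∀ s : S, F s = T s := by
  obtain ⟨f, hf1, hf2, hfv⟩ := exists_extreme_norming hv
  obtain ⟨g, hgn, hgm⟩ := exists_companion_dense hS hT hf2 (dir_of_extreme hf2 hf1)
  have hv0 : 0 < ‖v‖ := norm_pos_iff.2 hv
  have habs : ∀ φ : StrongDual ℝ X, ‖φ‖ = 1 → ∀ x : X, |φ x| = ‖x‖ := by
    intro φ hφ x
    have h1 : |φ v| = ‖v‖ := by
      refine le_antisymm ?_ ?_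
      · have := φ.le_opNorm v
        rwa [hφ, one_mul] at this
      · by_contra hlt
        push Not at hlt
        have h2 : ‖φ‖ ≤ |φ v| / ‖v‖ := by
          apply φ.opNorm_le_bound (by positivity)
          intro x
          obtain ⟨r, rfl⟩ := hspan x
          rw [map_smul, norm_smul, norm_smul, Real.norm_eq_abs, Real.norm_eq_abs]
          field_simp
          exact le_rfl
        have h3 : |φ v| / ‖v‖ < 1 := by rwa [div_lt_one hv0]
        rw [hφ] at h2
        linarith
    obtain ⟨r, rfl⟩ := hspan x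
    rw [map_smul, smul_eq_mul, abs_mul, h1, norm_smul, Real.norm_eq_abs]
  have hfa := habs f hf2
  have hga := habs g hgn
  have hsurj : ∀ φ : StrongDual ℝ X, ‖φ‖ = 1 → Function.Surjective φ := by
    intro φ hφ t
    obtain ⟨e, he, -⟩ := exists_unit hφ (r := 2) (by norm_num)
    exact ⟨t • e, by rw [map_smul, he]; simp⟩
  have hinj : Function.Injective g := by
    intro x y hxy
    have := hga (x - y)
    rw [map_sub, hxy, sub_self, abs_zero] at this
    exact sub_eq_zero.1 (norm_eq_zero.1 this.symm)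
  have hinjf : Function.Injective f := by
    intro x y hxy
    have := hfa (x - y)
    rw [map_sub, hxy, sub_self, abs_zero] at this
    exact sub_eq_zero.1 (norm_eq_zero.1 this.symm)
  -- density statements
  have hbet : ∀ φ : StrongDual ℝ X, ‖φ‖ = 1 → ∀ a b : ℝ, a < b → ∃ s : S, a < φ s ∧ φ s < b := by
    intro φ hφ a b hab
    obtain ⟨c, h1, h2⟩ := exists_between hab
    obtain ⟨x, hx⟩ := hsurj φ hφ c
    exact exists_two_lt hS (fun _ => a) (fun x => φ x) (fun x => φ x) (fun _ => b)
      (by fun_prop) (by fun_prop) (by fun_prop) (by fun_prop) (x₀ := x) (by rw [hx]; exact h1)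
      (by rw [hx]; exact h2)
  -- the extension on the line
  let G : ℝ → ℝ := fun t => sSup {r | ∃ x : S, f x < t ∧ g (T x) = r}
  have hbdd : ∀ t, BddAbove {r | ∃ x : S, f x < t ∧ g (T x) = r} := by
    intro t
    obtain ⟨x₀, hx₀⟩ := exists_gt_dense hS hf2 t
    refine ⟨g (T x₀), ?_⟩
    rintro _ ⟨x, hx, rfl⟩
    exact (hgm x x₀ (hx.trans hx₀)).le
  have hne : ∀ t, {r | ∃ x : S, f x < t ∧ g (T x) = r}.Nonempty := by
    intro t
    obtain ⟨x₀, hx₀⟩ := exists_lt_dense hS hf2 t
    exact ⟨_, x₀, hx₀, rfl⟩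
  have hlo : ∀ (t : ℝ) (s : S), f s < t → g (T s) < G t := by
    intro t s hs
    obtain ⟨s', h1, h2⟩ := hbet f hf2 _ _ hs
    exact lt_of_lt_of_le (hgm s s' h1) (le_csSup (hbdd t) ⟨s', h2, rfl⟩)
  have hhi : ∀ (t : ℝ) (s : S), t < f s → G t < g (T s) := by
    intro t s hs
    obtain ⟨s', h1, h2⟩ := hbet f hf2 _ _ hs
    refine lt_of_le_of_lt ?_ (hgm s' s h2)
    apply csSup_le (hne t)
    rintro _ ⟨x, hx, rfl⟩
    exact (hgm x s' (hx.trans h1)).le
  have hGs : ∀ s : S, G (f s) = g (T s) := by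
    intro s
    apply le_antisymm
    · apply csSup_le (hne _)
      rintro _ ⟨x, hx, rfl⟩
      exact (hgm x s hx).le
    · by_contra hlt
      push Not at hlt
      obtain ⟨w, h1, h2⟩ := hbet g hgn _ _ hlt
      obtain ⟨x, rfl⟩ := T.surjective w
      have h3 : f x < f s := by
        by_contra hle
        push Not at hle
        rcases hle.eq_or_lt with h4 | h4
        · have : s = x := Subtype.ext (hinjf h4)
          rw [this] at h2
          exact lt_irrefl _ h2
        · exact lt_asymm h2 (hgm s x h4)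
      exact lt_asymm h1 (hlo _ _ h3)
  have hGstrict : StrictMono G := by
    intro t t' htt
    obtain ⟨s, h1, h2⟩ := hbet f hf2 _ _ htt
    exact (hhi _ _ h1).trans (hlo _ _ h2)
  have hGcont : Continuous G := by
    apply hGstrict.monotone.continuous_of_denseRange
    have h1 : DenseRange (fun w : S => g (w : X)) :=
      (hsurj g hgn).denseRange.comp hS.denseRange_val g.continuous
    apply Dense.mono _ h1
    rintro _ ⟨w, rfl⟩
    refine ⟨f (T.symm w), ?_⟩
    rw [hGs]; simp
  have hGsurj : Function.Surjective G := by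
    intro r
    apply mem_range_of_exists_le_of_exists_ge hGcont
    · obtain ⟨w, -, h2⟩ := hbet g hgn (r - 1) r (by linarith)
      refine ⟨f (T.symm w), ?_⟩
      rw [hGs]; simpa using h2.le
    · obtain ⟨w, h1, -⟩ := hbet g hgn r (r + 1) (by linarith)
      refine ⟨f (T.symm w), ?_⟩
      rw [hGs]; simpa using h1.le
  -- step property of `G`
  have hup : ∀ (k : ℕ) (a b : ℝ), a ≤ b → b - a < k → G b - G a < k := by
    intro k a b hab hk
    set ε := (k - (b - a)) / 2 with hε
    have hε0 : 0 < ε := by rw [hε]; linarith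
    obtain ⟨s, h1, h2⟩ := hbet f hf2 (a - ε) a (by linarith)
    obtain ⟨s', h3, h4⟩ := hbet f hf2 b (b + ε) (by linarith)
    have h5 : ‖(s' : X) - s‖ < k := by
      rw [← hfa, map_sub, abs_of_pos (by linarith)]
      linarith
    rw [hT, ← hga, map_sub] at h5
    have h6 := le_abs_self (g (T s') - g (T s))
    have h7 := hlo _ _ h2
    have h8 := hhi _ _ h3
    linarith
  have hdown : ∀ (k : ℕ) (a b : ℝ), a ≤ b → G b - G a < k → b - a < k := by
    intro k a b hab hk
    have hG := hGstrict.monotone hab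
    set ε := (k - (G b - G a)) / 2 with hε
    have hε0 : 0 < ε := by rw [hε]; linarith
    obtain ⟨w, h1, h2⟩ := hbet g hgn (G a - ε) (G a) (by linarith)
    obtain ⟨w', h3, h4⟩ := hbet g hgn (G b) (G b + ε) (by linarith)
    obtain ⟨s, rfl⟩ := T.surjective w
    obtain ⟨s', rfl⟩ := T.surjective w'
    have h5 : ‖(T s' : X) - T s‖ < k := by
      rw [← hga, map_sub, abs_of_pos (by linarith)]
      linarith
    rw [← hT, ← hfa, map_sub] at h5
    have h6 := le_abs_self (f s' - f s)
    have h7 : f s ≤ a := by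
      by_contra hlt
      push Not at hlt
      exact lt_asymm h2 (hhi _ _ hlt)
    have h8 : b ≤ f s' := by
      by_contra hlt
      push Not at hlt
      exact lt_asymm h3 (hlo _ _ hlt)
    linarith
  have hstep : ∀ (k : ℕ) (a b : ℝ), |a - b| < k ↔ |G a - G b| < k := by
    intro k a b
    rcases le_total a b with h | h
    · have hG := hGstrict.monotone h
      rw [abs_sub_comm, abs_of_nonneg (by linarith : 0 ≤ b - a), abs_sub_comm (G a),
        abs_of_nonneg (by linarith : 0 ≤ G b - G a)]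
      exact ⟨hup k a b h, hdown k a b h⟩
    · have hG := hGstrict.monotone h
      rw [abs_of_nonneg (by linarith : 0 ≤ a - b), abs_of_nonneg (by linarith : 0 ≤ G a - G b)]
      exact ⟨hup k b a h, hdown k b a h⟩
  -- the map on `X`
  choose γ hγ using hsurj g hgn
  refine ⟨fun x => γ (G (f x)), ?_, ⟨?_, ?_⟩, ?_⟩
  · intro k x y
    rw [← hfa, map_sub, hstep, ← hga, map_sub, hγ, hγ]
  · intro x y hxy
    have h1 : G (f x) = G (f y) := by
      rw [← hγ (G (f x)), ← hγ (G (f y))]
      exact congrArg g hxy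
    exact hinjf (hGstrict.injective h1)
  · intro y
    obtain ⟨t, ht⟩ := hGsurj (g y)
    obtain ⟨x, hx⟩ := hsurj f hf2 t
    refine ⟨x, hinj ?_⟩
    change g (γ (G (f x))) = g y
    rw [hγ, hx, ht]
  · intro s
    apply hinj
    change g (γ (G (f s))) = g (T s)
    rw [hγ, hGs]

/-- The extension theorem. -/
theorem extend_all [CompleteSpace X] [TopologicalSpace.SeparableSpace (StrongDual ℝ X)]
    (hsc : ∀ x y : X, ‖x‖ = 1 → ‖y‖ = 1 → x ≠ y → ‖x + y‖ < 2) (hS : Dense S)
    (hT : IsStepOn T) :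
    ∃ F : X → X, (∀ (k : ℕ) x y, ‖x - y‖ < k ↔ ‖F x - F y‖ < k) ∧ Function.Bijective F ∧
      ∀ s : S, F s = T s := by
  by_cases hdim : ∀ v : X, ∃ b : X, ∀ r : ℝ, b ≠ r • v
  · obtain ⟨F, h1, h2, h3⟩ := extend_isometry hS (isStepOn_isometry hsc hdim hS hT)
    exact ⟨F, fun k x y => by rw [h1], h2, h3⟩
  · push Not at hdim
    obtain ⟨v, hv⟩ := hdim
    by_cases hv0 : v = 0
    · have hsub : Subsingleton X := ⟨fun x y => by
        obtain ⟨r, hr⟩ := hv x
        obtain ⟨s, hs⟩ := hv y
        rw [hr, hs, hv0, smul_zero, smul_zero]⟩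
      exact ⟨id, fun k x y => Iff.rfl, Function.bijective_id, fun s => Subsingleton.elim _ _⟩
    · exact extend_line hS hT hv0 hv

end Pool.Agent.X207.Step
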