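import Pool.Agent.X207.StepDense

/-!
Rigidity of step-isometries on dense subsets of strictly convex spaces with separable dual.
-/

open Set Metric Filter Topology

namespace Pool.Agent.X207.Step

variable {X : Type*} [NormedAddCommGroup X] [NormedSpace ℝ X]

/-- The extreme functionals of norm one. -/
def Ext (X : Type*) [NormedAddCommGroup X] [NormedSpace ℝ X] : Set (StrongDual ℝ X) :=
  {f | f ∈ (closedBall (0 : StrongDual ℝ X) 1).extremePoints ℝ ∧ ‖f‖ = 1}

lemma norm_le_of_ext {v : X} {C : ℝ} (hC : 0 ≤ C) (h : ∀ f ∈ Ext X, f v ≤ C) : ‖v‖ ≤ C := by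
  by_cases hv : v = 0
  · rw [hv, norm_zero]; exact hC
  · obtain ⟨g, hg1, hg2, hg3⟩ := exists_extreme_norming hv
    rw [← hg3]
    exact h g ⟨hg1, hg2⟩

variable {S : Set X} {T : S ≃ S}

/-- Given companions of all extreme functionals there is a vector realising the companion
values. -/
lemma exists_vector [CompleteSpace X] (hS : Dense S)
    (g : StrongDual ℝ X → StrongDual ℝ X) (hgn : ∀ f ∈ Ext X, ‖g f‖ = 1)
    (hgb : ∀ f ∈ Ext X, ∀ x x' : S, |(g f (T x) - g f (T x')) - (f x - f x')| ≤ 2) (D : X) :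
    ∃ u : X, ∀ f ∈ Ext X, f u = g f D := by
  have hs : ∀ n : ℕ, ∃ y : S, ‖(T y : X) - (n : ℝ) • D‖ < 1 := by
    intro n
    obtain ⟨z, hz, hzS⟩ := hS.inter_open_nonempty (ball ((n : ℝ) • D) 1) isOpen_ball
      ⟨(n : ℝ) • D, mem_ball_self one_pos⟩
    obtain ⟨y, hy⟩ := T.surjective ⟨z, hzS⟩
    refine ⟨y, ?_⟩
    rw [hy]
    rwa [mem_ball_iff_norm] at hz
  choose y hy using hs
  set C : ℝ := 3 + ‖(T (y 0) : X)‖ + ‖(y 0 : X)‖ with hC
  have hC0 : 0 ≤ C := by positivity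
  have key : ∀ f ∈ Ext X, ∀ n : ℕ, |f (y n) - n * g f D| ≤ C := by
    intro f hf n
    have h1 := hgb f hf (y n) (y 0)
    have h2 := apply_le (hgn f hf) ((T (y n) : X) - (n : ℝ) • D)
    have h3 := apply_le (hgn f hf) (-((T (y n) : X) - (n : ℝ) • D))
    have h4 := apply_le (hgn f hf) (T (y 0) : X)
    have h5 := apply_le (hgn f hf) (-(T (y 0) : X))
    have h6 := apply_le hf.2 (y 0 : X)
    have h7 := apply_le hf.2 (-(y 0 : X))
    rw [map_sub, map_smul, smul_eq_mul] at h2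
    rw [map_neg, map_sub, map_smul, smul_eq_mul, norm_neg] at h3
    rw [map_neg, norm_neg] at h5 h7
    have h8 := hy n
    rw [abs_le] at h1 ⊢
    constructor <;> rw [hC] <;> linarith [h1.1, h1.2]
  -- the sequence `y n / n`
  have hdiff : ∀ n m : ℕ, 1 ≤ n → 1 ≤ m →
      ‖((n : ℝ)⁻¹ • (y n : X)) - ((m : ℝ)⁻¹ • (y m : X))‖ ≤ C * (n : ℝ)⁻¹ + C * (m : ℝ)⁻¹ := by
    intro n m hn hm
    have hn' : (0 : ℝ) < n := by exact_mod_cast hn
    have hm' : (0 : ℝ) < m := by exact_mod_cast hm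
    apply norm_le_of_ext (by positivity)
    intro f hf
    rw [map_sub, map_smul, map_smul, smul_eq_mul, smul_eq_mul]
    have h1 := (abs_le.1 (key f hf n)).2
    have h2 := (abs_le.1 (key f hf m)).1
    have h3 : (n : ℝ)⁻¹ * f (y n) ≤ g f D + C * (n : ℝ)⁻¹ := by
      rw [inv_mul_le_iff₀ hn', mul_add, mul_comm (n : ℝ) (C * _), mul_assoc C,
        inv_mul_cancel₀ hn'.ne']
      linarith
    have h4 : g f D - C * (m : ℝ)⁻¹ ≤ (m : ℝ)⁻¹ * f (y m) := by
      rw [le_inv_mul_iff₀ hm', mul_sub, mul_comm (m : ℝ) (C * _), mul_assoc C,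
        inv_mul_cancel₀ hm'.ne']
      linarith
    linarith
  have hcau : CauchySeq fun n : ℕ => (((n + 1 : ℕ) : ℝ)⁻¹ • (y (n + 1) : X)) := by
    rw [Metric.cauchySeq_iff]
    intro ε hε
    obtain ⟨N, hN⟩ := exists_nat_gt (2 * C / ε)
    have hN' : (0 : ℝ) < N := lt_of_le_of_lt (by positivity) hN
    refine ⟨N, fun n hn m hm => ?_⟩
    rw [dist_eq_norm]
    have h1 := hdiff (n + 1) (m + 1) (by omega) (by omega)
    have bound : ∀ k : ℕ, N ≤ k → C * ((k + 1 : ℕ) : ℝ)⁻¹ ≤ C * (N : ℝ)⁻¹ := by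
      intro k hk
      apply mul_le_mul_of_nonneg_left _ hC0
      apply inv_anti₀ hN'
      exact_mod_cast (by omega : N ≤ k + 1)
    have h2 := bound n hn
    have h3 := bound m hm
    have h4 : C * (N : ℝ)⁻¹ < ε / 2 := by
      rw [mul_inv_lt_iff₀ hN']
      rw [div_lt_iff₀ hε] at hN
      linarith
    linarith
  obtain ⟨u, hu⟩ := cauchySeq_tendsto_of_complete hcau
  refine ⟨u, fun f hf => ?_⟩
  have h1 : Tendsto (fun n : ℕ => f (((n + 1 : ℕ) : ℝ)⁻¹ • (y (n + 1) : X))) atTop (𝓝 (f u)) :=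
    (f.continuous.tendsto u).comp hu
  have h2 : Tendsto (fun n : ℕ => f (((n + 1 : ℕ) : ℝ)⁻¹ • (y (n + 1) : X))) atTop
      (𝓝 (g f D)) := by
    have h3 : Tendsto (fun n : ℕ => C * ((n + 1 : ℕ) : ℝ)⁻¹) atTop (𝓝 0) := by
      have := (tendsto_inv_atTop_nhds_zero_nat (𝕜 := ℝ)).comp (tendsto_add_atTop_nat 1)
      simpa using this.const_mul C
    rw [tendsto_iff_dist_tendsto_zero]
    refine squeeze_zero (fun _ => dist_nonneg) (fun n => ?_) h3
    rw [Real.dist_eq, map_smul, smul_eq_mul]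
    have hn' : (0 : ℝ) < ((n + 1 : ℕ) : ℝ) := by positivity
    have h4 := key f hf (n + 1)
    have e : ((n + 1 : ℕ) : ℝ)⁻¹ * f (y (n + 1)) - g f D =
        ((n + 1 : ℕ) : ℝ)⁻¹ * (f (y (n + 1)) - ((n + 1 : ℕ) : ℝ) * g f D) := by
      rw [mul_sub, ← mul_assoc, inv_mul_cancel₀ hn'.ne', one_mul]
    rw [e, abs_mul, abs_of_pos (inv_pos.2 hn'), mul_comm]
    exact mul_le_mul_of_nonneg_right h4 (inv_pos.2 hn').le
  exact tendsto_nhds_unique h1 h2

/-- Two distinct functionals of norm one at distance less than `2` take any two values. -/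
lemma exists_pair {f f' : StrongDual ℝ X} (hf : ‖f‖ = 1) (hf' : ‖f'‖ = 1) (hne : f' ≠ f)
    (hd : ‖f' - f‖ < 2) (a b : ℝ) : ∃ z : X, f z = a ∧ f' z = b := by
  have aux : ∀ p q : StrongDual ℝ X, ‖p‖ = 1 → ‖q‖ = 1 → q ≠ p → ‖q - p‖ < 2 →
      ∃ z : X, p z = 0 ∧ q z ≠ 0 := by
    intro p q hp hq hqp hqpd
    by_contra hno
    push Not at hno
    obtain ⟨e, he, -⟩ := exists_unit hp (r := 2) (by norm_num)
    have h1 : q = (q e) • p := by
      ext x
      have h2 := hno (x - p x • e) (by simp [he])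
      rw [map_sub, map_smul, smul_eq_mul] at h2
      rw [smul_apply, smul_eq_mul]
      linarith
    have h3 : |q e| = 1 := by
      have h4 : ‖q‖ = |q e| := by
        conv_lhs => rw [h1]
        rw [norm_smul, hp, mul_one, Real.norm_eq_abs]
      rw [← h4, hq]
    rcases (abs_eq (by norm_num : (0:ℝ) ≤ 1)).1 h3 with h5 | h5
    · rw [h5, one_smul] at h1
      exact hqp h1
    · rw [h5] at h1
      rw [h1] at hqpd
      have : (-1 : ℝ) • p - p = (-2 : ℝ) • p := by module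
      rw [this, norm_smul, hp] at hqpd
      norm_num at hqpd
  obtain ⟨z₀, h0, h0'⟩ := aux f f' hf hf' hne hd
  obtain ⟨z₁, h1, h1'⟩ := aux f' f hf' hf hne.symm (by rw [norm_sub_rev]; exact hd)
  refine ⟨(a / f z₁) • z₁ + (b / f' z₀) • z₀, ?_, ?_⟩
  · rw [map_add, map_smul, map_smul, h0, smul_eq_mul, smul_eq_mul, mul_zero, add_zero,
      div_mul_cancel₀ _ h1']
  · rw [map_add, map_smul, map_smul, h1, smul_eq_mul, smul_eq_mul, mul_zero, zero_add,
      div_mul_cancel₀ _ h0']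

/-- A level near which the companion values of a functional vary little. -/
lemma exists_level (hS : Dense S) {f g : StrongDual ℝ X} (hn : ‖f‖ = 1)
    (h : ∀ x x' : S, f x < f x' → g (T x) < g (T x')) :
    ∃ c : ℝ, ∀ ε > 0, ∃ δ > 0, ∀ x x' : S, |f x - c| < δ → |f x' - c| < δ →
      |g (T x) - g (T x')| ≤ ε := by
  let Φ : ℝ → ℝ := fun t => sSup {r | ∃ x : S, f x < t ∧ g (T x) = r}
  have hbdd : ∀ t, BddAbove {r | ∃ x : S, f x < t ∧ g (T x) = r} := by
    intro t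
    obtain ⟨x₀, hx₀⟩ := exists_gt_dense hS hn t
    refine ⟨g (T x₀), ?_⟩
    rintro _ ⟨x, hx, rfl⟩
    exact (h x x₀ (hx.trans hx₀)).le
  have hne : ∀ t, {r | ∃ x : S, f x < t ∧ g (T x) = r}.Nonempty := by
    intro t
    obtain ⟨x₀, hx₀⟩ := exists_lt_dense hS hn t
    exact ⟨_, x₀, hx₀, rfl⟩
  have hmono : Monotone Φ := by
    intro s t hst
    apply csSup_le_csSup (hbdd t) (hne s)
    rintro _ ⟨x, hx, rfl⟩
    exact ⟨x, lt_of_lt_of_le hx hst, rfl⟩
  obtain ⟨c, hc⟩ : ∃ c, ContinuousAt Φ c := by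
    by_contra hno
    push Not at hno
    have h1 := hmono.countable_not_continuousAt
    have h2 : {x | ¬ContinuousAt Φ x} = univ := by
      ext x; simp [hno x]
    rw [h2] at h1
    exact not_countable_univ h1
  refine ⟨c, fun ε hε => ?_⟩
  rw [Metric.continuousAt_iff] at hc
  obtain ⟨δ, hδ, hcδ⟩ := hc (ε / 2) (by positivity)
  have key : ∀ x : S, |f x - c| < δ → |g (T x) - Φ c| ≤ ε / 2 := by
    intro x hx
    rw [abs_lt] at hx
    obtain ⟨t₁, h1, h2⟩ := exists_between (show c - δ < f x by linarith)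
    obtain ⟨t₂, h3, h4⟩ := exists_between (show f x < c + δ by linarith)
    have h5 : Φ t₁ ≤ g (T x) := by
      apply csSup_le (hne t₁)
      rintro _ ⟨x', hx', rfl⟩
      exact (h x' x (hx'.trans h2)).le
    have h6 : g (T x) ≤ Φ t₂ := le_csSup (hbdd t₂) ⟨x, h3, rfl⟩
    have h7 : |Φ t₁ - Φ c| < ε / 2 := by
      apply hcδ
      rw [Real.dist_eq, abs_lt]
      constructor <;> linarith
    have h8 : |Φ t₂ - Φ c| < ε / 2 := by
      apply hcδ
      rw [Real.dist_eq, abs_lt]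
      constructor <;> linarith
    rw [abs_lt] at h7 h8
    rw [abs_le]
    constructor <;> linarith
  refine ⟨δ, hδ, fun x x' hx hx' => ?_⟩
  have h1 := abs_le.1 (key x hx)
  have h2 := abs_le.1 (key x' hx')
  rw [abs_le]
  constructor <;> linarith

/-- Non-isolated extreme functionals. -/
def NonIso (X : Type*) [NormedAddCommGroup X] [NormedSpace ℝ X] : Set (StrongDual ℝ X) :=
  {f | f ∈ Ext X ∧ ∀ ρ > 0, ∃ f' ∈ Ext X, f' ≠ f ∧ ‖f' - f‖ < ρ}

lemma rigid_of_nonIso [CompleteSpace X] (hS : Dense S)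
    (g : StrongDual ℝ X → StrongDual ℝ X) (hgn : ∀ f ∈ Ext X, ‖g f‖ = 1)
    (hgm : ∀ f ∈ Ext X, ∀ x x' : S, f x < f x' → g f (T x) < g f (T x'))
    (hgb : ∀ f ∈ Ext X, ∀ x x' : S, |(g f (T x) - g f (T x')) - (f x - f x')| ≤ 2)
    {f : StrongDual ℝ X} (hf : f ∈ NonIso X) (x x' : S) :
    g f (T x) - g f (T x') ≤ f x - f x' := by
  apply le_of_forall_pos_le_add
  intro ρ hρ
  obtain ⟨f', hf'E, hne, hd⟩ := hf.2 (min (ρ / 8) 2) (by positivity)
  have hd1 : ‖f' - f‖ < ρ / 8 := lt_of_lt_of_le hd (min_le_left _ _)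
  have hd2 : ‖f' - f‖ < 2 := lt_of_lt_of_le hd (min_le_right _ _)
  obtain ⟨c, hc⟩ := exists_level hS hf'E.2 (hgm f' hf'E)
  obtain ⟨δ, hδ, hcδ⟩ := hc (ρ / 8) (by positivity)
  set δ' := min δ (ρ / 8) with hδ'
  have hδ'0 : 0 < δ' := lt_min hδ (by positivity)
  have hδ'1 : δ' ≤ δ := min_le_left _ _
  have hδ'2 : δ' ≤ ρ / 8 := min_le_right _ _
  obtain ⟨z₁, hz1, hz1'⟩ := exists_pair hf.1.2 hf'E.2 hne hd2 (f x + ρ / 16) c
  obtain ⟨z₂, hz2, hz2'⟩ := exists_pair hf.1.2 hf'E.2 hne hd2 (f x' - ρ / 16) c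
  obtain ⟨x₁, ha1, ha2⟩ := exists_two_lt hS (fun z => |f z - (f x + ρ / 16)|) (fun _ => ρ / 16)
    (fun z => |f' z - c|) (fun _ => δ') (by fun_prop) (by fun_prop) (by fun_prop) (by fun_prop)
    (x₀ := z₁) (by rw [hz1, sub_self, abs_zero]; positivity)
    (by rw [hz1', sub_self, abs_zero]; exact hδ'0)
  obtain ⟨x₂, hb1, hb2⟩ := exists_two_lt hS (fun z => |f z - (f x' - ρ / 16)|) (fun _ => ρ / 16)
    (fun z => |f' z - c|) (fun _ => δ') (by fun_prop) (by fun_prop) (by fun_prop) (by fun_prop)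
    (x₀ := z₂) (by rw [hz2, sub_self, abs_zero]; positivity)
    (by rw [hz2', sub_self, abs_zero]; exact hδ'0)
  rw [abs_lt] at ha1 hb1
  have h1 : g f (T x) < g f (T x₁) := hgm f hf.1 x x₁ (by linarith)
  have h2 : g f (T x₂) < g f (T x') := hgm f hf.1 x₂ x' (by linarith)
  have h3 := hcδ x₁ x₂ (lt_of_lt_of_le ha2 hδ'1) (lt_of_lt_of_le hb2 hδ'1)
  rw [abs_lt] at ha2 hb2
  rw [abs_le] at h3
  obtain ⟨u, hu⟩ := exists_vector hS g hgn hgb ((T x₁ : X) - T x₂)
  have h4 : ‖u - ((x₁ : X) - x₂)‖ ≤ 2 := by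
    apply norm_le_of_ext (by norm_num)
    intro φ hφ
    rw [map_sub, hu φ hφ, map_sub, map_sub]
    exact (abs_le.1 (hgb φ hφ x₁ x₂)).2
  have h5 := hu f hf.1
  have h6 := hu f' hf'E
  rw [map_sub] at h5 h6
  have h7 : f (u - ((x₁ : X) - x₂)) ≤ f' (u - ((x₁ : X) - x₂)) + ρ / 8 * 2 := by
    have h8 := (f' - f).le_opNorm (u - ((x₁ : X) - x₂))
    rw [Real.norm_eq_abs, abs_le, sub_apply] at h8
    have h9 : ‖f' - f‖ * ‖u - ((x₁ : X) - x₂)‖ ≤ ρ / 8 * 2 :=
      mul_le_mul hd1.le h4 (norm_nonneg _) (by positivity)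
    linarith [h8.1]
  rw [map_sub, map_sub, map_sub, map_sub] at h7
  linarith [h3.1, h3.2, ha2.1, ha2.2, hb2.1, hb2.2]

lemma countable_iso [TopologicalSpace.SeparableSpace (StrongDual ℝ X)] :
    (Ext X \ NonIso X).Countable := by
  have h : ∀ f : StrongDual ℝ X, ∃ ρ : ℝ, 0 < ρ ∧
      (f ∈ Ext X \ NonIso X → ∀ f' ∈ Ext X, f' ≠ f → ρ ≤ ‖f' - f‖) := by
    intro f
    by_cases hf : f ∈ Ext X \ NonIso X
    · have h1 := hf.2
      simp only [NonIso, mem_ofPred_eq, not_and] at h1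
      have h2 := h1 hf.1
      push Not at h2
      obtain ⟨ρ, hρ, h3⟩ := h2
      exact ⟨ρ, hρ, fun _ => h3⟩
    · exact ⟨1, one_pos, fun h => absurd h hf⟩
  choose ρ hρ hρ' using h
  apply Set.PairwiseDisjoint.countable_of_isOpen (s := fun f => ball f (ρ f / 2))
  · intro f hf f' hf' hne
    apply ball_disjoint_ball
    have h1 := hρ' f hf f' hf'.1 hne.symm
    have h2 := hρ' f' hf' f hf.1 hne
    rw [norm_sub_rev] at h1
    rw [dist_eq_norm]
    linarith
  · intro f _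
    exact isOpen_ball
  · intro f _
    exact ⟨f, mem_ball_self (by linarith [hρ f])⟩

/-- In a space of dimension at least two that is strictly convex with separable dual, the
non-isolated extreme functionals are norming. -/
lemma norming_nonIso [TopologicalSpace.SeparableSpace (StrongDual ℝ X)]
    (hsc : ∀ x y : X, ‖x‖ = 1 → ‖y‖ = 1 → x ≠ y → ‖x + y‖ < 2)
    (hdim : ∀ v : X, ∃ b : X, ∀ r : ℝ, b ≠ r • v) {v : X} (hv : v ≠ 0) {ρ : ℝ} (hρ : 0 < ρ) :
    ∃ f ∈ NonIso X, ‖v‖ - ρ < f v := by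
  by_contra hno
  push Not at hno
  obtain ⟨b, hb⟩ := hdim v
  set δ := ρ / (2 * ‖b‖ + 1) with hδ
  have hδ0 : 0 < δ := by positivity
  have hp0 : ∀ s : ℝ, v + s • b ≠ 0 := by
    intro s hs
    have hs0 : s ≠ 0 := by
      rintro rfl
      rw [zero_smul, add_zero] at hs
      exact hv hs
    apply hb (-s⁻¹)
    have : s • b = -v := by rw [eq_neg_iff_add_eq_zero, add_comm]; exact hs
    rw [neg_smul, ← smul_neg, ← this, smul_smul, inv_mul_cancel₀ hs0, one_smul]
  choose φ hφ1 hφ2 hφ3 using fun s : ℝ => exists_extreme_norming (hp0 s)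
  have hmaps : MapsTo φ (Ioo 0 δ) (Ext X \ NonIso X) := by
    intro s hs
    refine ⟨⟨hφ1 s, hφ2 s⟩, fun hN => ?_⟩
    have h1 := hno _ hN
    have h2 := hφ3 s
    have h3 := apply_le (hφ2 s) (s • b)
    have h4 : ‖v‖ ≤ ‖v + s • b‖ + ‖s • b‖ := by
      have := norm_sub_le (v + s • b) (s • b)
      rwa [add_sub_cancel_right] at this
    rw [map_add] at h2
    rw [norm_smul, Real.norm_of_nonneg hs.1.le] at h3 h4
    have h5 : s * (2 * ‖b‖ + 1) < ρ := by
      have := hs.2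
      rwa [hδ, lt_div_iff₀ (by positivity)] at this
    have h6 := hs.1
    nlinarith
  have hinj : InjOn φ (Ioo 0 δ) := by
    intro s _ s' _ heq
    by_contra hne
    have n1 : 0 < ‖v + s • b‖ := norm_pos_iff.2 (hp0 s)
    have n2 : 0 < ‖v + s' • b‖ := norm_pos_iff.2 (hp0 s')
    have hneq : ‖v + s • b‖⁻¹ • (v + s • b) ≠ ‖v + s' • b‖⁻¹ • (v + s' • b) := by
      intro he
      set α := ‖v + s • b‖⁻¹ with hα
      set β := ‖v + s' • b‖⁻¹ with hβ
      have hα0 : 0 < α := inv_pos.2 n1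
      have hβ0 : 0 < β := inv_pos.2 n2
      have h1 : (α * s - β * s') • b = (β - α) • v := by
        have : α • v + (α * s) • b = β • v + (β * s') • b := by
          simpa [smul_add, smul_smul] using he
        rw [sub_smul, sub_smul, sub_eq_sub_iff_add_eq_add, add_comm, this, add_comm]
      by_cases h2 : α * s - β * s' = 0
      · rw [h2, zero_smul] at h1
        rcases smul_eq_zero.1 h1.symm with h3 | h3
        · have h4 : β = α := by linarith
          rw [h4, ← mul_sub] at h2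
          rcases mul_eq_zero.1 h2 with h5 | h5
          · exact hα0.ne' h5
          · exact hne (by linarith)
        · exact hv h3
      · apply hb ((α * s - β * s')⁻¹ * (β - α))
        rw [← smul_smul, ← h1, smul_smul, inv_mul_cancel₀ h2, one_smul]
    have h1 := hsc _ _ (by rw [norm_smul, norm_inv, norm_norm, inv_mul_cancel₀ n1.ne'])
      (by rw [norm_smul, norm_inv, norm_norm, inv_mul_cancel₀ n2.ne']) hneq
    have h2 := apply_le (hφ2 s)
      (‖v + s • b‖⁻¹ • (v + s • b) + ‖v + s' • b‖⁻¹ • (v + s' • b))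
    rw [map_add, map_smul, map_smul, smul_eq_mul, smul_eq_mul, hφ3 s, inv_mul_cancel₀ n1.ne',
      heq, hφ3 s', inv_mul_cancel₀ n2.ne'] at h2
    linarith
  have hc := hmaps.countable_of_injOn hinj countable_iso
  have h1 := Cardinal.mk_Ioo_real hδ0
  have h2 : Cardinal.mk (Ioo (0 : ℝ) δ) ≤ Cardinal.aleph0 := by
    rw [Cardinal.mk_le_aleph0_iff]
    exact hc
  rw [h1] at h2
  exact absurd h2 (not_le.2 Cardinal.aleph0_lt_continuum)

lemma isStepOn_le [CompleteSpace X] [TopologicalSpace.SeparableSpace (StrongDual ℝ X)]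
    (hsc : ∀ x y : X, ‖x‖ = 1 → ‖y‖ = 1 → x ≠ y → ‖x + y‖ < 2)
    (hdim : ∀ v : X, ∃ b : X, ∀ r : ℝ, b ≠ r • v) (hS : Dense S) (hT : IsStepOn T)
    (x x' : S) : ‖(x : X) - x'‖ ≤ ‖(T x : X) - T x'‖ := by
  have hex : ∀ f : StrongDual ℝ X, ∃ g : StrongDual ℝ X, f ∈ Ext X → (‖g‖ = 1 ∧
      ∀ x x' : S, f x < f x' → g (T x) < g (T x')) := by
    intro f
    by_cases hf : f ∈ Ext X
    · obtain ⟨g, hg⟩ := exists_companion_dense hS hT hf.2 (dir_of_extreme hf.2 hf.1)
      exact ⟨g, fun _ => hg⟩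
    · exact ⟨0, fun h => absurd h hf⟩
  choose g hg using hex
  have hgb : ∀ f ∈ Ext X, ∀ x x' : S, |(g f (T x) - g f (T x')) - (f x - f x')| ≤ 2 :=
    fun f hf => companion_bound hS hT hf.2 (hg f hf).1 (hg f hf).2
  by_cases hxx : (x : X) - x' = 0
  · rw [hxx, norm_zero]; exact norm_nonneg _
  apply le_of_forall_pos_le_add
  intro ρ hρ
  obtain ⟨f, hf, hfv⟩ := norming_nonIso hsc hdim hxx hρ
  have h1 := rigid_of_nonIso hS g (fun f hf => (hg f hf).1) (fun f hf => (hg f hf).2) hgb hf x' x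
  have h2 := apply_le (hg f hf.1).1 ((T x : X) - T x')
  rw [map_sub] at h2 hfv
  linarith

/-- Rigidity: the step-isometry on the dense set is an isometry. -/
theorem isStepOn_isometry [CompleteSpace X] [TopologicalSpace.SeparableSpace (StrongDual ℝ X)]
    (hsc : ∀ x y : X, ‖x‖ = 1 → ‖y‖ = 1 → x ≠ y → ‖x + y‖ < 2)
    (hdim : ∀ v : X, ∃ b : X, ∀ r : ℝ, b ≠ r • v) (hS : Dense S) (hT : IsStepOn T)
    (x x' : S) : ‖(T x : X) - T x'‖ = ‖(x : X) - x'‖ := by
  apply le_antisymm _ (isStepOn_le hsc hdim hS hT x x')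
  have := isStepOn_le hsc hdim hS hT.symm (T x) (T x')
  simpa using this

omit [NormedSpace ℝ X] in
/-- Extension of an isometric bijection of a dense set. -/
theorem extend_isometry [CompleteSpace X] (hS : Dense S)
    (h : ∀ x x' : S, ‖(T x : X) - T x'‖ = ‖(x : X) - x'‖) :
    ∃ F : X → X, (∀ x y, ‖F x - F y‖ = ‖x - y‖) ∧ Function.Bijective F ∧
      ∀ s : S, F s = T s := by
  have hd : IsDenseInducing (Subtype.val : S → X) := hS.isDenseInducing_val
  have hu : UniformContinuous (fun s : S => (T s : X)) := by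
    apply Isometry.uniformContinuous
    apply Isometry.of_dist_eq
    intro x y
    rw [dist_eq_norm, h, Subtype.dist_eq, dist_eq_norm]
  have hui : IsUniformInducing (Subtype.val : S → X) := isUniformEmbedding_subtype_val.isUniformInducing
  let F : X → X := hd.extend (fun s : S => (T s : X))
  have hFc : Continuous F :=
    (uniformContinuous_uniformly_extend hui hd.dense hu).continuous
  have hFs : ∀ s : S, F s = T s := fun s =>
    hd.extend_eq_at (hu.continuous.continuousAt)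
  have hFi : ∀ x y, ‖F x - F y‖ = ‖x - y‖ := by
    have hcl : IsClosed {p : X × X | ‖F p.1 - F p.2‖ = ‖p.1 - p.2‖} :=
      isClosed_eq (by fun_prop) (by fun_prop)
    have hsub : S ×ˢ S ⊆ {p : X × X | ‖F p.1 - F p.2‖ = ‖p.1 - p.2‖} := by
      rintro ⟨x, y⟩ ⟨hx, hy⟩
      have h1 := hFs ⟨x, hx⟩
      have h2 := hFs ⟨y, hy⟩
      simp only at h1 h2
      change ‖F x - F y‖ = ‖x - y‖
      rw [h1, h2]
      exact h ⟨x, hx⟩ ⟨y, hy⟩
    intro x y
    have hdd : Dense (S ×ˢ S) := hS.prod hS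
    have h3 := closure_minimal hsub hcl (hdd (x, y))
    exact h3
  have hiso : Isometry F := Isometry.of_dist_eq fun x y => by
    rw [dist_eq_norm, dist_eq_norm, hFi]
  refine ⟨F, hFi, ⟨hiso.injective, ?_⟩, hFs⟩
  have hr : IsClosed (range F) := hiso.isClosedEmbedding.isClosed_range
  have hsub : S ⊆ range F := by
    intro s hs
    obtain ⟨x, hx⟩ := T.surjective ⟨s, hs⟩
    exact ⟨x, by rw [hFs, hx]⟩
  intro y
  exact closure_minimal hsub hr (hS y)

end Pool.Agent.X207.Step
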